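import Pool.Agent.P.MP_7eacff_nt.SZ.Basic

/-!
Abel summation against weights.
-/

open Complex Filter Topology MeasureTheory Set
open scoped Real ContDiff

namespace Pool.Agent.P.MP_7eacff_nt.SZ

open Pool.Agent.Lib.LargeSieve (primSet mem_primSet)

namespace AbelAux

theorem gen (a v : ℕ → ℂ) (w : ℕ → ℝ) {Y N : ℕ} (hN : Y ≤ N)
    (h : ∀ n, Y ≤ n →
      ‖∑ m ∈ Finset.Ioc Y (n + 1), a m‖ * ‖v (n + 1 + 1) - v (n + 1)‖ ≤ w n - w (n + 1)) :
    ‖∑ n ∈ Finset.Ioc Y (N + 1), a n * v n‖ ≤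
      ‖∑ m ∈ Finset.Ioc Y (N + 1), a m‖ * ‖v (N + 1)‖ + (w Y - w N) := by
  have key : ‖∑ n ∈ Finset.Ioc Y (N + 1), a n * v n -
      (∑ m ∈ Finset.Ioc Y (N + 1), a m) * v (N + 1)‖ ≤ w Y - w N := by
    induction N, hN using Nat.le_induction with
    | base => simp
    | succ n hn ih =>
      have e : ∑ m ∈ Finset.Ioc Y (n + 1 + 1), a m * v m -
          (∑ m ∈ Finset.Ioc Y (n + 1 + 1), a m) * v (n + 1 + 1) =
          (∑ m ∈ Finset.Ioc Y (n + 1), a m * v m -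
            (∑ m ∈ Finset.Ioc Y (n + 1), a m) * v (n + 1)) -
          (∑ m ∈ Finset.Ioc Y (n + 1), a m) * (v (n + 1 + 1) - v (n + 1)) := by
        rw [Finset.sum_Ioc_succ_top (Nat.le_succ_of_le hn),
          Finset.sum_Ioc_succ_top (Nat.le_succ_of_le hn) a]
        ring
      rw [e]
      refine (norm_sub_le _ _).trans ?_
      rw [norm_mul]
      linarith [h n hn]
  rw [← norm_mul]
  exact (norm_le_insert' _ _).trans (add_le_add le_rfl key)

theorem mv {V : ℝ → ℂ} {C X : ℝ} (hd : ∀ x, 0 < x → DifferentiableAt ℝ V x) (hC : 0 ≤ C)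
    (hb : ∀ x, 0 < x → ‖deriv V x‖ ≤ C / (1 + x) ^ 3) (hX : 0 < X) (n : ℕ) :
    ‖V ((n + 1 + 1 : ℕ) / X) - V ((n + 1 : ℕ) / X)‖ ≤ C / (1 + (n + 1 : ℕ) / X) ^ 3 * X⁻¹ := by
  have h0 : (0 : ℝ) < (n + 1 : ℕ) / X := by positivity
  have e : ((n + 1 + 1 : ℕ) : ℝ) / X - (n + 1 : ℕ) / X = X⁻¹ := by
    push_cast
    ring
  have h := (convex_Ici (((n + 1 : ℕ) : ℝ) / X)).norm_image_sub_le_of_norm_deriv_le (f := V)
    (C := C / (1 + (n + 1 : ℕ) / X) ^ 3) (fun x hx => hd x (h0.trans_le hx))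
    (fun x hx => (hb x (h0.trans_le hx)).trans (by
      have : ((n + 1 : ℕ) : ℝ) / X ≤ x := hx
      gcongr)) self_mem_Ici (y := (n + 1 + 1 : ℕ) / X)
    (mem_Ici.2 (sub_nonneg.1 (e ▸ (inv_pos.2 hX).le)))
  rwa [e, Real.norm_of_nonneg (by positivity)] at h

theorem tel1 {t h : ℝ} (ht : 0 ≤ t) (hh : 0 < h) :
    (t + h) * h / (1 + (t + h)) ^ 3 ≤ 1 / (1 + t) - 1 / (1 + (t + h)) := by
  rw [div_sub_div _ _ (by positivity) (by positivity), div_le_div_iff₀ (by positivity)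
    (by positivity)]
  have e : (1 * (1 + (t + h)) - (1 + t) * 1) * (1 + (t + h)) ^ 3 -
      (t + h) * h * ((1 + t) * (1 + (t + h))) =
      h * (1 + (t + h)) * ((1 + (t + h)) + h * (t + h)) := by ring
  have : 0 ≤ h * (1 + (t + h)) * ((1 + (t + h)) + h * (t + h)) := by positivity
  linarith

theorem tel2 {t h : ℝ} (ht : 0 ≤ t) (hh : 0 < h) :
    h / (1 + (t + h)) ^ 3 ≤ 1 / (1 + t) ^ 2 - 1 / (1 + (t + h)) ^ 2 := by
  rw [div_sub_div _ _ (by positivity) (by positivity), div_le_div_iff₀ (by positivity)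
    (by positivity)]
  have e : (1 * (1 + (t + h)) ^ 2 - (1 + t) ^ 2 * 1) * (1 + (t + h)) ^ 3 -
      h * ((1 + t) ^ 2 * (1 + (t + h)) ^ 2) =
      h * (1 + (t + h)) ^ 2 * ((1 + (t + h)) ^ 2 + (1 + t) * h) := by ring
  have : 0 ≤ h * (1 + (t + h)) ^ 2 * ((1 + (t + h)) ^ 2 + (1 + t) * h) := by positivity
  linarith

theorem cast_div (n : ℕ) (X : ℝ) : ((n + 1 : ℕ) : ℝ) / X = n / X + X⁻¹ := by
  push_cast
  ring

theorem cases_N (Y N : ℕ) : N ≤ Y ∨ ∃ n, Y ≤ n ∧ N = n + 1 := by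
  rcases le_or_gt N Y with h | h
  · exact Or.inl h
  · exact Or.inr ⟨N - 1, by omega, by omega⟩

theorem trunc (Z : ℝ) (hZ : 0 ≤ Z) (f : AF) (c : ℕ → ℂ) {d : ℕ} (hd : 0 < d) (x : ℕ) :
    ∃ N : ℕ, ((d * N : ℕ) : ℝ) ≤ Z ∧ ∑ n ∈ Finset.Icc 1 x, lo Z f (d * n) * c n =
      ∑ n ∈ Finset.Ioc 0 N, c n * f (d * n) := by
  have hd' : (0 : ℝ) < d := Nat.cast_pos.2 hd
  have key : ∀ n : ℕ, ((d * n : ℕ) : ℝ) ≤ Z ↔ n ≤ ⌊Z / d⌋₊ := fun n => by
    rw [Nat.le_floor_iff (by positivity), le_div_iff₀' hd', Nat.cast_mul]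
  refine ⟨min x ⌊Z / d⌋₊, (key _).2 (min_le_right _ _), ?_⟩
  simp only [lo_apply, key, ite_mul, zero_mul]
  rw [← Finset.sum_filter]
  refine Finset.sum_congr ?_ fun n _ => mul_comm _ _
  ext n
  simp only [Finset.mem_filter, Finset.mem_Icc, Finset.mem_Ioc, le_min_iff]
  omega

end AbelAux

theorem abel_lin {V : ℝ → ℂ} {M : ℂ → ℂ} (hV : Vcl V M) : ∃ C : ℝ, 0 ≤ C ∧
    ∀ (a : ℕ → ℂ) (η X : ℝ) (Y N : ℕ), 0 ≤ η → 0 < X →
      (∀ x : ℕ, Y ≤ x → ‖∑ n ∈ Finset.Icc 1 x, a n‖ ≤ η * x) →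
      ‖∑ n ∈ Finset.Ioc Y N, a n * V (n / X)‖ ≤ C * η * X := by
  obtain ⟨C, hC, hb⟩ := hV.bd
  refine ⟨4 * C, by positivity, fun a η X Y N hη hX h => ?_⟩
  rcases AbelAux.cases_N Y N with hN | ⟨N, hN, rfl⟩
  · rw [Finset.Ioc_eq_empty_of_le hN, Finset.sum_empty, norm_zero]
    positivity
  have hS : ∀ n, Y ≤ n → ‖∑ m ∈ Finset.Ioc Y (n + 1), a m‖ ≤ 2 * η * (n + 1 : ℕ) := fun n hn => by
    have e := Finset.sum_Ioc_consecutive a (Nat.zero_le Y) (Nat.le_succ_of_le hn)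
    have h1 : ‖∑ m ∈ Finset.Ioc 0 (n + 1), a m‖ ≤ η * (n + 1 : ℕ) := h _ (Nat.le_succ_of_le hn)
    have h2 : ‖∑ m ∈ Finset.Ioc 0 Y, a m‖ ≤ η * Y := h _ le_rfl
    have h3 : η * Y ≤ η * (n + 1 : ℕ) :=
      mul_le_mul_of_nonneg_left (Nat.cast_le.2 (Nat.le_succ_of_le hn)) hη
    rw [eq_sub_of_add_eq' e]
    linarith [norm_sub_le (∑ m ∈ Finset.Ioc 0 (n + 1), a m) (∑ m ∈ Finset.Ioc 0 Y, a m)]
  have hK : 0 ≤ 2 * η * C * X := by positivity
  refine (AbelAux.gen a (fun n => V (n / X)) (fun n => 2 * η * C * X * (1 / (1 + n / X))) hN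
    fun n hn => ?_).trans ?_
  · refine (mul_le_mul (hS n hn) (AbelAux.mv hV.diff hC (fun x hx => (hb x hx).2) hX n)
      (norm_nonneg _) (by positivity)).trans ?_
    have h1 := mul_le_mul_of_nonneg_left
      (AbelAux.tel1 (t := n / X) (by positivity) (inv_pos.2 hX)) hK
    rw [← AbelAux.cast_div] at h1
    rw [← mul_sub]
    refine le_trans (le_of_eq ?_) h1
    field_simp
  · have h0 : (0 : ℝ) < (N + 1 : ℕ) / X := by positivity
    have h1 := mul_le_mul (hS N hN) (hb _ h0).1 (norm_nonneg _) (by positivity)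
    have h2 : 2 * η * (N + 1 : ℕ) * (C / (1 + (N + 1 : ℕ) / X) ^ 2) =
        2 * η * C * X * ((N + 1 : ℕ) / X / (1 + (N + 1 : ℕ) / X) ^ 2) := by field_simp
    have h3 : ((N + 1 : ℕ) : ℝ) / X / (1 + (N + 1 : ℕ) / X) ^ 2 ≤ 1 :=
      (div_le_one (by positivity)).2 (by nlinarith)
    have h4 : (1 : ℝ) / (1 + Y / X) ≤ 1 :=
      (div_le_one (by positivity)).2 (le_add_of_nonneg_right (by positivity))
    have h5 : 0 ≤ 2 * η * C * X * (1 / (1 + N / X)) := by positivity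
    linarith [mul_le_of_le_one_right hK h3, mul_le_of_le_one_right hK h4]

theorem abel_const {V : ℝ → ℂ} {M : ℂ → ℂ} (hV : Vcl V M) : ∃ C : ℝ, 0 ≤ C ∧
    ∀ (a : ℕ → ℂ) (P X : ℝ) (Y N : ℕ), 0 < X → (∀ x : ℕ, ‖∑ n ∈ Finset.Ioc Y x, a n‖ ≤ P) →
      ‖∑ n ∈ Finset.Ioc Y N, a n * V (n / X)‖ ≤ C * P / (1 + Y / X) ^ 2 := by
  obtain ⟨C, hC, hb⟩ := hV.bd
  refine ⟨2 * C, by positivity, fun a P X Y N hX h => ?_⟩
  have hP : 0 ≤ P := (norm_nonneg _).trans (h 0)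
  rcases AbelAux.cases_N Y N with hN | ⟨N, hN, rfl⟩
  · rw [Finset.Ioc_eq_empty_of_le hN, Finset.sum_empty, norm_zero]
    positivity
  have hK : 0 ≤ P * C := by positivity
  refine (AbelAux.gen a (fun n => V (n / X)) (fun n => P * C * (1 / (1 + n / X) ^ 2)) hN
    fun n hn => ?_).trans ?_
  · refine (mul_le_mul (h _) (AbelAux.mv hV.diff hC (fun x hx => (hb x hx).2) hX n)
      (norm_nonneg _) hP).trans ?_
    have h1 := mul_le_mul_of_nonneg_left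
      (AbelAux.tel2 (t := n / X) (by positivity) (inv_pos.2 hX)) hK
    rw [← AbelAux.cast_div] at h1
    rw [← mul_sub]
    refine le_trans (le_of_eq ?_) h1
    ring
  · have h0 : (0 : ℝ) < (N + 1 : ℕ) / X := by positivity
    have h1 := mul_le_mul (h (N + 1)) (hb _ h0).1 (norm_nonneg _) hP
    have h2 : (Y : ℝ) ≤ (N + 1 : ℕ) := Nat.cast_le.2 (Nat.le_succ_of_le hN)
    have h3 : P * (C / (1 + (N + 1 : ℕ) / X) ^ 2) ≤ P * (C / (1 + Y / X) ^ 2) := by gcongr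
    have h5 : 0 ≤ P * C * (1 / (1 + N / X) ^ 2) := by positivity
    have e : 2 * C * P / (1 + Y / X) ^ 2 =
      P * (C / (1 + Y / X) ^ 2) + P * C * (1 / (1 + Y / X) ^ 2) := by ring
    linarith

theorem abel_mono {a : ℕ → ℂ} {g : ℕ → ℝ} (hg : Monotone g) (h0 : ∀ n, 0 ≤ g n) {P : ℝ} {Y : ℕ}
    (h : ∀ x : ℕ, ‖∑ n ∈ Finset.Ioc Y x, a n‖ ≤ P) (N : ℕ) :
    ‖∑ n ∈ Finset.Ioc Y N, a n * g n‖ ≤ 2 * P * g N := by
  have hP : 0 ≤ P := (norm_nonneg _).trans (h 0)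
  rcases AbelAux.cases_N Y N with hN | ⟨N, hN, rfl⟩
  · rw [Finset.Ioc_eq_empty_of_le hN, Finset.sum_empty, norm_zero]
    exact mul_nonneg (by positivity) (h0 _)
  refine (AbelAux.gen a (fun n => g n) (fun n => -(P * g (n + 1))) hN fun n _ => ?_).trans ?_
  · rw [← Complex.ofReal_sub, Complex.norm_real,
      Real.norm_of_nonneg (sub_nonneg.2 (hg (Nat.le_succ _)))]
    linarith [mul_le_mul_of_nonneg_right (h (n + 1)) (sub_nonneg.2 (hg (Nat.le_succ (n + 1))))]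
  · rw [Complex.norm_real, Real.norm_of_nonneg (h0 _)]
    linarith [mul_le_mul_of_nonneg_right (h (N + 1)) (h0 (N + 1)), mul_nonneg hP (h0 (Y + 1))]

theorem canc_smooth {y : ℝ} (hy : 0 < y) {f : AF} (hf : f = 1 ∨ f = un ∨ f = lg) :
    Canc y (tr f) := by
  intro C A
  have hl := (isLittleO_log_rpow_rpow_atTop ((2 * C + 1 + A : ℕ) : ℝ) hy).bound
    (show (0 : ℝ) < 1 / 40 by norm_num)
  filter_upwards [hl, Real.tendsto_log_atTop.eventually_ge_atTop 1, eventually_gt_atTop 0] with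
    T h1 hL hT q hq hqL ψ hψ d g hd hg _ x hx
  have hL0 : 0 < Real.log T := by linarith
  rw [Real.rpow_natCast, Real.norm_of_nonneg (by positivity),
    Real.norm_of_nonneg (by positivity)] at h1
  have hq1 : (1 : ℝ) ≤ q := Nat.one_le_cast.2 hq.le
  have ht := one_le_tau hg.ne'
  have hP : ∀ x : ℕ, ‖∑ n ∈ Finset.Ioc 0 x, tw ψ g n‖ ≤ tau g * (Real.log T ^ C) ^ 2 := fun x => by
    refine (pv_tw hq hψ hg x).trans (mul_le_mul_of_nonneg_left ?_ (by linarith))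
    have a1 : √(q : ℝ) ≤ q := Real.sqrt_le_self_iff.2 (Or.inr hq1)
    have a2 : 1 + Real.log q ≤ q := by
      linarith [Real.log_le_sub_one_of_pos (by linarith : (0 : ℝ) < q)]
    rw [sq]
    exact mul_le_mul (a1.trans hqL) (a2.trans hqL) (by linarith [Real.log_nonneg hq1])
      (by positivity)
  have hK : 1 ≤ tau g * (Real.log T ^ C) ^ 2 :=
    one_le_mul_of_one_le_of_one_le ht (one_le_pow₀ (one_le_pow₀ hL))
  obtain ⟨N, hN, e⟩ := AbelAux.trunc (T ^ 20) (by positivity) f (tw ψ g) hd x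
  have key : ‖∑ n ∈ Finset.Ioc 0 N, tw ψ g n * f (d * n)‖ ≤
      2 * (tau g * (Real.log T ^ C) ^ 2) * (20 * Real.log T) := by
    rcases hf with rfl | rfl | rfl
    · have a1 : ∀ n ∈ Finset.Ioc 0 N, ‖tw ψ g n * (1 : AF) (d * n)‖ ≤ if n = 1 then 1 else 0 :=
        fun n _ => by
          rw [ArithmeticFunction.one_apply]
          split_ifs with b1 b2
          · simpa using norm_tw_le ψ g n
          · exact absurd (Nat.eq_one_of_mul_eq_one_left b1) b2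
          · simp
          · simp
      refine (norm_sum_le_of_le _ a1).trans ?_
      rw [Finset.sum_ite_eq']
      split_ifs <;> nlinarith
    · rw [Finset.sum_congr rfl fun n hn => by
        rw [un_apply (Nat.mul_pos hd (Finset.mem_Ioc.1 hn).1).ne', mul_one]]
      nlinarith [hP N]
    · simp only [lg_apply]
      refine (abel_mono (g := fun n => Real.log (d * n : ℕ)) (fun m n hmn => ?_)
        (fun n => Real.log_natCast_nonneg _) hP N).trans (mul_le_mul_of_nonneg_left ?_ (by linarith))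
      · rcases Nat.eq_zero_or_pos m with rfl | hm
        · simpa using Real.log_natCast_nonneg (d * n)
        · exact Real.log_le_log (Nat.cast_pos.2 (Nat.mul_pos hd hm))
            (Nat.cast_le.2 (Nat.mul_le_mul_left d hmn))
      · rcases Nat.eq_zero_or_pos N with rfl | hm
        · simpa using hL0.le
        · refine (Real.log_le_log (Nat.cast_pos.2 (Nat.mul_pos hd hm)) hN).trans_eq ?_
          rw [Real.log_pow]
          norm_num
  rw [tr, e]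
  refine key.trans ?_
  rw [le_div_iff₀ (by positivity)]
  calc _ = tau g * (40 * Real.log T ^ (2 * C + 1 + A)) := by ring
    _ ≤ tau g * x := mul_le_mul_of_nonneg_left (by linarith) (by linarith)

end Pool.Agent.P.MP_7eacff_nt.SZ
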