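import Pool.Agent.P.MP_7eacff_nt.SZ.Basic

/-!
Dilation of a convolution.
-/

open Complex Filter Topology MeasureTheory Set
open scoped Real ContDiff

namespace Pool.Agent.P.MP_7eacff_nt.SZ

open Pool.Agent.Lib.LargeSieve (primSet mem_primSet)

namespace DilAux

theorem dil (F : ℕ × ℕ → ℂ) {d : ℕ} (hd : d ≠ 0) (m : ℕ) :
    ∑ x ∈ (d * m).divisorsAntidiagonal, F x = ∑ p ∈ d.divisorsAntidiagonal,
      ∑ y ∈ m.divisorsAntidiagonal, if y.1.Coprime p.2 then F (p.1 * y.1, p.2 * y.2) else 0 := by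
  rw [← Finset.sum_product', ← Finset.sum_filter]
  refine (Finset.sum_bij (fun z _ => (z.1.1 * z.2.1, z.1.2 * z.2.2)) ?_ ?_ ?_ fun _ _ => rfl).symm
  · rintro ⟨⟨a, b⟩, w, n⟩ h
    simp only [Finset.mem_filter, Finset.mem_product, Nat.mem_divisorsAntidiagonal] at h ⊢
    exact ⟨by rw [← h.1.1.1, ← h.1.2.1]; ring, mul_ne_zero hd h.1.2.2⟩
  · rintro ⟨⟨a, b⟩, w, n⟩ h ⟨⟨a', b'⟩, w', n'⟩ h' e
    simp only [Finset.mem_filter, Finset.mem_product, Nat.mem_divisorsAntidiagonal,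
      Prod.mk.injEq] at h h' e ⊢
    have e1 : a = a' := by
      have h1 : Nat.gcd (a * w) (a * b) = a := by rw [Nat.gcd_mul_left, h.2, mul_one]
      have h2 : Nat.gcd (a' * w') (a' * b') = a' := by rw [Nat.gcd_mul_left, h'.2, mul_one]
      rw [← h1, ← h2, e.1, h.1.1.1, h'.1.1.1]
    subst e1
    have ha : a ≠ 0 := left_ne_zero_of_mul (h.1.1.1 ▸ hd)
    have hb : b ≠ 0 := right_ne_zero_of_mul (h.1.1.1 ▸ hd)
    have e2 : b = b' := mul_left_cancel₀ ha (h.1.1.1.trans h'.1.1.1.symm)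
    subst e2
    exact ⟨⟨rfl, rfl⟩, mul_left_cancel₀ ha e.1, mul_left_cancel₀ hb e.2⟩
  · rintro ⟨a, b⟩ h
    obtain ⟨h1, h2⟩ := Nat.mem_divisorsAntidiagonal.1 h
    obtain ⟨w, d', hc, e1, e2⟩ := Nat.exists_coprime a d
    generalize a.gcd d = g at e1 e2
    subst e1 e2
    have hg : g ≠ 0 := right_ne_zero_of_mul hd
    have h3 : w * b = d' * m := mul_left_cancel₀ hg (by simp only at h1; linear_combination h1)
    obtain ⟨n, rfl⟩ : d' ∣ b := hc.symm.dvd_of_dvd_mul_left ⟨m, h3⟩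
    have h4 : w * n = m :=
      mul_left_cancel₀ (left_ne_zero_of_mul hd) (by linear_combination h3)
    refine ⟨((g, d'), w, n), ?_, by simp [mul_comm]⟩
    simp only [Finset.mem_filter, Finset.mem_product, Nat.mem_divisorsAntidiagonal]
    exact ⟨⟨⟨mul_comm _ _, hd⟩, h4, right_ne_zero_of_mul h2⟩, hc⟩

theorem regroup (H : ℕ → ℕ → ℂ) {N₁ N₂ : ℕ} (h1 : ∀ w n, N₁ < w → H w n = 0)
    (h2 : ∀ w n, N₂ < n → H w n = 0) :
    HasSum (fun m : ℕ => ∑ y ∈ m.divisorsAntidiagonal, H y.1 y.2)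
      (∑ w ∈ Finset.Icc 1 N₁, ∑ n ∈ Finset.Icc 1 N₂, H w n) := by
  rw [← Finset.sum_product']
  convert hasSum_sum fun (y : ℕ × ℕ) (_ : y ∈ Finset.Icc 1 N₁ ×ˢ Finset.Icc 1 N₂) =>
    hasSum_ite_eq (y.1 * y.2) (H y.1 y.2) using 2 with m
  rw [← Finset.sum_filter]
  refine (Finset.sum_subset (fun y hy => ?_) fun y hy hy' => ?_).symm
  · simp only [Finset.mem_filter, Finset.mem_product, Finset.mem_Icc] at hy
    exact Nat.mem_divisorsAntidiagonal.2 ⟨hy.2.symm, hy.2 ▸ mul_ne_zero (by omega) (by omega)⟩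
  · obtain ⟨a, b⟩ := Nat.ne_zero_of_mem_divisorsAntidiagonal hy
    by_contra h
    refine hy' ?_
    simp only [Finset.mem_filter, Finset.mem_product, Finset.mem_Icc]
    exact ⟨⟨⟨by omega, not_lt.1 fun c => h (h1 _ _ c)⟩, by omega, not_lt.1 fun c => h (h2 _ _ c)⟩,
      (Nat.mem_divisorsAntidiagonal.1 hy).1.symm⟩

theorem sum_inv_sqrt (N : ℕ) : ∑ q ∈ Finset.Icc 1 N, 1 / √(q : ℝ) ≤ 2 * √(N : ℝ) := by
  induction N with
  | zero => simp
  | succ N ih =>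
    rw [Finset.sum_Icc_succ_top (by omega)]
    have h0 : (0 : ℝ) < (N + 1 : ℕ) := by positivity
    have h1 := Real.sqrt_pos.2 h0
    have h2 := Real.sq_sqrt h0.le
    have h3 := Real.sq_sqrt (Nat.cast_nonneg (α := ℝ) N)
    have h4 : 1 / √((N + 1 : ℕ) : ℝ) ≤ 2 * √((N + 1 : ℕ) : ℝ) - 2 * √(N : ℝ) := by
      rw [div_le_iff₀ h1]
      have : ((N + 1 : ℕ) : ℝ) = N + 1 := by push_cast; rfl
      nlinarith only [h2, h3, this, sq_nonneg (√((N + 1 : ℕ) : ℝ) - √(N : ℝ))]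
    linarith only [ih, h4]

end DilAux

open DilAux

theorem SS_mul (V : ℝ → ℂ) {f g : AF} {N₁ N₂ : ℕ} (hf : ∀ n, N₁ < n → f n = 0)
    (hg : ∀ n, N₂ < n → g n = 0) {d : ℕ} (hd : 0 < d) {ψ : ℕ → ℂ}
    (hψ : ∀ a b, ψ (a * b) = ψ a * ψ b) (X : ℝ) :
    SS V (f * g : AF) d ψ X = ∑ p ∈ d.divisorsAntidiagonal, ∑ w ∈ Finset.Icc 1 N₁,
      ∑ n ∈ Finset.Icc 1 N₂, (if w.Coprime p.2 then f (p.1 * w) else 0) * ψ w *
        (g (p.2 * n) * ψ n) * V (w * n / X) := by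
  refine HasSum.tsum_eq ?_
  convert hasSum_sum fun (p : ℕ × ℕ) (hp : p ∈ d.divisorsAntidiagonal) => regroup
    (fun w n => (if w.Coprime p.2 then f (p.1 * w) else 0) * ψ w * (g (p.2 * n) * ψ n) *
      V (w * n / X)) (N₁ := N₁) (N₂ := N₂) (fun w n h => ?_) (fun w n h => ?_) using 2 with m
  · rw [ArithmeticFunction.mul_apply, dil _ hd.ne']
    simp only [Finset.sum_mul]
    refine Finset.sum_congr rfl fun p _ => Finset.sum_congr rfl fun y hy => ?_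
    rw [← (Nat.mem_divisorsAntidiagonal.1 hy).1, hψ, Nat.cast_mul]
    split_ifs
    · ring
    · simp
  · have := Nat.pos_of_ne_zero (Nat.ne_zero_of_mem_divisorsAntidiagonal hp).1
    simp [hf _ (h.trans_le (Nat.le_mul_of_pos_left w this))]
  · have := Nat.pos_of_ne_zero (Nat.ne_zero_of_mem_divisorsAntidiagonal hp).2
    simp [hg _ (h.trans_le (Nat.le_mul_of_pos_left n this))]

theorem SS_eq_sum (V : ℝ → ℂ) {f : AF} {N : ℕ} (hf : ∀ n, N < n → f n = 0) {d : ℕ} (hd : 0 < d)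
    (ψ : ℕ → ℂ) (X : ℝ) :
    SS V f d ψ X = ∑ m ∈ Finset.Icc 1 N, f (d * m) * ψ m * V (m / X) := by
  refine tsum_eq_sum fun m hm => ?_
  rcases Nat.eq_zero_or_pos m with rfl | h
  · simp
  · have : N < m := not_le.1 fun c => hm (Finset.mem_Icc.2 ⟨h, c⟩)
    simp [hf _ (this.trans_le (Nat.le_mul_of_pos_left m hd))]

theorem SS_add (V : ℝ → ℂ) {f g : AF} {N : ℕ} (hf : ∀ n, N < n → f n = 0)
    (hg : ∀ n, N < n → g n = 0) {d : ℕ} (hd : 0 < d) (ψ : ℕ → ℂ) (X : ℝ) :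
    SS V (f + g : AF) d ψ X = SS V f d ψ X + SS V g d ψ X := by
  rw [SS_eq_sum V hf hd, SS_eq_sum V hg hd, SS_eq_sum V (f := f + g) (N := N)
    (fun n h => by simp [hf n h, hg n h]) hd, ← Finset.sum_add_distrib]
  simp [add_mul]

theorem SS_neg (V : ℝ → ℂ) (f : AF) (d : ℕ) (ψ : ℕ → ℂ) (X : ℝ) :
    SS V (-f : AF) d ψ X = -SS V f d ψ X := by
  simp [SS, tsum_neg]

theorem NB_nonneg (V : ℝ → ℂ) (f : ℕ → ℂ) (Q₀ Q₁ : ℝ) (d : ℕ) (Y : ℝ) :
    0 ≤ NB V f Q₀ Q₁ d Y :=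
  Finset.sum_nonneg fun _ _ => by positivity

/-- A bound valid for each character. -/
theorem NB_le_of_forall (V : ℝ → ℂ) (f : ℕ → ℂ) {Q₀ Q₁ E Y : ℝ} (d : ℕ) (h0 : 1 ≤ Q₀)
    (h1 : 0 ≤ Q₁) (hE : 0 ≤ E) (h : ∀ q : ℕ, 1 < q → (q : ℝ) ≤ Q₁ → ∀ ψ ∈ primSet q,
      ‖SS V f d (fun m => ψ m) (q * Y)‖ ≤ E) : NB V f Q₀ Q₁ d Y ≤ 2 * √Q₁ * E := by
  calc NB V f Q₀ Q₁ d Y ≤ ∑ q ∈ (Finset.Icc 1 ⌊Q₁⌋₊).filter fun q : ℕ => Q₀ < (q : ℝ),
        1 / √(q : ℝ) * E := Finset.sum_le_sum fun q hq => by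
        obtain ⟨hq1, hq2⟩ := Finset.mem_filter.1 hq
        obtain ⟨a, b⟩ := Finset.mem_Icc.1 hq1
        have c : (0 : ℝ) < q := by exact_mod_cast a
        have e : 1 / √(q : ℝ) = (q : ℝ) ^ (-(3 / 2) : ℝ) * q := by
          rw [← Real.rpow_add_one c.ne', Real.sqrt_eq_rpow, one_div, ← Real.rpow_neg c.le]
          norm_num
        have s := Finset.sum_le_card_nsmul _ _ E
          (h q (by exact_mod_cast h0.trans_lt hq2) ((Nat.le_floor_iff h1).1 b))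
        rw [nsmul_eq_mul] at s
        rw [e, mul_assoc]
        exact mul_le_mul_of_nonneg_left (s.trans
          (mul_le_mul_of_nonneg_right (card_primSet_le q a) hE)) (by positivity)
    _ ≤ ∑ q ∈ Finset.Icc 1 ⌊Q₁⌋₊, 1 / √(q : ℝ) * E :=
      Finset.sum_le_sum_of_subset_of_nonneg (Finset.filter_subset _ _) fun _ _ _ => by positivity
    _ ≤ _ := by
      rw [← Finset.sum_mul]
      refine mul_le_mul_of_nonneg_right ((sum_inv_sqrt _).trans ?_) hE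
      gcongr
      exact Nat.floor_le h1

end Pool.Agent.P.MP_7eacff_nt.SZ
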