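import Pool.Agent.P.MP_7eacff_nt.SZ.Fam
import Pool.Agent.P.MP_7eacff_nt.SZ.Dil
import Pool.Agent.P.MP_7eacff_nt.SZ.Abel

/-!
Sums of type one, short sums and far sums.
-/

open Complex Filter Topology MeasureTheory Set
open scoped Real ContDiff

namespace Pool.Agent.P.MP_7eacff_nt.SZ

open Pool.Agent.Lib.LargeSieve (primSet mem_primSet)

namespace TypeIAux

theorem small_of {θ η : ℝ} {V : ℝ → ℂ} {f : ℝ → AF} (j c : ℕ) {C : ℝ} (hC : 0 ≤ C)
    (h : ∀ᶠ T : ℝ in atTop, ∀ (Q Y : ℝ) (d : ℕ), 0 < d → 1 ≤ Q → Q * d ≤ T ^ θ → T ≤ Y →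
      Y ≤ T ^ 2 → ∀ q : ℕ, 1 < q → (q : ℝ) ≤ Q → ∀ ψ ∈ primSet q,
        √Q * ‖SS V (f T) d (fun m => ψ m) (q * Y)‖ ≤
          C * tau d ^ j * Real.log T ^ c * (Y * T ^ (-(η / 2)))) : SmallB θ η V f := by
  refine ⟨j + c + 1, ?_⟩
  filter_upwards [h, ev_le_log (2 * C), ev_le_log 1, eventually_ge_atTop (1 : ℝ)] with T h h1 h2
    hT Q₀ Q Y d hQ₀ hd hQ hQd hY hY2
  have hs : 0 < √Q := Real.sqrt_pos.2 (by linarith)
  have ht := one_le_tau hd.ne_zero
  have hY0 : 0 ≤ Y := by linarith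
  have hL : 0 ≤ Real.log T := by linarith
  have ht0 := tau_nonneg d
  refine (NB_le_of_forall V (f T) d hQ₀ (by linarith)
    (E := C * tau d ^ j * Real.log T ^ c * (Y * T ^ (-(η / 2))) / √Q) (by positivity)
    fun q hq hqQ ψ hψ => (le_div_iff₀' hs).2
      (h Q Y d (Nat.pos_of_ne_zero hd.ne_zero) hQ hQd hY hY2 q hq hqQ ψ hψ)).trans ?_
  rw [mul_assoc, mul_div_cancel₀ _ hs.ne']
  have h3 : 2 * C * Real.log T ^ c ≤ Real.log T ^ (j + c + 1) :=
    (mul_le_mul_of_nonneg_right h1 (by positivity)).trans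
      (by rw [← pow_succ']; exact pow_le_pow_right₀ h2 (by omega))
  have h4 : tau d ^ j ≤ tau d ^ (j + c + 1) := pow_le_pow_right₀ ht (by omega)
  have h5 : T ^ (-(η / 2)) ≤ Q₀ ^ (-(1 / 2) : ℝ) + T ^ (-(η / 2)) :=
    le_add_of_nonneg_left (by positivity)
  calc 2 * (C * tau d ^ j * Real.log T ^ c * (Y * T ^ (-(η / 2))))
      = tau d ^ j * Y * (2 * C * Real.log T ^ c) * T ^ (-(η / 2)) := by ring
    _ ≤ _ := by gcongr

theorem sqrt_le {θ η T Q Y : ℝ} {d : ℕ} (hη : 0 < η) (h : 2 * θ + 3 * η ≤ 1) (hT : 1 ≤ T)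
    (hd : 0 < d) (hQ : 1 ≤ Q) (hQd : Q * d ≤ T ^ θ) (hY : T ≤ Y) :
    √Q * T ^ (θ + η) ≤ Y * T ^ (-(η / 2)) := by
  have hT0 : 0 < T := by linarith
  have h1 : Q ≤ T ^ θ := (le_mul_of_one_le_right (by linarith) (Nat.one_le_cast.2 hd)).trans hQd
  have h2 : √Q ≤ T ^ (θ / 2) := by
    refine (Real.sqrt_le_sqrt h1).trans_eq ?_
    rw [Real.sqrt_eq_rpow, ← Real.rpow_mul hT0.le, mul_one_div]
  have hθ : θ ≤ 1 := by linarith
  calc √Q * T ^ (θ + η) ≤ T ^ (θ / 2) * T ^ (θ + η) := by gcongr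
    _ = T ^ (θ / 2 + (θ + η)) := (Real.rpow_add hT0 _ _).symm
    _ ≤ T ^ (1 + -(η / 2)) := Real.rpow_le_rpow_of_exponent_le hT (by
        rcases le_total θ 0 with h0 | h0 <;> linarith)
    _ = T * T ^ (-(η / 2)) := by rw [Real.rpow_add hT0, Real.rpow_one]
    _ ≤ _ := by gcongr

theorem le_T {θ η T x : ℝ} (hη : 0 < η) (h : 2 * θ + 3 * η ≤ 1) (hθ : 0 < θ) (hT : 1 ≤ T)
    (hx : x ≤ T ^ θ) : x ≤ T ^ (1 - η) ∧ x ≤ T :=
  ⟨hx.trans (Real.rpow_le_rpow_of_exponent_le hT (by linarith)),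
    hx.trans ((Real.rpow_le_rpow_of_exponent_le hT (by linarith : θ ≤ 1)).trans_eq
      (Real.rpow_one T))⟩

theorem norm_dil {f : AF} {A : ℝ} {j : ℕ} (hA : 0 ≤ A) (hf : ∀ n, ‖f n‖ ≤ A * tau n ^ j)
    (d m : ℕ) : ‖f (d * m)‖ ≤ A * tau d ^ j * tau m ^ j := by
  refine (hf _).trans ?_
  rw [mul_assoc, ← mul_pow]
  exact mul_le_mul_of_nonneg_left (pow_le_pow_left₀ (tau_nonneg _) (tau_mul_le d m) j) hA

theorem exists_mono {l : AF} (hl : l = un ∨ l = lg) : ∃ G : ℕ → ℝ, Monotone G ∧ (∀ n, 0 ≤ G n) ∧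
    (∀ n, n ≠ 0 → l n = G n) ∧ ∀ n : ℕ, G n ≤ 1 + Real.log n := by
  rcases hl with rfl | rfl
  · exact ⟨fun _ => 1, monotone_const, fun _ => zero_le_one, fun n hn => by simp [un_apply hn],
      fun n => le_add_of_nonneg_right (Real.log_natCast_nonneg n)⟩
  · refine ⟨fun n => Real.log n, fun a b hab => ?_, Real.log_natCast_nonneg,
      fun n _ => lg_apply n, fun n => by linarith⟩
    rcases Nat.eq_zero_or_pos a with rfl | ha
    · simpa using Real.log_natCast_nonneg b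
    · exact Real.log_le_log (Nat.cast_pos.2 ha) (Nat.cast_le.2 hab)

theorem interval {l : AF} (hl : l = un ∨ l = lg) {q : ℕ} (hq : 1 < q)
    {ψ : DirichletCharacter ℂ q} (hψ : ψ ∈ primSet q) {Z W B : ℝ} (hZ : 0 ≤ Z) (hW : 0 ≤ W)
    (hB : ∀ x : ℝ, 0 ≤ x → x ≤ W → 1 + Real.log x ≤ B) {e : ℕ} (he : 0 < e) (x : ℕ) :
    ‖∑ n ∈ Finset.Ioc ⌊Z / e⌋₊ x, hi Z (lo W l) (e * n) * ψ n‖ ≤
      4 * (√q * (1 + Real.log q)) * B := by
  obtain ⟨G, h1, h2, h3, h4⟩ := exists_mono hl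
  have he' : (0 : ℝ) < e := Nat.cast_pos.2 he
  have key : ∀ (S : ℝ), 0 ≤ S → ∀ n : ℕ, n ≤ ⌊S / e⌋₊ ↔ ((e * n : ℕ) : ℝ) ≤ S := fun S hS n => by
    rw [Nat.le_floor_iff (by positivity), le_div_iff₀' he', Nat.cast_mul]
  have e1 : ∑ n ∈ Finset.Ioc ⌊Z / e⌋₊ x, hi Z (lo W l) (e * n) * ψ n =
      ∑ n ∈ Finset.Ioc ⌊Z / e⌋₊ (min x ⌊W / e⌋₊), (ψ n : ℂ) * (G (e * n) : ℝ) := by
    rw [← Finset.sum_subset (Finset.Ioc_subset_Ioc_right (min_le_left x ⌊W / e⌋₊))]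
    · refine Finset.sum_congr rfl fun n hn => ?_
      obtain ⟨a1, a2⟩ := Finset.mem_Ioc.1 hn
      rw [hi_apply, if_pos (not_le.1 fun h => a1.not_ge ((key Z hZ n).2 h)), lo_apply,
        if_pos ((key W hW n).1 (a2.trans (min_le_right _ _))),
        h3 _ (Nat.mul_ne_zero he.ne' (by omega)), mul_comm]
    · intro n hn hn'
      have a1 := Finset.mem_Ioc.1 hn
      have a2 : ¬n ≤ ⌊W / e⌋₊ := fun h => hn' (Finset.mem_Ioc.2 ⟨a1.1, le_min a1.2 h⟩)
      rw [hi_apply, lo_apply, if_neg fun h => a2 ((key W hW n).2 h), ite_self, zero_mul]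
  have h5 := abel_mono (a := fun n : ℕ => (ψ n : ℂ)) (g := fun n => G (e * n))
    (fun a b hab => h1 (Nat.mul_le_mul_left e hab)) (fun n => h2 _) (Y := ⌊Z / e⌋₊)
    (P := 2 * (√q * (1 + Real.log q))) (fun y => by
      have := pv_Ioc hq hψ one_pos ⌊Z / e⌋₊ y
      simpa [tw_one, tau] using this) (min x ⌊W / e⌋₊)
  have h6 := (h4 _).trans (hB _ (Nat.cast_nonneg _) ((key W hW _).1 (min_le_right x _)))
  have h7 := Real.log_natCast_nonneg q
  rw [e1]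
  refine h5.trans ?_
  rw [← mul_assoc, show (2 : ℝ) * 2 = 4 by norm_num]
  gcongr

theorem inner {V : ℝ → ℂ} {M : ℂ → ℂ} (hV : Vcl V M) {l : AF} (hl : l = un ∨ l = lg) :
    ∃ C : ℝ, 0 ≤ C ∧ ∀ q : ℕ, 1 < q → ∀ ψ ∈ primSet q, ∀ Z W B X : ℝ, 0 ≤ W → 0 < X →
      (∀ x : ℝ, 0 ≤ x → x ≤ W → 1 + Real.log x ≤ B) → ∀ e N : ℕ, 0 < e → (e : ℝ) ≤ Z →
      ‖∑ n ∈ Finset.Icc 1 N, hi Z (lo W l) (e * n) * ψ n * V (n / X)‖ ≤
        C * (√q * (1 + Real.log q)) * B * (e * X / Z) := by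
  obtain ⟨C, hC, h⟩ := abel_const hV
  refine ⟨8 * C, by positivity, fun q hq ψ hψ Z W B X hW hX hB e N he hZ => ?_⟩
  have he' : (0 : ℝ) < e := Nat.cast_pos.2 he
  have hZ0 : 0 < Z := he'.trans_le hZ
  have h1 := h _ _ X _ N hX (interval hl hq hψ hZ0.le hW hB he)
  have h2 : 1 ≤ ⌊Z / e⌋₊ := (Nat.one_le_floor_iff _).2 ((one_le_div he').2 hZ)
  have h3 : Z / e ≤ 2 * (⌊Z / e⌋₊ : ℝ) := by
    have := Nat.lt_floor_add_one (Z / e)
    have h4 : (1 : ℝ) ≤ ⌊Z / e⌋₊ := Nat.one_le_cast.2 h2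
    linarith
  have hB0 : 0 ≤ B := le_trans (by simp) (hB 0 le_rfl hW)
  have h7 := Real.log_natCast_nonneg q
  rw [← Finset.sum_subset (s₁ := Finset.Ioc ⌊Z / e⌋₊ N)]
  · refine h1.trans ?_
    have h4 : Z / (2 * (e * X)) ≤ (1 + (⌊Z / e⌋₊ : ℝ) / X) ^ 2 := by
      have h5 : Z / (2 * (e * X)) ≤ (⌊Z / e⌋₊ : ℝ) / X := by
        rw [← mul_assoc, ← div_div]
        gcongr
        rw [mul_comm, ← div_div]
        linarith
      have h6 : 0 ≤ (⌊Z / e⌋₊ : ℝ) / X := by positivity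
      nlinarith
    refine (div_le_div_of_nonneg_left (by positivity) (by positivity) h4).trans_eq ?_
    field_simp
    ring
  · intro n hn
    obtain ⟨a1, a2⟩ := Finset.mem_Ioc.1 hn
    exact Finset.mem_Icc.2 ⟨by omega, a2⟩
  · intro n hn hn'
    have a1 : n ≤ ⌊Z / e⌋₊ :=
      not_lt.1 fun h => hn' (Finset.mem_Ioc.2 ⟨h, (Finset.mem_Icc.1 hn).2⟩)
    rw [Nat.le_floor_iff (by positivity), le_div_iff₀' he', ← Nat.cast_mul] at a1
    rw [hi_apply, if_neg a1.not_gt, zero_mul, zero_mul]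

end TypeIAux

open TypeIAux

theorem small_typeI {V : ℝ → ℂ} {M : ℂ → ℂ} (hV : Vcl V M) {θ η : ℝ} (hθ : 0 < θ) (hη : 0 < η)
    (h : 2 * θ + 3 * η ≤ 1) {α : ℝ → AF} (hα : Tame α) {l : AF} (hl : l = un ∨ l = lg) :
    SmallB θ η V fun T => α T * hi (T ^ (1 - η)) (tr l T) := by
  obtain ⟨C, hC, hin⟩ := TypeIAux.inner hV hl
  obtain ⟨j, hj⟩ := hα
  refine small_of (j + 1) (j + 2 * 2 ^ j + 4) hC ?_
  filter_upwards [hj, ev_log_range j, ev_log_range 20, ev_log_range 1, ev_le_log 0,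
    eventually_ge_atTop (1 : ℝ)] with T hj r1 r2 r3 hL hT Q Y d hd hQ hQd hY _ q hq hqQ ψ hψ
  have hT0 : 0 < T := by linarith
  have hd1 : (1 : ℝ) ≤ d := Nat.one_le_cast.2 hd
  have hq0 : (0 : ℝ) < q := Nat.cast_pos.2 (by omega)
  have hY0 : 0 < Y := by linarith
  have hdT := (le_T hη h hθ hT ((le_mul_of_one_le_left (by linarith) hQ).trans hQd)).1
  have hQT := (le_T hη h hθ hT ((le_mul_of_one_le_right (by linarith) hd1).trans hQd)).2
  have hZ : 0 < T ^ (1 - η) := by positivity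
  have ht := tau_nonneg d
  have hlq := Real.log_natCast_nonneg q
  set B := C * (√Q * Real.log T ^ 2) * Real.log T ^ 2 * (d * (Q * Y) / T ^ (1 - η)) with hB
  have hB0 : 0 ≤ B := by positivity
  have h1 : ‖SS V (α T * hi (T ^ (1 - η)) (tr l T) : AF) d (fun m => ψ m) (q * Y)‖ ≤
      tau d * (Real.log T ^ j * tau d ^ j * B * (Real.log T ^ 2) ^ 2 ^ j) := by
    rw [SS_mul V (N₁ := ⌊T ^ j⌋₊) (N₂ := ⌊T ^ 20⌋₊)
      (fun n hn => (hj n).2 ((Nat.floor_lt (by positivity)).1 hn))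
      (fun n hn => by
        rw [hi_apply, tr, lo_apply, if_neg ((Nat.floor_lt (by positivity)).1 hn).not_ge, ite_self])
      hd (fun a b => by simp)]
    refine (norm_sum_le _ _).trans ((Finset.sum_le_card_nsmul _ _
      (Real.log T ^ j * tau d ^ j * B * (Real.log T ^ 2) ^ 2 ^ j) fun p hp => ?_).trans_eq
      (by rw [nsmul_eq_mul, card_antidiag]))
    have hp1 : p.1 ∣ d := Nat.fst_mem_divisors_of_mem_antidiagonal hp |> Nat.dvd_of_mem_divisors
    have hp2 : p.2 ∈ d.divisors := Nat.snd_mem_divisors_of_mem_antidiagonal hp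
    have hp3 : (p.2 : ℝ) ≤ d := Nat.cast_le.2 (Nat.divisor_le hp2)
    refine (norm_sum_le _ _).trans ((Finset.sum_le_sum (g := fun w : ℕ =>
      Real.log T ^ j * tau d ^ j * B * (tau w ^ j / w)) fun w hw => ?_).trans ?_)
    · have hw0 : (0 : ℝ) < w := Nat.cast_pos.2 (Finset.mem_Icc.1 hw).1
      have h2 := hin q hq ψ hψ (T ^ (1 - η)) (T ^ 20) _ (q * Y / w) (by positivity)
        (by positivity) r2 p.2 ⌊T ^ 20⌋₊ (Nat.pos_of_mem_divisors hp2) (hp3.trans hdT)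
      have h3 : ‖(if w.Coprime p.2 then α T (p.1 * w) else 0) * (ψ w : ℂ)‖ ≤
          Real.log T ^ j * tau d ^ j * tau w ^ j := by
        have a1 := tau_nonneg w
        have a2 := tau_nonneg p.1
        have a3 := tau_le_of_dvd hp1 hd.ne'
        rw [norm_mul]
        refine (mul_le_of_le_one_right (norm_nonneg _) (ψ.norm_le_one _)).trans ?_
        split_ifs
        · refine (norm_dil (by positivity) (fun n => (hj n).1) _ _).trans ?_
          gcongr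
        · rw [norm_zero]; positivity
      have h4 : C * (√q * (1 + Real.log q)) * Real.log T ^ 2 *
          (p.2 * (q * Y / w) / T ^ (1 - η)) ≤ B / w := by
        have a1 := r3 q hq0.le (by rw [pow_one]; linarith)
        have a2 : B / w = C * (√Q * Real.log T ^ 2) * Real.log T ^ 2 *
            (d * (Q * Y / w) / T ^ (1 - η)) := by rw [hB]; ring
        rw [a2]
        gcongr
      have h5 : ∀ n : ℕ, (w : ℝ) * n / (q * Y) = n / (q * Y / w) := fun n => by field_simp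
      simp only [h5, mul_assoc (_ * _) _ (V _), ← Finset.mul_sum]
      rw [norm_mul]
      refine (mul_le_mul h3 (h2.trans h4) (norm_nonneg _) ((norm_nonneg _).trans h3)).trans_eq ?_
      ring
    · rw [← Finset.mul_sum]
      have a1 := Real.log_natCast_nonneg ⌊T ^ j⌋₊
      refine mul_le_mul_of_nonneg_left ((sum_tau_div j _).trans ?_) (by positivity)
      gcongr
      exact r1 _ (Nat.cast_nonneg _) (Nat.floor_le (by positivity))
  have h2 : Q * (d * Q) / T ^ (1 - η) ≤ T ^ (-(η / 2)) := by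
    rw [div_le_iff₀ hZ, ← Real.rpow_add hT0]
    calc Q * (d * Q) = Q * d * (Q * 1) := by ring
      _ ≤ T ^ θ * T ^ θ := by
        refine mul_le_mul hQd (le_trans ?_ hQd) (by linarith) (by positivity)
        gcongr
      _ = T ^ (θ + θ) := (Real.rpow_add hT0 _ _).symm
      _ ≤ _ := Real.rpow_le_rpow_of_exponent_le hT (by linarith)
  have h3 : √Q * √Q = Q := Real.mul_self_sqrt (by linarith)
  calc _ ≤ √Q * (tau d * (Real.log T ^ j * tau d ^ j * B * (Real.log T ^ 2) ^ 2 ^ j)) := by gcongr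
    _ = C * tau d ^ (j + 1) * Real.log T ^ (j + 2 * 2 ^ j + 4) *
        (Y * (√Q * √Q * (d * Q) / T ^ (1 - η))) := by
      rw [hB, ← pow_mul]; ring
    _ ≤ _ := by rw [h3]; gcongr

theorem small_short {V : ℝ → ℂ} {M : ℂ → ℂ} (hV : Vcl V M) {θ η : ℝ} (hθ : 0 < θ) (hη : 0 < η)
    (h : 2 * θ + 3 * η ≤ 1) {s : ℝ → AF} (hs : Tame s) (hz : Supp (θ + η) s) :
    SmallB θ η V s := by
  obtain ⟨C, hC, hb⟩ := hV.bd
  obtain ⟨j, hj⟩ := hs
  refine small_of j (j + 2 * 2 ^ j) hC ?_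
  filter_upwards [hj, hz, ev_log_range 1, ev_le_log 0, eventually_ge_atTop (1 : ℝ)] with T hj hz
    r1 hL hT Q Y d hd hQ hQd hY _ q hq hqQ ψ hψ
  have hT0 : 0 < T := by linarith
  have hX : (0 : ℝ) < q * Y := mul_pos (Nat.cast_pos.2 (by omega)) (by linarith)
  have ht := tau_nonneg d
  have hN : (⌊T ^ (θ + η)⌋₊ : ℝ) ≤ T ^ (θ + η) := Nat.floor_le (by positivity)
  have h1 : ‖SS V (s T) d (fun m => ψ m) (q * Y)‖ ≤
      Real.log T ^ j * tau d ^ j * C * (T ^ (θ + η) * (Real.log T ^ 2) ^ 2 ^ j) := by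
    rw [SS_eq_sum V (N := ⌊T ^ (θ + η)⌋₊) (fun n hn => hz n ((Nat.floor_lt (by positivity)).1 hn))
      hd]
    refine (norm_sum_le _ _).trans ((Finset.sum_le_sum (g := fun m : ℕ =>
      Real.log T ^ j * tau d ^ j * C * tau m ^ j) fun m hm => ?_).trans ?_)
    · have hm0 : (0 : ℝ) < m / (q * Y) := div_pos (Nat.cast_pos.2 (Finset.mem_Icc.1 hm).1) hX
      have a1 : ‖V (m / (q * Y))‖ ≤ C :=
        (hb _ hm0).1.trans (div_le_self hC (one_le_pow₀ (by linarith)))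
      have a2 := norm_dil (by positivity) (fun n => (hj n).1) d m
      have a3 := tau_nonneg m
      rw [norm_mul, norm_mul]
      calc _ ≤ Real.log T ^ j * tau d ^ j * tau m ^ j * 1 * C := by
            gcongr
            exact ψ.norm_le_one _
        _ = _ := by ring
    · rw [← Finset.mul_sum]
      have a1 := Real.log_natCast_nonneg ⌊T ^ (θ + η)⌋₊
      refine mul_le_mul_of_nonneg_left ((sum_tau j _).trans ?_) (by positivity)
      gcongr
      refine r1 _ (Nat.cast_nonneg _) (hN.trans ?_)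
      rw [← Real.rpow_natCast]
      exact Real.rpow_le_rpow_of_exponent_le hT (by push_cast; linarith)
  have h2 := sqrt_le hη h hT hd hQ hQd hY
  calc _ ≤ √Q * (Real.log T ^ j * tau d ^ j * C * (T ^ (θ + η) * (Real.log T ^ 2) ^ 2 ^ j)) := by
        gcongr
    _ = C * tau d ^ j * Real.log T ^ (j + 2 * 2 ^ j) * (√Q * T ^ (θ + η)) := by
      rw [← pow_mul]; ring
    _ ≤ _ := by gcongr

theorem small_far {V : ℝ → ℂ} {M : ℂ → ℂ} (hV : Vcl V M) {θ η : ℝ} (hθ : 0 < θ) (hη : 0 < η)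
    (h : 2 * θ + 3 * η ≤ 1) {f : ℝ → AF} (hf : Tame f)
    (hz : ∀ᶠ T : ℝ in atTop, ∀ n : ℕ, (n : ℝ) ≤ T ^ 20 → f T n = 0) : SmallB θ η V f := by
  obtain ⟨C, hC, hb⟩ := hV.bd
  obtain ⟨j, hj⟩ := hf
  refine small_of j (j + 2 * 2 ^ j) hC ?_
  filter_upwards [hj, hz, ev_log_range j, ev_le_log 0, eventually_ge_atTop (1 : ℝ)] with T hj hz
    r1 hL hT Q Y d hd hQ hQd hY hY2 q hq hqQ ψ hψ
  have hT0 : 0 < T := by linarith
  have hX : (0 : ℝ) < q * Y := mul_pos (Nat.cast_pos.2 (by omega)) (by linarith)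
  have ht := tau_nonneg d
  have hd1 : (1 : ℝ) ≤ d := Nat.one_le_cast.2 hd
  have hdT := (le_T hη h hθ hT ((le_mul_of_one_le_left (by linarith) hQ).trans hQd)).2
  have hQT := (le_T hη h hθ hT ((le_mul_of_one_le_right (by linarith) hd1).trans hQd)).2
  have hXT : (q * Y : ℝ) ≤ T ^ 3 := by
    rw [pow_succ' T 2]
    exact mul_le_mul (hqQ.trans hQT) hY2 (by linarith) hT0.le
  have h1 : ‖SS V (f T) d (fun m => ψ m) (q * Y)‖ ≤
      Real.log T ^ j * tau d ^ j * C * (Real.log T ^ 2) ^ 2 ^ j := by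
    rw [SS_eq_sum V (N := ⌊T ^ j⌋₊) (fun n hn => (hj n).2 ((Nat.floor_lt (by positivity)).1 hn))
      hd]
    refine (norm_sum_le _ _).trans ((Finset.sum_le_sum (g := fun m : ℕ =>
      Real.log T ^ j * tau d ^ j * C * (tau m ^ j / m)) fun m hm => ?_).trans ?_)
    · have hm1 : (0 : ℝ) < m := Nat.cast_pos.2 (Finset.mem_Icc.1 hm).1
      have a3 := tau_nonneg m
      rcases le_or_gt ((d * m : ℕ) : ℝ) (T ^ 20) with h0 | h0
      · rw [hz _ h0, zero_mul, zero_mul, norm_zero]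
        positivity
      have hm0 : (0 : ℝ) < m / (q * Y) := div_pos hm1 hX
      have a0 : (q * Y : ℝ) ^ 2 ≤ m := by
        have b1 : T * T ^ 19 ≤ T * m := by
          rw [← pow_succ']
          push_cast at h0
          exact h0.le.trans (by gcongr)
        calc (q * Y : ℝ) ^ 2 ≤ (T ^ 3) ^ 2 := by gcongr
          _ ≤ T ^ 19 := by rw [← pow_mul]; exact pow_le_pow_right₀ hT (by norm_num)
          _ ≤ m := le_of_mul_le_mul_left b1 hT0
      have a1 : ‖V (m / (q * Y))‖ ≤ C / m := by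
        refine (hb _ hm0).1.trans (div_le_div_of_nonneg_left hC hm1 ?_)
        calc (m : ℝ) ≤ (m / (q * Y)) ^ 2 := by
              rw [div_pow, le_div_iff₀ (by positivity), sq (m : ℝ)]
              gcongr
          _ ≤ _ := by gcongr; linarith
      have a2 := norm_dil (by positivity) (fun n => (hj n).1) d m
      rw [norm_mul, norm_mul]
      calc _ ≤ Real.log T ^ j * tau d ^ j * tau m ^ j * 1 * (C / m) := by
            gcongr
            exact ψ.norm_le_one _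
        _ = _ := by ring
    · rw [← Finset.mul_sum]
      have a1 := Real.log_natCast_nonneg ⌊T ^ j⌋₊
      refine mul_le_mul_of_nonneg_left ((sum_tau_div j _).trans ?_) (by positivity)
      gcongr
      exact r1 _ (Nat.cast_nonneg _) (Nat.floor_le (by positivity))
  have h2 := (le_mul_of_one_le_right (Real.sqrt_nonneg Q)
    (Real.one_le_rpow hT (by linarith : 0 ≤ θ + η))).trans (sqrt_le hη h hT hd hQ hQd hY)
  calc _ ≤ √Q * (Real.log T ^ j * tau d ^ j * C * (Real.log T ^ 2) ^ 2 ^ j) := by gcongr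
    _ = C * tau d ^ j * Real.log T ^ (j + 2 * 2 ^ j) * √Q := by rw [← pow_mul]; ring
    _ ≤ _ := by gcongr

end Pool.Agent.P.MP_7eacff_nt.SZ
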