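import Pool.Agent.P.MP_7eacff_nt.SZ.TypeII
import Pool.Agent.P.MP_7eacff_nt.SZ.TypeI

/-!
The ring of reducible families.
-/

open Complex Filter Topology MeasureTheory Set
open scoped Real ContDiff

namespace Pool.Agent.P.MP_7eacff_nt.SZ

open Pool.Agent.Lib.LargeSieve (primSet mem_primSet)

variable {V : ℝ → ℂ} {M : ℂ → ℂ} {θ η : ℝ}

namespace AlgAux

theorem hi_mul_eq_zero {Z : ℝ} (f g : AF) {n : ℕ} (hn : (n : ℝ) ≤ Z) : (hi Z f * g) n = 0 := by
  rw [mul_congr_of_le (f' := 0) (g' := g) (X := Z)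
    (fun m hm => by simp [hi_apply, hm.not_gt]) (fun _ _ => rfl) n hn, zero_mul]
  rfl

theorem supp_lo (x : ℝ) (f : ℝ → AF) : Supp x fun T => lo (T ^ x) (f T) :=
  Eventually.of_forall fun T n hn => by simp [lo_apply, hn.not_ge]

theorem tr_eq (f : AF) {T : ℝ} (n : ℕ) (hn : (n : ℝ) ≤ T ^ 20) : tr f T n = f n := by
  simp [tr, lo_apply, hn]

end AlgAux

open AlgAux

theorem SmallB.congr {f g : ℝ → AF} (hf : SmallB θ η V f) (h : ∀ᶠ T : ℝ in atTop, g T = f T) :
    SmallB θ η V g := by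
  obtain ⟨j, hj⟩ := hf
  refine ⟨j, ?_⟩
  filter_upwards [hj, h] with T a b
  rwa [b]

theorem SmallB.add {f g : ℝ → AF} (tf : Tame f) (tg : Tame g) (hf : SmallB θ η V f)
    (hg : SmallB θ η V g) : SmallB θ η V fun T => f T + g T := by
  obtain ⟨i, hi⟩ := tf
  obtain ⟨i', hi'⟩ := tg
  obtain ⟨j, hj⟩ := hf
  obtain ⟨j', hj'⟩ := hg
  refine ⟨j + j' + 1, ?_⟩
  filter_upwards [hi, hi', hj, hj', ev_le_log 2, eventually_ge_atTop 0] with T a a' b b' hL hT
    Q₀ Q₁ Y d h0 hd h1 h2 h3 h4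
  have hd0 : d ≠ 0 := hd.ne_zero
  have e1 : NB V (f T + g T : AF) Q₀ Q₁ d Y ≤ NB V (f T) Q₀ Q₁ d Y + NB V (g T) Q₀ Q₁ d Y := by
    simp only [NB, ← Finset.sum_add_distrib, ← mul_add]
    refine Finset.sum_le_sum fun q _ => mul_le_mul_of_nonneg_left
      (Finset.sum_le_sum fun ψ _ => ?_) (by positivity)
    rw [SS_add V (N := ⌊T ^ i⌋₊ + ⌊T ^ i'⌋₊)
      (fun n hn => (a n).2 (Nat.lt_of_floor_lt (by omega)))
      (fun n hn => (a' n).2 (Nat.lt_of_floor_lt (by omega))) (Nat.pos_of_ne_zero hd0)]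
    exact norm_add_le _ _
  have ht := one_le_tau hd0
  have hY : 0 ≤ Y := hT.trans h3
  have e2 : ∀ k ≤ j + j', tau d ^ k * Y * Real.log T ^ k ≤
      tau d ^ (j + j' + 1) * Y * Real.log T ^ (j + j') := fun k hk =>
    mul_le_mul (mul_le_mul_of_nonneg_right (pow_le_pow_right₀ ht (by omega)) hY)
      (pow_le_pow_right₀ (by linarith) hk) (by positivity) (by positivity)
  refine e1.trans ((add_le_add (b Q₀ Q₁ Y d h0 hd h1 h2 h3 h4)
    (b' Q₀ Q₁ Y d h0 hd h1 h2 h3 h4)).trans ?_)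
  rw [← add_mul]
  refine mul_le_mul_of_nonneg_right ((add_le_add (e2 j (by omega)) (e2 j' (by omega))).trans ?_)
    (by positivity)
  rw [pow_succ (Real.log T), ← mul_assoc, ← mul_two]
  exact mul_le_mul_of_nonneg_left hL (by positivity)

theorem SmallB.neg {f : ℝ → AF} (hf : SmallB θ η V f) : SmallB θ η V fun T => -f T := by
  obtain ⟨j, hj⟩ := hf
  refine ⟨j, hj.mono fun T hT => ?_⟩
  simpa only [NB, SS_neg, norm_neg] using hT

theorem Absb.add {f g : ℝ → AF} (hf : Absb θ η V f) (hg : Absb θ η V g) :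
    Absb θ η V fun T => f T + g T :=
  ⟨hf.1.add hg.1, fun α hα => (SmallB.add (hf.1.mul hα) (hg.1.mul hα) (hf.2 α hα)
    (hg.2 α hα)).congr (Eventually.of_forall fun _ => add_mul _ _ _)⟩

theorem Absb.neg {f : ℝ → AF} (hf : Absb θ η V f) : Absb θ η V fun T => -f T :=
  ⟨hf.1.neg, fun α hα => (hf.2 α hα).neg.congr
    (Eventually.of_forall fun T => neg_mul (f T) (α T))⟩

theorem Absb.mul {f g : ℝ → AF} (hf : Absb θ η V f) (hg : Tame g) :
    Absb θ η V fun T => f T * g T :=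
  ⟨hf.1.mul hg, fun _ hα =>
    (hf.2 _ (hg.mul hα)).congr (Eventually.of_forall fun _ => mul_assoc _ _ _)⟩

theorem absb_zero : Absb θ η V fun _ => 0 := by
  refine ⟨⟨0, Eventually.of_forall fun T n => by simp⟩, fun α _ => ⟨0, ?_⟩⟩
  filter_upwards [eventually_ge_atTop 0] with T hT Q₀ Q₁ Y d h0 _ _ _ h3 _
  have hY : 0 ≤ Y := hT.trans h3
  have : NB V (0 * α T : AF) Q₀ Q₁ d Y = 0 := by simp [NB, SS]
  rw [this]
  positivity

theorem absb_mid (hV : Vcl V M) (hθ : 0 < θ) (hη : 0 < η) (h : 2 * θ + 3 * η ≤ 1) {f : ℝ → AF}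
    (hf : Tame f) (hs : Supp (1 - η) f) : Absb θ η V fun T => hi (T ^ (θ + η)) (f T) := by
  refine ⟨hf.high _, fun α hα => small_typeII hV hθ hη h (hf.high _) hα ?_⟩
  filter_upwards [hs] with T hT m n hm _
  rw [hi_apply] at hm
  exact ⟨by_contra fun k => hm (if_neg k),
    Or.inl (not_lt.1 fun k => hm (by rw [hT m k, ite_self]))⟩

theorem absb_two (hV : Vcl V M) (hθ : 0 < θ) (hη : 0 < η) (h : 2 * θ + 3 * η ≤ 1)
    {f g : ℝ → AF} (hf : Tame f) (hg : Tame g) :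
    Absb θ η V fun T => hi (T ^ (θ + η)) (f T) * hi (T ^ (θ + η)) (g T) := by
  refine ⟨(hf.high _).mul (hg.high _), fun α hα =>
    (small_typeII hV hθ hη h (hf.high fun T => T ^ (θ + η))
      ((hg.high fun T => T ^ (θ + η)).mul hα) (Eventually.of_forall fun T m n hm hn => ?_)).congr
      (Eventually.of_forall fun _ => mul_assoc _ _ _)⟩
  rw [hi_apply] at hm
  exact ⟨by_contra fun k => hm (if_neg k),
    Or.inr (not_le.1 fun k => hn (hi_mul_eq_zero _ _ k))⟩

theorem absb_far (hV : Vcl V M) (hθ : 0 < θ) (hη : 0 < η) (h : 2 * θ + 3 * η ≤ 1) {f : ℝ → AF}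
    (hf : Tame f) : Absb θ η V fun T => hi (T ^ 20) (f T) :=
  ⟨hf.high _, fun _ hα => small_far hV hθ hη h ((hf.high _).mul hα)
    (Eventually.of_forall fun _ _ hn => hi_mul_eq_zero _ _ hn)⟩

theorem Absb.red {f : ℝ → AF} (hf : Absb θ η V f) : Red θ η V f :=
  ⟨fun _ => 0, f, (absb_zero (θ := θ) (η := η) (V := V)).1, Eventually.of_forall fun _ _ _ => rfl,
    hf, Eventually.of_forall fun _ => (zero_add _).symm⟩

theorem Red.congr {f g : ℝ → AF} (hf : Red θ η V f) (h : ∀ᶠ T : ℝ in atTop, g T = f T) :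
    Red θ η V g := by
  obtain ⟨s, a, h1, h2, h3, h4⟩ := hf
  exact ⟨s, a, h1, h2, h3, (h.and h4).mono fun T k => k.1.trans k.2⟩

theorem Red.tame {f : ℝ → AF} (hf : Red θ η V f) : Tame f := by
  obtain ⟨s, a, h1, -, h3, h4⟩ := hf
  exact (h1.add h3.1).congr h4

theorem Red.add {f g : ℝ → AF} (hf : Red θ η V f) (hg : Red θ η V g) :
    Red θ η V fun T => f T + g T := by
  obtain ⟨s, a, h1, h2, h3, h4⟩ := hf
  obtain ⟨s', a', k1, k2, k3, k4⟩ := hg
  refine ⟨_, _, h1.add k1, ?_, h3.add k3, ?_⟩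
  · filter_upwards [h2, k2] with T u v n hn
    rw [ArithmeticFunction.add_apply, u n hn, v n hn, add_zero]
  · filter_upwards [h4, k4] with T u v
    rw [u, v, add_add_add_comm]

theorem Red.neg {f : ℝ → AF} (hf : Red θ η V f) : Red θ η V fun T => -f T := by
  obtain ⟨s, a, h1, h2, h3, h4⟩ := hf
  refine ⟨_, _, h1.neg, ?_, h3.neg, ?_⟩
  · filter_upwards [h2] with T u n hn
    rw [ArithmeticFunction.neg_apply, u n hn, neg_zero]
  · filter_upwards [h4] with T u
    rw [u, neg_add]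

theorem red_of_supp (hV : Vcl V M) (hθ : 0 < θ) (hη : 0 < η) (h : 2 * θ + 3 * η ≤ 1)
    {f : ℝ → AF} (hf : Tame f) (hs : Supp (1 - η) f) : Red θ η V f :=
  ⟨_, _, hf.low _, supp_lo _ f, absb_mid hV hθ hη h hf hs,
    Eventually.of_forall fun _ => (lo_add_hi _ _).symm⟩

theorem Red.mul (hV : Vcl V M) (hθ : 0 < θ) (hη : 0 < η) (h : 2 * θ + 3 * η ≤ 1) {f g : ℝ → AF}
    (hf : Red θ η V f) (hg : Red θ η V g) : Red θ η V fun T => f T * g T := by
  have tg := hg.tame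
  obtain ⟨s, a, h1, h2, h3, h4⟩ := hf
  obtain ⟨s', a', k1, k2, k3, k4⟩ := hg
  refine ((red_of_supp hV hθ hη h (h1.mul k1) ?_).add ((h3.mul tg).add (k3.mul h1)).red).congr ?_
  · filter_upwards [h2, k2, eventually_ge_atTop 1] with T u v hT n hn
    refine mul_eq_zero_of_lt (by positivity) (by positivity) u v n (lt_of_le_of_lt ?_ hn)
    rw [← Real.rpow_add (by positivity)]
    exact Real.rpow_le_rpow_of_exponent_le hT (by linarith)
  · filter_upwards [h4, k4] with T u v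
    rw [u, v]
    ring

theorem Red.small (hV : Vcl V M) (hθ : 0 < θ) (hη : 0 < η) (h : 2 * θ + 3 * η ≤ 1) {f : ℝ → AF}
    (hf : Red θ η V f) : SmallB θ η V f := by
  obtain ⟨s, a, h1, h2, h3, h4⟩ := hf
  exact (SmallB.add h1 h3.1 (small_short hV hθ hη h h1 h2) ((h3.2 _ tame_one).congr
    (Eventually.of_forall fun _ => (mul_one _).symm))).congr h4

theorem vaughan (Z : ℝ) :
    vm = lo Z vm + lo Z mu * lg - lo Z mu * lo Z vm * un + hi Z mu * (hi Z vm * un) := by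
  linear_combination (-(1 - lo Z mu * un)) * lo_add_hi Z vm + lo Z mu * vm_mul_un -
    hi Z vm * mu_mul_un - hi Z vm * un * lo_add_hi Z mu

theorem Lam.red_tr (hV : Vcl V M) (hθ : 0 < θ) (hη : 0 < η) (h : 2 * θ + 3 * η ≤ 1) {l : AF}
    (hl : Lam l) : Red θ η V (tr l) := by
  have h1 : ∀ {l : AF}, l = un ∨ l = lg → Red θ η V (tr l) := fun {l} hl => by
    have t := Lam.tame_tr (f := l) (Or.inr (hl.imp_right Or.inl))
    exact ((red_of_supp hV hθ hη h (t.low _) (supp_lo _ _)).add (Absb.red ⟨t.high _, fun α hα =>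
      (small_typeI hV hθ hη h hα hl).congr (Eventually.of_forall fun _ => mul_comm _ _)⟩)).congr
      (Eventually.of_forall fun _ => (lo_add_hi _ _).symm)
  rcases hl with rfl | rfl | rfl | rfl
  · refine red_of_supp hV hθ hη h (Lam.tame_tr (Or.inl rfl)) ?_
    filter_upwards [eventually_ge_atTop 1] with T hT n hn
    have : n ≠ 1 := by
      rintro rfl
      exact hn.not_ge (by simpa using Real.one_le_rpow hT (by linarith))
    simp [tr, lo_apply, this]
  · exact h1 (Or.inl rfl)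
  · exact h1 (Or.inr rfl)
  have hm : ∀ n : ℕ, ‖mu n‖ ≤ 1 + Real.log n := fun n =>
    (norm_mu_le n).trans (le_add_of_nonneg_right (Real.log_natCast_nonneg n))
  have hv : Lam vm := Or.inr (Or.inr (Or.inr rfl))
  have h2 : ∀ {f : AF}, (∀ n : ℕ, ‖f n‖ ≤ 1 + Real.log n) →
      Red θ η V fun T => lo (T ^ (θ + η)) f := fun {f} hf =>
    ⟨_, _, tame_lo (f := fun _ => f) (fun _ => hf) (by
      filter_upwards [eventually_ge_atTop 1] with T hT
      rw [← Real.rpow_natCast]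
      exact Real.rpow_le_rpow_of_exponent_le hT (by push_cast; linarith)),
      supp_lo _ fun _ => f, absb_zero, Eventually.of_forall fun _ => (add_zero _).symm⟩
  have hu := h1 (Or.inl rfl)
  have hP := (((h2 hv.norm_le).add ((h2 hm).mul hV hθ hη h (h1 (Or.inr rfl)))).add
    (((h2 hm).mul hV hθ hη h (h2 hv.norm_le)).mul hV hθ hη h hu).neg).add
    ((absb_two hV hθ hη h (f := tr mu) (tame_lo (f := fun _ => mu) (fun _ => hm)
      (Eventually.of_forall fun _ => le_rfl)) hv.tame_tr).mul hu.tame).red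
  refine (hP.add (absb_far hV hθ hη h hP.tame).neg.red).congr (Eventually.of_forall fun T => ?_)
  ext n
  rw [ArithmeticFunction.add_apply, ArithmeticFunction.neg_apply, hi_apply]
  by_cases hn : (n : ℝ) ≤ T ^ 20
  · have e : ∀ f : AF, ∀ m : ℕ, (m : ℝ) ≤ T ^ 20 →
        hi (T ^ (θ + η)) (tr f T) m = hi (T ^ (θ + η)) f m := fun f m hm => by
      rw [hi_apply, hi_apply, tr_eq f m hm]
    rw [if_neg hn.not_gt, neg_zero, add_zero, tr_eq _ n hn]
    conv_lhs => rw [vaughan (T ^ (θ + η)), sub_eq_add_neg, ← mul_assoc]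
    simp only [ArithmeticFunction.add_apply, ArithmeticFunction.neg_apply]
    rw [mul_congr_of_le (fun _ _ => rfl) (tr_eq lg) n hn,
      mul_congr_of_le (fun _ _ => rfl) (tr_eq un) n hn,
      mul_congr_of_le (mul_congr_of_le (e mu) (e vm)) (tr_eq un) n hn]
  · rw [if_pos (not_le.1 hn), add_neg_cancel, tr, lo_apply, if_neg hn]

end Pool.Agent.P.MP_7eacff_nt.SZ
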