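import Pool.Agent.P.MP_7eacff_nt.SZ.Basic

/-!
Approximation of zeta and of L functions by finite sums in the half plane of positive real part.
-/

open Complex Filter Topology MeasureTheory Set
open scoped Real ContDiff

namespace Pool.Agent.P.MP_7eacff_nt.SZ

open Pool.Agent.Lib.LargeSieve (primSet mem_primSet)

namespace ApproxAux

theorem conn : IsPreconnected {s : ℂ | 0 < s.re ∧ s ≠ 1} := by
  have a := (convex_halfSpace_re_gt 1).isPreconnected
  have b := ((convex_halfSpace_re_gt 0).inter (convex_halfSpace_im_gt 0)).isPreconnected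
  have c := ((convex_halfSpace_re_gt 0).inter (convex_halfSpace_im_lt 0)).isPreconnected
  have d := ((convex_halfSpace_re_gt 0).inter (convex_halfSpace_re_lt 1)).isPreconnected
  have h := ((a.union (2 + I) (by simp) (by simp) b).union (2 - I) (Or.inl (by simp)) (by simp)
    c).union (1 / 2 + I) (Or.inl (Or.inr (by simp))) (by norm_num) d
  refine (congrArg IsPreconnected (Set.ext fun s => ⟨fun hs => ?_, ?_⟩)).mp h
  · rcases hs with ((h1 | h1) | h1) | h1
    · exact ⟨zero_lt_one.trans h1, by rintro rfl; simp at h1⟩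
    all_goals exact ⟨h1.1, by rintro rfl; simp at h1⟩
  · rintro ⟨h1, h2⟩
    rcases lt_trichotomy s.re 1 with h3 | h3 | h3
    · exact Or.inr ⟨h1, h3⟩
    · rcases lt_trichotomy s.im 0 with h4 | h4 | h4
      · exact Or.inl (Or.inr ⟨h1, h4⟩)
      · exact absurd (Complex.ext h3 h4) h2
      · exact Or.inl (Or.inl (Or.inr ⟨h1, h4⟩))
    · exact Or.inl (Or.inl (Or.inl h3))

theorem diff_dp (c : ℕ → ℂ) (N : ℕ) : Differentiable ℂ (dp c N) := by
  refine Differentiable.fun_sum fun n hn => Differentiable.const_mul ?_ _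
  exact differentiable_neg.const_cpow
    (Or.inl (Nat.cast_ne_zero.2 (Nat.one_le_iff_ne_zero.1 (Finset.mem_Icc.1 hn).1)))

variable {E : ℝ → ℂ} {K c : ℝ}

theorem norm_le (hc : 0 < c) (hK : ∀ t, c < t → ‖E t‖ ≤ K) (s : ℂ) :
    ∀ᵐ t : ℝ ∂volume.restrict (Ioi c), ‖E t * (t : ℂ) ^ (-(s + 1))‖ ≤ K * t ^ (-(s.re + 1)) :=
  (ae_restrict_iff' measurableSet_Ioi).2 (Eventually.of_forall fun t ht => by
    rw [norm_mul, norm_cpow_eq_rpow_re_of_pos (hc.trans ht), neg_re, add_re, one_re]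
    exact mul_le_mul_of_nonneg_right (hK t ht) (Real.rpow_nonneg (hc.trans ht).le _))

theorem int_on (hE : Measurable E) (hc : 0 < c) (hK : ∀ t, c < t → ‖E t‖ ≤ K) {s : ℂ}
    (hs : 0 < s.re) : IntegrableOn (fun t : ℝ => E t * (t : ℂ) ^ (-(s + 1))) (Ioi c) :=
  ((integrableOn_Ioi_rpow_of_lt (by linarith) hc).const_mul K).mono'
    (hE.mul (measurable_ofReal.pow_const _)).aestronglyMeasurable (norm_le hc hK s)

theorem int_le (hc : 0 < c) (hK : ∀ t, c < t → ‖E t‖ ≤ K) {s : ℂ} (hs : 0 < s.re) :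
    ‖∫ t in Ioi c, E t * (t : ℂ) ^ (-(s + 1))‖ ≤ K / s.re * c ^ (-s.re) := by
  refine (norm_integral_le_of_norm_le
    ((integrableOn_Ioi_rpow_of_lt (by linarith) hc).const_mul K) (norm_le hc hK s)).trans_eq ?_
  rw [integral_const_mul, integral_Ioi_rpow_of_lt (by linarith) hc,
    show -(s.re + 1) + 1 = -s.re by ring, neg_div_neg_eq]
  ring

theorem int_diff (hE : Measurable E) (hc : 0 < c) (hK : ∀ t, c < t → ‖E t‖ ≤ K) {s : ℂ}
    (hs : 0 < s.re) :
    DifferentiableAt ℂ (fun s : ℂ => ∫ t in Ioi c, E t * (t : ℂ) ^ (-(s + 1))) s := by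
  have hK0 : 0 ≤ K := (norm_nonneg _).trans (hK _ (lt_add_one c))
  have hb : ∀ t, ‖(Ioi c).indicator E t‖ ≤ K := fun t => by
    by_cases h : t ∈ Ioi c
    · rw [indicator_of_mem h]
      exact hK t h
    · rw [indicator_of_notMem h, norm_zero]
      exact hK0
  have e : (fun s : ℂ => ∫ t in Ioi c, E t * (t : ℂ) ^ (-(s + 1))) =
      fun s => mellin ((Ioi c).indicator E) (-s) := by
    funext s
    rw [mellin, setIntegral_eq_of_subset_of_forall_sdiff_eq_zero measurableSet_Ioi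
      (Ioi_subset_Ioi hc.le) fun t ht => by rw [indicator_of_notMem ht.2, smul_zero]]
    refine setIntegral_congr_fun measurableSet_Ioi fun t ht => ?_
    rw [indicator_of_mem ht, smul_eq_mul, mul_comm, neg_add']
  rw [e]
  refine (mellin_differentiableAt_of_isBigO_rpow (a := 0) (b := -s.re - 1) ?_ ?_ ?_ ?_ ?_).comp s
    differentiableAt_id.neg
  · exact ((locallyIntegrable_const K).mono
      (hE.indicator measurableSet_Ioi).aestronglyMeasurable
      (Eventually.of_forall fun t => (hb t).trans (le_abs_self K))).locallyIntegrableOn _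
  · exact Asymptotics.IsBigO.of_bound K (Eventually.of_forall fun t => by simpa using hb t)
  · simpa using hs
  · refine (Asymptotics.isBigO_zero _ _).congr' ?_ EventuallyEq.rfl
    filter_upwards [nhdsWithin_le_nhds (Iio_mem_nhds hc)] with t ht
    exact (indicator_of_notMem (not_lt.2 (le_of_lt ht)) _).symm
  · simp

theorem right {f : ℕ → ℂ} {ρ : ℂ} {M : ℝ} (hf : ∀ n ≠ 0, ‖f n‖ ≤ M) {N : ℕ} (hN : 1 ≤ N) {s : ℂ}
    (hs : 1 < s.re) (hi : IntegrableOn (fun t : ℝ =>
      (∑ k ∈ Finset.Icc 1 ⌊t⌋₊, f k - ρ * t) * (t : ℂ) ^ (-(s + 1))) (Ioi N)) :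
    LSeries f s = dp f N s + ρ * (N : ℂ) ^ (1 - s) / (s - 1) +
      (s * (∫ t in Ioi (N : ℝ), (∑ k ∈ Finset.Icc 1 ⌊t⌋₊, f k - ρ * t) * (t : ℂ) ^ (-(s + 1))) -
        (∑ k ∈ Finset.Icc 1 N, f k - ρ * N) * (N : ℂ) ^ (-s)) := by
  have hN0 : (0 : ℝ) < N := Nat.cast_pos.2 hN
  have hM : 0 ≤ M := (norm_nonneg _).trans (hf 1 one_ne_zero)
  obtain ⟨g, hg⟩ : ∃ g : ℕ → ℂ, ∀ n, g n = if N < n then f n else 0 := ⟨_, fun _ => rfl⟩
  have g1 : ∀ n, ‖g n‖ ≤ M := fun n => by
    rw [hg]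
    split_ifs with h
    · exact hf n (by omega)
    · rwa [norm_zero]
  have g2 : LSeriesSummable g s := LSeriesSummable_of_bounded_of_one_lt_re (fun n _ => g1 n) hs
  have g3 : LSeries f s = dp f N s + LSeries g s := by
    have h1 := hasSum_sum_of_ne_finset_zero (L := SummationFilter.unconditional ℕ)
      (f := fun n : ℕ => if n ∈ Finset.Icc 1 N then f n * (n : ℂ) ^ (-s) else 0)
      (s := Finset.Icc 1 N) fun n hn => if_neg hn
    rw [Finset.sum_congr rfl fun n hn => if_pos hn] at h1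
    refine Eq.trans (tsum_congr fun n => ?_) (h1.add g2.hasSum).tsum_eq
    rcases eq_or_ne n 0 with rfl | hn
    · simp
    · rw [LSeries.term_of_ne_zero hn, LSeries.term_of_ne_zero hn, hg, cpow_neg]
      by_cases h : N < n
      · rw [if_pos h, if_neg fun h' => (Finset.mem_Icc.1 h').2.not_gt h, zero_add]
      · rw [if_neg h, if_pos (Finset.mem_Icc.2 ⟨by omega, by omega⟩), zero_div, add_zero,
          div_eq_mul_inv]
  have g4 : ∀ n, N ≤ n → ∑ k ∈ Finset.Icc 1 n, g k =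
      ∑ k ∈ Finset.Icc 1 n, f k - ∑ k ∈ Finset.Icc 1 N, f k := by
    intro n hn
    induction n, hn using Nat.le_induction with
    | base =>
      rw [sub_self]
      exact Finset.sum_eq_zero fun k hk => by rw [hg, if_neg (Finset.mem_Icc.1 hk).2.not_gt]
    | succ n hn ih =>
      rw [Finset.sum_Icc_succ_top (by omega), Finset.sum_Icc_succ_top (by omega : 1 ≤ n + 1), ih,
        hg, if_pos (by omega)]
      ring
  have g5 := LSeries_eq_mul_integral g zero_le_one hs g2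
    (Asymptotics.IsBigO.of_bound M (Eventually.of_forall fun n => by
      refine (norm_sum_le _ _).trans ((Finset.sum_le_card_nsmul _ _ M fun k _ => g1 k).trans_eq ?_)
      simp [mul_comm]))
  have s0 : s ≠ 0 := by rintro rfl; simp at hs; linarith
  have s1 : s - 1 ≠ 0 := sub_ne_zero.2 (by rintro rfl; simp at hs)
  have i1 := (integrableOn_Ioi_cpow_of_lt (a := -s) (by simpa using hs) hN0).const_mul ρ
  have i2 := (integrableOn_Ioi_cpow_of_lt (a := -(s + 1)) (by simp; linarith) hN0).const_mul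
    (∑ k ∈ Finset.Icc 1 N, f k)
  rw [setIntegral_eq_of_subset_of_forall_sdiff_eq_zero measurableSet_Ioi
    (Ioi_subset_Ioi (Nat.one_le_cast.2 hN)) fun t ht => by
      rw [Finset.sum_eq_zero, zero_mul]
      intro k hk
      have h1 : ⌊t⌋₊ ≤ N := Nat.floor_le_of_le (not_lt.1 ht.2)
      rw [hg, if_neg ((Finset.mem_Icc.1 hk).2.trans h1).not_gt],
    setIntegral_congr_fun measurableSet_Ioi (g := fun t : ℝ =>
      (∑ k ∈ Finset.Icc 1 ⌊t⌋₊, f k - ρ * t) * (t : ℂ) ^ (-(s + 1)) + (ρ * (t : ℂ) ^ (-s) -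
        (∑ k ∈ Finset.Icc 1 N, f k) * (t : ℂ) ^ (-(s + 1)))) fun t ht => by
      have h1 : (t : ℂ) ≠ 0 := ofReal_ne_zero.2 (hN0.trans ht).ne'
      have h2 : (t : ℂ) ^ (-s) = t * (t : ℂ) ^ (-(s + 1)) := by
        rw [show -s = 1 + -(s + 1) by ring, cpow_add _ _ h1, cpow_one]
      beta_reduce
      rw [g4 _ (Nat.le_floor (le_of_lt ht)), h2]
      ring,
    integral_add hi (i1.sub' i2), integral_sub i1 i2, integral_const_mul, integral_const_mul,
    integral_Ioi_cpow_of_lt (by simpa using hs) hN0,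
    integral_Ioi_cpow_of_lt (by simp; linarith) hN0, ofReal_natCast,
    show -(s + 1) + 1 = -s by ring, show -s + 1 = 1 - s by ring] at g5
  have h3 : (N : ℂ) ^ (1 - s) = N * (N : ℂ) ^ (-s) := by
    rw [sub_eq_add_neg, cpow_add _ _ (Nat.cast_ne_zero.2 (by omega)), cpow_one]
  have s2 : 1 - s ≠ 0 := by rwa [← neg_sub, neg_ne_zero]
  rw [g3, g5, h3]
  field_simp
  ring

end ApproxAux

theorem approx_general {f : ℕ → ℂ} {F : ℂ → ℂ} {ρ : ℂ} {B : ℝ}
    (hF : DifferentiableOn ℂ F {s | 0 < s.re ∧ s ≠ 1}) (hL : ∀ s : ℂ, 1 < s.re → F s = LSeries f s)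
    (hS : ∀ N : ℕ, ‖∑ n ∈ Finset.Icc 1 N, f n - ρ * N‖ ≤ B) {s : ℂ} (hs : 0 < s.re) (hs1 : s ≠ 1)
    {N : ℕ} (hN : 1 ≤ N) :
    ‖F s - dp f N s - ρ * (N : ℂ) ^ (1 - s) / (s - 1)‖ ≤
      (B + ‖ρ‖) * (1 + ‖s‖ / s.re) * (N : ℝ) ^ (-s.re) := by
  have hN0 : (0 : ℝ) < N := Nat.cast_pos.2 hN
  have hE : Measurable fun t : ℝ => ∑ k ∈ Finset.Icc 1 ⌊t⌋₊, f k - ρ * t :=
    ((measurable_of_countable fun n : ℕ => ∑ k ∈ Finset.Icc 1 n, f k).comp
      Nat.measurable_floor).sub (measurable_ofReal.const_mul ρ)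
  have hK : ∀ t : ℝ, (N : ℝ) < t → ‖∑ k ∈ Finset.Icc 1 ⌊t⌋₊, f k - ρ * t‖ ≤ B + ‖ρ‖ := by
    intro t ht
    have h1 := Nat.floor_le (hN0.trans ht).le
    have h2 := Nat.lt_floor_add_one t
    rw [show ∑ k ∈ Finset.Icc 1 ⌊t⌋₊, f k - ρ * t =
      ∑ k ∈ Finset.Icc 1 ⌊t⌋₊, f k - ρ * ⌊t⌋₊ - ρ * ((t - ⌊t⌋₊ : ℝ) : ℂ) by push_cast; ring]
    refine (norm_sub_le _ _).trans (add_le_add (hS _) ?_)
    rw [norm_mul, norm_real, Real.norm_of_nonneg (by linarith)]
    exact mul_le_of_le_one_right (norm_nonneg _) (by linarith)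
  have hf : ∀ n ≠ 0, ‖f n‖ ≤ B + B + ‖ρ‖ := by
    intro n hn
    obtain ⟨n, rfl⟩ := Nat.exists_eq_add_one_of_ne_zero hn
    rw [show f (n + 1) = ∑ k ∈ Finset.Icc 1 (n + 1), f k - ρ * (n + 1 : ℕ) -
        (∑ k ∈ Finset.Icc 1 n, f k - ρ * n) + ρ by
      rw [Finset.sum_Icc_succ_top (by omega)]; push_cast; ring]
    exact (norm_add_le _ _).trans
      (add_le_add ((norm_sub_le _ _).trans (add_le_add (hS _) (hS _))) le_rfl)
  have hU : IsOpen {s : ℂ | 0 < s.re ∧ s ≠ 1} :=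
    (isOpen_lt continuous_const continuous_re).inter isOpen_ne
  have hN1 : (N : ℂ) ≠ 0 := Nat.cast_ne_zero.2 (by omega)
  have hG : DifferentiableOn ℂ (fun s : ℂ => dp f N s + ρ * (N : ℂ) ^ (1 - s) / (s - 1) +
      (s * (∫ t in Ioi (N : ℝ), (∑ k ∈ Finset.Icc 1 ⌊t⌋₊, f k - ρ * t) * (t : ℂ) ^ (-(s + 1))) -
        (∑ k ∈ Finset.Icc 1 N, f k - ρ * N) * (N : ℂ) ^ (-s))) {s | 0 < s.re ∧ s ≠ 1} :=
    fun z hz => (((ApproxAux.diff_dp f N z).add
      (((((differentiableAt_id.const_sub 1).const_cpow (Or.inl hN1)).const_mul ρ)).div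
        (differentiableAt_id.sub_const 1) (sub_ne_zero.2 hz.2))).add
      ((differentiableAt_id.mul (ApproxAux.int_diff hE hN0 hK hz.1)).sub
        ((differentiableAt_id.neg.const_cpow (Or.inl hN1)).const_mul _))).differentiableWithinAt
  have h := (hF.analyticOnNhd hU).eqOn_of_preconnected_of_eventuallyEq (hG.analyticOnNhd hU)
    ApproxAux.conn (z₀ := 2) (by norm_num) (by
      filter_upwards [(isOpen_lt continuous_const continuous_re).mem_nhds
        (show (1 : ℝ) < (2 : ℂ).re by norm_num)] with z hz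
      rw [hL z hz]
      exact ApproxAux.right hf hN hz (ApproxAux.int_on hE hN0 hK (zero_lt_one.trans hz))) ⟨hs, hs1⟩
  beta_reduce at h
  rw [h, add_assoc, add_sub_cancel_left, add_sub_cancel_left]
  refine (norm_sub_le _ _).trans ?_
  rw [norm_mul, norm_mul, norm_natCast_cpow_of_pos hN, neg_re]
  have h1 := mul_le_mul_of_nonneg_left (ApproxAux.int_le hN0 hK hs) (norm_nonneg s)
  have h2 := mul_le_mul_of_nonneg_right ((hS N).trans (le_add_of_nonneg_right (norm_nonneg ρ)))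
    (Real.rpow_nonneg hN0.le (-s.re))
  refine (add_le_add h1 h2).trans_eq ?_
  ring

theorem norm_sum_char_le {q : ℕ} [NeZero q] {χ : DirichletCharacter ℂ q} (hχ : χ ≠ 1) (N : ℕ) :
    ‖∑ n ∈ Finset.Icc 1 N, χ n‖ ≤ q := by
  have h0 : ∑ n ∈ Finset.range q, χ ((n : ZMod q) + 1) = 0 := by
    rw [← MulChar.sum_eq_zero_of_ne_one hχ, ← Equiv.sum_comp (Equiv.addRight (1 : ZMod q))]
    exact Finset.sum_nbij' (fun n => (n : ZMod q)) ZMod.val (fun _ _ => Finset.mem_univ _)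
      (fun a _ => Finset.mem_range.2 a.val_lt)
      (fun n hn => ZMod.val_cast_of_lt (Finset.mem_range.1 hn))
      (fun a _ => ZMod.natCast_zmod_val a) fun _ _ => rfl
  have e : ∑ n ∈ Finset.Icc 1 N, χ n = ∑ n ∈ Finset.range N, χ ((n : ZMod q) + 1) := by
    rw [Finset.range_eq_Ico, ← Finset.Ico_add_one_right_eq_Icc]
    simpa using (Finset.sum_Ico_add' (fun n : ℕ => χ n) 0 N 1).symm
  rw [e]
  clear e
  induction N using Nat.strong_induction_on with
  | _ N ih =>
    rcases le_or_gt N q with h | h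
    · refine (norm_sum_le _ _).trans
        ((Finset.sum_le_card_nsmul _ _ 1 fun n _ => χ.norm_le_one _).trans ?_)
      simpa using h
    · obtain ⟨M, rfl⟩ := Nat.exists_eq_add_of_le h.le
      rw [Finset.sum_range_add, h0, zero_add]
      simpa using ih M (by have := NeZero.pos q; omega)

theorem L_approx {q : ℕ} [NeZero q] {χ : DirichletCharacter ℂ q} (hχ : χ ≠ 1) {s : ℂ}
    (hs : 0 < s.re) {N : ℕ} (hN : 1 ≤ N) :
    ‖DirichletCharacter.LFunction χ s - dp (fun n => χ n) N s‖ ≤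
      q * (1 + ‖s‖ / s.re) * (N : ℝ) ^ (-s.re) := by
  have key : ∀ s : ℂ, 0 < s.re → s ≠ 1 →
      ‖DirichletCharacter.LFunction χ s - dp (fun n => χ n) N s‖ ≤
        q * (1 + ‖s‖ / s.re) * (N : ℝ) ^ (-s.re) := fun s hs hs1 => by
    simpa using approx_general (ρ := 0) (B := q)
      (DirichletCharacter.differentiable_LFunction hχ).differentiableOn
      (fun s hs => DirichletCharacter.LFunction_eq_LSeries χ hs)
      (fun N => by simpa using norm_sum_char_le hχ N) hs hs1 hN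
  rcases ne_or_eq s 1 with h | rfl
  · exact key s hs h
  have c1 : ContinuousAt (fun s => ‖DirichletCharacter.LFunction χ s - dp (fun n => χ n) N s‖) 1 :=
    (((DirichletCharacter.differentiable_LFunction hχ).sub
      (ApproxAux.diff_dp _ N)).continuous.norm).continuousAt
  have c2 : ContinuousAt (fun s : ℂ => q * (1 + ‖s‖ / s.re) * (N : ℝ) ^ (-s.re)) 1 :=
    (continuousAt_const.mul (continuousAt_const.add (continuous_norm.continuousAt.div
      continuous_re.continuousAt hs.ne'))).mul (continuousAt_const.rpow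
        continuous_re.neg.continuousAt (Or.inl (Nat.cast_ne_zero.2 (by omega))))
  refine le_of_tendsto_of_tendsto (b := 𝓝[≠] 1) (c1.tendsto.mono_left nhdsWithin_le_nhds)
    (c2.tendsto.mono_left nhdsWithin_le_nhds) ?_
  filter_upwards [self_mem_nhdsWithin, nhdsWithin_le_nhds
    ((isOpen_lt continuous_const continuous_re).mem_nhds hs)] with z h1 h2 using key z h2 h1

theorem zeta_approx {s : ℂ} (hs : 0 < s.re) (hs1 : s ≠ 1) {N : ℕ} (hN : 1 ≤ N) :
    ‖riemannZeta s - dp (fun _ => 1) N s - (N : ℂ) ^ (1 - s) / (s - 1)‖ ≤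
      (1 + ‖s‖ / s.re) * (N : ℝ) ^ (-s.re) := by
  simpa using approx_general (f := fun _ => 1) (F := riemannZeta) (ρ := 1) (B := 0)
    (fun z hz => (differentiableAt_riemannZeta hz.2).differentiableWithinAt)
    (fun z hz => (LSeries_one_eq_riemannZeta hz).symm) (fun N => by simp) hs hs1 hN

end Pool.Agent.P.MP_7eacff_nt.SZ
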