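import Pool.Agent.P.MP_7eacff_nt.SZ.Defs

/-!
Values of the basic arithmetic functions, and the Polya Vinogradov inequality.
-/

open Complex Filter Topology Finset
open scoped Real

namespace Pool.Agent.P.MP_7eacff_nt.SZ

open Pool.Agent.Lib.LargeSieve (primSet mem_primSet)

theorem toAF_apply (f : ℕ → ℂ) (n : ℕ) :
    toArithmeticFunction f n = if n = 0 then 0 else f n := rfl

theorem un_apply {n : ℕ} (hn : n ≠ 0) : un n = 1 := by simp [un, toAF_apply, hn]

theorem lg_apply (n : ℕ) : lg n = ((Real.log n : ℝ) : ℂ) := by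
  rcases eq_or_ne n 0 with rfl | hn
  · simp
  · simp only [lg, toAF_apply, hn, if_false]

theorem vm_apply (n : ℕ) : vm n = ((ArithmeticFunction.vonMangoldt n : ℝ) : ℂ) := by
  rcases eq_or_ne n 0 with rfl | hn
  · simp
  · simp only [vm, toAF_apply, hn, if_false]

theorem mu_apply (n : ℕ) : mu n = ((ArithmeticFunction.moebius n : ℤ) : ℂ) := by
  rcases eq_or_ne n 0 with rfl | hn
  · simp
  · simp only [mu, toAF_apply, hn, if_false]

theorem lo_apply (Z : ℝ) (f : AF) (n : ℕ) : lo Z f n = if (n : ℝ) ≤ Z then f n else 0 := by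
  rcases eq_or_ne n 0 with rfl | hn
  · simp
  · simp only [lo, toAF_apply, hn, if_false]

theorem hi_apply (Z : ℝ) (f : AF) (n : ℕ) : hi Z f n = if Z < (n : ℝ) then f n else 0 := by
  rcases eq_or_ne n 0 with rfl | hn
  · simp
  · simp only [hi, toAF_apply, hn, if_false]

theorem lo_add_hi (Z : ℝ) (f : AF) : lo Z f + hi Z f = f := by
  ext n
  rw [ArithmeticFunction.add_apply, lo_apply, hi_apply]
  rcases le_or_gt (n : ℝ) Z with h | h
  · simp [h, not_lt.2 h]
  · simp [h, not_le.2 h]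

theorem pw_apply (u : ℂ) {n : ℕ} (hn : n ≠ 0) : pw u n = (n : ℂ) ^ (-u) := by
  simp only [pw, toAF_apply, hn, if_false]

theorem mw_apply (v : ℂ) (n : ℕ) : mw v n = mu n * (n : ℂ) ^ (-v) := by
  rcases eq_or_ne n 0 with rfl | hn
  · simp
  · simp only [mw, toAF_apply, hn, if_false]

theorem bF_apply (F : ℝ → ℝ) (T : ℝ) (n : ℕ) :
    bF F T n = mu n * (F (Real.log n / Real.log T) : ℝ) := by
  rcases eq_or_ne n 0 with rfl | hn
  · simp
  · simp only [bF, toAF_apply, hn, if_false]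

theorem aP_apply (κ : ℝ → ℝ) (T : ℝ) (n : ℕ) :
    aP κ T n = vm n * (κ (Real.log n / Real.log T) : ℝ) := by
  rcases eq_or_ne n 0 with rfl | hn
  · simp
  · simp only [aP, toAF_apply, hn, if_false]

theorem sub_apply' (f g : AF) (n : ℕ) : (f - g) n = f n - g n := by
  rw [sub_eq_add_neg, ArithmeticFunction.add_apply, ArithmeticFunction.neg_apply, sub_eq_add_neg]

theorem smul_apply' (c : ℂ) (f : AF) (n : ℕ) : (c • f) n = c * f n := by
  rw [ArithmeticFunction.smul_map, smul_eq_mul]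

theorem un_eq : un = (ArithmeticFunction.zeta : ArithmeticFunction ℕ) := by
  ext n
  rcases eq_or_ne n 0 with rfl | hn
  · simp
  · simp [un_apply hn, hn]

theorem mu_eq : mu = (ArithmeticFunction.moebius : ArithmeticFunction ℤ) := by
  ext n
  simp [mu_apply]

theorem mu_mul_un : mu * un = 1 := by
  rw [mu_eq, un_eq]
  exact ArithmeticFunction.coe_moebius_mul_coe_zeta

theorem vm_mul_un : vm * un = lg := by
  ext n
  rw [un_eq, ArithmeticFunction.coe_mul_zeta_apply, lg_apply,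
    ← ArithmeticFunction.vonMangoldt_sum]
  simp [vm_apply]

theorem mu_mul_lg : mu * lg = vm := by
  rw [← vm_mul_un, mul_left_comm, mu_mul_un, mul_one]

theorem pw_zero : pw 0 = un := by
  ext n
  rcases eq_or_ne n 0 with rfl | hn
  · simp
  · simp [pw_apply _ hn, un_apply hn]

theorem mw_zero : mw 0 = mu := by
  ext n
  simp [mw_apply]

theorem norm_mu_le (n : ℕ) : ‖mu n‖ ≤ 1 := by
  rw [mu_apply, Complex.norm_intCast]
  exact_mod_cast ArithmeticFunction.abs_moebius_le_one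

theorem squarefree_of_mu {n : ℕ} (h : mu n ≠ 0) : Squarefree n := by
  rw [mu_apply] at h
  exact ArithmeticFunction.moebius_ne_zero_iff_squarefree.1 (by exact_mod_cast h)

theorem norm_un_le (n : ℕ) : ‖un n‖ ≤ 1 := by
  rcases eq_or_ne n 0 with rfl | hn
  · simp
  · simp [un_apply hn]

theorem norm_lg (n : ℕ) : ‖lg n‖ = Real.log n := by
  rw [lg_apply, Complex.norm_real, Real.norm_of_nonneg (Real.log_natCast_nonneg n)]

theorem norm_vm (n : ℕ) : ‖vm n‖ = ArithmeticFunction.vonMangoldt n := by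
  rw [vm_apply, Complex.norm_real, Real.norm_of_nonneg ArithmeticFunction.vonMangoldt_nonneg]

theorem norm_vm_le (n : ℕ) : ‖vm n‖ ≤ Real.log n := by
  rw [norm_vm]
  exact ArithmeticFunction.vonMangoldt_le_log

theorem tau_nonneg (n : ℕ) : 0 ≤ tau n := Nat.cast_nonneg _

theorem one_le_tau {n : ℕ} (hn : n ≠ 0) : 1 ≤ tau n := by
  have : 0 < n.divisors.card := card_pos.2 ⟨1, Nat.one_mem_divisors.2 hn⟩
  exact Nat.one_le_cast.2 this

theorem tau_le_of_dvd {d n : ℕ} (h : d ∣ n) (hn : n ≠ 0) : tau d ≤ tau n :=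
  Nat.cast_le.2 (card_le_card (Nat.divisors_subset_of_dvd hn h))

theorem tau_mul_le (a b : ℕ) : tau (a * b) ≤ tau a * tau b := by
  unfold tau
  rw [Nat.divisors_mul]
  exact_mod_cast card_mul_le

theorem tau_le (n : ℕ) : tau n ≤ n := Nat.cast_le.2 (Nat.card_divisors_le_self n)

theorem card_antidiag (n : ℕ) : (n.divisorsAntidiagonal.card : ℝ) = tau n := by
  unfold tau
  rw [← Nat.map_div_right_divisors, card_map]

theorem ne_one_of_prim {q : ℕ} (hq : 1 < q) {ψ : DirichletCharacter ℂ q} (h : ψ ∈ primSet q) :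
    ψ ≠ 1 := by
  have : NeZero q := ⟨by omega⟩
  intro h1
  have h2 := mem_primSet.1 h
  rw [DirichletCharacter.isPrimitive_def, h1, DirichletCharacter.conductor_one] at h2
  omega

theorem card_primSet_le (q : ℕ) (hq : 0 < q) : ((primSet q).card : ℝ) ≤ q := by
  have : NeZero q := ⟨hq.ne'⟩
  have h1 : (primSet q).card ≤ Nat.card (DirichletCharacter ℂ q) := by
    rw [Nat.card_eq_fintype_card]
    exact card_le_univ _
  rw [DirichletCharacter.card_eq_totient_of_hasEnoughRootsOfUnity] at h1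
  exact_mod_cast h1.trans (Nat.totient_le q)

theorem tw_mul {q : ℕ} (ψ : DirichletCharacter ℂ q) (g a b : ℕ) :
    tw ψ g (a * b) = tw ψ g a * tw ψ g b := by
  unfold tw
  by_cases ha : a.Coprime g
  · by_cases hb : b.Coprime g
    · rw [if_pos ha, if_pos hb, if_pos (Nat.coprime_mul_iff_left.2 ⟨ha, hb⟩), Nat.cast_mul,
        map_mul]
    · rw [if_neg hb, if_neg fun h => hb (Nat.coprime_mul_iff_left.1 h).2, mul_zero]
  · rw [if_neg ha, if_neg fun h => ha (Nat.coprime_mul_iff_left.1 h).1, zero_mul]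

theorem tw_one {q : ℕ} (ψ : DirichletCharacter ℂ q) : tw ψ 1 = fun m : ℕ => ψ m := by
  ext m
  simp [tw]

theorem norm_tw_le {q : ℕ} (ψ : DirichletCharacter ℂ q) (g m : ℕ) : ‖tw ψ g m‖ ≤ 1 := by
  unfold tw
  split_ifs
  · exact ψ.norm_le_one _
  · simp

theorem ite_mul_tw {q : ℕ} (ψ : DirichletCharacter ℂ q) (g d w : ℕ) (x : ℂ) :
    (if w.Coprime d then x else 0) * tw ψ g w = x * tw ψ (g * d) w := by
  unfold tw
  by_cases ha : w.Coprime g
  · by_cases hb : w.Coprime d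
    · rw [if_pos ha, if_pos hb, if_pos (Nat.coprime_mul_iff_right.2 ⟨ha, hb⟩)]
    · rw [if_neg hb, if_neg fun h => hb (Nat.coprime_mul_iff_right.1 h).2, mul_zero, zero_mul]
  · rw [if_neg ha, if_neg (c := w.Coprime (g * d)) fun h => ha (Nat.coprime_mul_iff_right.1 h).1,
      mul_zero, mul_zero]

namespace PVAux

open Pool.Agent.Lib.LargeSieve DirichletCharacter

theorem sum_inv_le (f : ℕ) : ∑ a ∈ Ico 1 f, (1 : ℝ) / a ≤ 1 + Real.log f := by
  have h := harmonic_le_one_add_log f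
  rw [harmonic_eq_sum_Icc] at h
  push_cast at h
  refine le_trans ?_ h
  simp only [one_div]
  exact sum_le_sum_of_subset_of_nonneg Ico_subset_Icc_self fun _ _ _ => by positivity

theorem geom_le {f a : ℕ} (ha : a ∈ Ico 1 f) (N : ℕ) :
    ‖∑ m ∈ range N, Lib.LargeSieve.ee (m * ((a : ℝ) / f))‖ ≤
      f / 2 * (1 / a) + f / 2 * (1 / ((f - a : ℕ) : ℝ)) := by
  obtain ⟨h1, h2⟩ := mem_Ico.1 ha
  have h3 : (0 : ℝ) < a := by exact_mod_cast h1
  have h4 : (a : ℝ) < f := by exact_mod_cast h2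
  have h5 : (0 : ℝ) < f := h3.trans h4
  have h6 : Int.fract ((a : ℝ) / f) = a / f :=
    Int.fract_eq_self.2 ⟨by positivity, (div_lt_one h5).2 h4⟩
  have h7 : 0 < Int.fract ((a : ℝ) / f) := by rw [h6]; positivity
  have h := geom_bound N h7
  rw [Int.fract_neg h7.ne', h6] at h
  refine h.trans_eq ?_
  have h8 : (f : ℝ) - a ≠ 0 := by linarith
  rw [Nat.cast_sub h2.le, one_sub_div h5.ne']
  field_simp

theorem pv_prim {f : ℕ} (hf : 1 < f) {χ : DirichletCharacter ℂ f} (hχ : χ.IsPrimitive) (N : ℕ) :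
    ‖∑ m ∈ range N, χ m‖ ≤ √f * (1 + Real.log f) := by
  have : NeZero f := ⟨by omega⟩
  have hχ' : χ⁻¹.IsPrimitive := by rw [isPrimitive_def, conductor_inv]; exact hχ
  have hf0 : (0 : ℝ) < f := by exact_mod_cast (by omega : 0 < f)
  have hs : 0 < √f := Real.sqrt_pos.2 hf0
  have h1 : ‖gaussSum χ⁻¹ (ZMod.stdAddChar (N := f))‖ = √f := by
    rw [← gauss_norm hχ', Real.sqrt_sq (norm_nonneg _)]
  have h2 : (∑ m ∈ range N, χ m) * gaussSum χ⁻¹ (ZMod.stdAddChar (N := f)) =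
      ∑ a : ZMod f, χ⁻¹ a * ∑ m ∈ range N, Lib.LargeSieve.ee (m * ((a.val : ℝ) / f)) := by
    simp only [sum_mul, mul_sum]
    rw [sum_comm]
    refine sum_congr rfl fun m _ => ?_
    have h := gaussSum_mulShift_of_isPrimitive (ZMod.stdAddChar (N := f)) hχ' (m : ZMod f)
    rw [inv_inv] at h
    rw [← h, gaussSum]
    refine sum_congr rfl fun a _ => ?_
    rw [AddChar.mulShift_apply, stdAddChar_eq_ee]
  have h3 : ‖∑ a : ZMod f, χ⁻¹ a * ∑ m ∈ range N, Lib.LargeSieve.ee (m * ((a.val : ℝ) / f))‖ ≤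
      f * (1 + Real.log f) := by
    rw [← sum_erase (a := (0 : ZMod f)) _ (by rw [map_zero' _ hf.ne', zero_mul])]
    refine (norm_sum_le _ _).trans ?_
    have h4 : ∑ a ∈ (univ : Finset (ZMod f)).erase 0,
        ‖χ⁻¹ a * ∑ m ∈ range N, Lib.LargeSieve.ee (m * ((a.val : ℝ) / f))‖ ≤
        ∑ a ∈ Ico 1 f, ‖∑ m ∈ range N, Lib.LargeSieve.ee (m * ((a : ℝ) / f))‖ := by
      refine le_trans (sum_le_sum fun a _ => ?_) (le_trans (sum_image
        (f := fun a : ℕ => ‖∑ m ∈ range N, Lib.LargeSieve.ee (m * ((a : ℝ) / f))‖)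
        (fun a _ b _ h => ZMod.val_injective f h)).ge
        (sum_le_sum_of_subset_of_nonneg (fun a ha => ?_) fun _ _ _ => norm_nonneg _))
      · rw [norm_mul]
        exact mul_le_of_le_one_left (norm_nonneg _) (norm_le_one _ _)
      · obtain ⟨b, hb, rfl⟩ := mem_image.1 ha
        exact mem_Ico.2 ⟨ZMod.val_pos.2 (ne_of_mem_erase hb), ZMod.val_lt b⟩
    refine h4.trans ((sum_le_sum fun a ha => geom_le ha N).trans ?_)
    rw [sum_add_distrib, ← mul_sum, ← mul_sum]
    have h5 : ∑ a ∈ Ico 1 f, (1 : ℝ) / ((f - a : ℕ) : ℝ) = ∑ a ∈ Ico 1 f, (1 : ℝ) / a := by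
      rw [sum_Ico_reflect (fun a : ℕ => (1 : ℝ) / a) 1 (Nat.le_succ f)]
      simp
    have h6 := mul_le_mul_of_nonneg_left (sum_inv_le f) hf0.le
    rw [h5]
    linarith
  rw [← h2, norm_mul, h1] at h3
  refine le_of_mul_le_mul_right (h3.trans_eq ?_) hs
  rw [mul_right_comm, Real.mul_self_sqrt hf0.le]

theorem sum_moebius (n : ℕ) :
    ∑ e ∈ n.divisors, ((ArithmeticFunction.moebius e : ℤ) : ℂ) = if n = 1 then 1 else 0 := by
  have h := congrArg (fun g : ArithmeticFunction ℂ => g n)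
    (ArithmeticFunction.coe_moebius_mul_coe_zeta (R := ℂ))
  simp only [ArithmeticFunction.coe_mul_zeta_apply, ArithmeticFunction.one_apply] at h
  simpa using h

theorem norm_sum_coprime_le (h : ℕ → ℂ) (hm : ∀ a b, h (a * b) = h a * h b)
    (h1 : ∀ a, ‖h a‖ ≤ 1) {B : ℝ} (hB : ∀ N, ‖∑ m ∈ range N, h m‖ ≤ B) {r : ℕ} (hr : r ≠ 0)
    (N : ℕ) : ‖∑ m ∈ range N, if m.Coprime r then h m else 0‖ ≤ tau r * B := by
  have e1 : ∀ m : ℕ, (if m.Coprime r then h m else 0) = ∑ e ∈ r.divisors,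
      if e ∣ m then ((ArithmeticFunction.moebius e : ℤ) : ℂ) * h m else 0 := by
    intro m
    have e2 : r.divisors.filter (· ∣ m) = (m.gcd r).divisors := by
      ext e
      simp [Nat.dvd_gcd_iff, hr, and_comm]
    rw [← sum_filter, ← sum_mul, e2, sum_moebius]
    simp [Nat.Coprime]
  rw [sum_congr rfl fun m _ => e1 m, sum_comm]
  refine (norm_sum_le _ _).trans ((sum_le_card_nsmul _ _ B fun e he => ?_).trans ?_)
  · have he0 : 0 < e := Nat.pos_of_mem_divisors he
    have e3 : (range N).filter (e ∣ ·) = (range ((N + e - 1) / e)).image (e * ·) := by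
      ext m
      simp only [mem_filter, mem_range, mem_image, Nat.lt_iff_add_one_le,
        Nat.le_div_iff_mul_le he0]
      constructor
      · rintro ⟨a1, k, rfl⟩
        exact ⟨k, by rw [add_mul, mul_comm k]; omega, rfl⟩
      · rintro ⟨k, a1, rfl⟩
        exact ⟨by rw [add_mul, mul_comm k] at a1; omega, k, rfl⟩
    rw [← sum_filter, e3, sum_image fun a _ b _ hab => Nat.eq_of_mul_eq_mul_left he0 hab]
    simp only [hm, ← mul_sum, norm_mul]
    have a1 : ‖((ArithmeticFunction.moebius e : ℤ) : ℂ)‖ ≤ 1 := by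
      rw [Complex.norm_intCast]
      exact_mod_cast ArithmeticFunction.abs_moebius_le_one
    exact (mul_le_of_le_one_left (by positivity) a1).trans
      ((mul_le_of_le_one_left (norm_nonneg _) (h1 e)).trans (hB _))
  · rw [nsmul_eq_mul]
    exact le_rfl

end PVAux

/-- The Polya Vinogradov inequality with a coprimality condition. -/
theorem pv_tw {q : ℕ} (hq : 1 < q) {ψ : DirichletCharacter ℂ q} (hψ : ψ ∈ primSet q) {g : ℕ}
    (hg : 0 < g) (x : ℕ) : ‖∑ n ∈ Icc 1 x, tw ψ g n‖ ≤ tau g * (√q * (1 + Real.log q)) := by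
  have h := PVAux.norm_sum_coprime_le (fun m => ψ m) (fun a b => by simp)
    (fun a => ψ.norm_le_one _) (PVAux.pv_prim hq (mem_primSet.1 hψ)) hg.ne' (x + 1)
  have h0 : tw ψ g 0 = 0 := by
    have : NeZero q := ⟨by omega⟩
    unfold tw
    split_ifs
    · rw [Nat.cast_zero, DirichletCharacter.map_zero' _ hq.ne']
    · rfl
  have e : ∑ n ∈ Icc 1 x, tw ψ g n = ∑ n ∈ range (x + 1), tw ψ g n := by
    rw [range_eq_Ico, sum_eq_sum_Ico_succ_bot (Nat.succ_pos x), h0, zero_add]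
    rfl
  rw [e]
  exact h

/-- The Polya Vinogradov inequality on an interval. -/
theorem pv_Ioc {q : ℕ} (hq : 1 < q) {ψ : DirichletCharacter ℂ q} (hψ : ψ ∈ primSet q) {g : ℕ}
    (hg : 0 < g) (y x : ℕ) :
    ‖∑ n ∈ Ioc y x, tw ψ g n‖ ≤ 2 * (tau g * (√q * (1 + Real.log q))) := by
  have h1 := pv_tw hq hψ hg x
  have h2 := pv_tw hq hψ hg y
  rcases le_total y x with h | h
  · have e := sum_Ioc_consecutive (tw ψ g) (Nat.zero_le y) h
    have e1 : ∀ z, Ioc 0 z = Icc 1 z := fun z => rfl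
    rw [e1, e1] at e
    rw [eq_sub_of_add_eq' e]
    linarith [norm_sub_le (∑ n ∈ Icc 1 x, tw ψ g n) (∑ n ∈ Icc 1 y, tw ψ g n)]
  · rw [Ioc_eq_empty_of_le h, sum_empty, norm_zero]
    linarith [norm_nonneg (∑ n ∈ Icc 1 x, tw ψ g n)]

end Pool.Agent.P.MP_7eacff_nt.SZ
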