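import Pool.Agent.P.MP_7eacff_nt.SZ.Poly

/-!
Moving vertical lines of integration, and the Cauchy formula for a strip.
-/

open Complex Filter Topology MeasureTheory Set
open scoped Real ContDiff

namespace Pool.Agent.P.MP_7eacff_nt.SZ

open Pool.Agent.Lib.LargeSieve (primSet mem_primSet)

namespace StripAux

theorem cont_line {f : ℂ → ℂ} {a b σ : ℝ}
    (hf : ∀ s : ℂ, a ≤ s.re → s.re ≤ b → DifferentiableAt ℂ f s) (h1 : a ≤ σ) (h2 : σ ≤ b) :
    Continuous fun t : ℝ => f (σ + t * I) :=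
  continuous_iff_continuousAt.2 fun t =>
    ContinuousAt.comp (f := fun t : ℝ => (σ + t * I : ℂ))
      (hf _ (by simpa using h1) (by simpa using h2)).continuousAt (by fun_prop)

theorem horiz {f : ℂ → ℂ} {a b : ℝ} (hab : a ≤ b) (hd : Dec f a b 2) {r : ℝ → ℝ}
    (hr : Tendsto (fun R => |r R|) atTop atTop) :
    Tendsto (fun R => ∫ x : ℝ in a..b, f (x + r R * I)) atTop (𝓝 0) := by
  obtain ⟨C, hC⟩ := hd
  have h1 : Tendsto (fun R => C / (1 + |r R|) ^ 2 * |b - a|) atTop (𝓝 (0 * |b - a|)) :=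
    (((tendsto_pow_atTop two_ne_zero).comp
      (tendsto_atTop_add_const_left _ 1 hr)).const_div_atTop C).mul_const _
  rw [zero_mul] at h1
  refine squeeze_zero_norm (fun R => intervalIntegral.norm_integral_le_of_norm_le_const
    fun x hx => ?_) h1
  rw [uIoc_of_le hab] at hx
  simpa using hC (x + r R * I) (by simpa using hx.1.le) (by simpa using hx.2)

theorem dec_of_far {f : ℂ → ℂ} {a b C R : ℝ}
    (hf : ∀ s : ℂ, a ≤ s.re → s.re ≤ b → DifferentiableAt ℂ f s)
    (h : ∀ s : ℂ, a ≤ s.re → s.re ≤ b → R ≤ |s.im| → ‖f s‖ ≤ C / (1 + |s.im|) ^ 2) :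
    Dec f a b 2 := by
  obtain ⟨B, hB⟩ := ((isCompact_Icc (a := a) (b := b)).reProdIm
    (isCompact_Icc (a := -R) (b := R))).exists_bound_of_continuousOn (f := f)
    fun s hs => (hf s hs.1.1 hs.1.2).continuousAt.continuousWithinAt
  refine ⟨max C (B * (1 + R) ^ 2), fun s h1 h2 => ?_⟩
  rcases le_total R |s.im| with h3 | h3
  · exact (h s h1 h2 h3).trans (div_le_div_of_nonneg_right (le_max_left _ _) (by positivity))
  · have h4 := hB s ⟨⟨h1, h2⟩, abs_le.1 h3⟩
    have h5 := (norm_nonneg _).trans h4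
    rw [le_div_iff₀ (by positivity)]
    refine le_trans ?_ (le_max_right _ _)
    gcongr

/-- The comparison kernel. -/
noncomputable def kk (u : ℂ) : ℂ := 2 / (u * (u + 2))

theorem kk_left : (Integrable fun x : ℝ => kk (-1 + x * I)) ∧
    ∫ x : ℝ, kk (-1 + x * I) = -(2 * π) := by
  have e : ∀ x : ℝ, kk (-1 + x * I) = -2 * (((1 + x ^ 2)⁻¹ : ℝ) : ℂ) := fun x => by
    have : (-1 + x * I : ℂ) * (-1 + x * I + 2) = -(1 + x ^ 2) := by
      linear_combination (x : ℂ) ^ 2 * I_mul_I
    rw [kk, this]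
    push_cast
    rw [div_neg, neg_mul, div_eq_mul_inv]
  simp only [e]
  refine ⟨integrable_inv_one_add_sq.ofReal.const_mul _, ?_⟩
  rw [integral_const_mul, integral_complex_ofReal, integral_univ_inv_one_add_sq, neg_mul]

theorem kk_right : (Integrable fun x : ℝ => kk (1 + x * I)) ∧ ∫ x : ℝ, kk (1 + x * I) = 0 := by
  have n1 : ∀ x : ℝ, (1 + x * I : ℂ) ≠ 0 := fun x h => by simpa using congrArg re h
  have n3 : ∀ x : ℝ, (1 + x * I + 2 : ℂ) ≠ 0 := fun x h => by
    have := congrArg re h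
    norm_num at this
  have hi : Integrable fun x : ℝ => kk (1 + x * I) := by
    refine (integrable_inv_one_add_sq.const_mul 2).mono' (Continuous.aestronglyMeasurable ?_)
      (Eventually.of_forall fun x => ?_)
    · exact continuous_const.div (by fun_prop) fun x => mul_ne_zero (n1 x) (n3 x)
    · have h1 : ‖(1 + x * I : ℂ)‖ ^ 2 = 1 + x ^ 2 := by
        rw [Complex.sq_norm, normSq_apply]; simp; ring
      have h2 : ‖(1 + x * I : ℂ)‖ ≤ ‖(1 + x * I + 2 : ℂ)‖ := by
        refine le_of_sq_le_sq ?_ (norm_nonneg _)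
        rw [h1, Complex.sq_norm, normSq_apply]
        simp
        nlinarith
      have h3 := norm_pos_iff.2 (n1 x)
      rw [kk, norm_div, norm_mul, ← h1, Complex.norm_ofNat, ← div_eq_mul_inv, sq]
      gcongr
  have hd : ∀ x : ℝ, HasDerivAt (fun x : ℝ => -I * log (1 + -2 / (1 + x * I + 2)))
      (kk (1 + x * I)) x := fun x => by
    have h1 : ‖-2 / (1 + x * I + 2 : ℂ)‖ < 1 := by
      have := re_le_norm (1 + x * I + 2 : ℂ)
      norm_num at this
      rw [norm_div, norm_neg, Complex.norm_ofNat, div_lt_one (by linarith)]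
      linarith
    have h2 : HasDerivAt (fun z : ℂ => 1 + z * I + 2) I x := by
      simpa using (((hasDerivAt_id (x : ℂ)).mul_const I).const_add 1).add_const 2
    have h3 := ((((hasDerivAt_const (x : ℂ) (-2 : ℂ)).div h2 (n3 x)).const_add 1).clog
      (mem_slitPlane_of_norm_lt_one h1)).const_mul (-I)
    refine h3.comp_ofReal.congr_deriv ?_
    have h4 : (1 + -2 / (1 + x * I + 2) : ℂ) = (1 + x * I) / (1 + x * I + 2) := by
      rw [eq_div_iff (n3 x), add_mul, div_mul_cancel₀ _ (n3 x)]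
      ring
    have h5 := n1 x
    have h6 := n3 x
    simp only [Pi.div_apply]
    rw [h4, kk]
    generalize (1 + x * I : ℂ) = u at h5 h6
    field_simp
    linear_combination (-2 : ℂ) * I_mul_I
  have hl : ∀ l : Filter ℝ, Tendsto (fun x : ℝ => |x|) l atTop →
      Tendsto (fun x : ℝ => -I * log (1 + -2 / (1 + x * I + 2))) l (𝓝 0) := fun l h => by
    have h1 : Tendsto (fun x : ℝ => (-2 / (1 + x * I + 2) : ℂ)) l (𝓝 0) := by
      refine squeeze_zero_norm' ?_ (h.const_div_atTop 2)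
      filter_upwards [h.eventually_gt_atTop 0] with x hx
      have := abs_im_le_norm (1 + x * I + 2 : ℂ)
      norm_num at this
      rw [norm_div, norm_neg, Complex.norm_ofNat]
      gcongr
    have h2 := ((h1.const_add 1).clog (by simp)).const_mul (-I)
    simpa using h2
  refine ⟨hi, ?_⟩
  rw [integral_of_hasDerivAt_of_tendsto hd hi (hl _ tendsto_abs_atBot_atTop)
    (hl _ tendsto_abs_atTop_atTop), sub_zero]

theorem exists_g {H : ℂ → ℂ} (hH : Differentiable ℂ H) (hd : Dec H (-(1 / 2)) (3 / 2) 2) {ρ : ℂ}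
    (hρ : ρ.re = 1 / 2) : ∃ g : ℂ → ℂ,
      (∀ s : ℂ, -(1 / 2) ≤ s.re → s.re ≤ 3 / 2 → DifferentiableAt ℂ g s) ∧
      Dec g (-(1 / 2)) (3 / 2) 2 ∧
      ∀ s, s ≠ ρ → H s * (1 / (s - ρ)) = g s + H ρ * kk (s - ρ) := by
  have ho : IsOpen {s : ℂ | -1 < s.re} := isOpen_lt continuous_const continuous_re
  have h1 : DifferentiableOn ℂ (dslope (fun s => H s - H ρ * (2 / (s - ρ + 2))) ρ)
      {s : ℂ | -1 < s.re} := by
    refine (differentiableOn_dslope (ho.mem_nhds (by simp only [mem_ofPred, hρ]; norm_num))).2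
      (hH.differentiableOn.sub ((differentiableOn_const _).mul
        ((differentiableOn_const _).div (by fun_prop) fun s hs h => ?_)))
    have := congrArg re h
    simp only [mem_ofPred] at hs
    norm_num [hρ] at this
    linarith
  have h2 : ∀ s, s ≠ ρ → H s * (1 / (s - ρ)) =
      dslope (fun s => H s - H ρ * (2 / (s - ρ + 2))) ρ s + H ρ * kk (s - ρ) := fun s hs => by
    rw [dslope_of_ne _ hs, slope_def_field, kk, ← div_div]
    simp only [sub_self, zero_add, div_self (two_ne_zero' ℂ)]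
    ring
  have h3 : ∀ s : ℂ, -(1 / 2) ≤ s.re → s.re ≤ 3 / 2 →
      DifferentiableAt ℂ (dslope (fun s => H s - H ρ * (2 / (s - ρ + 2))) ρ) s := fun s hs _ =>
    h1.differentiableAt (ho.mem_nhds (by simp only [mem_ofPred]; linarith))
  obtain ⟨C, hC⟩ := hd
  refine ⟨_, h3, dec_of_far (C := C + ‖H ρ‖ * (2 * 4 ^ 2)) (R := 2 * |ρ.im| + 2) h3
    fun s a1 a2 a3 => ?_, h2⟩
  have b0 := abs_nonneg ρ.im
  have b1 : (1 + |s.im|) / 4 ≤ |s.im - ρ.im| ∧ 1 ≤ |s.im - ρ.im| := by
    have := abs_sub_abs_le_abs_sub s.im ρ.im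
    constructor <;> linarith
  have b2 : |s.im - ρ.im| ≤ ‖s - ρ‖ := by simpa using abs_im_le_norm (s - ρ)
  have b3 : |s.im - ρ.im| ≤ ‖s - ρ + 2‖ := by simpa using abs_im_le_norm (s - ρ + 2)
  have b4 : s ≠ ρ := fun h => by
    rw [h, sub_self, abs_zero] at b1
    linarith [b1.2]
  have b5 : 0 < 1 + |s.im| := by positivity
  rw [eq_sub_of_add_eq (h2 s b4).symm, add_div]
  refine (norm_sub_le _ _).trans (add_le_add ?_ ?_)
  · rw [mul_one_div, norm_div]
    exact (div_le_self (norm_nonneg _) (b1.2.trans b2)).trans (hC s a1 a2)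
  · rw [norm_mul, kk, norm_div, norm_mul, Complex.norm_ofNat, mul_div_assoc]
    calc _ ≤ ‖H ρ‖ * (2 / ((1 + |s.im|) / 4 * ((1 + |s.im|) / 4))) := by
          gcongr
          · exact b1.1.trans b2
          · exact b1.1.trans b3
      _ = _ := by field_simp

end StripAux

open StripAux

theorem strip_shift {f : ℂ → ℂ} {a b : ℝ} (hab : a ≤ b)
    (hf : ∀ s : ℂ, a ≤ s.re → s.re ≤ b → DifferentiableAt ℂ f s) (hd : Dec f a b 2) :
    ∫ t : ℝ, f (a + t * I) = ∫ t : ℝ, f (b + t * I) := by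
  have i1 := intervalIntegral_tendsto_integral (hd.integrable le_rfl hab (cont_line hf le_rfl hab))
    tendsto_neg_atTop_atBot tendsto_id
  have i2 := intervalIntegral_tendsto_integral (hd.integrable hab le_rfl (cont_line hf hab le_rfl))
    tendsto_neg_atTop_atBot tendsto_id
  have h1 := horiz hab hd (r := fun R => -R) (by simpa using tendsto_abs_atTop_atTop)
  have h2 := horiz hab hd (r := fun R => R) tendsto_abs_atTop_atTop
  have h3 := ((h1.sub h2).add (i2.const_smul I)).sub (i1.const_smul I)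
  have h4 := tendsto_nhds_unique h3 (tendsto_const_nhds.congr fun R =>
    (integral_boundary_rect_eq_zero_of_differentiableOn f ⟨a, -R⟩ ⟨b, R⟩ fun s hs => by
      have := hs.1
      rw [mem_preimage, uIcc_of_le hab] at this
      exact (hf s this.1 this.2).differentiableWithinAt).symm)
  rw [sub_self, zero_add, sub_eq_zero] at h4
  exact (mul_left_cancel₀ I_ne_zero h4).symm

theorem LI_reflect {f : ℂ → ℂ} (hf : Differentiable ℂ f) (hd : Dec f (-(1 / 2)) (3 / 2) 2) :
    LI (fun s => f (1 - s)) = LI f := by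
  have h1 := strip_shift (by norm_num) (fun s _ _ => hf s) hd
  rw [← integral_neg_eq_self] at h1
  push_cast at h1
  rw [LI, LI, ← h1]
  congr 3
  funext t
  congr 1
  ring

theorem cauchy_strip {H : ℂ → ℂ} (hH : Differentiable ℂ H) (hs : ∀ s, H (1 - s) = H s)
    (hd : Dec H (-(1 / 2)) (3 / 2) 2) (y : ℝ) :
    H (1 / 2 + y * I) =
      LI fun s => H s * (1 / (s - (1 / 2 + y * I)) + 1 / (s - 1 + (1 / 2 + y * I))) := by
  obtain ⟨g, g1, g2, g3⟩ := exists_g hH hd (ρ := 1 / 2 + y * I) (by simp)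
  have hab : (-(1 / 2) : ℝ) ≤ 3 / 2 := by norm_num
  have h1 := strip_shift hab g1 g2
  have i1 := (g2.integrable le_rfl hab (cont_line g1 le_rfl hab)).comp_neg
  have i2 := g2.integrable hab le_rfl (cont_line g1 hab le_rfl)
  rw [← integral_neg_eq_self] at h1
  have k1 := (kk_left.1.comp_sub_right y).comp_neg
  have k2 := kk_right.1.comp_sub_right y
  have k3 := (integral_neg_eq_self (fun t : ℝ => kk (-1 + (t - y : ℝ) * I)) volume).trans
    ((integral_sub_right_eq_self (fun t : ℝ => kk (-1 + t * I)) y).trans kk_left.2)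
  have k4 := (integral_sub_right_eq_self (fun t : ℝ => kk (1 + t * I)) y).trans kk_right.2
  have e : ∀ t : ℝ, H (3 / 2 + t * I) * (1 / (3 / 2 + t * I - (1 / 2 + y * I)) +
      1 / (3 / 2 + t * I - 1 + (1 / 2 + y * I))) =
      (g ((3 / 2 : ℝ) + t * I) + H (1 / 2 + y * I) * kk (1 + (t - y : ℝ) * I)) -
        (g ((-(1 / 2) : ℝ) + (-t : ℝ) * I) + H (1 / 2 + y * I) * kk (-1 + (-t - y : ℝ) * I)) := by
    intro t
    have a1 := g3 (3 / 2 + t * I) fun h => by have := congrArg re h; norm_num at this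
    have a2 := g3 (1 - (3 / 2 + t * I)) fun h => by have := congrArg re h; norm_num at this
    have a3 : (1 - (3 / 2 + t * I) - (1 / 2 + y * I) : ℂ) =
      -(3 / 2 + t * I - 1 + (1 / 2 + y * I)) := by ring
    rw [hs] at a2
    nth_rewrite 1 [a3] at a2
    rw [div_neg, mul_neg, neg_eq_iff_eq_neg] at a2
    rw [mul_add, a1, a2, ← sub_eq_add_neg]
    push_cast
    congr 4 <;> ring
  rw [LI]
  simp only [e]
  rw [integral_sub (i2.fun_add (k2.const_mul _)) (i1.fun_add (k1.const_mul _)),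
    integral_add i2 (k2.const_mul _), integral_add i1 (k1.const_mul _), integral_const_mul,
    integral_const_mul, k3, k4, h1, eq_div_iff (by simp [Real.pi_ne_zero])]
  ring

end Pool.Agent.P.MP_7eacff_nt.SZ
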