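import Pool.Agent.P.MP_7eacff_nt.SZ.Defs2
import Pool.Agent.P.MP_7eacff_nt.SZ.Strip

/-!
An inequality of Bernstein type in a strip.
-/

open Complex Filter Topology MeasureTheory Set
open scoped Real ContDiff

namespace Pool.Agent.P.MP_7eacff_nt.SZ

open Pool.Agent.Lib.LargeSieve (primSet mem_primSet)

namespace BernAux

theorem norm_iF_le (f : ℝ → ℂ) (x : ℝ) : ‖iF f x‖ ≤ ∫ u, ‖f u‖ := by
  refine (norm_integral_le_integral_norm _).trans_eq ?_
  simp only [norm_mul, norm_ee, mul_one]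

theorem integrable_sq {f : ℝ → ℂ} (hi : Integrable f) {C : ℝ} (h : ∀ x, ‖f x‖ ≤ C) :
    Integrable fun x => ‖f x‖ ^ 2 := by
  simp only [sq]
  exact hi.norm.mul_bdd (c := C) hi.norm.aestronglyMeasurable
    (ae_of_all _ fun x => by rw [norm_norm]; exact h x)

end BernAux

theorem plancherel {f : ℝ → ℂ} (hc : Continuous f) (hi : Integrable f) (hi' : Integrable (iF f)) :
    (Integrable fun x => ‖iF f x‖ ^ 2) ∧ ∫ x, ‖iF f x‖ ^ 2 = ∫ x, ‖f x‖ ^ 2 := by
  refine ⟨BernAux.integrable_sq hi' (BernAux.norm_iF_le f), ?_⟩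
  have hcj : Integrable fun x => (starRingEnd ℂ) (iF f x) :=
    (Complex.conjCLE.toContinuousLinearMap.integrable_comp hi')
  have e1 : ∀ x, ((‖iF f x‖ ^ 2 : ℝ) : ℂ) =
      ∫ u, (starRingEnd ℂ) (iF f x) * (f u * ee (u * x)) := by
    intro x
    rw [integral_const_mul, ← iF, Complex.conj_mul', ofReal_pow]
  have e2 : ∀ u, ∫ x, (starRingEnd ℂ) (iF f x) * (f u * ee (u * x)) = ((‖f u‖ ^ 2 : ℝ) : ℂ) := by
    intro u
    have e3 : (starRingEnd ℂ) (f u) = ∫ x, (starRingEnd ℂ) (iF f x * ee (x * -u)) := by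
      rw [integral_conj, ← iF_iF hc hi hi' u, iF]
    rw [ofReal_pow, ← Complex.mul_conj', e3, ← integral_const_mul]
    refine integral_congr_ae (ae_of_all _ fun x => ?_)
    simp only [map_mul, conj_ee]
    rw [show -(x * -u) = u * x by ring]
    ring
  apply ofReal_injective
  rw [← integral_complex_ofReal, ← integral_complex_ofReal]
  simp_rw [e1]
  rw [integral_integral_swap]
  · exact integral_congr_ae (ae_of_all _ e2)
  · have := (hcj.mul_prod hi).mul_bdd (c := 1)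
      (g := fun p : ℝ × ℝ => ee (p.2 * p.1)) (by fun_prop) (ae_of_all _ fun p => by simp)
    refine this.congr (ae_of_all _ fun p => ?_)
    simp only [Function.uncurry]
    ring

theorem Dec.der {f : ℂ → ℂ} (hf : Differentiable ℂ f) {a b δ : ℝ} (hδ : 0 < δ) {A : ℕ}
    (hd : Dec f (a - δ) (b + δ) A) : Dec (deriv f) a b A := by
  obtain ⟨C, hC⟩ := hd
  have hr : 0 < min δ 1 := lt_min hδ one_pos
  refine ⟨|C| * 2 ^ A / min δ 1, fun s h1 h2 => ?_⟩
  have h := Complex.norm_deriv_le_of_forall_mem_sphere_norm_le (c := s)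
    (C := |C| * 2 ^ A / (1 + |s.im|) ^ A) hr hf.diffContOnCl fun z hz => ?_
  · rwa [div_right_comm] at h
  have hn : ‖z - s‖ = min δ 1 := mem_sphere_iff_norm.1 hz
  have a1 := abs_le.1 ((abs_re_le_norm (z - s)).trans (hn.le.trans (min_le_left _ _)))
  have a2 := (abs_im_le_norm (z - s)).trans (hn.le.trans (min_le_right _ _))
  rw [sub_re] at a1
  rw [sub_im] at a2
  have a3 : 1 + |s.im| ≤ 2 * (1 + |z.im|) := by
    have := abs_sub_abs_le_abs_sub s.im z.im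
    rw [abs_sub_comm] at this
    linarith [abs_nonneg z.im]
  refine (hC z (by linarith [a1.1]) (by linarith [a1.2])).trans ?_
  rw [div_le_div_iff₀ (by positivity) (by positivity), mul_assoc, ← mul_pow]
  exact mul_le_mul (le_abs_self C) (pow_le_pow_left₀ (by positivity) a3 A) (by positivity)
    (abs_nonneg C)

namespace BernAux

/-- The restriction to a vertical line. -/
noncomputable def ln (Φ : ℂ → ℂ) (σ : ℝ) (t : ℝ) : ℂ := Φ (σ + t * I)

theorem msq_eq (Φ : ℂ → ℂ) (σ : ℝ) : msq Φ σ = ∫ t, ‖ln Φ σ t‖ ^ 2 := rfl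

theorem cont_ln {Φ : ℂ → ℂ} (hΦ : Differentiable ℂ Φ) (σ : ℝ) : Continuous (ln Φ σ) :=
  hΦ.continuous.comp (by fun_prop)

theorem int_ln {Φ : ℂ → ℂ} (hΦ : Differentiable ℂ Φ) {a b σ : ℝ} (hd : Dec Φ a b 2) (h1 : a ≤ σ)
    (h2 : σ ≤ b) : Integrable (ln Φ σ) :=
  hd.integrable h1 h2 (cont_ln hΦ σ)

theorem iF_deriv {Φ : ℂ → ℂ} (hΦ : Differentiable ℂ Φ) {σ : ℝ} (h0 : Integrable (ln Φ σ))
    (h1 : Integrable (ln (deriv Φ) σ)) (x : ℝ) :
    iF (ln (deriv Φ) σ) x = -(2 * π * x) * iF (ln Φ σ) x := by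
  have hu : ∀ t : ℝ, HasDerivAt (ln Φ σ) (ln (deriv Φ) σ t * I) t := by
    intro t
    have a : HasDerivAt (fun s : ℂ => Φ (σ + s * I)) (deriv Φ (σ + t * I) * I) t :=
      (hΦ _).hasDerivAt.comp (t : ℂ) ((hasDerivAt_mul_const I).const_add (σ : ℂ))
    exact a.comp_ofReal
  have e1 : (ln Φ σ * fun t => 2 * π * I * x * ee (t * x)) =
      fun t => 2 * π * I * x * (ln Φ σ t * ee (t * x)) := by
    funext t
    simp only [Pi.mul_apply]
    ring
  have e2 : ((fun t => ln (deriv Φ) σ t * I) * fun t => ee (t * x)) =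
      fun t => I * (ln (deriv Φ) σ t * ee (t * x)) := by
    funext t
    simp only [Pi.mul_apply]
    ring
  have h := integral_mul_deriv_eq_deriv_mul_of_integrable (fun t _ => hu t)
    (fun t _ => hasDerivAt_ee x t) (by rw [e1]; exact (integrable_mul_ee h0 x).const_mul _)
    (by rw [e2]; exact (integrable_mul_ee h1 x).const_mul _) (integrable_mul_ee h0 x)
  have e3 := congrArg (fun g : ℝ → ℂ => ∫ t, g t) e1
  have e4 := congrArg (fun g : ℝ → ℂ => ∫ t, g t) e2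
  simp only [Pi.mul_apply, integral_const_mul] at e3 e4
  rw [e3, e4, ← iF, ← iF] at h
  apply mul_left_cancel₀ I_ne_zero
  linear_combination h

theorem shift {Φ : ℂ → ℂ} (hΦ : Differentiable ℂ Φ) {a b : ℝ} (hab : a ≤ b) (hd : Dec Φ a b 2)
    (x : ℝ) : (Real.exp (2 * π * x * a) : ℂ) * iF (ln Φ a) x =
      (Real.exp (2 * π * x * b) : ℂ) * iF (ln Φ b) x := by
  have hd' : Dec (fun s => Φ s * cexp ((2 * π * x : ℝ) * s)) a b 2 := by
    obtain ⟨C, hC⟩ := hd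
    refine ⟨|C| * Real.exp (|2 * π * x| * (|a| + |b|)), fun s h1 h2 => ?_⟩
    rw [norm_mul, norm_exp, re_ofReal_mul, mul_div_right_comm]
    refine mul_le_mul ((hC s h1 h2).trans (by gcongr; exact le_abs_self C))
      (Real.exp_le_exp.2 ((le_abs_self _).trans ?_)) (Real.exp_pos _).le (by positivity)
    rw [abs_mul]
    refine mul_le_mul_of_nonneg_left (abs_le.2 ⟨?_, ?_⟩) (abs_nonneg _)
    · linarith [neg_abs_le a, abs_nonneg b]
    · linarith [le_abs_self b, abs_nonneg a]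
  have h := strip_shift hab (fun s _ _ => (hΦ s).mul (by fun_prop)) hd'
  have e : ∀ σ : ℝ, ∫ t : ℝ, Φ (σ + t * I) * cexp ((2 * π * x : ℝ) * (σ + t * I)) =
      (Real.exp (2 * π * x * σ) : ℂ) * iF (ln Φ σ) x := by
    intro σ
    rw [iF, ← integral_const_mul]
    refine integral_congr_ae (ae_of_all _ fun t => ?_)
    simp only [ln, ee, ofReal_exp]
    rw [mul_left_comm, ← Complex.exp_add]
    congr 2
    push_cast
    ring
  rw [← e, ← e]
  exact h

theorem shift_half {Φ : ℂ → ℂ} (hΦ : Differentiable ℂ Φ) (hd : Dec Φ (-1) 2 2) {σ : ℝ}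
    (h1 : -1 ≤ σ) (h2 : σ ≤ 2) (x : ℝ) :
    iF (ln Φ σ) x = ((Real.exp (2 * π * x * (1 / 2 - σ)) : ℝ) : ℂ) * iF (ln Φ (1 / 2)) x := by
  have a := shift hΦ h2 (hd.mono h1 le_rfl le_rfl) x
  have b := shift hΦ (a := 1 / 2) (b := 2) (by norm_num) (hd.mono (by norm_num) le_rfl le_rfl) x
  have c : (Real.exp (2 * π * x * σ) : ℂ) ≠ 0 := ofReal_ne_zero.2 (Real.exp_pos _).ne'
  apply mul_left_cancel₀ c
  rw [a, ← b, ← mul_assoc, ← ofReal_mul, ← Real.exp_add]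
  congr 3
  ring

theorem decay {Φ : ℂ → ℂ} (hΦ : Differentiable ℂ Φ) (hd : Dec Φ (-1) 2 2) : ∃ C : ℝ, 0 ≤ C ∧
    ∀ x, Real.exp (3 / 2 * |2 * π * x|) * ‖iF (ln Φ (1 / 2)) x‖ ≤ C := by
  have p1 : 0 ≤ ∫ t, ‖ln Φ (-1) t‖ := integral_nonneg fun _ => norm_nonneg _
  have p2 : 0 ≤ ∫ t, ‖ln Φ 2 t‖ := integral_nonneg fun _ => norm_nonneg _
  refine ⟨(∫ t, ‖ln Φ (-1) t‖) + ∫ t, ‖ln Φ 2 t‖, add_nonneg p1 p2, fun x => ?_⟩
  have a := norm_iF_le (ln Φ (-1)) x
  have b := norm_iF_le (ln Φ 2) x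
  rw [shift_half hΦ hd le_rfl (by norm_num), norm_mul, norm_real,
    Real.norm_of_nonneg (Real.exp_pos _).le] at a
  rw [shift_half hΦ hd (by norm_num) le_rfl, norm_mul, norm_real,
    Real.norm_of_nonneg (Real.exp_pos _).le] at b
  rcases abs_cases (2 * π * x) with ⟨h, -⟩ | ⟨h, -⟩
  · rw [h, show 3 / 2 * (2 * π * x) = 2 * π * x * (1 / 2 - -1) by ring]
    linarith
  · rw [h, show 3 / 2 * -(2 * π * x) = 2 * π * x * (1 / 2 - 2) by ring]
    linarith

theorem int_mul {Φ : ℂ → ℂ} (hΦ : Differentiable ℂ Φ) (hd : Dec Φ (-1) 2 2) {w : ℝ → ℝ}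
    (hw : Continuous w) (hb : ∀ x, |w x| ≤ 2 * Real.exp |2 * π * x|) {g : ℝ → ℂ}
    (hg : ∀ x, g x = (w x : ℂ) * iF (ln Φ (1 / 2)) x) : Integrable g := by
  obtain ⟨C, h0, hC⟩ := decay hΦ hd
  have hc := continuous_iF (int_ln hΦ hd (σ := 1 / 2) (by norm_num) (by norm_num))
  rw [funext hg]
  refine (integrable_inv_one_add_sq.const_mul (2 * C)).mono' (by fun_prop)
    (ae_of_all _ fun x => ?_)
  have a1 : 1 + x ^ 2 ≤ Real.exp (1 / 2 * |2 * π * x|) := by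
    have q := Real.quadratic_le_exp_of_nonneg (x := 1 / 2 * |2 * π * x|) (by positivity)
    have q1 : (1 / 2 * |2 * π * x|) ^ 2 = π ^ 2 * x ^ 2 := by
      rw [mul_pow, sq_abs]
      ring
    have q2 : 2 * x ^ 2 ≤ π ^ 2 * x ^ 2 :=
      mul_le_mul_of_nonneg_right (by nlinarith [Real.pi_gt_three]) (sq_nonneg x)
    have q3 : 0 ≤ 1 / 2 * |2 * π * x| := by positivity
    linarith
  have a2 := hC x
  rw [show 3 / 2 * |2 * π * x| = |2 * π * x| + 1 / 2 * |2 * π * x| by ring, Real.exp_add] at a2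
  rw [norm_mul, norm_real, Real.norm_eq_abs, ← div_eq_mul_inv, le_div_iff₀ (by positivity)]
  calc |w x| * ‖iF (ln Φ (1 / 2)) x‖ * (1 + x ^ 2)
      ≤ 2 * Real.exp |2 * π * x| * ‖iF (ln Φ (1 / 2)) x‖ * Real.exp (1 / 2 * |2 * π * x|) := by
        gcongr
        exact hb x
    _ ≤ 2 * C := by linarith

theorem pow_four_le (ξ Λ : ℝ) : (ξ ^ 2) ^ 2 ≤
    Λ ^ 4 + 24 * Real.exp (-Λ) * (Real.exp (-(2 * ξ)) + Real.exp (2 * ξ)) := by
  have e : (ξ ^ 2) ^ 2 = |ξ| ^ 4 := by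
    rw [← sq_abs ξ]
    ring
  rw [e]
  rcases le_total |ξ| Λ with h | h
  · exact (pow_le_pow_left₀ (abs_nonneg ξ) h 4).trans (le_add_of_nonneg_right (by positivity))
  have a := Real.pow_div_factorial_le_exp _ (abs_nonneg ξ) 4
  have b : Real.exp |ξ| ≤ Real.exp (-Λ) * Real.exp (2 * |ξ|) := by
    rw [← Real.exp_add]
    exact Real.exp_le_exp.2 (by linarith)
  have c : Real.exp (2 * |ξ|) ≤ Real.exp (-(2 * ξ)) + Real.exp (2 * ξ) := by
    rcases abs_cases ξ with ⟨h, -⟩ | ⟨h, -⟩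
    · rw [h]
      linarith [Real.exp_pos (-(2 * ξ))]
    · rw [h, mul_neg]
      linarith [Real.exp_pos (2 * ξ)]
  have d := mul_le_mul_of_nonneg_left c (Real.exp_pos (-Λ)).le
  have f : ((Nat.factorial 4 : ℕ) : ℝ) = 24 := by norm_num [Nat.factorial]
  rw [f] at a
  have g : 0 ≤ Λ ^ 4 := by positivity
  linarith

end BernAux

theorem bernstein {Φ : ℂ → ℂ} (hΦ : Differentiable ℂ Φ) (hd : Dec Φ (-1) 2 2) {Λ : ℝ}
    (hΛ : 0 ≤ Λ) :
    (Integrable fun t : ℝ => ‖deriv (deriv Φ) (1 / 2 + t * I)‖ ^ 2) ∧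
    msq (deriv (deriv Φ)) (1 / 2) ≤
      Λ ^ 4 * msq Φ (1 / 2) + 24 * Real.exp (-Λ) * (msq Φ (3 / 2) + msq Φ (-(1 / 2))) := by
  have d1 : Dec (deriv Φ) 0 1 2 :=
    Dec.der hΦ one_pos (hd.mono (by norm_num) (by norm_num) le_rfl)
  have d2 : Dec (deriv (deriv Φ)) (1 / 2) (1 / 2) 2 :=
    Dec.der hΦ.deriv one_half_pos (d1.mono (by norm_num) (by norm_num) le_rfl)
  have i0 := BernAux.int_ln hΦ hd (σ := 1 / 2) (by norm_num) (by norm_num)
  have i1 := BernAux.int_ln hΦ.deriv d1 (σ := 1 / 2) (by norm_num) (by norm_num)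
  have i2 := BernAux.int_ln hΦ.deriv.deriv d2 (σ := 1 / 2) le_rfl le_rfl
  have ip := BernAux.int_ln hΦ hd (σ := 3 / 2) (by norm_num) (by norm_num)
  have im := BernAux.int_ln hΦ hd (σ := -(1 / 2)) (by norm_num) (by norm_num)
  have e2 : ∀ x, iF (BernAux.ln (deriv (deriv Φ)) (1 / 2)) x =
      (((2 * π * x) ^ 2 : ℝ) : ℂ) * iF (BernAux.ln Φ (1 / 2)) x := by
    intro x
    rw [BernAux.iF_deriv hΦ.deriv i1 i2, BernAux.iF_deriv hΦ i0 i1]
    push_cast
    ring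
  have ep := BernAux.shift_half hΦ hd (σ := 3 / 2) (by norm_num) (by norm_num)
  have em := BernAux.shift_half hΦ hd (σ := -(1 / 2)) (by norm_num) (by norm_num)
  have j0 : Integrable (iF (BernAux.ln Φ (1 / 2))) := by
    refine BernAux.int_mul hΦ hd (w := fun _ => 1) continuous_const (fun x => ?_) fun x => by simp
    have := Real.one_le_exp (abs_nonneg (2 * π * x))
    rw [abs_one]
    linarith
  have j2 : Integrable (iF (BernAux.ln (deriv (deriv Φ)) (1 / 2))) := by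
    refine BernAux.int_mul hΦ hd (by fun_prop) (fun x => ?_) e2
    have := Real.pow_div_factorial_le_exp _ (abs_nonneg (2 * π * x)) 2
    rw [abs_pow]
    norm_num [Nat.factorial] at this ⊢
    linarith
  have jp : Integrable (iF (BernAux.ln Φ (3 / 2))) := by
    refine BernAux.int_mul hΦ hd (by fun_prop) (fun x => ?_) ep
    have h1 : 2 * π * x * (1 / 2 - 3 / 2) ≤ |2 * π * x| := by linarith [neg_abs_le (2 * π * x)]
    have := Real.exp_le_exp.2 h1
    rw [abs_of_pos (Real.exp_pos _)]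
    linarith [Real.exp_pos |2 * π * x|]
  have jm : Integrable (iF (BernAux.ln Φ (-(1 / 2)))) := by
    refine BernAux.int_mul hΦ hd (by fun_prop) (fun x => ?_) em
    have h1 : 2 * π * x * (1 / 2 - -(1 / 2)) ≤ |2 * π * x| := by linarith [le_abs_self (2 * π * x)]
    have := Real.exp_le_exp.2 h1
    rw [abs_of_pos (Real.exp_pos _)]
    linarith [Real.exp_pos |2 * π * x|]
  obtain ⟨a0, b0⟩ := plancherel (BernAux.cont_ln hΦ _) i0 j0
  obtain ⟨a2, b2⟩ := plancherel (BernAux.cont_ln hΦ.deriv.deriv _) i2 j2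
  obtain ⟨ap, bp⟩ := plancherel (BernAux.cont_ln hΦ _) ip jp
  obtain ⟨am, bm⟩ := plancherel (BernAux.cont_ln hΦ _) im jm
  have c1 : (1 / 2 : ℂ) = ((1 / 2 : ℝ) : ℂ) := by norm_num
  have c2 : (3 / 2 : ℂ) = ((3 / 2 : ℝ) : ℂ) := by norm_num
  have c3 : (-((1 / 2 : ℝ) : ℂ)) = ((-(1 / 2) : ℝ) : ℂ) := by norm_num
  rw [c1, c2, c3, BernAux.msq_eq, BernAux.msq_eq, BernAux.msq_eq, BernAux.msq_eq, ← b0, ← b2, ← bp,
    ← bm]
  obtain ⟨C, hC⟩ := d2
  refine ⟨BernAux.integrable_sq i2 (C := |C|) fun t => ?_, ?_⟩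
  · refine (hC _ (by simp) (by simp)).trans ((le_abs_self _).trans ?_)
    rw [abs_div]
    refine div_le_self (abs_nonneg C) ?_
    rw [abs_of_pos (by positivity)]
    exact one_le_pow₀ (by linarith [abs_nonneg (((1 / 2 : ℝ) : ℂ) + t * I).im])
  have apm : Integrable fun x => ‖iF (BernAux.ln Φ (3 / 2)) x‖ ^ 2 +
      ‖iF (BernAux.ln Φ (-(1 / 2))) x‖ ^ 2 := ap.add am
  rw [← integral_add ap am, ← integral_const_mul, ← integral_const_mul,
    ← integral_add (a0.const_mul _) (apm.const_mul _)]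
  refine integral_mono a2 ((a0.const_mul _).add (apm.const_mul _)) fun x => ?_
  have h := mul_le_mul_of_nonneg_right (BernAux.pow_four_le (2 * π * x) Λ)
    (sq_nonneg ‖iF (BernAux.ln Φ (1 / 2)) x‖)
  have f1 : Real.exp (2 * π * x * (1 / 2 - 3 / 2)) ^ 2 = Real.exp (-(2 * (2 * π * x))) := by
    rw [← Real.exp_nat_mul]
    congr 1
    push_cast
    ring
  have f2 : Real.exp (2 * π * x * (1 / 2 - -(1 / 2))) ^ 2 = Real.exp (2 * (2 * π * x)) := by
    rw [← Real.exp_nat_mul]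
    congr 1
    push_cast
    ring
  have f3 : ∀ (r : ℝ) (z : ℂ), ‖r * z‖ ^ 2 = r ^ 2 * ‖z‖ ^ 2 := fun r z => by
    rw [norm_mul, norm_real, mul_pow, Real.norm_eq_abs, sq_abs]
  rw [e2, ep, em, f3, f3, f3, f1, f2]
  linarith

end Pool.Agent.P.MP_7eacff_nt.SZ
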