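import Pool.Agent.P.MP_7eacff_nt.SZ.Basic

/-!
Sums of powers of the divisor function.
-/

open Complex Filter Topology MeasureTheory Set
open scoped Real ContDiff

namespace Pool.Agent.P.MP_7eacff_nt.SZ

open Pool.Agent.Lib.LargeSieve (primSet mem_primSet)

theorem sum_conv_div (f g : ℕ → ℝ) (hf : ∀ n, 0 ≤ f n) (hg : ∀ n, 0 ≤ g n) (N : ℕ) :
    ∑ n ∈ Finset.Icc 1 N, (∑ p ∈ n.divisorsAntidiagonal, f p.1 * g p.2) / n ≤
      (∑ n ∈ Finset.Icc 1 N, f n / n) * ∑ n ∈ Finset.Icc 1 N, g n / n := by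
  have e : ∀ n ∈ Finset.Icc 1 N, (∑ p ∈ n.divisorsAntidiagonal, f p.1 * g p.2) / n =
      ∑ p ∈ (Finset.Icc 1 N ×ˢ Finset.Icc 1 N) with p.1 * p.2 = n, f p.1 / p.1 * (g p.2 / p.2) := by
    intro n hn
    obtain ⟨h1, h2⟩ := Finset.mem_Icc.1 hn
    have e1 : n.divisorsAntidiagonal =
        (Finset.Icc 1 N ×ˢ Finset.Icc 1 N).filter fun p => p.1 * p.2 = n := by
      ext ⟨a, b⟩
      simp only [Nat.mem_divisorsAntidiagonal, Finset.mem_filter, Finset.mem_product,
        Finset.mem_Icc]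
      constructor
      · rintro ⟨rfl, h⟩
        have ha : 0 < a := Nat.pos_of_ne_zero (left_ne_zero_of_mul h)
        have hb : 0 < b := Nat.pos_of_ne_zero (right_ne_zero_of_mul h)
        exact ⟨⟨⟨ha, (Nat.le_mul_of_pos_right a hb).trans h2⟩, hb,
          (Nat.le_mul_of_pos_left b ha).trans h2⟩, rfl⟩
      · rintro ⟨-, h⟩
        exact ⟨h, by omega⟩
    rw [e1, Finset.sum_div]
    refine Finset.sum_congr rfl fun p hp => ?_
    rw [← (Finset.mem_filter.1 hp).2, Nat.cast_mul, mul_div_mul_comm]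
  rw [Finset.sum_congr rfl e, Finset.sum_mul_sum, ← Finset.sum_product']
  refine Finset.sum_fiberwise_le_sum_of_sum_fiber_nonneg fun y _ => Finset.sum_nonneg fun p _ => ?_
  exact mul_nonneg (div_nonneg (hf _) (Nat.cast_nonneg _)) (div_nonneg (hg _) (Nat.cast_nonneg _))

theorem sum_tau_div (j N : ℕ) :
    ∑ n ∈ Finset.Icc 1 N, tau n ^ j / n ≤ (1 + Real.log N) ^ 2 ^ j := by
  induction j with
  | zero =>
    have h := harmonic_le_one_add_log N
    rw [harmonic_eq_sum_Icc] at h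
    push_cast at h
    simpa only [pow_zero, pow_one, one_div] using h
  | succ j ih =>
    have hp : ∀ n, 0 ≤ tau n ^ j := fun n => pow_nonneg (tau_nonneg n) j
    have h0 : 0 ≤ ∑ n ∈ Finset.Icc 1 N, tau n ^ j / n :=
      Finset.sum_nonneg fun n _ => div_nonneg (hp n) n.cast_nonneg
    have h1 := sum_conv_div (fun n => tau n ^ j) (fun n => tau n ^ j) hp hp N
    rw [pow_succ 2 j, pow_mul, sq]
    refine le_trans (Finset.sum_le_sum fun n _ => ?_) (h1.trans (mul_self_le_mul_self h0 ih))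
    refine div_le_div_of_nonneg_right ?_ n.cast_nonneg
    rw [pow_succ', ← card_antidiag, ← nsmul_eq_mul]
    refine Finset.card_nsmul_le_sum _ _ _ fun p hp' => ?_
    rw [card_antidiag, ← mul_pow, ← (Nat.mem_divisorsAntidiagonal.1 hp').1]
    exact pow_le_pow_left₀ (tau_nonneg _) (tau_mul_le _ _) j

theorem sum_tau (j N : ℕ) :
    ∑ n ∈ Finset.Icc 1 N, tau n ^ j ≤ N * (1 + Real.log N) ^ 2 ^ j := by
  refine le_trans ?_ (mul_le_mul_of_nonneg_left (sum_tau_div j N) N.cast_nonneg)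
  rw [Finset.mul_sum]
  refine Finset.sum_le_sum fun n hn => ?_
  obtain ⟨h1, h2⟩ := Finset.mem_Icc.1 hn
  have h3 : (0 : ℝ) < n := by exact_mod_cast h1
  have h4 : (n : ℝ) ≤ N := by exact_mod_cast h2
  rw [← mul_div_assoc, le_div_iff₀ h3, mul_comm]
  exact mul_le_mul_of_nonneg_right h4 (pow_nonneg (tau_nonneg n) j)

namespace DivAux

open Finset

theorem divisor_pow (k : ℕ) : ∃ C : ℕ, ∀ n : ℕ, n ≠ 0 → n.divisors.card ^ k ≤ C * n := by
  obtain ⟨C0, hC0⟩ : ∃ C0 : ℕ, ∀ e : ℕ, (e + 1) ^ k ≤ C0 * 2 ^ e := by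
    have h := (tendsto_pow_const_div_const_pow_of_one_lt k (r := 2) (by norm_num)).bddAbove_range
    obtain ⟨B, hB⟩ := h
    obtain ⟨C, hC⟩ := exists_nat_ge B
    refine ⟨C * 2, fun e => ?_⟩
    have h1 : (((e + 1 : ℕ) : ℝ)) ^ k / 2 ^ (e + 1) ≤ C := (hB ⟨e + 1, rfl⟩).trans hC
    rw [div_le_iff₀ (by positivity), pow_succ] at h1
    have h2 : (((e + 1 : ℕ) : ℝ)) ^ k ≤ C * 2 * 2 ^ e := by linarith
    exact_mod_cast h2
  have hC1 : 1 ≤ C0 := by simpa using hC0 0
  refine ⟨C0 ^ (2 ^ k), fun n hn => ?_⟩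
  rw [Nat.card_divisors hn, ← Finset.prod_pow]
  calc ∏ p ∈ n.primeFactors, (n.factorization p + 1) ^ k
      ≤ ∏ p ∈ n.primeFactors, ((if p < 2 ^ k then C0 else 1) * p ^ n.factorization p) := by
        refine Finset.prod_le_prod' fun p hp => ?_
        have hp2 := (Nat.prime_of_mem_primeFactors hp).two_le
        split_ifs with h
        · exact (hC0 _).trans (by gcongr)
        · rw [one_mul]
          calc (n.factorization p + 1) ^ k ≤ (2 ^ n.factorization p) ^ k := by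
                gcongr; exact Nat.lt_two_pow_self
            _ = (2 ^ k) ^ n.factorization p := by rw [← pow_mul, ← pow_mul, mul_comm]
            _ ≤ _ := by gcongr; omega
    _ = (∏ p ∈ n.primeFactors, if p < 2 ^ k then C0 else 1) * n := by
        rw [Finset.prod_mul_distrib]
        congr 1
        exact Nat.prod_factorization_pow_eq_self hn
    _ ≤ _ := by
        gcongr
        rw [← Finset.prod_filter, Finset.prod_const]
        refine Nat.pow_le_pow_right hC1 ?_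
        calc _ ≤ (range (2 ^ k)).card :=
              Finset.card_le_card fun p hp => mem_range.2 (mem_filter.1 hp).2
          _ = _ := card_range _

theorem divisor_bound {η : ℝ} (hη : 0 < η) : ∃ C : ℝ, 1 ≤ C ∧ ∀ n : ℕ, n ≠ 0 →
    tau n ≤ C * (n : ℝ) ^ η := by
  obtain ⟨k, hk⟩ := exists_nat_ge (1 / η)
  have hk0 : k ≠ 0 := by
    rintro rfl
    have : 0 < 1 / η := by positivity
    rw [Nat.cast_zero] at hk
    linarith
  obtain ⟨C, hC⟩ := divisor_pow k
  refine ⟨C + 1, by linarith [Nat.cast_nonneg (α := ℝ) C], fun n hn => ?_⟩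
  have hn1 : (1 : ℝ) ≤ n := by exact_mod_cast Nat.one_le_iff_ne_zero.2 hn
  refine le_of_pow_le_pow_left₀ hk0 (by positivity) ?_
  have h1 : tau n ^ k ≤ C * n := by
    unfold tau
    exact_mod_cast hC n hn
  refine h1.trans ?_
  rw [mul_pow]
  have h2 : (C : ℝ) ≤ ((C : ℝ) + 1) ^ k :=
    (by linarith : (C : ℝ) ≤ C + 1).trans
      (le_self_pow₀ (by linarith [Nat.cast_nonneg (α := ℝ) C]) hk0)
  have h3 : (n : ℝ) ≤ ((n : ℝ) ^ η) ^ k := by
    rw [← Real.rpow_natCast, ← Real.rpow_mul (by positivity)]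
    have : 1 ≤ η * k := by
      rw [div_le_iff₀ hη] at hk; linarith
    simpa using Real.rpow_le_rpow_of_exponent_le hn1 this
  gcongr

theorem prod_le (S : Finset ℕ) (hS : ∀ p ∈ S, 2 ≤ p) :
    ∏ p ∈ S, p ≤ (S.card + 1) * ∏ p ∈ S, (p - 1) := by
  induction S using Finset.induction_on_max with
  | empty => simp
  | insert a S ha ih =>
    have hn : a ∉ S := fun h => lt_irrefl a (ha a h)
    have h1 := ih fun p hp => hS p (mem_insert_of_mem hp)
    have h2 : S.card ≤ a - 2 := by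
      rw [← Nat.card_Ico]
      exact card_le_card fun p hp => mem_Ico.2 ⟨hS p (mem_insert_of_mem hp), ha p hp⟩
    have h3 : 2 ≤ a := hS a (mem_insert_self a S)
    rw [prod_insert hn, prod_insert hn, card_insert_of_notMem hn, ← mul_assoc]
    refine (Nat.mul_le_mul_left a h1).trans ?_
    rw [← mul_assoc]
    refine Nat.mul_le_mul_right _ ?_
    obtain ⟨b, rfl⟩ : ∃ b, a = b + 1 := ⟨a - 1, by omega⟩
    have h4 : S.card + 1 ≤ b := by omega
    rw [Nat.add_sub_cancel]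
    nlinarith

end DivAux

theorem tau_pow_le (j : ℕ) {ε : ℝ} (hε : 0 < ε) :
    ∃ C : ℝ, 1 ≤ C ∧ ∀ n : ℕ, n ≠ 0 → tau n ^ j ≤ C * (n : ℝ) ^ ε := by
  obtain ⟨C, h1, hC⟩ := DivAux.divisor_bound (η := ε / (j + 1 : ℕ)) (by positivity)
  refine ⟨C ^ (j + 1), one_le_pow₀ h1, fun n hn => ?_⟩
  have h2 : tau n ^ j ≤ tau n ^ (j + 1) := pow_le_pow_right₀ (one_le_tau hn) j.le_succ
  refine h2.trans ((pow_le_pow_left₀ (tau_nonneg n) (hC n hn) (j + 1)).trans_eq ?_)
  rw [mul_pow, ← Real.rpow_mul_natCast n.cast_nonneg, div_mul_cancel₀ _ (by positivity)]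

theorem summable_tau_pow (j : ℕ) {a : ℝ} (ha : 0 < a) :
    Summable fun n : ℕ => tau n ^ j * (n : ℝ) ^ (-1 - a) := by
  obtain ⟨C, h1, hC⟩ := tau_pow_le j (half_pos ha)
  have hs : Summable fun n : ℕ => C * (n : ℝ) ^ (-1 - a / 2) :=
    (Real.summable_nat_rpow.2 (by linarith)).mul_left C
  refine Summable.of_nonneg_of_le (fun n => mul_nonneg (pow_nonneg (tau_nonneg n) j)
    (Real.rpow_nonneg n.cast_nonneg _)) (fun n => ?_) hs
  rcases Nat.eq_zero_or_pos n with rfl | hn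
  · rw [Nat.cast_zero, Real.zero_rpow (by linarith), Real.zero_rpow (by linarith), mul_zero,
      mul_zero]
  have hn' : (0 : ℝ) < n := by exact_mod_cast hn
  have e : (n : ℝ) ^ (-1 - a / 2) = (n : ℝ) ^ (a / 2) * (n : ℝ) ^ (-1 - a) := by
    rw [← Real.rpow_add hn']
    congr 1
    ring
  rw [e, ← mul_assoc]
  exact mul_le_mul_of_nonneg_right (hC n hn.ne') (Real.rpow_nonneg n.cast_nonneg _)

theorem le_totient_mul_log {n : ℕ} (hn : n ≠ 0) :
    (n : ℝ) ≤ n.totient * (1 + 2 * Real.log n) := by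
  have h2 : ∀ p ∈ n.primeFactors, 2 ≤ p := fun p hp => (Nat.prime_of_mem_primeFactors hp).two_le
  have h1 := DivAux.prod_le n.primeFactors h2
  have h3 := Nat.totient_mul_prod_primeFactors n
  have h4 : 0 < ∏ p ∈ n.primeFactors, (p - 1) :=
    Finset.prod_pos fun p hp => by have := h2 p hp; omega
  have h5 : n ≤ n.totient * (n.primeFactors.card + 1) := by
    refine Nat.le_of_mul_le_mul_right ?_ h4
    rw [← h3, mul_assoc]
    exact Nat.mul_le_mul_left _ h1
  have h6 : 2 ^ n.primeFactors.card ≤ n :=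
    (Finset.pow_card_le_prod _ _ _ h2).trans
      (Nat.le_of_dvd (Nat.pos_of_ne_zero hn) (Nat.prod_primeFactors_dvd n))
  have h7 : (n.primeFactors.card : ℝ) * Real.log 2 ≤ Real.log n := by
    rw [← Real.log_pow]
    exact Real.log_le_log (by positivity) (by exact_mod_cast h6)
  have h8 : (n.primeFactors.card : ℝ) + 1 ≤ 1 + 2 * Real.log n := by
    have := Real.log_two_gt_d9
    have h9 : (0 : ℝ) ≤ n.primeFactors.card := Nat.cast_nonneg _
    nlinarith
  have h10 : (n : ℝ) ≤ n.totient * ((n.primeFactors.card : ℝ) + 1) := by exact_mod_cast h5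
  exact h10.trans (mul_le_mul_of_nonneg_left h8 (Nat.cast_nonneg _))

theorem le_totient_mul_tau (n : ℕ) : (n : ℝ) ≤ n.totient * tau n := by
  have h : n ≤ n.totient * n.divisors.card := by
    calc n = ∑ d ∈ n.divisors, d.totient := (Nat.sum_totient n).symm
      _ ≤ n.divisors.card • n.totient := by
        refine Finset.sum_le_card_nsmul _ _ _ fun d hd => ?_
        obtain ⟨h1, h2⟩ := Nat.mem_divisors.1 hd
        exact Nat.le_of_dvd (Nat.totient_pos.2 (Nat.pos_of_ne_zero h2)) (Nat.totient_dvd_of_dvd h1)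
      _ = _ := by rw [smul_eq_mul, mul_comm]
  unfold tau
  exact_mod_cast h

theorem norm_ram_le (k m : ℕ) : ‖ram k m‖ ≤ ∑ d ∈ k.divisors, if d ∣ m then (d : ℝ) else 0 := by
  refine (norm_sum_le _ _).trans (Finset.sum_le_sum fun d _ => ?_)
  split_ifs
  · rw [norm_mul, Complex.norm_natCast]
    exact mul_le_of_le_one_left d.cast_nonneg (norm_mu_le _)
  · rw [norm_zero]

theorem norm_ram_div_le (k m : ℕ) : ‖ram k m / k.totient‖ ≤ (k : ℝ) ^ 2 := by
  rcases Nat.eq_zero_or_pos k with rfl | hk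
  · simp
  have h1 : (1 : ℝ) ≤ k.totient := by exact_mod_cast Nat.totient_pos.2 hk
  rw [norm_div, Complex.norm_natCast]
  refine (div_le_self (norm_nonneg _) h1).trans ((norm_ram_le k m).trans ?_)
  refine (Finset.sum_le_card_nsmul _ _ (k : ℝ) fun d hd => ?_).trans ?_
  · split_ifs
    · exact_mod_cast Nat.divisor_le hd
    · exact k.cast_nonneg
  · rw [nsmul_eq_mul, sq]
    exact mul_le_mul_of_nonneg_right (tau_le k) k.cast_nonneg

theorem norm_mul_le {f g : AF} {M M' : ℝ} {i j : ℕ} (hf : ∀ n, ‖f n‖ ≤ M * tau n ^ i)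
    (hg : ∀ n, ‖g n‖ ≤ M' * tau n ^ j) (n : ℕ) :
    ‖(f * g) n‖ ≤ M * M' * tau n ^ (i + j + 1) := by
  have hp : ∀ i : ℕ, 0 < tau 1 ^ i := fun i => pow_pos (one_pos.trans_le (one_le_tau one_ne_zero)) i
  have hM : 0 ≤ M := nonneg_of_mul_nonneg_left ((norm_nonneg _).trans (hf 1)) (hp i)
  have hM' : 0 ≤ M' := nonneg_of_mul_nonneg_left ((norm_nonneg _).trans (hg 1)) (hp j)
  rw [ArithmeticFunction.mul_apply]
  refine (norm_sum_le _ _).trans ((Finset.sum_le_card_nsmul _ _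
    (M * M' * tau n ^ (i + j)) fun p hp' => ?_).trans_eq ?_)
  · obtain ⟨h1, h2⟩ := Nat.mem_divisorsAntidiagonal.1 hp'
    have a1 : ‖f p.1‖ ≤ M * tau n ^ i := (hf _).trans (mul_le_mul_of_nonneg_left
      (pow_le_pow_left₀ (tau_nonneg _) (tau_le_of_dvd ⟨p.2, h1.symm⟩ h2) i) hM)
    have a2 : ‖g p.2‖ ≤ M' * tau n ^ j := (hg _).trans (mul_le_mul_of_nonneg_left
      (pow_le_pow_left₀ (tau_nonneg _) (tau_le_of_dvd (Dvd.intro_left _ h1) h2) j) hM')
    rw [norm_mul]
    refine (mul_le_mul a1 a2 (norm_nonneg _) ((norm_nonneg _).trans a1)).trans_eq ?_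
    ring
  · rw [nsmul_eq_mul, card_antidiag]
    ring

theorem mul_eq_zero_of_lt {f g : AF} {X Y : ℝ} (hX : 0 ≤ X) (hY : 0 ≤ Y)
    (hf : ∀ n : ℕ, X < n → f n = 0) (hg : ∀ n : ℕ, Y < n → g n = 0) (n : ℕ) (hn : X * Y < n) :
    (f * g) n = 0 := by
  rw [ArithmeticFunction.mul_apply]
  refine Finset.sum_eq_zero fun p hp => ?_
  obtain ⟨h1, -⟩ := Nat.mem_divisorsAntidiagonal.1 hp
  rcases lt_or_ge X p.1 with a | a
  · rw [hf _ a, zero_mul]
  rcases lt_or_ge Y p.2 with b | b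
  · rw [hg _ b, mul_zero]
  rw [← h1, Nat.cast_mul] at hn
  exact absurd (mul_le_mul a b (Nat.cast_nonneg _) hX) (not_le.2 hn)

theorem mul_congr_of_le {f f' g g' : AF} {X : ℝ} (hf : ∀ n : ℕ, (n : ℝ) ≤ X → f n = f' n)
    (hg : ∀ n : ℕ, (n : ℝ) ≤ X → g n = g' n) (n : ℕ) (hn : (n : ℝ) ≤ X) :
    (f * g) n = (f' * g') n := by
  rw [ArithmeticFunction.mul_apply, ArithmeticFunction.mul_apply]
  refine Finset.sum_congr rfl fun p hp => ?_
  have a : (p.1 : ℝ) ≤ n := by
    exact_mod_cast Nat.divisor_le (Nat.fst_mem_divisors_of_mem_antidiagonal hp)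
  have b : (p.2 : ℝ) ≤ n := by
    exact_mod_cast Nat.divisor_le (Nat.snd_mem_divisors_of_mem_antidiagonal hp)
  rw [hf _ (a.trans hn), hg _ (b.trans hn)]

/-- Powers of the logarithm are eventually below any power. -/
theorem ev_log_pow_le (C : ℝ) (j : ℕ) {δ : ℝ} (hδ : 0 < δ) :
    ∀ᶠ T : ℝ in atTop, C * Real.log T ^ j ≤ T ^ δ := by
  have h := ((isLittleO_log_rpow_rpow_atTop (j : ℝ) hδ).const_mul_left C).bound one_pos
  filter_upwards [h, eventually_ge_atTop 0] with T h1 h2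
  rw [one_mul, Real.norm_of_nonneg (Real.rpow_nonneg h2 δ), Real.rpow_natCast] at h1
  exact (le_abs_self _).trans h1

theorem ev_le_log (C : ℝ) : ∀ᶠ T : ℝ in atTop, C ≤ Real.log T := Real.tendsto_log_atTop.eventually_ge_atTop C

/-- `1 + log N` is below `log T ^ 2` on polynomial ranges. -/
theorem ev_log_range (j : ℕ) :
    ∀ᶠ T : ℝ in atTop, ∀ x : ℝ, 0 ≤ x → x ≤ T ^ j → 1 + Real.log x ≤ Real.log T ^ 2 := by
  filter_upwards [ev_le_log ((j : ℝ) + 1)] with T hT x h0 hx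
  have hj : (0 : ℝ) ≤ j := j.cast_nonneg
  have h1 : Real.log x ≤ j * Real.log T := by
    rcases h0.eq_or_lt with rfl | h
    · rw [Real.log_zero]
      exact mul_nonneg hj (by linarith)
    · rw [← Real.log_pow]
      exact Real.log_le_log h hx
  nlinarith

theorem sum_dyadic {M : Type*} [AddCommMonoid M] (f : ℕ → M) {N K : ℕ} (h : N < 2 ^ K) :
    ∑ n ∈ Finset.Icc 1 N, f n = ∑ i ∈ Finset.range K,
      ∑ n ∈ Finset.Ico (2 ^ i) (2 * 2 ^ i), if n ≤ N then f n else 0 := by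
  have e : ∀ (g : ℕ → M) (K : ℕ), ∑ i ∈ Finset.range K, ∑ n ∈ Finset.Ico (2 ^ i) (2 * 2 ^ i), g n =
      ∑ n ∈ Finset.Ico 1 (2 ^ K), g n := by
    intro g K
    induction K with
    | zero => simp
    | succ K ih =>
      rw [Finset.sum_range_succ, ih, pow_succ']
      exact Finset.sum_Ico_consecutive g Nat.one_le_two_pow (by omega)
  rw [e, ← Finset.sum_filter]
  refine Finset.sum_congr ?_ fun _ _ => rfl
  ext n
  simp only [Finset.mem_Icc, Finset.mem_filter, Finset.mem_Ico]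
  omega

end Pool.Agent.P.MP_7eacff_nt.SZ
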