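import Pool.Agent.P.MP_7eacff_nt.SZ.Block
import Pool.Agent.P.MP_7eacff_nt.SZ.Div

/-!
The bilinear bound after dyadic decomposition.
-/

open Complex Filter Topology MeasureTheory Set
open scoped Real ContDiff

namespace Pool.Agent.P.MP_7eacff_nt.SZ

open Pool.Agent.Lib.LargeSieve (primSet mem_primSet)

namespace BilinAux

lemma core {x y u w l mn L e0 e1 e2 e3 e4 : ℝ} (hx : 0 < x) (hy : 0 < y) (hu : 0 < u) (hw : 0 < w)
    (hl : 1 ≤ l) (hL : l ^ 2 ≤ 12 * L) (hL1 : 1 ≤ L) (h1 : mn * x ^ 2 * y ^ 2 ≤ 2 * u ^ 2 * w ^ 2)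
    (h2 : mn * x * y ≤ 2 * u * w) (p0 : 0 ≤ e0) (p1 : 0 ≤ e1) (p2 : 0 ≤ e2) (p3 : 0 ≤ e3)
    (p4 : 0 ≤ e4) (he0 : 1 ≤ 2 * e0 * u) (he1 : u ≤ 2 * e1 * x)
    (he : x ≤ w * e3 ∨ u ≤ 2 * e2 * y) (he4 : u ^ 2 ≤ w * e4) :
    (u ^ 3)⁻¹ * (mn * ((2 * x + l * u ^ 2) * (2 * y + l * u ^ 2)) * (2 * x * y)) ≤
      192 * L * w ^ 2 * (e0 + e1 + e2 + e3 + e4) := by
  have hw2 : 0 < w ^ 2 := by positivity
  have t1 : mn * x ^ 2 * y ^ 2 / u ^ 3 ≤ 4 * w ^ 2 * e0 := by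
    rw [div_le_iff₀ (by positivity)]
    have : 2 * u ^ 2 * w ^ 2 * 1 ≤ 2 * u ^ 2 * w ^ 2 * (2 * e0 * u) :=
      mul_le_mul_of_nonneg_left he0 (by positivity)
    nlinarith
  have t2 : mn * x * y ^ 2 / u ≤ 4 * w ^ 2 * e1 := by
    rw [div_le_iff₀ hu]
    have a1 : 2 * u * w ^ 2 * u ≤ 2 * u * w ^ 2 * (2 * e1 * x) :=
      mul_le_mul_of_nonneg_left he1 (by positivity)
    have a2 : mn * x * y ^ 2 * x ≤ 4 * w ^ 2 * e1 * u * x := by nlinarith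
    exact le_of_mul_le_mul_right a2 hx
  have t3 : mn * x ^ 2 * y / u ≤ 4 * w ^ 2 * (e2 + e3) := by
    rw [div_le_iff₀ hu]
    rcases he with he | he
    · have a1 : mn * x * y * x ≤ 2 * u * w * x := mul_le_mul_of_nonneg_right h2 hx.le
      have a2 : 2 * u * w * x ≤ 2 * u * w * (w * e3) :=
        mul_le_mul_of_nonneg_left he (by positivity)
      have a3 : 0 ≤ w ^ 2 * e2 * u := by positivity
      have a4 : 0 ≤ w ^ 2 * e3 * u := by positivity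
      nlinarith
    · have a1 : 2 * u * w ^ 2 * u ≤ 2 * u * w ^ 2 * (2 * e2 * y) :=
        mul_le_mul_of_nonneg_left he (by positivity)
      have a2 : mn * x ^ 2 * y * y ≤ 4 * w ^ 2 * e2 * u * y := by nlinarith
      have a3 := le_of_mul_le_mul_right a2 hy
      have a4 : 0 ≤ w ^ 2 * e3 * u := by positivity
      nlinarith
  have t4 : u * (mn * x * y) ≤ 2 * w ^ 2 * e4 := by
    have a1 : u * (mn * x * y) ≤ u * (2 * u * w) := mul_le_mul_of_nonneg_left h2 hu.le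
    have a2 : 2 * w * u ^ 2 ≤ 2 * w * (w * e4) := mul_le_mul_of_nonneg_left he4 (by positivity)
    nlinarith
  have e : (u ^ 3)⁻¹ * (mn * ((2 * x + l * u ^ 2) * (2 * y + l * u ^ 2)) * (2 * x * y)) =
      8 * (mn * x ^ 2 * y ^ 2 / u ^ 3) + 4 * l * (mn * x * y ^ 2 / u + mn * x ^ 2 * y / u) +
        2 * l ^ 2 * (u * (mn * x * y)) := by
    field_simp
    ring
  rw [e]
  have hl2 : l ≤ 12 * L := by nlinarith
  have b1 : 4 * l * (mn * x * y ^ 2 / u + mn * x ^ 2 * y / u) ≤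
      4 * l * (4 * w ^ 2 * (e1 + e2 + e3)) :=
    mul_le_mul_of_nonneg_left (by linarith) (by positivity)
  have b2 : 4 * l * (4 * w ^ 2 * (e1 + e2 + e3)) ≤ 4 * (12 * L) * (4 * w ^ 2 * (e1 + e2 + e3)) :=
    mul_le_mul_of_nonneg_right (by linarith) (by positivity)
  have b3 : 2 * l ^ 2 * (u * (mn * x * y)) ≤ 2 * l ^ 2 * (2 * w ^ 2 * e4) :=
    mul_le_mul_of_nonneg_left t4 (by positivity)
  have b4 : 2 * l ^ 2 * (2 * w ^ 2 * e4) ≤ 2 * (12 * L) * (2 * w ^ 2 * e4) :=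
    mul_le_mul_of_nonneg_right (by linarith) (by positivity)
  have b5 : 1 * (w ^ 2 * e0) ≤ L * (w ^ 2 * e0) := mul_le_mul_of_nonneg_right hL1 (by positivity)
  have b6 : 0 ≤ L * (w ^ 2 * e0) := by positivity
  have b7 : 0 ≤ L * (w ^ 2 * e4) := by positivity
  nlinarith

lemma sqrt_le_add {a Q lam : ℝ} (ha : 0 ≤ a) (hQ : 0 ≤ Q) (hlam : 0 ≤ lam) :
    √(2 * a + Q ^ 2 * lam) ≤ 2 * √a + √lam * (√Q) ^ 2 := by
  rw [Real.sq_sqrt hQ]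
  refine Real.sqrt_le_iff.2 ⟨by positivity, ?_⟩
  have h1 := Real.sq_sqrt ha
  have h2 := Real.sq_sqrt hlam
  have h3 : 0 ≤ √a * √lam * Q := by positivity
  have h4 : (2 * √a + √lam * Q) ^ 2 = 4 * √a ^ 2 + 4 * (√a * √lam * Q) + √lam ^ 2 * Q ^ 2 := by ring
  rw [h4, h1, h2]
  nlinarith

lemma min_le_self {t : ℝ} (ht : 0 ≤ t) : min 1 (t ^ 2) ≤ t := by
  rcases le_total t 1 with h | h
  · exact (min_le_right _ _).trans (by nlinarith)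
  · exact (min_le_left _ _).trans h

lemma min_le_root {s : ℝ} (hs : 0 ≤ s) : min 1 ((s ^ 2) ^ 2) ≤ s := by
  rcases le_total s 1 with h | h
  · refine (min_le_right _ _).trans ?_
    have : (s ^ 2) ^ 2 = s ^ 4 := by ring
    rw [this]
    exact pow_le_of_le_one hs h (by norm_num)
  · exact (min_le_left _ _).trans h

lemma one_block {Q a b Y lam L A B SA SB Q₀ Q₁ Z₁ Z₂ M₁ : ℝ} (hQ : 1 ≤ Q) (ha : 1 ≤ a)
    (hb : 1 ≤ b) (hY : 0 < Y) (hlam : 1 ≤ lam) (hL : lam ≤ 12 * L) (hL1 : 1 ≤ L) (hA : 0 ≤ A)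
    (hB : 0 ≤ B) (hSA : SA ≤ 2 * a * A ^ 2) (hSB : SB ≤ 2 * b * B ^ 2) (hQ₀ : 1 ≤ Q₀)
    (hZ₁ : 0 < Z₁) (hZ₂ : 0 < Z₂) (hM₁ : 0 < M₁) (c0 : Q₀ ≤ 2 * Q) (c1 : Q ≤ Q₁)
    (c2 : Z₁ ≤ 2 * a) (c3 : a ≤ M₁ ∨ Z₂ ≤ 2 * b) :
    Q ^ (-(3 / 2) : ℝ) * (min 1 ((2 * Q * Y / (a * b)) ^ 2) *
      (√(2 * a + Q ^ 2 * lam) * √(2 * b + Q ^ 2 * lam)) * (√SA * √SB)) ≤
      192 * L * A * B * Y *
        (Q₀ ^ (-(1 / 2) : ℝ) + √(Q₁ / Z₁) + √(Q₁ / Z₂) + √(M₁ / Y) + Q₁ / √Y) := by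
  have hQp : 0 < Q := by linarith
  have hap : 0 < a := by linarith
  have hbp : 0 < b := by linarith
  have hQ₁ : 0 < Q₁ := by linarith
  have hQ₀p : 0 < Q₀ := by linarith
  set x := √a with hxd
  set y := √b with hyd
  set u := √Q with hud
  set w := √Y with hwd
  have hx : 0 < x := Real.sqrt_pos.2 hap
  have hy : 0 < y := Real.sqrt_pos.2 hbp
  have hu : 0 < u := Real.sqrt_pos.2 hQp
  have hw : 0 < w := Real.sqrt_pos.2 hY
  have x2 : x ^ 2 = a := Real.sq_sqrt hap.le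
  have y2 : y ^ 2 = b := Real.sq_sqrt hbp.le
  have u2 : u ^ 2 = Q := Real.sq_sqrt hQp.le
  have w2 : w ^ 2 = Y := Real.sq_sqrt hY.le
  set mn := min 1 ((2 * Q * Y / (a * b)) ^ 2) with hmn
  have hmn0 : 0 ≤ mn := le_min zero_le_one (sq_nonneg _)
  have h1 : mn * x ^ 2 * y ^ 2 ≤ 2 * u ^ 2 * w ^ 2 := by
    rw [x2, y2, u2, w2]
    have := min_le_self (t := 2 * Q * Y / (a * b)) (by positivity)
    rw [← hmn, le_div_iff₀ (by positivity)] at this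
    linarith
  have h2 : mn * x * y ≤ 2 * u * w := by
    have hs : (2 * Q * Y / (a * b)) ≤ (2 * u * w / (x * y)) ^ 2 := by
      rw [div_pow, mul_pow, mul_pow, mul_pow, x2, y2, u2, w2]
      refine div_le_div_of_nonneg_right ?_ (by positivity)
      have : 0 < Q * Y := by positivity
      nlinarith
    have h3 : mn ≤ min 1 (((2 * u * w / (x * y)) ^ 2) ^ 2) :=
      min_le_min le_rfl (pow_le_pow_left₀ (by positivity) hs 2)
    have h4 := h3.trans (min_le_root (by positivity))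
    rw [le_div_iff₀ (by positivity)] at h4
    linarith
  have e0 : Q₀ ^ (-(1 / 2) : ℝ) = (√Q₀)⁻¹ := by
    rw [Real.rpow_neg hQ₀p.le, Real.sqrt_eq_rpow]
  have e3 : Q ^ (-(3 / 2) : ℝ) = (u ^ 3)⁻¹ := by
    rw [Real.rpow_neg hQp.le, hud, Real.sqrt_eq_rpow, ← Real.rpow_natCast, ← Real.rpow_mul hQp.le]
    norm_num
  have he0 : 1 ≤ 2 * (√Q₀)⁻¹ * u := by
    have hs : 0 < √Q₀ := Real.sqrt_pos.2 hQ₀p
    have : √Q₀ ≤ 2 * u := by
      refine Real.sqrt_le_iff.2 ⟨by positivity, ?_⟩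
      rw [mul_pow, u2]; linarith
    rw [mul_comm 2, mul_assoc, ← div_eq_inv_mul, le_div_iff₀ hs]
    linarith
  have hgen : ∀ {z Z c : ℝ}, 0 < z → 0 < Z → z ^ 2 = c → Z ≤ 2 * c → u ≤ 2 * √(Q₁ / Z) * z := by
    intro z Z c hz hZ hc hZc
    refine (pow_le_pow_iff_left₀ hu.le (by positivity) two_ne_zero).1 ?_
    rw [mul_pow, mul_pow, Real.sq_sqrt (show 0 ≤ Q₁ / Z by positivity), u2, hc]
    have : Q₁ / Z * Z = Q₁ := div_mul_cancel₀ _ hZ.ne'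
    have h5 : Q₁ / Z * Z ≤ Q₁ / Z * (2 * c) := mul_le_mul_of_nonneg_left hZc (by positivity)
    nlinarith
  have he : x ≤ w * √(M₁ / Y) ∨ u ≤ 2 * √(Q₁ / Z₂) * y := by
    rcases c3 with c3 | c3
    · left
      refine (pow_le_pow_iff_left₀ hx.le (by positivity) two_ne_zero).1 ?_
      rw [mul_pow, Real.sq_sqrt (show 0 ≤ M₁ / Y by positivity), x2, w2, mul_div_cancel₀ _ hY.ne']
      exact c3
    · exact Or.inr (hgen hy hZ₂ y2 c3)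
  have he4 : u ^ 2 ≤ w * (Q₁ / w) := by
    rw [mul_div_cancel₀ _ hw.ne', u2]; exact c1
  have hl : 1 ≤ √lam := Real.one_le_sqrt.2 hlam
  have hc := core hx hy hu hw hl (L := L) (by rw [Real.sq_sqrt (by linarith)]; exact hL) hL1 h1 h2
    (inv_nonneg.2 (Real.sqrt_nonneg Q₀)) (Real.sqrt_nonneg (Q₁ / Z₁)) (Real.sqrt_nonneg (Q₁ / Z₂))
    (Real.sqrt_nonneg (M₁ / Y)) (show 0 ≤ Q₁ / w by positivity) he0 (hgen hx hZ₁ x2 c2) he he4
  have s1 : √(2 * a + Q ^ 2 * lam) ≤ 2 * x + √lam * u ^ 2 := sqrt_le_add hap.le hQp.le (by linarith)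
  have s2 : √(2 * b + Q ^ 2 * lam) ≤ 2 * y + √lam * u ^ 2 := sqrt_le_add hbp.le hQp.le (by linarith)
  have s3 : √SA * √SB ≤ 2 * x * y * (A * B) := by
    have a1 : √SA ≤ √2 * x * A := by
      refine Real.sqrt_le_iff.2 ⟨by positivity, ?_⟩
      rw [mul_pow, mul_pow, x2, Real.sq_sqrt (by norm_num)]; exact hSA
    have a2 : √SB ≤ √2 * y * B := by
      refine Real.sqrt_le_iff.2 ⟨by positivity, ?_⟩
      rw [mul_pow, mul_pow, y2, Real.sq_sqrt (by norm_num)]; exact hSB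
    refine (mul_le_mul a1 a2 (Real.sqrt_nonneg _) (by positivity)).trans (le_of_eq ?_)
    have : √2 * √2 = 2 := Real.mul_self_sqrt (by norm_num)
    linear_combination (x * y * A * B) * this
  rw [e0, e3]
  calc (u ^ 3)⁻¹ * (mn * (√(2 * a + Q ^ 2 * lam) * √(2 * b + Q ^ 2 * lam)) * (√SA * √SB))
      ≤ (u ^ 3)⁻¹ * (mn * ((2 * x + √lam * u ^ 2) * (2 * y + √lam * u ^ 2)) *
          (2 * x * y * (A * B))) := by gcongr
    _ = (u ^ 3)⁻¹ * (mn * ((2 * x + √lam * u ^ 2) * (2 * y + √lam * u ^ 2)) * (2 * x * y)) *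
          (A * B) := by ring
    _ ≤ 192 * L * w ^ 2 * ((√Q₀)⁻¹ + √(Q₁ / Z₁) + √(Q₁ / Z₂) + √(M₁ / Y) + Q₁ / w) * (A * B) :=
        mul_le_mul_of_nonneg_right hc (by positivity)
    _ = _ := by rw [w2]; ring

/-- Truncation of a sequence. -/
noncomputable def tc (N : ℕ) (α : ℕ → ℂ) (m : ℕ) : ℂ := if m ≤ N then α m else 0

lemma tc_ne {N : ℕ} {α : ℕ → ℂ} {m : ℕ} (h : tc N α m ≠ 0) : α m ≠ 0 := by
  intro h0
  apply h
  unfold tc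
  split_ifs
  · exact h0
  · rfl

lemma block_norm {N a : ℕ} {α : ℕ → ℂ} {A : ℝ} (ha : 1 ≤ a)
    (h : ∑ m ∈ Finset.Icc 1 N, ‖α m‖ ^ 2 / m ≤ A ^ 2) :
    ∑ m ∈ Finset.Ico a (2 * a), ‖tc N α m‖ ^ 2 ≤ 2 * (a : ℝ) * A ^ 2 := by
  have h1 : ∑ m ∈ Finset.Ico a (2 * a), ‖tc N α m‖ ^ 2 ≤
      ∑ m ∈ Finset.Ico a (2 * a), 2 * (a : ℝ) * (if m ≤ N then ‖α m‖ ^ 2 / m else 0) := by
    refine Finset.sum_le_sum fun m hm => ?_
    rw [Finset.mem_Ico] at hm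
    unfold tc
    split_ifs
    · have hm0 : (0 : ℝ) < m := by exact_mod_cast (by omega : 0 < m)
      have hm2 : (m : ℝ) ≤ 2 * a := by exact_mod_cast hm.2.le
      rw [← mul_div_assoc, le_div_iff₀ hm0]
      nlinarith [sq_nonneg ‖α m‖]
    · simp
  refine h1.trans ?_
  rw [← Finset.mul_sum, ← Finset.sum_filter]
  refine mul_le_mul_of_nonneg_left (le_trans ?_ h) (by positivity)
  refine Finset.sum_le_sum_of_subset_of_nonneg ?_ fun m _ _ => by positivity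
  intro m hm
  rw [Finset.mem_filter, Finset.mem_Ico] at hm
  rw [Finset.mem_Icc]
  omega

lemma split_two (α β χ : ℕ → ℂ) (W : ℕ → ℕ → ℂ) {K N₁ N₂ : ℕ} (h₁ : N₁ < 2 ^ K)
    (h₂ : N₂ < 2 ^ K) :
    ‖∑ m ∈ Finset.Icc 1 N₁, ∑ n ∈ Finset.Icc 1 N₂, α m * χ m * (β n * χ n) * W m n‖ ≤
      ∑ i ∈ Finset.range K, ∑ j ∈ Finset.range K,
        ‖∑ m ∈ Finset.Ico (2 ^ i) (2 * 2 ^ i), ∑ n ∈ Finset.Ico (2 ^ j) (2 * 2 ^ j),
          tc N₁ α m * χ m * (tc N₂ β n * χ n) * W m n‖ := by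
  rw [sum_dyadic _ h₁]
  refine (norm_sum_le _ _).trans (Finset.sum_le_sum fun i _ => ?_)
  refine le_trans (le_of_eq ?_) (norm_sum_le _ _)
  congr 1
  rw [Finset.sum_comm]
  refine Finset.sum_congr rfl fun m _ => ?_
  unfold tc
  split_ifs with hm
  · rw [sum_dyadic _ h₂]
    refine Finset.sum_congr rfl fun j _ => Finset.sum_congr rfl fun n _ => ?_
    split_ifs <;> simp
  · simp

lemma lam_le {k K : ℕ} (hk : k < K) :
    4 * (1 + Real.log (4 * (((2 ^ k : ℕ) : ℝ)) ^ 2)) ≤ 12 * ((K : ℝ) + 1) := by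
  have e : (4 : ℝ) * (((2 ^ k : ℕ) : ℝ)) ^ 2 = 2 ^ (2 * k + 2) := by push_cast; ring
  rw [e, Real.log_pow]
  have h2 : Real.log 2 ≤ 1 := by
    have := Real.log_le_sub_one_of_pos (show (0 : ℝ) < 2 by norm_num)
    linarith
  have hk' : (k : ℝ) + 1 ≤ K := by exact_mod_cast hk
  have h3 : ((2 * k + 2 : ℕ) : ℝ) * Real.log 2 ≤ ((2 * k + 2 : ℕ) : ℝ) * 1 :=
    mul_le_mul_of_nonneg_left h2 (by positivity)
  push_cast at h3 ⊢
  have : (0 : ℝ) ≤ k := by positivity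
  linarith

end BilinAux

theorem bilin {V : ℝ → ℂ} {M : ℂ → ℂ} (hV : Vcl V M) : ∃ C : ℝ, 0 ≤ C ∧
    ∀ (α β : ℕ → ℂ) (K N₁ N₂ : ℕ) (A B Q₀ Q₁ Y Z₁ Z₂ M₁ : ℝ), N₁ < 2 ^ K → N₂ < 2 ^ K →
      Q₁ < 2 ^ K → 0 ≤ A → 0 ≤ B → 1 ≤ Q₀ → 1 ≤ Q₁ → 0 < Y → 0 < Z₁ → 0 < Z₂ → 0 < M₁ →
      (∑ m ∈ Finset.Icc 1 N₁, ‖α m‖ ^ 2 / m ≤ A ^ 2) →
      (∑ n ∈ Finset.Icc 1 N₂, ‖β n‖ ^ 2 / n ≤ B ^ 2) →
      (∀ m n, α m ≠ 0 → β n ≠ 0 → Z₁ < m ∧ ((m : ℝ) ≤ M₁ ∨ Z₂ < n)) →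
      ∑ q ∈ (Finset.Icc 1 ⌊Q₁⌋₊).filter (fun q : ℕ => Q₀ < (q : ℝ)),
        (q : ℝ) ^ (-(3 / 2) : ℝ) * ∑ ψ ∈ primSet q,
          ‖∑ m ∈ Finset.Icc 1 N₁, ∑ n ∈ Finset.Icc 1 N₂,
            α m * ψ m * (β n * ψ n) * V (m * n / (q * Y))‖ ≤
      C * (K + 1) ^ 4 * A * B * Y *
        (Q₀ ^ (-(1 / 2) : ℝ) + √(Q₁ / Z₁) + √(Q₁ / Z₂) + √(M₁ / Y) + Q₁ / √Y) := by
  obtain ⟨C, hC, hblk⟩ := block hV
  refine ⟨192 * C, by positivity, ?_⟩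
  intro α β K N₁ N₂ A B Q₀ Q₁ Y Z₁ Z₂ M₁ hN₁ hN₂ hQK hA hB hQ₀ hQ₁ hY hZ₁ hZ₂ hM₁ hα hβ hs
  set E := Q₀ ^ (-(1 / 2) : ℝ) + √(Q₁ / Z₁) + √(Q₁ / Z₂) + √(M₁ / Y) + Q₁ / √Y with hE
  have hE0 : 0 ≤ E := by
    have : 0 < Q₀ := by linarith
    have : 0 < Q₁ := by linarith
    positivity
  set D := C * (192 * ((K : ℝ) + 1) * A * B * Y * E) with hD
  have hD0 : 0 ≤ D := by positivity
  have hfl : ⌊Q₁⌋₊ < 2 ^ K := by
    rw [Nat.floor_lt (by linarith)]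
    exact_mod_cast hQK
  have key : ∀ k < K, ∀ i j : ℕ, Q₀ ≤ 2 * ((2 ^ k : ℕ) : ℝ) → ((2 ^ k : ℕ) : ℝ) ≤ Q₁ →
      ((2 ^ k : ℕ) : ℝ) ^ (-(3 / 2) : ℝ) * ∑ q ∈ Finset.Ico (2 ^ k) (2 * 2 ^ k), ∑ ψ ∈ primSet q,
        ‖∑ m ∈ Finset.Ico (2 ^ i) (2 * 2 ^ i), ∑ n ∈ Finset.Ico (2 ^ j) (2 * 2 ^ j),
          BilinAux.tc N₁ α m * ψ m * (BilinAux.tc N₂ β n * ψ n) * V (m * n / (q * Y))‖ ≤ D := by
    intro k hk i j c0 c1
    by_cases hex : ∃ m ∈ Finset.Ico (2 ^ i) (2 * 2 ^ i), ∃ n ∈ Finset.Ico (2 ^ j) (2 * 2 ^ j),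
        BilinAux.tc N₁ α m ≠ 0 ∧ BilinAux.tc N₂ β n ≠ 0
    · obtain ⟨m, hm, n, hn, h1, h2⟩ := hex
      obtain ⟨h3, h4⟩ := hs m n (BilinAux.tc_ne h1) (BilinAux.tc_ne h2)
      rw [Finset.mem_Ico] at hm hn
      have m1 : ((2 ^ i : ℕ) : ℝ) ≤ m := by exact_mod_cast hm.1
      have m2 : (m : ℝ) ≤ 2 * ((2 ^ i : ℕ) : ℝ) := by exact_mod_cast hm.2.le
      have n2 : (n : ℝ) ≤ 2 * ((2 ^ j : ℕ) : ℝ) := by exact_mod_cast hn.2.le
      have o : ∀ t : ℕ, 1 ≤ 2 ^ t := fun t => Nat.one_le_two_pow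
      have o' : ∀ t : ℕ, (1 : ℝ) ≤ ((2 ^ t : ℕ) : ℝ) := fun t => by exact_mod_cast o t
      have hb := hblk (BilinAux.tc N₁ α) (BilinAux.tc N₂ β) (2 ^ k) (2 ^ i) (2 ^ j) Y (o k) (o i)
        (o j) hY
      have hlog : 0 ≤ Real.log (4 * ((2 ^ k : ℕ) : ℝ) ^ 2) :=
        Real.log_nonneg (by nlinarith [o' k])
      have h5 := BilinAux.one_block (lam := 4 * (1 + Real.log (4 * ((2 ^ k : ℕ) : ℝ) ^ 2)))
        (L := (K : ℝ) + 1) (o' k) (o' i) (o' j) hY (by linarith) (BilinAux.lam_le hk)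
        (by have : (0 : ℝ) ≤ K := by positivity
            linarith) hA hB (BilinAux.block_norm (o i) hα) (BilinAux.block_norm (o j) hβ) hQ₀ hZ₁
        hZ₂ hM₁ c0 c1 (by linarith) (h4.imp (fun h => by linarith) fun h => by linarith)
      refine (mul_le_mul_of_nonneg_left hb (by positivity)).trans ?_
      refine le_trans (le_of_eq ?_) (mul_le_mul_of_nonneg_left h5 hC)
      have ee : ∀ z : ℝ, 4 * ((2 ^ k : ℕ) : ℝ) ^ 2 * z = ((2 ^ k : ℕ) : ℝ) ^ 2 * (4 * z) :=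
        fun z => by ring
      rw [ee]
      ring
    · refine le_trans (le_of_eq ?_) hD0
      refine mul_eq_zero_of_right _ (Finset.sum_eq_zero fun q _ => Finset.sum_eq_zero fun ψ _ => ?_)
      rw [norm_eq_zero]
      refine Finset.sum_eq_zero fun m hm => Finset.sum_eq_zero fun n hn => ?_
      by_cases h1 : BilinAux.tc N₁ α m = 0
      · simp [h1]
      by_cases h2 : BilinAux.tc N₂ β n = 0
      · simp [h2]
      exact absurd ⟨m, hm, n, hn, h1, h2⟩ hex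
  rw [Finset.sum_filter, sum_dyadic _ hfl]
  have hk : ∀ k ∈ Finset.range K, (∑ q ∈ Finset.Ico (2 ^ k) (2 * 2 ^ k), if q ≤ ⌊Q₁⌋₊ then
      (if Q₀ < (q : ℝ) then (q : ℝ) ^ (-(3 / 2) : ℝ) * ∑ ψ ∈ primSet q,
          ‖∑ m ∈ Finset.Icc 1 N₁, ∑ n ∈ Finset.Icc 1 N₂,
            α m * ψ m * (β n * ψ n) * V (m * n / (q * Y))‖ else 0) else 0) ≤ K * (K * D) := by
    intro k hk
    rw [Finset.mem_range] at hk
    by_cases hc : Q₀ ≤ 2 * ((2 ^ k : ℕ) : ℝ) ∧ ((2 ^ k : ℕ) : ℝ) ≤ Q₁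
    · calc _ ≤ ∑ q ∈ Finset.Ico (2 ^ k) (2 * 2 ^ k), ((2 ^ k : ℕ) : ℝ) ^ (-(3 / 2) : ℝ) *
            ∑ ψ ∈ primSet q, ∑ i ∈ Finset.range K, ∑ j ∈ Finset.range K,
            ‖∑ m ∈ Finset.Ico (2 ^ i) (2 * 2 ^ i), ∑ n ∈ Finset.Ico (2 ^ j) (2 * 2 ^ j),
              BilinAux.tc N₁ α m * ψ m * (BilinAux.tc N₂ β n * ψ n) * V (m * n / (q * Y))‖ := by
            refine Finset.sum_le_sum fun q hq => ?_
            rw [Finset.mem_Ico] at hq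
            have q1 : ((2 ^ k : ℕ) : ℝ) ≤ q := by exact_mod_cast hq.1
            split_ifs
            · refine mul_le_mul (Real.rpow_le_rpow_of_nonpos (by positivity) q1 (by norm_num))
                (Finset.sum_le_sum fun ψ _ => ?_) (by positivity) (by positivity)
              exact BilinAux.split_two α β (fun m => ψ m) (fun m n => V (m * n / (q * Y))) hN₁ hN₂
            · positivity
            · positivity
        _ = ∑ i ∈ Finset.range K, ∑ j ∈ Finset.range K, ((2 ^ k : ℕ) : ℝ) ^ (-(3 / 2) : ℝ) *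
            ∑ q ∈ Finset.Ico (2 ^ k) (2 * 2 ^ k), ∑ ψ ∈ primSet q,
            ‖∑ m ∈ Finset.Ico (2 ^ i) (2 * 2 ^ i), ∑ n ∈ Finset.Ico (2 ^ j) (2 * 2 ^ j),
              BilinAux.tc N₁ α m * ψ m * (BilinAux.tc N₂ β n * ψ n) * V (m * n / (q * Y))‖ := by
            simp only [← Finset.mul_sum]
            congr 1
            refine Eq.trans (Finset.sum_congr rfl fun q _ => Finset.sum_comm) ?_
            rw [Finset.sum_comm]
            refine Finset.sum_congr rfl fun i _ => ?_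
            refine Eq.trans (Finset.sum_congr rfl fun q _ => Finset.sum_comm) ?_
            rw [Finset.sum_comm]
        _ ≤ ∑ i ∈ Finset.range K, ∑ j ∈ Finset.range K, D :=
            Finset.sum_le_sum fun i _ => Finset.sum_le_sum fun j _ => key k hk i j hc.1 hc.2
        _ = _ := by simp
    · refine le_trans (le_of_eq (Finset.sum_eq_zero fun q hq => ?_)) (by positivity)
      rw [Finset.mem_Ico] at hq
      have q1 : ((2 ^ k : ℕ) : ℝ) ≤ q := by exact_mod_cast hq.1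
      have q2 : (q : ℝ) ≤ 2 * ((2 ^ k : ℕ) : ℝ) := by exact_mod_cast hq.2.le
      split_ifs with h1 h2
      · have : (q : ℝ) ≤ Q₁ := (Nat.le_floor_iff (by linarith)).1 h1
        exact absurd ⟨by linarith, by linarith⟩ hc
      · rfl
      · rfl
  refine (Finset.sum_le_sum hk).trans ?_
  rw [Finset.sum_const, Finset.card_range, nsmul_eq_mul]
  have hK : (K : ℝ) ^ 3 ≤ (K + 1) ^ 3 := pow_le_pow_left₀ (by positivity) (by linarith) 3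
  calc (K : ℝ) * (K * (K * D)) = K ^ 3 * D := by ring
    _ ≤ (K + 1) ^ 3 * D := mul_le_mul_of_nonneg_right hK hD0
    _ = _ := by rw [hD]; ring

end Pool.Agent.P.MP_7eacff_nt.SZ
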