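import Pool.Agent.P.MP_7eacff_nt.SZ.Basic

/-!
The large sieve for a bilinear block.
-/

open Complex Filter Topology MeasureTheory Set
open scoped Real ContDiff

namespace Pool.Agent.P.MP_7eacff_nt.SZ

open Pool.Agent.Lib.LargeSieve (primSet mem_primSet)

namespace BlockAux

theorem sieve (α : ℕ → ℂ) {Q A : ℕ} (hQ : 1 ≤ Q) (hA : 1 ≤ A) {s : ℂ} (hs : 0 ≤ s.re) :
    √(∑ q ∈ Finset.Ico Q (2 * Q), ∑ ψ ∈ primSet q,
      ‖∑ m ∈ Finset.Ico A (2 * A), α m * ψ m * ((m : ℝ) : ℂ) ^ (-s)‖ ^ 2) ≤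
      √(2 * A + 4 * Q ^ 2 * (1 + Real.log (4 * Q ^ 2))) *
        ((A : ℝ) ^ (-s.re) * √(∑ m ∈ Finset.Ico A (2 * A), ‖α m‖ ^ 2)) := by
  have hA0 : (0 : ℝ) < A := by exact_mod_cast hA
  have h := Lib.LargeSieve.large_sieve (2 * Q) (2 * A)
    fun m => if A ≤ m then α m * ((m : ℝ) : ℂ) ^ (-s) else 0
  have e : (Finset.range (2 * A)).filter (A ≤ ·) = Finset.Ico A (2 * A) := by
    ext m
    simp [and_comm]
  have h1 : ∀ (q : ℕ) (ψ : DirichletCharacter ℂ q), ∑ m ∈ Finset.range (2 * A),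
      (if A ≤ m then α m * ((m : ℝ) : ℂ) ^ (-s) else 0) * ψ m =
      ∑ m ∈ Finset.Ico A (2 * A), α m * ψ m * ((m : ℝ) : ℂ) ^ (-s) := fun q ψ => by
    rw [← e, Finset.sum_filter]
    exact Finset.sum_congr rfl fun m _ => by split_ifs <;> ring
  have h2 : ∑ m ∈ Finset.range (2 * A), ‖if A ≤ m then α m * ((m : ℝ) : ℂ) ^ (-s) else 0‖ ^ 2 ≤
      ((A : ℝ) ^ (-s.re)) ^ 2 * ∑ m ∈ Finset.Ico A (2 * A), ‖α m‖ ^ 2 := by
    rw [← e, Finset.sum_filter, Finset.mul_sum]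
    refine Finset.sum_le_sum fun m _ => ?_
    split_ifs with hm
    · have hm' : (A : ℝ) ≤ m := by exact_mod_cast hm
      rw [norm_mul, norm_cpow_eq_rpow_re_of_pos (hA0.trans_le hm'), mul_pow, mul_comm, neg_re]
      have := Real.rpow_le_rpow_of_nonpos hA0 hm' (neg_nonpos.2 hs)
      gcongr
    · simp
  simp only [h1] at h
  have hl : 0 ≤ 2 * (A : ℝ) + 4 * Q ^ 2 * (1 + Real.log (4 * Q ^ 2)) := by
    have : (1 : ℝ) ≤ Q := by exact_mod_cast hQ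
    have : 0 ≤ Real.log (4 * (Q : ℝ) ^ 2) := Real.log_nonneg (by nlinarith)
    positivity
  rw [show (((2 * Q) ^ 2 : ℕ) : ℝ) = 4 * Q ^ 2 by push_cast; ring, Nat.cast_mul,
    Nat.cast_ofNat] at h
  rw [← Real.sqrt_sq (Real.rpow_nonneg hA0.le (-s.re)), ← Real.sqrt_mul (sq_nonneg _),
    ← Real.sqrt_mul hl]
  refine Real.sqrt_le_sqrt (le_trans ?_ (h.trans (mul_le_mul_of_nonneg_left h2 hl)))
  refine Finset.sum_le_sum_of_subset_of_nonneg (fun q hq => ?_)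
    fun _ _ _ => Finset.sum_nonneg fun _ _ => sq_nonneg _
  rw [Finset.mem_Ico] at hq
  exact Finset.mem_Icc.2 ⟨hQ.trans hq.1, hq.2.le⟩

theorem intM {V : ℝ → ℂ} {M : ℂ → ℂ} (hV : Vcl V M) {σ : ℝ} (h0 : 0 ≤ σ) (h2 : σ ≤ 2) :
    Integrable fun t : ℝ => M (σ + t * I) := by
  obtain ⟨C, hC⟩ := hV.dec 2
  have hc : Continuous fun t : ℝ => M (σ + t * I) :=
    hV.cont.comp_continuous (by fun_prop) fun t => by simp [h0, h2]
  refine (integrable_inv_one_add_sq.const_mul |C|).mono' hc.aestronglyMeasurable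
    (Eventually.of_forall fun t => (hC _ (by simpa) (by simpa)).trans ?_)
  rw [← div_eq_mul_inv]
  refine div_le_div₀ (abs_nonneg _) (le_abs_self _) (by positivity) ?_
  simp only [add_im, ofReal_im, mul_im, ofReal_re, I_im, mul_one, I_re, mul_zero, add_zero,
    zero_add]
  nlinarith [abs_nonneg t, sq_abs t]

theorem intMx {V : ℝ → ℂ} {M : ℂ → ℂ} (hV : Vcl V M) {σ : ℝ} (h0 : 0 ≤ σ) (h2 : σ ≤ 2) {x : ℝ}
    (hx : 0 < x) : Integrable fun t : ℝ => M (σ + t * I) * (x : ℂ) ^ (-(σ + t * I : ℂ)) := by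
  refine (intM hV h0 h2).mul_bdd (c := x ^ (-σ)) (Continuous.aestronglyMeasurable ?_)
    (Eventually.of_forall fun t => ?_)
  · exact Continuous.const_cpow (by fun_prop) (Or.inl (ofReal_ne_zero.2 hx.ne'))
  · rw [norm_cpow_eq_rpow_re_of_pos hx]
    simp

theorem point (α β : ℕ → ℂ) {Q A B : ℕ} {Y : ℝ} (hQ : 1 ≤ Q) (hA : 1 ≤ A) (hB : 1 ≤ B)
    (hY : 0 < Y) {s : ℂ} (hs : 0 ≤ s.re) (c : ℂ) :
    ∑ q ∈ Finset.Ico Q (2 * Q), ∑ ψ ∈ primSet q,
      ‖∑ m ∈ Finset.Ico A (2 * A), ∑ n ∈ Finset.Ico B (2 * B),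
        α m * ψ m * (β n * ψ n) * (c * (((m : ℝ) * n / (q * Y) : ℝ) : ℂ) ^ (-s))‖ ≤
      ‖c‖ * ((2 * Q * Y / (A * B)) ^ s.re *
        (√(2 * A + 4 * Q ^ 2 * (1 + Real.log (4 * Q ^ 2))) *
          √(2 * B + 4 * Q ^ 2 * (1 + Real.log (4 * Q ^ 2)))) *
        (√(∑ m ∈ Finset.Ico A (2 * A), ‖α m‖ ^ 2) *
          √(∑ n ∈ Finset.Ico B (2 * B), ‖β n‖ ^ 2))) := by
  have h1 := mul_le_mul (sieve α hQ hA hs) (sieve β hQ hB hs) (Real.sqrt_nonneg _) (by positivity)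
  rw [Finset.sum_sigma', Finset.sum_sigma'] at h1
  have h2 := (Real.sum_mul_le_sqrt_mul_sqrt _ _ _).trans h1
  have h3 := mul_le_mul_of_nonneg_left h2 (show 0 ≤ ‖c‖ * (2 * Q * Y) ^ s.re by positivity)
  rw [Finset.sum_sigma']
  refine le_trans ?_ (h3.trans (le_of_eq ?_))
  · rw [Finset.mul_sum]
    refine Finset.sum_le_sum fun x hx => ?_
    obtain ⟨q, ψ⟩ := x
    obtain ⟨a1, a2⟩ := Finset.mem_Ico.1 (Finset.mem_sigma.1 hx).1
    have hq : (0 : ℝ) < q := by exact_mod_cast hQ.trans a1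
    have a3 : (q : ℝ) ≤ 2 * Q := by exact_mod_cast a2.le
    have e : ∑ m ∈ Finset.Ico A (2 * A), ∑ n ∈ Finset.Ico B (2 * B),
        α m * ψ m * (β n * ψ n) * (c * (((m : ℝ) * n / (q * Y) : ℝ) : ℂ) ^ (-s)) =
        c * (((q * Y)⁻¹ : ℝ) : ℂ) ^ (-s) *
          ((∑ m ∈ Finset.Ico A (2 * A), α m * ψ m * ((m : ℝ) : ℂ) ^ (-s)) *
            ∑ n ∈ Finset.Ico B (2 * B), β n * ψ n * ((n : ℝ) : ℂ) ^ (-s)) := by
      rw [Finset.sum_mul_sum, Finset.mul_sum]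
      refine Finset.sum_congr rfl fun m _ => ?_
      rw [Finset.mul_sum]
      refine Finset.sum_congr rfl fun n _ => ?_
      rw [div_eq_mul_inv, ofReal_mul, mul_cpow_ofReal_nonneg (by positivity) (by positivity),
        ofReal_mul, mul_cpow_ofReal_nonneg (by positivity) (by positivity)]
      ring
    dsimp only
    rw [e, norm_mul, norm_mul, norm_mul, norm_cpow_eq_rpow_re_of_pos (by positivity), neg_re,
      Real.inv_rpow (by positivity), Real.rpow_neg (by positivity), inv_inv]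
    gcongr
  · rw [Real.div_rpow (by positivity) (by positivity), Real.mul_rpow (x := A) (by positivity)
      (by positivity), Real.rpow_neg (by positivity), Real.rpow_neg (by positivity)]
    ring

theorem line {V : ℝ → ℂ} {M : ℂ → ℂ} (hV : Vcl V M) {σ : ℝ} (h0 : 0 ≤ σ) (h2 : σ ≤ 2)
    (α β : ℕ → ℂ) {Q A B : ℕ} {Y : ℝ} (hQ : 1 ≤ Q) (hA : 1 ≤ A) (hB : 1 ≤ B) (hY : 0 < Y) :
    ∑ q ∈ Finset.Ico Q (2 * Q), ∑ ψ ∈ primSet q,
      ‖∑ m ∈ Finset.Ico A (2 * A), ∑ n ∈ Finset.Ico B (2 * B),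
        α m * ψ m * (β n * ψ n) * V (m * n / (q * Y))‖ ≤
      (∫ t : ℝ, ‖M (σ + t * I)‖) / (2 * π) * ((2 * Q * Y / (A * B)) ^ σ *
        (√(2 * A + 4 * Q ^ 2 * (1 + Real.log (4 * Q ^ 2))) *
          √(2 * B + 4 * Q ^ 2 * (1 + Real.log (4 * Q ^ 2)))) *
        (√(∑ m ∈ Finset.Ico A (2 * A), ‖α m‖ ^ 2) *
          √(∑ n ∈ Finset.Ico B (2 * B), ‖β n‖ ^ 2))) := by
  have hx : ∀ q ∈ Finset.Ico Q (2 * Q), ∀ m ∈ Finset.Ico A (2 * A), ∀ n ∈ Finset.Ico B (2 * B),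
      (0 : ℝ) < m * n / (q * Y) := fun q hq m hm n hn => by
    have a1 : 0 < q := hQ.trans (Finset.mem_Ico.1 hq).1
    have a2 : 0 < m := hA.trans (Finset.mem_Ico.1 hm).1
    have a3 : 0 < n := hB.trans (Finset.mem_Ico.1 hn).1
    positivity
  have hi : ∀ q ∈ Finset.Ico Q (2 * Q), ∀ (ψ : DirichletCharacter ℂ q),
      ∀ m ∈ Finset.Ico A (2 * A), Integrable fun t : ℝ => ∑ n ∈ Finset.Ico B (2 * B),
        α m * ψ m * (β n * ψ n) * (M (σ + t * I) *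
          (((m : ℝ) * n / (q * Y) : ℝ) : ℂ) ^ (-(σ + t * I : ℂ))) := fun q hq ψ m hm =>
    integrable_finsetSum _ fun n hn => (intMx hV h0 h2 (hx q hq m hm n hn)).const_mul _
  have h3 := integral_mono
    (integrable_finsetSum _ fun q hq => integrable_finsetSum (primSet q) fun ψ _ =>
      (integrable_finsetSum _ (hi q hq ψ)).norm) ((intM hV h0 h2).norm.mul_const _)
    fun t => by
      have := point α β hQ hA hB hY (s := σ + t * I) (by simpa) (M (σ + t * I))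
      rw [show (σ + t * I : ℂ).re = σ by simp] at this
      exact this
  rw [integral_mul_const, integral_finsetSum _ fun q hq => integrable_finsetSum (primSet q)
    fun ψ _ => (integrable_finsetSum _ (hi q hq ψ)).norm] at h3
  rw [div_mul_eq_mul_div]
  refine le_trans ?_ (div_le_div_of_nonneg_right h3 (by positivity))
  rw [Finset.sum_div]
  refine Finset.sum_le_sum fun q hq => ?_
  rw [integral_finsetSum _ fun ψ _ => (integrable_finsetSum _ (hi q hq ψ)).norm, Finset.sum_div]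
  refine Finset.sum_le_sum fun ψ _ => ?_
  refine le_trans (le_of_eq ?_)
    (div_le_div_of_nonneg_right (norm_integral_le_integral_norm _) (by positivity))
  rw [show 2 * π = ‖(2 * π : ℂ)‖ by simp [abs_of_pos Real.pi_pos], ← norm_div,
    integral_finsetSum _ (hi q hq ψ), Finset.sum_div]
  refine congrArg _ (Finset.sum_congr rfl fun m hm => ?_)
  rw [integral_finsetSum _ fun n hn => (intMx hV h0 h2 (hx q hq m hm n hn)).const_mul _,
    Finset.sum_div]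
  refine Finset.sum_congr rfl fun n hn => ?_
  rw [integral_const_mul, hV.inv σ h0 h2 _ (hx q hq m hm n hn), mul_div_assoc _ _ (2 * π : ℂ)]

end BlockAux

theorem block {V : ℝ → ℂ} {M : ℂ → ℂ} (hV : Vcl V M) : ∃ C : ℝ, 0 ≤ C ∧
    ∀ (α β : ℕ → ℂ) (Q A B : ℕ) (Y : ℝ), 1 ≤ Q → 1 ≤ A → 1 ≤ B → 0 < Y →
      ∑ q ∈ Finset.Ico Q (2 * Q), ∑ ψ ∈ primSet q,
        ‖∑ m ∈ Finset.Ico A (2 * A), ∑ n ∈ Finset.Ico B (2 * B),
          α m * ψ m * (β n * ψ n) * V (m * n / (q * Y))‖ ≤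
      C * min 1 ((2 * Q * Y / (A * B)) ^ 2) *
        (√(2 * A + 4 * Q ^ 2 * (1 + Real.log (4 * Q ^ 2))) *
          √(2 * B + 4 * Q ^ 2 * (1 + Real.log (4 * Q ^ 2)))) *
        (√(∑ m ∈ Finset.Ico A (2 * A), ‖α m‖ ^ 2) * √(∑ n ∈ Finset.Ico B (2 * B), ‖β n‖ ^ 2)) := by
  have p : ∀ σ : ℝ, 0 ≤ (∫ t : ℝ, ‖M (σ + t * I)‖) / (2 * π) := fun σ =>
    div_nonneg (integral_nonneg fun _ => norm_nonneg _) (by positivity)
  refine ⟨_, add_nonneg (p 0) (p 2), fun α β Q A B Y hQ hA hB hY => ?_⟩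
  have h0 := BlockAux.line hV le_rfl zero_le_two α β hQ hA hB hY
  have h2 := BlockAux.line hV zero_le_two le_rfl α β hQ hA hB hY
  rw [Real.rpow_zero] at h0
  rw [Real.rpow_two] at h2
  rw [mul_assoc, mul_assoc]
  rw [mul_assoc] at h0 h2
  rcases min_choice (1 : ℝ) ((2 * Q * Y / (A * B)) ^ 2) with h | h <;> rw [h]
  · exact h0.trans (mul_le_mul_of_nonneg_right (le_add_of_nonneg_right (p 2)) (by positivity))
  · exact h2.trans (mul_le_mul_of_nonneg_right (le_add_of_nonneg_left (p 0)) (by positivity))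

end Pool.Agent.P.MP_7eacff_nt.SZ
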