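import Pool.Agent.P.MP_7eacff_nt.SZ.Gauss

/-!
Expansion of additive characters into primitive multiplicative characters.
-/

open Complex Filter Topology MeasureTheory Set
open scoped Real ContDiff

namespace Pool.Agent.P.MP_7eacff_nt.SZ

open Pool.Agent.Lib.LargeSieve (primSet mem_primSet)

namespace CharExpAux

open Finset DirichletCharacter

/-- The Gauss sum of the inverse character. -/
noncomputable def gs {k : ℕ} (χ : DirichletCharacter ℂ k) (m : ℕ) : ℂ :=
  ∑ a ∈ (range k).filter (fun a => a.Coprime k), χ⁻¹ a * ee (a * m / k)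

theorem ee_eq {k : ℕ} [NeZero k] (j : ℤ) :
    ee (j / k) = ZMod.stdAddChar (N := k) (j : ZMod k) := by
  rw [ZMod.stdAddChar_coe, ee]
  congr 1
  push_cast
  ring

theorem orth {k : ℕ} [NeZero k] {u : ZMod k} (hu : IsUnit u) (m : ℕ) :
    ∑ χ : DirichletCharacter ℂ k, χ u * gs χ m =
      k.totient * ZMod.stdAddChar (N := k) (u * m) := by
  classical
  simp only [gs, mul_sum]
  rw [sum_comm]
  have h1 : ∀ a ∈ (range k).filter (fun a => a.Coprime k),
      ∑ χ : DirichletCharacter ℂ k, χ u * (χ⁻¹ a * ee (a * m / k)) =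
        if a = u.val then k.totient * ZMod.stdAddChar (N := k) (u * m) else 0 := by
    intro a ha
    obtain ⟨h2, h3⟩ := mem_filter.1 ha
    have h4 : IsUnit (a : ZMod k) := (ZMod.isUnit_iff_coprime a k).2 h3
    have h5 := sum_char_inv_mul_char_eq ℂ h4 u
    have h6 : ∀ χ : DirichletCharacter ℂ k, χ u * (χ⁻¹ a * ee (a * m / k)) =
        χ (a : ZMod k)⁻¹ * χ u * ee (a * m / k) := fun χ => by
      have e : χ (a : ZMod k)⁻¹ * χ a = 1 := by
        rw [← map_mul, ZMod.inv_mul_of_unit _ h4, map_one]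
      rw [MulChar.inv_apply_eq_inv', eq_inv_of_mul_eq_one_left e]
      ring
    rw [sum_congr rfl fun χ _ => h6 χ, ← sum_mul, h5]
    have h7 := ee_eq (k := k) ((a : ℤ) * m)
    push_cast at h7
    by_cases h8 : a = u.val
    · have h9 : (a : ZMod k) = u := by rw [h8, ZMod.natCast_zmod_val]
      rw [if_pos h9, if_pos h8, h7, h9]
    · rw [if_neg h8, if_neg, zero_mul]
      rintro rfl
      exact h8 (ZMod.val_cast_of_lt (mem_range.1 h2)).symm
  rw [sum_congr rfl h1, sum_ite_eq', if_pos]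
  refine mem_filter.2 ⟨mem_range.2 (ZMod.val_lt u), ?_⟩
  rw [← ZMod.isUnit_iff_coprime, ZMod.natCast_zmod_val]
  exact hu

theorem cos_eq {k : ℕ} [NeZero k] (m : ℕ) :
    (k.totient : ℂ) * (Real.cos (2 * π * (m / k)) : ℝ) =
      ∑ χ : DirichletCharacter ℂ k, (χ 1 + χ (-1)) / 2 * gs χ m := by
  have h1 := orth (k := k) isUnit_one m
  have h2 := orth (k := k) isUnit_one.neg m
  have h3 := ee_eq (k := k) (m : ℤ)
  have h4 := ee_eq (k := k) (-(m : ℤ))
  push_cast at h3 h4
  rw [one_mul, ← h3] at h1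
  rw [neg_one_mul, ← h4] at h2
  have h5 : ((Real.cos (2 * π * (m / k)) : ℝ) : ℂ) = (ee (m / k) + ee (-m / k)) / 2 := by
    rw [Complex.ofReal_cos, Complex.cos, ee, ee]
    congr 3
    push_cast
    ring
  rw [h5, ← mul_div_assoc, mul_add, ← h1, ← h2, ← sum_add_distrib, sum_div]
  exact sum_congr rfl fun χ _ => by ring

theorem gs_one {k : ℕ} [NeZero k] (m : ℕ) : gs (1 : DirichletCharacter ℂ k) m = ram k m := by
  rw [← ram_eq (NeZero.pos k) m]
  refine sum_congr rfl fun a ha => ?_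
  rw [inv_one, MulChar.one_apply ((ZMod.isUnit_iff_coprime a k).2 (mem_filter.1 ha).2), one_mul]

theorem gs_eq {k : ℕ} [NeZero k] (hk : Squarefree k) (χ : DirichletCharacter ℂ k) :
    ∃ c : ℂ, ‖c‖ ≤ √χ.conductor ∧
      ∀ m : ℕ, gs χ m = c * (χ.primitiveCharacter m * ram (k / χ.conductor) m) := by
  have : NeZero χ.conductor := ⟨χ.conductor_ne_zero⟩
  have hd := χ.conductor_dvd_level
  have e : χ.conductor * (k / χ.conductor) = k := Nat.mul_div_cancel' hd
  have hr : 0 < k / χ.conductor :=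
    Nat.div_pos (Nat.le_of_dvd (NeZero.pos k) hd) (NeZero.pos _)
  have hc : χ.conductor.Coprime (k / χ.conductor) :=
    Nat.coprime_of_squarefree_mul (e.symm ▸ hk)
  have hp : χ.primitiveCharacter⁻¹.IsPrimitive := by
    rw [isPrimitive_def, conductor_inv]
    exact χ.primitiveCharacter_isPrimitive
  refine ⟨χ.primitiveCharacter⁻¹ (k / χ.conductor : ℕ) *
    gaussSum χ.primitiveCharacter⁻¹ (ZMod.stdAddChar (N := χ.conductor)), ?_, fun m => ?_⟩
  · rw [norm_mul, ← Pool.Agent.Lib.LargeSieve.gauss_norm hp, Real.sqrt_sq (norm_nonneg _)]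
    exact mul_le_of_le_one_left (norm_nonneg _) (norm_le_one _ _)
  · have h := gauss_split hr hc hp m
    rw [← Nat.cast_mul, e, inv_inv] at h
    refine Eq.trans (sum_congr rfl fun a ha => ?_) (h.trans (by ring))
    have h1 := χ.primitiveCharacter_apply_of_isCoprime (a := (a : ℤ))
      (Nat.isCoprime_iff_coprime.2 (mem_filter.1 ha).2)
    rw [Int.cast_natCast, Int.cast_natCast] at h1
    rw [MulChar.inv_apply_eq_inv', MulChar.inv_apply_eq_inv', h1]

theorem sum_le {k : ℕ} [NeZero k] (Φ : (q : ℕ) → DirichletCharacter ℂ q → ℝ)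
    (h0 : ∀ q ψ, 0 ≤ Φ q ψ) [DecidableEq (DirichletCharacter ℂ k)] :
    ∑ χ ∈ (univ : Finset (DirichletCharacter ℂ k)).erase 1, Φ χ.conductor χ.primitiveCharacter ≤
      ∑ q ∈ k.divisors.filter (fun q => 1 < q), ∑ ψ ∈ primSet q, Φ q ψ := by
  classical
  rw [sum_sigma']
  set f : DirichletCharacter ℂ k → (Σ q : ℕ, DirichletCharacter ℂ q) :=
    fun χ => ⟨χ.conductor, χ.primitiveCharacter⟩ with hf
  have hval : ∀ (χ : DirichletCharacter ℂ k) (m : ℕ), Nat.Coprime m k → (f χ).2 m = χ m := by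
    intro χ m hm
    have := χ.primitiveCharacter_apply_of_isCoprime (a := (m : ℤ)) (Nat.isCoprime_iff_coprime.2 hm)
    simpa using this
  have hinj : Function.Injective f := by
    intro χ χ' h
    ext a
    have h1 := hval χ _ (ZMod.val_coe_unit_coprime a)
    have h2 := hval χ' _ (ZMod.val_coe_unit_coprime a)
    rw [h] at h1
    rw [h1] at h2
    simpa using h2
  refine le_trans (sum_image (f := fun x : Σ q : ℕ, DirichletCharacter ℂ q => Φ x.1 x.2)
    fun a _ b _ h => hinj h).ge (sum_le_sum_of_subset_of_nonneg ?_ fun _ _ _ => h0 _ _)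
  intro x hx
  obtain ⟨χ, hχ, rfl⟩ := mem_image.1 hx
  refine mem_sigma.2 ⟨mem_filter.2 ⟨Nat.mem_divisors.2 ⟨χ.conductor_dvd_level, NeZero.ne k⟩, ?_⟩,
    mem_primSet.2 χ.primitiveCharacter_isPrimitive⟩
  have h1 := χ.conductor_ne_zero
  have h2 : χ.conductor ≠ 1 := fun h => ne_of_mem_erase hχ (eq_one_iff_conductor_eq_one.2 h)
  change 1 < χ.conductor
  omega

end CharExpAux

theorem char_expand {k : ℕ} (hk : Squarefree k) {h : ℕ → ℂ} {N : ℕ} (hN : ∀ m, N < m → h m = 0) :
    ‖∑' m : ℕ, h m * ((Real.cos (2 * π * (m / k)) : ℝ) - ram k m / k.totient)‖ ≤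
      (∑ q ∈ k.divisors.filter (fun q => 1 < q), √q * ∑ ψ ∈ primSet q,
        ‖∑' m : ℕ, h m * ψ m * ram (k / q) m‖) / k.totient := by
  classical
  have : NeZero k := ⟨hk.ne_zero⟩
  have hφ : (0 : ℝ) < k.totient := by exact_mod_cast Nat.totient_pos.2 (NeZero.pos k)
  have hφ' : (k.totient : ℂ) ≠ 0 := by exact_mod_cast hφ.ne'
  choose c hc hg using CharExpAux.gs_eq hk
  have ht : ∀ g : ℕ → ℂ, ∑' m : ℕ, h m * g m = ∑ m ∈ Finset.range (N + 1), h m * g m := fun g =>
    tsum_eq_sum fun m hm => by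
      rw [hN m (by simpa [Nat.lt_succ_iff] using hm), zero_mul]
  have h1 : ∀ m : ℕ, ((Real.cos (2 * π * (m / k)) : ℝ) : ℂ) - ram k m / k.totient =
      (∑ χ ∈ (Finset.univ : Finset (DirichletCharacter ℂ k)).erase 1,
        (χ 1 + χ (-1)) / 2 * c χ * (χ.primitiveCharacter m * ram (k / χ.conductor) m)) /
          k.totient := by
    intro m
    have h2 := CharExpAux.cos_eq (k := k) m
    rw [← Finset.add_sum_erase _ _ (Finset.mem_univ 1), CharExpAux.gs_one,
      MulChar.one_apply isUnit_one, MulChar.one_apply isUnit_one.neg] at h2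
    rw [eq_div_iff hφ', Finset.sum_congr rfl fun χ _ => by rw [mul_assoc, ← hg χ m], sub_mul,
      div_mul_cancel₀ _ hφ']
    linear_combination h2
  have h3 : ∑' m : ℕ, h m * ((Real.cos (2 * π * (m / k)) : ℝ) - ram k m / k.totient) =
      (∑ χ ∈ (Finset.univ : Finset (DirichletCharacter ℂ k)).erase 1, (χ 1 + χ (-1)) / 2 * c χ *
        ∑' m : ℕ, h m * χ.primitiveCharacter m * ram (k / χ.conductor) m) / k.totient := by
    rw [ht]
    simp only [h1]
    simp only [mul_assoc (h _), ht, Finset.mul_sum, ← mul_div_assoc (h _), ← Finset.sum_div]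
    rw [Finset.sum_comm]
    congr 1
    exact Finset.sum_congr rfl fun χ _ => Finset.sum_congr rfl fun m _ => by ring
  rw [h3, norm_div, Complex.norm_natCast]
  refine div_le_div_of_nonneg_right ((norm_sum_le _ _).trans ?_) hφ.le
  simp only [Finset.mul_sum]
  refine le_trans (Finset.sum_le_sum fun χ _ => ?_) (CharExpAux.sum_le
    (fun q ψ => √q * ‖∑' m : ℕ, h m * ψ m * ram (k / q) m‖) fun q ψ => by positivity)
  rw [norm_mul, norm_mul]
  refine mul_le_mul_of_nonneg_right ((mul_le_of_le_one_left (norm_nonneg _) ?_).trans (hc χ))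
    (norm_nonneg _)
  rw [norm_div, Complex.norm_ofNat, div_le_one two_pos]
  linarith [norm_add_le (χ 1) (χ (-1)), χ.norm_le_one 1, χ.norm_le_one (-1)]

end Pool.Agent.P.MP_7eacff_nt.SZ
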