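import Pool.Agent.P.MP_7eacff_nt.SZ.Fd

/-!
Inverse Laplace transforms.
-/

open Complex Filter Topology MeasureTheory Set
open scoped Real ContDiff

namespace Pool.Agent.P.MP_7eacff_nt.SZ

open Pool.Agent.Lib.LargeSieve (primSet mem_primSet)

theorem IL_congr {g g' : ℂ → ℂ} (h : ∀ σ : ℂ, σ.re = 1 / 2 → g σ = g' σ) : IL g = IL g' := by
  unfold IL
  congr 2
  funext t
  rw [h _ (by simp)]

namespace ILapAux

theorem ftc {E : Type} [NormedAddCommGroup E] [NormedSpace ℝ E] [CompleteSpace E] {f f' : ℝ → E}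
    (hd : ∀ x, HasDerivAt f (f' x) x) (h' : IntegrableOn f' (Ioi 0)) (h : IntegrableOn f (Ioi 0)) :
    ∫ x in Ioi (0 : ℝ), f' x = -f 0 := by
  rw [integral_Ioi_of_hasDerivAt_of_tendsto' (fun x _ => hd x) h'
    (tendsto_zero_of_hasDerivAt_of_integrableOn_Ioi (fun x _ => hd x) h' h), zero_sub]

theorem int_pow {s : ℂ} (hs : 0 < s.re) (a : ℕ) :
    IntegrableOn (fun u : ℝ => (u : ℂ) ^ a * cexp (-s * u)) (Ioi 0) := by
  refine (integrableOn_rpow_mul_exp_neg_mul_rpow (p := 1) (s := a)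
    (neg_one_lt_zero.trans_le a.cast_nonneg) one_pos hs).mono'
    (Continuous.aestronglyMeasurable (by fun_prop)) ?_
  filter_upwards [ae_restrict_mem measurableSet_Ioi] with u hu
  simp [norm_exp, abs_of_pos (mem_Ioi.1 hu)]

theorem integral_pow {s : ℂ} (hs : 0 < s.re) (a : ℕ) :
    ∫ u in Ioi (0 : ℝ), (u : ℂ) ^ a * cexp (-s * u) = a.factorial / s ^ (a + 1) := by
  have h0 : s ≠ 0 := fun h => by simp [h] at hs
  induction a with
  | zero =>
    simp only [pow_zero, one_mul]
    rw [integral_exp_mul_complex_Ioi (by simpa using hs)]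
    simp
  | succ a ih =>
    have h1 := ftc (f := fun u : ℝ => (u : ℂ) ^ (a + 1) * cexp (-s * u))
      (f' := fun u : ℝ => (a + 1 : ℂ) * ((u : ℂ) ^ a * cexp (-s * u)) -
        s * ((u : ℂ) ^ (a + 1) * cexp (-s * u))) (fun x => by
        refine ((((hasDerivAt_id (x : ℂ)).fun_pow (a + 1)).fun_mul
          ((hasDerivAt_id (x : ℂ)).const_mul (-s)).cexp).comp_ofReal).congr_deriv ?_
        simp only [id, Nat.add_sub_cancel]
        push_cast
        ring)
      (((int_pow hs a).const_mul _).sub ((int_pow hs (a + 1)).const_mul _)) (int_pow hs (a + 1))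
    rw [integral_sub ((int_pow hs a).const_mul _) ((int_pow hs (a + 1)).const_mul _),
      integral_const_mul, integral_const_mul, ih] at h1
    simp only [ofReal_zero, ne_eq, Nat.add_eq_zero_iff, one_ne_zero, and_false, not_false_eq_true,
      zero_pow, zero_mul, neg_zero, sub_eq_zero] at h1
    refine mul_left_cancel₀ h0 (h1.symm.trans ?_)
    rw [Nat.factorial_succ]
    push_cast
    field_simp
    ring

theorem int_inv {a : ℕ} (ha : 1 ≤ a) :
    Integrable fun t : ℝ => ((1 / 2 + t * I : ℂ) ^ (a + 1))⁻¹ := by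
  obtain ⟨b, rfl⟩ := Nat.exists_eq_add_of_le' ha
  refine (integrable_inv_one_add_sq.const_mul (2 ^ b * 4)).mono'
    (Measurable.aestronglyMeasurable (by fun_prop)) (ae_of_all _ fun t => ?_)
  have h1 : (1 / 2 : ℝ) ≤ ‖(1 / 2 + t * I : ℂ)‖ := by
    simpa using re_le_norm (1 / 2 + t * I : ℂ)
  have h2 : ‖(1 / 2 + t * I : ℂ)‖ ^ 2 = 1 / 4 + t ^ 2 := by
    rw [← normSq_eq_norm_sq, normSq_apply]
    simp
    ring
  rw [norm_inv, norm_pow, add_assoc, pow_add, show 1 + 1 = 2 from rfl, h2, mul_inv, mul_assoc]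
  refine mul_le_mul ?_ ?_ (by positivity) (by positivity)
  · rw [← inv_pow]
    exact pow_le_pow_left₀ (by positivity) (inv_le_of_inv_le₀ two_pos (by simpa using h1)) b
  · rw [← div_eq_mul_inv, inv_eq_one_div, div_le_div_iff₀ (by positivity) (by positivity)]
    nlinarith [sq_nonneg t]

end ILapAux

open ILapAux

theorem inv_laplace {a : ℕ} (ha : 1 ≤ a) (x : ℝ) :
    (∫ t : ℝ, cexp ((1 / 2 + t * I) * x) / (1 / 2 + t * I) ^ (a + 1)) / (2 * π) =
      ((max x 0 ^ a / a.factorial : ℝ) : ℂ) := by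
  have hπ : (2 * π : ℝ) ≠ 0 := by positivity
  have hf : (a.factorial : ℂ) ≠ 0 := by exact_mod_cast a.factorial_ne_zero
  let g : ℝ → ℂ := fun u => ((max u 0 : ℝ) : ℂ) ^ a * cexp (-(1 / 2) * u)
  have hg : ∀ (φ : ℝ → ℂ), (fun u => g u * φ u) =
      (Ioi 0).indicator fun u : ℝ => (u : ℂ) ^ a * cexp (-(1 / 2) * u) * φ u := fun φ => by
    funext u
    by_cases hu : 0 < u
    · rw [indicator_of_mem (mem_Ioi.2 hu)]
      simp only [g, max_eq_left hu.le]
    · rw [indicator_of_notMem (mt mem_Ioi.1 hu)]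
      simp [g, max_eq_right (not_lt.1 hu), (show a ≠ 0 by omega)]
  have h1 : Integrable g := by
    have := hg 1
    simp only [Pi.one_apply, mul_one] at this
    rw [show g = _ from this, integrable_indicator_iff measurableSet_Ioi]
    exact int_pow (by norm_num) a
  have h2 : ∀ y, iF g y = a.factorial * ((1 / 2 + (-(2 * π) * y : ℝ) * I) ^ (a + 1))⁻¹ := by
    intro y
    rw [iF, hg, integral_indicator measurableSet_Ioi, ← div_eq_mul_inv,
      ← ILapAux.integral_pow (by simp)]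
    congr 1
    funext u
    rw [ee, mul_assoc, ← Complex.exp_add]
    congr 2
    push_cast
    ring
  have h3 : Integrable (iF g) := by
    rw [funext h2]
    exact ((int_inv ha).comp_mul_left' (neg_ne_zero.2 hπ)).const_mul _
  have h4 := iF_iF (by fun_prop) h1 h3 x
  have h5 := Measure.integral_comp_mul_left
    (fun t : ℝ => cexp ((1 / 2 + t * I) * x) / (1 / 2 + t * I) ^ (a + 1)) (-(2 * π))
  have h6 : ∀ y : ℝ, cexp ((1 / 2 + (-(2 * π) * y : ℝ) * I) * x) /
      (1 / 2 + (-(2 * π) * y : ℝ) * I) ^ (a + 1) =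
      cexp (1 / 2 * x) / a.factorial * (iF g y * ee (y * -x)) := fun y => by
    have e : (1 / 2 + (-(2 * π) * y : ℝ) * I) * x =
        1 / 2 * x + ((2 * π * (y * -x) : ℝ) : ℂ) * I := by
      push_cast
      ring
    rw [h2, ee, e, Complex.exp_add]
    field_simp
  simp only [h6] at h5
  rw [integral_const_mul, show ∫ y, iF g y * ee (y * -x) = g x from h4, inv_neg, abs_neg,
    abs_of_pos (by positivity), real_smul] at h5
  refine (div_eq_inv_mul _ _).trans ((Eq.trans ?_ h5.symm).trans ?_)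
  · push_cast
    rfl
  · have e : cexp (1 / 2 * x) * cexp (-(1 / 2) * x) = 1 := by
      rw [← Complex.exp_add]
      simp
    simp only [g]
    push_cast
    linear_combination (((max x 0 : ℝ) : ℂ) ^ a / a.factorial) * e

namespace ILapAux

/-- The inverse transform of `g` converges absolutely and has the value `c`. -/
def HI (g : ℂ → ℂ) (c : ℂ) : Prop :=
  (Integrable fun t : ℝ => cexp (1 / 2 + t * I) * g (1 / 2 + t * I)) ∧ IL g = c

theorem HI.add {g g' : ℂ → ℂ} {c c' : ℂ} (h : HI g c) (h' : HI g' c') :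
    HI (fun σ => g σ + g' σ) (c + c') := by
  unfold HI IL at *
  simp only [mul_add]
  exact ⟨h.1.add h'.1, by rw [integral_add h.1 h'.1, add_div, h.2, h'.2]⟩

theorem HI.smul {g : ℂ → ℂ} {c : ℂ} (h : HI g c) (d : ℂ) : HI (fun σ => d * g σ) (d * c) := by
  unfold HI IL at *
  simp only [mul_left_comm _ d]
  exact ⟨h.1.const_mul d, by rw [integral_const_mul, mul_div_assoc, h.2]⟩

theorem hi_pow {a : ℕ} (ha : 1 ≤ a) : HI (fun σ => (σ ^ (a + 1))⁻¹) (a.factorial : ℂ)⁻¹ := by
  refine ⟨(int_inv ha).bdd_mul (c := Real.exp (1 / 2))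
    (Continuous.aestronglyMeasurable (by fun_prop)) (ae_of_all _ fun t => by simp [norm_exp]), ?_⟩
  simpa [IL, div_eq_mul_inv] using inv_laplace ha 1

theorem hi_Lap {κ : ℝ → ℝ} (hκ : Tst κ) (hs : ∀ v, 1 < v → κ v = 0) {a : ℕ} (ha : 1 ≤ a) :
    HI (fun σ => (σ ^ (a + 1))⁻¹ * Lap κ σ)
      (ip (fun v => κ v * (1 - v) ^ a) * (a.factorial : ℂ)⁻¹) := by
  let f : ℝ → ℝ → ℂ := fun t v =>
    κ v * (cexp ((1 / 2 + t * I) * (1 - v : ℝ)) / (1 / 2 + t * I) ^ (a + 1))
  have hm := hκ.continuous.measurable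
  have hf : Integrable (Function.uncurry f) (volume.prod (volume.restrict (Ioi 0))) := by
    have h0 := (hκ.mul (g := fun v => Real.exp (1 / 2 * (1 - v))) (by fun_prop)).integrable.norm
    refine ((int_inv ha).norm.mul_prod h0.integrableOn).mono'
      (Measurable.aestronglyMeasurable (by unfold Function.uncurry; fun_prop))
      (ae_of_all _ fun z => le_of_eq ?_)
    simp [f, Function.uncurry, norm_exp, div_eq_mul_inv]
    ring
  have e : ∀ t : ℝ, cexp (1 / 2 + t * I) * (((1 / 2 + t * I : ℂ) ^ (a + 1))⁻¹ *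
      Lap κ (1 / 2 + t * I)) = ∫ v in Ioi (0 : ℝ), f t v := fun t => by
    rw [Lap, ← mul_assoc, ← integral_const_mul]
    congr 1
    funext v
    have e1 : (1 / 2 + t * I : ℂ) * (1 - v : ℝ) = 1 / 2 + t * I + -(1 / 2 + t * I) * v := by
      push_cast
      ring
    simp only [f]
    rw [e1, Complex.exp_add (1 / 2 + t * I)]
    ring
  unfold HI IL
  simp only [e]
  refine ⟨hf.integral_prod_left, ?_⟩
  rw [integral_integral_swap hf, ← integral_div, ip, ← integral_complex_ofReal,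
    ← integral_mul_const]
  congr 1
  funext v
  simp only [f]
  rw [integral_const_mul, mul_div_assoc, inv_laplace ha]
  rcases le_or_gt v 1 with h | h
  · rw [max_eq_left (sub_nonneg.2 h)]
    simp [div_eq_mul_inv, mul_assoc]
  · simp [hs v h]

end ILapAux

theorem IL_poly (c₂ c₃ c₄ c₅ : ℂ) :
    IL (fun σ => c₂ / σ ^ 2 + c₃ / σ ^ 3 + c₄ / σ ^ 4 + c₅ / σ ^ 5) =
      c₂ + c₃ / 2 + c₄ / 6 + c₅ / 24 := by
  refine (((((hi_pow (a := 1) le_rfl).smul c₂).add ((hi_pow (a := 2) (by norm_num)).smul c₃)).add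
    ((hi_pow (a := 3) (by norm_num)).smul c₄)).add
    ((hi_pow (a := 4) (by norm_num)).smul c₅)).2.trans ?_
  simp [Nat.factorial, div_eq_mul_inv]

theorem IL_Lap {κ : ℝ → ℝ} (hκ : Tst κ) (hs : ∀ v, 1 < v → κ v = 0) (c₂ c₃ d₂ d₃ : ℂ) :
    IL (fun σ => (c₂ / σ ^ 2 + c₃ / σ ^ 3) * Lap κ σ + (d₂ / σ ^ 2 + d₃ / σ ^ 3)) =
      c₂ * ip (fun v => κ v * (1 - v)) + c₃ * ip (fun v => κ v * (1 - v) ^ 2) / 2 +
        (d₂ + d₃ / 2) := by
  refine (IL_congr fun σ _ => ?_).trans (((((hi_Lap hκ hs (a := 1) le_rfl).smul c₂).add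
    ((hi_Lap hκ hs (a := 2) (by norm_num)).smul c₃)).add (((hi_pow (a := 1) le_rfl).smul d₂).add
    ((hi_pow (a := 2) (by norm_num)).smul d₃))).2.trans ?_)
  · ring
  · simp [Nat.factorial, div_eq_mul_inv, mul_assoc]

theorem ip_mul_deriv {F : ℝ → ℝ} (hF : Tst F) : ip (fun r => F r * deriv F r) = -F 0 ^ 2 / 2 := by
  have hd := fun x => (hF.cd.differentiable (by simp) x).hasDerivAt
  have h := ftc (f := fun r => F r * F r) (f' := fun r => 2 * (F r * deriv F r))
    (fun x => ((hd x).fun_mul (hd x)).congr_deriv (by ring))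
    ((hF.mul hF.der.cd).integrable.const_mul 2).integrableOn (hF.mul hF.cd).integrable.integrableOn
  rw [integral_const_mul] at h
  unfold ip
  linarith

theorem ip_mul_deriv_two {F : ℝ → ℝ} (hF : Tst F) :
    ip (fun r => F r * deriv (deriv F) r) = -(F 0 * deriv F 0) - ip fun r => deriv F r ^ 2 := by
  have hd := fun x => (hF.cd.differentiable (by simp) x).hasDerivAt
  have hd' := fun x => (hF.der.cd.differentiable (by simp) x).hasDerivAt
  have h1 := (hF.der.mul hF.der.cd).integrable.integrableOn (s := Ioi 0)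
  have h2 := (hF.mul hF.der.der.cd).integrable.integrableOn (s := Ioi 0)
  have h := ftc (fun x => (hd x).fun_mul (hd' x)) (h1.add h2)
    (hF.mul hF.der.cd).integrable.integrableOn
  rw [integral_add h1 h2] at h
  simp only [ip, sq]
  linarith

theorem ip_mul_tl {F : ℝ → ℝ} (hF : Tst F) : ip (fun r => F r * tl F r) = ip F ^ 2 / 2 := by
  have hd : ∀ x, HasDerivAt (tl F) (-F x) x := fun x => by
    have e : tl F = fun r => tl F 0 - ∫ u in (0 : ℝ)..r, F u := funext fun r => by
      rw [← intervalIntegral.integral_Ioi_sub_Ioi' hF.integrable.integrableOn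
        hF.integrable.integrableOn, tl, tl, sub_sub_cancel]
    rw [e]
    exact (hF.continuous.integral_hasStrictDerivAt 0 x).hasDerivAt.const_sub _
  have hc : Continuous (tl F) := continuous_iff_continuousAt.2 fun x => (hd x).continuousAt
  obtain ⟨R, hR, h0⟩ := hF.radius
  have h := integral_Ioi_of_hasDerivAt_of_tendsto' (a := 0) (m := 0)
    (f := fun r => tl F r * tl F r) (f' := fun r => -2 * (F r * tl F r))
    (fun x _ => ((hd x).fun_mul (hd x)).congr_deriv (by ring))
    (((hF.continuous.mul hc).integrable_of_hasCompactSupport hF.cs.mul_right).const_mul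
      (-2)).integrableOn (tendsto_const_nhds.congr' (by
      filter_upwards [eventually_ge_atTop R] with r hr
      rw [tl, setIntegral_eq_zero_of_forall_eq_zero (t := Ioi r) fun x hx =>
        h0 x ((hr.trans_lt hx).trans_le (le_abs_self x)), mul_zero]))
  rw [integral_const_mul] at h
  have e : ip F = tl F 0 := rfl
  rw [e]
  unfold ip
  linarith

end Pool.Agent.P.MP_7eacff_nt.SZ
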