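import Pool.Agent.P.MP_7eacff_nt.SZ.Fd

/-!
Representations of the unit, of the von Mangoldt function and of the mollifier.
-/

open Complex Filter Topology MeasureTheory Set
open scoped Real ContDiff

namespace Pool.Agent.P.MP_7eacff_nt.SZ

open Pool.Agent.Lib.LargeSieve (primSet mem_primSet)

namespace PRepAAux

theorem of_line {f : ℝ → AF} {S : ℂ → ℂ → ℂ} (μ : Measure ℝ) [SFinite μ] (ρ u v : ℝ → ℂ)
    (hρ : Measurable ρ) (hu : Measurable u) (hv : Measurable v)
    (h1 : ∀ w, (-(1 / 4) ≤ (u w).re ∧ (u w).re ≤ 5 / 4) ∧ 0 ≤ (v w).re ∧ (v w).re ≤ 1)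
    (h2 : ∀ A : ℕ, Integrable (fun w => ‖ρ w‖ * (1 + ‖u w‖ + ‖v w‖) ^ A) μ)
    (h3 : ∀ T : ℝ, 1 < T → ∀ n,
      f T n = ∫ w, ρ w * (pw (u w / Real.log T) * mw (v w / Real.log T)) n ∂μ)
    (h4 : ∀ σ z : ℂ, σ.re = 1 / 2 → z.re = 1 →
      S σ z = ∫ w, ρ w * rat σ z (u w) (v w) ∂μ) : PRep f S := by
  have he : MeasurableEmbedding fun x : ℝ => (x, (0 : ℝ)) := measurableEmbedding_prod_mk_right 0
  refine ⟨μ.map fun x => (x, 0), inferInstance, fun w => ρ w.1, fun w => u w.1, fun w => v w.1,
    hρ.comp measurable_fst, hu.comp measurable_fst, hv.comp measurable_fst, fun w => h1 w.1,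
    fun A => he.integrable_map_iff.2 (h2 A), fun T hT n => ?_, fun σ z h h' => ?_⟩
  · rw [he.integral_map]
    exact h3 T hT n
  · rw [he.integral_map]
    exact h4 σ z h h'

theorem ne_zero_of_re {s : ℂ} {x : ℝ} (h : s.re = x) (hx : 0 < x) : s ≠ 0 := by
  rintro rfl
  exact hx.ne (by simpa using h)

theorem continuous_cz : Continuous cz := by
  unfold cz
  fun_prop

theorem continuous_cr : Continuous cr := by
  unfold cr
  fun_prop

theorem norm_cz (x : ℝ) : ‖cz x‖ = 1 / 4 := by
  rw [cz, norm_div, norm_exp_ofReal_mul_I, Complex.norm_ofNat]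

theorem cont_pw {g : ℝ → ℂ} (hg : Continuous g) {n : ℕ} (hn : n ≠ 0) :
    Continuous fun x => pw (g x) n := by
  simp only [pw_apply _ hn]
  exact hg.neg.const_cpow (Or.inl (Nat.cast_ne_zero.2 hn))

theorem integrable_bdd {F : ℝ → ℝ} (hF : Tst F) {g : ℂ → ℂ}
    (hc : Continuous fun ξ : ℝ => g (1 + ξ * I)) {C : ℝ} (hg : ∀ s : ℂ, s.re = 1 → ‖g s‖ ≤ C) :
    Integrable fun ξ : ℝ => fd F ξ * g (1 + ξ * I) :=
  av_integrable hF hc ⟨C, 0, fun s h h' => by
    rw [pow_zero, mul_one]
    exact hg s (le_antisymm h' h)⟩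

end PRepAAux

open PRepAAux

theorem prep_one : PRep (fun _ => 1) fun _ _ => 1 := by
  refine of_line (Measure.dirac 0) (fun _ => 1) (fun _ => 0) (fun _ => 0) measurable_const
    measurable_const measurable_const (fun _ => by norm_num) (fun _ => integrable_const _)
    (fun T _ n => ?_) fun σ z hσ hz => ?_
  · rw [integral_dirac, zero_div, pw_zero, mw_zero, mul_comm un, mu_mul_un, one_mul]
  · have h1 := ne_zero_of_re hσ (by norm_num)
    have h2 := ne_zero_of_re hz one_pos
    rw [integral_dirac, rat, add_zero, add_zero]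
    field_simp

theorem prep_vm : PRep (fun T => (1 / (Real.log T : ℝ) : ℂ) • vm) fun σ z => 1 / σ - 1 / z := by
  refine of_line (volume.restrict (Ioc 0 (2 * π))) cr cz (fun _ => 0) continuous_cr.measurable
    continuous_cz.measurable measurable_const (fun x => ?_) (fun A => ?_)
    (fun T _ n => ?_) fun σ z hσ hz => ?_
  · have h := abs_le.1 ((abs_re_le_norm (cz x)).trans (norm_cz x).le)
    exact ⟨⟨h.1, by linarith [h.2]⟩, by norm_num⟩
  · exact (continuous_cr.norm.mul
      (((continuous_const.add continuous_cz.norm).add continuous_const).pow A)).integrableOn_Ioc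
  · simp only [zero_div, mw_zero, ArithmeticFunction.mul_apply, Finset.mul_sum, ← mul_assoc]
    rw [integral_finsetSum, smul_apply', ← mu_mul_lg, mul_comm mu, ArithmeticFunction.mul_apply,
      Finset.mul_sum]
    · refine Finset.sum_congr rfl fun x _ => ?_
      rw [integral_mul_const, circ_pw]
      ring
    · intro x hx
      exact ((continuous_cr.mul (cont_pw (continuous_cz.div_const (Real.log T : ℂ))
        (Nat.left_ne_zero_of_mem_divisorsAntidiagonal hx))).mul continuous_const).integrableOn_Ioc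
  · have h1 := ne_zero_of_re hσ (by norm_num)
    have h2 := ne_zero_of_re hz one_pos
    have h3 : 1 / 4 < ‖σ‖ := by linarith [re_le_norm σ]
    have h4 : ∀ x, cr x * rat σ z (cz x) 0 = σ / z * (cr x * ((z + cz x) / (σ + cz x))) := by
      intro x
      rw [rat, add_zero, add_zero, mul_div_mul_comm]
      ring
    simp only [h4]
    rw [integral_const_mul, circ_rat h3]
    field_simp

theorem prep_bun {F : ℝ → ℝ} (hF : Tst F) :
    PRep (fun T => bF F T * un) fun σ z => z / σ * (F 0 - (z - σ) * Lap F z) := by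
  have hc : Continuous fun ξ : ℝ => 1 + ξ * I := by fun_prop
  refine of_line volume (fd F) (fun _ => 0) (fun ξ => 1 + ξ * I) (continuous_fd hF).measurable
    measurable_const hc.measurable (fun x => by norm_num) (fun A => ?_)
    (fun T _ n => ?_) fun σ z hσ hz => ?_
  · refine ((fd_moment hF A).const_mul (2 ^ A)).mono' ((continuous_fd hF).norm.mul
      (((continuous_const.add continuous_const).add hc.norm).pow A)).aestronglyMeasurable
      (ae_of_all _ fun ξ => ?_)
    have h1 : ‖1 + ξ * I‖ ≤ 1 + |ξ| := (norm_add_le _ _).trans (by simp)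
    rw [Real.norm_of_nonneg (by positivity), mul_left_comm, ← mul_pow, norm_zero]
    refine mul_le_mul_of_nonneg_left (pow_le_pow_left₀ (by positivity) ?_ A) (norm_nonneg _)
    linarith [abs_nonneg ξ]
  · have h1 : ∀ ξ : ℝ, fd F ξ * (pw (0 / Real.log T) * mw ((1 + ξ * I) / Real.log T)) n =
        ∑ x ∈ n.divisorsAntidiagonal,
          mu x.1 * un x.2 * (fd F ξ * pw ((1 + ξ * I) / Real.log T) x.1) := by
      intro ξ
      rw [zero_div, pw_zero, mul_comm un, ArithmeticFunction.mul_apply, Finset.mul_sum]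
      refine Finset.sum_congr rfl fun x hx => ?_
      rw [mw_apply, pw_apply _ (Nat.left_ne_zero_of_mem_divisorsAntidiagonal hx)]
      ring
    simp only [h1]
    rw [integral_finsetSum, ArithmeticFunction.mul_apply]
    · refine Finset.sum_congr rfl fun x hx => ?_
      have h2 := av_pw hF (Real.log T) (Nat.left_ne_zero_of_mem_divisorsAntidiagonal hx)
      rw [av] at h2
      rw [integral_const_mul, h2, bF_apply]
      ring
    · intro x hx
      have hx' := Nat.left_ne_zero_of_mem_divisorsAntidiagonal hx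
      refine (integrable_bdd hF (g := fun z => pw (z / Real.log T) x.1)
        (cont_pw (hc.div_const (Real.log T : ℂ)) hx') (C := (x.1 : ℝ) ^ (-(1 / Real.log T)))
        fun s hs => ?_).const_mul _
      rw [pw_apply _ hx', norm_natCast_cpow_of_pos (Nat.pos_of_ne_zero hx'), neg_re,
        div_ofReal_re, hs]
  · have h1 := ne_zero_of_re hσ (by norm_num)
    have h2 : ∀ s : ℂ, s.re = 1 → (z + s).re = 2 := fun s hs => by
      rw [add_re, hz, hs]
      norm_num
    have h3 : ∀ ξ : ℝ, z + (1 + ξ * I) ≠ 0 := fun ξ => ne_zero_of_re (h2 _ (by simp)) two_pos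
    have h4 : ∀ ξ : ℝ, fd F ξ * rat σ z 0 (1 + ξ * I) =
        z / σ * (fd F ξ * 1 - (z - σ) * (fd F ξ * (1 / (z + (1 + ξ * I))))) := by
      intro ξ
      have := h3 ξ
      rw [rat, add_zero, add_zero]
      field_simp
      ring
    have h5 := av_exp hF 0
    have h6 := av_inv_add hF (w := z) (by rw [hz]; exact zero_le_one)
    simp only [ofReal_zero, mul_zero, Complex.exp_zero] at h5
    rw [av] at h5 h6
    simp only [h4]
    rw [integral_const_mul, integral_sub, integral_const_mul, h5, h6]
    · exact integrable_bdd hF (g := fun _ => 1) continuous_const (C := 1) fun _ _ => by simp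
    · refine (integrable_bdd hF (g := fun s => 1 / (z + s))
        (continuous_const.div (continuous_const.add hc) h3) (C := 1) fun s hs => ?_).const_mul _
      have := re_le_norm (z + s)
      rw [h2 s hs] at this
      rw [norm_div, norm_one, div_le_one (by linarith)]
      linarith

end Pool.Agent.P.MP_7eacff_nt.SZ
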