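import Pool.Agent.P.MP_7eacff_nt.SZ.Fd

/-!
Representations with a circle and a line.
-/

open Complex Filter Topology MeasureTheory Set
open scoped Real ContDiff

namespace Pool.Agent.P.MP_7eacff_nt.SZ

open Pool.Agent.Lib.LargeSieve (primSet mem_primSet)

namespace PRepBAux

theorem cont_cr : Continuous cr := by unfold cr; fun_prop

theorem cont_cz : Continuous cz := by unfold cz; fun_prop

theorem norm_cz (x : ℝ) : ‖cz x‖ = 1 / 4 := by simp [cz]

theorem re_cz (x : ℝ) : -(1 / 4) ≤ (cz x).re ∧ (cz x).re ≤ 1 / 4 :=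
  abs_le.1 ((abs_re_le_norm _).trans (norm_cz x).le)

theorem norm_line (ξ : ℝ) : ‖(1 + ξ * I : ℂ)‖ ≤ 1 + |ξ| :=
  (norm_add_le _ _).trans (by simp)

theorem cont_pw {X : Type*} [TopologicalSpace X] {g : X → ℂ} (hg : Continuous g) {n : ℕ}
    (hn : n ≠ 0) : Continuous fun x => pw (g x) n := by
  simp only [pw_apply _ hn]
  exact hg.neg.const_cpow (Or.inl (Nat.cast_ne_zero.2 hn))

theorem int_circ {g : ℝ → ℂ} (hg : Continuous g) :
    Integrable (fun x => cr x * g x) (volume.restrict (Ioc 0 (2 * π))) :=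
  ((cont_cr.mul hg).integrableOn_Icc).mono_set Ioc_subset_Icc_self

variable {F : ℝ → ℝ} (hF : Tst F)
include hF

theorem int_fd : Integrable (fd F) :=
  (integrable_norm_iff (continuous_fd hF).aestronglyMeasurable).1 (by simpa using fd_moment hF 0)

theorem int_inv {w : ℂ} (hw : 0 ≤ w.re) :
    Integrable fun ξ : ℝ => fd F ξ * (1 / (w + (1 + ξ * I))) := by
  have h : ∀ ξ : ℝ, 1 ≤ ‖w + (1 + ξ * I)‖ := fun ξ =>
    le_trans (by simpa using hw) (re_le_norm _)
  refine (int_fd hF).mul_bdd (c := 1) (Continuous.aestronglyMeasurable ?_) (ae_of_all _ fun ξ => ?_)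
  · exact continuous_const.div (by fun_prop) fun ξ => norm_pos_iff.1 (one_pos.trans_le (h ξ))
  · rw [norm_div, norm_one]
    exact div_le_one_of_le₀ (h ξ) (norm_nonneg _)

theorem int_pw {L : ℝ} (hL : 0 < L) {n : ℕ} (hn : n ≠ 0) :
    Integrable fun ξ : ℝ => fd F ξ * pw ((1 + ξ * I) / L) n := by
  refine (int_fd hF).mul_bdd (c := 1) (cont_pw (by fun_prop) hn).aestronglyMeasurable
    (ae_of_all _ fun ξ => ?_)
  rw [pw_apply _ hn, norm_natCast_cpow_of_pos (Nat.pos_of_ne_zero hn)]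
  refine Real.rpow_le_one_of_one_le_of_nonpos (by exact_mod_cast Nat.pos_of_ne_zero hn) ?_
  simp [hL.le]

theorem meas_rho : Measurable fun w : ℝ × ℝ => cr w.1 * fd F w.2 :=
  ((cont_cr.comp continuous_fst).mul ((continuous_fd hF).comp continuous_snd)).measurable

theorem mom {u : ℝ × ℝ → ℂ} (hu : Continuous u) (hb : ∀ w, ‖u w‖ ≤ 2 * (1 + |w.2|)) (A : ℕ) :
    Integrable (fun w : ℝ × ℝ => ‖cr w.1 * fd F w.2‖ * (1 + ‖u w‖ + ‖(1 + w.2 * I : ℂ)‖) ^ A)
      ((volume.restrict (Ioc 0 (2 * π))).prod volume) := by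
  have h1 := (int_circ (g := fun _ => 1) continuous_const).norm.mul_prod
    ((fd_moment hF A).const_mul (4 ^ A))
  refine h1.mono' ((meas_rho hF).norm.mul (by fun_prop)).aestronglyMeasurable
    (ae_of_all _ fun w => ?_)
  rw [Real.norm_of_nonneg (by positivity), norm_mul, mul_one, mul_assoc, mul_left_comm (4 ^ A),
    ← mul_pow]
  gcongr
  linarith only [hb w, norm_line w.2, abs_nonneg w.2]

theorem av_rat {σ z : ℂ} (hz : z.re = 1) :
    ∫ ξ : ℝ, fd F ξ * ((σ + (1 + ξ * I)) / (z + (1 + ξ * I))) = F 0 - (z - σ) * Lap F z := by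
  have h0 := av_exp hF 0
  have h1 := av_inv_add hF (w := z) (by rw [hz]; norm_num)
  simp only [av, ofReal_zero, mul_zero, Complex.exp_zero, mul_one] at h0
  rw [← h0, ← h1, av, ← integral_const_mul,
    ← integral_sub (int_fd hF) ((int_inv hF (by rw [hz]; norm_num)).const_mul _)]
  refine integral_congr_ae (ae_of_all _ fun ξ => ?_)
  have : z + (1 + ξ * I) ≠ 0 := fun h => by
    have := congrArg re h
    simp [hz] at this
  field_simp
  ring

omit hF in
theorem pw_mul_mw (c v : ℂ) {n : ℕ} (hn : n ≠ 0) :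
    (pw (v + c) * mw v) n = (pw c * mu) n * pw v n := by
  simp only [ArithmeticFunction.mul_apply, Finset.sum_mul]
  refine Finset.sum_congr rfl fun x hx => ?_
  obtain ⟨h1, h2⟩ := Nat.ne_zero_of_mem_divisorsAntidiagonal hx
  rw [pw_apply _ hn, pw_apply _ h1, pw_apply _ h1, mw_apply,
    ← (Nat.mem_divisorsAntidiagonal.1 hx).1, Nat.cast_mul, natCast_mul_natCast_cpow, neg_add,
    cpow_add _ _ (Nat.cast_ne_zero.2 h1)]
  ring

omit hF in
theorem circ_mu (L : ℝ) (n : ℕ) :
    ∫ x in Ioc (0 : ℝ) (2 * π), cr x * (pw (cz x / L) * mu) n = vm n / L := by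
  rw [← mu_mul_lg, mul_comm mu]
  simp only [ArithmeticFunction.mul_apply, Finset.mul_sum, Finset.sum_div, ← mul_assoc]
  rw [integral_finsetSum _ fun x hx => (int_circ (cont_pw (cont_cz.div_const _)
    (Nat.ne_zero_of_mem_divisorsAntidiagonal hx).1)).mul_const _]
  refine Finset.sum_congr rfl fun x _ => ?_
  rw [integral_mul_const, circ_pw]
  ring

omit hF in
theorem norm_quot {a b : ℂ} (c : ℂ) (hb : 1 ≤ (b + c).re) : ‖(a + c) / (b + c)‖ ≤ 1 + ‖a - b‖ := by
  have h1 : 1 ≤ ‖b + c‖ := hb.trans (re_le_norm _)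
  rw [norm_div, div_le_iff₀ (one_pos.trans_le h1), show a + c = b + c + (a - b) by ring]
  nlinarith only [norm_add_le (b + c) (a - b), h1, norm_nonneg (a - b)]

end PRepBAux

open PRepBAux

theorem prep_blg {F : ℝ → ℝ} (hF : Tst F) :
    PRep (fun T => (1 / (Real.log T : ℝ) : ℂ) • (bF F T * lg))
      fun σ z => (z - σ) / σ ^ 2 * (F 0 - (z - σ) * Lap F z) := by
  refine ⟨(volume.restrict (Ioc 0 (2 * π))).prod volume, inferInstance,
    fun w => cr w.1 * fd F w.2, fun w => cz w.1, fun w => 1 + w.2 * I, meas_rho hF,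
    (cont_cz.comp continuous_fst).measurable, by fun_prop, fun w => ?_,
    mom hF (cont_cz.comp continuous_fst) fun w => ?_, fun T hT n => ?_, fun σ z hσ hz => ?_⟩
  · exact ⟨⟨(re_cz _).1, (re_cz _).2.trans (by norm_num)⟩, by simp, by simp⟩
  · rw [norm_cz]
    linarith only [abs_nonneg w.2]
  · have hL := Real.log_pos hT
    have e : ∀ x ∈ n.divisorsAntidiagonal, ∀ w : ℝ × ℝ, cr w.1 * fd F w.2 *
        (pw (cz w.1 / Real.log T) x.1 * mw ((1 + w.2 * I) / Real.log T) x.2) =
        cr w.1 * pw (cz w.1 / Real.log T) x.1 *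
          (mu x.2 * (fd F w.2 * pw ((1 + w.2 * I) / Real.log T) x.2)) := fun x hx w => by
      rw [mw_apply, pw_apply _ (Nat.ne_zero_of_mem_divisorsAntidiagonal hx).2]
      ring
    rw [smul_apply', mul_comm (bF F T)]
    simp only [ArithmeticFunction.mul_apply, Finset.mul_sum]
    rw [integral_finsetSum _ fun x hx => ?_]
    · refine Finset.sum_congr rfl fun x hx => ?_
      have h2 := av_pw hF (Real.log T) (Nat.ne_zero_of_mem_divisorsAntidiagonal hx).2
      simp only [e x hx]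
      rw [integral_prod_mul (fun a => cr a * pw (cz a / Real.log T) x.1)
        (fun b : ℝ => mu x.2 * (fd F b * pw ((1 + b * I) / Real.log T) x.2)), circ_pw,
        integral_const_mul, bF_apply, ← h2, av]
      ring
    · obtain ⟨h1, h2⟩ := Nat.ne_zero_of_mem_divisorsAntidiagonal hx
      simp only [e x hx]
      exact (int_circ (cont_pw (cont_cz.div_const _) h1)).mul_prod ((int_pw hF hL h2).const_mul _)
  · have h1 : 1 / 4 < ‖σ‖ := lt_of_lt_of_le (by rw [hσ]; norm_num) (re_le_norm σ)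
    beta_reduce
    rw [← circ_rat h1, ← av_rat hF hz, ← integral_prod_mul]
    refine integral_congr_ae (ae_of_all _ fun w => ?_)
    simp only [rat]
    rw [← div_mul_div_comm]
    ring

theorem prep_aP {κ : ℝ → ℝ} (hκ : Tst κ) :
    PRep (fun T => (1 / (Real.log T : ℝ) : ℂ) • aP κ T) fun σ z => Lap κ σ - Lap κ z := by
  have cu : Continuous fun w : ℝ × ℝ => (1 + w.2 * I : ℂ) + cz w.1 :=
    Continuous.add (by fun_prop) (cont_cz.comp continuous_fst)
  refine ⟨(volume.restrict (Ioc 0 (2 * π))).prod volume, inferInstance,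
    fun w => cr w.1 * fd κ w.2, fun w => 1 + w.2 * I + cz w.1, fun w => 1 + w.2 * I, meas_rho hκ,
    cu.measurable, by fun_prop, fun w => ?_, mom hκ cu fun w => ?_, fun T hT n => ?_,
    fun σ z hσ hz => ?_⟩
  · have := re_cz w.1
    refine ⟨⟨?_, ?_⟩, by simp, by simp⟩ <;> simp <;> linarith only [this.1, this.2]
  · have := norm_add_le (1 + w.2 * I : ℂ) (cz w.1)
    rw [norm_cz] at this
    linarith only [this, norm_line w.2, abs_nonneg w.2]
  · rcases eq_or_ne n 0 with rfl | hn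
    · simp
    have h2 := av_pw hκ (Real.log T) hn
    simp only [add_div _ (cz _), pw_mul_mw _ _ hn, mul_mul_mul_comm (cr _) (fd κ _)]
    rw [integral_prod_mul (fun a => cr a * (pw (cz a / Real.log T) * mu) n)
      (fun b : ℝ => fd κ b * pw ((1 + b * I) / Real.log T) n), circ_mu, smul_apply', aP_apply,
      ← h2, av]
    ring
  · have hσ0 : 0 ≤ σ.re := by rw [hσ]; norm_num
    have hz0 : 0 ≤ z.re := by rw [hz]; norm_num
    have r1 : ∀ w : ℝ × ℝ, 1 ≤ (σ + (1 + w.2 * I + cz w.1)).re := fun w => by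
      have := (re_cz w.1).1
      simp [hσ]
      linarith only [this]
    have r2 : ∀ ξ : ℝ, 1 ≤ (z + (1 + ξ * I)).re := fun ξ => by simp [hz]
    have r3 : ∀ ξ : ℝ, 1 ≤ (σ + (1 + ξ * I)).re := fun ξ => by simpa using hσ0
    have ne : ∀ {a : ℂ}, 1 ≤ a.re → a ≠ 0 := fun h e => by
      rw [e, zero_re] at h
      exact absurd h (by norm_num)
    have hi : Integrable (fun w : ℝ × ℝ => cr w.1 * fd κ w.2 *
        rat σ z (1 + w.2 * I + cz w.1) (1 + w.2 * I))
        ((volume.restrict (Ioc 0 (2 * π))).prod volume) := by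
      have h1 := (int_circ (g := fun _ => 1) continuous_const).mul_prod (int_fd hκ)
      simp only [mul_one] at h1
      refine h1.mul_bdd (c := (1 + ‖z - σ‖) * (1 + ‖σ - z‖)) (Continuous.aestronglyMeasurable ?_)
        (ae_of_all _ fun w => ?_)
      · exact Continuous.div ((cu.const_add z).mul (by fun_prop))
          ((cu.const_add σ).mul (by fun_prop)) fun w => mul_ne_zero (ne (r1 w)) (ne (r2 w.2))
      · rw [rat, ← div_mul_div_comm, norm_mul]
        exact mul_le_mul (norm_quot _ (r1 w)) (norm_quot _ (r2 w.2)) (norm_nonneg _)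
          (by positivity)
    beta_reduce
    rw [integral_prod_symm _ hi, ← av_inv_add hκ hσ0, ← av_inv_add hκ hz0, av, av,
      ← integral_sub (int_inv hκ hσ0) (int_inv hκ hz0)]
    refine integral_congr_ae (ae_of_all _ fun ξ => ?_)
    have h1 := circ_rat (σ := σ + (1 + ξ * I)) (z := z + (1 + ξ * I))
      (lt_of_lt_of_le (by norm_num) ((r3 ξ).trans (re_le_norm _)))
    have e : ∀ x, cr x * fd κ ξ * rat σ z (1 + ξ * I + cz x) (1 + ξ * I) =
        fd κ ξ * ((σ + (1 + ξ * I)) / (z + (1 + ξ * I))) *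
          (cr x * ((z + (1 + ξ * I) + cz x) / (σ + (1 + ξ * I) + cz x))) := fun x => by
      rw [rat, ← div_mul_div_comm, ← add_assoc z, ← add_assoc σ]
      ring
    simp only [e]
    rw [integral_const_mul, h1]
    have := ne (r2 ξ)
    have := ne (r3 ξ)
    field_simp

end Pool.Agent.P.MP_7eacff_nt.SZ
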