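import Pool.Agent.P.MP_7eacff_nt.SZ.Fam

/-!
Crude bounds for sums over fractions, tails and linearity.
-/

open Complex Filter Topology MeasureTheory Set
open scoped Real ContDiff

namespace Pool.Agent.P.MP_7eacff_nt.SZ

open Pool.Agent.Lib.LargeSieve (primSet mem_primSet)

namespace TailAux

theorem inv_sq_le {y s : ℝ} (hy : 0 < y) (hs0 : 0 ≤ s) (hs : s ≤ 2) :
    1 / (1 + y) ^ 2 ≤ y ^ (-s) := by
  have h1 : y ^ s ≤ (1 + y) ^ s := Real.rpow_le_rpow hy.le (by linarith) hs0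
  have h2 : (1 + y) ^ s ≤ (1 + y) ^ (2 : ℝ) :=
    Real.rpow_le_rpow_of_exponent_le (by linarith) hs
  rw [Real.rpow_two] at h2
  rw [Real.rpow_neg hy.le, ← one_div]
  exact one_div_le_one_div_of_le (Real.rpow_pos_of_pos hy _) (h1.trans h2)

theorem one_add_log_le {x e : ℝ} (hx : 1 ≤ x) (he : 0 < e) :
    1 + Real.log x ≤ (1 + 1 / e) * x ^ e := by
  have h1 : Real.log x ≤ x ^ e / e := Real.log_le_rpow_div (by linarith) he
  have h2 : 1 ≤ x ^ e := Real.one_le_rpow hx he.le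
  have h3 : (1 + 1 / e) * x ^ e = x ^ e + x ^ e / e := by ring
  linarith

/-- The zeta sum. -/
noncomputable def Z (e : ℝ) : ℝ := ∑' m : ℕ, (m : ℝ) ^ (-1 - e)

theorem Z_nonneg (e : ℝ) : 0 ≤ Z e :=
  tsum_nonneg fun m => Real.rpow_nonneg (Nat.cast_nonneg m) _

theorem term_le {c g : ℕ → ℂ} {A C X e : ℝ} (hA : 0 ≤ A) (hC : 0 ≤ C) (hX : 0 < X) (he : 0 < e)
    (he' : e ≤ 1 / 3) (hc : ∀ m, ‖c m‖ ≤ A * (m : ℝ) ^ e)
    (hg : ∀ m : ℕ, m ≠ 0 → ‖g m‖ ≤ C * (1 + Real.log m) / (1 + m / X) ^ 2) (m : ℕ) :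
    ‖c m * g m‖ ≤ A * C * (1 + 1 / e) * X ^ (1 + 3 * e) * (m : ℝ) ^ (-1 - e) := by
  rcases Nat.eq_zero_or_pos m with rfl | hm
  · have h0 := hc 0
    rw [Nat.cast_zero, Real.zero_rpow he.ne', mul_zero] at h0
    rw [norm_le_zero_iff.1 h0, zero_mul, norm_zero]
    positivity
  · have hm1 : (1 : ℝ) ≤ m := by exact_mod_cast hm
    have hm0 : (0 : ℝ) < m := by linarith
    have h1 := inv_sq_le (div_pos hm0 hX) (s := 1 + 3 * e) (by positivity) (by linarith)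
    have h2 := one_add_log_le hm1 he
    have h3 : ‖g m‖ ≤ C * ((1 + 1 / e) * (m : ℝ) ^ e) * (m / X : ℝ) ^ (-(1 + 3 * e)) := by
      refine (hg m hm.ne').trans ?_
      rw [div_eq_mul_one_div]
      have := Real.log_nonneg hm1
      exact mul_le_mul (mul_le_mul_of_nonneg_left h2 hC) h1 (by positivity) (by positivity)
    have h4 : (m / X : ℝ) ^ (-(1 + 3 * e)) = X ^ (1 + 3 * e) * (m : ℝ) ^ (-(1 + 3 * e)) := by
      rw [Real.div_rpow hm0.le hX.le, Real.rpow_neg hX.le, div_inv_eq_mul, mul_comm]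
    have h5 : (m : ℝ) ^ (-1 - e) = (m : ℝ) ^ e * (m : ℝ) ^ e * (m : ℝ) ^ (-(1 + 3 * e)) := by
      rw [← Real.rpow_add hm0, ← Real.rpow_add hm0]
      congr 1
      ring
    rw [norm_mul, h5]
    refine (mul_le_mul (hc m) h3 (norm_nonneg _) (by positivity)).trans (le_of_eq ?_)
    rw [h4]
    ring

theorem tsum_bd {c g : ℕ → ℂ} {A C X e : ℝ} (hA : 0 ≤ A) (hC : 0 ≤ C) (hX : 0 < X) (he : 0 < e)
    (he' : e ≤ 1 / 3) (hc : ∀ m, ‖c m‖ ≤ A * (m : ℝ) ^ e)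
    (hg : ∀ m : ℕ, m ≠ 0 → ‖g m‖ ≤ C * (1 + Real.log m) / (1 + m / X) ^ 2) :
    Summable (fun m => c m * g m) ∧
      ‖∑' m, c m * g m‖ ≤ A * C * (1 + 1 / e) * X ^ (1 + 3 * e) * Z e := by
  have hs : Summable fun m : ℕ => (m : ℝ) ^ (-1 - e) :=
    Real.summable_nat_rpow.2 (by linarith)
  have h := (hs.mul_left (A * C * (1 + 1 / e) * X ^ (1 + 3 * e))).hasSum
  refine ⟨Summable.of_norm_bounded h.summable (term_le hA hC hX he he' hc hg), ?_⟩
  refine (tsum_of_norm_bounded h (term_le hA hC hX he he' hc hg)).trans (le_of_eq ?_)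
  rw [tsum_mul_left, Z]

theorem tends_of_le {f : ℝ → ℂ} {K a : ℝ} (ha : 0 < a)
    (h : ∀ᶠ T : ℝ in atTop, ‖f T‖ ≤ K * T ^ (-a)) : Tendsto f atTop (𝓝 0) := by
  refine squeeze_zero_norm' h ?_
  simpa using (tendsto_rpow_neg_atTop ha).const_mul K

theorem sum_le {F : ℕ → ℂ} {K T : ℝ} (hT : 0 ≤ T) (hK : 0 ≤ K)
    (h : ∀ k ∈ Finset.Icc 1 ⌊T⌋₊, ‖F k‖ ≤ K) : ‖∑ k ∈ Finset.Icc 1 ⌊T⌋₊, F k‖ ≤ T * K := by
  refine (norm_sum_le _ _).trans ((Finset.sum_le_card_nsmul _ _ _ h).trans ?_)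
  rw [Nat.card_Icc, Nat.add_sub_cancel, nsmul_eq_mul]
  exact mul_le_mul_of_nonneg_right (Nat.floor_le hT) hK

theorem sum_le' {F : ℕ → ℂ} {K T : ℝ} (hT : 1 ≤ T) (hK : 0 ≤ K)
    (h : ∀ k ∈ Finset.Icc 1 ⌊T⌋₊, ‖F k‖ ≤ K / k) :
    ‖∑ k ∈ Finset.Icc 1 ⌊T⌋₊, F k‖ ≤ K * (1 + Real.log T) := by
  refine (norm_sum_le _ _).trans ((Finset.sum_le_sum h).trans ?_)
  have h1 : ∑ k ∈ Finset.Icc 1 ⌊T⌋₊, K / (k : ℝ) = K * (harmonic ⌊T⌋₊ : ℝ) := by
    rw [harmonic_eq_sum_Icc]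
    push_cast
    rw [Finset.mul_sum]
    simp only [div_eq_mul_inv]
  rw [h1]
  refine mul_le_mul_of_nonneg_left ((harmonic_le_one_add_log _).trans ?_) hK
  have h2 : (1 : ℝ) ≤ ⌊T⌋₊ := by exact_mod_cast Nat.floor_pos.2 hT
  have := Real.log_le_log (by linarith) (Nat.floor_le (by linarith : 0 ≤ T))
  linarith

theorem mem_Icc {T : ℝ} {k : ℕ} (hT : 0 ≤ T) (hk : k ∈ Finset.Icc 1 ⌊T⌋₊) :
    (1 : ℝ) ≤ k ∧ (k : ℝ) ≤ T := by
  rw [Finset.mem_Icc] at hk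
  exact ⟨by exact_mod_cast hk.1, (Nat.cast_le.2 hk.2).trans (Nat.floor_le hT)⟩

/-- A bounded weight times a decaying window. -/
theorem weight_le {V : ℝ → ℂ} {C W X : ℝ} (hC : 0 ≤ C) (hW : 0 ≤ W) (hX : 0 < X)
    (hV : ∀ x, 0 < x → ‖V x‖ ≤ C / (1 + x) ^ 2) {w : ℕ → ℂ} (hw : ∀ m, ‖w m‖ ≤ W) (m : ℕ)
    (hm : m ≠ 0) : ‖w m * V (m / X)‖ ≤ W * C * (1 + Real.log m) / (1 + m / X) ^ 2 := by
  have hm1 : (1 : ℝ) ≤ m := by exact_mod_cast Nat.pos_of_ne_zero hm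
  have h1 := hV (m / X) (div_pos (by linarith) hX)
  have h2 := Real.log_nonneg hm1
  rw [norm_mul]
  refine (mul_le_mul (hw m) h1 (norm_nonneg _) hW).trans ?_
  rw [← mul_div_assoc]
  refine div_le_div_of_nonneg_right ?_ (by positivity)
  nlinarith [mul_nonneg hW hC]

theorem wM_le (k m : ℕ) : ‖ram k m / k.totient‖ ≤ 1 + (k : ℝ) ^ 2 :=
  (norm_ram_div_le k m).trans (by linarith)

theorem wE_le (k m : ℕ) :
    ‖((Real.cos (2 * π * (m / k)) : ℝ) : ℂ) - ram k m / k.totient‖ ≤ 1 + (k : ℝ) ^ 2 := by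
  refine (norm_sub_le _ _).trans (add_le_add ?_ (norm_ram_div_le k m))
  rw [Complex.norm_real]
  exact Real.abs_cos_le_one _

/-- The common shape of `MT` and `ER`. -/
noncomputable def G (w : ℕ → ℕ → ℂ) (V : ℝ → ℂ) (b c : ℕ → ℂ) (T : ℝ) : ℂ :=
  ∑ k ∈ Finset.Icc 1 ⌊T⌋₊, b k / k * ∑' m : ℕ, c m * w k m * V (m / (k * T))

theorem G_smul (w : ℕ → ℕ → ℂ) (V : ℝ → ℂ) (b : ℕ → ℂ) (c : AF) (a : ℂ) (T : ℝ) :
    G w V b (a • c : AF) T = a * G w V b c T := by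
  simp only [G, smul_apply', Finset.mul_sum]
  refine Finset.sum_congr rfl fun k _ => ?_
  simp only [mul_assoc]
  rw [tsum_mul_left, mul_left_comm]

end TailAux

theorem summable_frac {c : ℝ → AF} (hc : Mod c) : ∀ᶠ T : ℝ in atTop, ∀ (g : ℕ → ℂ) (C X : ℝ),
    0 < X → (∀ m : ℕ, m ≠ 0 → ‖g m‖ ≤ C * (1 + Real.log m) / (1 + m / X) ^ 2) →
    Summable fun m => c T m * g m := by
  filter_upwards [hc (1 / 4) (by norm_num), eventually_ge_atTop 0] with T hT hT0 g C X hX hg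
  refine (TailAux.tsum_bd (A := T ^ (1 / 4 : ℝ)) (C := |C|) (by positivity) (abs_nonneg C) hX
    (e := 1 / 4) (by norm_num) (by norm_num) hT fun m hm => (hg m hm).trans ?_).1
  have hm1 : (1 : ℝ) ≤ m := by exact_mod_cast Nat.pos_of_ne_zero hm
  have h2 := Real.log_nonneg hm1
  exact div_le_div_of_nonneg_right
    (mul_le_mul_of_nonneg_right (le_abs_self C) (by linarith)) (by positivity)

theorem GS_crude {θ : ℝ} (hθ : θ < 1 / 2) {b c : ℝ → AF} (hb : Moll θ b) (hc : Mod c)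
    {h : ℝ → ℝ → ℂ} {C : ℝ} (hh : ∀ᶠ T : ℝ in atTop, ∀ x : ℝ, 0 < x →
      ‖h T x‖ ≤ C * ((1 + |Real.log x|) * Real.log T) / (1 + x / T) ^ 2) :
    Tendsto (fun T : ℝ => GS (h T) (b T) (c T) T / T ^ 2) atTop (𝓝 0) := by
  obtain ⟨B, hB⟩ := hb
  refine TailAux.tends_of_le (K := 1) (a := 1 / 5) (by norm_num) ?_
  filter_upwards [hB, hc (1 / 30) (by norm_num), hh, eventually_ge_atTop 1, ev_le_log 1,
    ev_log_pow_le (|B| * (|C| * 2) * 31 * TailAux.Z (1 / 30) * 2) 3 (δ := 1 / 10) (by norm_num)]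
    with T hbT hcT hhT hT1 hL hK
  have hT0 : 0 < T := by linarith
  have hZ := TailAux.Z_nonneg (1 / 30)
  set L := Real.log T with hLd
  have key : ∀ k ∈ Finset.Icc 1 ⌊T⌋₊, ‖b T k / k * ∑' m : ℕ, c T m * h T (m / k)‖ ≤
      (|B| * (T ^ (1 / 30 : ℝ) * (|C| * 2 * L ^ 2) * 31 * T ^ (33 / 20 : ℝ) *
        TailAux.Z (1 / 30))) / k := by
    intro k hk
    obtain ⟨hk1, hkT⟩ := TailAux.mem_Icc hT0.le hk
    have hk0 : (0 : ℝ) < k := by linarith
    by_cases h0 : b T k = 0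
    · rw [h0, zero_div, zero_mul, norm_zero]
      positivity
    have hk2 : (k : ℝ) ≤ T ^ (1 / 2 : ℝ) :=
      ((hbT k).2 h0).2.trans (Real.rpow_le_rpow_of_exponent_le hT1 hθ.le)
    have hX : 0 < k * T := by positivity
    have hg : ∀ m : ℕ, m ≠ 0 → ‖h T (m / k)‖ ≤
        |C| * 2 * L ^ 2 * (1 + Real.log m) / (1 + m / (k * T)) ^ 2 := by
      intro m hm
      have hm1 : (1 : ℝ) ≤ m := by exact_mod_cast Nat.pos_of_ne_zero hm
      have hm0 : (0 : ℝ) < m := by linarith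
      refine (hhT _ (div_pos hm0 hk0)).trans ?_
      rw [div_div]
      refine div_le_div_of_nonneg_right ?_ (by positivity)
      have e1 := Real.log_nonneg hm1
      have e2 := Real.log_nonneg hk1
      have e3 : Real.log k ≤ L := Real.log_le_log hk0 hkT
      have e4 : 1 + |Real.log (m / k)| ≤ 2 * L * (1 + Real.log m) := by
        rw [Real.log_div hm0.ne' hk0.ne']
        have : |Real.log m - Real.log k| ≤ Real.log m + L := abs_le.2 ⟨by linarith, by linarith⟩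
        nlinarith
      calc C * ((1 + |Real.log (m / k)|) * L) ≤ |C| * ((2 * L * (1 + Real.log m)) * L) :=
            mul_le_mul (le_abs_self C) (mul_le_mul_of_nonneg_right e4 (by linarith))
              (by positivity) (abs_nonneg C)
        _ = _ := by ring
    have h1 := (TailAux.tsum_bd (A := T ^ (1 / 30 : ℝ)) (by positivity) (by positivity) hX
      (e := 1 / 30) (by norm_num) (by norm_num) hcT hg).2
    have h2 : (k * T : ℝ) ^ (1 + 3 * (1 / 30 : ℝ)) ≤ T ^ (33 / 20 : ℝ) := by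
      have e1 : (k * T : ℝ) ≤ T ^ (3 / 2 : ℝ) := by
        rw [show (3 / 2 : ℝ) = 1 / 2 + 1 by norm_num, Real.rpow_add hT0, Real.rpow_one]
        exact mul_le_mul_of_nonneg_right hk2 hT0.le
      refine (Real.rpow_le_rpow hX.le e1 (by norm_num)).trans (le_of_eq ?_)
      rw [← Real.rpow_mul hT0.le]
      norm_num
    rw [norm_mul, norm_div, Complex.norm_natCast, div_mul_eq_mul_div]
    refine div_le_div_of_nonneg_right (mul_le_mul ((hbT k).1.trans (le_abs_self B))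
      (h1.trans ?_) (norm_nonneg _) (abs_nonneg B)) hk0.le
    rw [show (1 + 1 / (1 / 30) : ℝ) = 31 by norm_num]
    gcongr
  have h3 := TailAux.sum_le' hT1 (by positivity) key
  rw [norm_div, norm_pow, Complex.norm_real, Real.norm_of_nonneg hT0.le, one_mul,
    div_le_iff₀ (by positivity)]
  refine h3.trans ?_
  have h4 : T ^ (1 / 10 : ℝ) * (T ^ (1 / 30 : ℝ) * T ^ (33 / 20 : ℝ)) ≤
      T ^ (-(1 / 5) : ℝ) * T ^ 2 := by
    rw [← Real.rpow_two, ← Real.rpow_add hT0, ← Real.rpow_add hT0, ← Real.rpow_add hT0]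
    exact Real.rpow_le_rpow_of_exponent_le hT1 (by norm_num)
  refine le_trans ?_ h4
  calc _ ≤ |B| * (T ^ (1 / 30 : ℝ) * (|C| * 2 * L ^ 2) * 31 * T ^ (33 / 20 : ℝ) *
        TailAux.Z (1 / 30)) * (2 * L) :=
        mul_le_mul_of_nonneg_left (by linarith) (by positivity)
    _ = (|B| * (|C| * 2) * 31 * TailAux.Z (1 / 30) * 2 * L ^ 3) *
        (T ^ (1 / 30 : ℝ) * T ^ (33 / 20 : ℝ)) := by ring
    _ ≤ _ := mul_le_mul_of_nonneg_right hK (by positivity)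

namespace TailAux

theorem G_summable {w : ℕ → ℕ → ℂ} (hw : ∀ k m, ‖w k m‖ ≤ 1 + (k : ℝ) ^ 2) {V : ℝ → ℂ}
    {M : ℂ → ℂ} (hV : Vcl V M) {c : ℝ → AF} (hc : Mod c) :
    ∀ᶠ T : ℝ in atTop, ∀ k ∈ Finset.Icc 1 ⌊T⌋₊,
      Summable fun m : ℕ => c T m * w k m * V (m / (k * T)) := by
  obtain ⟨C, hC, hb⟩ := hV.bd
  filter_upwards [summable_frac hc, eventually_gt_atTop 0] with T hT hT0 k hk
  obtain ⟨hk1, -⟩ := mem_Icc hT0.le hk
  have hX : 0 < k * T := by positivity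
  simpa only [mul_assoc] using hT (fun m => w k m * V (m / (k * T))) _ _ hX
    (weight_le hC (by positivity) hX (fun x hx => (hb x hx).1) (hw k))

theorem G_add {w : ℕ → ℕ → ℂ} (hw : ∀ k m, ‖w k m‖ ≤ 1 + (k : ℝ) ^ 2) {V : ℝ → ℂ}
    {M : ℂ → ℂ} (hV : Vcl V M) (b : ℝ → AF) {c c' : ℝ → AF} (hc : Mod c) (hc' : Mod c') :
    ∀ᶠ T : ℝ in atTop, G w V (b T) (c T + c' T : AF) T =
      G w V (b T) (c T) T + G w V (b T) (c' T) T := by
  filter_upwards [G_summable hw hV hc, G_summable hw hV hc'] with T h h'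
  simp only [G, ArithmeticFunction.add_apply, ← Finset.sum_add_distrib]
  refine Finset.sum_congr rfl fun k hk => ?_
  rw [← mul_add, ← (h k hk).tsum_add (h' k hk)]
  simp only [add_mul]

end TailAux

theorem ER_tail {V : ℝ → ℂ} {M : ℂ → ℂ} (hV : Vcl V M) {θ : ℝ} {b c c' : ℝ → AF} (hb : Moll θ b)
    (hc : Mod c) (hc' : Mod c')
    (h : ∀ᶠ T : ℝ in atTop, ∀ m : ℕ, (m : ℝ) ≤ T ^ 20 → c T m = c' T m) :
    Tendsto (fun T : ℝ => (ER V (b T) (c T) T - ER V (b T) (c' T) T) / T) atTop (𝓝 0) := by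
  obtain ⟨B, hB⟩ := hb
  obtain ⟨C, hC, hbd⟩ := hV.bd
  have hZ := TailAux.Z_nonneg (1 / 3)
  refine TailAux.tends_of_le (K := |B| * (2 * (2 * C) * 4 * TailAux.Z (1 / 3))) (a := 1 / 3)
    (by norm_num) ?_
  filter_upwards [hB, hc (1 / 63) (by norm_num), hc' (1 / 63) (by norm_num), h,
    eventually_ge_atTop 1, TailAux.G_summable TailAux.wE_le hV hc,
    TailAux.G_summable TailAux.wE_le hV hc'] with T hbT hcT hcT' hT hT1 hs hs'
  have hT0 : 0 < T := by linarith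
  have hd : ∀ m : ℕ, ‖c T m - c' T m‖ ≤ 2 * T ^ (-(19 / 3) : ℝ) * (m : ℝ) ^ (1 / 3 : ℝ) := by
    intro m
    by_cases hm : (m : ℝ) ≤ T ^ 20
    · rw [hT m hm, sub_self, norm_zero]
      positivity
    have hm' : T ^ (20 : ℝ) ≤ m := by
      rw [show (20 : ℝ) = (20 : ℕ) by norm_num, Real.rpow_natCast]
      exact (not_le.1 hm).le
    have hm0 : (0 : ℝ) < m := (Real.rpow_pos_of_pos hT0 _).trans_le hm'
    have e1 : T ^ (400 / 63 : ℝ) ≤ (m : ℝ) ^ (20 / 63 : ℝ) := by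
      refine le_trans (le_of_eq ?_) (Real.rpow_le_rpow (by positivity) hm' (by norm_num))
      rw [← Real.rpow_mul hT0.le]
      norm_num
    have e2 : T ^ (1 / 63 : ℝ) = T ^ (-(19 / 3) : ℝ) * T ^ (400 / 63 : ℝ) := by
      rw [← Real.rpow_add hT0]
      norm_num
    have e3 : (m : ℝ) ^ (1 / 3 : ℝ) = (m : ℝ) ^ (20 / 63 : ℝ) * (m : ℝ) ^ (1 / 63 : ℝ) := by
      rw [← Real.rpow_add hm0]
      norm_num
    have e4 : T ^ (1 / 63 : ℝ) * (m : ℝ) ^ (1 / 63 : ℝ) ≤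
        T ^ (-(19 / 3) : ℝ) * (m : ℝ) ^ (1 / 3 : ℝ) := by
      rw [e2, e3, mul_assoc]
      gcongr
    have := norm_sub_le (c T m) (c' T m)
    linarith [hcT m, hcT' m]
  rw [norm_div, Complex.norm_real, Real.norm_of_nonneg hT0.le, div_le_iff₀ hT0, ER, ER,
    ← Finset.sum_sub_distrib, mul_comm _ T]
  refine TailAux.sum_le hT0.le (by positivity) fun k hk => ?_
  obtain ⟨hk1, hkT⟩ := TailAux.mem_Icc hT0.le hk
  have hk0 : (0 : ℝ) < k := by linarith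
  have hX : 0 < k * T := by positivity
  have hw : ∀ m : ℕ, ‖((Real.cos (2 * π * (m / k)) : ℝ) : ℂ) - ram k m / k.totient‖ ≤
      2 * T ^ 2 := fun m => (TailAux.wE_le k m).trans (by nlinarith)
  have h1 := (TailAux.tsum_bd (by positivity) (by positivity) hX (e := 1 / 3) (by norm_num) le_rfl
    hd (TailAux.weight_le hC (by positivity) hX (fun x hx => (hbd x hx).1) hw)).2
  rw [← mul_sub, ← (hs k hk).tsum_sub (hs' k hk)]
  simp only [mul_assoc, ← sub_mul] at h1 ⊢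
  rw [norm_mul, norm_div, Complex.norm_natCast]
  refine mul_le_mul ((div_le_self (norm_nonneg _) hk1).trans
    ((hbT k).1.trans (le_abs_self B))) (h1.trans ?_) (norm_nonneg _) (abs_nonneg B)
  have h2 : (k * T : ℝ) ^ (1 + 3 * (1 / 3 : ℝ)) ≤ T ^ 4 := by
    rw [show (1 + 3 * (1 / 3 : ℝ)) = 2 by norm_num, Real.rpow_two,
      show T ^ 4 = (T * T) ^ 2 by ring]
    gcongr
  have h3 : T ^ (-(1 / 3) : ℝ) = T ^ (-(19 / 3) : ℝ) * T ^ 6 := by
    rw [← Real.rpow_natCast, ← Real.rpow_add hT0]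
    norm_num
  rw [show (1 + 1 / (1 / 3) : ℝ) = 4 by norm_num, h3]
  calc _ ≤ 2 * (T ^ (-(19 / 3) : ℝ) * (2 * (T ^ 2 * (C * (4 * (T ^ 4 *
        TailAux.Z (1 / 3))))))) := by gcongr
    _ = _ := by ring

theorem ELim.add {b c c' : ℝ → AF} (hc : Mod c) (hc' : Mod c') (h : ELim b c) (h' : ELim b c') :
    ELim b fun T => c T + c' T := by
  intro V M hV
  have h1 := (h V M hV).add (h' V M hV)
  rw [add_zero] at h1
  refine h1.congr' ?_
  filter_upwards [TailAux.G_add TailAux.wE_le hV b hc hc'] with T hT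
  rw [← add_div]
  exact congrArg (· / (T : ℂ)) hT.symm

theorem ELim.smul {b c : ℝ → AF} (h : ELim b c) {a : ℝ → ℂ} {B : ℝ}
    (ha : ∀ᶠ T : ℝ in atTop, ‖a T‖ ≤ B) : ELim b fun T => a T • c T := by
  intro V M hV
  have h1 := (h V M hV).norm.const_mul B
  rw [norm_zero, mul_zero] at h1
  refine squeeze_zero_norm' ?_ h1
  filter_upwards [ha] with T hT
  have e : ER V (b T) (a T • c T : AF) T = a T * ER V (b T) (c T) T := TailAux.G_smul _ V _ _ _ T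
  rw [e, mul_div_assoc, norm_mul]
  exact mul_le_mul_of_nonneg_right hT (norm_nonneg _)

theorem ELim.congr {b c c' : ℝ → AF} (h : ELim b c) (e : ∀ᶠ T : ℝ in atTop, c' T = c T) :
    ELim b c' := by
  intro V M hV
  refine (h V M hV).congr' ?_
  filter_upwards [e] with T hT
  rw [hT]

theorem MLim.add {b c c' : ℝ → AF} (hc : Mod c) (hc' : Mod c') {e : ℕ} {l l' : ℝ}
    (h : MLim b c e l) (h' : MLim b c' e l') : MLim b (fun T => c T + c' T) e (l + l') := by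
  intro V M hV
  have h1 := (h V M hV).add (h' V M hV)
  rw [← mul_add, ← Complex.ofReal_add] at h1
  refine h1.congr' ?_
  filter_upwards [TailAux.G_add TailAux.wM_le hV b hc hc'] with T hT
  rw [← add_div]
  exact congrArg (· / ((T * Real.log T ^ e : ℝ) : ℂ)) hT.symm

theorem MLim.smul {b c : ℝ → AF} {e : ℕ} {l : ℝ} (h : MLim b c e l) (a : ℝ) :
    MLim b (fun T => (a : ℂ) • c T) e (a * l) := by
  intro V M hV
  have h1 := (h V M hV).const_mul (a : ℂ)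
  rw [mul_left_comm, ← Complex.ofReal_mul] at h1
  refine h1.congr fun T => ?_
  have e : MT V (b T) ((a : ℂ) • c T : AF) T = a * MT V (b T) (c T) T :=
    TailAux.G_smul _ V _ _ _ T
  rw [e, mul_div_assoc]

theorem MLim.smul_div {b c : ℝ → AF} {e : ℕ} {l : ℝ} (h : MLim b c (e + 1) l) (a : ℝ) :
    MLim b (fun T => ((a : ℂ) / (Real.log T : ℝ)) • c T) e (a * l) := by
  intro V M hV
  have h1 := (h V M hV).const_mul (a : ℂ)
  rw [mul_left_comm, ← Complex.ofReal_mul] at h1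
  refine h1.congr fun T => ?_
  have e : MT V (b T) (((a : ℂ) / (Real.log T : ℝ)) • c T : AF) T =
      ((a : ℂ) / (Real.log T : ℝ)) * MT V (b T) (c T) T := TailAux.G_smul _ V _ _ _ T
  rw [e]
  simp only [Complex.ofReal_mul, Complex.ofReal_pow, div_eq_mul_inv, mul_inv, pow_succ]
  ring

theorem MLim.congr {b c c' : ℝ → AF} {e : ℕ} {l : ℝ} (h : MLim b c e l)
    (hc : ∀ᶠ T : ℝ in atTop, c' T = c T) : MLim b c' e l := by
  intro V M hV
  refine (h V M hV).congr' ?_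
  filter_upwards [hc] with T hT
  rw [hT]

end Pool.Agent.P.MP_7eacff_nt.SZ
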