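import Pool.Agent.P.MP_7eacff_nt.SZ.Pair
import Pool.Agent.P.MP_7eacff_nt.SZ.PRepA
import Pool.Agent.P.MP_7eacff_nt.SZ.PRepB
import Pool.Agent.P.MP_7eacff_nt.SZ.ILap
import Pool.Agent.P.MP_7eacff_nt.SZ.Tail

/-!
Main terms without the second mollifier.
-/

open Complex Filter Topology MeasureTheory Set
open scoped Real ContDiff

namespace Pool.Agent.P.MP_7eacff_nt.SZ

open Pool.Agent.Lib.LargeSieve (primSet mem_primSet)

variable {θ η : ℝ} {F κ : ℝ → ℝ}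

namespace SevenAAux

theorem MT_smul (V : ℝ → ℂ) (b : ℕ → ℂ) (a : ℂ) (c : AF) (T : ℝ) :
    MT V b (a • c : AF) T = a * MT V b c T := by
  unfold MT
  rw [Finset.mul_sum]
  refine Finset.sum_congr rfl fun k _ => ?_
  simp only [smul_apply', mul_assoc a, tsum_mul_left]
  ring

theorem of_pair (h : Adm θ η F κ) {f₁ f₂ c : ℝ → AF} {S₁ S₂ : ℂ → ℂ → ℂ} (h₁ : PRep f₁ S₁)
    (h₂ : PRep f₂ S₂) {e : ℕ} {l : ℝ}
    (hc : ∀ T, f₁ T * f₂ T * lg = (1 / (Real.log T : ℝ) : ℂ) ^ e • c T)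
    (hl : (av F fun z => IL fun σ => S₁ σ z * S₂ σ z / σ ^ 2) = l) :
    MLim (bF F) c (e + 1) l := fun V M hV => by
  have := lim_pair h.tF (fun r hr => h.sF r (by linarith [h.hθη, h.hη])) h₁ h₂ hV
  rw [hl] at this
  refine this.congr fun T => ?_
  rw [hc, MT_smul]
  push_cast
  ring

theorem av_mix (hF : Tst F) (hκ : Tst κ) (a b a' b' : ℝ) :
    av F (fun z => a / z + b + (a' / z + b') * Lap κ z) =
      ((a * ip F + b * F 0 + (a' * ip (fun r => κ r * tl F r) + b' * ip fun r => κ r * F r) : ℝ) :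
        ℂ) := by
  have h0 : ∀ ξ : ℝ, (1 + ξ * I : ℂ) ≠ 0 := fun ξ h => by simpa using congrArg Complex.re h
  have hc : ∀ a b : ℝ, Continuous fun ξ : ℝ => (a / (1 + ξ * I) + b : ℂ) := fun a b =>
    (continuous_const.div (by fun_prop) h0).add continuous_const
  have hb : ∀ (a b : ℝ) (s : ℂ), 1 ≤ s.re → ‖(a / s + b : ℂ)‖ ≤ ‖(a : ℂ)‖ + ‖(b : ℂ)‖ :=
    fun a b s hs => by
      refine (norm_add_le _ _).trans (add_le_add ?_ le_rfl)
      rw [norm_div]
      exact div_le_self (norm_nonneg _) (hs.trans (Complex.re_le_norm s))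
  obtain ⟨C, hC⟩ := norm_Lap_le hκ
  have i1 := av_integrable hF (g := fun z => a / z + b) (hc a b)
    ⟨_, 0, fun s hs _ => by simpa only [pow_zero, mul_one] using hb a b s hs⟩
  have i2 := av_integrable hF (g := fun z => (a' / z + b') * Lap κ z)
    ((hc a' b').mul ((continuous_Lap hκ).comp (by fun_prop)))
    ⟨(‖(a' : ℂ)‖ + ‖(b' : ℂ)‖) * C, 0, fun s hs _ => by
      rw [pow_zero, mul_one, norm_mul]
      exact mul_le_mul (hb a' b' s hs) (hC s (by linarith)) (norm_nonneg _) (by positivity)⟩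
  have e1 := av_poly hF a b 0
  have e2 := av_Lap hF hκ a' b' 0 0
  simp only [Complex.ofReal_zero, zero_mul, add_zero, sub_zero] at e1 e2
  rw [Complex.ofReal_add, ← e1, ← e2]
  unfold av
  rw [← integral_add i1 i2]
  simp only [mul_add]

end SevenAAux

open SevenAAux

theorem mlim_one (h : Adm θ η F κ) : MLim (bF F) (fun _ => lg) 1 (F 0) := by
  refine of_pair h prep_one prep_one (e := 0) (fun T => by simp) ?_
  rw [av_congr F (g' := fun z => (0 : ℝ) / z + (1 : ℝ) + ((0 : ℝ) / z + (0 : ℝ)) * Lap κ z)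
    fun z _ => ?_, av_mix h.tF h.tκ]
  · simp
  · rw [IL_congr (g' := fun σ => 1 / σ ^ 2 + 0 / σ ^ 3 + 0 / σ ^ 4 + 0 / σ ^ 5)
      fun σ _ => by ring, IL_poly]
    simp

theorem mlim_two (h : Adm θ η F κ) : MLim (bF F) (fun _ => lg * vm) 2 (m2 F) := by
  refine of_pair h prep_one prep_vm (e := 1) (fun T => ?_) ?_
  · rw [one_mul, smul_mul_assoc, pow_one, mul_comm vm lg]
  rw [av_congr F (g' := fun z => (-1 : ℝ) / z + (1 / 2 : ℝ) + ((0 : ℝ) / z + (0 : ℝ)) * Lap κ z)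
    fun z _ => ?_, av_mix h.tF h.tκ]
  · unfold m2
    congr 1
    ring
  · rw [IL_congr (g' := fun σ => (-1 / z) / σ ^ 2 + 1 / σ ^ 3 + 0 / σ ^ 4 + 0 / σ ^ 5)
      fun σ _ => by ring, IL_poly]
    push_cast
    ring

theorem mlim_three (h : Adm θ η F κ) : MLim (bF F) (fun T => aP κ T * lg) 2 (m3 F κ) := by
  refine of_pair h (prep_aP h.tκ) prep_one (e := 1) (fun T => ?_) ?_
  · rw [mul_one, smul_mul_assoc, pow_one]
  rw [av_congr F (g' := fun z => (0 : ℝ) / z + ip (fun v => κ v * (1 - v)) +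
    ((0 : ℝ) / z + (-1 : ℝ)) * Lap κ z) fun z _ => ?_, av_mix h.tF h.tκ]
  · unfold m3
    congr 1
    ring
  · rw [IL_congr (g' := fun σ => (1 / σ ^ 2 + 0 / σ ^ 3) * Lap κ σ +
      ((-Lap κ z) / σ ^ 2 + 0 / σ ^ 3)) fun σ _ => by ring,
      IL_Lap h.tκ fun v hv => h.sκ v (by linarith [h.hη])]
    push_cast
    ring

theorem mlim_four (h : Adm θ η F κ) : MLim (bF F) (fun T => aP κ T * lg * vm) 3 (m4 F κ) := by
  refine of_pair h (prep_aP h.tκ) prep_vm (e := 2) (fun T => ?_) ?_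
  · rw [smul_mul_smul_comm, smul_mul_assoc, sq, mul_right_comm]
  rw [av_congr F (g' := fun z => (-ip (fun v => κ v * (1 - v)) : ℝ) / z +
    (ip (fun v => κ v * (1 - v) ^ 2) / 2 : ℝ) + ((1 : ℝ) / z + (-1 / 2 : ℝ)) * Lap κ z)
    fun z _ => ?_, av_mix h.tF h.tκ]
  · unfold m4
    congr 1
    ring
  · rw [IL_congr (g' := fun σ => ((-1 / z) / σ ^ 2 + 1 / σ ^ 3) * Lap κ σ +
      ((Lap κ z / z) / σ ^ 2 + (-Lap κ z) / σ ^ 3)) fun σ _ => by ring,
      IL_Lap h.tκ fun v hv => h.sκ v (by linarith [h.hη])]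
    push_cast
    ring

end Pool.Agent.P.MP_7eacff_nt.SZ
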