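import Pool.Agent.P.MP_7eacff_nt.SZ.Pair
import Pool.Agent.P.MP_7eacff_nt.SZ.PRepA
import Pool.Agent.P.MP_7eacff_nt.SZ.PRepB
import Pool.Agent.P.MP_7eacff_nt.SZ.ILap
import Pool.Agent.P.MP_7eacff_nt.SZ.Tail

/-!
Main terms with two mollifiers.
-/

open Complex Filter Topology MeasureTheory Set
open scoped Real ContDiff

namespace Pool.Agent.P.MP_7eacff_nt.SZ

open Pool.Agent.Lib.LargeSieve (primSet mem_primSet)

variable {θ η : ℝ} {F κ : ℝ → ℝ}

namespace SevenBAux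

theorem MT_smul (V : ℝ → ℂ) (b : ℕ → ℂ) (a : ℂ) (c : AF) (T : ℝ) :
    MT V b (a • c : AF) T = a * MT V b c T := by
  simp only [MT, Finset.mul_sum, ArithmeticFunction.smul_map, smul_eq_mul, mul_assoc,
    tsum_mul_left]
  exact Finset.sum_congr rfl fun k _ => by ring

theorem of_pair (h : Adm θ η F κ) {f₁ f₂ c : ℝ → AF} {S₁ S₂ : ℂ → ℂ → ℂ} (h₁ : PRep f₁ S₁)
    (h₂ : PRep f₂ S₂) {e : ℕ} {l : ℝ}
    (hc : ∀ T : ℝ, f₁ T * f₂ T * lg = ((1 / (Real.log T : ℝ) : ℂ) ^ e) • c T)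
    (hl : (av F fun z => IL fun σ => S₁ σ z * S₂ σ z / σ ^ 2) = l) :
    MLim (bF F) c (e + 1) l := by
  intro V M hV
  have h1 : ∀ r, 1 < r → F r = 0 := fun r hr => h.sF r (by linarith [h.hθη, h.hη, h.hθ])
  have := lim_pair h.tF h1 h₁ h₂ hV
  rw [hl] at this
  refine this.congr fun T => ?_
  rw [hc, MT_smul]
  push_cast
  rw [pow_succ]
  ring

theorem cont_poly (a b c d : ℝ) : Continuous fun ξ : ℝ =>
    (a / (1 + ξ * I) + b + c * (1 + ξ * I) + d * (1 + ξ * I) ^ 2 : ℂ) := by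
  have hz : ∀ ξ : ℝ, (1 + ξ * I : ℂ) ≠ 0 := fun ξ h => by simpa using congrArg re h
  have : Continuous fun ξ : ℝ => (a / (1 + ξ * I) : ℂ) :=
    continuous_const.div (by fun_prop) hz
  fun_prop

theorem norm_poly (a b c d : ℝ) {z : ℂ} (hz : z.re = 1) :
    ‖(a / z + b + c * z + d * z ^ 2 : ℂ)‖ ≤ (|a| + |b| + |c| + |d|) * (1 + |z.im|) ^ 2 := by
  have h1 : 1 ≤ ‖z‖ := hz ▸ re_le_norm z
  have h2 : ‖z‖ ≤ 1 + |z.im| := by simpa [hz] using norm_le_abs_re_add_abs_im z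
  have h3 : (1 : ℝ) ≤ (1 + |z.im|) ^ 2 := one_le_pow₀ (h1.trans h2)
  have h4 : ‖z‖ ^ 2 ≤ (1 + |z.im|) ^ 2 := by gcongr
  have h5 : ‖z‖ ≤ (1 + |z.im|) ^ 2 := by nlinarith
  have ha : ‖(a / z : ℂ)‖ ≤ |a| * (1 + |z.im|) ^ 2 := by
    rw [norm_div, norm_real, Real.norm_eq_abs]
    exact (div_le_self (abs_nonneg a) h1).trans (le_mul_of_one_le_right (abs_nonneg a) h3)
  have hb : ‖(b : ℂ)‖ ≤ |b| * (1 + |z.im|) ^ 2 := by
    rw [norm_real, Real.norm_eq_abs]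
    exact le_mul_of_one_le_right (abs_nonneg b) h3
  have hc : ‖(c * z : ℂ)‖ ≤ |c| * (1 + |z.im|) ^ 2 := by
    rw [norm_mul, norm_real, Real.norm_eq_abs]
    gcongr
  have hd : ‖(d * z ^ 2 : ℂ)‖ ≤ |d| * (1 + |z.im|) ^ 2 := by
    rw [norm_mul, norm_real, Real.norm_eq_abs, norm_pow]
    gcongr
  have e1 := norm_add_le (a / z + b + c * z : ℂ) (d * z ^ 2)
  have e2 := norm_add_le (a / z + b : ℂ) (c * z)
  have e3 := norm_add_le (a / z : ℂ) b
  linarith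

theorem av_comb (hF : Tst F) (a b c a' b' c' d' : ℝ) :
    av F (fun z => (a / z + b + c * z) + (a' / z + b' + c' * z + d' * z ^ 2) * Lap F z) =
      ((a * ip F + b * F 0 - c * deriv F 0 + (a' * (ip F ^ 2 / 2) + b' * ip (fun r => F r ^ 2) +
        c' * (F 0 ^ 2 / 2) - d' * (F 0 * deriv F 0 + ip fun r => deriv F r ^ 2)) : ℝ) : ℂ) := by
  have i1 : Integrable fun ξ : ℝ =>
      fd F ξ * (fun z : ℂ => (a / z + b + c * z : ℂ)) (1 + ξ * I) := by
    refine av_integrable hF (g := fun z : ℂ => (a / z + b + c * z : ℂ))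
      (by simpa using cont_poly a b c 0)
      ⟨|a| + |b| + |c|, 2, fun s h1 h2 => ?_⟩
    simpa using norm_poly a b c 0 (le_antisymm h2 h1)
  have i2 : Integrable fun ξ : ℝ => fd F ξ *
      (fun z : ℂ => (a' / z + b' + c' * z + d' * z ^ 2 : ℂ) * Lap F z) (1 + ξ * I) := by
    obtain ⟨C, hC⟩ := norm_Lap_le hF
    have cl : Continuous fun ξ : ℝ => Lap F (1 + ξ * I) :=
      (continuous_Lap hF).comp (by fun_prop)
    refine av_integrable hF
      (g := fun z : ℂ => (a' / z + b' + c' * z + d' * z ^ 2 : ℂ) * Lap F z)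
      ((cont_poly a' b' c' d').mul cl)
      ⟨(|a'| + |b'| + |c'| + |d'|) * C, 2, fun s h1 h2 => ?_⟩
    rw [norm_mul, mul_right_comm]
    exact mul_le_mul (norm_poly a' b' c' d' (le_antisymm h2 h1)) (hC s (by linarith))
      (norm_nonneg _) (by positivity)
  have e := integral_add i1 i2
  have e1 := av_poly hF a b c
  have e2 := av_Lap hF hF a' b' c' d'
  rw [ip_mul_deriv hF, ip_mul_deriv_two hF, ip_mul_tl hF] at e2
  simp only [← sq] at e2
  unfold av at e1 e2 ⊢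
  simp only [mul_add (fd F _)] at e ⊢
  rw [e]
  simp only [← mul_add (fd F _)]
  rw [e1, e2]
  push_cast
  ring

theorem ne_half {σ : ℂ} (h : σ.re = 1 / 2) : σ ≠ 0 := fun h0 => by
  rw [h0] at h
  norm_num at h

theorem ne_one {z : ℂ} (h : z.re = 1) : z ≠ 0 := fun h0 => by
  rw [h0] at h
  norm_num at h

end SevenBAux

open SevenBAux

theorem mlim_five (h : Adm θ η F κ) : MLim (bF F) (fun T => bF F T * un * lg) 1 (m5 F) := by
  refine of_pair (e := 0) h (prep_bun h.tF) prep_one (fun T => by simp) ?_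
  rw [av_congr F (g' := fun z => ((0 : ℝ) / z + (0 : ℝ) + (F 0 / 2 : ℝ) * z) +
    ((0 : ℝ) / z + (0 : ℝ) + (1 : ℝ) * z + (-(1 / 2) : ℝ) * z ^ 2) * Lap F z) fun z hz => ?_,
    av_comb h.tF, m5]
  · push_cast
    ring
  · rw [IL_congr (g' := fun σ => z * Lap F z / σ ^ 2 + z * (F 0 - z * Lap F z) / σ ^ 3 +
      0 / σ ^ 4 + 0 / σ ^ 5) fun σ hσ => ?_, IL_poly]
    · push_cast
      ring
    · have := ne_half hσ
      field_simp
      ring

theorem mlim_six (h : Adm θ η F κ) : MLim (bF F) (fun T => bF F T * lg * lg) 2 (m6 F) := by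
  refine of_pair (e := 1) h (prep_blg h.tF) prep_one (fun T => by simp) ?_
  rw [av_congr F (g' := fun z => ((0 : ℝ) / z + (-(F 0 / 2) : ℝ) + (F 0 / 6 : ℝ) * z) +
    ((0 : ℝ) / z + (-1 : ℝ) + (1 : ℝ) * z + (-(1 / 6) : ℝ) * z ^ 2) * Lap F z) fun z hz => ?_,
    av_comb h.tF, m6]
  · push_cast
    ring
  · rw [IL_congr (g' := fun σ => -Lap F z / σ ^ 2 + (2 * z * Lap F z - F 0) / σ ^ 3 +
      z * (F 0 - z * Lap F z) / σ ^ 4 + 0 / σ ^ 5) fun σ hσ => ?_, IL_poly]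
    · push_cast
      ring
    · have := ne_half hσ
      field_simp
      ring

theorem mlim_seven (h : Adm θ η F κ) :
    MLim (bF F) (fun T => bF F T * lg * lg * vm) 3 (m7 F) := by
  refine of_pair (e := 2) h (prep_blg h.tF) prep_vm (fun T => ?_) ?_
  · rw [smul_mul_smul_comm, smul_mul_assoc, sq, mul_right_comm (bF F T * lg)]
  rw [av_congr F (g' := fun z => ((F 0 / 2 : ℝ) / z + (-(F 0 / 3) : ℝ) + (F 0 / 24 : ℝ) * z) +
    ((1 : ℝ) / z + (-(3 / 2) : ℝ) + (1 / 2 : ℝ) * z + (-(1 / 24) : ℝ) * z ^ 2) * Lap F z)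
    fun z hz => ?_, av_comb h.tF, m7]
  · push_cast
    ring
  · rw [IL_congr (g' := fun σ => Lap F z / z / σ ^ 2 + (F 0 / z - 3 * Lap F z) / σ ^ 3 +
      (3 * z * Lap F z - 2 * F 0) / σ ^ 4 + z * (F 0 - z * Lap F z) / σ ^ 5) fun σ hσ => ?_,
      IL_poly]
    · push_cast
      ring
    · have := ne_half hσ
      have := ne_one hz
      field_simp
      ring

end Pool.Agent.P.MP_7eacff_nt.SZ
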