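import Pool.Agent.P.MP_7eacff_nt.SZ.ErrMain
import Pool.Agent.P.MP_7eacff_nt.SZ.SevenA
import Pool.Agent.P.MP_7eacff_nt.SZ.SevenB

/-!
The four coefficient sequences that occur.
-/

open Complex Filter Topology MeasureTheory Set
open scoped Real ContDiff

namespace Pool.Agent.P.MP_7eacff_nt.SZ

open Pool.Agent.Lib.LargeSieve (primSet mem_primSet)

variable {θ η : ℝ} {F κ : ℝ → ℝ}

namespace CombAux

theorem l0 : Lam 1 := Or.inl rfl

theorem l1 : Lam un := Or.inr (Or.inl rfl)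

theorem l2 : Lam lg := Or.inr (Or.inr (Or.inl rfl))

theorem l3 : Lam vm := Or.inr (Or.inr (Or.inr rfl))

theorem smul_mul (c : ℂ) (f g : AF) : c • f * g = c • (f * g) := by
  ext n
  simp only [smul_apply', ArithmeticFunction.mul_apply, Finset.mul_sum, mul_assoc]

theorem inv_log : ∀ᶠ T : ℝ in atTop, ‖(1 / (Real.log T : ℝ) : ℂ)‖ ≤ 1 := by
  filter_upwards [ev_le_log 1] with T hT
  rw [norm_div, norm_one, Complex.norm_real, Real.norm_of_nonneg (by linarith)]
  exact div_le_one_of_le₀ hT (by linarith)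

theorem moll (h : Adm θ η F κ) : Moll θ (bF F) := moll_bF h.tF h.sF

theorem tB (h : Adm θ η F κ) : Tame (bF F) :=
  (moll h).tame (by linarith [h.hθ, h.hη, h.hθη])

theorem sB (h : Adm θ η F κ) : Supp (1 - η) (bF F) :=
  (moll h).supp (by linarith [h.hθ, h.hη, h.hθη])

theorem tA (h : Adm θ η F κ) : Tame (aA κ) :=
  tame_aA h.tκ fun v hv => h.sκ v (by linarith [h.hη])

theorem sA (h : Adm θ η F κ) : Supp (1 - η) (aA κ) :=
  supp_aA (by linarith [h.hθ, h.hη, h.hθη]) h.sκ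

theorem tP (h : Adm θ η F κ) : Tame (aP κ) :=
  tame_aP h.tκ fun v hv => h.sκ v (by linarith [h.hη])

theorem mA (h : Adm θ η F κ) : Mod (aA κ) := (tA h).mod

theorem mB (h : Adm θ η F κ) : Mod (bF F) := (tB h).mod

theorem mP (h : Adm θ η F κ) : Mod (aP κ) := (tP h).mod

theorem eA (h : Adm θ η F κ) {l₁ l₂ l₃ : AF} (h₁ : Lam l₁) (h₂ : Lam l₂) (h₃ : Lam l₃) :
    ELim (bF F) fun T => aA κ T * l₁ * l₂ * l₃ :=
  elim_main h.hθ h.hη h.hθη (moll h) (tA h) (sA h) h₁ h₂ h₃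

theorem eB (h : Adm θ η F κ) {l₁ l₂ l₃ : AF} (h₁ : Lam l₁) (h₂ : Lam l₂) (h₃ : Lam l₃) :
    ELim (bF F) fun T => bF F T * l₁ * l₂ * l₃ :=
  elim_main h.hθ h.hη h.hθη (moll h) (tB h) (sB h) h₁ h₂ h₃

theorem fF_mul (F κ : ℝ → ℝ) (T : ℝ) (g : AF) : fF F κ T * g =
    aA κ T * g + (1 / (Real.log T : ℝ) : ℂ) • (bF F T * lg * g) := by
  rw [fF, add_mul, smul_mul]

theorem fF_mul' (F κ : ℝ → ℝ) (T : ℝ) (g : AF) : fF F κ T * g =
    ((a0 κ : ℝ) : ℂ) • g + (((-2 : ℝ) : ℂ) / (Real.log T : ℝ)) • (aP κ T * g) +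
      (((1 : ℝ) : ℂ) / (Real.log T : ℝ)) • (bF F T * lg * g) := by
  rw [fF_mul, aA, sub_mul, smul_mul, smul_mul, one_mul, ofReal_one, ofReal_neg, ofReal_ofNat,
    neg_div, neg_smul, sub_eq_add_neg]

theorem div_log (a : ℝ) : ∀ᶠ T : ℝ in atTop, ‖((a : ℂ) / (Real.log T : ℝ))‖ ≤ |a| := by
  filter_upwards [ev_le_log 1] with T hT
  rw [norm_div, Complex.norm_real, Complex.norm_real, Real.norm_of_nonneg (r := Real.log T)
    (by linarith)]
  exact div_le_self (norm_nonneg _) hT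

theorem mlim (h : Adm θ η F κ) {g : AF} (hg : Mod fun _ => g) {e : ℕ} {x y z : ℝ}
    (hx : MLim (bF F) (fun _ => g) e x) (hy : MLim (bF F) (fun T => aP κ T * g) (e + 1) y)
    (hz : MLim (bF F) (fun T => bF F T * lg * g) (e + 1) z) :
    MLim (bF F) (fun T => fF F κ T * g) e (a0 κ * x - 2 * y + z) := by
  have m1 : Mod fun _ : ℝ => ((a0 κ : ℝ) : ℂ) • g :=
    hg.smul (a := fun _ => ((a0 κ : ℝ) : ℂ)) (Eventually.of_forall fun _ => le_rfl)
  have m2 := ((mP h).mul hg).smul (div_log (-2))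
  have m3 := (((mB h).mul (Lam.mod l2)).mul hg).smul (div_log 1)
  have a := MLim.add (m1.add m2) m3 (MLim.add m1 m2 (hx.smul (a0 κ)) (hy.smul_div (-2)))
    (hz.smul_div 1)
  have e' : a0 κ * x - 2 * y + z = a0 κ * x + -2 * y + 1 * z := by ring
  rw [e']
  exact a.congr (Eventually.of_forall fun T => fF_mul' F κ T g)

end CombAux

theorem mod_fF (h : Adm θ η F κ) : Mod (fF F κ) :=
  (CombAux.mA h).add (((CombAux.mB h).mul (Lam.mod CombAux.l2)).smul CombAux.inv_log)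

theorem comb_one (h : Adm θ η F κ) : Mod (fun T => bF F T * un * lg) ∧
    ELim (bF F) (fun T => bF F T * un * lg) :=
  ⟨((CombAux.mB h).mul (Lam.mod CombAux.l1)).mul (Lam.mod CombAux.l2),
    (CombAux.eB h CombAux.l1 CombAux.l2 CombAux.l0).congr
      (Eventually.of_forall fun _ => (mul_one _).symm)⟩

theorem comb_two (h : Adm θ η F κ) : Mod (fun T => bF F T * lg * lg) ∧
    ELim (bF F) (fun T => bF F T * lg * lg) :=
  ⟨((CombAux.mB h).mul (Lam.mod CombAux.l2)).mul (Lam.mod CombAux.l2),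
    (CombAux.eB h CombAux.l2 CombAux.l2 CombAux.l0).congr
      (Eventually.of_forall fun _ => (mul_one _).symm)⟩

theorem comb_three (h : Adm θ η F κ) : Mod (fun T => fF F κ T * lg) ∧
    ELim (bF F) (fun T => fF F κ T * lg) ∧
    MLim (bF F) (fun T => fF F κ T * lg) 1 (a0 κ * F 0 - 2 * m3 F κ + m6 F) := by
  refine ⟨(mod_fF h).mul (Lam.mod CombAux.l2), ?_,
    CombAux.mlim h (Lam.mod CombAux.l2) (mlim_one h) (mlim_three h) (mlim_six h)⟩
  have e1 : ELim (bF F) fun T => aA κ T * lg :=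
    (CombAux.eA h CombAux.l2 CombAux.l0 CombAux.l0).congr
      (Eventually.of_forall fun _ => by rw [mul_one, mul_one])
  exact (ELim.add ((CombAux.mA h).mul (Lam.mod CombAux.l2)) ((comb_two h).1.smul CombAux.inv_log)
    e1 ((comb_two h).2.smul CombAux.inv_log)).congr
    (Eventually.of_forall fun T => CombAux.fF_mul F κ T lg)

theorem comb_four (h : Adm θ η F κ) : Mod (fun T => fF F κ T * lg * vm) ∧
    ELim (bF F) (fun T => fF F κ T * lg * vm) ∧
    MLim (bF F) (fun T => fF F κ T * lg * vm) 2 (a0 κ * m2 F - 2 * m4 F κ + m7 F) := by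
  have hg : Mod fun _ => lg * vm := (Lam.mod CombAux.l2).mul (Lam.mod CombAux.l3)
  refine ⟨((mod_fF h).mul (Lam.mod CombAux.l2)).mul (Lam.mod CombAux.l3), ?_, ?_⟩
  · have e1 : ELim (bF F) fun T => aA κ T * (lg * vm) :=
      (CombAux.eA h CombAux.l2 CombAux.l3 CombAux.l0).congr
        (Eventually.of_forall fun _ => by rw [mul_one, mul_assoc])
    have e2 : ELim (bF F) fun T => bF F T * lg * (lg * vm) :=
      (CombAux.eB h CombAux.l2 CombAux.l2 CombAux.l3).congr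
        (Eventually.of_forall fun _ => (mul_assoc _ _ _).symm)
    exact (ELim.add ((CombAux.mA h).mul hg)
      ((((CombAux.mB h).mul (Lam.mod CombAux.l2)).mul hg).smul CombAux.inv_log)
      e1 (e2.smul CombAux.inv_log)).congr
      (Eventually.of_forall fun T => (mul_assoc _ _ _).trans (CombAux.fF_mul F κ T (lg * vm)))
  · exact (CombAux.mlim h hg (mlim_two h)
      ((mlim_four h).congr (Eventually.of_forall fun _ => (mul_assoc _ _ _).symm))
      ((mlim_seven h).congr (Eventually.of_forall fun _ => (mul_assoc _ _ _).symm))).congr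
      (Eventually.of_forall fun _ => mul_assoc _ _ _)

end Pool.Agent.P.MP_7eacff_nt.SZ
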