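import Pool.Agent.P.MP_7eacff_nt.SZ.Basic

/-!
The expansion of the logarithmic derivative of xi over the zeros.
-/

open Complex Filter Topology MeasureTheory Set
open scoped Real ContDiff

namespace Pool.Agent.P.MP_7eacff_nt.SZ

open Pool.Agent.Lib.LargeSieve (primSet mem_primSet)

namespace FracAux

theorem order_eq (y : ℝ) : analyticOrderNatAt xi (1 / 2 + y * I) = mult y := by
  rw [mult, analyticOrderNatAt, analyticOrderNatAt, order_xi (by simp)]
  intro h
  have := congrArg re h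
  norm_num at this

theorem lim (hRH : RiemannHypothesis) {s s' : ℂ} (hfs : xi s ≠ 0) (hfs' : xi s' ≠ 0) :
    ∃ F : ℕ → Finset Ord, Tendsto F atTop atTop ∧ Tendsto (fun k => ∑ y ∈ F k, (mult y : ℂ) *
      (1 / (s - (1 / 2 + (y : ℝ) * I)) - 1 / (s' - (1 / 2 + (y : ℝ) * I)))) atTop
      (𝓝 (logDeriv xi s - logDeriv xi s')) := by
  classical
  set F : ℕ → Finset Ord := fun k => (finite_ord k).toFinset with hF
  have hFt : Tendsto F atTop atTop := by
    refine Monotone.tendsto_atTop_finset (fun a b hab y hy => ?_) fun y => ?_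
    · simp only [hF, Set.Finite.mem_toFinset, mem_ofPred_eq] at hy ⊢
      exact hy.trans (by exact_mod_cast hab)
    · simpa [hF] using exists_nat_ge ‖(2⁻¹ + (y : ℝ) * I : ℂ) - 2‖
  refine ⟨F, hFt, ?_⟩
  obtain ⟨C, hC1, hC⟩ := exists_bound_xi
  have h2 : xi 2 ≠ 0 := xi_ne_zero (by simp)
  have h2' : 0 < ‖xi 2‖ := norm_pos_iff.2 h2
  set M : ℕ → ℝ := fun k => Real.log (C / ‖xi 2‖ + 1) + (((2 * k + 3 : ℕ) : ℝ) + 2) *
    Real.log (((2 * k + 3 : ℕ) : ℝ) + 1) with hM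
  have hMt : Tendsto (fun k : ℕ => 64 * M k / (k : ℝ) ^ 2 * ‖s - s'‖) atTop (𝓝 0) := by
    have h0 : Tendsto (fun k : ℕ => Real.log (C / ‖xi 2‖ + 1) / (k : ℝ) ^ 2) atTop (𝓝 0) :=
      tendsto_const_nhds.div_atTop
        ((tendsto_pow_atTop two_ne_zero).comp tendsto_natCast_atTop_atTop)
    have := ((h0.add tendsto_M).const_mul 64).mul_const ‖s - s'‖
    simp only [add_zero, mul_zero, zero_mul] at this
    refine this.congr fun k => ?_
    simp only [hM]; ring
  rw [tendsto_iff_norm_sub_tendsto_zero]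
  refine squeeze_zero' (Eventually.of_forall fun _ => norm_nonneg _) ?_ hMt
  obtain ⟨k0, hk0⟩ := exists_nat_ge (4 * (‖s - 2‖ + ‖s' - 2‖))
  filter_upwards [eventually_ge_atTop k0, eventually_ge_atTop 1] with k hk hk1
  have hk' : (k0 : ℝ) ≤ k := by exact_mod_cast hk
  have hk1' : (1 : ℝ) ≤ k := by exact_mod_cast hk1
  have hlog : 0 ≤ Real.log (C / ‖xi 2‖ + 1) :=
    Real.log_nonneg (le_add_of_nonneg_left (by positivity))
  have hMpos : 0 < M k := by
    have : 0 < Real.log (((2 * k + 3 : ℕ) : ℝ) + 1) :=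
      Real.log_pos (by push_cast; linarith only [hk1'])
    simp only [hM]; positivity
  have hL := landau xi differentiable_xi 2 h2 (R := k) (M := M k) (by linarith only [hk1']) hMpos
    (fun z hz => by
      have h3 : ‖z‖ + 1 ≤ ((2 * k + 3 : ℕ) : ℝ) := by
        have : ‖z‖ ≤ ‖z - 2‖ + ‖(2 : ℂ)‖ := norm_le_norm_sub_add _ _
        have h22 : ‖(2 : ℂ)‖ = 2 := by simp
        push_cast; linarith only [hz, this, h22]
      refine (hC _ (by omega) z h3).trans ?_
      simp only [hM]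
      rw [Real.exp_add, Real.exp_log (by positivity), mul_comm (((2 * k + 3 : ℕ) : ℝ) + 2),
        ← Real.rpow_def_of_pos (by positivity), ← mul_assoc]
      have e : ((((2 * k + 3 : ℕ) : ℝ) + 2)) = ((2 * k + 3 + 2 : ℕ) : ℝ) := by push_cast; ring
      rw [e, Real.rpow_natCast]
      gcongr
      rw [mul_add, mul_div_cancel₀ _ h2'.ne']
      linarith only [h2'])
    ((F k).image fun y : Ord => (1 / 2 + (y : ℝ) * I : ℂ))
    (fun z hz h0 => by
      have hre := re_eq_of_xi hRH h0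
      have hz' : z = 1 / 2 + (z.im : ℝ) * I := by
        apply Complex.ext <;> simp [hre]
      refine Finset.mem_image.2 ⟨⟨z.im, ?_⟩, ?_, hz'.symm⟩
      · rw [← hz']; exact (zeta_eq_zero_of_xi (by rw [hre]; norm_num) h0).2
      · simp only [hF, Set.Finite.mem_toFinset, mem_ofPred_eq]
        rw [← hz']; exact hz.le)
    (fun z hz => by
      obtain ⟨y, hy, rfl⟩ := Finset.mem_image.1 hz
      simpa [hF] using hy)
    (s := s) (s' := s') (by linarith only [hk0, hk', norm_nonneg (s' - 2)])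
    (by linarith only [hk0, hk', norm_nonneg (s - 2)]) hfs hfs'
  rw [Finset.sum_image (fun a _ b _ h => Subtype.ext (crit_injective h))] at hL
  rw [norm_sub_rev]
  simpa only [order_eq] using hL

theorem norm_le (u v : ℝ) : ‖1 / (1 + (u : ℂ) * I) + 1 / (1 - (v : ℂ) * I)‖ ≤
    ‖2 + ((u - v : ℝ) : ℂ) * I‖ * (1 / (1 + u ^ 2) + 1 / (1 + v ^ 2)) := by
  have n1 : (1 + (u : ℂ) * I) ≠ 0 := fun h => by simpa using congrArg re h
  have n2 : (1 - (v : ℂ) * I) ≠ 0 := fun h => by simpa using congrArg re h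
  have e : 1 / (1 + (u : ℂ) * I) + 1 / (1 - (v : ℂ) * I) =
      (2 + ((u - v : ℝ) : ℂ) * I) * ((1 + (u : ℂ) * I)⁻¹ * (1 - (v : ℂ) * I)⁻¹) := by
    rw [one_div_add_one_div n1 n2, div_eq_mul_inv, mul_inv]
    congr 1
    push_cast
    ring
  have e1 : 1 + u ^ 2 = ‖1 + (u : ℂ) * I‖ ^ 2 := by
    rw [Complex.sq_norm, normSq_apply]
    simp [sq]
  have e2 : 1 + v ^ 2 = ‖1 - (v : ℂ) * I‖ ^ 2 := by
    rw [Complex.sq_norm, normSq_apply]
    simp [sq]
  rw [e, norm_mul, norm_mul, norm_inv, norm_inv, e1, e2, one_div, one_div, ← inv_pow, ← inv_pow]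
  refine mul_le_mul_of_nonneg_left ?_ (norm_nonneg _)
  nlinarith [sq_nonneg (‖1 + (u : ℂ) * I‖⁻¹ - ‖1 - (v : ℂ) * I‖⁻¹), sq_nonneg ‖1 + (u : ℂ) * I‖⁻¹,
    sq_nonneg ‖1 - (v : ℂ) * I‖⁻¹]

end FracAux

theorem countable_ord : Countable Ord := inferInstance

theorem mult_neg (y : ℝ) : mult (-y) = mult y := by
  have e : (1 / 2 + ((-y : ℝ) : ℂ) * I) = (fun s : ℂ => 1 - s) (1 / 2 + y * I) := by
    push_cast
    ring
  rw [← FracAux.order_eq, ← FracAux.order_eq, analyticOrderNatAt, analyticOrderNatAt, e,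
    ← analyticOrderAt_comp_of_deriv_ne_zero (by fun_prop) (by simp)]
  exact congrArg (fun f => (analyticOrderAt f _).toNat) (funext xi_one_sub)

theorem zeta_neg_eq_zero {y : ℝ} (h : riemannZeta (1 / 2 + y * I) = 0) :
    riemannZeta (1 / 2 + ((-y : ℝ) : ℂ) * I) = 0 := by
  have n : ∀ y : ℝ, (1 / 2 + y * I : ℂ) ≠ 1 := fun y h => by
    have := congrArg re h
    norm_num at this
  have e : (1 / 2 + ((-y : ℝ) : ℂ) * I) = 1 - (1 / 2 + y * I) := by
    push_cast
    ring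
  refine (zeta_eq_zero_of_xi (by simp) ?_).2
  rw [e, xi_one_sub, xi_eq (by simp) (n y), h, mul_zero]

theorem hasSum_G (hRH : RiemannHypothesis) (x : ℝ) :
    HasSum (fun y : Ord => (mult y : ℝ) * (1 / (1 + (x - y) ^ 2))) (G zmeas x) := by
  have h := (hasSum_poisson hRH x).summable.hasSum
  have e : G zmeas x = ∑' y : Ord, (mult y : ℝ) * (1 / (1 + (x - y) ^ 2)) := by
    rw [G, zmeas, integral_sum_dirac (by simp)]
    simp
  rwa [e]

theorem hasSum_frac (hRH : RiemannHypothesis) (t : ℝ) :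
    HasSum (fun y : Ord => (mult y : ℂ) * (1 / (3 / 2 + t * I - (1 / 2 + (y : ℝ) * I)) +
      1 / (3 / 2 + t * I - 1 + (1 / 2 + (y : ℝ) * I)))) (2 * logDeriv xi (3 / 2 + t * I)) := by
  have h1 : xi (3 / 2 + t * I) ≠ 0 := xi_ne_zero (by simp; norm_num)
  obtain ⟨F, hF, h⟩ := FracAux.lim hRH h1 (s' := 1 - (3 / 2 + t * I)) (by rwa [xi_one_sub])
  have e : ∀ s ρ : ℂ, 1 / (s - ρ) - 1 / (1 - s - ρ) = 1 / (s - ρ) + 1 / (s - 1 + ρ) := fun s ρ => by
    rw [show 1 - s - ρ = -(s - 1 + ρ) by ring, one_div_neg_eq_neg_one_div, sub_neg_eq_add]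
  simp only [e, logDeriv_xi_one_sub, sub_neg_eq_add, ← two_mul] at h
  have hs : Summable fun y : Ord => (mult y : ℂ) * (1 / (3 / 2 + t * I - (1 / 2 + (y : ℝ) * I)) +
      1 / (3 / 2 + t * I - 1 + (1 / 2 + (y : ℝ) * I))) := by
    refine (((hasSum_poisson hRH t).summable.add (hasSum_poisson hRH (-t)).summable).mul_left
      ‖2 + ((2 * t : ℝ) : ℂ) * I‖).of_norm_bounded fun y => ?_
    have e1 : (3 / 2 + t * I - (1 / 2 + (y : ℝ) * I) : ℂ) = 1 + ((t - y : ℝ) : ℂ) * I := by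
      push_cast
      ring
    have e2 : (3 / 2 + t * I - 1 + (1 / 2 + (y : ℝ) * I) : ℂ) = 1 - ((-t - y : ℝ) : ℂ) * I := by
      push_cast
      ring
    have h2 := FracAux.norm_le (t - y) (-t - y)
    rw [show t - y - (-t - y) = 2 * t by ring] at h2
    rw [e1, e2, norm_mul, ← mul_add, mul_left_comm, Complex.norm_natCast]
    exact mul_le_mul_of_nonneg_left h2 (Nat.cast_nonneg _)
  rw [← tendsto_nhds_unique (hs.hasSum.comp hF) h]
  exact hs.hasSum

end Pool.Agent.P.MP_7eacff_nt.SZ
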