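import Pool.Agent.P.MP_7eacff_nt.SZ.RvM
import Pool.Agent.P.MP_7eacff_nt.SZ.Frac

/-!
From weighted sums over zeros to counts of indices.
-/

open Complex Filter Topology MeasureTheory Set
open scoped Real ContDiff

namespace Pool.Agent.P.MP_7eacff_nt.SZ

open Pool.Agent.Lib.LargeSieve (primSet mem_primSet)

namespace CountFinAux

theorem low {μ : Measure ℝ} (hμ : ZData μ) {γ : ℕ → ℝ} (hγ : Enum μ γ) :
    ∃ C, 0 < C ∧ ∀ Y : ℝ, 0 ≤ Y → ∀ S : Finset ℕ, (∀ n ∈ S, γ n ≤ Y) →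
      (S.card : ℝ) ≤ C * (Y + 1) * Real.log (3 + Y) := by
  obtain ⟨C, hC, h⟩ := hμ.meas_Ioc_le
  refine ⟨C, hC, fun Y h0 S hS => ?_⟩
  have h1 := h ⌈Y⌉₊
  have h2 := (Nat.ceil_lt_add_one h0).le
  have h3 : (S : Set ℕ) ⊆ γ ⁻¹' Ioc 0 ⌈Y⌉₊ := fun n hn =>
    ⟨hγ.pos n, (hS n hn).trans (Nat.le_ceil _)⟩
  have h4 := encard_le_encard h3
  rw [encard_coe_eq_coe_finsetCard] at h4
  rw [hγ.meas _ Ioc_subset_Ioi_self measurableSet_Ioc] at h1
  have h5 : (S.card : ENNReal) ≤ ENNReal.ofReal (C * ⌈Y⌉₊ * Real.log (2 + ⌈Y⌉₊)) :=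
    le_trans (by simpa using ENat.toENNReal_le.2 h4) h1
  have h6 : 0 ≤ Real.log (2 + ⌈Y⌉₊) :=
    Real.log_nonneg (by linarith only [(Nat.cast_nonneg ⌈Y⌉₊ : (0 : ℝ) ≤ _)])
  rw [← ENNReal.ofReal_natCast, ENNReal.ofReal_le_ofReal_iff (by positivity)] at h5
  exact h5.trans (mul_le_mul (by gcongr) (Real.log_le_log (by positivity) (by linarith only [h2])) h6
    (by positivity))

theorem dyadic {γ : ℕ → ℝ} {c T₀ X : ℝ} (hc : 0 ≤ c) (hT : 1 ≤ T₀) (p : ℕ → Prop)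
    (h : ∀ T, T₀ ≤ T → ∀ S : Finset ℕ, (∀ n ∈ S, p n ∧ T ≤ γ n ∧ γ n ≤ 2 * T) →
      (S.card : ℝ) ≤ c * (T * Real.log T / (2 * π))) (i : ℕ) (hX : T₀ ≤ X / 2 ^ i)
    (S : Finset ℕ) (hS : ∀ n ∈ S, p n ∧ X / 2 ^ i < γ n ∧ γ n ≤ X) :
    (S.card : ℝ) ≤ c * ((X - X / 2 ^ i) * Real.log X / (2 * π)) := by
  classical
  induction i generalizing S with
  | zero =>
    have : S = ∅ := Finset.eq_empty_of_forall_notMem fun n hn => by
      have := hS n hn
      simp only [pow_zero, div_one] at this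
      linarith only [this.2.1, this.2.2]
    simp [this]
  | succ i ih =>
    have e : X / 2 ^ i = 2 * (X / 2 ^ (i + 1)) := by rw [pow_succ]; field_simp
    have hp : (1 : ℝ) ≤ 2 ^ (i + 1) := one_le_pow₀ (by norm_num)
    have hX0 : 0 < X := by
      by_contra h0
      have : X / 2 ^ (i + 1) ≤ 0 := div_nonpos_of_nonpos_of_nonneg (not_lt.1 h0) (by positivity)
      linarith only [this, hX, hT]
    have hle : X / 2 ^ (i + 1) ≤ X := div_le_self hX0.le hp
    have h1 := ih (by linarith only [e, hX, hT]) (S.filter fun n => X / 2 ^ i < γ n) fun n hn => by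
      rw [Finset.mem_filter] at hn
      exact ⟨(hS n hn.1).1, hn.2, (hS n hn.1).2.2⟩
    have h2 := h _ hX (S.filter fun n => ¬ X / 2 ^ i < γ n) fun n hn => by
      rw [Finset.mem_filter] at hn
      exact ⟨(hS n hn.1).1, (hS n hn.1).2.1.le, by linarith only [e, not_lt.1 hn.2]⟩
    have h3 : (S.card : ℝ) = (S.filter fun n => X / 2 ^ i < γ n).card +
        (S.filter fun n => ¬ X / 2 ^ i < γ n).card := by
      exact_mod_cast (Finset.card_filter_add_card_filter_not _).symm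
    have h4 : Real.log (X / 2 ^ (i + 1)) ≤ Real.log X :=
      Real.log_le_log (by positivity) hle
    have h5 : c * (X / 2 ^ (i + 1) * Real.log (X / 2 ^ (i + 1)) / (2 * π)) ≤
        c * (X / 2 ^ (i + 1) * Real.log X / (2 * π)) := by gcongr
    have h6 : c * ((X - X / 2 ^ (i + 1)) * Real.log X / (2 * π)) =
        c * ((X - X / 2 ^ i) * Real.log X / (2 * π)) +
          c * (X / 2 ^ (i + 1) * Real.log X / (2 * π)) := by
      rw [e]; ring
    linarith only [h1, h2, h3, h5, h6]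

theorem zmeas_single (y : ℝ) : zmeas {y} ≤ (mult y : ENNReal) ∧
    (zmeas {y} ≠ 0 → riemannZeta (1 / 2 + y * I) = 0) := by
  rw [zmeas, Measure.sum_apply _ (measurableSet_singleton y)]
  by_cases hy : riemannZeta (1 / 2 + y * I) = 0
  · refine ⟨le_of_eq ?_, fun _ => hy⟩
    rw [tsum_eq_single (⟨y, hy⟩ : Ord)]
    · simp
    · intro b hb
      have : (b : ℝ) ≠ y := fun e => hb (Subtype.ext e)
      simp [this]
  · have : ∀ b : Ord, ((mult b : ENNReal) • Measure.dirac (b : ℝ)) {y} = 0 := fun b => by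
      have : (b : ℝ) ≠ y := fun e => hy (e ▸ b.2)
      simp [this]
    simp [this]

theorem fibre {γ : ℕ → ℝ} (hγ : Enum zmeas γ) {y : ℝ} (S : Finset ℕ) (hne : S.Nonempty)
    (hS : ∀ n ∈ S, γ (n + 1) = γ n ∧ γ n = y) :
    riemannZeta (1 / 2 + y * I) = 0 ∧ S.card + 1 ≤ mult y := by
  classical
  have hm := S.max'_mem hne
  have hy : 0 < y := (hS _ hm).2 ▸ hγ.pos _
  have h1 := hγ.meas {y} (by simpa using hy) (measurableSet_singleton y)
  have h2 : S.max' hne + 1 ∉ S := fun h => by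
    have := S.le_max' _ h
    omega
  have h3 : ((insert (S.max' hne + 1) S : Finset ℕ) : Set ℕ) ⊆ γ ⁻¹' {y} := by
    intro n hn
    rcases Finset.mem_insert.1 (Finset.mem_coe.1 hn) with rfl | hn
    · exact (hS _ hm).1.trans (hS _ hm).2
    · exact (hS _ hn).2
  have h4 := encard_le_encard h3
  rw [encard_coe_eq_coe_finsetCard, Finset.card_insert_of_notMem h2] at h4
  have h5 : ((S.card + 1 : ℕ) : ENNReal) ≤ zmeas {y} := by
    rw [h1]
    simpa using ENat.toENNReal_le.2 h4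
  refine ⟨(zmeas_single y).2 fun h0 => ?_, by exact_mod_cast h5.trans (zmeas_single y).1⟩
  rw [h0] at h5
  simp at h5

end CountFinAux

open CountFinAux in
theorem count_final {μ : Measure ℝ} [SFinite μ] (hμ : ZData μ) {γ : ℕ → ℝ} (hγ : Enum μ γ)
    {c c' : ℝ} (hc : 0 ≤ c) (hcc : c < c') (p : ℕ → Prop)
    (h : ∀ᶠ T : ℝ in atTop, ∀ S : Finset ℕ, (∀ n ∈ S, p n ∧ T ≤ γ n ∧ γ n ≤ 2 * T) →
      (S.card : ℝ) ≤ c * (T * Real.log T / (2 * π))) :
    ∀ᶠ N : ℕ in atTop, ({n | n < N ∧ p n}.ncard : ℝ) ≤ c' * N := by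
  classical
  obtain ⟨T₁, hT₁⟩ := eventually_atTop.1 h
  obtain ⟨C, hC, hlow⟩ := low hμ hγ
  obtain ⟨δ, hδ⟩ : ∃ δ, δ = (c' - c) / 2 := ⟨_, rfl⟩
  have hδ0 : 0 < δ := by linarith only [hδ, hcc]
  have hc' : 0 < c' := by linarith only [hc, hcc]
  obtain ⟨i, hi⟩ := pow_unbounded_of_one_lt (8 * π * C / δ) (show (1 : ℝ) < 2 by norm_num)
  have hp : (0 : ℝ) < 2 ^ i := by positivity
  filter_upwards [rvm_lower hμ hγ (show 0 < δ / c' by positivity),
    (hγ.tendsto hμ).eventually_ge_atTop (max T₁ 1 * 2 ^ i),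
    (hγ.tendsto hμ).eventually_ge_atTop 3] with N h1 h2 h3
  obtain ⟨X, hX⟩ : ∃ X, X = γ N := ⟨_, rfl⟩
  rw [← hX] at h1 h2 h3
  have h4 : max T₁ 1 ≤ X / 2 ^ i := by rwa [le_div_iff₀ hp]
  have h41 : 1 ≤ X / 2 ^ i := (le_max_right _ _).trans h4
  have e : {n | n < N ∧ p n} = ((Finset.range N).filter p : Finset ℕ) := by
    ext n; simp
  rw [e, ncard_coe_finset]
  set S := (Finset.range N).filter p with hS
  have h5 := dyadic (γ := γ) hc (le_max_right T₁ 1) p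
    (fun T hT => hT₁ T ((le_max_left _ _).trans hT)) i h4
    (S.filter fun n => X / 2 ^ i < γ n) fun n hn => by
      simp only [hS, Finset.mem_filter, Finset.mem_range] at hn
      exact ⟨hn.1.2, hn.2, hX ▸ hγ.mono hn.1.1.le⟩
  have h6 := hlow (X / 2 ^ i) (by positivity) (S.filter fun n => ¬ X / 2 ^ i < γ n) fun n hn =>
    not_lt.1 (Finset.mem_filter.1 hn).2
  have h7 : (S.card : ℝ) = (S.filter fun n => X / 2 ^ i < γ n).card +
      (S.filter fun n => ¬ X / 2 ^ i < γ n).card := by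
    exact_mod_cast (Finset.card_filter_add_card_filter_not _).symm
  have hL : 0 ≤ Real.log X := Real.log_nonneg (by linarith only [h3])
  have hle : X / 2 ^ i ≤ X := div_le_self (by linarith only [h3]) (one_le_pow₀ (by norm_num))
  have h8 : Real.log (3 + X / 2 ^ i) ≤ 2 * Real.log X := by
    rw [← Real.log_rpow (by linarith only [h3]), Real.rpow_two]
    exact Real.log_le_log (by positivity) (by nlinarith only [hle, h3])
  have h9 : C * (X / 2 ^ i + 1) * Real.log (3 + X / 2 ^ i) ≤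
      C * (2 * (X / 2 ^ i)) * (2 * Real.log X) :=
    mul_le_mul (mul_le_mul_of_nonneg_left (by linarith only [h41]) hC.le) h8
      (Real.log_nonneg (by linarith only [h41])) (by positivity)
  obtain ⟨W, hW⟩ : ∃ W, W = X * Real.log X / (2 * π) := ⟨_, rfl⟩
  have hW0 : 0 ≤ W := by
    have : 0 ≤ X := by linarith only [h3]
    rw [hW]; positivity
  have h10 : C * (2 * (X / 2 ^ i)) * (2 * Real.log X) = 8 * π * C / 2 ^ i * W := by
    rw [hW]; field_simp; ring
  have h11 : 8 * π * C / 2 ^ i ≤ δ := by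
    rw [div_le_iff₀ hp]
    rw [div_lt_iff₀ hδ0] at hi
    linarith only [hi]
  have h12 : c * ((X - X / 2 ^ i) * Real.log X / (2 * π)) ≤ c * W := by
    rw [hW]
    gcongr
    linarith only [h41]
  have h13 : c' * ((1 - δ / c') * W) = (c + δ) * W := by
    have : c' * (1 - δ / c') = c + δ := by field_simp; linarith only [hδ]
    rw [← mul_assoc, this]
  rw [← hW] at h1
  have h14 := mul_le_mul_of_nonneg_left h1 hc'.le
  have h15 := mul_le_mul_of_nonneg_right h11 hW0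
  linarith only [h5, h6, h7, h9, h10, h12, h13, h14, h15]

open CountFinAux in
theorem card_le_tsum {γ : ℕ → ℝ} (hγ : Enum zmeas γ) {g : ℝ → ℝ} (h0 : ∀ y, 0 ≤ g y)
    (he : ∀ y, g (-y) = g y) (hs : Summable fun y : Ord => (mult y : ℝ) * g y) {T δ : ℝ}
    (hT : 0 < T) (hδ : 0 ≤ δ)
    (hl : ∀ y : Ord, T ≤ y → (y : ℝ) ≤ 2 * T → 2 ≤ mult y →
      δ * ((mult y : ℝ) - 1) ≤ mult y * g y)
    (S : Finset ℕ) (hS : ∀ n ∈ S, γ (n + 1) = γ n ∧ T ≤ γ n ∧ γ n ≤ 2 * T) :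
    2 * δ * S.card ≤ ∑' y : Ord, (mult y : ℝ) * g y := by
  classical
  set Y := S.image γ with hY
  have hf : ∀ y ∈ Y, riemannZeta (1 / 2 + y * I) = 0 ∧ T ≤ y ∧
      δ * ((S.filter fun n => γ n = y).card : ℝ) ≤ mult y * g y := by
    intro y hy
    obtain ⟨n, hn, rfl⟩ := Finset.mem_image.1 hy
    have hne : (S.filter fun m => γ m = γ n).Nonempty := ⟨n, Finset.mem_filter.2 ⟨hn, rfl⟩⟩
    obtain ⟨h1, h2⟩ := fibre hγ _ hne fun m hm =>
      ⟨(hS m (Finset.mem_filter.1 hm).1).1, (Finset.mem_filter.1 hm).2⟩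
    have h3 := hne.card_pos
    have h4 := hl ⟨γ n, h1⟩ (hS n hn).2.1 (hS n hn).2.2 (by change 2 ≤ mult (γ n); omega)
    have h5 : ((S.filter fun m => γ m = γ n).card : ℝ) + 1 ≤ mult (γ n) := by exact_mod_cast h2
    exact ⟨h1, (hS n hn).2.1, (mul_le_mul_of_nonneg_left (by linarith only [h5]) hδ).trans h4⟩
  have h1 : δ * (S.card : ℝ) ≤ ∑ y ∈ Y, (mult y : ℝ) * g y := by
    rw [Finset.card_eq_sum_card_image γ S]
    push_cast
    rw [Finset.mul_sum]
    exact Finset.sum_le_sum fun y hy => (hf y hy).2.2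
  have hd : Disjoint Y (Y.image fun y => -y) := by
    refine Finset.disjoint_left.2 fun y hy hy' => ?_
    obtain ⟨z, hz, rfl⟩ := Finset.mem_image.1 hy'
    linarith only [hT, (hf _ hy).2.1, (hf _ hz).2.1]
  have h2 : ∑ y ∈ Y ∪ Y.image (fun y => -y), (mult y : ℝ) * g y =
      2 * ∑ y ∈ Y, (mult y : ℝ) * g y := by
    rw [Finset.sum_union hd, Finset.sum_image fun a _ b _ hab => neg_injective hab]
    simp only [mult_neg, he]
    ring
  have h3 : ∀ y ∈ Y ∪ Y.image (fun y => -y), riemannZeta (1 / 2 + (y : ℝ) * I) = 0 := by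
    intro y hy
    rcases Finset.mem_union.1 hy with hy | hy
    · exact (hf y hy).1
    · obtain ⟨z, hz, rfl⟩ := Finset.mem_image.1 hy
      exact zeta_neg_eq_zero (hf z hz).1
  have h4 := Finset.sum_subtype_of_mem (fun y : ℝ => (mult y : ℝ) * g y) h3
  have h5 := hs.sum_le_tsum ((Y ∪ Y.image (fun y => -y)).subtype
    fun y : ℝ => riemannZeta (1 / 2 + y * I) = 0) fun y _ => mul_nonneg (Nat.cast_nonneg _) (h0 _)
  rw [h4, h2] at h5
  linarith only [h1, h5]

end Pool.Agent.P.MP_7eacff_nt.SZ
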