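import Pool.Agent.P.MP_7eacff_nt.SZ.VWR

/-!
Smooth approximations of the triangle function.
-/

open Complex Filter Topology MeasureTheory Set
open scoped Real ContDiff

namespace Pool.Agent.P.MP_7eacff_nt.SZ

open Pool.Agent.Lib.LargeSieve (primSet mem_primSet)

namespace DataKAux

/-- Smooth approximations of a multiple of the indicator function of the unit interval. -/
noncomputable def U (n : ℕ) (x : ℝ) : ℝ :=
  3 / 5 * ((n + 1) * x - 1).smoothTransition * ((n + 1) * (1 - x) - 1).smoothTransition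

theorem supp {n : ℕ} {x : ℝ} (h : U n x ≠ 0) : 1 / (n + 1 : ℝ) < x ∧ 1 / (n + 1 : ℝ) < 1 - x := by
  simp only [U, ne_eq, mul_eq_zero, Real.smoothTransition.zero_iff_nonpos, not_or, not_le] at h
  constructor <;> rw [div_lt_iff₀ (by positivity)] <;> linarith [h.1.2, h.2]

theorem mem {n : ℕ} {x : ℝ} (h : U n x ≠ 0) : x ∈ Ioo (0 : ℝ) 1 := by
  have : 0 < 1 / (n + 1 : ℝ) := by positivity
  constructor <;> linarith [(supp h).1, (supp h).2]

theorem tst (n : ℕ) : Tst (U n) :=
  ⟨(contDiff_const.mul (Real.smoothTransition.contDiff.comp (by fun_prop))).mul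
    (Real.smoothTransition.contDiff.comp (by fun_prop)),
  .intro (isCompact_Icc (a := 0) (b := 1)) fun _ hx =>
    by_contra fun h => hx (Ioo_subset_Icc_self (mem h))⟩

theorem norm_le (n : ℕ) (x : ℝ) : ‖U n x‖ ≤ 1 := by
  have h : ∀ y : ℝ, ‖y.smoothTransition‖ ≤ 1 := fun y =>
    (Real.norm_of_nonneg (Real.smoothTransition.nonneg y)).trans_le (Real.smoothTransition.le_one y)
  rw [U, norm_mul, norm_mul]
  exact mul_le_one₀ (mul_le_one₀ (by norm_num) (norm_nonneg _) (h _)) (norm_nonneg _) (h _)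

theorem bd (n : ℕ) (v x : ℝ) : ‖U n x * U n (x + v)‖ ≤ (Ioo (0 : ℝ) 1).indicator 1 x := by
  by_cases hx : x ∈ Ioo (0 : ℝ) 1
  · rw [indicator_of_mem hx, norm_mul]
    exact mul_le_one₀ (norm_le _ _) (norm_nonneg _) (norm_le _ _)
  · rw [indicator_of_notMem hx, not_not.1 (mt mem hx), zero_mul, norm_zero]

theorem int : Integrable ((Ioo (0 : ℝ) 1).indicator (1 : ℝ → ℝ)) :=
  (integrableOn_const (by simp)).integrable_indicator measurableSet_Ioo

theorem lim (x : ℝ) :
    Tendsto (fun n => U n x) atTop (𝓝 ((Ioo (0 : ℝ) 1).indicator (fun _ => 3 / 5) x)) := by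
  by_cases hx : x ∈ Ioo (0 : ℝ) 1
  · have h : ∀ y : ℝ, 0 < y → ∀ᶠ n : ℕ in atTop, ((n + 1) * y - 1).smoothTransition = 1 :=
      fun y hy => ((tendsto_natCast_atTop_atTop.atTop_mul_const hy).eventually_ge_atTop 2).mono
        fun n hn => Real.smoothTransition.one_of_one_le (by linarith)
    refine tendsto_const_nhds.congr' ?_
    filter_upwards [h x hx.1, h (1 - x) (sub_pos.2 hx.2)] with n h1 h2
    rw [indicator_of_mem hx, U, h1, h2, mul_one, mul_one]
  · simp only [indicator_of_notMem hx, fun n => not_not.1 (mt (mem (n := n)) hx),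
      tendsto_const_nhds]

end DataKAux

open DataKAux

theorem exists_seq_K : ∃ k : ℕ → ℝ → ℝ, (∀ n, Tst (k n) ∧ Function.Even (k n) ∧
    (∀ u, 0 ≤ WR (k n) u) ∧ ∃ θ, θ < 1 ∧ ∀ v, θ < v → k n v = 0) ∧ (∀ n v, |k n v| ≤ 1) ∧
    ∀ v, 0 ≤ v → Tendsto (fun n => k n v) atTop (𝓝 (9 / 25 * max (1 - v) 0)) := by
  refine ⟨fun n => ac (U n), fun n => ⟨(tst n).auto, even_ac _, WR_ac_nonneg (tst n),
    1 - 1 / (n + 1 : ℝ), sub_lt_self _ (by positivity), fun v hv => ?_⟩, fun n v => ?_,
    fun v hv => ?_⟩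
  · refine integral_eq_zero_of_ae (ae_of_all _ fun x => by_contra fun h => ?_)
    linarith [(mem (left_ne_zero_of_mul h)).1, (supp (right_ne_zero_of_mul h)).2]
  · simpa [ac] using norm_integral_le_of_norm_le int (ae_of_all _ (bd n v))
  · have e : ∫ x, (Ioo (0 : ℝ) 1).indicator (fun _ => (3 / 5 : ℝ)) x *
        (Ioo (0 : ℝ) 1).indicator (fun _ => 3 / 5) (x + v) = 9 / 25 * max (1 - v) 0 := by
      rw [integral_congr_ae (g := (Ioo 0 (1 - v)).indicator fun _ => 9 / 25)
        (ae_of_all _ fun x => ?_), integral_indicator_const _ measurableSet_Ioo,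
        Real.volume_real_Ioo, sub_zero, smul_eq_mul, mul_comm]
      simp only [indicator, mem_Ioo]
      grind
    rw [← e]
    exact tendsto_integral_of_dominated_convergence _ (fun n => ((tst n).cd.continuous.mul
      ((tst n).cd.continuous.comp (continuous_add_const v))).aestronglyMeasurable) int
      (fun n => ae_of_all _ (bd n v)) (ae_of_all _ fun x => (lim x).mul (lim (x + v)))

end Pool.Agent.P.MP_7eacff_nt.SZ
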