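import Pool.Agent.P.MP_7eacff_nt.SZ.DataF
import Pool.Agent.P.MP_7eacff_nt.SZ.DataK

/-!
The numerical inequality.
-/

open Complex Filter Topology MeasureTheory Set
open scoped Real ContDiff

namespace Pool.Agent.P.MP_7eacff_nt.SZ

open Pool.Agent.Lib.LargeSieve (primSet mem_primSet)

namespace DataAux

theorem cut {f : ℝ → ℝ} {a c : ℝ} (hac : a ≤ c) (h0 : ∀ r, c < r → f r = 0) :
    ∫ r in Ioi a, f r = ∫ r in a..c, f r := by
  rw [intervalIntegral.integral_of_le hac]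
  exact setIntegral_eq_of_subset_of_forall_sdiff_eq_zero measurableSet_Ioi Ioc_subset_Ioi_self
    fun r hr => h0 r (not_le.1 fun h => hr.2 ⟨hr.1, h⟩)

theorem poly (a c c₀ c₁ c₂ c₃ c₄ : ℝ) :
    ∫ r in a..c, (c₀ + c₁ * r + c₂ * r ^ 2 + c₃ * r ^ 3 + c₄ * r ^ 4) =
      c₀ * (c - a) + c₁ * (c ^ 2 - a ^ 2) / 2 + c₂ * (c ^ 3 - a ^ 3) / 3 +
        c₃ * (c ^ 4 - a ^ 4) / 4 + c₄ * (c ^ 5 - a ^ 5) / 5 := by
  rw [intervalIntegral.integral_eq_sub_of_hasDerivAt
    (f := fun r => c₀ * r + c₁ * r ^ 2 / 2 + c₂ * r ^ 3 / 3 + c₃ * r ^ 4 / 4 + c₄ * r ^ 5 / 5)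
    (fun r _ => ?_) (Continuous.intervalIntegrable (by fun_prop) _ _)]
  · ring
  · have h : ∀ (n : ℕ) (b d : ℝ), HasDerivAt (fun r : ℝ => b * r ^ n / d)
        (b * (n * r ^ (n - 1)) / d) r := fun n b d =>
      ((hasDerivAt_pow n r).const_mul b).div_const d
    refine ((((((hasDerivAt_id' r).const_mul c₀).add (h 2 c₁ 2)).add (h 3 c₂ 3)).add
      (h 4 c₃ 4)).add (h 5 c₄ 5)).congr_deriv ?_
    norm_num
    ring

theorem lim {f : ℕ → ℝ → ℝ} {g : ℝ → ℝ} {a c : ℝ} (c₀ c₁ c₂ c₃ c₄ l : ℝ) (hac : a ≤ c)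
    (hm : ∀ n, Continuous (f n)) (hb : ∀ n, ∀ r ∈ Ioc a c, |f n r| ≤ 1)
    (hl : ∀ r ∈ Ioc a c, Tendsto (fun n => f n r) atTop (𝓝 (g r)))
    (hg : ∀ r, g r = c₀ + c₁ * r + c₂ * r ^ 2 + c₃ * r ^ 3 + c₄ * r ^ 4)
    (e : c₀ * (c - a) + c₁ * (c ^ 2 - a ^ 2) / 2 + c₂ * (c ^ 3 - a ^ 3) / 3 +
        c₃ * (c ^ 4 - a ^ 4) / 4 + c₄ * (c ^ 5 - a ^ 5) / 5 = l) :
    Tendsto (fun n => ∫ r in a..c, f n r) atTop (𝓝 l) := by
  rw [← e, ← poly, ← funext hg]
  refine intervalIntegral.tendsto_integral_filter_of_dominated_convergence (fun _ => 1)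
    (Eventually.of_forall fun n => (hm n).aestronglyMeasurable)
    (Eventually.of_forall fun n => Eventually.of_forall fun r hr => hb n r ?_)
    intervalIntegrable_const (Eventually.of_forall fun r hr => hl r ?_)
  all_goals rwa [uIoc_of_le hac] at hr

theorem mul_le {x y : ℝ} (hx : |x| ≤ 1) (hy : |y| ≤ 1) : |x * y| ≤ 1 := by
  rw [abs_mul]
  exact mul_le_one₀ hx (abs_nonneg _) hy

theorem sq_le {x : ℝ} (hx : |x| ≤ 1) : |x ^ 2| ≤ 1 := by
  rw [sq]
  exact mul_le hx hx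

/-- The quantity as a polynomial in the integrals. -/
noncomputable def Q (l k₀ i₁ i₂ i₃ i₄ i₅ j₁ j₂ j₃ d : ℝ) : ℝ :=
  (1 + k₀ - 4 * i₁) ^ 2 + 4 * i₃ + 4 * (1 + k₀ - 4 * i₁) * i₂ - 4 * l * i₂ -
    2 * (1 + k₀ - 4 * i₁) * (l / 2 + j₁) +
    4 * (l * i₄ - j₂ - (l * i₅ / 2 - j₂ / 2 - j₁ * i₄ + j₃)) + l ^ 2 / 3 + l * j₁ + j₁ ^ 2 + d / 12

theorem eq_Q (F κ : ℝ → ℝ) : qM F κ + 2 * qZ F κ = Q (F 0) (κ 0) (ip κ) (ip fun v => v * κ v)
    (ip fun v => v * κ v ^ 2) (ip fun v => κ v * (1 - v)) (ip fun v => κ v * (1 - v) ^ 2) (ip F)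
    (ip fun v => κ v * F v) (ip fun v => κ v * tl F v) (ip fun r => deriv F r ^ 2) := by
  unfold qM qZ a0 m2 m3 m4 m5 m6 m7 Q
  ring

end DataAux

open DataAux

theorem exists_data : ∃ θ η F κ, Adm θ η F κ ∧ (∀ u, 0 ≤ WR κ u) ∧ 1 / 6 ≤ 2 * ip κ ∧
    qM F κ + 2 * qZ F κ < 293 / 1000 := by
  obtain ⟨G, gT, gS, g0, gB, gL, gD⟩ := exists_seq_F
  obtain ⟨k, kP, kB, kL⟩ := exists_seq_K
  have gC : ∀ n, Continuous (G n) := fun n => (gT n).cd.continuous
  have kC : ∀ n, Continuous (k n) := fun n => (kP n).1.cd.continuous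
  have gZ : ∀ n r, 1 / 2 < r → G n r = 0 := fun n r hr => by
    obtain ⟨θ, -, h1, h2⟩ := gS n
    exact h2 r (h1.trans hr)
  have kZ : ∀ n r, 1 < r → k n r = 0 := fun n r hr => by
    obtain ⟨θ, h1, h2⟩ := (kP n).2.2.2
    exact h2 r (h1.trans hr)
  have gL' : ∀ r, 0 < r → r ≤ 1 / 2 →
      Tendsto (fun n => G n r) atTop (𝓝 (9 / 16 - 9 / 4 * r ^ 2)) := fun r h1 h2 => by
    have := gL r h1
    rwa [max_eq_left (by nlinarith)] at this
  have kL' : ∀ r, 0 ≤ r → r ≤ 1 → Tendsto (fun n => k n r) atTop (𝓝 (9 / 25 * (1 - r))) :=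
    fun r h1 h2 => by
      have := kL r h1
      rwa [max_eq_left (by linarith)] at this
  have b1 : ∀ r ∈ Ioc (0 : ℝ) 1, |r| ≤ 1 := fun r hr => abs_le.2 ⟨by linarith [hr.1], hr.2⟩
  have b2 : ∀ r ∈ Ioc (0 : ℝ) 1, |1 - r| ≤ 1 := fun r hr =>
    abs_le.2 ⟨by linarith [hr.2], by linarith [hr.1]⟩
  have k0 := kL' 0 le_rfl zero_le_one
  have i1 : Tendsto (fun n => ip (k n)) atTop (𝓝 (9 / 50)) :=
    (lim (9 / 25) (-9 / 25) 0 0 0 _ zero_le_one kC (fun n r _ => kB n r)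
      (fun r hr => kL' r hr.1.le hr.2) (fun r => by ring) (by norm_num)).congr fun n =>
        (cut zero_le_one (kZ n)).symm
  have i2 : Tendsto (fun n => ip fun v => v * k n v) atTop (𝓝 (3 / 50)) :=
    (lim (f := fun n v => v * k n v) 0 (9 / 25) (-9 / 25) 0 0 _ zero_le_one
      (fun n => continuous_id.mul (kC n)) (fun n r hr => mul_le (b1 r hr) (kB n r))
      (fun r hr => (kL' r hr.1.le hr.2).const_mul r) (fun r => by ring) (by norm_num)).congr
        fun n => (cut zero_le_one fun r hr => by rw [kZ n r hr, mul_zero]).symm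
  have i3 : Tendsto (fun n => ip fun v => v * k n v ^ 2) atTop (𝓝 (27 / 2500)) :=
    (lim (f := fun n v => v * k n v ^ 2) 0 (81 / 625) (-162 / 625) (81 / 625) 0 _ zero_le_one
      (fun n => continuous_id.mul ((kC n).pow 2)) (fun n r hr => mul_le (b1 r hr) (sq_le (kB n r)))
      (fun r hr => ((kL' r hr.1.le hr.2).pow 2).const_mul r) (fun r => by ring)
      (by norm_num)).congr fun n => (cut zero_le_one fun r hr => by simp [kZ n r hr]).symm
  have i4 : Tendsto (fun n => ip fun v => k n v * (1 - v)) atTop (𝓝 (3 / 25)) :=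
    (lim (f := fun n v => k n v * (1 - v)) (9 / 25) (-18 / 25) (9 / 25) 0 0 _ zero_le_one
      (fun n => (kC n).mul (by fun_prop)) (fun n r hr => mul_le (kB n r) (b2 r hr))
      (fun r hr => (kL' r hr.1.le hr.2).mul_const (1 - r)) (fun r => by ring) (by norm_num)).congr
        fun n => (cut zero_le_one fun r hr => by rw [kZ n r hr, zero_mul]).symm
  have i5 : Tendsto (fun n => ip fun v => k n v * (1 - v) ^ 2) atTop (𝓝 (9 / 100)) :=
    (lim (f := fun n v => k n v * (1 - v) ^ 2) (9 / 25) (-27 / 25) (27 / 25) (-9 / 25) 0 _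
      zero_le_one (fun n => (kC n).mul (by fun_prop))
      (fun n r hr => mul_le (kB n r) (sq_le (b2 r hr)))
      (fun r hr => (kL' r hr.1.le hr.2).mul_const ((1 - r) ^ 2)) (fun r => by ring)
      (by norm_num)).congr fun n => (cut zero_le_one fun r hr => by rw [kZ n r hr, zero_mul]).symm
  have hh : (0 : ℝ) ≤ 1 / 2 := by norm_num
  have j1 : Tendsto (fun n => ip (G n)) atTop (𝓝 (3 / 16)) :=
    (lim (9 / 16) 0 (-9 / 4) 0 0 _ hh gC (fun n r hr => gB n r hr.1)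
      (fun r hr => gL' r hr.1 hr.2) (fun r => by ring) (by norm_num)).congr fun n =>
        (cut hh (gZ n)).symm
  have j2 : Tendsto (fun n => ip fun v => k n v * G n v) atTop (𝓝 (351 / 6400)) :=
    (lim (f := fun n v => k n v * G n v) (81 / 400) (-81 / 400) (-81 / 100) (81 / 100) 0 _ hh
      (fun n => (kC n).mul (gC n)) (fun n r hr => mul_le (kB n r) (gB n r hr.1))
      (fun r hr => (kL' r hr.1.le (by linarith [hr.2])).mul (gL' r hr.1 hr.2)) (fun r => by ring)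
      (by norm_num)).congr fun n => (cut hh fun r hr => by rw [gZ n r hr, mul_zero]).symm
  have j3 : Tendsto (fun n => ip fun v => k n v * tl (G n) v) atTop (𝓝 (351 / 32000)) := by
    refine (lim (f := fun n v => k n v * ∫ x in v..1 / 2, G n x) (27 / 400) (-27 / 100) (81 / 400)
      (27 / 100) (-27 / 100) _ hh (fun n => (kC n).mul ?_) (fun n r hr => mul_le (kB n r) ?_)
      (fun r hr => (kL' r hr.1.le (by linarith [hr.2])).mul
        (lim (9 / 16) 0 (-9 / 4) 0 0 (3 / 16 - 9 / 16 * r + 3 / 4 * r ^ 3) hr.2 gC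
          (fun n x hx => gB n x (hr.1.trans hx.1)) (fun x hx => gL' x (hr.1.trans hx.1) hx.2)
          (fun x => by ring) (by ring))) (fun r => by ring) (by norm_num)).congr fun n => ?_
    · have h : Continuous fun v => ∫ x in (1 / 2 : ℝ)..v, G n x :=
        intervalIntegral.continuous_primitive (fun a b => (gC n).intervalIntegrable a b) _
      exact h.neg.congr fun v => (intervalIntegral.integral_symm (1 / 2) v).symm
    · refine (intervalIntegral.norm_integral_le_of_norm_le_const (C := 1) (f := G n)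
        fun x hx => ?_).trans ?_
      · rw [uIoc_of_le hr.2] at hx
        exact gB n x (hr.1.trans hx.1)
      · rw [one_mul, abs_le]
        constructor <;> linarith [hr.1, hr.2]
    · refine Eq.trans ?_ (cut hh fun r hr => ?_).symm
      · refine intervalIntegral.integral_congr fun v hv => ?_
        rw [uIcc_of_le hh] at hv
        simp only [tl, cut hv.2 (gZ n)]
      · rw [tl, setIntegral_eq_zero_of_forall_eq_zero (t := Ioi r)
          fun x hx => gZ n x (hr.trans hx), mul_zero]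
  have hQ : Tendsto (fun n => qM (G n) (k n) + 2 * qZ (G n) (k n)) atTop
      (𝓝 (Q (9 / 16) (9 / 25 * (1 - 0)) (9 / 50) (3 / 50) (27 / 2500) (3 / 25) (9 / 100) (3 / 16)
        (351 / 6400) (351 / 32000) (27 / 32))) := by
    simp only [eq_Q, g0, Q]
    have a := (k0.const_add 1).sub (i1.const_mul 4)
    exact ((((((((a.pow 2).add (i3.const_mul 4)).add ((a.const_mul 4).mul i2)).sub
      (i2.const_mul _)).sub ((a.const_mul 2).mul (j1.const_add _))).add
      ((((i4.const_mul _).sub j2).sub (((((i5.const_mul _).div_const 2).sub (j2.div_const 2)).sub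
        (j1.mul i4)).add j3)).const_mul 4)).add_const _).add (j1.const_mul _)).add (j1.pow 2) |>.add
      (gD.div_const 12)
  obtain ⟨n, h1, h2⟩ := ((hQ.eventually_lt_const (u := 293 / 1000) (by norm_num [Q])).and
    (i1.eventually_const_lt (u := 1 / 12) (by norm_num))).exists
  obtain ⟨θ, t0, t1, t2⟩ := gS n
  obtain ⟨p1, p2, p3, θ', t3, t4⟩ := kP n
  refine ⟨θ, min ((1 - 2 * θ) / 3) (1 - θ'), G n, k n, ⟨t0, lt_min (by linarith) (by linarith), ?_,
    gT n, t2, p1, p2, fun v hv => t4 v ?_⟩, p3, by linarith, h1⟩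
  · linarith [min_le_left ((1 - 2 * θ) / 3) (1 - θ')]
  · linarith [min_le_right ((1 - 2 * θ) / 3) (1 - θ')]

end Pool.Agent.P.MP_7eacff_nt.SZ
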