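import Pool.Agent.P.MP_7eacff_nt.SZ.Wf

/-!
Smooth approximations of the mollifier polynomial.
-/

open Complex Filter Topology MeasureTheory Set
open scoped Real ContDiff

namespace Pool.Agent.P.MP_7eacff_nt.SZ

open Pool.Agent.Lib.LargeSieve (primSet mem_primSet)

namespace DataFAux

open Real (smoothTransition)

theorem der_zero {y : ℝ} (h : y < 0 ∨ 1 < y) : deriv smoothTransition y = 0 := by
  rcases h with h | h
  · have : smoothTransition =ᶠ[𝓝 y] fun _ => 0 := by
      filter_upwards [Iio_mem_nhds h] with z hz using smoothTransition.zero_of_nonpos hz.le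
    rw [this.deriv_eq, deriv_const]
  · have : smoothTransition =ᶠ[𝓝 y] fun _ => 1 := by
      filter_upwards [Ioi_mem_nhds h] with z hz using smoothTransition.one_of_one_le hz.le
    rw [this.deriv_eq, deriv_const]

theorem der_bd : ∃ B : ℝ, 0 ≤ B ∧ ∀ y ∈ Icc (0 : ℝ) 1, |deriv smoothTransition y| ≤ B := by
  have hc : Continuous (deriv smoothTransition) :=
    (smoothTransition.contDiff (n := 1)).continuous_deriv le_rfl
  obtain ⟨B, hB⟩ := (isCompact_Icc (a := (0 : ℝ)) (b := 1)).exists_bound_of_continuousOn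
    hc.continuousOn
  exact ⟨B, (norm_nonneg _).trans (hB 0 (left_mem_Icc.2 zero_le_one)), hB⟩

/-- The argument of the cut-off function. -/
noncomputable def y (n : ℕ) (r : ℝ) : ℝ := ((n : ℝ) + 10) * (1 / 2 - r) - 1

/-- The approximation. -/
noncomputable def G (n : ℕ) (r : ℝ) : ℝ :=
  (9 / 16 - 9 / 4 * r ^ 2) * smoothTransition (y n r) * smoothTransition (r + 1)

theorem y_neg (n : ℕ) {r : ℝ} (h : 1 / 2 ≤ r) : y n r < 0 := by
  have : ((n : ℝ) + 10) * (1 / 2 - r) ≤ 0 :=
    mul_nonpos_of_nonneg_of_nonpos (by positivity) (by linarith)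
  unfold y
  linarith

theorem y_big {r : ℝ} (h : r < 1 / 2) : ∀ᶠ n in atTop, 1 < y n r := by
  have : Tendsto (fun n : ℕ => y n r) atTop atTop :=
    tendsto_atTop_add_const_right _ (-1) ((tendsto_atTop_add_const_right _ 10
      tendsto_natCast_atTop_atTop).atTop_mul_const (by linarith))
  exact this.eventually_gt_atTop 1

theorem cd (n : ℕ) : ContDiff ℝ ∞ (G n) := by
  have h1 : ContDiff ℝ ∞ (y n) := by unfold y; fun_prop
  have h2 : ContDiff ℝ ∞ fun r : ℝ => 9 / 16 - 9 / 4 * r ^ 2 := by fun_prop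
  exact (h2.mul (smoothTransition.contDiff.comp h1)).mul
    (smoothTransition.contDiff.comp (contDiff_id.add contDiff_const))

theorem G_pos (n : ℕ) {r : ℝ} (h : 0 ≤ r) :
    G n r = (9 / 16 - 9 / 4 * r ^ 2) * smoothTransition (y n r) := by
  rw [G, smoothTransition.one_of_one_le (x := r + 1) (by linarith), mul_one]

theorem G_big (n : ℕ) {r : ℝ} (h : 1 / 2 ≤ r) : G n r = 0 := by
  rw [G, smoothTransition.zero_of_nonpos (y_neg n h).le, mul_zero, zero_mul]

theorem tst (n : ℕ) : Tst (G n) := by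
  refine ⟨cd n, HasCompactSupport.intro (isCompact_Icc (a := -1) (b := 1 / 2)) fun r hr => ?_⟩
  rcases lt_or_ge r (-1) with h | h
  · rw [G, smoothTransition.zero_of_nonpos (x := r + 1) (by linarith), mul_zero]
  · exact G_big n (le_of_not_ge fun h' => hr ⟨h, h'⟩)

theorem der (n : ℕ) {r : ℝ} (h : 0 < r) : deriv (G n) r =
    -(9 / 2 * r) * smoothTransition (y n r) -
      (9 / 16 - 9 / 4 * r ^ 2) * ((n : ℝ) + 10) * deriv smoothTransition (y n r) := by
  have e : G n =ᶠ[𝓝 r] fun r => (9 / 16 - 9 / 4 * r ^ 2) * smoothTransition (y n r) := by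
    filter_upwards [Ioi_mem_nhds h] with z hz using G_pos n (le_of_lt hz)
  have h1 : HasDerivAt (y n) (((n : ℝ) + 10) * -1) r :=
    (((hasDerivAt_id r).const_sub (1 / 2)).const_mul _).sub_const 1
  have h2 : HasDerivAt (fun r : ℝ => 9 / 16 - 9 / 4 * r ^ 2) (-(9 / 4 * (2 * r))) r := by
    simpa using ((hasDerivAt_pow 2 r).const_mul (9 / 4 : ℝ)).const_sub (9 / 16)
  have h3 : HasDerivAt smoothTransition (deriv smoothTransition (y n r)) (y n r) :=
    ((smoothTransition.contDiff (n := 1)).differentiable (by simp) _).hasDerivAt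
  rw [e.deriv_eq]
  refine (h2.mul (h3.comp r h1)).deriv.trans ?_
  simp only [Function.comp_apply]
  ring

theorem der_big (n : ℕ) {r : ℝ} (h : 1 / 2 ≤ r) : deriv (G n) r = 0 := by
  rw [der n (by linarith), smoothTransition.zero_of_nonpos (y_neg n h).le,
    der_zero (Or.inl (y_neg n h))]
  simp

theorem der_le : ∃ C : ℝ, ∀ n r, 0 < r → r ≤ 1 / 2 → |deriv (G n) r| ≤ C := by
  obtain ⟨B, hB0, hB⟩ := der_bd
  refine ⟨9 / 4 + 9 / 2 * B, fun n r h h' => ?_⟩
  rw [der n h]
  refine (abs_sub _ _).trans (add_le_add ?_ ?_)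
  · rw [abs_mul, abs_neg, abs_of_pos (by positivity), abs_of_nonneg (smoothTransition.nonneg _)]
    nlinarith [smoothTransition.nonneg (y n r), smoothTransition.le_one (y n r)]
  · by_cases hy : y n r < 0 ∨ 1 < y n r
    · rw [der_zero hy, mul_zero, abs_zero]
      positivity
    · push Not at hy
      rw [abs_mul]
      refine mul_le_mul ?_ (hB _ hy) (abs_nonneg _) (by norm_num)
      have e : (9 / 16 - 9 / 4 * r ^ 2) * ((n : ℝ) + 10) = 9 / 4 * (1 / 2 + r) * (y n r + 1) := by
        unfold y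
        ring
      rw [e, abs_of_nonneg (by have := hy.1; positivity)]
      nlinarith [hy.1, hy.2]

theorem lim : Tendsto (fun n => ip fun r => deriv (G n) r ^ 2) atTop (𝓝 (27 / 32)) := by
  obtain ⟨C, hC⟩ := der_le
  have hv : ∫ r in Ioi (0 : ℝ), (Iio (1 / 2 : ℝ)).indicator (fun r => 81 / 4 * r ^ 2) r =
      27 / 32 := by
    rw [setIntegral_indicator measurableSet_Iio, Ioi_inter_Iio, ← integral_Ioc_eq_integral_Ioo,
      ← intervalIntegral.integral_of_le (by norm_num), intervalIntegral.integral_const_mul,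
      integral_pow]
    norm_num
  rw [← hv]
  refine tendsto_integral_of_dominated_convergence ((Icc (0 : ℝ) (1 / 2)).indicator fun _ => C ^ 2)
    (fun n => ((tst n).der.continuous.pow 2).aestronglyMeasurable) ?_ (fun n => ?_) ?_
  · refine Integrable.integrableOn ?_
    rw [integrable_indicator_iff measurableSet_Icc]
    exact continuous_const.integrableOn_Icc
  · filter_upwards [ae_restrict_mem measurableSet_Ioi] with r hr
    rcases le_total r (1 / 2) with h | h
    · rw [indicator_of_mem (show r ∈ Icc (0 : ℝ) (1 / 2) from ⟨le_of_lt hr, h⟩), norm_pow]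
      exact pow_le_pow_left₀ (norm_nonneg _) (hC n r hr h) 2
    · rw [der_big n h, norm_pow, norm_zero, zero_pow two_ne_zero]
      exact indicator_nonneg (fun _ _ => sq_nonneg C) r
  · filter_upwards [ae_restrict_mem measurableSet_Ioi] with r hr
    rcases lt_or_ge r (1 / 2) with h | h
    · rw [indicator_of_mem (show r ∈ Iio (1 / 2 : ℝ) from h)]
      refine tendsto_const_nhds.congr' ?_
      filter_upwards [y_big h] with n hn
      rw [der n hr, smoothTransition.one_of_one_le hn.le, der_zero (Or.inr hn)]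
      ring
    · rw [indicator_of_notMem (show r ∉ Iio (1 / 2 : ℝ) from not_lt.2 h)]
      simp only [der_big _ h, zero_pow two_ne_zero]
      exact tendsto_const_nhds

end DataFAux

theorem exists_seq_F : ∃ G : ℕ → ℝ → ℝ, (∀ n, Tst (G n)) ∧
    (∀ n, ∃ θ, 0 < θ ∧ θ < 1 / 2 ∧ ∀ r, θ < r → G n r = 0) ∧ (∀ n, G n 0 = 9 / 16) ∧
    (∀ n r, 0 < r → |G n r| ≤ 1) ∧
    (∀ r, 0 < r → Tendsto (fun n => G n r) atTop (𝓝 (max (9 / 16 - 9 / 4 * r ^ 2) 0))) ∧
    Tendsto (fun n => ip fun r => deriv (G n) r ^ 2) atTop (𝓝 (27 / 32)) := by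
  refine ⟨DataFAux.G, DataFAux.tst, fun n => ?_, fun n => ?_, fun n r hr => ?_, fun r hr => ?_,
    DataFAux.lim⟩
  · have hN : (0 : ℝ) < (n : ℝ) + 10 := by positivity
    have h1 : 1 / ((n : ℝ) + 10) ≤ 1 / 10 :=
      one_div_le_one_div_of_le (by norm_num) (le_add_of_nonneg_left (by positivity))
    refine ⟨1 / 2 - 1 / ((n : ℝ) + 10), by linarith, sub_lt_self _ (by positivity), fun r h => ?_⟩
    have h2 : 1 / 2 - r < 1 / ((n : ℝ) + 10) := by linarith
    rw [lt_div_iff₀ hN] at h2
    rw [DataFAux.G, Real.smoothTransition.zero_of_nonpos (x := DataFAux.y n r)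
      (by unfold DataFAux.y; linarith), mul_zero, zero_mul]
  · rw [DataFAux.G_pos n le_rfl, Real.smoothTransition.one_of_one_le]
    · norm_num
    · have : (0 : ℝ) ≤ n := n.cast_nonneg
      unfold DataFAux.y
      linarith
  · rcases le_total r (1 / 2) with h | h
    · rw [DataFAux.G_pos n hr.le, abs_mul, abs_of_nonneg (Real.smoothTransition.nonneg _),
        abs_of_nonneg (by nlinarith)]
      exact mul_le_one₀ (by nlinarith) (Real.smoothTransition.nonneg _)
        (Real.smoothTransition.le_one _)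
    · rw [DataFAux.G_big n h, abs_zero]
      exact zero_le_one
  · rcases lt_or_ge r (1 / 2) with h | h
    · rw [max_eq_left (by nlinarith)]
      refine tendsto_const_nhds.congr' ?_
      filter_upwards [DataFAux.y_big h] with n hn
      rw [DataFAux.G_pos n hr.le, Real.smoothTransition.one_of_one_le hn.le, mul_one]
    · rw [max_eq_right (by nlinarith)]
      simp only [DataFAux.G_big _ h]
      exact tendsto_const_nhds

end Pool.Agent.P.MP_7eacff_nt.SZ
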