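import Pool.Agent.P.MP_7eacff_nt.Count
import Pool.Agent.P.MP_7eacff_nt.PrimeSum
import Pool.Agent.Lib.LargeSieve.Multiplicative

/-!
Definitions for the bound on multiple zeros of the zeta function.
-/

open Complex Filter Topology MeasureTheory Set
open scoped Real ContDiff

namespace Pool.Agent.P.MP_7eacff_nt.SZ

open Pool.Agent.Lib.LargeSieve (primSet)

/-! Arithmetic functions. -/

abbrev AF : Type := ArithmeticFunction ℂ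

/-- The constant function one. -/
noncomputable def un : AF := toArithmeticFunction fun _ => 1

/-- The logarithm. -/
noncomputable def lg : AF := toArithmeticFunction fun n => ((Real.log n : ℝ) : ℂ)

/-- The von Mangoldt function. -/
noncomputable def vm : AF :=
  toArithmeticFunction fun n => ((ArithmeticFunction.vonMangoldt n : ℝ) : ℂ)

/-- The Moebius function. -/
noncomputable def mu : AF := toArithmeticFunction fun n => ((ArithmeticFunction.moebius n : ℤ) : ℂ)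

/-- Restriction to `n ≤ Z`. -/
noncomputable def lo (Z : ℝ) (f : AF) : AF :=
  toArithmeticFunction fun n => if (n : ℝ) ≤ Z then f n else 0

/-- Restriction to `Z < n`. -/
noncomputable def hi (Z : ℝ) (f : AF) : AF :=
  toArithmeticFunction fun n => if Z < (n : ℝ) then f n else 0

/-- The number of divisors. -/
noncomputable def tau (n : ℕ) : ℝ := n.divisors.card

/-- The Ramanujan sum `c_k(m)`. -/
noncomputable def ram (k m : ℕ) : ℂ := ∑ d ∈ k.divisors, if d ∣ m then mu (k / d) * d else 0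

/-- A Dirichlet polynomial. -/
noncomputable def dp (a : ℕ → ℂ) (N : ℕ) (s : ℂ) : ℂ := ∑ n ∈ Finset.Icc 1 N, a n * (n : ℂ) ^ (-s)

/-! Test functions, windows and line integrals. -/

/-- Smooth with compact support. -/
structure Tst (φ : ℝ → ℝ) : Prop where
  cd : ContDiff ℝ ∞ φ
  cs : HasCompactSupport φ

/-- The entire window attached to `φ` at height `T`. -/
noncomputable def wf (φ : ℝ → ℝ) (T : ℝ) (s : ℂ) : ℂ :=
  ∫ v : ℝ, (φ v : ℂ) * cexp ((s - 1 / 2) * v / T)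

/-- The cosine transform. -/
noncomputable def WR (φ : ℝ → ℝ) (u : ℝ) : ℝ := ∫ v : ℝ, φ v * Real.cos (u * v)

/-- Minus the second derivative. -/
noncomputable def top (φ : ℝ → ℝ) : ℝ → ℝ := fun v => -deriv (deriv φ) v

/-- The operator that multiplies the window by `s (1 - s) / T ^ 2`. -/
noncomputable def opT (T : ℝ) (φ : ℝ → ℝ) : ℝ → ℝ := fun v => φ v / (4 * T ^ 2) + top φ v

/-- Multiplication by the variable. -/
def xm (φ : ℝ → ℝ) : ℝ → ℝ := fun v => v * φ v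

/-- The factor in `ζ (1 - s) = chi s * ζ s`. -/
noncomputable def chi (s : ℂ) : ℂ := 2 * (2 * π : ℂ) ^ (-s) * Gamma s * cos (π * s / 2)

/-- The transform of `wf φ T * chi`. -/
noncomputable def Jf (φ : ℝ → ℝ) (T x : ℝ) : ℝ :=
  ∫ v : ℝ, 2 * Real.cos (2 * π * x * Real.exp (-v / T)) * Real.exp (-v / (2 * T)) * φ v

/-- The integral along the line of real part `3 / 2`. -/
noncomputable def LI (g : ℂ → ℂ) : ℂ := (∫ t : ℝ, g (3 / 2 + t * I)) / (2 * π)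

/-- Integrability along the line of real part `3 / 2`. -/
def LInt (g : ℂ → ℂ) : Prop := Integrable fun t : ℝ => g (3 / 2 + t * I)

/-- Decay of order `A` in the strip `a ≤ re s ≤ b`. -/
def Dec (H : ℂ → ℂ) (a b : ℝ) (A : ℕ) : Prop :=
  ∃ C : ℝ, ∀ s : ℂ, a ≤ s.re → s.re ≤ b → ‖H s‖ ≤ C / (1 + |s.im|) ^ A

/-- Polynomial growth in the strip `a ≤ re s ≤ b`. -/
def PolyG (H : ℂ → ℂ) (a b : ℝ) : Prop :=
  ∃ (C : ℝ) (A : ℕ), ∀ s : ℂ, a ≤ s.re → s.re ≤ b → ‖H s‖ ≤ C * (1 + |s.im|) ^ A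

/-- The entire function `(s - 1) ^ 2 * ζ' s`. -/
noncomputable def Z2 (s : ℂ) : ℂ := (s - 1) * deriv riemannZeta₁ s - riemannZeta₁ s

/-- The weight `V` on the positive reals with Mellin transform `M`. -/
structure Vcl (V : ℝ → ℂ) (M : ℂ → ℂ) : Prop where
  diff : ∀ x, 0 < x → DifferentiableAt ℝ V x
  bd : ∃ C : ℝ, 0 ≤ C ∧ ∀ x, 0 < x → ‖V x‖ ≤ C / (1 + x) ^ 2 ∧ ‖deriv V x‖ ≤ C / (1 + x) ^ 3
  cont : ContinuousOn M {s | 0 ≤ s.re ∧ s.re ≤ 2}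
  dec : ∀ A, Dec M 0 2 A
  inv : ∀ σ : ℝ, 0 ≤ σ → σ ≤ 2 → ∀ x : ℝ, 0 < x →
    V x = (∫ t : ℝ, M (σ + t * I) * (x : ℂ) ^ (-(σ + t * I : ℂ))) / (2 * π)

/-- The autocorrelation. -/
noncomputable def ac (U : ℝ → ℝ) (v : ℝ) : ℝ := ∫ x : ℝ, U x * U (x + v)

/-- The product of two characters, to the product of the moduli. -/
noncomputable def pc {q₁ q₂ : ℕ} (χ₁ : DirichletCharacter ℂ q₁) (χ₂ : DirichletCharacter ℂ q₂) :
    DirichletCharacter ℂ (q₁ * q₂) :=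
  DirichletCharacter.changeLevel (dvd_mul_right q₁ q₂) χ₁ *
    DirichletCharacter.changeLevel (dvd_mul_left q₂ q₁) χ₂

/-! The sums over fractions `m / k`. -/

noncomputable def GS (h : ℝ → ℂ) (b c : ℕ → ℂ) (T : ℝ) : ℂ :=
  ∑ k ∈ Finset.Icc 1 ⌊T⌋₊, b k / k * ∑' m : ℕ, c m * h (m / k)

noncomputable def MT (V : ℝ → ℂ) (b c : ℕ → ℂ) (T : ℝ) : ℂ :=
  ∑ k ∈ Finset.Icc 1 ⌊T⌋₊, b k / k * ∑' m : ℕ, c m * (ram k m / k.totient) * V (m / (k * T))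

noncomputable def ER (V : ℝ → ℂ) (b c : ℕ → ℂ) (T : ℝ) : ℂ :=
  ∑ k ∈ Finset.Icc 1 ⌊T⌋₊, b k / k * ∑' m : ℕ,
    c m * ((Real.cos (2 * π * (m / k)) : ℝ) - ram k m / k.totient) * V (m / (k * T))

/-! Families of arithmetic functions indexed by the height. -/

/-- Bounded, supported on squarefree numbers up to `T ^ θ`. -/
def Moll (θ : ℝ) (b : ℝ → AF) : Prop :=
  ∃ B : ℝ, ∀ᶠ T : ℝ in atTop, ∀ k, ‖b T k‖ ≤ B ∧ (b T k ≠ 0 → Squarefree k ∧ (k : ℝ) ≤ T ^ θ)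

/-- Divisor bounded up to logarithms, with polynomial support. -/
def Tame (f : ℝ → AF) : Prop :=
  ∃ j : ℕ, ∀ᶠ T : ℝ in atTop, ∀ n,
    ‖f T n‖ ≤ Real.log T ^ j * tau n ^ j ∧ (T ^ j < (n : ℝ) → f T n = 0)

/-- Supported on `n ≤ T ^ x`. -/
def Supp (x : ℝ) (f : ℝ → AF) : Prop := ∀ᶠ T : ℝ in atTop, ∀ n : ℕ, T ^ x < (n : ℝ) → f T n = 0

/-- Slowly growing. -/
def Mod (c : ℝ → AF) : Prop :=
  ∀ ε : ℝ, 0 < ε → ∀ᶠ T : ℝ in atTop, ∀ m, ‖c T m‖ ≤ T ^ ε * (m : ℝ) ^ ε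

/-- The four basic functions. -/
def Lam (f : AF) : Prop := f = 1 ∨ f = un ∨ f = lg ∨ f = vm

/-- Truncation at `T ^ 20`. -/
noncomputable def tr (f : AF) (T : ℝ) : AF := lo (T ^ 20) f

noncomputable def SS (V : ℝ → ℂ) (f : ℕ → ℂ) (d : ℕ) (ψ : ℕ → ℂ) (X : ℝ) : ℂ :=
  ∑' m : ℕ, f (d * m) * ψ m * V (m / X)

/-- The average over primitive characters of conductor in `(Q₀, Q₁]`. -/
noncomputable def NB (V : ℝ → ℂ) (f : ℕ → ℂ) (Q₀ Q₁ : ℝ) (d : ℕ) (Y : ℝ) : ℝ :=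
  ∑ q ∈ (Finset.Icc 1 ⌊Q₁⌋₊).filter fun q : ℕ => Q₀ < (q : ℝ),
    (q : ℝ) ^ (-(3 / 2) : ℝ) * ∑ ψ ∈ primSet q, ‖SS V f d (fun m => ψ m) (q * Y)‖

/-- The bound for large conductors. -/
def SmallB (θ η : ℝ) (V : ℝ → ℂ) (f : ℝ → AF) : Prop :=
  ∃ j : ℕ, ∀ᶠ T : ℝ in atTop, ∀ (Q₀ Q₁ Y : ℝ) (d : ℕ), 1 ≤ Q₀ → Squarefree d →
    1 ≤ Q₁ → Q₁ * d ≤ T ^ θ → T ≤ Y → Y ≤ T ^ 2 →
    NB V (f T) Q₀ Q₁ d Y ≤
      tau d ^ j * Y * Real.log T ^ j * (Q₀ ^ (-(1 / 2) : ℝ) + T ^ (-(η / 2)))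

def Absb (θ η : ℝ) (V : ℝ → ℂ) (a : ℝ → AF) : Prop :=
  Tame a ∧ ∀ α, Tame α → SmallB θ η V fun T => a T * α T

def Red (θ η : ℝ) (V : ℝ → ℂ) (f : ℝ → AF) : Prop :=
  ∃ s a, Tame s ∧ Supp (θ + η) s ∧ Absb θ η V a ∧ ∀ᶠ T : ℝ in atTop, f T = s T + a T

/-- A character restricted to the integers prime to `g`. -/
noncomputable def tw {q : ℕ} (ψ : DirichletCharacter ℂ q) (g m : ℕ) : ℂ :=
  if m.Coprime g then ψ m else 0

/-- Cancellation in character sums of length at least `T ^ y`, for small conductors. -/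
def Canc (y : ℝ) (f : ℝ → AF) : Prop :=
  ∀ C A : ℕ, ∀ᶠ T : ℝ in atTop, ∀ q : ℕ, 1 < q → (q : ℝ) ≤ Real.log T ^ C → ∀ ψ ∈ primSet q,
    ∀ d g : ℕ, 0 < d → 0 < g → (g : ℝ) * d ≤ T → ∀ x : ℕ, T ^ y ≤ x →
      ‖∑ n ∈ Finset.Icc 1 x, f T (d * n) * tw ψ g n‖ ≤ tau g * x / Real.log T ^ A

/-- The bound for small conductors. -/
def CA (V : ℝ → ℂ) (x : ℝ) (f : ℝ → AF) : Prop :=
  ∃ j : ℕ, ∀ C A : ℕ, ∀ᶠ T : ℝ in atTop, ∀ q : ℕ, 1 < q → (q : ℝ) ≤ Real.log T ^ C →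
    ∀ ψ ∈ primSet q, ∀ d g : ℕ, Squarefree d → 0 < g → (g : ℝ) * d ≤ T → ∀ X : ℝ, T ^ x ≤ X →
      ‖SS V (f T) d (tw ψ g) X‖ ≤ tau g * tau d ^ j * X / Real.log T ^ A

/-! The main term. -/

noncomputable def pw (u : ℂ) : AF := toArithmeticFunction fun n => (n : ℂ) ^ (-u)

noncomputable def mw (v : ℂ) : AF := toArithmeticFunction fun n => mu n * (n : ℂ) ^ (-v)

noncomputable def cel (u₁ u₂ u₃ v₁ v₂ : ℂ) : AF := pw u₁ * mw v₁ * (pw u₂ * mw v₂) * pw u₃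

/-- Allowed real parts of the shifts. -/
structure Reg (z u₁ u₂ u₃ v₁ v₂ : ℂ) : Prop where
  hz : z.re = 1
  h₁ : -(1 / 4) ≤ u₁.re ∧ u₁.re ≤ 5 / 4
  h₂ : -(1 / 4) ≤ u₂.re ∧ u₂.re ≤ 5 / 4
  h₃ : -(1 / 4) ≤ u₃.re ∧ u₃.re ≤ 5 / 4
  k₁ : 0 ≤ v₁.re ∧ v₁.re ≤ 1
  k₂ : 0 ≤ v₂.re ∧ v₂.re ≤ 1

noncomputable def siz (z u₁ u₂ u₃ v₁ v₂ : ℂ) : ℝ := 1 + ‖z‖ + ‖u₁‖ + ‖u₂‖ + ‖u₃‖ + ‖v₁‖ + ‖v₂‖

/-- The part of the summand that does not depend on the shifts. -/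
noncomputable def ker (V : ℝ → ℂ) (T : ℝ) (x : ℕ × ℕ) : ℂ :=
  mu x.1 / x.1 * (ram x.1 x.2 / x.1.totient) * V (x.2 / (x.1 * T))

/-- The part of the summand that depends on the shifts, with `L = log T`. -/
noncomputable def cof (L : ℝ) (z u₁ u₂ u₃ v₁ v₂ : ℂ) (x : ℕ × ℕ) : ℂ :=
  pw (z / L) x.1 * cel (u₁ / L) (u₂ / L) (u₃ / L) (v₁ / L) (v₂ / L) x.2

noncomputable def Eel (V : ℝ → ℂ) (T : ℝ) (z u₁ u₂ u₃ v₁ v₂ : ℂ) : ℂ :=
  (∑' x : ℕ × ℕ, cof (Real.log T) z u₁ u₂ u₃ v₁ v₂ x * ker V T x) / T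

noncomputable def rat (σ z u v : ℂ) : ℂ := (z + u) * (σ + v) / ((σ + u) * (z + v))

/-- The inverse Laplace transform at `1`, along the line of real part `1 / 2`. -/
noncomputable def IL (g : ℂ → ℂ) : ℂ :=
  (∫ t : ℝ, cexp (1 / 2 + t * I) * g (1 / 2 + t * I)) / (2 * π)

noncomputable def sym (z u₁ u₂ u₃ v₁ v₂ σ : ℂ) : ℂ :=
  rat σ z u₁ v₁ * rat σ z u₂ v₂ * ((z + u₃) / ((σ + u₃) * (z - σ)))

/-- The double Dirichlet series. -/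
noncomputable def Zf (s z u₁ u₂ u₃ v₁ v₂ : ℂ) : ℂ :=
  ∑' x : ℕ × ℕ, pw z x.1 * cel u₁ u₂ u₃ v₁ v₂ x.2 * (mu x.1 / x.1 * (ram x.1 x.2 / x.1.totient)) *
    ((x.1 : ℂ) ^ s * (x.2 : ℂ) ^ (-s))

/-- The local factor of the arithmetic constant. -/
noncomputable def loc (P : ℝ) (a x₁ x₂ x₃ y₁ y₂ : ℂ) : ℂ :=
  (1 + a * (1 - P + P * ((1 - x₁) * (1 - x₂) * (1 - x₃) / ((1 - y₁) * (1 - y₂)))) / (P - 1)) *
    ((1 - a / P) * (1 - a * y₁) * (1 - a * y₂) / ((1 - a * x₁) * (1 - a * x₂) * (1 - a * x₃)))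

noncomputable def locp (s z u₁ u₂ u₃ v₁ v₂ : ℂ) (p : Nat.Primes) : ℂ :=
  loc (p : ℕ) (((p : ℕ) : ℂ) ^ (s - 1 - z)) (((p : ℕ) : ℂ) ^ (-(s + u₁)))
    (((p : ℕ) : ℂ) ^ (-(s + u₂))) (((p : ℕ) : ℂ) ^ (-(s + u₃))) (((p : ℕ) : ℂ) ^ (-(s + v₁)))
    (((p : ℕ) : ℂ) ^ (-(s + v₂)))

noncomputable def Dp (s u₁ u₂ u₃ v₁ v₂ : ℂ) (p : ℕ) : ℂ :=
  (1 - (p : ℂ) ^ (-(s + u₁))) * (1 - (p : ℂ) ^ (-(s + u₂))) * (1 - (p : ℂ) ^ (-(s + u₃))) /
    ((1 - (p : ℂ) ^ (-(s + v₁))) * (1 - (p : ℂ) ^ (-(s + v₂))))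

/-- A point on the circle of radius `1 / 4`. -/
noncomputable def cz (x : ℝ) : ℂ := cexp (x * I) / 4

/-- The density on the circle that computes minus the derivative at the centre. -/
noncomputable def cr (x : ℝ) : ℂ := -(2 / π) * cexp (-x * I)

/-- A family is an average of functions `pw u * mw v`, and `S` is its symbol. -/
def PRep (f : ℝ → AF) (S : ℂ → ℂ → ℂ) : Prop :=
  ∃ (ν : Measure (ℝ × ℝ)) (_ : SFinite ν) (ρ u v : ℝ × ℝ → ℂ),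
    Measurable ρ ∧ Measurable u ∧ Measurable v ∧
    (∀ w, (-(1 / 4) ≤ (u w).re ∧ (u w).re ≤ 5 / 4) ∧ 0 ≤ (v w).re ∧ (v w).re ≤ 1) ∧
    (∀ A : ℕ, Integrable (fun w => ‖ρ w‖ * (1 + ‖u w‖ + ‖v w‖) ^ A) ν) ∧
    (∀ T : ℝ, 1 < T → ∀ n,
      f T n = ∫ w, ρ w * (pw (u w / Real.log T) * mw (v w / Real.log T)) n ∂ν) ∧
    ∀ σ z : ℂ, σ.re = 1 / 2 → z.re = 1 → S σ z = ∫ w, ρ w * rat σ z (u w) (v w) ∂ν

/-- The density in `F r = ∫ fd F ξ * exp (-(1 + i ξ) r)`. -/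
noncomputable def fd (F : ℝ → ℝ) (ξ : ℝ) : ℂ :=
  (∫ r : ℝ, (F r : ℂ) * cexp ((1 + ξ * I) * r)) / (2 * π)

/-- The average against the density of `F`. -/
noncomputable def av (F : ℝ → ℝ) (g : ℂ → ℂ) : ℂ := ∫ ξ : ℝ, fd F ξ * g (1 + ξ * I)

/-- The Laplace transform. -/
noncomputable def Lap (G : ℝ → ℝ) (z : ℂ) : ℂ := ∫ r in Ioi (0 : ℝ), (G r : ℂ) * cexp (-z * r)

/-- The coefficients of the mollifier. -/
noncomputable def bF (F : ℝ → ℝ) (T : ℝ) : AF :=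
  toArithmeticFunction fun n => mu n * (F (Real.log n / Real.log T) : ℝ)

/-- The weighted von Mangoldt function. -/
noncomputable def aP (κ : ℝ → ℝ) (T : ℝ) : AF :=
  toArithmeticFunction fun n => vm n * (κ (Real.log n / Real.log T) : ℝ)

/-- The main term of `c` has order `T * log T ^ e` with constant `l`. -/
def MLim (b c : ℝ → AF) (e : ℕ) (l : ℝ) : Prop :=
  ∀ V M, Vcl V M → Tendsto (fun T : ℝ => MT V (b T) (c T) T / (T * Real.log T ^ e : ℝ)) atTop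
    (𝓝 (M 1 * l))

/-- The non principal characters are negligible. -/
def ELim (b c : ℝ → AF) : Prop :=
  ∀ V M, Vcl V M → Tendsto (fun T : ℝ => ER V (b T) (c T) T / T) atTop (𝓝 0)

/-! The constants. -/

/-- The integral over the positive reals. -/
noncomputable def ip (g : ℝ → ℝ) : ℝ := ∫ r in Ioi (0 : ℝ), g r

/-- The tail integral. -/
noncomputable def tl (F : ℝ → ℝ) (r : ℝ) : ℝ := ∫ x in Ioi r, F x

noncomputable def a0 (κ : ℝ → ℝ) : ℝ := 1 + κ 0 - 4 * ip κ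

noncomputable def m2 (F : ℝ → ℝ) : ℝ := F 0 / 2 - ip F

noncomputable def m3 (F κ : ℝ → ℝ) : ℝ :=
  F 0 * ip (fun v => κ v * (1 - v)) - ip fun v => κ v * F v

noncomputable def m4 (F κ : ℝ → ℝ) : ℝ :=
  F 0 * ip (fun v => κ v * (1 - v) ^ 2) / 2 - ip (fun v => κ v * F v) / 2 -
    ip F * ip (fun v => κ v * (1 - v)) + ip fun v => κ v * tl F v

noncomputable def m5 (F : ℝ → ℝ) : ℝ := F 0 ^ 2 / 2 + ip (fun r => deriv F r ^ 2) / 2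

noncomputable def m6 (F : ℝ → ℝ) : ℝ := ip (fun r => deriv F r ^ 2) / 6 - ip fun r => F r ^ 2

noncomputable def m7 (F : ℝ → ℝ) : ℝ :=
  -F 0 ^ 2 / 12 + F 0 * ip F / 2 + ip (fun r => deriv F r ^ 2) / 24 -
    3 / 2 * ip (fun r => F r ^ 2) + ip F ^ 2 / 2

/-- The constant in the mean square on the critical line. -/
noncomputable def qM (F κ : ℝ → ℝ) : ℝ :=
  a0 κ ^ 2 + 4 * ip (fun v => v * κ v ^ 2) - 4 * F 0 * ip (fun v => v * κ v) + m5 F - m6 F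

/-- The constant in the mean square twisted by the logarithmic derivative. -/
noncomputable def qZ (F κ : ℝ → ℝ) : ℝ :=
  2 * a0 κ * ip (fun v => v * κ v) - (a0 κ * F 0 - 2 * m3 F κ + m6 F) +
    (a0 κ * m2 F - 2 * m4 F κ + m7 F)

/-- Admissible data. -/
structure Adm (θ η : ℝ) (F κ : ℝ → ℝ) : Prop where
  hθ : 0 < θ
  hη : 0 < η
  hθη : 2 * θ + 3 * η ≤ 1
  tF : Tst F
  sF : ∀ r, θ < r → F r = 0
  tκ : Tst κ
  eκ : Function.Even κ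
  sκ : ∀ v, 1 - η < v → κ v = 0

/-- The coefficients of the prime part. -/
noncomputable def aA (κ : ℝ → ℝ) (T : ℝ) : AF :=
  (a0 κ : ℂ) • (1 : AF) - (2 / (Real.log T : ℝ) : ℂ) • aP κ T

/-- The Dirichlet coefficients of the function whose mean square is computed. -/
noncomputable def fF (F κ : ℝ → ℝ) (T : ℝ) : AF :=
  aA κ T + (1 / (Real.log T : ℝ) : ℂ) • (bF F T * lg)

/-- The function whose mean square over the zeros is computed, times `(s - 1) ^ 2`. -/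
noncomputable def Fe (F κ : ℝ → ℝ) (T : ℝ) (s : ℂ) : ℂ :=
  (s - 1) ^ 2 * dp (aA κ T) ⌊T⌋₊ s - Z2 s * dp (bF F T) ⌊T⌋₊ s / (Real.log T : ℝ)

/-- The entire function summed over the zeros is `s * (1 - s) * H0 φ F κ T s`. -/
noncomputable def H0 (φ F κ : ℝ → ℝ) (T : ℝ) (s : ℂ) : ℂ :=
  wf φ T s * Fe F κ T s * Fe F κ T (1 - s) / T ^ 6

end Pool.Agent.P.MP_7eacff_nt.SZ
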