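import Pool.Agent.P.MP_7eacff_nt.SZ.Basic

/-!
Definitions for the passage from multiple zeros to close pairs of zeros.
-/

open Complex Filter Topology MeasureTheory Set
open scoped Real ContDiff

namespace Pool.Agent.P.MP_7eacff_nt.SZ

/-- The mollified zeta function times a window. -/
noncomputable def Ph (U F : ℝ → ℝ) (T : ℝ) (s : ℂ) : ℂ :=
  wf U T s * riemannZeta₁ s * dp (bF F T) ⌊T⌋₊ s / T

/-- The mean square on a vertical line. -/
noncomputable def msq (Φ : ℂ → ℂ) (σ : ℂ) : ℝ := ∫ t : ℝ, ‖Φ (σ + t * I)‖ ^ 2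

/-- The indices that are an end of a gap in `S`. -/
def ends (S : Finset ℕ) : Finset ℕ := S ∪ S.image fun n => n + 1

end Pool.Agent.P.MP_7eacff_nt.SZ
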