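import Pool.Agent.P.MP_7eacff_nt.SZ.Fam

/-!
The diagonal prime sums.
-/

open Complex Filter Topology MeasureTheory Set
open scoped Real ContDiff

namespace Pool.Agent.P.MP_7eacff_nt.SZ

open Pool.Agent.Lib.LargeSieve (primSet mem_primSet)

variable {θ η : ℝ} {F κ : ℝ → ℝ}

namespace DiagAux

open ArithmeticFunction (vonMangoldt)

theorem ip_eq {g : ℝ → ℝ} (hs : ∀ v, 1 < v → g v = 0) :
    (ip fun v => v * g v) = ∫ u in (0 : ℝ)..1, u * g u := by
  rw [intervalIntegral.integral_of_le zero_le_one, ip]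
  refine setIntegral_eq_of_subset_of_forall_sdiff_eq_zero measurableSet_Ioi Ioc_subset_Ioi_self
    fun x hx => ?_
  rw [hs x (not_le.1 fun h => hx.2 ⟨hx.1, h⟩), mul_zero]

theorem key {g : ℝ → ℝ} (hg : ContDiff ℝ 1 g) (hs : ∀ v, 1 < v → g v = 0) {c : ℝ → ℕ → ℂ}
    {l C : ℝ} (hp : ∀ T p, p.Prime → c T p = l * Real.log p * g (Real.log p / Real.log T))
    (hn : ∀ T : ℝ, 1 < T → ∀ p j : ℕ, p.Prime → ((p ^ j : ℕ) : ℝ) ≤ T →
      ‖c T (p ^ j)‖ ≤ C * Real.log T) :
    Tendsto (fun T : ℝ => ∑ n ∈ Finset.Icc 1 ⌊T⌋₊,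
      (vonMangoldt n : ℂ) * c T n / (n * (Real.log T : ℝ) ^ 2)) atTop
      (𝓝 ((l * ip fun v => v * g v : ℝ) : ℂ)) := by
  have h1 := ((continuous_ofReal.tendsto _).comp
    ((tendsto_prime_sum (F := fun u => u * g u) (contDiff_id.mul hg)).const_mul l))
  have h2 : Tendsto (fun T : ℝ => ∑ n ∈ Finset.Icc 1 ⌊T⌋₊ with ¬n.Prime,
      (vonMangoldt n : ℂ) * c T n / (n * (Real.log T : ℝ) ^ 2)) atTop (𝓝 0) := by
    have hs := Pool.Agent.Lib.Mertens.summable_nonprime_vonMangoldt_div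
    refine squeeze_zero_norm' ?_ (tendsto_const_nhds (x := |C| *
      ∑' n : ℕ, (if n.Prime then 0 else vonMangoldt n) / (n : ℝ)).div_atTop Real.tendsto_log_atTop)
    filter_upwards [eventually_gt_atTop 1] with T hT
    have hL := Real.log_pos hT
    have h0 : ∀ n : ℕ, 0 ≤ (if n.Prime then 0 else vonMangoldt n) / (n : ℝ) := fun n => by
      have := ArithmeticFunction.vonMangoldt_nonneg (n := n)
      split_ifs <;> positivity
    rw [Finset.sum_filter, mul_div_right_comm]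
    refine (norm_sum_le _ _).trans (le_trans ?_ (mul_le_mul_of_nonneg_left
      (hs.sum_le_tsum (Finset.Icc 1 ⌊T⌋₊) fun n _ => h0 n) (by positivity)))
    rw [Finset.mul_sum]
    refine Finset.sum_le_sum fun n hn' => ?_
    by_cases h3 : n.Prime
    · simp [h3]
    rw [if_pos h3, if_neg h3]
    by_cases h4 : IsPrimePow n
    · obtain ⟨p, j, hp, -, rfl⟩ := (isPrimePow_nat_iff n).1 h4
      obtain ⟨h5, h6⟩ := Finset.mem_Icc.1 hn'
      have h7 := (hn T hT p j hp ((Nat.le_floor_iff (by linarith)).1 h6)).trans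
        (mul_le_mul_of_nonneg_right (le_abs_self C) hL.le)
      have h8 : (0 : ℝ) < (p ^ j : ℕ) := by exact_mod_cast h5
      have h9 := ArithmeticFunction.vonMangoldt_nonneg (n := p ^ j)
      rw [norm_div, norm_mul, norm_mul, norm_pow, Complex.norm_real, Complex.norm_real,
        Complex.norm_natCast, Real.norm_of_nonneg h9, Real.norm_of_nonneg hL.le]
      calc _ ≤ vonMangoldt (p ^ j) * (|C| * Real.log T) / ((p ^ j : ℕ) * Real.log T ^ 2) := by
            gcongr
        _ = _ := by field_simp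
    · simp [ArithmeticFunction.vonMangoldt_eq_zero_iff.2 h4]
  have h3 := h1.add h2
  rw [add_zero, ← ip_eq hs] at h3
  refine h3.congr fun T => ?_
  refine Eq.trans ?_ (Finset.sum_filter_add_sum_filter_not _ Nat.Prime _)
  congr 1
  rw [Function.comp_apply, Finset.mul_sum, Complex.ofReal_sum]
  refine Finset.sum_congr rfl fun p hp' => ?_
  have h4 := (Finset.mem_filter.1 hp').2
  rw [hp T p h4, ArithmeticFunction.vonMangoldt_apply_prime h4]
  push_cast
  ring

theorem aA_apply (κ : ℝ → ℝ) (T : ℝ) (n : ℕ) : aA κ T n = (if n = 1 then (a0 κ : ℂ) else 0) -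
    2 / (Real.log T : ℝ) * ((vonMangoldt n : ℝ) * (κ (Real.log n / Real.log T) : ℝ)) := by
  have h : aP κ T n = (vonMangoldt n : ℝ) * (κ (Real.log n / Real.log T) : ℝ) := by
    rcases eq_or_ne n 0 with rfl | hn
    · simp
    · simp only [aP, toAF_apply, hn, if_false, vm_apply]
  rw [aA, sub_eq_add_neg, ArithmeticFunction.add_apply, ArithmeticFunction.neg_apply,
    ArithmeticFunction.smul_map, ArithmeticFunction.smul_map, h, ArithmeticFunction.one_apply,
    smul_eq_mul, smul_eq_mul, mul_ite, mul_one, mul_zero, sub_eq_add_neg]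

theorem mul_prime (f : AF) {h : AF} (h1 : h 1 = 0) {p : ℕ} (hp : p.Prime) :
    (f * h) p = f 1 * h p := by
  rw [ArithmeticFunction.mul_apply, Nat.sum_divisorsAntidiagonal' fun a b => f a * h b,
    hp.sum_divisors, h1, mul_zero, add_zero, Nat.div_self hp.pos]

theorem gen (h : Adm θ η F κ) {f : ℝ → AF} {l C : ℝ} (h1 : ∀ T, f T 1 = 0)
    (hp : ∀ T p, p.Prime → f T p = l * Real.log p)
    (hn : ∀ T : ℝ, 1 < T → ∀ p j : ℕ, p.Prime → ((p ^ j : ℕ) : ℝ) ≤ T →
      ‖f T (p ^ j)‖ ≤ C * Real.log T) :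
    Tendsto (fun T : ℝ => (∑ n ∈ Finset.Icc 1 ⌊T⌋₊, aA κ T n * f T n / n) /
      (Real.log T : ℝ)) atTop (𝓝 ((-2 * l * ip fun v => v * κ v : ℝ) : ℂ)) := by
  obtain ⟨B, hB⟩ := h.tκ.cs.exists_bound_of_continuous h.tκ.cd.continuous
  refine (key (h.tκ.cd.of_le (by simp)) (fun v hv => h.sκ v (by linarith [h.hη]))
    (c := fun T n => -2 * (κ (Real.log n / Real.log T) : ℝ) * f T n) (l := -2 * l) (C := 2 * B * C)
    (fun T p hp' => ?_) fun T hT p j hp' hj => ?_).congr fun T => ?_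
  · rw [hp T p hp']
    push_cast
    ring
  · rw [norm_mul, norm_mul, norm_neg, Complex.norm_ofNat, Complex.norm_real, mul_assoc (2 * B)]
    have := (norm_nonneg _).trans (hB 0)
    exact mul_le_mul (mul_le_mul_of_nonneg_left (hB _) zero_le_two) (hn T hT p j hp' hj)
      (norm_nonneg _) (by positivity)
  · rw [Finset.sum_div]
    refine Finset.sum_congr rfl fun n _ => ?_
    rw [aA_apply]
    split_ifs with h2
    · simp [h2, h1]
    · ring

theorem sum_mu {p : ℕ} (hp : p.Prime) (j : ℕ) : ∑ d ∈ (p ^ j).divisors, ‖mu d‖ ≤ 2 := by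
  rw [Nat.sum_divisors_prime_pow hp]
  refine (Finset.sum_le_sum_of_subset_of_nonneg (Finset.range_subset_range.2 (Nat.le_succ _))
    fun _ _ _ => norm_nonneg _).trans ?_
  rw [Finset.sum_range_succ', Finset.sum_range_succ', Finset.sum_eq_zero fun i _ => by
    simp [mu_apply, ArithmeticFunction.moebius_apply_prime_pow hp]]
  linarith [norm_mu_le (p ^ (0 + 1)), norm_mu_le (p ^ 0)]

theorem blg_le {B : ℝ} (hB : ∀ x, ‖F x‖ ≤ B) (T : ℝ) {p : ℕ} (hp : p.Prime) (j : ℕ) :
    ‖(bF F T * lg) (p ^ j)‖ ≤ 2 * B * Real.log (p ^ j : ℕ) := by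
  have h0 := (norm_nonneg _).trans (hB 0)
  have h1 := Real.log_natCast_nonneg (p ^ j)
  rw [ArithmeticFunction.mul_apply, Nat.sum_divisorsAntidiagonal fun a b => bF F T a * lg b]
  refine (norm_sum_le _ _).trans ((Finset.sum_le_sum (g := fun d => ‖mu d‖ *
    (B * Real.log (p ^ j : ℕ))) fun d hd => ?_).trans ?_)
  · have h2 := Nat.pos_of_mem_divisors hd
    have h3 : 0 < p ^ j / d := Nat.div_pos (Nat.divisor_le hd) h2
    simp only [bF, toAF_apply, h2.ne', if_false]
    rw [norm_mul, norm_mul, norm_lg, Complex.norm_real, mul_assoc]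
    exact mul_le_mul_of_nonneg_left (mul_le_mul (hB _) (Real.log_le_log (by exact_mod_cast h3)
      (by exact_mod_cast Nat.div_le_self _ _)) (Real.log_natCast_nonneg _) h0) (norm_nonneg _)
  · rw [← Finset.sum_mul, mul_assoc]
    exact mul_le_mul_of_nonneg_right (sum_mu hp j) (by positivity)

theorem log_le {T : ℝ} {p : ℕ} (hp : p.Prime) {j : ℕ} (hj : ((p ^ j : ℕ) : ℝ) ≤ T) :
    Real.log (p ^ j : ℕ) ≤ Real.log T :=
  Real.log_le_log (by exact_mod_cast pow_pos hp.pos j) hj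

theorem fF_apply (T : ℝ) (n : ℕ) :
    fF F κ T n = aA κ T n + 1 / (Real.log T : ℝ) * (bF F T * lg) n := by
  rw [fF, ArithmeticFunction.add_apply, ArithmeticFunction.smul_map, smul_eq_mul]

theorem blg_one (T : ℝ) : (bF F T * lg) 1 = 0 := by
  simp [lg_apply]

theorem fF_le {B B' : ℝ} (hB : ∀ x, ‖F x‖ ≤ B) (hB' : ∀ x, ‖κ x‖ ≤ B') {T : ℝ} (hT : 1 < T)
    {p : ℕ} (hp : p.Prime) {j : ℕ} (hj : ((p ^ j : ℕ) : ℝ) ≤ T) :
    ‖fF F κ T (p ^ j)‖ ≤ |a0 κ| + 2 * B' + 2 * B := by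
  have hL := Real.log_pos hT
  have h0 := (norm_nonneg _).trans (hB 0)
  have h1 := log_le hp hj
  rw [fF_apply, aA_apply]
  refine (norm_add_le _ _).trans (add_le_add ((norm_sub_le _ _).trans (add_le_add ?_ ?_)) ?_)
  · split_ifs <;> simp
  · rw [norm_mul, norm_mul, norm_div, Complex.norm_ofNat, Complex.norm_real, Complex.norm_real,
      Complex.norm_real, Real.norm_of_nonneg hL.le,
      Real.norm_of_nonneg ArithmeticFunction.vonMangoldt_nonneg]
    have h2 := (ArithmeticFunction.vonMangoldt_le_log (n := p ^ j)).trans h1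
    calc _ ≤ 2 / Real.log T * (Real.log T * B') := by
          gcongr
          exact hB' _
      _ = _ := by field_simp
  · rw [norm_mul, norm_div, norm_one, Complex.norm_real, Real.norm_of_nonneg hL.le]
    calc _ ≤ 1 / Real.log T * (2 * B * Real.log T) := by
          gcongr
          exact (blg_le hB T hp j).trans (by gcongr)
      _ = _ := by field_simp

end DiagAux

theorem tendsto_vm_sq {g : ℝ → ℝ} (hg : ContDiff ℝ 1 g) (hs : ∀ v, 1 < v → g v = 0) :
    Tendsto (fun T : ℝ => ∑ n ∈ Finset.Icc 1 ⌊T⌋₊,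
      ArithmeticFunction.vonMangoldt n ^ 2 / (n * Real.log T ^ 2) * g (Real.log n / Real.log T))
      atTop (𝓝 (ip fun v => v * g v)) := by
  obtain ⟨B, hB⟩ := (isCompact_Icc (a := (0 : ℝ)) (b := 1)).exists_bound_of_continuousOn
    hg.continuous.continuousOn
  have h := DiagAux.key hg hs (c := fun T n => (ArithmeticFunction.vonMangoldt n : ℝ) *
    (g (Real.log n / Real.log T) : ℝ)) (l := 1) (C := B) (fun T p hp => by
      simp [ArithmeticFunction.vonMangoldt_apply_prime hp]) fun T hT p j hp hj => by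
      have hL := Real.log_pos hT
      have h1 := DiagAux.log_le hp hj
      rw [norm_mul, Complex.norm_real, Complex.norm_real, mul_comm,
        Real.norm_of_nonneg ArithmeticFunction.vonMangoldt_nonneg]
      exact mul_le_mul (hB _ ⟨div_nonneg (Real.log_natCast_nonneg _) hL.le, (div_le_one hL).2 h1⟩)
        (ArithmeticFunction.vonMangoldt_le_log.trans h1) ArithmeticFunction.vonMangoldt_nonneg
        ((norm_nonneg _).trans (hB 0 ⟨le_rfl, zero_le_one⟩))
  rw [one_mul] at h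
  refine tendsto_ofReal_iff.1 (h.congr fun T => ?_)
  rw [Complex.ofReal_sum]
  refine Finset.sum_congr rfl fun n _ => ?_
  simp only [ofReal_mul, ofReal_div, ofReal_pow, ofReal_natCast]
  ring

theorem diag_one (h : Adm θ η F κ) :
    Tendsto (fun T : ℝ => ∑ n ∈ Finset.Icc 1 ⌊T⌋₊, aA κ T n * aA κ T n / n) atTop
      (𝓝 ((a0 κ ^ 2 + 4 * ip fun v => v * κ v ^ 2 : ℝ) : ℂ)) := by
  have h1 := (continuous_ofReal.tendsto _).comp (((tendsto_vm_sq (g := fun v => κ v ^ 2)
    ((h.tκ.cd.of_le (by simp)).pow 2) fun v hv => by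
      rw [h.sκ v (by linarith [h.hη]), zero_pow two_ne_zero]).const_mul 4).const_add (a0 κ ^ 2))
  refine h1.congr' ?_
  filter_upwards [eventually_ge_atTop 1] with T hT
  have h2 : ((a0 κ ^ 2 : ℝ) : ℂ) =
      ∑ n ∈ Finset.Icc 1 ⌊T⌋₊, if n = 1 then ((a0 κ ^ 2 : ℝ) : ℂ) else 0 := by
    rw [Finset.sum_ite_eq', if_pos (Finset.mem_Icc.2 ⟨le_rfl, (Nat.one_le_floor_iff T).2 hT⟩)]
  rw [Function.comp_apply, Complex.ofReal_add, h2, Finset.mul_sum, Complex.ofReal_sum,
    ← Finset.sum_add_distrib]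
  refine Finset.sum_congr rfl fun n _ => ?_
  rw [DiagAux.aA_apply]
  split_ifs with h3
  · simp [h3, sq]
  · simp only [ofReal_mul, ofReal_div, ofReal_pow, ofReal_natCast, ofReal_ofNat]
    ring

theorem diag_two (h : Adm θ η F κ) :
    Tendsto (fun T : ℝ => (∑ n ∈ Finset.Icc 1 ⌊T⌋₊, aA κ T n * (bF F T * lg) n / n) /
      (Real.log T : ℝ)) atTop (𝓝 ((-2 * F 0 * ip fun v => v * κ v : ℝ) : ℂ)) := by
  obtain ⟨B, hB⟩ := h.tF.cs.exists_bound_of_continuous h.tF.cd.continuous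
  refine DiagAux.gen h (f := fun T => bF F T * lg) (C := 2 * B) DiagAux.blg_one
    (fun T p hp => ?_) fun T _ p j hp hj => (DiagAux.blg_le hB T hp j).trans ?_
  · rw [DiagAux.mul_prime _ (by simp [lg_apply]) hp, lg_apply]
    simp [bF, toAF_apply, mu_apply]
  · have := (norm_nonneg _).trans (hB 0)
    exact mul_le_mul_of_nonneg_left (DiagAux.log_le hp hj) (by positivity)

theorem diag_three (h : Adm θ η F κ) :
    Tendsto (fun T : ℝ => (∑ n ∈ Finset.Icc 1 ⌊T⌋₊, aA κ T n * (fF F κ T * vm) n / n) /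
      (Real.log T : ℝ)) atTop (𝓝 ((-2 * a0 κ * ip fun v => v * κ v : ℝ) : ℂ)) := by
  obtain ⟨B, hB⟩ := h.tF.cs.exists_bound_of_continuous h.tF.cd.continuous
  obtain ⟨B', hB'⟩ := h.tκ.cs.exists_bound_of_continuous h.tκ.cd.continuous
  refine DiagAux.gen h (f := fun T => fF F κ T * vm) (C := |a0 κ| + 2 * B' + 2 * B)
    (fun T => by simp [vm_apply]) (fun T p hp => ?_) fun T hT p j hp hj => ?_
  · rw [DiagAux.mul_prime _ (by simp [vm_apply]) hp, vm_apply, DiagAux.fF_apply, DiagAux.blg_one,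
      DiagAux.aA_apply, ArithmeticFunction.vonMangoldt_apply_prime hp]
    simp
  · have h0 := (norm_nonneg _).trans (hB 0)
    have h1 := (norm_nonneg _).trans (hB' 0)
    rw [ArithmeticFunction.mul_apply, Nat.sum_divisorsAntidiagonal' fun a b => fF F κ T a * vm b]
    refine (norm_sum_le _ _).trans ((Finset.sum_le_sum (g := fun d => (|a0 κ| + 2 * B' + 2 * B) *
      ArithmeticFunction.vonMangoldt d) fun d hd => ?_).trans ?_)
    · obtain ⟨i, -, hi⟩ := (Nat.dvd_prime_pow hp).1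
        (Nat.div_dvd_of_dvd (Nat.dvd_of_mem_divisors hd))
      rw [norm_mul, norm_vm, hi]
      refine mul_le_mul_of_nonneg_right (DiagAux.fF_le hB hB' hT hp (le_trans ?_ hj))
        ArithmeticFunction.vonMangoldt_nonneg
      rw [← hi]
      exact_mod_cast Nat.div_le_self _ _
    · rw [← Finset.mul_sum, ArithmeticFunction.vonMangoldt_sum]
      exact mul_le_mul_of_nonneg_left (DiagAux.log_le hp hj) (by positivity)

end Pool.Agent.P.MP_7eacff_nt.SZ
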