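import Pool.Agent.P.MP_7eacff_nt.SZ.Riesz

/-!
The theorem of Siegel and Walfisz.
-/

open Complex Filter Topology MeasureTheory Set
open scoped Real ContDiff

namespace Pool.Agent.P.MP_7eacff_nt.SZ

open Pool.Agent.Lib.LargeSieve (primSet mem_primSet)

namespace SWAux

theorem diff_eq (a : ℕ → ℂ) {x h : ℝ} (hh : 0 ≤ h) :
    (h : ℂ) * ∑ n ∈ Finset.Icc 1 ⌊x⌋₊, a n =
      ∑ n ∈ Finset.Icc 1 ⌊x + h⌋₊, a n * (((x + h : ℝ) : ℂ) - n) -
        ∑ n ∈ Finset.Icc 1 ⌊x⌋₊, a n * ((x : ℂ) - n) -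
        ∑ n ∈ Finset.Ioc ⌊x⌋₊ ⌊x + h⌋₊, a n * (((x + h : ℝ) : ℂ) - n) := by
  have hle : ⌊x⌋₊ ≤ ⌊x + h⌋₊ := Nat.floor_le_floor (by linarith)
  have e := Finset.sum_Ioc_consecutive (fun n : ℕ => a n * (((x + h : ℝ) : ℂ) - n))
    (Nat.zero_le ⌊x⌋₊) hle
  have e1 : ∀ z : ℕ, Finset.Ioc 0 z = Finset.Icc 1 z := fun z => rfl
  rw [e1, e1] at e
  rw [← e, Finset.mul_sum, add_sub_right_comm, add_sub_cancel_right, ← Finset.sum_sub_distrib]
  refine Finset.sum_congr rfl fun n _ => ?_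
  push_cast
  ring

theorem short_le (a : ℕ → ℂ) (ha : ∀ n, ‖a n‖ ≤ Real.log n) {x h : ℝ} (hx : 1 ≤ x)
    (hh : 0 ≤ h) :
    ‖∑ n ∈ Finset.Ioc ⌊x⌋₊ ⌊x + h⌋₊, a n * (((x + h : ℝ) : ℂ) - n)‖ ≤
      (h + 1) * (Real.log (x + h) * h) := by
  have hle : ⌊x⌋₊ ≤ ⌊x + h⌋₊ := Nat.floor_le_floor (by linarith)
  have hl : 0 ≤ Real.log (x + h) := Real.log_nonneg (by linarith)
  refine (norm_sum_le _ _).trans
    ((Finset.sum_le_card_nsmul _ _ (Real.log (x + h) * h) fun n hn => ?_).trans ?_)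
  · obtain ⟨h1, h2⟩ := Finset.mem_Ioc.1 hn
    have h3 : x < n := (Nat.floor_lt (by linarith)).1 h1
    have h4 : (n : ℝ) ≤ x + h := (Nat.le_floor_iff (by linarith)).1 h2
    have h5 : (((x + h : ℝ) : ℂ) - n) = ((x + h - n : ℝ) : ℂ) := by push_cast; ring
    rw [norm_mul, h5, Complex.norm_real, Real.norm_of_nonneg (by linarith)]
    refine mul_le_mul ((ha n).trans (Real.log_le_log (by linarith) h4)) (by linarith)
      (by linarith) hl
  · rw [nsmul_eq_mul, Nat.card_Ioc, Nat.cast_sub hle]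
    refine mul_le_mul_of_nonneg_right ?_ (by positivity)
    have h1 := Nat.floor_le (show 0 ≤ x + h by linarith)
    have h2 := Nat.lt_floor_add_one x
    linarith

theorem ev_log_pow (C : ℝ) (j : ℕ) {δ : ℝ} (hδ : 0 < δ) :
    ∀ᶠ T : ℝ in atTop, C * Real.log T ^ j ≤ T ^ δ := by
  have h := (isLittleO_log_rpow_rpow_atTop (j : ℝ) hδ).const_mul_left C
  filter_upwards [h.eventuallyLE, eventually_ge_atTop 1] with T hT hT1
  rw [Real.rpow_natCast, Real.norm_of_nonneg (Real.rpow_nonneg (by linarith) δ)] at hT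
  exact (le_abs_self _).trans hT

theorem sum_dvd_le {p : ℕ} (hp : p.Prime) (N : ℕ) :
    ∑ n ∈ Finset.Icc 1 N, (if p ∣ n then ArithmeticFunction.vonMangoldt n else 0) ≤
      Real.log N := by
  rcases Nat.eq_zero_or_pos N with rfl | hN
  · simp
  have h1 : p ^ Nat.log p N ≤ N := Nat.pow_log_le_self p hN.ne'
  have h0 : p ^ Nat.log p N ≠ 0 := pow_ne_zero _ hp.ne_zero
  have h2 : Real.log (p ^ Nat.log p N : ℕ) ≤ Real.log N :=
    Real.log_le_log (by exact_mod_cast Nat.pos_of_ne_zero h0) (by exact_mod_cast h1)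
  refine le_trans ?_ h2
  rw [← ArithmeticFunction.vonMangoldt_sum, ← Finset.sum_filter, ← Finset.sum_filter_ne_zero]
  refine Finset.sum_le_sum_of_subset_of_nonneg (fun n hn => ?_)
    fun _ _ _ => ArithmeticFunction.vonMangoldt_nonneg
  obtain ⟨hn1, hn2⟩ := Finset.mem_filter.1 hn
  obtain ⟨hn3, hn4⟩ := Finset.mem_filter.1 hn1
  obtain ⟨r, k, hr, hk, rfl⟩ :=
    (isPrimePow_nat_iff n).1 (ArithmeticFunction.vonMangoldt_ne_zero_iff.1 hn2)
  have h5 : p = r := (Nat.prime_dvd_prime_iff_eq hp hr).1 (hp.dvd_of_dvd_pow hn4)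
  subst h5
  exact Nat.mem_divisors.2
    ⟨pow_dvd_pow _ (Nat.le_log_of_pow_le hp.one_lt (Finset.mem_Icc.1 hn3).2), h0⟩

theorem sum_not_coprime_le {g : ℕ} (hg : g ≠ 0) (N : ℕ) :
    ∑ n ∈ Finset.Icc 1 N, (if n.Coprime g then 0 else ArithmeticFunction.vonMangoldt n) ≤
      tau g * Real.log N := by
  have h1 : ∀ n : ℕ, (if n.Coprime g then 0 else ArithmeticFunction.vonMangoldt n) ≤
      ∑ p ∈ g.primeFactors, if p ∣ n then ArithmeticFunction.vonMangoldt n else 0 := by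
    intro n
    have hnn : ∀ p ∈ g.primeFactors,
        0 ≤ if p ∣ n then ArithmeticFunction.vonMangoldt n else 0 := by
      intro p _
      split_ifs
      · exact ArithmeticFunction.vonMangoldt_nonneg
      · exact le_rfl
    by_cases h : n.Coprime g
    · rw [if_pos h]
      exact Finset.sum_nonneg hnn
    · rw [if_neg h]
      obtain ⟨p, hp, hpn, hpg⟩ := Nat.Prime.not_coprime_iff_dvd.1 h
      refine le_trans ?_ (Finset.single_le_sum hnn (Nat.mem_primeFactors.2 ⟨hp, hpg, hg⟩))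
      rw [if_pos hpn]
  refine (Finset.sum_le_sum fun n _ => h1 n).trans ?_
  rw [Finset.sum_comm]
  refine (Finset.sum_le_card_nsmul _ _ (Real.log N)
    fun p hp => sum_dvd_le (Nat.prime_of_mem_primeFactors hp) N).trans ?_
  rw [nsmul_eq_mul]
  refine mul_le_mul_of_nonneg_right ?_ (Real.log_natCast_nonneg N)
  exact Nat.cast_le.2 (Finset.card_le_card fun p hp =>
    Nat.mem_divisors.2 ⟨Nat.dvd_of_mem_primeFactors hp, hg⟩)

theorem log_floor_le {z : ℝ} (hz : 1 ≤ z) : Real.log (⌊z⌋₊ : ℕ) ≤ Real.log z :=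
  Real.log_le_log (by exact_mod_cast Nat.floor_pos.2 hz) (Nat.floor_le (by linarith))

theorem big_d {d : ℕ} (hd : 1 < d) {Z : ℝ} (hZ : 1 ≤ Z) (w : ℕ → ℂ) (hw : ∀ n, ‖w n‖ ≤ 1)
    (x : ℕ) : ‖∑ n ∈ Finset.Icc 1 x, lo Z vm (d * n) * w n‖ ≤ Real.log Z := by
  have hp : d.minFac.Prime := Nat.minFac_prime hd.ne'
  refine le_trans ?_ ((sum_dvd_le hp ⌊Z⌋₊).trans (log_floor_le hZ))
  have h1 : ∀ n ∈ Finset.Icc 1 x, ‖lo Z vm (d * n) * w n‖ ≤
      if ((d * n : ℕ) : ℝ) ≤ Z then ArithmeticFunction.vonMangoldt (d * n) else 0 := by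
    intro n _
    rw [norm_mul, lo_apply]
    refine (mul_le_of_le_one_right (norm_nonneg _) (hw n)).trans ?_
    split_ifs
    · rw [norm_vm]
    · simp
  refine (norm_sum_le _ _).trans ((Finset.sum_le_sum h1).trans ?_)
  rw [← Finset.sum_filter, ← Finset.sum_filter,
    ← Finset.sum_image (f := fun m => ArithmeticFunction.vonMangoldt m) (g := fun n => d * n)
      fun a _ b _ hab => Nat.eq_of_mul_eq_mul_left (by omega) hab]
  refine Finset.sum_le_sum_of_subset_of_nonneg (fun m hm => ?_)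
    fun _ _ _ => ArithmeticFunction.vonMangoldt_nonneg
  obtain ⟨n, hn, rfl⟩ := Finset.mem_image.1 hm
  obtain ⟨hn1, hn2⟩ := Finset.mem_filter.1 hn
  have hn3 := (Finset.mem_Icc.1 hn1).1
  exact Finset.mem_filter.2 ⟨Finset.mem_Icc.2 ⟨Nat.mul_pos (by omega) hn3, Nat.le_floor hn2⟩,
    (Nat.minFac_dvd d).mul_right n⟩

theorem sum_lo (f : AF) (w : ℕ → ℂ) {Z : ℝ} (hZ : 0 ≤ Z) (x : ℕ) :
    ∑ n ∈ Finset.Icc 1 x, lo Z f n * w n = ∑ n ∈ Finset.Icc 1 ⌊min (x : ℝ) Z⌋₊, f n * w n := by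
  have h1 : ∀ n ∈ Finset.Icc 1 x, lo Z f n * w n = if (n : ℝ) ≤ Z then f n * w n else 0 := by
    intro n _
    rw [lo_apply]
    split_ifs
    · rfl
    · rw [zero_mul]
  rw [Finset.sum_congr rfl h1, ← Finset.sum_filter]
  refine Finset.sum_congr ?_ fun _ _ => rfl
  ext n
  simp only [Finset.mem_filter, Finset.mem_Icc,
    Nat.le_floor_iff (le_min (Nat.cast_nonneg x) hZ), le_min_iff, Nat.cast_le, and_assoc]

theorem remove_cop {q : ℕ} (ψ : DirichletCharacter ℂ q) {g : ℕ} (hg : g ≠ 0) (N : ℕ) :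
    ‖∑ n ∈ Finset.Icc 1 N, vm n * tw ψ g n‖ ≤
      ‖∑ n ∈ Finset.Icc 1 N, vm n * ψ n‖ + tau g * Real.log N := by
  refine (norm_le_norm_add_norm_sub' _ (∑ n ∈ Finset.Icc 1 N, vm n * ψ n)).trans ?_
  refine add_le_add_right (le_trans ?_ (sum_not_coprime_le hg N)) _
  rw [← Finset.sum_sub_distrib]
  refine (norm_sum_le _ _).trans (Finset.sum_le_sum fun n _ => ?_)
  unfold tw
  split_ifs
  · simp
  · rw [mul_zero, zero_sub, norm_neg, norm_mul, norm_vm]
    exact mul_le_of_le_one_right ArithmeticFunction.vonMangoldt_nonneg (ψ.norm_le_one _)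

theorem arith {x L h S : ℝ} (A : ℕ) (hL : 10 ≤ L) (hx : 0 < x) (hh : h = x / L ^ (A + 2))
    (hS : h * S ≤ 4 * x ^ 2 / L ^ (2 * A + 4) + x ^ 2 / L ^ (2 * A + 4) + 2 * h * (2 * L * h)) :
    S ≤ x / L ^ A := by
  have hL0 : 0 < L := by linarith
  have h0 : 0 < h := by rw [hh]; positivity
  have e1 : x ^ 2 / L ^ (2 * A + 4) = h * h := by
    rw [hh]
    field_simp
    ring
  have e2 : x / L ^ A = h * L ^ 2 := by
    rw [hh]
    field_simp
    ring
  rw [mul_div_assoc, e1] at hS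
  rw [e2]
  refine le_of_mul_le_mul_left (hS.trans ?_) h0
  have : 5 + 4 * L ≤ L ^ 2 := by nlinarith
  nlinarith [mul_le_mul_of_nonneg_left this (mul_pos h0 h0).le]

end SWAux

open SWAux

theorem siegel_walfisz (C A : ℕ) : ∀ᶠ x : ℝ in atTop, ∀ q : ℕ, 1 < q →
    (q : ℝ) ≤ Real.log x ^ C → ∀ ψ ∈ primSet q,
      ‖∑ n ∈ Finset.Icc 1 ⌊x⌋₊, vm n * ψ n‖ ≤ x / Real.log x ^ A := by
  obtain ⟨x₀, hx₀⟩ := eventually_atTop.1 (riesz_bound C (2 * A + 4))
  filter_upwards [eventually_ge_atTop x₀, eventually_ge_atTop 2,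
    Real.tendsto_log_atTop.eventually_ge_atTop 10, ev_log_pow 1 (A + 2) one_pos]
    with x h0 h2 hL hp q hq hqC ψ hψ
  rw [one_mul, Real.rpow_one] at hp
  have hL0 : 0 < Real.log x := by linarith
  have hx : 0 < x := by linarith
  obtain ⟨h, hh⟩ : ∃ h, h = x / Real.log x ^ (A + 2) := ⟨_, rfl⟩
  have h1 : 1 ≤ h := by
    rw [hh]
    exact (one_le_div (by positivity)).2 hp
  have h3 : h ≤ x := by
    rw [hh]
    exact div_le_self hx.le (one_le_pow₀ (by linarith))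
  have h4 : Real.log x ≤ Real.log (x + h) := Real.log_le_log hx (by linarith)
  have h5 : Real.log (x + h) ≤ 2 * Real.log x := by
    have : Real.log (x + h) ≤ Real.log (x ^ 2) := Real.log_le_log (by linarith) (by nlinarith)
    rwa [Real.log_pow, Nat.cast_ofNat] at this
  have r1 := hx₀ x h0 q hq hqC ψ hψ
  have r2 := hx₀ (x + h) (by linarith) q hq
    (hqC.trans (pow_le_pow_left₀ hL0.le h4 C)) ψ hψ
  have r3 := short_le (fun n => vm n * ψ n) (fun n => by
    rw [norm_mul]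
    exact (mul_le_of_le_one_right (norm_nonneg _) (ψ.norm_le_one _)).trans (norm_vm_le n))
    (x := x) (h := h) (by linarith) (by linarith)
  have r4 := congrArg norm (diff_eq (fun n => vm n * ψ n) (x := x) (h := h) (by linarith))
  rw [norm_mul, Complex.norm_real, Real.norm_of_nonneg (by linarith)] at r4
  refine arith A hL hx hh (r4.trans_le ((norm_sub_le _ _).trans
    (add_le_add ((norm_sub_le _ _).trans (add_le_add (r2.trans ?_) r1)) (r3.trans ?_))))
  · exact div_le_div₀ (by positivity) (by nlinarith) (by positivity)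
      (pow_le_pow_left₀ hL0.le h4 _)
  · exact mul_le_mul (by linarith) (mul_le_mul_of_nonneg_right h5 (by linarith))
      (mul_nonneg (by linarith) (by linarith)) (by linarith)

theorem canc_vm {y : ℝ} (hy : 0 < y) (hy1 : y ≤ 1) : Canc y (tr vm) := by
  intro C A
  obtain ⟨x₀, hx₀⟩ := eventually_atTop.1 (siegel_walfisz (C + 1) (A + 1))
  filter_upwards [(tendsto_rpow_atTop hy).eventually_ge_atTop x₀, eventually_ge_atTop 2,
    Real.tendsto_log_atTop.eventually_ge_atTop (1 / y ^ (C + 1)),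
    Real.tendsto_log_atTop.eventually_ge_atTop (2 / y ^ (A + 1)), ev_log_pow 40 (A + 1) hy]
    with T h0 h2 hC hA hp q hq hqC ψ hψ d g hd hg _ x hx
  have hT : 0 < T := by linarith
  have hL : 0 < Real.log T := Real.log_pos (by linarith)
  have hZ : 1 ≤ T ^ 20 := one_le_pow₀ (by linarith)
  have hlZ : Real.log (T ^ 20) = 20 * Real.log T := by rw [Real.log_pow, Nat.cast_ofNat]
  have htau := one_le_tau hg.ne'
  have hx0 : (0 : ℝ) ≤ x := Nat.cast_nonneg x
  have hsm : 2 * (20 * Real.log T) ≤ x / Real.log T ^ A := by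
    rw [le_div_iff₀ (by positivity)]
    refine le_trans (le_of_eq ?_) (hp.trans hx)
    ring
  have hw : 0 ≤ x / Real.log T ^ A := by positivity
  rw [mul_div_assoc]
  rcases (Nat.succ_le_of_lt hd).eq_or_lt with hd1 | hd1
  · obtain rfl : d = 1 := hd1.symm
    simp only [one_mul, tr]
    rw [sum_lo _ _ (by linarith)]
    obtain ⟨z, hz⟩ : ∃ z, z = min (x : ℝ) (T ^ 20) := ⟨_, rfl⟩
    rw [← hz]
    have hz1 : T ^ y ≤ z := by
      rw [hz]
      refine le_min hx ((Real.rpow_le_self_of_one_le (by linarith) hy1).trans ?_)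
      exact le_self_pow₀ (by linarith) (by norm_num)
    have hz2 : z ≤ x := hz ▸ min_le_left _ _
    have hz3 : z ≤ T ^ 20 := hz ▸ min_le_right _ _
    have hz4 : 1 ≤ z := (Real.one_le_rpow (by linarith) hy.le).trans hz1
    have hz5 : y * Real.log T ≤ Real.log z := by
      rw [← Real.log_rpow hT]
      exact Real.log_le_log (by positivity) hz1
    have hyL : 0 < y * Real.log T := by positivity
    have hq2 : (q : ℝ) ≤ Real.log z ^ (C + 1) := by
      refine hqC.trans (le_trans ?_ (pow_le_pow_left₀ hyL.le hz5 _))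
      rw [div_le_iff₀ (by positivity)] at hC
      calc Real.log T ^ C = Real.log T ^ C * 1 := (mul_one _).symm
        _ ≤ Real.log T ^ C * (Real.log T * y ^ (C + 1)) := by gcongr
        _ = _ := by ring
    have r1 := hx₀ z (h0.trans hz1) q hq hq2 ψ hψ
    have r2 : z / Real.log z ^ (A + 1) ≤ x / Real.log T ^ A / 2 := by
      rw [div_div]
      refine div_le_div₀ hx0 hz2 (by positivity) (le_trans ?_ (pow_le_pow_left₀ hyL.le hz5 _))
      rw [div_le_iff₀ (by positivity)] at hA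
      calc Real.log T ^ A * 2 ≤ Real.log T ^ A * (Real.log T * y ^ (A + 1)) := by gcongr
        _ = _ := by ring
    have r3 : Real.log (⌊z⌋₊ : ℕ) ≤ x / Real.log T ^ A / 2 := by
      have := (log_floor_le hz4).trans (Real.log_le_log (by linarith) hz3)
      linarith
    have r4 := remove_cop ψ hg.ne' ⌊z⌋₊
    have r5 := mul_le_mul_of_nonneg_left r3 (tau_nonneg g)
    nlinarith [mul_le_mul_of_nonneg_right htau hw]
  · have r1 := big_d hd1 hZ (tw ψ g) (norm_tw_le ψ g) x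
    simp only [tr]
    nlinarith [mul_le_mul_of_nonneg_right htau hw]

end Pool.Agent.P.MP_7eacff_nt.SZ
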