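import Pool.Agent.P.MP_7eacff_nt.SZ.Fam
import Pool.Agent.P.MP_7eacff_nt.SZ.Dil
import Pool.Agent.P.MP_7eacff_nt.SZ.Abel

/-!
Small conductors: the induction on the number of factors.
-/

open Complex Filter Topology MeasureTheory Set
open scoped Real ContDiff

namespace Pool.Agent.P.MP_7eacff_nt.SZ

open Pool.Agent.Lib.LargeSieve (primSet mem_primSet)

namespace StepAAux

theorem sum_bd {a S : ℕ → ℂ} {N j : ℕ} {D B X R : ℝ} (hD : 0 ≤ D) (hB : 0 ≤ B) (hX : 0 ≤ X)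
    (ha : ∀ n, ‖a n‖ ≤ D * tau n ^ j) (hS : ∀ n ∈ Finset.Icc 1 N, ‖S n‖ ≤ B * (X / n))
    (hR : 1 + Real.log N ≤ R) :
    ‖∑ n ∈ Finset.Icc 1 N, a n * S n‖ ≤ D * B * X * R ^ 2 ^ j := by
  have h1 : ‖∑ n ∈ Finset.Icc 1 N, a n * S n‖ ≤
      ∑ n ∈ Finset.Icc 1 N, D * B * X * (tau n ^ j / n) := by
    refine (norm_sum_le _ _).trans (Finset.sum_le_sum fun n hn => ?_)
    rw [norm_mul]
    have ht : 0 ≤ tau n ^ j := pow_nonneg (tau_nonneg n) j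
    calc ‖a n‖ * ‖S n‖ ≤ D * tau n ^ j * (B * (X / n)) :=
          mul_le_mul (ha n) (hS n hn) (norm_nonneg _) (mul_nonneg hD ht)
      _ = D * B * X * (tau n ^ j / n) := by ring
  rw [← Finset.mul_sum] at h1
  refine h1.trans (mul_le_mul_of_nonneg_left ((sum_tau_div j N).trans ?_) (by positivity))
  have h0 : 0 ≤ Real.log (N : ℝ) := Real.log_natCast_nonneg N
  exact pow_le_pow_left₀ (by linarith) hR _

theorem norm_dil {f : AF} {L : ℝ} {j : ℕ} (hL : 0 ≤ L) (hf : ∀ n, ‖f n‖ ≤ L ^ j * tau n ^ j)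
    {e d : ℕ} (he : e ∣ d) (hd : d ≠ 0) {φ : ℕ → ℂ} (hφ : ∀ n, ‖φ n‖ ≤ 1) (n : ℕ) :
    ‖f (e * n) * φ n‖ ≤ L ^ j * tau d ^ j * tau n ^ j := by
  rw [norm_mul]
  have h1 : tau (e * n) ≤ tau d * tau n :=
    (tau_mul_le e n).trans (mul_le_mul_of_nonneg_right (tau_le_of_dvd he hd) (tau_nonneg n))
  have h2 : tau (e * n) ^ j ≤ tau d ^ j * tau n ^ j := by
    rw [← mul_pow]
    exact pow_le_pow_left₀ (tau_nonneg _) h1 j
  calc ‖f (e * n)‖ * ‖φ n‖ ≤ ‖f (e * n)‖ * 1 :=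
        mul_le_mul_of_nonneg_left (hφ n) (norm_nonneg _)
    _ ≤ L ^ j * tau (e * n) ^ j := by rw [mul_one]; exact hf _
    _ ≤ L ^ j * (tau d ^ j * tau n ^ j) := mul_le_mul_of_nonneg_left h2 (pow_nonneg hL j)
    _ = L ^ j * tau d ^ j * tau n ^ j := by ring

theorem split_sum (V : ℝ → ℂ) {f : AF} {N₁ N₂ Y : ℕ} (hf : ∀ n, N₁ < n → f n = 0) {e : ℕ}
    (he : 0 < e) (φ b : ℕ → ℂ) (X : ℝ) (hY : Y ≤ N₂) :
    ∑ w ∈ Finset.Icc 1 N₁, ∑ n ∈ Finset.Icc 1 N₂, f (e * w) * φ w * b n * V (w * n / X) =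
      ∑ n ∈ Finset.Icc 1 Y, b n * SS V f e φ (X / n) +
        ∑ w ∈ Finset.Icc 1 N₁, f (e * w) * φ w *
          ∑ n ∈ Finset.Ioc Y N₂, b n * V (n / (X / w)) := by
  have hI : ∀ F : ℕ → ℂ, ∑ n ∈ Finset.Icc 1 N₂, F n =
      ∑ n ∈ Finset.Icc 1 Y, F n + ∑ n ∈ Finset.Ioc Y N₂, F n := by
    intro F
    have h1 : ∀ m : ℕ, Finset.Icc 1 m = Finset.Ioc 0 m := fun m => by
      ext k
      simp only [Finset.mem_Icc, Finset.mem_Ioc]
      omega
    rw [h1, h1, Finset.sum_Ioc_consecutive F (Nat.zero_le Y) hY]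
  simp only [hI, Finset.sum_add_distrib]
  congr 1
  · rw [Finset.sum_comm]
    refine Finset.sum_congr rfl fun n _ => ?_
    rw [SS_eq_sum V hf he, Finset.mul_sum]
    refine Finset.sum_congr rfl fun w _ => ?_
    rw [div_div_eq_mul_div]
    ring
  · refine Finset.sum_congr rfl fun w _ => ?_
    rw [Finset.mul_sum]
    refine Finset.sum_congr rfl fun n _ => ?_
    rw [div_div_eq_mul_div, mul_comm (n : ℝ) w]
    ring

theorem half_le {L P Q : ℝ} {A i : ℕ} (hL : 2 ≤ L) (hP : 0 ≤ P) (hQ : Q ≤ L) :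
    L ^ i * (Q * P / L ^ (A + i + 2 * 2 ^ i + 2)) * (L ^ 2) ^ 2 ^ i ≤ P / L ^ A / 2 := by
  have h0 : 0 < L := by linarith
  have h1 : L ^ i * (Q * P / L ^ (A + i + 2 * 2 ^ i + 2)) * (L ^ 2) ^ 2 ^ i =
      P / L ^ A * (Q / L ^ 2) := by
    rw [← pow_mul, pow_add, pow_add, pow_add]
    field_simp
  rw [h1]
  have h2 : Q / L ^ 2 ≤ 1 / 2 := by
    rw [div_le_iff₀ (by positivity)]
    nlinarith
  calc P / L ^ A * (Q / L ^ 2) ≤ P / L ^ A * (1 / 2) :=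
        mul_le_mul_of_nonneg_left h2 (by positivity)
    _ = P / L ^ A / 2 := by ring

end StepAAux

open StepAAux

theorem CA_base {V : ℝ → ℂ} {M : ℂ → ℂ} (hV : Vcl V M) {β : ℝ → AF} (hβ : Tame β) {x x' : ℝ}
    (hs : Supp x β) (hx0 : 0 ≤ x) (hx : x < x') : CA V x' β := by
  obtain ⟨j, hj⟩ := hβ
  obtain ⟨K, hK0, hK⟩ := hV.bd
  refine ⟨j, fun C A => ?_⟩
  filter_upwards [hj, hs, eventually_ge_atTop (1 : ℝ), ev_le_log 1, ev_log_range ⌈x⌉₊,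
    ev_log_pow_le K (j + 2 * 2 ^ j + A) (sub_pos.2 hx)] with T hT hsT hT1 hL hR hδ
  intro q _ _ ψ _ d g hd hg _ X hX
  have hd0 : d ≠ 0 := hd.ne_zero
  have hT0 : 0 < T := by linarith
  have hTx : 0 < T ^ x := Real.rpow_pos_of_pos hT0 x
  have hX0 : 0 < X := lt_of_lt_of_le (Real.rpow_pos_of_pos hT0 x') hX
  have hN : ((⌊T ^ x⌋₊ : ℕ) : ℝ) ≤ T ^ x := Nat.floor_le hTx.le
  have hf : ∀ n, ⌊T ^ x⌋₊ < n → β T n = 0 := fun n hn =>
    hsT n ((Nat.floor_lt hTx.le).1 hn)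
  have hlog : 1 + Real.log (⌊T ^ x⌋₊ : ℕ) ≤ Real.log T ^ 2 := by
    refine hR _ (Nat.cast_nonneg _) (hN.trans ?_)
    rw [← Real.rpow_natCast]
    exact Real.rpow_le_rpow_of_exponent_le hT1 (Nat.le_ceil x)
  set L := Real.log T with hLdef
  have hL0 : 0 < L := by linarith
  have hτ : 0 ≤ tau d ^ j := pow_nonneg (tau_nonneg d) j
  rw [SS_eq_sum V hf (Nat.pos_of_ne_zero hd0)]
  have h1 : ‖∑ m ∈ Finset.Icc 1 ⌊T ^ x⌋₊, β T (d * m) * tw ψ g m * V (m / X)‖ ≤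
      ∑ m ∈ Finset.Icc 1 ⌊T ^ x⌋₊, L ^ j * tau d ^ j * K * tau m ^ j := by
    refine (norm_sum_le _ _).trans (Finset.sum_le_sum fun m hm => ?_)
    have hm0 : (0 : ℝ) < m := by exact_mod_cast (Finset.mem_Icc.1 hm).1
    have hmX : 0 < (m : ℝ) / X := div_pos hm0 hX0
    have hVm : ‖V (m / X)‖ ≤ K :=
      (hK _ hmX).1.trans (div_le_self hK0 (one_le_pow₀ (by linarith)))
    have ht : 0 ≤ tau m ^ j := pow_nonneg (tau_nonneg m) j
    rw [norm_mul]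
    calc ‖β T (d * m) * tw ψ g m‖ * ‖V (m / X)‖ ≤ L ^ j * tau d ^ j * tau m ^ j * K :=
          mul_le_mul (norm_dil hL0.le (fun n => (hT n).1) dvd_rfl hd0 (norm_tw_le ψ g) m) hVm
            (norm_nonneg _) (by positivity)
      _ = L ^ j * tau d ^ j * K * tau m ^ j := by ring
  rw [← Finset.mul_sum] at h1
  have h2 : ∑ m ∈ Finset.Icc 1 ⌊T ^ x⌋₊, tau m ^ j ≤ T ^ x * (L ^ 2) ^ 2 ^ j := by
    refine (sum_tau j _).trans ?_
    have h0 : 0 ≤ Real.log ((⌊T ^ x⌋₊ : ℕ) : ℝ) := Real.log_natCast_nonneg _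
    exact mul_le_mul hN (pow_le_pow_left₀ (by linarith) hlog _) (by positivity) hTx.le
  have h3 : T ^ x * (K * L ^ (j + 2 * 2 ^ j + A)) ≤ X := by
    refine le_trans ?_ hX
    calc T ^ x * (K * L ^ (j + 2 * 2 ^ j + A)) ≤ T ^ x * T ^ (x' - x) :=
          mul_le_mul_of_nonneg_left hδ hTx.le
      _ = T ^ x' := by rw [← Real.rpow_add hT0]; ring_nf
  have hg1 : 1 ≤ tau g := one_le_tau hg.ne'
  refine h1.trans ((mul_le_mul_of_nonneg_left h2 (by positivity)).trans ?_)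
  rw [le_div_iff₀ (by positivity)]
  calc L ^ j * tau d ^ j * K * (T ^ x * (L ^ 2) ^ 2 ^ j) * L ^ A
      = 1 * tau d ^ j * (T ^ x * (K * L ^ (j + 2 * 2 ^ j + A))) := by
        rw [← pow_mul, pow_add, pow_add]
        ring
    _ ≤ tau g * tau d ^ j * X :=
        mul_le_mul (mul_le_mul_of_nonneg_right hg1 hτ) h3 (by positivity) (by positivity)

theorem CA_step {V : ℝ → ℂ} {M : ℂ → ℂ} (hV : Vcl V M) {f l : ℝ → AF} (hf : Tame f)
    (hl : Tame l) {x y : ℝ} (hy : 0 < y) (hy1 : y ≤ 1) (hA : CA V x f) (hc : Canc (y / 2) l) :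
    CA V (x + y) fun T => f T * l T := by
  obtain ⟨i, hi⟩ := hf
  obtain ⟨j, hj⟩ := hl
  obtain ⟨k, hk⟩ := hA
  obtain ⟨K, hK0, hK⟩ := abel_lin hV
  refine ⟨i + j + k + 2, fun C A => ?_⟩
  filter_upwards [hi, hj, hk C (A + j + 2 * 2 ^ j + 2), hc C (A + i + 2 * 2 ^ i + 2),
    eventually_ge_atTop (1 : ℝ), ev_le_log 2, ev_le_log K, ev_log_range i, ev_log_range 1,
    ev_log_pow_le 2 0 (half_pos hy)] with T hfT hlT hAT hcT hT1 hL hLK hRi hR1 hδ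
  intro q hq hqC ψ hψ d g hd hg hgd X hX
  have hd0 : d ≠ 0 := hd.ne_zero
  have hT0 : 0 < T := by linarith
  have hTx : 0 < T ^ x := Real.rpow_pos_of_pos hT0 x
  have hTy : 0 < T ^ y := Real.rpow_pos_of_pos hT0 y
  have hX0 : 0 < X := lt_of_lt_of_le (Real.rpow_pos_of_pos hT0 _) hX
  rw [Real.rpow_add hT0] at hX
  have hf0 : ∀ n, ⌊T ^ i⌋₊ < n → f T n = 0 := fun n hn =>
    (hfT n).2 ((Nat.floor_lt (by positivity)).1 hn)
  have hl0 : ∀ n, max ⌊T ^ y⌋₊ ⌊T ^ j⌋₊ < n → l T n = 0 := fun n hn =>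
    (hlT n).2 ((Nat.floor_lt (by positivity)).1 (lt_of_le_of_lt (le_max_right _ _) hn))
  have hY : ((⌊T ^ y⌋₊ : ℕ) : ℝ) ≤ T ^ y := Nat.floor_le hTy.le
  have hY2 : T ^ (y / 2) ≤ ((⌊T ^ y⌋₊ : ℕ) : ℝ) := by
    have h1 : T ^ y < ((⌊T ^ y⌋₊ : ℕ) : ℝ) + 1 := Nat.lt_floor_add_one _
    have h2 : T ^ y = T ^ (y / 2) * T ^ (y / 2) := by rw [← Real.rpow_add hT0]; ring_nf
    rw [pow_zero, mul_one] at hδ
    nlinarith
  have hlogY : 1 + Real.log (⌊T ^ y⌋₊ : ℕ) ≤ Real.log T ^ 2 := by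
    refine hR1 _ (Nat.cast_nonneg _) (hY.trans ?_)
    rw [← Real.rpow_natCast]
    exact Real.rpow_le_rpow_of_exponent_le hT1 (by simpa using hy1)
  have hlogN : 1 + Real.log (⌊T ^ i⌋₊ : ℕ) ≤ Real.log T ^ 2 :=
    hRi _ (Nat.cast_nonneg _) (Nat.floor_le (by positivity))
  set L := Real.log T with hLdef
  have hL0 : 0 < L := by linarith
  have hτ1 : 1 ≤ tau d := one_le_tau hd0
  have hτ0 : 0 < tau d := by linarith
  have hg0 : 0 ≤ tau g := tau_nonneg g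
  have hP : 0 ≤ tau g * tau d ^ (i + j + k + 1) * X := by positivity
  show ‖SS V (f T * l T : AF) d (tw ψ g) X‖ ≤ _
  rw [SS_mul V hf0 hl0 (Nat.pos_of_ne_zero hd0) (tw_mul ψ g)]
  have key : ∀ p ∈ d.divisorsAntidiagonal, ‖∑ w ∈ Finset.Icc 1 ⌊T ^ i⌋₊,
      ∑ n ∈ Finset.Icc 1 (max ⌊T ^ y⌋₊ ⌊T ^ j⌋₊),
        (if w.Coprime p.2 then f T (p.1 * w) else 0) * tw ψ g w *
          (l T (p.2 * n) * tw ψ g n) * V (w * n / X)‖ ≤
      tau g * tau d ^ (i + j + k + 1) * X / L ^ A := by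
    intro p hp
    have hp1 : p.1 * p.2 = d := (Nat.mem_divisorsAntidiagonal.1 hp).1
    have hd1 : p.1 ∣ d := Dvd.intro _ hp1
    have hd2 : p.2 ∣ d := Dvd.intro_left _ hp1
    have hp10 : 0 < p.1 := Nat.pos_of_dvd_of_pos hd1 (Nat.pos_of_ne_zero hd0)
    have hp20 : 0 < p.2 := Nat.pos_of_dvd_of_pos hd2 (Nat.pos_of_ne_zero hd0)
    simp only [ite_mul_tw]
    rw [split_sum V hf0 hp10 (tw ψ (g * p.2)) (fun n => l T (p.2 * n) * tw ψ g n) X
      (le_max_left _ _)]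
    have hI : ‖∑ n ∈ Finset.Icc 1 ⌊T ^ y⌋₊,
        l T (p.2 * n) * tw ψ g n * SS V (f T) p.1 (tw ψ (g * p.2)) (X / n)‖ ≤
        L ^ j * tau d ^ j * (tau g * tau d ^ (k + 1) / L ^ (A + j + 2 * 2 ^ j + 2)) * X *
          (L ^ 2) ^ 2 ^ j := by
      refine sum_bd (by positivity) (by positivity) hX0.le
        (norm_dil hL0.le (fun n => (hlT n).1) hd2 hd0 (norm_tw_le ψ g)) (fun n hn => ?_) hlogY
      have hn := Finset.mem_Icc.1 hn
      have hn0 : (0 : ℝ) < n := by exact_mod_cast hn.1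
      have hnY : (n : ℝ) ≤ T ^ y := le_trans (by exact_mod_cast hn.2) hY
      have hXn : T ^ x ≤ X / n := by
        rw [le_div_iff₀ hn0]
        exact (mul_le_mul_of_nonneg_left hnY hTx.le).trans hX
      have hgd' : ((g * p.2 : ℕ) : ℝ) * p.1 ≤ T := by
        refine le_trans (le_of_eq ?_) hgd
        rw [← hp1]
        push_cast
        ring
      refine (hAT q hq hqC ψ hψ p.1 (g * p.2) (hd.squarefree_of_dvd hd1) (Nat.mul_pos hg hp20)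
        hgd' _ hXn).trans ?_
      have h1 : tau (g * p.2) ≤ tau g * tau d :=
        (tau_mul_le g p.2).trans (mul_le_mul_of_nonneg_left (tau_le_of_dvd hd2 hd0) hg0)
      have h2 : tau p.1 ^ k ≤ tau d ^ k :=
        pow_le_pow_left₀ (tau_nonneg _) (tau_le_of_dvd hd1 hd0) k
      have h3 : tau (g * p.2) * tau p.1 ^ k ≤ tau g * tau d * tau d ^ k :=
        mul_le_mul h1 h2 (pow_nonneg (tau_nonneg _) k) (by positivity)
      have h4 : 0 ≤ X / n / L ^ (A + j + 2 * 2 ^ j + 2) := by positivity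
      calc tau (g * p.2) * tau p.1 ^ k * (X / n) / L ^ (A + j + 2 * 2 ^ j + 2)
          = tau (g * p.2) * tau p.1 ^ k * (X / n / L ^ (A + j + 2 * 2 ^ j + 2)) := by ring
        _ ≤ tau g * tau d * tau d ^ k * (X / n / L ^ (A + j + 2 * 2 ^ j + 2)) :=
          mul_le_mul_of_nonneg_right h3 h4
        _ = tau g * tau d ^ (k + 1) / L ^ (A + j + 2 * 2 ^ j + 2) * (X / n) := by ring
    have hII : ‖∑ w ∈ Finset.Icc 1 ⌊T ^ i⌋₊, f T (p.1 * w) * tw ψ (g * p.2) w *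
        ∑ n ∈ Finset.Ioc ⌊T ^ y⌋₊ (max ⌊T ^ y⌋₊ ⌊T ^ j⌋₊),
          l T (p.2 * n) * tw ψ g n * V (n / (X / w))‖ ≤
        L ^ i * tau d ^ i * (K * (tau g / L ^ (A + i + 2 * 2 ^ i + 2))) * X *
          (L ^ 2) ^ 2 ^ i := by
      refine sum_bd (by positivity) (by positivity) hX0.le
        (norm_dil hL0.le (fun n => (hfT n).1) hd1 hd0 (norm_tw_le ψ _)) (fun w hw => ?_) hlogN
      have hw0 : (0 : ℝ) < w := by exact_mod_cast (Finset.mem_Icc.1 hw).1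
      refine hK (fun n => l T (p.2 * n) * tw ψ g n) _ _ _ _ (by positivity) (div_pos hX0 hw0)
        fun z hz => ?_
      have hgd' : (g : ℝ) * p.2 ≤ T := by
        refine le_trans (mul_le_mul_of_nonneg_left ?_ (Nat.cast_nonneg g)) hgd
        exact_mod_cast Nat.le_of_dvd (Nat.pos_of_ne_zero hd0) hd2
      have hz' : T ^ (y / 2) ≤ (z : ℝ) := hY2.trans (by exact_mod_cast hz)
      refine (hcT q hq hqC ψ hψ p.2 g hp20 hg hgd' z hz').trans (le_of_eq ?_)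
      ring
    have e1 : tau d ^ (j + (k + 1)) ≤ tau d ^ (i + j + k + 1) :=
      pow_le_pow_right₀ hτ1 (by omega)
    have e2 : tau d ^ i ≤ tau d ^ (i + j + k + 1) := pow_le_pow_right₀ hτ1 (by omega)
    have b1 := half_le (A := A) (i := j) hL hP (show (1 : ℝ) ≤ L by linarith)
    have b2 := half_le (A := A) (i := i) hL hP hLK
    have c1 : L ^ j * tau d ^ j * (tau g * tau d ^ (k + 1) / L ^ (A + j + 2 * 2 ^ j + 2)) * X *
        (L ^ 2) ^ 2 ^ j ≤ tau g * tau d ^ (i + j + k + 1) * X / L ^ A / 2 := by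
      refine le_trans ?_ b1
      calc _ = L ^ j * (1 * (tau g * tau d ^ (j + (k + 1)) * X) /
            L ^ (A + j + 2 * 2 ^ j + 2)) * (L ^ 2) ^ 2 ^ j := by rw [pow_add (tau d) j]; ring
        _ ≤ _ := by gcongr
    have c2 : L ^ i * tau d ^ i * (K * (tau g / L ^ (A + i + 2 * 2 ^ i + 2))) * X *
        (L ^ 2) ^ 2 ^ i ≤ tau g * tau d ^ (i + j + k + 1) * X / L ^ A / 2 := by
      refine le_trans ?_ b2
      calc _ = L ^ i * (K * (tau g * tau d ^ i * X) /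
            L ^ (A + i + 2 * 2 ^ i + 2)) * (L ^ 2) ^ 2 ^ i := by ring
        _ ≤ _ := by gcongr
    refine (norm_add_le _ _).trans ?_
    linarith
  refine (norm_sum_le _ _).trans ((Finset.sum_le_card_nsmul _ _ _ key).trans (le_of_eq ?_))
  rw [nsmul_eq_mul, card_antidiag, pow_succ (tau d) (i + j + k + 1)]
  ring

end Pool.Agent.P.MP_7eacff_nt.SZ
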