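import Pool.Agent.P.MP_7eacff_nt.SZ.Reduce
import Pool.Agent.P.MP_7eacff_nt.SZ.StepA
import Pool.Agent.P.MP_7eacff_nt.SZ.Alg
import Pool.Agent.P.MP_7eacff_nt.SZ.Tail
import Pool.Agent.P.MP_7eacff_nt.SZ.SW

/-!
The non principal characters are negligible.
-/

open Complex Filter Topology MeasureTheory Set
open scoped Real ContDiff

namespace Pool.Agent.P.MP_7eacff_nt.SZ

open Pool.Agent.Lib.LargeSieve (primSet mem_primSet)

namespace ErrMainAux

theorem canc_lam {y : ℝ} (hy : 0 < y) (hy1 : y ≤ 1) {l : AF} (h : Lam l) : Canc y (tr l) := by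
  rcases h with h | h | h | h
  · exact canc_smooth hy (Or.inl h)
  · exact canc_smooth hy (Or.inr (Or.inl h))
  · exact canc_smooth hy (Or.inr (Or.inr h))
  · rw [h]
    exact canc_vm hy hy1

theorem tau_one : tau 1 = 1 := by simp [tau]

theorem sum_div_le (J : ℕ) {r : ℕ} (hr : r ≠ 0) :
    ∑ d ∈ r.divisors, tau d ^ J ≤ tau r ^ (J + 1) := by
  refine (Finset.sum_le_card_nsmul _ _ (tau r ^ J) fun d hd => ?_).trans ?_
  · exact pow_le_pow_left₀ (tau_nonneg d) (tau_le_of_dvd (Nat.dvd_of_mem_divisors hd) hr) J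
  · rw [nsmul_eq_mul, pow_succ, mul_comm]
    exact le_rfl

theorem rpow_half {L : ℝ} (hL : 0 < L) (c : ℕ) :
    (L ^ (2 * c)) ^ (-(1 / 2) : ℝ) = (L ^ c)⁻¹ := by
  rw [← Real.rpow_natCast, ← Real.rpow_mul hL.le, ← Real.rpow_natCast, ← Real.rpow_neg hL.le]
  congr 1
  push_cast
  ring

theorem tr_eq (l : AF) {T : ℝ} {n : ℕ} (hn : (n : ℝ) ≤ T ^ 20) : l n = tr l T n := by
  rw [tr, lo_apply, if_pos hn]

end ErrMainAux

open ErrMainAux

theorem CA_three {V : ℝ → ℂ} {M : ℂ → ℂ} (hV : Vcl V M) {η : ℝ} (hη : 0 < η) (hη1 : η ≤ 1)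
    {β : ℝ → AF} (hβ : Tame β) (hs : Supp (1 - η) β) {l₁ l₂ l₃ : AF} (h₁ : Lam l₁) (h₂ : Lam l₂)
    (h₃ : Lam l₃) : CA V 1 fun T => β T * tr l₁ T * tr l₂ T * tr l₃ T := by
  have y0 : 0 < η / 4 := by linarith
  have y1 : η / 4 ≤ 1 := by linarith
  have z0 : 0 < η / 4 / 2 := by linarith
  have z1 : η / 4 / 2 ≤ 1 := by linarith
  have a0 : CA V (1 - 3 * η / 4) β := CA_base hV hβ hs (by linarith) (by linarith)
  have a1 := CA_step hV hβ h₁.tame_tr y0 y1 a0 (canc_lam z0 z1 h₁)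
  have a2 := CA_step hV (hβ.mul h₁.tame_tr) h₂.tame_tr y0 y1 a1 (canc_lam z0 z1 h₂)
  have a3 := CA_step hV ((hβ.mul h₁.tame_tr).mul h₂.tame_tr) h₃.tame_tr y0 y1 a2
    (canc_lam z0 z1 h₃)
  have e : 1 - 3 * η / 4 + η / 4 + η / 4 + η / 4 = 1 := by ring
  rw [e] at a3
  exact a3

theorem ER_tendsto {V : ℝ → ℂ} {θ η : ℝ} (hθ : 0 < θ) (hθ1 : θ ≤ 1) (hη : 0 < η) {b c : ℝ → AF}
    (hb : Moll θ b) (hc : Tame c) (hA : CA V 1 c) (hB : SmallB θ η V c) :
    Tendsto (fun T : ℝ => ER V (b T) (c T) T / T) atTop (𝓝 0) := by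
  obtain ⟨B, hb⟩ := hb
  obtain ⟨j₀, hc⟩ := hc
  obtain ⟨j₁, hA⟩ := hA
  obtain ⟨j₂, hB⟩ := hB
  obtain ⟨K, hK⟩ : ∃ K : ℕ, K = 2 + 2 * 2 ^ (j₁ + j₂ + 1) := ⟨_, rfl⟩
  obtain ⟨C, hC⟩ : ∃ C : ℕ, C = 2 * (j₂ + K + 1) := ⟨_, rfl⟩
  have hlim : Tendsto (fun T : ℝ => 36 * B / Real.log T) atTop (𝓝 0) :=
    tendsto_const_nhds.div_atTop Real.tendsto_log_atTop
  refine squeeze_zero_norm' ?_ hlim
  filter_upwards [hb, hc, hA C (2 * C + K + 1), hB, ev_le_log 1, eventually_ge_atTop (1 : ℝ),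
    ev_log_range 1, ev_log_pow_le 1 (j₂ + K + 1) (half_pos hη)] with T hb hc hA hB hL hT hr hp
  have hT0 : 0 < T := by linarith
  obtain ⟨L, hLd⟩ : ∃ L, L = Real.log T := ⟨_, rfl⟩
  rw [← hLd] at hL hA hB hr hp ⊢
  have hL0 : 0 < L := by linarith
  have hy : T ^ θ ≤ T := by
    have := Real.rpow_le_rpow_of_exponent_le hT hθ1
    rwa [Real.rpow_one] at this
  have hy0 : 0 < T ^ θ := Real.rpow_pos_of_pos hT0 θ
  have hB0 : 0 ≤ B := (norm_nonneg _).trans (hb 0).1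
  have hN : ∀ m, ⌊T ^ j₀⌋₊ < m → c T m = 0 := fun m hm =>
    (hc m).2 ((Nat.floor_lt (by positivity)).1 hm)
  have h1 := ER_le V hN (hLd ▸ hL) hT0 hy hb
  rw [← hLd] at h1
  have hQ : (1 : ℝ) ≤ L ^ C := one_le_pow₀ hL
  have hQ0 : (0 : ℝ) < L ^ C := by positivity
  have hKp : (0 : ℝ) < L ^ (K + 1) := by positivity
  have key : ∀ r ∈ (Finset.Icc 1 ⌊T ^ θ / 2⌋₊).filter Squarefree, ∀ d ∈ r.divisors,
      (d : ℝ) / (r : ℝ) ^ 2 * NB V (c T) 1 (T ^ θ / r) d (r / d * T) ≤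
        tau d ^ (j₁ + j₂) * (T / r * (4 / L ^ (K + 1))) := by
    intro r hr d hd
    obtain ⟨hr1, hr2⟩ := Finset.mem_filter.1 hr
    obtain ⟨hr3, hr4⟩ := Finset.mem_Icc.1 hr1
    have hdr := Nat.dvd_of_mem_divisors hd
    have hd0 : 0 < d := Nat.pos_of_mem_divisors hd
    have hds : Squarefree d := hr2.squarefree_of_dvd hdr
    have r0 : (0 : ℝ) < r := by exact_mod_cast hr3
    have d1 : (1 : ℝ) ≤ d := by exact_mod_cast hd0
    have d0 : (0 : ℝ) < d := by linarith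
    have dr : (d : ℝ) ≤ r := by exact_mod_cast Nat.le_of_dvd hr3 hdr
    have ry : (r : ℝ) ≤ T ^ θ := by
      have := (Nat.le_floor_iff (by positivity)).1 hr4
      linarith
    have rd1 : (1 : ℝ) ≤ r / d := (one_le_div d0).2 dr
    have rd2 : (r : ℝ) / d ≤ T := (div_le_self r0.le d1).trans (ry.trans hy)
    obtain ⟨Y, hY⟩ : ∃ Y : ℝ, Y = r / d * T := ⟨_, rfl⟩
    have Y1 : T ≤ Y := by rw [hY]; exact le_mul_of_one_le_left hT0.le rd1
    have Y2 : Y ≤ T ^ 2 := by rw [hY, sq]; exact mul_le_mul_of_nonneg_right rd2 hT0.le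
    have Y0 : 0 < Y := by linarith
    have t1 : 1 ≤ tau d := one_le_tau hd0.ne'
    have t2 : tau d ^ j₁ ≤ tau d ^ (j₁ + j₂) := pow_le_pow_right₀ t1 (by omega)
    have t3 : tau d ^ j₂ ≤ tau d ^ (j₁ + j₂) := pow_le_pow_right₀ t1 (by omega)
    have t0 : 0 ≤ tau d ^ (j₁ + j₂) := by positivity
    have n1 : NB V (c T) 1 (L ^ C) d Y ≤
        2 * √(L ^ C) * (tau d ^ (j₁ + j₂) * (L ^ C * Y) / L ^ (2 * C + K + 1)) := by
      refine NB_le_of_forall V _ d le_rfl hQ0.le (by positivity) fun q hq hq' ψ hψ => ?_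
      have q1 : (1 : ℝ) ≤ q := by exact_mod_cast hq.le
      have := hA q hq hq' ψ hψ d 1 hds one_pos
        (by rw [Nat.cast_one, one_mul]; exact dr.trans (ry.trans hy)) (q * Y)
        (by rw [Real.rpow_one]; exact Y1.trans (le_mul_of_one_le_left Y0.le q1))
      rw [tw_one, tau_one, one_mul] at this
      refine this.trans ?_
      gcongr
    have s1 : √(L ^ C) ≤ L ^ C := by
      rw [Real.sqrt_le_left hQ0.le, sq]
      exact le_mul_of_one_le_left hQ0.le hQ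
    have n2 : NB V (c T) 1 (L ^ C) d Y ≤ tau d ^ (j₁ + j₂) * Y * (2 / L ^ (K + 1)) := by
      refine n1.trans (le_trans (mul_le_mul_of_nonneg_right
        (mul_le_mul_of_nonneg_left s1 zero_le_two) (by positivity)) (le_of_eq ?_))
      rw [add_assoc, pow_add L (2 * C), pow_mul']
      field_simp
    have n3 : NB V (c T) (L ^ C) (T ^ θ / r) d Y ≤ tau d ^ (j₁ + j₂) * Y * (2 / L ^ (K + 1)) := by
      have e1 : T ^ θ / r * d ≤ T ^ θ := by
        rw [div_mul_eq_mul_div, div_le_iff₀ r0]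
        exact mul_le_mul_of_nonneg_left dr hy0.le
      refine (hB (L ^ C) (T ^ θ / r) Y d hQ hds ((one_le_div r0).2 ry) e1 Y1 Y2).trans ?_
      have e2 : T ^ (-(η / 2)) ≤ (L ^ (j₂ + K + 1))⁻¹ := by
        rw [Real.rpow_neg hT0.le]
        rw [one_mul] at hp
        exact inv_anti₀ (by positivity) hp
      have e3 : L ^ j₂ * ((L ^ C) ^ (-(1 / 2) : ℝ) + T ^ (-(η / 2))) ≤ 2 / L ^ (K + 1) := by
        rw [hC, rpow_half hL0]
        refine (mul_le_mul_of_nonneg_left (add_le_add le_rfl e2) (by positivity)).trans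
          (le_of_eq ?_)
        rw [add_assoc, pow_add]
        field_simp
        norm_num
      rw [mul_assoc (tau d ^ j₂ * Y)]
      refine mul_le_mul (mul_le_mul_of_nonneg_right t3 Y0.le) e3 ?_ (by positivity)
      have : 0 ≤ T ^ (-(η / 2)) := Real.rpow_nonneg hT0.le _
      have : 0 ≤ (L ^ C) ^ (-(1 / 2) : ℝ) := Real.rpow_nonneg hQ0.le _
      positivity
    rw [← hY]
    refine (mul_le_mul_of_nonneg_left ((NB_split V _ hQ d Y).trans (add_le_add n2 n3))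
      (by positivity)).trans (le_of_eq ?_)
    rw [hY]
    field_simp
    norm_num
  have h2 : ∑ r ∈ (Finset.Icc 1 ⌊T ^ θ / 2⌋₊).filter Squarefree, ∑ d ∈ r.divisors,
      (d : ℝ) / (r : ℝ) ^ 2 * NB V (c T) 1 (T ^ θ / r) d (r / d * T) ≤
      (∑ r ∈ Finset.Icc 1 ⌊T ^ θ / 2⌋₊, tau r ^ (j₁ + j₂ + 1) / r) * (T * (4 / L ^ (K + 1))) := by
    rw [Finset.sum_mul]
    refine le_trans (Finset.sum_le_sum fun r hr => ?_)
      (Finset.sum_le_sum_of_subset_of_nonneg (Finset.filter_subset _ _) fun r _ _ => ?_)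
    · refine (Finset.sum_le_sum (key r hr)).trans ?_
      have hr3 := (Finset.mem_Icc.1 (Finset.mem_filter.1 hr).1).1
      rw [← Finset.sum_mul]
      refine (mul_le_mul_of_nonneg_right (sum_div_le _ (by omega)) (by positivity)).trans
        (le_of_eq ?_)
      ring
    · have := tau_nonneg r
      positivity
  have h3 : ∑ r ∈ Finset.Icc 1 ⌊T ^ θ / 2⌋₊, tau r ^ (j₁ + j₂ + 1) / r ≤
      (L ^ 2) ^ 2 ^ (j₁ + j₂ + 1) := by
    refine (sum_tau_div _ _).trans (pow_le_pow_left₀ ?_ (hr _ (Nat.cast_nonneg _) ?_) _)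
    · have := Real.log_natCast_nonneg ⌊T ^ θ / 2⌋₊
      linarith
    · rw [pow_one]
      have := Nat.floor_le (a := T ^ θ / 2) (by positivity)
      linarith
  rw [norm_div, Complex.norm_real, Real.norm_of_nonneg hT0.le, div_le_iff₀ hT0]
  refine h1.trans ((mul_le_mul_of_nonneg_left (h2.trans (mul_le_mul_of_nonneg_right h3
    (by positivity))) (by positivity)).trans (le_of_eq ?_))
  rw [← pow_mul, hK, pow_succ L (2 + _), pow_add L 2]
  field_simp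
  ring

theorem elim_main {θ η : ℝ} (hθ : 0 < θ) (hη : 0 < η) (h : 2 * θ + 3 * η ≤ 1) {b β : ℝ → AF}
    (hb : Moll θ b) (hβ : Tame β) (hs : Supp (1 - η) β) {l₁ l₂ l₃ : AF} (h₁ : Lam l₁)
    (h₂ : Lam l₂) (h₃ : Lam l₃) : ELim b fun T => β T * l₁ * l₂ * l₃ := by
  intro V M hV
  have t : Tame fun T => β T * tr l₁ T * tr l₂ T * tr l₃ T :=
    ((hβ.mul h₁.tame_tr).mul h₂.tame_tr).mul h₃.tame_tr
  have r : Red θ η V fun T => β T * tr l₁ T * tr l₂ T * tr l₃ T :=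
    Red.mul hV hθ hη h (Red.mul hV hθ hη h (Red.mul hV hθ hη h (red_of_supp hV hθ hη h hβ hs)
      (h₁.red_tr hV hθ hη h)) (h₂.red_tr hV hθ hη h)) (h₃.red_tr hV hθ hη h)
  have a := ER_tendsto hθ (by linarith) hη hb t
    (CA_three hV hη (by linarith) hβ hs h₁ h₂ h₃) (r.small hV hθ hη h)
  have m : Mod fun T => β T * l₁ * l₂ * l₃ := ((hβ.mod.mul h₁.mod).mul h₂.mod).mul h₃.mod
  have e := ER_tail hV hb m t.mod (Eventually.of_forall fun T =>
    mul_congr_of_le (mul_congr_of_le (mul_congr_of_le (fun _ _ => rfl) fun _ hn => tr_eq l₁ hn)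
      fun _ hn => tr_eq l₂ hn) fun _ hn => tr_eq l₃ hn)
  have s := e.add a
  rw [add_zero] at s
  refine s.congr fun T => ?_
  ring

end Pool.Agent.P.MP_7eacff_nt.SZ
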