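import Pool.Agent.P.MP_7eacff_nt.SZ.Basic

/-!
The lemma of Estermann.
-/

open Complex Filter Topology MeasureTheory Set
open scoped Real ContDiff

namespace Pool.Agent.P.MP_7eacff_nt.SZ

open Pool.Agent.Lib.LargeSieve (primSet mem_primSet)

open scoped ComplexOrder

namespace EsterAux

theorem core {c : ℕ → ℝ} {H x l B : ℝ} (hx : 1 < x) (hx' : x ≤ 9 / 8)
    (hs : HasSum (fun m => c m * x ^ m) H) (hb : ∀ m, |c m| ≤ B / (3 / 2) ^ m)
    (hl : ∀ m, -l ≤ c m) (h0 : 1 - l ≤ c 0) {N : ℕ} (hN : 1 ≤ N) :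
    1 - l * ((x ^ N - 1) / (x - 1)) - 4 * B * (3 / 4) ^ N ≤ H := by
  have hx0 : 0 ≤ x := by linarith
  have hB : 0 ≤ B := by simpa using (abs_nonneg _).trans (hb 0)
  have h1 := (hasSum_nat_add_iff' N).2 hs
  have h2 := (hasSum_geometric_of_lt_one (r := 3 / 4) (by norm_num) (by norm_num)).mul_left
    (-(B * (3 / 4) ^ N))
  have h3 := hasSum_le (fun m => ?_) h2 h1
  · have h4 : 1 - l * ∑ m ∈ Finset.range N, x ^ m ≤ ∑ m ∈ Finset.range N, c m * x ^ m := by
      obtain ⟨n, rfl⟩ := Nat.exists_eq_add_of_le' hN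
      rw [Finset.sum_range_succ', Finset.sum_range_succ', mul_add, Finset.mul_sum]
      have h5 : ∑ m ∈ Finset.range n, -(l * x ^ (m + 1)) ≤
          ∑ m ∈ Finset.range n, c (m + 1) * x ^ (m + 1) := Finset.sum_le_sum fun m _ => by
        rw [← neg_mul]
        exact mul_le_mul_of_nonneg_right (hl _) (pow_nonneg hx0 _)
      rw [Finset.sum_neg_distrib] at h5
      simp only [pow_zero, mul_one]
      linarith
    rw [geom_sum_eq hx.ne'] at h4
    norm_num at h3
    linarith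
  · have h4 : |c (m + N) * x ^ (m + N)| ≤ B / (3 / 2) ^ (m + N) * (9 / 8) ^ (m + N) := by
      rw [abs_mul, abs_of_nonneg (pow_nonneg hx0 _)]
      exact mul_le_mul (hb _) (pow_le_pow_left₀ hx0 hx' _) (pow_nonneg hx0 _) (by positivity)
    have h5 : B / (3 / 2) ^ (m + N) * (9 / 8) ^ (m + N) = B * (3 / 4) ^ N * (3 / 4) ^ m := by
      rw [div_mul_eq_mul_div, mul_div_assoc, ← div_pow, pow_add]
      norm_num
      ring
    rw [h5] at h4
    linarith [neg_abs_le (c (m + N) * x ^ (m + N))]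

theorem choose_N {K : ℝ} (hK : 1 ≤ K) : ∃ A C : ℝ, 0 < A ∧ 0 < C ∧ ∀ M : ℝ, 1 ≤ M →
    ∃ N : ℕ, 1 ≤ N ∧ 4 * (K * M) * (3 / 4) ^ N ≤ 1 / 2 ∧
      ∀ y : ℝ, 0 ≤ y → y ≤ 1 → (1 + y) ^ N ≤ C * M ^ (A * y) := by
  have hL : 0 < Real.log (4 / 3) := Real.log_pos (by norm_num)
  have hK0 : 0 < Real.log (8 * K) := Real.log_pos (by linarith)
  refine ⟨(Real.log (4 / 3))⁻¹, Real.exp (Real.log (8 * K) / Real.log (4 / 3) + 1), inv_pos.2 hL,
    Real.exp_pos _, fun M hM => ?_⟩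
  have hM0 : 0 ≤ Real.log M := Real.log_nonneg hM
  have ht : 0 < (Real.log (8 * K) + Real.log M) / Real.log (4 / 3) := by positivity
  refine ⟨⌈(Real.log (8 * K) + Real.log M) / Real.log (4 / 3)⌉₊, Nat.one_le_ceil_iff.2 ht, ?_,
    fun y hy hy1 => ?_⟩
  · have h1 := Nat.le_ceil ((Real.log (8 * K) + Real.log M) / Real.log (4 / 3))
    generalize ⌈(Real.log (8 * K) + Real.log M) / Real.log (4 / 3)⌉₊ = N at h1 ⊢
    rw [div_le_iff₀ hL, ← Real.log_mul (by linarith) (by linarith), ← Real.log_pow,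
      Real.log_le_log_iff (by positivity) (by positivity)] at h1
    have h2 : (4 / 3 : ℝ) ^ N * (3 / 4) ^ N = 1 := by
      rw [← mul_pow]
      norm_num
    have h3 := mul_le_mul_of_nonneg_right h1 (show (0 : ℝ) ≤ (3 / 4) ^ N by positivity)
    linarith
  · have h1 := (Nat.ceil_lt_add_one ht.le).le
    generalize ⌈(Real.log (8 * K) + Real.log M) / Real.log (4 / 3)⌉₊ = N at h1 ⊢
    have h2 : (1 + y) ^ N ≤ Real.exp y ^ N :=
      pow_le_pow_left₀ (by linarith) (by linarith [Real.add_one_le_exp y]) _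
    rw [← Real.exp_nat_mul] at h2
    rw [Real.rpow_def_of_pos (by linarith), ← Real.exp_add]
    refine h2.trans (Real.exp_le_exp.2 ?_)
    have h3 := mul_le_mul_of_nonneg_right h1 hy
    have h4 : (Real.log (8 * K) / Real.log (4 / 3) + 1) * y ≤
        Real.log (8 * K) / Real.log (4 / 3) + 1 := mul_le_of_le_one_right (by positivity) hy1
    have h5 : ((Real.log (8 * K) + Real.log M) / Real.log (4 / 3) + 1) * y =
        (Real.log (8 * K) / Real.log (4 / 3) + 1) * y + Real.log M * ((Real.log (4 / 3))⁻¹ * y) := by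
      ring
    linarith

end EsterAux

theorem estermann : ∃ A C : ℝ, 0 < A ∧ 0 < C ∧ ∀ (g : ℂ → ℂ) (M : ℝ) (r : ℕ → ℂ),
    Differentiable ℂ g → 1 ≤ M → (∀ s : ℂ, ‖s - 2‖ ≤ 3 / 2 → ‖g s‖ ≤ M) → (∀ n, 0 ≤ r n) →
    r 1 = 1 → (∀ s : ℂ, 1 < s.re → LSeriesSummable r s ∧ LSeries r s = riemannZeta s * g s) →
    ∀ σ : ℝ, 7 / 8 ≤ σ → σ < 1 →
      1 / 2 - C * ‖g 1‖ * M ^ (A * (1 - σ)) / (1 - σ) ≤ (riemannZeta σ * g σ).re := by
  obtain ⟨K₀, hK₀⟩ := (isCompact_closedBall (2 : ℂ) (3 / 2)).exists_bound_of_continuousOn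
    differentiable_riemannZeta₀.continuous.continuousOn
  have hK0 : 0 ≤ K₀ := (norm_nonneg _).trans (hK₀ 2 (Metric.mem_closedBall_self (by norm_num)))
  obtain ⟨A, C, hA, hC, hN⟩ := EsterAux.choose_N (K := K₀ + 4) (by linarith)
  refine ⟨A, C, hA, hC, fun g M r hg hM hgM hr hr1 hL σ hσ hσ1 => ?_⟩
  obtain ⟨N, hN1, hN2, hN3⟩ := hN M hM
  obtain ⟨h, hh⟩ : ∃ h : ℂ → ℂ, h = fun s => riemannZeta₀ s * g s + dslope g 1 s := ⟨_, rfl⟩
  have hd : Differentiable ℂ h := by
    rw [hh]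
    exact (differentiable_riemannZeta₀.mul hg).add (differentiableOn_univ.1
      ((Complex.differentiableOn_dslope univ_mem).2 hg.differentiableOn))
  have he : ∀ s : ℂ, s ≠ 1 → riemannZeta s * g s = h s + g 1 * (s - 1)⁻¹ := fun s hs => by
    simp only [hh]
    rw [riemannZeta_eq_inv_sub_add hs, dslope_of_ne _ hs, slope_def_field]
    ring
  have hg1 : ‖g 1‖ ≤ M := hgM 1 (by norm_num)
  have hb : ∀ s ∈ Metric.sphere (2 : ℂ) (3 / 2), ‖h s‖ ≤ (K₀ + 4) * M := fun s hs => by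
    have h1 : ‖s - 2‖ = 3 / 2 := mem_sphere_iff_norm.1 hs
    have h2 : 1 / 2 ≤ ‖s - 1‖ := by
      have := norm_sub_le (s - 1) 1
      rw [show s - 1 - 1 = s - 2 by ring, h1, norm_one] at this
      linarith
    have hs1 : s ≠ 1 := by
      rintro rfl
      norm_num at h2
    have h3 := hgM s h1.le
    have h4 : ‖dslope g 1 s‖ ≤ 4 * M := by
      rw [dslope_of_ne _ hs1, slope_def_field, norm_div, div_le_iff₀ (by linarith)]
      nlinarith [norm_sub_le (g s) (g 1)]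
    have h5 : ‖riemannZeta₀ s * g s‖ ≤ K₀ * M := by
      rw [norm_mul]
      exact mul_le_mul (hK₀ s (Metric.sphere_subset_closedBall hs)) h3 (norm_nonneg _) hK0
    simp only [hh]
    linarith [norm_add_le (riemannZeta₀ s * g s) (dslope g 1 s)]
  have two : ((2 : ℝ) : ℂ) = 2 := by norm_num
  have habs : LSeries.abscissaOfAbsConv r < (2 : ℝ) :=
    (LSeries.abscissaOfAbsConv_le_of_forall_lt_LSeriesSummable (x := 1) fun y hy =>
      (hL y (by simpa using hy)).1).trans_lt (by exact_mod_cast one_lt_two)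
  have hev : LSeries r =ᶠ[𝓝 2] h + fun s => g 1 * (1 * s - 1)⁻¹ := by
    have : ∀ᶠ s : ℂ in 𝓝 2, 1 < s.re :=
      Complex.continuous_re.continuousAt.eventually (lt_mem_nhds (by norm_num))
    filter_upwards [this] with s hs
    rw [(hL s hs).2, he s (by rintro rfl; norm_num at hs), Pi.add_apply, one_mul]
  have hD : ∀ m : ℕ, ((m.factorial : ℂ))⁻¹ * ((-1) ^ m * iteratedDeriv m h 2) + g 1 =
      ((m.factorial : ℂ))⁻¹ * ((-1) ^ m * iteratedDeriv m (LSeries r) 2) := fun m => by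
    have hm : (m.factorial : ℂ) ≠ 0 := Nat.cast_ne_zero.2 m.factorial_ne_zero
    have h1 : ContDiffAt ℂ m (fun s : ℂ => g 1 * (1 * s - 1)⁻¹) 2 :=
      contDiffAt_const.mul (ContDiffAt.inv (by fun_prop) (by norm_num))
    rw [hev.iteratedDeriv_eq, iteratedDeriv_add hd.contDiff.contDiffAt h1,
      iteratedDeriv_const_mul_field, iteratedDeriv_eq_iterate (f := fun s : ℂ => (1 * s - 1)⁻¹),
      iter_deriv_inv_linear_sub]
    have h2 : ((-1 : ℂ) ^ m) * (-1) ^ m = 1 := by rw [← mul_pow]; norm_num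
    have h3 : (1 * 2 - 1 : ℂ) = 1 := by norm_num
    simp only [h3, one_pow, one_zpow, mul_one]
    field_simp
    linear_combination (-(g 1 * (m.factorial : ℂ))) * h2
  have hpos : ∀ m : ℕ,
      0 ≤ (((m.factorial : ℂ))⁻¹ * ((-1) ^ m * iteratedDeriv m (LSeries r) 2)).re := fun m => by
    have h1 := LSeries.iteratedDeriv_alternating (a := r) hr habs m
    rw [two] at h1
    rw [← Complex.ofReal_natCast, ← Complex.ofReal_inv, Complex.re_ofReal_mul]
    exact mul_nonneg (by positivity) (Complex.le_def.1 h1).1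
  have hone : 1 ≤ (LSeries r 2).re := by
    have h1 := (hL ((2 : ℝ) : ℂ) (by norm_num)).1.le_tsum 1 fun j _ => LSeries.term_nonneg (hr j) 2
    rw [LSeries.term_of_ne_zero one_ne_zero, hr1, two] at h1
    simpa [LSeries] using (Complex.le_def.1 h1).1
  have hs : HasSum (fun m : ℕ => (((m.factorial : ℂ))⁻¹ * ((-1) ^ m * iteratedDeriv m h 2)).re *
      (2 - σ) ^ m) (h σ).re := by
    have h1 := Complex.hasSum_re (Complex.hasSum_taylorSeries_of_entire hd 2 σ)
    have h2 : ∀ m : ℕ, ((m.factorial : ℂ))⁻¹ • ((σ : ℂ) - 2) ^ m • iteratedDeriv m h 2 =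
        ((m.factorial : ℂ))⁻¹ * ((-1) ^ m * iteratedDeriv m h 2) * (((2 - σ) ^ m : ℝ) : ℂ) :=
      fun m => by
        rw [smul_eq_mul, smul_eq_mul, ← neg_sub 2 (σ : ℂ), neg_pow]
        push_cast
        ring
    simpa only [h2, Complex.re_mul_ofReal] using h1
  have key := EsterAux.core (l := (g 1).re) (B := (K₀ + 4) * M) (by linarith) (by linarith) hs
    (fun m => ?_) (fun m => ?_) ?_ hN1
  · have hσ' : (σ : ℂ) ≠ 1 := by exact_mod_cast hσ1.ne
    have hy : 0 < 1 - σ := sub_pos.2 hσ1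
    have h1 := hN3 (1 - σ) hy.le (by linarith)
    rw [show 1 + (1 - σ) = 2 - σ by ring] at h1
    rw [show 2 - σ - 1 = 1 - σ by ring] at key
    have h2 : (g 1 * ((σ : ℂ) - 1)⁻¹).re = -((g 1).re / (1 - σ)) := by
      rw [← Complex.ofReal_one, ← Complex.ofReal_sub, ← Complex.ofReal_inv, Complex.re_mul_ofReal,
        ← neg_sub 1 σ, inv_neg, mul_neg, div_eq_mul_inv]
    rw [he σ hσ', Complex.add_re, h2]
    have h3 : (g 1).re * (2 - σ) ^ N ≤ C * ‖g 1‖ * M ^ (A * (1 - σ)) := by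
      have h4 := mul_le_mul (Complex.re_le_norm (g 1)) h1 (pow_nonneg (by linarith) _)
        (norm_nonneg _)
      linarith
    have h4 := div_le_div_of_nonneg_right h3 hy.le
    have h5 : (g 1).re * (((2 - σ) ^ N - 1) / (1 - σ)) =
        (g 1).re * (2 - σ) ^ N / (1 - σ) - (g 1).re / (1 - σ) := by ring
    linarith
  · refine (Complex.abs_re_le_norm _).trans ?_
    have h1 := Complex.norm_iteratedDeriv_le_of_forall_mem_sphere_norm_le m (by norm_num)
      hd.diffContOnCl hb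
    have hm : (0 : ℝ) < m.factorial := Nat.cast_pos.2 m.factorial_pos
    rw [norm_mul, norm_mul, norm_pow, norm_neg, norm_one, one_pow, one_mul, norm_inv,
      Complex.norm_natCast, inv_mul_le_iff₀ hm, ← mul_div_assoc]
    exact h1
  · have h1 := hpos m
    rw [← hD, Complex.add_re] at h1
    linarith
  · have h1 := congrArg Complex.re (hD 0)
    rw [Complex.add_re] at h1
    simp only [Nat.factorial_zero, Nat.cast_one, inv_one, pow_zero, one_mul,
      iteratedDeriv_zero] at h1 ⊢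
    linarith

end Pool.Agent.P.MP_7eacff_nt.SZ
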