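import Pool.Agent.P.MP_7eacff_nt.SZ.Div

/-!
Algebra of families of arithmetic functions.
-/

open Complex Filter Topology MeasureTheory Set
open scoped Real ContDiff

namespace Pool.Agent.P.MP_7eacff_nt.SZ

open Pool.Agent.Lib.LargeSieve (primSet mem_primSet)

namespace FamAux

theorem tame_of {f : ℝ → AF} (C : ℝ) (i j k : ℕ) (h : ∀ᶠ T : ℝ in atTop, ∀ n, n ≠ 0 →
    ‖f T n‖ ≤ C * Real.log T ^ i * tau n ^ j ∧ (T ^ k < (n : ℝ) → f T n = 0)) : Tame f := by
  refine ⟨i + 1 + j + k, ?_⟩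
  filter_upwards [h, ev_le_log C, ev_le_log 1, eventually_ge_atTop 1] with T h hC hL hT n
  have h0 := tau_nonneg n
  rcases eq_or_ne n 0 with rfl | hn
  · exact ⟨by rw [ArithmeticFunction.map_zero, norm_zero]; positivity,
      fun _ => ArithmeticFunction.map_zero⟩
  refine ⟨(h n hn).1.trans ?_,
    fun h1 => (h n hn).2 ((pow_le_pow_right₀ hT (by omega)).trans_lt h1)⟩
  refine mul_le_mul (le_trans ?_ (pow_le_pow_right₀ hL (show i + 1 ≤ _ by omega)))
    (pow_le_pow_right₀ (one_le_tau hn) (by omega)) (by positivity) (by positivity)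
  rw [pow_succ']
  exact mul_le_mul_of_nonneg_right hC (by positivity)

theorem tame_le {f g : ℝ → AF} (hf : Tame f) (B : ℝ)
    (h : ∀ᶠ T : ℝ in atTop, ∀ n, ‖g T n‖ ≤ B * ‖f T n‖) : Tame g := by
  obtain ⟨j, hj⟩ := hf
  refine tame_of |B| j j j ?_
  filter_upwards [hj, h] with T hj h n _
  refine ⟨(h n).trans ?_, fun h1 => ?_⟩
  · rw [mul_assoc]
    exact mul_le_mul (le_abs_self B) (hj n).1 (norm_nonneg _) (abs_nonneg B)
  · simpa [(hj n).2 h1] using h n

theorem tame_smul {f : ℝ → AF} (hf : Tame f) {a : ℝ → ℂ} {B : ℝ}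
    (ha : ∀ᶠ T : ℝ in atTop, ‖a T‖ ≤ B) : Tame fun T => a T • f T :=
  tame_le hf B (ha.mono fun T h n => by
    rw [smul_apply', norm_mul]
    exact mul_le_mul_of_nonneg_right h (norm_nonneg _))

theorem mod_of {c : ℝ → AF} (h : ∀ ε : ℝ, 0 < ε → ∃ C : ℝ, ∀ᶠ T : ℝ in atTop, ∀ m, m ≠ 0 →
    ‖c T m‖ ≤ C * (T ^ ε * (m : ℝ) ^ ε)) : Mod c := by
  intro ε hε
  obtain ⟨C, h⟩ := h (ε / 2) (half_pos hε)
  filter_upwards [h, ev_log_pow_le C 0 (half_pos hε), eventually_gt_atTop 0] with T h hC hT m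
  rcases eq_or_ne m 0 with rfl | hm
  · rw [ArithmeticFunction.map_zero, norm_zero]
    positivity
  have h1 : (1 : ℝ) ≤ m := by exact_mod_cast Nat.pos_of_ne_zero hm
  rw [pow_zero, mul_one] at hC
  refine (h m hm).trans ((mul_le_mul_of_nonneg_right hC (by positivity)).trans ?_)
  rw [← mul_assoc, ← Real.rpow_add hT, add_halves]
  exact mul_le_mul_of_nonneg_left (Real.rpow_le_rpow_of_exponent_le h1 (half_le_self hε.le))
    (by positivity)

theorem lt_div {T x y : ℝ} (hT : 1 < T) (h : T ^ x < y) : x < Real.log y / Real.log T := by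
  have h0 : 0 < T := one_pos.trans hT
  rw [lt_div_iff₀ (Real.log_pos hT), ← Real.log_rpow h0]
  exact Real.log_lt_log (Real.rpow_pos_of_pos h0 x) h

theorem bdd {F : ℝ → ℝ} (hF : Tst F) : ∃ B : ℝ, 0 ≤ B ∧ ∀ r, ‖(F r : ℂ)‖ ≤ B := by
  obtain ⟨B, hB⟩ := hF.cs.exists_bound_of_continuous hF.cd.continuous
  exact ⟨B, (norm_nonneg _).trans (hB 0), fun r => (norm_real _).trans_le (hB r)⟩

theorem norm_one_le (n : ℕ) : ‖(1 : AF) n‖ ≤ 1 := by
  rw [ArithmeticFunction.one_apply]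
  split_ifs <;> simp

end FamAux

open FamAux

theorem Tame.congr {f g : ℝ → AF} (hf : Tame f) (h : ∀ᶠ T : ℝ in atTop, g T = f T) : Tame g :=
  tame_le hf 1 (h.mono fun T e n => by rw [e, one_mul])

theorem Tame.add {f g : ℝ → AF} (hf : Tame f) (hg : Tame g) : Tame fun T => f T + g T := by
  obtain ⟨i, hi⟩ := hf
  obtain ⟨j, hj⟩ := hg
  refine tame_of 2 (i + j) (i + j) (i + j) ?_
  filter_upwards [hi, hj, ev_le_log 1, eventually_ge_atTop 1] with T hi hj hL hT n hn
  have h0 := one_le_tau hn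
  rw [ArithmeticFunction.add_apply]
  refine ⟨(norm_add_le _ _).trans ?_, fun h => ?_⟩
  · have a : ∀ k ≤ i + j, Real.log T ^ k * tau n ^ k ≤ Real.log T ^ (i + j) * tau n ^ (i + j) :=
      fun k hk => mul_le_mul (pow_le_pow_right₀ hL hk) (pow_le_pow_right₀ h0 hk) (by positivity)
        (by positivity)
    linarith [(hi n).1, (hj n).1, a i (by omega), a j (by omega)]
  · rw [(hi n).2 ((pow_le_pow_right₀ hT (by omega)).trans_lt h),
      (hj n).2 ((pow_le_pow_right₀ hT (by omega)).trans_lt h), add_zero]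

theorem Tame.neg {f : ℝ → AF} (hf : Tame f) : Tame fun T => -f T :=
  tame_le hf 1 (Eventually.of_forall fun T n => by
    rw [ArithmeticFunction.neg_apply, norm_neg, one_mul])

theorem Tame.mul {f g : ℝ → AF} (hf : Tame f) (hg : Tame g) : Tame fun T => f T * g T := by
  obtain ⟨i, hi⟩ := hf
  obtain ⟨j, hj⟩ := hg
  refine tame_of 1 (i + j) (i + j + 1) (i + j) ?_
  filter_upwards [hi, hj, eventually_ge_atTop 0] with T hi hj hT n _
  rw [one_mul, pow_add, pow_add T]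
  exact ⟨norm_mul_le (fun n => (hi n).1) (fun n => (hj n).1) n,
    mul_eq_zero_of_lt (by positivity) (by positivity) (fun n => (hi n).2) (fun n => (hj n).2) n⟩

theorem Tame.low {f : ℝ → AF} (hf : Tame f) (Z : ℝ → ℝ) : Tame fun T => lo (Z T) (f T) :=
  tame_le hf 1 (Eventually.of_forall fun T n => by
    rw [lo_apply]
    split_ifs <;> simp)

theorem Tame.high {f : ℝ → AF} (hf : Tame f) (Z : ℝ → ℝ) : Tame fun T => hi (Z T) (f T) :=
  tame_le hf 1 (Eventually.of_forall fun T n => by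
    rw [hi_apply]
    split_ifs <;> simp)

theorem tame_one : Tame fun _ => 1 :=
  tame_of 1 0 0 0 (Eventually.of_forall fun T n _ => ⟨by simpa using norm_one_le n,
    fun h => ArithmeticFunction.one_apply_ne (by rintro rfl; simp at h)⟩)

/-- Functions bounded by a logarithm, truncated at a polynomial height. -/
theorem tame_lo {f : ℝ → AF} (hf : ∀ T n, ‖f T n‖ ≤ 1 + Real.log n) {Z : ℝ → ℝ}
    (hZ : ∀ᶠ T : ℝ in atTop, Z T ≤ T ^ 20) : Tame fun T => lo (Z T) (f T) := by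
  refine tame_of 1 2 0 20 ?_
  filter_upwards [hZ, ev_log_range 20] with T hZ h n _
  rw [lo_apply]
  refine ⟨?_, fun h1 => if_neg (not_le.2 (hZ.trans_lt h1))⟩
  rw [one_mul, pow_zero, mul_one]
  split_ifs with h1
  · exact (hf T n).trans (h n (Nat.cast_nonneg n) (h1.trans hZ))
  · rw [norm_zero]
    positivity

theorem Lam.norm_le {f : AF} (h : Lam f) (n : ℕ) : ‖f n‖ ≤ 1 + Real.log n := by
  have h0 := Real.log_natCast_nonneg n
  rcases h with rfl | rfl | rfl | rfl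
  · linarith [norm_one_le n]
  · linarith [norm_un_le n]
  · linarith [norm_lg n]
  · linarith [norm_vm_le n]

theorem Lam.tame_tr {f : AF} (h : Lam f) : Tame (tr f) :=
  tame_lo (f := fun _ => f) (fun _ => h.norm_le) (Eventually.of_forall fun _ => le_rfl)

theorem Tame.mod {f : ℝ → AF} (hf : Tame f) : Mod f := by
  obtain ⟨j, hj⟩ := hf
  refine mod_of fun ε hε => ?_
  obtain ⟨C, hC, h⟩ := tau_pow_le j hε
  refine ⟨C, ?_⟩
  filter_upwards [hj, ev_log_pow_le 1 j hε, eventually_ge_atTop 0] with T hj hL hT m hm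
  have := tau_nonneg m
  rw [one_mul] at hL
  rw [mul_left_comm]
  exact (hj m).1.trans (mul_le_mul hL (h m hm) (by positivity) (by positivity))

theorem Lam.mod {f : AF} (h : Lam f) : Mod fun _ => f := by
  refine mod_of fun ε hε => ⟨1 + ε⁻¹, ?_⟩
  filter_upwards [eventually_ge_atTop 1] with T hT m hm
  have h1 : (1 : ℝ) ≤ m := by exact_mod_cast Nat.pos_of_ne_zero hm
  have h2 := Real.one_le_rpow h1 hε.le
  have h3 := Real.log_le_rpow_div (Nat.cast_nonneg m) hε
  have h4 : (m : ℝ) ^ ε ≤ T ^ ε * (m : ℝ) ^ ε :=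
    le_mul_of_one_le_left (by positivity) (Real.one_le_rpow hT hε.le)
  refine (h.norm_le m).trans (le_trans ?_ (mul_le_mul_of_nonneg_left h4 (by positivity)))
  rw [div_eq_inv_mul] at h3
  linarith

theorem Mod.mul {f g : ℝ → AF} (hf : Mod f) (hg : Mod g) : Mod fun T => f T * g T := by
  refine mod_of fun ε hε => ?_
  obtain ⟨C, hC, h⟩ := tau_pow_le 1 (half_pos hε)
  refine ⟨C, ?_⟩
  filter_upwards [hf _ (half_pos hε), hg _ (half_pos hε), eventually_gt_atTop 0] with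
    T hf hg hT m hm
  have h1 : (0 : ℝ) < m := by exact_mod_cast Nat.pos_of_ne_zero hm
  have h2 : ∀ p ∈ m.divisorsAntidiagonal, ‖f T p.1 * g T p.2‖ ≤ T ^ ε * (m : ℝ) ^ (ε / 2) := by
    intro p hp
    rw [norm_mul]
    refine (mul_le_mul (hf _) (hg _) (norm_nonneg _) (by positivity)).trans (le_of_eq ?_)
    rw [mul_mul_mul_comm, ← Real.rpow_add hT, add_halves,
      ← Real.mul_rpow (Nat.cast_nonneg _) (Nat.cast_nonneg _), ← Nat.cast_mul,
      (Nat.mem_divisorsAntidiagonal.1 hp).1]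
  rw [ArithmeticFunction.mul_apply]
  refine (norm_sum_le_of_le _ h2).trans ?_
  rw [Finset.sum_const, nsmul_eq_mul, card_antidiag, ← pow_one (tau m)]
  refine (mul_le_mul_of_nonneg_right (h m hm) (by positivity)).trans (le_of_eq ?_)
  rw [mul_assoc, mul_left_comm _ (T ^ ε), ← Real.rpow_add h1, add_halves]

theorem Mod.add {f g : ℝ → AF} (hf : Mod f) (hg : Mod g) : Mod fun T => f T + g T := by
  refine mod_of fun ε hε => ⟨2, ?_⟩
  filter_upwards [hf ε hε, hg ε hε] with T hf hg m _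
  rw [ArithmeticFunction.add_apply]
  linarith [norm_add_le (f T m) (g T m), hf m, hg m]

theorem Mod.smul {f : ℝ → AF} (hf : Mod f) {a : ℝ → ℂ} {B : ℝ}
    (ha : ∀ᶠ T : ℝ in atTop, ‖a T‖ ≤ B) : Mod fun T => a T • f T := by
  refine mod_of fun ε hε => ⟨B, ?_⟩
  filter_upwards [hf ε hε, ha] with T hf ha m _
  rw [smul_apply', norm_mul]
  exact mul_le_mul ha (hf m) (norm_nonneg _) ((norm_nonneg _).trans ha)

theorem Mod.summable {c : ℝ → AF} (hc : Mod c) :
    ∀ᶠ T : ℝ in atTop, LSeriesSummable (c T) (3 / 2) := by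
  filter_upwards [hc (1 / 4) (by norm_num)] with T h
  refine LSeriesSummable_of_le_const_mul_rpow (x := 5 / 4) (by norm_num) ⟨T ^ (1 / 4 : ℝ), ?_⟩
  intro n _
  rw [show (5 / 4 - 1 : ℝ) = 1 / 4 by norm_num]
  exact h n

theorem moll_bF {θ : ℝ} {F : ℝ → ℝ} (hF : Tst F) (hs : ∀ r, θ < r → F r = 0) : Moll θ (bF F) := by
  obtain ⟨B, hB0, hB⟩ := bdd hF
  refine ⟨B, ?_⟩
  filter_upwards [eventually_gt_atTop 1] with T hT k
  rw [bF_apply, norm_mul]
  refine ⟨(mul_le_of_le_one_left (norm_nonneg _) (norm_mu_le k)).trans (hB _),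
    fun h => ⟨squarefree_of_mu (left_ne_zero_of_mul h), not_lt.1 fun h1 => h ?_⟩⟩
  rw [hs _ (lt_div hT h1), ofReal_zero, mul_zero]

theorem Moll.tame {θ : ℝ} {b : ℝ → AF} (hb : Moll θ b) (hθ : θ ≤ 1) : Tame b := by
  obtain ⟨B, hB⟩ := hb
  refine tame_of B 0 0 1 ?_
  filter_upwards [hB, eventually_ge_atTop 1] with T hB hT n _
  refine ⟨by simpa using (hB n).1, fun h => by_contra fun h1 => ?_⟩
  have h2 := Real.rpow_le_rpow_of_exponent_le hT hθ
  rw [Real.rpow_one] at h2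
  rw [pow_one] at h
  exact not_le.2 h (((hB n).2 h1).2.trans h2)

theorem Moll.supp {θ x : ℝ} {b : ℝ → AF} (hb : Moll θ b) (h : θ ≤ x) : Supp x b := by
  obtain ⟨B, hB⟩ := hb
  filter_upwards [hB, eventually_ge_atTop 1] with T hB hT n h1
  exact by_contra fun h2 =>
    not_le.2 h1 (((hB n).2 h2).2.trans (Real.rpow_le_rpow_of_exponent_le hT h))

theorem supp_aP {x : ℝ} {κ : ℝ → ℝ} (hs : ∀ v, x < v → κ v = 0) : Supp x (aP κ) := by
  filter_upwards [eventually_gt_atTop 1] with T hT n h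
  rw [aP_apply, hs _ (lt_div hT h), ofReal_zero, mul_zero]

theorem tame_aP {κ : ℝ → ℝ} (hκ : Tst κ) (hs : ∀ v, 1 < v → κ v = 0) : Tame (aP κ) := by
  obtain ⟨B, hB0, hB⟩ := bdd hκ
  refine tame_of B 1 0 1 ?_
  filter_upwards [supp_aP hs, ev_le_log 0] with T h hL n hn
  rw [Real.rpow_one] at h
  rw [pow_one, pow_one, pow_zero, mul_one]
  refine ⟨?_, h n⟩
  rcases lt_or_ge T n with h1 | h1
  · rw [h n h1, norm_zero]
    positivity
  · rw [aP_apply, norm_mul, mul_comm]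
    exact mul_le_mul (hB _) ((norm_vm_le n).trans (Real.log_le_log
      (by exact_mod_cast Nat.pos_of_ne_zero hn) h1)) (norm_nonneg _) hB0

theorem supp_aA {x : ℝ} (hx : 0 ≤ x) {κ : ℝ → ℝ} (hs : ∀ v, x < v → κ v = 0) : Supp x (aA κ) := by
  filter_upwards [supp_aP hs, eventually_ge_atTop 1] with T h hT n h1
  have h2 : n ≠ 1 := by
    rintro rfl
    exact not_le.2 h1 (by simpa using Real.one_le_rpow hT hx)
  rw [aA, sub_apply', smul_apply', smul_apply', h n h1, ArithmeticFunction.one_apply_ne h2]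
  simp

theorem tame_aA {κ : ℝ → ℝ} (hκ : Tst κ) (hs : ∀ v, 1 < v → κ v = 0) : Tame (aA κ) := by
  have h1 := tame_smul tame_one (a := fun _ => (a0 κ : ℂ)) (Eventually.of_forall fun _ => le_rfl)
  have h2 := tame_smul (tame_aP hκ hs) (a := fun T => 2 / (Real.log T : ℝ)) (B := 2)
    ((ev_le_log 1).mono fun T hT => by
      rw [norm_div, norm_real, Real.norm_of_nonneg (zero_le_one.trans hT), Complex.norm_two]
      exact div_le_self zero_le_two hT)
  exact (h1.add h2.neg).congr (Eventually.of_forall fun T => sub_eq_add_neg _ _)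

theorem aA_im (κ : ℝ → ℝ) (T : ℝ) (n : ℕ) : (aA κ T n).im = 0 := by
  rw [aA, sub_apply', smul_apply', smul_apply', aP_apply, vm_apply, ArithmeticFunction.one_apply,
    ← ofReal_ofNat, ← ofReal_div, ← ofReal_mul, ← ofReal_mul, sub_im, ofReal_im]
  split_ifs <;> simp

theorem bF_im (F : ℝ → ℝ) (T : ℝ) (n : ℕ) : (bF F T n).im = 0 := by
  rw [bF_apply, mu_apply, ← ofReal_intCast, ← ofReal_mul, ofReal_im]

end Pool.Agent.P.MP_7eacff_nt.SZ
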