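import Pool.Agent.P.MP_7eacff_nt.SZ.Wf

/-!
Fourier densities, Laplace transforms and circle averages.
-/

open Complex Filter Topology MeasureTheory Set
open scoped Real ContDiff

namespace Pool.Agent.P.MP_7eacff_nt.SZ

open Pool.Agent.Lib.LargeSieve (primSet mem_primSet)

theorem circ {g : ℂ → ℂ} (hg : ∀ w : ℂ, ‖w‖ ≤ 1 / 4 → DifferentiableAt ℂ g w) :
    ∫ x in Ioc (0 : ℝ) (2 * π), cr x * g (cz x) = -deriv g 0 := by
  have h := DifferentiableOn.deriv_eq_smul_circleIntegral (c := 0) (R := 1 / 4) (f := g)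
    (by norm_num) fun w hw => (hg w (by simpa using hw)).differentiableWithinAt
  have hπ : (π : ℂ) ≠ 0 := ofReal_ne_zero.2 Real.pi_ne_zero
  have e : ∀ x : ℝ, deriv (circleMap 0 (1 / 4)) x • (1 / (circleMap 0 (1 / 4) x - 0) ^ 2) •
      g (circleMap 0 (1 / 4) x) = -(2 * π * I) * (cr x * g (cz x)) := fun x => by
    have h1 : circleMap 0 (1 / 4) x = cz x := by simp [circleMap, cz]; ring
    rw [deriv_circleMap, h1, cr, smul_eq_mul, smul_eq_mul, neg_mul (x : ℂ), Complex.exp_neg]
    generalize g (cz x) = y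
    have := Complex.exp_ne_zero (x * I)
    rw [cz]
    field_simp
    ring
  rw [circleIntegral, intervalIntegral.integral_of_le (by positivity)] at h
  rw [funext e, integral_const_mul, smul_eq_mul] at h
  exact mul_left_cancel₀ two_pi_I_ne_zero (by linear_combination -h)

theorem circ_pw (L : ℝ) (n : ℕ) :
    ∫ x in Ioc (0 : ℝ) (2 * π), cr x * pw (cz x / L) n = lg n / L := by
  rcases eq_or_ne n 0 with rfl | hn
  · simp
  have h0 : (n : ℂ) ≠ 0 := Nat.cast_ne_zero.2 hn
  have h : ∀ w : ℂ, HasDerivAt (fun w : ℂ => cexp (log n * -(w / L)))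
      (cexp (log n * -(w / L)) * (log n * -(1 / L))) w := fun w =>
    (((hasDerivAt_id w).div_const (L : ℂ)).neg.const_mul (log n)).cexp
  have h1 := circ fun w _ => (h w).differentiableAt
  simp only [pw_apply _ hn, cpow_def_of_ne_zero h0, h1, (h 0).deriv, lg_apply, natCast_log]
  simp [div_eq_mul_inv]

theorem circ_rat {σ z : ℂ} (hσ : 1 / 4 < ‖σ‖) :
    ∫ x in Ioc (0 : ℝ) (2 * π), cr x * ((z + cz x) / (σ + cz x)) = (z - σ) / σ ^ 2 := by
  have h : ∀ w : ℂ, ‖w‖ ≤ 1 / 4 → HasDerivAt (fun w : ℂ => (z + w) / (σ + w))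
      ((1 * (σ + w) - (z + w) * 1) / (σ + w) ^ 2) w := fun w hw =>
    ((hasDerivAt_id w).const_add z).div ((hasDerivAt_id w).const_add σ) fun h0 => by
      rw [eq_neg_of_add_eq_zero_left h0, norm_neg] at hσ
      exact hσ.not_ge hw
  rw [circ fun w hw => (h w hw).differentiableAt, (h 0 (by simp)).deriv]
  ring

namespace FdAux

theorem fd_eq (F : ℝ → ℝ) (ξ : ℝ) : fd F ξ = wf F 1 (3 / 2 + ξ * I) / (2 * π) := by
  simp only [fd, wf, ofReal_one, div_one]
  congr 4
  ext r
  congr 2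
  ring

theorem int_mul {F : ℝ → ℝ} (hF : Tst F) {h : ℝ → ℂ} (hh : Continuous h) :
    Integrable fun r => (F r : ℂ) * h r :=
  ((continuous_ofReal.comp hF.continuous).mul hh).integrable_of_hasCompactSupport
    (hF.cs.comp_left (g := ofReal) ofReal_zero).mul_right

theorem fd_deriv {F : ℝ → ℝ} (hF : Tst F) (ξ : ℝ) :
    fd (deriv F) ξ = -(1 + ξ * I) * fd F ξ := by
  have h1 := int_mul hF.der (h := fun r => cexp ((1 + ξ * I) * r)) (by fun_prop)
  have h2 := int_mul hF (h := fun r => cexp ((1 + ξ * I) * r)) (by fun_prop)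
  have h := integral_eq_zero_of_hasDerivAt_of_integrable (fun r =>
    ((hF.cd.differentiable (by simp) r).hasDerivAt.ofReal_comp.mul
      ((hasDerivAt_id r).ofReal_comp.const_mul (1 + ξ * I)).cexp).congr_deriv
      (by simp only [id, Pi.add_apply]; push_cast; ring)) (h1.add (h2.const_mul (1 + ξ * I))) h2
  simp only [Pi.add_apply] at h
  rw [integral_add h1 (h2.const_mul _), integral_const_mul] at h
  rw [fd, fd, eq_neg_of_add_eq_zero_left h]
  ring

theorem av_mul {F : ℝ → ℝ} (hF : Tst F) (g : ℂ → ℂ) :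
    av F (fun z => z * g z) = -av (deriv F) g := by
  simp only [av, fd_deriv hF, ← integral_neg]
  congr 1
  ext ξ
  ring

theorem ne_zero {z : ℂ} (hz : z.re = 1) : z ≠ 0 := fun h => by simp [h] at hz

/-- Continuous and of polynomial growth on the line of real part one. -/
def Ok (g : ℂ → ℂ) : Prop := (Continuous fun ξ : ℝ => g (1 + ξ * I)) ∧ PolyG g 1 1

theorem Ok.mul {f g : ℂ → ℂ} (hf : Ok f) (hg : Ok g) : Ok fun z => f z * g z :=
  ⟨hf.1.mul hg.1, hf.2.mul hg.2⟩

theorem ok_const (c : ℂ) : Ok fun _ => c := ⟨continuous_const, polyG_const _ _ _⟩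

theorem ok_id : Ok fun z => z := ⟨by fun_prop, polyG_id _ _⟩

theorem ok_inv : Ok fun z => z⁻¹ := by
  refine ⟨Continuous.inv₀ (by fun_prop) fun ξ => ne_zero (by simp), 1, 0, fun s h _ => ?_⟩
  rw [norm_inv, pow_zero, mul_one]
  exact inv_le_one_of_one_le₀ (h.trans (re_le_norm s))

end FdAux

open FdAux

theorem continuous_fd {F : ℝ → ℝ} (hF : Tst F) : Continuous (fd F) := by
  rw [funext (fd_eq F)]
  exact ((differentiable_wf hF 1).continuous.comp (by fun_prop)).div_const _

theorem fd_moment {F : ℝ → ℝ} (hF : Tst F) (A : ℕ) :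
    Integrable fun ξ : ℝ => ‖fd F ξ‖ * (1 + |ξ|) ^ A := by
  obtain ⟨C, hC⟩ := dec_wf hF one_pos (3 / 2) (3 / 2) (A + 2)
  have := continuous_fd hF
  refine (integrable_inv_one_add_sq.const_mul |C|).mono' (by fun_prop) (ae_of_all _ fun ξ => ?_)
  have h1 := hC (3 / 2 + ξ * I) (by norm_num) (by norm_num)
  have h2 : ‖fd F ξ‖ ≤ ‖wf F 1 (3 / 2 + ξ * I)‖ := by
    rw [fd_eq, norm_div]
    refine div_le_self (norm_nonneg _) ?_
    have := Real.pi_gt_three
    simp only [norm_mul, Complex.norm_ofNat, norm_real, Real.norm_of_nonneg Real.pi_pos.le]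
    linarith
  have h3 : (3 / 2 + ξ * I : ℂ).im = ξ := by simp
  have h4 : 1 + ξ ^ 2 ≤ (1 + |ξ|) ^ 2 := by nlinarith [abs_nonneg ξ, sq_abs ξ]
  rw [h3, le_div_iff₀ (by positivity), pow_add] at h1
  rw [Real.norm_of_nonneg (by positivity), ← div_eq_mul_inv, le_div_iff₀ (by positivity)]
  calc ‖fd F ξ‖ * (1 + |ξ|) ^ A * (1 + ξ ^ 2)
      ≤ ‖wf F 1 (3 / 2 + ξ * I)‖ * (1 + |ξ|) ^ A * (1 + |ξ|) ^ 2 := by gcongr
    _ ≤ |C| := by rw [mul_assoc]; exact h1.trans (le_abs_self C)

theorem av_congr (F : ℝ → ℝ) {g g' : ℂ → ℂ} (h : ∀ z : ℂ, z.re = 1 → g z = g' z) :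
    av F g = av F g' :=
  integral_congr_ae (ae_of_all _ fun ξ => congrArg (fd F ξ * ·) (h _ (by simp)))

/-- Integrability against the density for continuous functions of polynomial growth. -/
theorem av_integrable {F : ℝ → ℝ} (hF : Tst F) {g : ℂ → ℂ}
    (hc : Continuous fun ξ : ℝ => g (1 + ξ * I)) (hg : PolyG g 1 1) :
    Integrable fun ξ : ℝ => fd F ξ * g (1 + ξ * I) := by
  obtain ⟨C, A, h⟩ := hg
  refine ((fd_moment hF A).const_mul C).mono' ((continuous_fd hF).mul hc).aestronglyMeasurable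
    (ae_of_all _ fun ξ => ?_)
  rw [norm_mul, mul_left_comm]
  exact mul_le_mul_of_nonneg_left (by simpa using h (1 + ξ * I) (by simp) (by simp))
    (norm_nonneg _)

theorem av_exp {F : ℝ → ℝ} (hF : Tst F) (r : ℝ) : av F (fun z => cexp (-z * r)) = F r := by
  have hπ : (π : ℂ) ≠ 0 := ofReal_ne_zero.2 Real.pi_ne_zero
  have e : iF (fun u => (F u : ℂ) * cexp u) = fun y => 2 * π * fd F (2 * π * y) := by
    ext y
    rw [fd, mul_div_cancel₀ _ (mul_ne_zero two_ne_zero hπ), iF]
    congr 1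
    ext u
    rw [ee, mul_assoc, ← Complex.exp_add]
    congr 2
    push_cast
    ring
  have hi : Integrable (fd F) := by simpa using av_integrable hF (ok_const 1).1 (ok_const 1).2
  have hc := hF.continuous
  have h := iF_iF (φ := fun u => (F u : ℂ) * cexp u) (by fun_prop) (int_mul hF (by fun_prop))
    (by rw [e]; exact (hi.comp_mul_left' (by positivity)).const_mul _) r
  have h1 := Measure.integral_comp_mul_left (fun ξ => fd F ξ * cexp (-(1 + ξ * I) * r)) (2 * π)
  have h2 : ∀ y : ℝ, 2 * π * fd F (2 * π * y) * ee (y * -r) = 2 * π * cexp r *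
      (fd F (2 * π * y) * cexp (-(1 + ((2 * π * y : ℝ) : ℂ) * I) * r)) := fun y => by
    rw [mul_mul_mul_comm, ← Complex.exp_add, ee]
    congr 2
    push_cast
    ring
  rw [e, iF] at h
  simp only [h2] at h
  rw [integral_const_mul, h1, abs_of_pos (by positivity), real_smul] at h
  refine mul_right_cancel₀ (Complex.exp_ne_zero r) (Eq.trans ?_ h)
  rw [av]
  generalize ∫ ξ : ℝ, fd F ξ * cexp (-(1 + ξ * I) * r) = y
  push_cast
  field_simp

theorem av_mul_exp {F : ℝ → ℝ} (hF : Tst F) (r : ℝ) :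
    av F (fun z => z * cexp (-z * r)) = -(deriv F r : ℝ) := by
  rw [av_mul hF, av_exp hF.der]

theorem av_sq_exp {F : ℝ → ℝ} (hF : Tst F) (r : ℝ) :
    av F (fun z => z ^ 2 * cexp (-z * r)) = (deriv (deriv F) r : ℝ) := by
  simp only [sq, mul_assoc]
  rw [av_mul hF, av_mul_exp hF.der, neg_neg]

theorem FdAux.swap {F : ℝ → ℝ} (hF : Tst F) {p : ℂ → ℂ} (hp : Ok p) {k : ℝ → ℂ}
    (hk : Continuous k) {a B : ℝ} (hB : ∀ x ∈ Ioi a, ‖k x‖ ≤ B) :
    av F (fun z => p z * ∫ x in Ioi a, k x * cexp (-z * x)) =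
      ∫ x in Ioi a, k x * av F fun z => p z * cexp (-z * x) := by
  have h1 : Integrable (fun x => ‖k x‖ * Real.exp (-x)) (volume.restrict (Ioi a)) :=
    ((integrableOn_exp_neg_Ioi a).const_mul B).mono' (by fun_prop)
      ((ae_restrict_iff' measurableSet_Ioi).2 (ae_of_all _ fun x hx => by
        rw [Real.norm_of_nonneg (by positivity)]
        exact mul_le_mul_of_nonneg_right (hB x hx) (Real.exp_pos _).le))
  have h2 := continuous_fd hF
  have h := integral_integral_swap (f := fun (ξ x : ℝ) =>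
      fd F ξ * p (1 + ξ * I) * (k x * cexp (-(1 + ξ * I) * x)))
    (((av_integrable hF hp.1 hp.2).norm.mul_prod h1).mono'
      (((h2.mul hp.1).fst'.mul (hk.snd'.mul (by fun_prop))).aestronglyMeasurable)
      (ae_of_all _ fun w => by simp [Function.uncurry, norm_exp]))
  simp only [av, ← mul_assoc, ← integral_const_mul] at h ⊢
  refine h.trans (integral_congr_ae (ae_of_all _ fun x => integral_congr_ae
    (ae_of_all _ fun ξ => ?_)))
  ring

theorem av_exp_div {F : ℝ → ℝ} (hF : Tst F) (r : ℝ) :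
    av F (fun z => cexp (-z * r) / z) = tl F r := by
  have h := swap hF (ok_const 1) (k := fun _ => 1) continuous_const (a := r) (B := 1) (by simp)
  simp only [one_mul, av_exp hF, integral_complex_ofReal] at h
  refine (av_congr F fun z hz => ?_).trans h
  rw [integral_exp_mul_complex_Ioi (by simp [hz]), neg_div_neg_eq]

theorem av_inv_add {F : ℝ → ℝ} (hF : Tst F) {w : ℂ} (hw : 0 ≤ w.re) :
    av F (fun z => 1 / (w + z)) = Lap F w := by
  have h := swap hF (ok_const 1) (k := fun x => cexp (-w * x)) (by fun_prop) (a := 0) (B := 1)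
    fun x hx => by simpa [norm_exp] using mul_nonneg hw (le_of_lt hx)
  simp only [one_mul, av_exp hF, ← Complex.exp_add, ← add_mul] at h
  refine ((av_congr F fun z hz => ?_).trans h).trans
    (integral_congr_ae (ae_of_all _ fun x => mul_comm _ _))
  rw [integral_exp_mul_complex_Ioi (by simp only [add_re, neg_re]; linarith), ← neg_add,
    neg_div_neg_eq]
  simp

theorem av_pw {F : ℝ → ℝ} (hF : Tst F) (L : ℝ) {n : ℕ} (hn : n ≠ 0) :
    av F (fun z => pw (z / L) n) = F (Real.log n / L) := by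
  rw [← av_exp hF]
  refine av_congr F fun z _ => ?_
  rw [pw_apply _ hn, cpow_def_of_ne_zero (Nat.cast_ne_zero.2 hn), ofReal_div, natCast_log]
  congr 1
  ring

theorem norm_Lap_le {G : ℝ → ℝ} (hG : Tst G) : ∃ C : ℝ, ∀ z : ℂ, 0 ≤ z.re → ‖Lap G z‖ ≤ C := by
  refine ⟨_, fun z hz => norm_integral_le_of_norm_le hG.integrable.norm.integrableOn
    ((ae_restrict_iff' measurableSet_Ioi).2 (ae_of_all _ fun x hx => ?_))⟩
  rw [norm_mul, norm_real]
  exact mul_le_of_le_one_right (norm_nonneg _)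
    (by simpa [norm_exp] using mul_nonneg hz (le_of_lt hx))

theorem continuous_Lap {G : ℝ → ℝ} (hG : Tst G) : Continuous (Lap G) := by
  obtain ⟨R, -, hR⟩ := hG.radius
  have e : Lap G = fun z => ∫ r in Icc 0 R, (G r : ℂ) * cexp (-z * r) := by
    ext z
    rw [Lap, ← integral_Ici_eq_integral_Ioi]
    refine setIntegral_eq_of_subset_of_forall_sdiff_eq_zero measurableSet_Ici Icc_subset_Ici_self
      fun x hx => ?_
    rw [hR x ((not_le.1 fun h => hx.2 ⟨hx.1, h⟩).trans_le (le_abs_self x)), ofReal_zero, zero_mul]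
  have := hG.continuous
  rw [e]
  exact continuous_parametric_integral_of_continuous (by unfold Function.uncurry; fun_prop)
    isCompact_Icc

theorem FdAux.av_lin {F : ℝ → ℝ} (hF : Tst F) {g : ℂ → ℂ} (hg : Ok g) (a b c d : ℂ) :
    av F (fun z => (a / z + b + c * z + d * z ^ 2) * g z) =
      a * av F (fun z => z⁻¹ * g z) + b * av F (fun z => 1 * g z) + c * av F (fun z => z * g z) +
        d * av F fun z => z * z * g z := by
  have h : ∀ {p : ℂ → ℂ}, Ok p → ∀ e : ℂ,
      Integrable fun ξ : ℝ => e * (fd F ξ * (p (1 + ξ * I) * g (1 + ξ * I))) :=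
    fun hp e => (av_integrable hF (hp.mul hg).1 (hp.mul hg).2).const_mul e
  have h1 := h ok_inv a
  have h2 := h (ok_const 1) b
  have h3 := h ok_id c
  have h4 := h (ok_id.mul ok_id) d
  simp only [av, ← integral_const_mul]
  rw [← integral_add' h1 h2, ← integral_add' (h1.add h2) h3,
    ← integral_add' ((h1.add h2).add h3) h4]
  refine integral_congr_ae (ae_of_all _ fun ξ => ?_)
  simp only [Pi.add_apply]
  ring

/-- The average of a polynomial in `z` and `1 / z` times a Laplace transform. -/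
theorem av_Lap {F G : ℝ → ℝ} (hF : Tst F) (hG : Tst G) (a b c d : ℝ) :
    av F (fun z => (a / z + b + c * z + d * z ^ 2) * Lap G z) =
      ((a * ip (fun r => G r * tl F r) + b * ip (fun r => G r * F r) -
        c * ip (fun r => G r * deriv F r) + d * ip fun r => G r * deriv (deriv F) r : ℝ) : ℂ) := by
  obtain ⟨C, hC⟩ := norm_Lap_le hG
  obtain ⟨B, -, hB⟩ := hG.bdd
  have h : ∀ {p : ℂ → ℂ}, Ok p → av F (fun z => p z * Lap G z) =
      ∫ x in Ioi 0, (G x : ℂ) * av F fun z => p z * cexp (-z * x) := fun hp =>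
    swap hF hp (continuous_ofReal.comp hG.continuous) (B := B) fun x _ => by simpa using hB x
  rw [av_lin hF ⟨(continuous_Lap hG).comp (by fun_prop), C, 0, fun s hs _ => by
      simpa using hC s (zero_le_one.trans hs)⟩, h ok_inv, h (ok_const 1), h ok_id,
    h (ok_id.mul ok_id)]
  simp only [inv_mul_eq_div, one_mul, ← sq, av_exp hF, av_exp_div hF, av_mul_exp hF, av_sq_exp hF,
    mul_neg, integral_neg, ← ofReal_mul, integral_complex_ofReal, ip]
  push_cast
  ring

theorem av_poly {F : ℝ → ℝ} (hF : Tst F) (a b c : ℝ) :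
    av F (fun z => a / z + b + c * z) = ((a * ip F + b * F 0 - c * deriv F 0 : ℝ) : ℂ) := by
  have h := av_lin hF (ok_const 1) a b c 0
  have h1 := av_exp hF 0
  have h2 := av_mul_exp hF 0
  have h3 := av_exp_div hF 0
  simp only [ofReal_zero, mul_zero, Complex.exp_zero, mul_one, one_div, zero_mul,
    add_zero] at h h1 h2 h3
  rw [h, h1, h2, h3, show tl F 0 = ip F from rfl]
  push_cast
  ring

end Pool.Agent.P.MP_7eacff_nt.SZ
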