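import Pool.Agent.P.MP_7eacff_nt.SZ.Wf

/-!
The prime part at a zero sees the multiplicity.
-/

open Complex Filter Topology MeasureTheory Set
open scoped Real ContDiff

namespace Pool.Agent.P.MP_7eacff_nt.SZ

open Pool.Agent.Lib.LargeSieve (primSet mem_primSet)

namespace LocLowAux

lemma cpow_crit {n : ℕ} (hn : n ≠ 0) (y : ℝ) :
    (n : ℂ) ^ (-(1 / 2 + (y : ℂ) * I)) = ((1 / √n : ℝ) : ℂ) * ch n y := by
  have hn0 : (0 : ℝ) < n := by exact_mod_cast Nat.pos_of_ne_zero hn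
  have e1 : (1 / √n : ℝ) = Real.exp (-(Real.log n / 2)) := by
    rw [Real.sqrt_eq_rpow, Real.rpow_def_of_pos hn0, Real.exp_neg, one_div]
    congr 2
    ring
  rw [e1, cpow_def_of_ne_zero (by exact_mod_cast hn), ch, ee, ofReal_exp, ← Complex.exp_add,
    ← natCast_log]
  congr 1
  have : (π : ℂ) ≠ 0 := by exact_mod_cast Real.pi_ne_zero
  push_cast
  field_simp
  ring

lemma dp_eq (κ : ℝ → ℝ) {T : ℝ} (hT : 1 ≤ T) (y : ℝ) :
    dp (aA κ T) ⌊T⌋₊ (1 / 2 + (y : ℂ) * I) = a0 κ - 2 * Psum (fun v => (κ v : ℂ)) T y := by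
  have h1 : 1 ∈ Finset.Icc 1 ⌊T⌋₊ := Finset.mem_Icc.2 ⟨le_rfl, Nat.le_floor (by exact_mod_cast hT)⟩
  have e : ((a0 κ : ℝ) : ℂ) = ∑ n ∈ Finset.Icc 1 ⌊T⌋₊,
      (a0 κ : ℂ) * (1 : AF) n * (n : ℂ) ^ (-(1 / 2 + (y : ℂ) * I)) := by
    rw [Finset.sum_eq_single_of_mem 1 h1]
    · simp
    · intro b _ hb
      simp [ArithmeticFunction.one_apply_ne hb]
  unfold dp Psum
  conv_rhs => rw [e]
  rw [Finset.mul_sum, ← Finset.sum_sub_distrib]
  refine Finset.sum_congr rfl fun n hn => ?_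
  have hn0 : n ≠ 0 := by have := (Finset.mem_Icc.1 hn).1; omega
  rw [aA, sub_apply', smul_apply', smul_apply', aP_apply, vm_apply, sub_mul, cpow_crit hn0]
  push_cast
  ring

lemma psum_conj {κ : ℝ → ℝ} (he : Function.Even κ) (T y : ℝ) :
    (Psum (fun u => (κ (-u) : ℂ)) T (-y)).re = (Psum (fun v => (κ v : ℂ)) T y).re := by
  rw [← conj_re (Psum (fun v => (κ v : ℂ)) T y)]
  congr 1
  unfold Psum
  rw [map_sum]
  refine Finset.sum_congr rfl fun n _ => ?_
  beta_reduce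
  rw [map_mul, map_mul, conj_ofReal, conj_ofReal, he, ch, ch, conj_ee]
  congr 2
  ring

end LocLowAux

theorem re_dp_aA_ge (hRH : RiemannHypothesis) {κ : ℝ → ℝ} (h : Tst κ) (he : Function.Even κ)
    {η : ℝ} (hη : 0 < η) (hs : ∀ v, 1 - η < v → κ v = 0) (hK : ∀ u, 0 ≤ WR κ u) {ε : ℝ}
    (hε : 0 < ε) : ∀ᶠ T : ℝ in atTop, ∀ y : Ord, T ≤ y → (y : ℝ) ≤ 2 * T →
      1 + 2 * ip κ * ((mult y : ℝ) - 2) - ε ≤ (dp (aA κ T) ⌊T⌋₊ (1 / 2 + (y : ℝ) * I)).re := by
  have hμ := zdata hRH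
  set θ := 1 - min η (1 / 2) with hθ
  have hθ0 : 0 < θ := by have := min_le_right η (1 / 2); linarith
  have hθ1 : θ < 1 := by have := lt_min hη one_half_pos; linarith
  have hθη : 1 - η ≤ θ := by have := min_le_left η (1 / 2); linarith
  have hcd : ContDiff ℝ 2 fun v => (κ v : ℂ) :=
    ofRealCLM.contDiff.comp (h.1.of_le (WithTop.coe_le_coe.2 le_top))
  obtain ⟨B, -, hB⟩ := exists_bump (R := θ) hcd fun u hu => by
    rcases le_total 0 u with h0 | h0
    · rw [abs_of_nonneg h0] at hu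
      rw [hs u (by linarith), ofReal_zero]
    · rw [abs_of_nonpos h0] at hu
      rw [← he u, hs (-u) (by linarith), ofReal_zero]
  have hb := norm_iF_pw_le hB hB hθ0 rfl
  have hef := hμ.local_ef hB hB rfl hθ0 hθ1 hε
  rw [pw_self] at hb hef
  have hc : Continuous (iF fun v => (κ v : ℂ)) := continuous_iF h.integrable.ofReal
  filter_upwards [hef, eventually_ge_atTop 1,
    Real.tendsto_log_atTop.eventually_ge_atTop (2 * π)] with T hT hT1 hL y hy1 hy2
  have h1 := hT y ⟨by linarith, by linarith⟩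
  have h2 := (re_le_norm _).trans h1
  rw [add_re, add_re, sub_re, LocLowAux.psum_conj he, ofReal_re] at h2
  have hint := hμ.integrable_stat hc.measurable hb hL y
  have hst : 2 * ip κ * (mult y : ℝ) ≤ (stat zmeas (iF fun v => (κ v : ℂ)) T y).re := by
    simp only [iF_eq_WR h he] at hint
    have hint' := hint.re
    simp only [RCLike.re_to_complex, ofReal_re] at hint'
    unfold stat
    simp only [iF_eq_WR h he]
    rw [integral_complex_ofReal, ofReal_re]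
    have hle : (mult y : ENNReal) • Measure.dirac (y : ℝ) ≤ zmeas :=
      Measure.le_sum (fun z : Ord => (mult z : ENNReal) • Measure.dirac (z : ℝ)) y
    refine le_trans (le_of_eq ?_) (integral_mono_measure hle (ae_of_all _ fun x => hK _) hint')
    rw [integral_smul_measure, integral_dirac, sub_self, mul_zero, mul_zero,
      ← integral_eq_two_ip h he]
    simp [WR, mul_comm]
  rw [LocLowAux.dp_eq κ hT1, sub_re, ofReal_re, a0]
  have e2 : (2 * Psum (fun v => (κ v : ℂ)) T y).re = 2 * (Psum (fun v => (κ v : ℂ)) T y).re := by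
    simp
  rw [e2]
  linarith

theorem mult_ineq {K ε : ℝ} (hK : 1 / 6 ≤ K) (hε : 0 ≤ ε) (hε1 : ε ≤ 1) {m : ℕ} (hm : 2 ≤ m) :
    0 ≤ 1 + K * ((m : ℝ) - 2) - ε ∧
      2 * (1 - ε) ^ 2 * ((m : ℝ) - 1) ≤ m * (1 + K * ((m : ℝ) - 2) - ε) ^ 2 := by
  obtain ⟨j, rfl⟩ := Nat.exists_eq_add_of_le hm
  have hj : (0 : ℝ) ≤ j := by positivity
  have e : ((2 + j : ℕ) : ℝ) - 2 = j := by push_cast; ring
  have e' : ((2 + j : ℕ) : ℝ) = j + 2 := by push_cast; ring
  rw [e, e']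
  have h1 : (1 - ε) * (1 + j / 6) ≤ 1 + K * j - ε := by
    nlinarith [mul_le_mul_of_nonneg_right hK hj, mul_nonneg hε hj]
  have h0 : 0 ≤ (1 - ε) * (1 + j / 6) := mul_nonneg (by linarith) (by positivity)
  refine ⟨h0.trans h1, ?_⟩
  have h2 : 2 * ((j : ℝ) + 1) ≤ (j + 2) * (1 + j / 6) ^ 2 := by
    rcases Nat.eq_zero_or_pos j with h | h
    · subst h; norm_num
    · have : (1 : ℝ) ≤ j := by exact_mod_cast h
      have h3 : 0 ≤ (j : ℝ) * (j ^ 2 + 14 * j - 12) := mul_nonneg hj (by nlinarith)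
      nlinarith
  have h3 := pow_le_pow_left₀ h0 h1 2
  have h4 := mul_le_mul_of_nonneg_left h3 (show (0 : ℝ) ≤ j + 2 by positivity)
  have h5 := mul_le_mul_of_nonneg_left h2 (sq_nonneg (1 - ε))
  nlinarith

end Pool.Agent.P.MP_7eacff_nt.SZ
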