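import Pool.Agent.P.MP_7eacff_nt.SZ.Wf
import Pool.Agent.P.MP_7eacff_nt.SZ.Frac
import Pool.Agent.P.MP_7eacff_nt.SZ.LocLow

/-!
The prime part sees all nearby zeros.
-/

open Complex Filter Topology MeasureTheory Set
open scoped Real ContDiff

namespace Pool.Agent.P.MP_7eacff_nt.SZ

open Pool.Agent.Lib.LargeSieve (primSet mem_primSet)

namespace LocLow2Aux

lemma card_le {μ : Measure ℝ} {γ : ℕ → ℝ} (hγ : Enum μ γ) {A : Set ℝ} (hA : MeasurableSet A)
    (F : Finset ℕ) (hF : ∀ n ∈ F, γ n ∈ A) : (F.card : ENNReal) ≤ μ A := by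
  refine le_trans ?_ (measure_mono (inter_subset_left (t := Ioi 0)))
  rw [hγ.meas _ inter_subset_right (hA.inter measurableSet_Ioi)]
  have h : (F : Set ℕ).encard ≤ (γ ⁻¹' (A ∩ Ioi 0)).encard :=
    encard_le_encard fun n hn => ⟨hF n hn, hγ.pos n⟩
  rw [encard_coe_eq_coe_finsetCard] at h
  exact_mod_cast ENat.toENNReal_le.2 h

lemma zm_zero {y : ℝ} (h : riemannZeta (1 / 2 + y * I) ≠ 0) : zmeas {y} = 0 := by
  rw [zmeas, Measure.sum_apply _ (measurableSet_singleton y), ENNReal.tsum_eq_zero]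
  intro z
  have : (z : ℝ) ∉ ({y} : Set ℝ) := fun hz => h (by rw [← mem_singleton_iff.1 hz]; exact z.2)
  rw [Measure.smul_apply, Measure.dirac_apply' _ (measurableSet_singleton y),
    indicator_of_notMem this, smul_zero]

lemma zm_eq (y : Ord) : zmeas {(y : ℝ)} = mult y := by
  rw [zmeas, Measure.sum_apply _ (measurableSet_singleton _), tsum_eq_single y]
  · simp
  · intro z hz
    have : (z : ℝ) ∉ ({(y : ℝ)} : Set ℝ) := fun h => hz (Subtype.ext h)
    rw [Measure.smul_apply, Measure.dirac_apply' _ (measurableSet_singleton _),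
      indicator_of_notMem this, smul_zero]

end LocLow2Aux

theorem enum_zero {γ : ℕ → ℝ} (hγ : Enum zmeas γ) (n : ℕ) :
    riemannZeta (1 / 2 + γ n * I) = 0 := by
  by_contra h
  have := LocLow2Aux.card_le hγ (measurableSet_singleton (γ n)) {n} (by simp)
  rw [LocLow2Aux.zm_zero h] at this
  simp at this

theorem enum_mult {γ : ℕ → ℝ} (hγ : Enum zmeas γ) {n : ℕ} (h : γ (n + 1) = γ n) :
    2 ≤ mult (γ n) := by
  have := LocLow2Aux.card_le hγ (measurableSet_singleton (γ n)) {n, n + 1} (by simp [h])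
  rw [LocLow2Aux.zm_eq ⟨γ n, enum_zero hγ n⟩, Finset.card_pair (by omega)] at this
  exact_mod_cast this

theorem enum_sum_le_integral {μ : Measure ℝ} {γ : ℕ → ℝ} (hγ : Enum μ γ) {g : ℝ → ℝ}
    (h0 : ∀ y, 0 ≤ g y) (hi : Integrable g μ) (J : Finset ℕ) :
    ∑ j ∈ J, g (γ j) ≤ ∫ y, g y ∂μ := by
  classical
  have hle : ∑ j ∈ J, Measure.dirac (γ j) ≤ μ := by
    refine Measure.le_iff.2 fun A hA => ?_
    refine le_trans (le_of_eq ?_) (LocLow2Aux.card_le hγ hA (J.filter fun j => γ j ∈ A)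
      fun n hn => (Finset.mem_filter.1 hn).2)
    rw [Measure.finsetSum_apply, Finset.card_filter]
    push_cast
    refine Finset.sum_congr rfl fun j _ => ?_
    rw [Measure.dirac_apply' _ hA, indicator_apply, Pi.one_apply]
  refine le_trans (le_of_eq ?_) (integral_mono_measure hle (ae_of_all _ h0) hi)
  rw [integral_finsetSum_measure fun j _ => integrable_dirac (by simp)]
  simp only [integral_dirac]

theorem sum_le_tsum_half {γ : ℕ → ℝ} (hγ : Enum zmeas γ) {g : ℝ → ℝ} (h0 : ∀ y, 0 ≤ g y)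
    (he : ∀ y, g (-y) = g y) (hs : Summable fun y : Ord => (mult y : ℝ) * g y) (J : Finset ℕ) :
    2 * ∑ j ∈ J, g (γ j) ≤ ∑' y : Ord, (mult y : ℝ) * g y := by
  classical
  set Y := J.image γ with hY
  have hf : ∀ y ∈ Y, riemannZeta (1 / 2 + y * I) = 0 ∧ 0 < y ∧
      ((J.filter fun n => γ n = y).card : ℝ) ≤ mult y := by
    intro y hy
    obtain ⟨n, -, rfl⟩ := Finset.mem_image.1 hy
    refine ⟨enum_zero hγ n, hγ.pos n, ?_⟩
    have := LocLow2Aux.card_le hγ (measurableSet_singleton (γ n)) (J.filter fun m => γ m = γ n)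
      fun m hm => (Finset.mem_filter.1 hm).2
    rw [LocLow2Aux.zm_eq ⟨γ n, enum_zero hγ n⟩] at this
    exact_mod_cast this
  have h1 : ∑ j ∈ J, g (γ j) ≤ ∑ y ∈ Y, (mult y : ℝ) * g y := by
    rw [Finset.sum_comp g γ]
    refine Finset.sum_le_sum fun y hy => ?_
    rw [nsmul_eq_mul]
    exact mul_le_mul_of_nonneg_right (hf y hy).2.2 (h0 y)
  have hd : Disjoint Y (Y.image fun y => -y) := by
    refine Finset.disjoint_left.2 fun y hy hy' => ?_
    obtain ⟨z, hz, rfl⟩ := Finset.mem_image.1 hy'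
    linarith only [(hf _ hy).2.1, (hf _ hz).2.1]
  have h2 : ∑ y ∈ Y ∪ Y.image (fun y => -y), (mult y : ℝ) * g y =
      2 * ∑ y ∈ Y, (mult y : ℝ) * g y := by
    rw [Finset.sum_union hd, Finset.sum_image fun a _ b _ hab => neg_injective hab]
    simp only [mult_neg, he]
    ring
  have h3 : ∀ y ∈ Y ∪ Y.image (fun y => -y), riemannZeta (1 / 2 + (y : ℝ) * I) = 0 := by
    intro y hy
    rcases Finset.mem_union.1 hy with hy | hy
    · exact (hf y hy).1
    · obtain ⟨z, hz, rfl⟩ := Finset.mem_image.1 hy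
      exact zeta_neg_eq_zero (hf z hz).1
  have h4 := Finset.sum_subtype_of_mem (fun y : ℝ => (mult y : ℝ) * g y) h3
  have h5 := hs.sum_le_tsum ((Y ∪ Y.image (fun y => -y)).subtype
    fun y : ℝ => riemannZeta (1 / 2 + y * I) = 0) fun y _ => mul_nonneg (Nat.cast_nonneg _) (h0 _)
  rw [h4, h2] at h5
  linarith only [h1, h5]

theorem re_dp_aA_ge_sum (hRH : RiemannHypothesis) {γ : ℕ → ℝ} (hγ : Enum zmeas γ) {κ : ℝ → ℝ}
    (h : Tst κ) (he : Function.Even κ) {η : ℝ} (hη : 0 < η) (hs : ∀ v, 1 - η < v → κ v = 0)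
    (hK : ∀ u, 0 ≤ WR κ u) {ε : ℝ} (hε : 0 < ε) :
    ∀ᶠ T : ℝ in atTop, ∀ y : ℝ, T ≤ y → y ≤ 2 * T → ∀ J : Finset ℕ,
      1 - 4 * ip κ - ε + ∑ j ∈ J, WR κ (Real.log T * (γ j - y)) ≤
        (dp (aA κ T) ⌊T⌋₊ (1 / 2 + y * I)).re := by
  have hμ := zdata hRH
  set θ := 1 - min η (1 / 2) with hθ
  have hθ0 : 0 < θ := by have := min_le_right η (1 / 2); linarith
  have hθ1 : θ < 1 := by have := lt_min hη one_half_pos; linarith
  have hθη : 1 - η ≤ θ := by have := min_le_left η (1 / 2); linarith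
  have hcd : ContDiff ℝ 2 fun v => (κ v : ℂ) :=
    ofRealCLM.contDiff.comp (h.1.of_le (WithTop.coe_le_coe.2 le_top))
  obtain ⟨B, -, hB⟩ := exists_bump (R := θ) hcd fun u hu => by
    rcases le_total 0 u with h0 | h0
    · rw [abs_of_nonneg h0] at hu
      rw [hs u (by linarith), ofReal_zero]
    · rw [abs_of_nonpos h0] at hu
      rw [← he u, hs (-u) (by linarith), ofReal_zero]
  have hb := norm_iF_pw_le hB hB hθ0 rfl
  have hef := hμ.local_ef hB hB rfl hθ0 hθ1 hε
  rw [pw_self] at hb hef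
  have hc : Continuous (iF fun v => (κ v : ℂ)) := continuous_iF h.integrable.ofReal
  filter_upwards [hef, eventually_ge_atTop 1,
    Real.tendsto_log_atTop.eventually_ge_atTop (2 * π)] with T hT hT1 hL y hy1 hy2 J
  have h1 := hT y ⟨by linarith, by linarith⟩
  have h2 := (re_le_norm _).trans h1
  rw [add_re, add_re, sub_re, LocLowAux.psum_conj he, ofReal_re] at h2
  have hint := hμ.integrable_stat hc.measurable hb hL y
  have e1 : ∀ x : ℝ, 2 * π * (Real.log T / (2 * π) * x) = Real.log T * x := fun x => by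
    field_simp
  have hst : ∑ j ∈ J, WR κ (Real.log T * (γ j - y)) ≤
      (stat zmeas (iF fun v => (κ v : ℂ)) T y).re := by
    simp only [iF_eq_WR h he, e1] at hint
    have hint' := hint.re
    simp only [RCLike.re_to_complex, ofReal_re] at hint'
    unfold stat
    simp only [iF_eq_WR h he, e1]
    rw [integral_complex_ofReal, ofReal_re]
    exact enum_sum_le_integral hγ (fun x => hK _) hint' J
  rw [LocLowAux.dp_eq κ hT1, sub_re, ofReal_re, a0]
  have e2 : (2 * Psum (fun v => (κ v : ℂ)) T y).re = 2 * (Psum (fun v => (κ v : ℂ)) T y).re := by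
    simp
  rw [e2]
  linarith

end Pool.Agent.P.MP_7eacff_nt.SZ
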