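import Pool.Agent.P.MP_7eacff_nt.SZ.Wf

/-!
Size and approximation of the transform.
-/

open Complex Filter Topology MeasureTheory Set
open scoped Real ContDiff

namespace Pool.Agent.P.MP_7eacff_nt.SZ

open Pool.Agent.Lib.LargeSieve (primSet mem_primSet)

namespace JBoundAux

theorem intg {ψ g : ℝ → ℝ} (h : Tst ψ) (hg : Continuous g) : Integrable fun v => g v * ψ v :=
  (hg.mul h.continuous).integrable_of_hasCompactSupport h.cs.mul_left

/-- The oscillatory integral with exponential phase. -/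
noncomputable def K (τ y θ c : ℝ) (ψ : ℝ → ℝ) : ℝ :=
  ∫ v, Real.cos (θ + y * Real.exp (-(τ * v))) * Real.exp (c * (τ * v)) * ψ v

/-- The oscillatory integral with linear phase. -/
noncomputable def K0 (ξ θ : ℝ) (ψ : ℝ → ℝ) : ℝ := ∫ v, Real.cos (θ - ξ * v) * ψ v

theorem parts {ψ g g' : ℝ → ℝ} (h : Tst ψ) (hg : ∀ v, HasDerivAt g (g' v) v)
    (hg' : Continuous g') : -∫ v, g' v * ψ v = ∫ v, g v * deriv ψ v := by
  have hc : Continuous g := continuous_iff_continuousAt.2 fun v => (hg v).continuousAt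
  have h1 := integral_eq_zero_of_hasDerivAt_of_integrable
    (fun v => (hg v).mul (h.cd.differentiable (by simp) v).hasDerivAt)
    ((intg h hg').add (intg h.der hc)) (intg h hc)
  rw [integral_add (intg h hg') (intg h.der hc)] at h1
  linarith

theorem K0_parts {ψ : ℝ → ℝ} (h : Tst ψ) (ξ θ : ℝ) :
    ξ * K0 ξ θ ψ = K0 ξ (θ - π / 2) (deriv ψ) := by
  rw [K0, K0, ← parts h (g' := fun v => -(ξ * Real.cos (θ - ξ * v))) (fun v => ?_) (by fun_prop),
    ← integral_const_mul, ← integral_neg]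
  · exact integral_congr_ae (Eventually.of_forall fun v => by ring)
  · have h1 := (((hasDerivAt_id v).const_mul ξ).const_sub (θ - π / 2)).cos
    refine h1.congr_deriv ?_
    rw [id, sub_right_comm, Real.sin_sub_pi_div_two]
    ring

theorem K_parts {ψ : ℝ → ℝ} (h : Tst ψ) (τ y θ c : ℝ) : y * τ * K τ y θ c ψ =
    (c + 1) * τ * K τ y (θ - π / 2) (c + 1) ψ + K τ y (θ - π / 2) (c + 1) (deriv ψ) := by
  rw [K, K, K, ← parts h (g' := fun v =>
    (c + 1) * τ * (Real.cos (θ - π / 2 + y * Real.exp (-(τ * v))) * Real.exp ((c + 1) * (τ * v))) -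
      y * τ * (Real.cos (θ + y * Real.exp (-(τ * v))) * Real.exp (c * (τ * v)))) (fun v => ?_)
    (by fun_prop), ← integral_const_mul, ← integral_const_mul, ← sub_eq_add_neg,
    ← integral_sub ((intg h (by fun_prop)).const_mul _) (intg h (by fun_prop))]
  · exact integral_congr_ae (Eventually.of_forall fun v => by ring)
  · have h0 := (hasDerivAt_id v).const_mul τ
    have h1 := ((h0.neg.exp.const_mul y).const_add (θ - π / 2)).cos.mul (h0.const_mul (c + 1)).exp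
    refine h1.congr_deriv ?_
    have h2 : Real.exp (c * (τ * v)) = Real.exp (-(τ * v)) * Real.exp ((c + 1) * (τ * v)) := by
      rw [← Real.exp_add]
      congr 1
      ring
    simp only [id, Pi.neg_apply]
    rw [h2, sub_add_eq_add_sub θ, Real.sin_sub_pi_div_two]
    ring

theorem ev (M : ℝ) : ∀ᶠ τ in 𝓝[>] (0 : ℝ), 0 < τ ∧ τ ≤ 1 ∧ τ * M ≤ 1 := by
  have h1 : Tendsto (fun τ : ℝ => τ * M) (𝓝 0) (𝓝 (0 * M)) := tendsto_id.mul_const M
  filter_upwards [self_mem_nhdsWithin, nhdsWithin_le_nhds (eventually_le_nhds one_pos),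
    nhdsWithin_le_nhds (h1.eventually (eventually_le_nhds (by simp : 0 * M < 1)))] with τ a b c
  exact ⟨a, b, c⟩

theorem abs_le_of {ψ g : ℝ → ℝ} (h : Tst ψ) {R B : ℝ} (hR : ∀ v, R < |v| → ψ v = 0)
    (hg : ∀ v, |v| ≤ R → |g v| ≤ B) : |∫ v, g v * ψ v| ≤ B * ∫ v, |ψ v| := by
  rw [← integral_const_mul, ← Real.norm_eq_abs]
  refine norm_integral_le_of_norm_le (h.integrable.abs.const_mul B)
    (Eventually.of_forall fun v => ?_)
  rcases le_or_gt |v| R with h1 | h1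
  · rw [Real.norm_eq_abs, abs_mul]
    exact mul_le_mul_of_nonneg_right (hg v h1) (abs_nonneg _)
  · simp [hR v h1]

theorem abs_small {τ c v R : ℝ} (hτ : 0 < τ) (hv : |v| ≤ R) :
    |c * (τ * v)| ≤ τ * (|c| * R) := by
  rw [abs_mul, abs_mul, abs_of_pos hτ, mul_left_comm]
  gcongr

theorem K_le (n : ℕ) : ∀ {ψ : ℝ → ℝ}, Tst ψ → ∀ c : ℝ, ∃ C : ℝ, 0 ≤ C ∧ ∀ᶠ τ in 𝓝[>] (0 : ℝ),
    ∀ y θ : ℝ, 0 ≤ y → (y * τ) ^ n * |K τ y θ c ψ| ≤ C := by
  induction n with
  | zero =>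
    intro ψ h c
    obtain ⟨R, -, hR⟩ := h.radius
    refine ⟨3 * ∫ v, |ψ v|, mul_nonneg (by norm_num) (integral_nonneg fun v => abs_nonneg _), ?_⟩
    filter_upwards [ev (|c| * R)] with τ hτ y θ _
    rw [pow_zero, one_mul]
    refine abs_le_of h hR fun v hv => ?_
    have h1 := (abs_small (c := c) hτ.1 hv).trans hτ.2.2
    have h2 := (abs_le.1 (Real.abs_exp_sub_one_le h1)).2
    rw [abs_mul, abs_of_pos (Real.exp_pos _)]
    refine (mul_le_of_le_one_left (Real.exp_pos _).le (Real.abs_cos_le_one _)).trans ?_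
    linarith
  | succ n ih =>
    intro ψ h c
    obtain ⟨C₁, p1, h1⟩ := ih h (c + 1)
    obtain ⟨C₂, p2, h2⟩ := ih h.der (c + 1)
    refine ⟨|c + 1| * C₁ + C₂, by positivity, ?_⟩
    filter_upwards [h1, h2, ev 0] with τ a1 a2 hτ y θ hy
    have hξ : 0 ≤ y * τ := mul_nonneg hy hτ.1.le
    have b1 := a1 y (θ - π / 2) hy
    have b2 := a2 y (θ - π / 2) hy
    have b3 : y * τ * |K τ y θ c ψ| ≤ |c + 1| * |K τ y (θ - π / 2) (c + 1) ψ| +
        |K τ y (θ - π / 2) (c + 1) (deriv ψ)| := by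
      rw [← abs_of_nonneg hξ, ← abs_mul, K_parts h]
      refine (abs_add_le _ _).trans (add_le_add_left ?_ _)
      rw [abs_mul, abs_mul, abs_of_pos hτ.1]
      gcongr
      exact mul_le_of_le_one_right (abs_nonneg _) hτ.2.1
    have b4 := mul_le_mul_of_nonneg_left b3 (pow_nonneg hξ n)
    have b5 := mul_le_mul_of_nonneg_left b1 (abs_nonneg (c + 1))
    rw [pow_succ]
    linarith

theorem K_sub_le (n : ℕ) : ∀ {ψ : ℝ → ℝ}, Tst ψ → ∀ c : ℝ, ∃ C : ℝ, 0 ≤ C ∧
    ∀ᶠ τ in 𝓝[>] (0 : ℝ), ∀ y θ : ℝ, 0 ≤ y →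
      (y * τ) ^ n * |K τ y θ c ψ - K0 (y * τ) (θ + y) ψ| ≤ C * (τ * (1 + y * τ)) := by
  induction n with
  | zero =>
    intro ψ h c
    obtain ⟨R, hR0, hR⟩ := h.radius
    have hI : 0 ≤ ∫ v, |ψ v| := integral_nonneg fun v => abs_nonneg _
    refine ⟨(2 * (|c| * R) + R ^ 2) * ∫ v, |ψ v|, by positivity, ?_⟩
    filter_upwards [ev (|c| * R), ev R] with τ hτ hτ' y θ hy
    have t0 := hτ.1
    rw [pow_zero, one_mul, K, K0, ← integral_sub (intg h (by fun_prop)) (intg h (by fun_prop)),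
      mul_right_comm]
    simp only [← sub_mul]
    refine abs_le_of h hR fun v hv => ?_
    have h0 := abs_small (c := c) t0 hv
    have h2 := Real.abs_exp_sub_one_le (h0.trans hτ.2.2)
    have h3 : |-(τ * v)| ≤ τ * R := by simpa using abs_small (c := -1) t0 hv
    have h4 := Real.abs_exp_sub_one_sub_id_le (h3.trans hτ'.2.2)
    have h5 : (-(τ * v)) ^ 2 ≤ (τ * R) ^ 2 := by
      rw [← sq_abs]
      exact pow_le_pow_left₀ (abs_nonneg _) h3 2
    have h6 := Real.abs_cos_sub_cos_le (θ + y * Real.exp (-(τ * v))) (θ + y - y * τ * v)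
    rw [show θ + y * Real.exp (-(τ * v)) - (θ + y - y * τ * v) =
      y * (Real.exp (-(τ * v)) - 1 - -(τ * v)) by ring, abs_mul, abs_of_nonneg hy] at h6
    have h7 := h6.trans (mul_le_mul_of_nonneg_left (h4.trans h5) hy)
    have h8 : |Real.cos (θ + y * Real.exp (-(τ * v))) * (Real.exp (c * (τ * v)) - 1)| ≤
        2 * (τ * (|c| * R)) := by
      rw [abs_mul]
      refine (mul_le_of_le_one_left (abs_nonneg _) (Real.abs_cos_le_one _)).trans ?_
      linarith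
    have h9 := abs_add_le (Real.cos (θ + y * Real.exp (-(τ * v))) * (Real.exp (c * (τ * v)) - 1))
      (Real.cos (θ + y * Real.exp (-(τ * v))) - Real.cos (θ + y - y * τ * v))
    rw [mul_sub_one, sub_add_sub_cancel] at h9
    rw [mul_sub_one] at h8
    have a1 : 0 ≤ |c| * R * τ * (y * τ) := by positivity
    have a2 : 0 ≤ R ^ 2 * τ := by positivity
    nlinarith
  | succ n ih =>
    intro ψ h c
    obtain ⟨C₁, p1, h1⟩ := K_le n h (c + 1)
    obtain ⟨C₂, p2, h2⟩ := ih h.der (c + 1)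
    refine ⟨|c + 1| * C₁ + C₂, by positivity, ?_⟩
    filter_upwards [h1, h2, ev 0] with τ a1 a2 hτ y θ hy
    have t0 := hτ.1
    have hξ : 0 ≤ y * τ := mul_nonneg hy t0.le
    have b1 := a1 y (θ - π / 2) hy
    have b2 := a2 y (θ - π / 2) hy
    have b3 : y * τ * |K τ y θ c ψ - K0 (y * τ) (θ + y) ψ| ≤
        |c + 1| * τ * |K τ y (θ - π / 2) (c + 1) ψ| +
        |K τ y (θ - π / 2) (c + 1) (deriv ψ) - K0 (y * τ) (θ - π / 2 + y) (deriv ψ)| := by
      nth_rewrite 1 [← abs_of_nonneg hξ]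
      rw [← abs_mul, mul_sub, K_parts h, K0_parts h, add_sub_assoc, add_sub_right_comm θ]
      refine (abs_add_le _ _).trans (le_of_eq ?_)
      rw [abs_mul, abs_mul, abs_of_pos t0]
    have b4 := mul_le_mul_of_nonneg_left b3 (pow_nonneg hξ n)
    have b5 := mul_le_mul_of_nonneg_left b1 (mul_nonneg (abs_nonneg (c + 1)) t0.le)
    have b6 : 0 ≤ |c + 1| * C₁ * τ * (y * τ) := by positivity
    rw [pow_succ]
    linarith

theorem Jf_eq (φ : ℝ → ℝ) (T x : ℝ) : Jf φ T x = 2 * K T⁻¹ (2 * π * x) 0 (-1 / 2) φ := by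
  rw [Jf, K, ← integral_const_mul]
  refine integral_congr_ae (Eventually.of_forall fun v => ?_)
  simp only
  rw [zero_add, show -v / T = -(T⁻¹ * v) by ring, show -v / (2 * T) = -1 / 2 * (T⁻¹ * v) by ring]
  ring

theorem K0_eq {φ : ℝ → ℝ} (h : Tst φ) (he : Function.Even φ) (ξ θ : ℝ) :
    K0 ξ θ φ = Real.cos θ * WR φ ξ := by
  have h1 : ∫ v, Real.sin (ξ * v) * φ v = 0 := by
    have h2 := integral_neg_eq_self (fun v => Real.sin (ξ * v) * φ v) volume
    simp only [mul_neg, Real.sin_neg, he _, neg_mul, integral_neg] at h2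
    linarith
  simp only [K0, WR, Real.cos_sub, add_mul, mul_assoc]
  rw [integral_add ((intg h (by fun_prop)).const_mul _) ((intg h (by fun_prop)).const_mul _),
    integral_const_mul, integral_const_mul, h1, mul_zero, add_zero]
  simp only [mul_comm]

theorem le_xi {T x : ℝ} (hT : 0 < T) (hx : 0 < x) : x / T ≤ 2 * π * x * T⁻¹ := by
  rw [mul_assoc, ← div_eq_mul_inv]
  exact le_mul_of_one_le_left (by positivity) (by linarith [Real.pi_gt_three])

end JBoundAux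

open JBoundAux

theorem Jf_le {φ : ℝ → ℝ} (h : Tst φ) : ∃ C : ℝ, 0 ≤ C ∧ ∀ᶠ T : ℝ in atTop, ∀ x : ℝ, 0 < x →
    |Jf φ T x| ≤ C / (1 + x / T) ^ 2 := by
  obtain ⟨C₀, p0, h0⟩ := K_le 0 h (-1 / 2)
  obtain ⟨C₂, p2, h2⟩ := K_le 2 h (-1 / 2)
  refine ⟨4 * (C₀ + C₂), by positivity, ?_⟩
  filter_upwards [tendsto_inv_atTop_nhdsGT_zero.eventually h0,
    tendsto_inv_atTop_nhdsGT_zero.eventually h2, eventually_gt_atTop 0] with T a0 a2 hT x hx
  have b0 := a0 (2 * π * x) 0 (by positivity)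
  have b2 := a2 (2 * π * x) 0 (by positivity)
  have b3 : (1 + x / T) ^ 2 ≤ 2 * (1 + (2 * π * x * T⁻¹) ^ 2) := by
    have := pow_le_pow_left₀ (by positivity) (le_xi hT hx) 2
    nlinarith [sq_nonneg (1 - x / T)]
  have b4 := mul_le_mul_of_nonneg_left b3 (abs_nonneg (K T⁻¹ (2 * π * x) 0 (-1 / 2) φ))
  rw [le_div_iff₀ (by positivity), Jf_eq, abs_mul, abs_two]
  linarith

theorem Jf_approx {φ : ℝ → ℝ} (h : Tst φ) (he : Function.Even φ) :
    ∃ C : ℝ, 0 ≤ C ∧ ∀ᶠ T : ℝ in atTop, ∀ x : ℝ, 0 < x →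
      |Jf φ T x - 2 * Real.cos (2 * π * x) * WR φ (2 * π * (x / T))| ≤
        C / (T * (1 + x / T) ^ 2) := by
  obtain ⟨C₀, p0, h0⟩ := K_sub_le 0 h (-1 / 2)
  obtain ⟨C₃, p3, h3⟩ := K_sub_le 3 h (-1 / 2)
  refine ⟨8 * (C₀ + C₃), by positivity, ?_⟩
  filter_upwards [tendsto_inv_atTop_nhdsGT_zero.eventually h0,
    tendsto_inv_atTop_nhdsGT_zero.eventually h3, eventually_gt_atTop 0] with T a0 a3 hT x hx
  have b0 := a0 (2 * π * x) 0 (by positivity)
  have b3 := a3 (2 * π * x) 0 (by positivity)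
  have b1 := le_xi hT hx
  rw [K0_eq h he, zero_add] at b0 b3
  rw [Jf_eq, mul_assoc 2 (Real.cos _), ← mul_sub, abs_mul, abs_two, ← mul_div_assoc,
    div_eq_mul_inv (2 * π * x) T, ← div_div, le_div_iff₀ (by positivity),
    div_eq_mul_inv (8 * _) T]
  have hξ : 0 < 2 * π * x * T⁻¹ := by positivity
  have hu : 0 < x / T := by positivity
  generalize 2 * π * x * T⁻¹ = ξ at *
  generalize x / T = u at *
  generalize hD : |K T⁻¹ (2 * π * x) 0 (-1 / 2) φ - Real.cos (2 * π * x) * WR φ ξ| = D at *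
  have hD0 : 0 ≤ D := hD ▸ abs_nonneg _
  have b4 : (1 + ξ) ^ 3 ≤ 4 * (1 + ξ ^ 3) := by
    nlinarith [mul_nonneg (add_pos one_pos hξ).le (sq_nonneg (1 - ξ))]
  have b5 := mul_le_mul_of_nonneg_left b4 hD0
  have b6 : D * (1 + ξ) ^ 2 ≤ 4 * (C₀ + C₃) * T⁻¹ :=
    le_of_mul_le_mul_right (by linarith) (add_pos one_pos hξ)
  have b7 := mul_le_mul_of_nonneg_left
    (pow_le_pow_left₀ (add_pos one_pos hu).le (add_le_add_right b1 1) 2) hD0
  linarith

theorem Jf_sum {ι : Type*} (S : Finset ι) (c : ι → ℝ) {φ : ι → ℝ → ℝ} (h : ∀ i, Tst (φ i))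
    (T x : ℝ) : Jf (fun v => ∑ i ∈ S, c i * φ i v) T x = ∑ i ∈ S, c i * Jf (φ i) T x := by
  simp only [Jf, Finset.mul_sum, ← integral_const_mul]
  rw [← integral_finsetSum _ fun i _ => (intg (h i) (by fun_prop)).const_mul (c i)]
  simp only [mul_left_comm _ (c _)]

end Pool.Agent.P.MP_7eacff_nt.SZ
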