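import Pool.Agent.P.MP_7eacff_nt.SZ.Poly

/-!
Test functions and their windows.
-/

open Complex Filter Topology MeasureTheory Set
open scoped Real ContDiff

namespace Pool.Agent.P.MP_7eacff_nt.SZ

open Pool.Agent.Lib.LargeSieve (primSet mem_primSet)

theorem Tst.der {φ : ℝ → ℝ} (h : Tst φ) : Tst (deriv φ) :=
  ⟨(contDiff_infty_iff_deriv.1 h.cd).2, h.cs.deriv⟩

theorem Tst.add {φ ψ : ℝ → ℝ} (h : Tst φ) (h' : Tst ψ) : Tst fun v => φ v + ψ v :=
  ⟨h.cd.add h'.cd, h.cs.add h'.cs⟩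

theorem Tst.const_mul {φ : ℝ → ℝ} (h : Tst φ) (c : ℝ) : Tst fun v => c * φ v :=
  ⟨contDiff_const.mul h.cd, h.cs.mul_left (f := fun _ => c)⟩

theorem Tst.mul {φ g : ℝ → ℝ} (h : Tst φ) (hg : ContDiff ℝ ∞ g) : Tst fun v => φ v * g v :=
  ⟨h.cd.mul hg, h.cs.mul_right⟩

theorem Tst.top_one {φ : ℝ → ℝ} (h : Tst φ) : Tst (top φ) :=
  ⟨h.der.der.cd.neg, h.der.der.cs.neg⟩

theorem Tst.top_iter {φ : ℝ → ℝ} (h : Tst φ) (k : ℕ) : Tst (top^[k] φ) := by
  induction k with
  | zero => exact h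
  | succ k ih => rw [Function.iterate_succ_apply']; exact ih.top_one

namespace WfAux

theorem opT_eq (T : ℝ) (φ : ℝ → ℝ) :
    opT T φ = fun v => 1 / (4 * T ^ 2) * φ v + top φ v := by
  funext v
  rw [opT]
  ring

theorem tst_opT {φ : ℝ → ℝ} (h : Tst φ) (T : ℝ) : Tst (opT T φ) := by
  rw [opT_eq]
  exact (h.const_mul _).add h.top_one

end WfAux

theorem Tst.opT_iter {φ : ℝ → ℝ} (h : Tst φ) (T : ℝ) (k : ℕ) : Tst ((opT T)^[k] φ) := by
  induction k with
  | zero => exact h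
  | succ k ih => rw [Function.iterate_succ_apply']; exact WfAux.tst_opT ih T

theorem Tst.xmul {φ : ℝ → ℝ} (h : Tst φ) : Tst (xm φ) :=
  ⟨contDiff_id.mul h.cd, h.cs.mul_left (f := fun v => v)⟩

theorem Tst.continuous {φ : ℝ → ℝ} (h : Tst φ) : Continuous φ := h.cd.continuous

theorem Tst.integrable {φ : ℝ → ℝ} (h : Tst φ) : Integrable φ :=
  h.continuous.integrable_of_hasCompactSupport h.cs

theorem Tst.bdd {φ : ℝ → ℝ} (h : Tst φ) : ∃ B : ℝ, 0 ≤ B ∧ ∀ v, |φ v| ≤ B := by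
  obtain ⟨B, hB⟩ := h.continuous.bounded_above_of_compact_support h.cs
  exact ⟨B, (norm_nonneg _).trans (hB 0), hB⟩

theorem Tst.radius {φ : ℝ → ℝ} (h : Tst φ) : ∃ R : ℝ, 0 < R ∧ ∀ v, R < |v| → φ v = 0 := by
  obtain ⟨R, hR, hs⟩ := h.cs.isCompact.isBounded.subset_closedBall_lt 0 0
  refine ⟨R, hR, fun v hv => image_eq_zero_of_notMem_tsupport fun hm => ?_⟩
  have h1 := hs hm
  rw [mem_closedBall_zero_iff, Real.norm_eq_abs] at h1
  linarith

namespace WfAux

theorem even_top {φ : ℝ → ℝ} (he : Function.Even φ) : Function.Even (top φ) := by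
  have e0 : (fun v => φ (-v)) = φ := funext he
  have e1 : (fun v => deriv φ (-v)) = fun v => -deriv φ v := by
    funext v
    have h := deriv_comp_neg φ v
    rw [e0] at h
    rw [h, neg_neg]
  intro v
  have h := deriv_comp_neg (deriv φ) v
  rw [e1, deriv.fun_neg] at h
  simp only [top]
  linarith

theorem deriv_zero {φ : ℝ → ℝ} {R : ℝ} (h : ∀ u, R < |u| → φ u = 0) (u : ℝ)
    (hu : R < |u|) : deriv φ u = 0 := by
  have : φ =ᶠ[𝓝 u] fun _ => 0 := by
    filter_upwards [(isOpen_lt continuous_const continuous_abs).mem_nhds hu] with v hv using h v hv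
  rw [this.deriv_eq]; simp

theorem deriv_lin {φ ψ : ℝ → ℝ} (h : Tst φ) (h' : Tst ψ) (c : ℝ) :
    deriv (fun v => c * φ v + ψ v) = fun v => c * deriv φ v + deriv ψ v := by
  funext v
  have h1 : DifferentiableAt ℝ φ v := h.cd.differentiable (by simp) v
  have h2 : DifferentiableAt ℝ ψ v := h'.cd.differentiable (by simp) v
  exact ((h1.hasDerivAt.const_mul c).add h2.hasDerivAt).deriv

theorem top_lin {φ ψ : ℝ → ℝ} (h : Tst φ) (h' : Tst ψ) (c : ℝ) :
    top (fun v => c * φ v + ψ v) = fun v => c * top φ v + top ψ v := by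
  funext v
  simp only [top]
  rw [deriv_lin h h', deriv_lin h.der h'.der]
  ring

theorem top_iter_lin {φ ψ : ℝ → ℝ} (h : Tst φ) (h' : Tst ψ) (c : ℝ) (j : ℕ) :
    top^[j] (fun v => c * φ v + ψ v) = fun v => c * top^[j] φ v + top^[j] ψ v := by
  induction j with
  | zero => rfl
  | succ j ih =>
    simp only [Function.iterate_succ_apply']
    rw [ih, top_lin (h.top_iter j) (h'.top_iter j)]

end WfAux

theorem even_top_iter {φ : ℝ → ℝ} (he : Function.Even φ) (k : ℕ) : Function.Even (top^[k] φ) := by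
  induction k with
  | zero => exact he
  | succ k ih => rw [Function.iterate_succ_apply']; exact WfAux.even_top ih

theorem opT_iter_eq_zero {φ : ℝ → ℝ} {R : ℝ} (hR : ∀ v, R < |v| → φ v = 0) (T : ℝ) (k : ℕ) :
    ∀ v, R < |v| → (opT T)^[k] φ v = 0 := by
  induction k with
  | zero => exact hR
  | succ k ih =>
    intro v hv
    rw [Function.iterate_succ_apply', opT, top, ih v hv,
      WfAux.deriv_zero (WfAux.deriv_zero ih) v hv]
    simp

theorem opT_iter {φ : ℝ → ℝ} (h : Tst φ) (T : ℝ) (k : ℕ) (v : ℝ) :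
    (opT T)^[k] φ v = ∑ j ∈ Finset.range (k + 1),
      (k.choose j : ℝ) * (1 / (4 * T ^ 2)) ^ (k - j) * top^[j] φ v := by
  induction k generalizing φ with
  | zero => simp
  | succ k ih =>
    rw [Function.iterate_succ_apply, ih (WfAux.tst_opT h T), WfAux.opT_eq]
    have e := Finset.sum_choose_succ_mul
      (fun i m : ℕ => (1 / (4 * T ^ 2) : ℝ) ^ m * top^[i] φ v) k
    simp only [mul_assoc]
    rw [e, ← Finset.sum_add_distrib]
    refine Finset.sum_congr rfl fun j hj => ?_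
    have hj' : j ≤ k := Nat.lt_succ_iff.1 (Finset.mem_range.1 hj)
    rw [WfAux.top_iter_lin h h.top_one, Function.iterate_succ_apply, Nat.sub_add_comm hj',
      pow_succ _ (k - j)]
    ring

theorem tendsto_opT_iter {φ : ℝ → ℝ} (h : Tst φ) (k : ℕ) (v : ℝ) :
    Tendsto (fun T => (opT T)^[k] φ v) atTop (𝓝 (top^[k] φ v)) := by
  have h0 : Tendsto (fun T : ℝ => 1 / (4 * T ^ 2)) atTop (𝓝 0) :=
    tendsto_const_nhds.div_atTop
      ((tendsto_pow_atTop two_ne_zero).const_mul_atTop (by norm_num : (0 : ℝ) < 4))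
  have h1 : Tendsto (fun T : ℝ => ∑ j ∈ Finset.range (k + 1),
      (k.choose j : ℝ) * (1 / (4 * T ^ 2)) ^ (k - j) * top^[j] φ v) atTop
      (𝓝 (∑ j ∈ Finset.range (k + 1), (k.choose j : ℝ) * (0 : ℝ) ^ (k - j) * top^[j] φ v)) :=
    tendsto_finsetSum _ fun j _ => ((h0.pow _).const_mul _).mul_const _
  have h2 : ∑ j ∈ Finset.range (k + 1), (k.choose j : ℝ) * (0 : ℝ) ^ (k - j) * top^[j] φ v =
      top^[k] φ v := by
    rw [Finset.sum_range_succ, Finset.sum_eq_zero fun j hj => ?_]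
    · simp
    · rw [zero_pow (Nat.sub_ne_zero_of_lt (Finset.mem_range.1 hj))]
      simp
  rw [h2] at h1
  exact h1.congr fun T => (opT_iter h T k v).symm

namespace WfAux

/-- The two sided Laplace transform. -/
noncomputable def lt (φ : ℝ → ℝ) (z : ℂ) : ℂ := ∫ v : ℝ, (φ v : ℂ) * cexp (z * v)

theorem wf_eq (φ : ℝ → ℝ) (T : ℝ) (s : ℂ) : wf φ T s = lt φ ((s - 1 / 2) / T) := by
  unfold wf lt
  congr 1
  funext v
  congr 2
  ring

theorem cs_ofReal {φ : ℝ → ℝ} (h : Tst φ) : HasCompactSupport fun v => (φ v : ℂ) :=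
  h.cs.comp_left (g := fun x : ℝ => (x : ℂ)) Complex.ofReal_zero

theorem integrable_lt {φ : ℝ → ℝ} (h : Tst φ) (z : ℂ) :
    Integrable fun v : ℝ => (φ v : ℂ) * cexp (z * v) := by
  have hc := h.continuous
  exact Continuous.integrable_of_hasCompactSupport (by fun_prop) (cs_ofReal h).mul_right

theorem integrable_bound {φ : ℝ → ℝ} (h : Tst φ) (c : ℝ) :
    Integrable fun v : ℝ => |φ v| * Real.exp (c * |v|) := by
  have hc := h.continuous
  exact Continuous.integrable_of_hasCompactSupport (by fun_prop)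
    (h.cs.comp_left (g := fun x : ℝ => |x|) abs_zero).mul_right

theorem norm_le_bound (φ : ℝ → ℝ) {c : ℝ} {z : ℂ} (hz : |z.re| ≤ c) (v : ℝ) :
    ‖(φ v : ℂ) * cexp (z * v)‖ ≤ |φ v| * Real.exp (c * |v|) := by
  rw [norm_mul, Complex.norm_real, Real.norm_eq_abs, Complex.norm_exp]
  refine mul_le_mul_of_nonneg_left (Real.exp_le_exp.2 ?_) (abs_nonneg _)
  rw [Complex.re_mul_ofReal]
  refine (le_abs_self _).trans ?_
  rw [abs_mul]
  exact mul_le_mul_of_nonneg_right hz (abs_nonneg _)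

theorem lt_deriv {φ : ℝ → ℝ} (h : Tst φ) (z : ℂ) : lt (deriv φ) z = -z * lt φ z := by
  have hd : ∀ v : ℝ, HasDerivAt (fun v : ℝ => (φ v : ℂ) * cexp (z * v))
      (((deriv φ v : ℝ) : ℂ) * cexp (z * v) + z * ((φ v : ℂ) * cexp (z * v))) v := by
    intro v
    have h1 : HasDerivAt φ (deriv φ v) v := (h.cd.differentiable (by simp) v).hasDerivAt
    have h2 : HasDerivAt (fun v : ℝ => cexp (z * v)) (cexp (z * v) * (z * 1)) v :=
      (((hasDerivAt_id v).ofReal_comp).const_mul z).cexp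
    refine (h1.ofReal_comp.mul h2).congr_deriv ?_
    ring
  have h0 := integral_eq_zero_of_hasDerivAt_of_integrable hd
    ((integrable_lt h.der z).add ((integrable_lt h z).const_mul z)) (integrable_lt h z)
  rw [integral_add (integrable_lt h.der z) ((integrable_lt h z).const_mul z),
    integral_const_mul] at h0
  unfold lt
  linear_combination h0

theorem lt_top {φ : ℝ → ℝ} (h : Tst φ) (z : ℂ) : lt (top φ) z = -z ^ 2 * lt φ z := by
  have e : lt (top φ) z = -lt (deriv (deriv φ)) z := by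
    unfold lt top
    rw [← integral_neg]
    congr 1
    funext v
    push_cast
    ring
  rw [e, lt_deriv h.der, lt_deriv h]
  ring

theorem lt_lin {φ ψ : ℝ → ℝ} (h : Tst φ) (h' : Tst ψ) (c : ℝ) (z : ℂ) :
    lt (fun v => c * φ v + ψ v) z = c * lt φ z + lt ψ z := by
  unfold lt
  rw [← integral_const_mul, ← integral_add ((integrable_lt h z).const_mul _) (integrable_lt h' z)]
  congr 1
  funext v
  push_cast
  ring

theorem hasDerivAt_lt {φ : ℝ → ℝ} (h : Tst φ) (z : ℂ) : HasDerivAt (lt φ) (lt (xm φ) z) z := by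
  refine (hasDerivAt_integral_of_dominated_loc_of_deriv_le (μ := volume)
    (F := fun (w : ℂ) (v : ℝ) => (φ v : ℂ) * cexp (w * v))
    (F' := fun (w : ℂ) (v : ℝ) => ((xm φ v : ℝ) : ℂ) * cexp (w * v))
    (bound := fun v => |xm φ v| * Real.exp ((‖z‖ + 1) * |v|)) (Metric.ball_mem_nhds z one_pos)
    (Eventually.of_forall fun w => (integrable_lt h w).aestronglyMeasurable) (integrable_lt h z)
    (integrable_lt h.xmul z).aestronglyMeasurable (ae_of_all _ fun v w hw => ?_)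
    (integrable_bound h.xmul _) (ae_of_all _ fun v w _ => ?_)).2
  · refine norm_le_bound (xm φ) ((Complex.abs_re_le_norm w).trans ?_) v
    rw [Metric.mem_ball, dist_eq_norm] at hw
    linarith [norm_sub_norm_le w z]
  · refine ((((hasDerivAt_id w).mul_const (v : ℂ)).cexp).const_mul (φ v : ℂ)).congr_deriv ?_
    simp only [xm, id]
    push_cast
    ring

theorem lt_neg {φ : ℝ → ℝ} (he : Function.Even φ) (z : ℂ) : lt φ (-z) = lt φ z := by
  unfold lt
  rw [← integral_neg_eq_self]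
  congr 1
  funext v
  rw [he v]
  push_cast
  congr 2
  ring

theorem re_lt {φ : ℝ → ℝ} (h : Tst φ) (u : ℝ) : (lt φ (u * I)).re = WR φ u := by
  unfold lt WR
  rw [← Complex.reCLM_apply, ← ContinuousLinearMap.integral_comp_comm _ (integrable_lt h _)]
  congr 1
  funext v
  have e : (u : ℂ) * I * v = ((u * v : ℝ) : ℂ) * I := by push_cast; ring
  rw [Complex.reCLM_apply, Complex.re_ofReal_mul, e, Complex.exp_ofReal_mul_I_re]

theorem lt_crit {φ : ℝ → ℝ} (h : Tst φ) (he : Function.Even φ) (u : ℝ) :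
    lt φ (u * I) = WR φ u := by
  have h1 : (starRingEnd ℂ) (lt φ (u * I)) = lt φ (u * I) := by
    conv_rhs => rw [← lt_neg he]
    unfold lt
    rw [← integral_conj]
    congr 1
    funext v
    rw [map_mul, Complex.conj_ofReal, ← Complex.exp_conj]
    simp
  rw [← re_lt h, Complex.conj_eq_iff_re.1 h1]

theorem lt_decay (c : ℝ) (A : ℕ) : ∀ {φ : ℝ → ℝ}, Tst φ →
    ∃ C : ℝ, ∀ z : ℂ, |z.re| ≤ c → (1 + ‖z‖) ^ A * ‖lt φ z‖ ≤ C := by
  induction A with
  | zero =>
    intro φ h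
    refine ⟨∫ v : ℝ, |φ v| * Real.exp (c * |v|), fun z hz => ?_⟩
    rw [pow_zero, one_mul]
    exact norm_integral_le_of_norm_le (integrable_bound h c)
      (ae_of_all _ fun v => norm_le_bound φ hz v)
  | succ A ih =>
    intro φ h
    obtain ⟨C₁, h₁⟩ := ih h
    obtain ⟨C₂, h₂⟩ := ih h.der
    refine ⟨C₁ + C₂, fun z hz => ?_⟩
    have a1 := h₁ z hz
    have a2 := h₂ z hz
    rw [lt_deriv h, norm_mul, norm_neg] at a2
    rw [pow_succ]
    linarith

end WfAux

theorem differentiable_wf {φ : ℝ → ℝ} (h : Tst φ) (T : ℝ) : Differentiable ℂ (wf φ T) := by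
  have e : wf φ T = fun s => WfAux.lt φ ((s - 1 / 2) / T) := funext (WfAux.wf_eq φ T)
  rw [e]
  exact Differentiable.comp (g := WfAux.lt φ) (fun z => (WfAux.hasDerivAt_lt h z).differentiableAt)
    (by fun_prop)

theorem deriv_wf {φ : ℝ → ℝ} (h : Tst φ) (T : ℝ) (s : ℂ) :
    deriv (wf φ T) s = wf (xm φ) T s / T := by
  have e : wf φ T = fun s => WfAux.lt φ ((s - 1 / 2) / T) := funext (WfAux.wf_eq φ T)
  have h1 : HasDerivAt (fun s : ℂ => (s - 1 / 2) / T) (1 / T) s :=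
    ((hasDerivAt_id s).sub_const (1 / 2)).div_const _
  rw [e, WfAux.wf_eq]
  refine ((WfAux.hasDerivAt_lt h ((s - 1 / 2) / T)).comp s h1).deriv.trans ?_
  ring

theorem wf_one_sub {φ : ℝ → ℝ} (he : Function.Even φ) (T : ℝ) (s : ℂ) :
    wf φ T (1 - s) = wf φ T s := by
  rw [WfAux.wf_eq, WfAux.wf_eq, ← WfAux.lt_neg he]
  congr 1
  ring

theorem wf_crit {φ : ℝ → ℝ} (h : Tst φ) (he : Function.Even φ) (T t : ℝ) :
    wf φ T (1 / 2 + t * I) = WR φ (t / T) := by
  rw [WfAux.wf_eq, ← WfAux.lt_crit h he]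
  congr 1
  push_cast
  ring

theorem wf_top {φ : ℝ → ℝ} (h : Tst φ) (T : ℝ) (s : ℂ) :
    wf (top φ) T s = -((s - 1 / 2) / T) ^ 2 * wf φ T s := by
  rw [WfAux.wf_eq, WfAux.wf_eq, WfAux.lt_top h]

theorem wf_opT_iter {φ : ℝ → ℝ} (h : Tst φ) {T : ℝ} (hT : T ≠ 0) (k : ℕ) (s : ℂ) :
    wf ((opT T)^[k] φ) T s = (s * (1 - s) / T ^ 2) ^ k * wf φ T s := by
  induction k with
  | zero => simp
  | succ k ih =>
    have hk := h.opT_iter T k
    have hT' : (T : ℂ) ≠ 0 := Complex.ofReal_ne_zero.2 hT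
    rw [Function.iterate_succ_apply', WfAux.opT_eq, WfAux.wf_eq, WfAux.lt_lin hk hk.top_one,
      WfAux.lt_top hk, ← WfAux.wf_eq, ih, pow_succ _ k]
    push_cast
    field_simp
    ring

theorem dec_wf {φ : ℝ → ℝ} (h : Tst φ) {T : ℝ} (hT : 0 < T) (a b : ℝ) (A : ℕ) :
    Dec (wf φ T) a b A := by
  obtain ⟨C, hC⟩ := WfAux.lt_decay ((|a| + |b| + 1) / T) A h
  refine ⟨(1 + T) ^ A * C, fun s h1 h2 => ?_⟩
  have e1 : ((s - 1 / 2) / (T : ℂ)).re = (s.re - 1 / 2) / T := by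
    rw [Complex.div_ofReal_re]
    simp
  have e2 : ((s - 1 / 2) / (T : ℂ)).im = s.im / T := by
    rw [Complex.div_ofReal_im]
    simp
  have a1 : |((s - 1 / 2) / (T : ℂ)).re| ≤ (|a| + |b| + 1) / T := by
    rw [e1, abs_div, abs_of_pos hT]
    refine div_le_div_of_nonneg_right (abs_le.2 ⟨?_, ?_⟩) hT.le
    · linarith [neg_abs_le a, abs_nonneg b]
    · linarith [le_abs_self b, abs_nonneg a]
  have a2 := hC _ a1
  have a3 : |s.im| ≤ T * ‖(s - 1 / 2) / (T : ℂ)‖ := by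
    have a4 := Complex.abs_im_le_norm ((s - 1 / 2) / (T : ℂ))
    rwa [e2, abs_div, abs_of_pos hT, div_le_iff₀' hT] at a4
  have a5 : 1 + |s.im| ≤ (1 + T) * (1 + ‖(s - 1 / 2) / (T : ℂ)‖) := by
    nlinarith [norm_nonneg ((s - 1 / 2) / (T : ℂ))]
  have a6 := pow_le_pow_left₀ (by positivity) a5 A
  rw [WfAux.wf_eq, le_div_iff₀ (by positivity)]
  calc _ ≤ ‖WfAux.lt φ ((s - 1 / 2) / T)‖ * ((1 + T) * (1 + ‖(s - 1 / 2) / (T : ℂ)‖)) ^ A :=
        mul_le_mul_of_nonneg_left a6 (norm_nonneg _)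
    _ = (1 + T) ^ A * ((1 + ‖(s - 1 / 2) / (T : ℂ)‖) ^ A * ‖WfAux.lt φ ((s - 1 / 2) / T)‖) := by
        rw [mul_pow]; ring
    _ ≤ _ := mul_le_mul_of_nonneg_left a2 (by positivity)

theorem WR_neg (φ : ℝ → ℝ) (u : ℝ) : WR φ (-u) = WR φ u := by
  simp [WR]

theorem WR_top_iter {φ : ℝ → ℝ} (h : Tst φ) (k : ℕ) (u : ℝ) :
    WR (top^[k] φ) u = u ^ (2 * k) * WR φ u := by
  induction k with
  | zero => simp
  | succ k ih =>
    have hk := h.top_iter k
    have e : -((u : ℂ) * I) ^ 2 = ((u ^ 2 : ℝ) : ℂ) := by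
      rw [mul_pow, Complex.I_sq]; push_cast; ring
    rw [Function.iterate_succ_apply', ← WfAux.re_lt hk.top_one, WfAux.lt_top hk, e,
      Complex.re_ofReal_mul, WfAux.re_lt hk, ih]
    ring

theorem iF_eq_WR {φ : ℝ → ℝ} (h : Tst φ) (he : Function.Even φ) (y : ℝ) :
    iF (fun v => (φ v : ℂ)) y = WR φ (2 * π * y) := by
  rw [← WfAux.lt_crit h he]
  unfold iF WfAux.lt ee
  congr 1
  funext v
  congr 2
  push_cast
  ring

theorem continuous_WR {φ : ℝ → ℝ} (h : Tst φ) : Continuous (WR φ) := by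
  have e : WR φ = fun u : ℝ => (WfAux.lt φ (u * I)).re := funext fun u => (WfAux.re_lt h u).symm
  have hc : Continuous (WfAux.lt φ) :=
    continuous_iff_continuousAt.2 fun z => (WfAux.hasDerivAt_lt h z).continuousAt
  rw [e]
  fun_prop

theorem integrable_WR {φ : ℝ → ℝ} (h : Tst φ) : Integrable (WR φ) := by
  obtain ⟨C, hC⟩ := WfAux.lt_decay 0 2 h
  refine (integrable_inv_one_add_sq.const_mul C).mono' (continuous_WR h).aestronglyMeasurable
    (ae_of_all _ fun u => ?_)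
  have a1 := hC (u * I) (by simp)
  have a2 : ‖(u : ℂ) * I‖ = |u| := by simp
  have a3 : ‖WR φ u‖ ≤ ‖WfAux.lt φ (u * I)‖ := by
    rw [← WfAux.re_lt h]
    exact Complex.abs_re_le_norm _
  rw [a2] at a1
  rw [← div_eq_mul_inv, le_div_iff₀' (by positivity)]
  refine le_trans (mul_le_mul ?_ a3 (norm_nonneg _) (by positivity)) a1
  nlinarith [abs_nonneg u, sq_abs u]

theorem integral_WR {φ : ℝ → ℝ} (h : Tst φ) (he : Function.Even φ) :
    ∫ u, WR φ u = 2 * π * φ 0 := by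
  have hc := h.continuous
  have hp : (2 * π : ℝ) ≠ 0 := by positivity
  have e : iF (fun v => (φ v : ℂ)) = fun y => ((WR φ (2 * π * y) : ℝ) : ℂ) :=
    funext (iF_eq_WR h he)
  have h1 := iF_iF (φ := fun v => (φ v : ℂ)) (by fun_prop) h.integrable.ofReal
    (by rw [e]; exact ((integrable_WR h).comp_mul_left' hp).ofReal) 0
  rw [e, iF] at h1
  simp only [neg_zero, mul_zero, ee_zero, mul_one] at h1
  rw [integral_complex_ofReal, Measure.integral_comp_mul_left (WR φ) (2 * π)] at h1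
  have h2 : |(2 * π)⁻¹| • ∫ u, WR φ u = φ 0 := by exact_mod_cast h1
  rw [← h2, abs_of_pos (by positivity), smul_eq_mul, ← mul_assoc, mul_inv_cancel₀ hp, one_mul]

theorem integral_eq_two_ip {φ : ℝ → ℝ} (h : Tst φ) (he : Function.Even φ) :
    ∫ v, φ v = 2 * ip φ := by
  have _ := h
  rw [ip, ← integral_comp_abs]
  congr 1
  funext v
  rcases abs_choice v with e | e
  · rw [e]
  · rw [e, he v]

end Pool.Agent.P.MP_7eacff_nt.SZ
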