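import Pool.Agent.P.MP_7eacff_nt.SZ.VSch
import Pool.Agent.P.MP_7eacff_nt.SZ.Wf

/-!
The weights coming from windows.
-/

open Complex Filter Topology MeasureTheory Set
open scoped Real ContDiff

namespace Pool.Agent.P.MP_7eacff_nt.SZ

open Pool.Agent.Lib.LargeSieve (primSet mem_primSet)

theorem exists_schwartz_WR {φ : ℝ → ℝ} (h : Tst φ) (he : Function.Even φ) :
    ∃ G : SchwartzMap ℝ ℂ, ∀ x : ℝ, G x = WR φ (2 * π * x) := by
  have h1 : HasCompactSupport fun v => (φ v : ℂ) := h.cs.comp_left (g := Complex.ofReal) rfl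
  have h2 : ContDiff ℝ ∞ fun v => (φ v : ℂ) := Complex.ofRealCLM.contDiff.comp h.cd
  refine ⟨FourierTransform.fourier (h1.toSchwartzMap h2), fun x => ?_⟩
  rw [SchwartzMap.fourier_coe]
  refine (fourier_eq_iF (fun v => (φ v : ℂ)) x).trans ?_
  rw [iF_eq_WR h he, mul_neg, WR_neg]

namespace VWRAux

theorem exists_sq {φ : ℝ → ℝ} (h : Tst φ) (he : Function.Even φ) {k : ℕ} (hk : 1 ≤ k) :
    ∃ G : SchwartzMap ℝ ℂ, ∀ x : ℝ, (WR (top^[k] φ) (2 * π * x) : ℂ) = (x : ℂ) ^ 2 * G x := by
  obtain ⟨j, rfl⟩ := Nat.exists_eq_add_of_le' hk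
  obtain ⟨G, hG⟩ := exists_schwartz_WR (h.top_iter j) (even_top_iter he j)
  refine ⟨((2 * π : ℂ) ^ 2) • G, fun x => ?_⟩
  rw [SchwartzMap.smul_apply, hG, WR_top_iter h, WR_top_iter h, smul_eq_mul]
  push_cast
  ring

theorem half {ψ : ℝ → ℝ} (h : Tst ψ) (he : Function.Even ψ) :
    ∫ x in Ioi (0 : ℝ), WR ψ (2 * π * x) = ψ 0 / 2 := by
  have h1 := integral_comp_abs (f := fun x => WR ψ (2 * π * x))
  have h2 : ∀ x : ℝ, WR ψ (2 * π * |x|) = WR ψ (2 * π * x) := fun x => by
    rcases abs_choice x with e | e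
    · rw [e]
    · rw [e, mul_neg, WR_neg]
  have hp : 0 < 2 * π := by positivity
  simp only [h2] at h1
  rw [Measure.integral_comp_mul_left (WR ψ), integral_WR h he, abs_of_pos (inv_pos.2 hp),
    smul_eq_mul, inv_mul_cancel_left₀ hp.ne'] at h1
  linarith

end VWRAux

theorem vcl_WR {φ : ℝ → ℝ} (h : Tst φ) (he : Function.Even φ) {k : ℕ} (hk : 1 ≤ k) :
    ∃ M, Vcl (fun x => (WR (top^[k] φ) (2 * π * x) : ℝ)) M ∧ M 1 = (top^[k] φ 0 : ℝ) / 2 := by
  obtain ⟨G, hG⟩ := VWRAux.exists_sq h he hk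
  have e : (fun x : ℝ => (Real.log x : ℂ) ^ 0 * (x : ℂ) ^ 2 * G x) =
      fun x => ((WR (top^[k] φ) (2 * π * x) : ℝ) : ℂ) := funext fun x => by
    rw [hG, pow_zero, one_mul]
  have := vcl_schwartz G 0
  rw [e] at this
  refine ⟨_, this, ?_⟩
  simp only [mellin, sub_self, Complex.cpow_zero, one_smul]
  rw [integral_complex_ofReal, VWRAux.half (h.top_iter k) (even_top_iter he k)]
  push_cast
  rfl

theorem vcl_WR_log {φ : ℝ → ℝ} (h : Tst φ) (he : Function.Even φ) {k : ℕ} (hk : 1 ≤ k) :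
    ∃ M, Vcl (fun x => ((Real.log x * WR (top^[k] φ) (2 * π * x) : ℝ) : ℂ)) M := by
  obtain ⟨G, hG⟩ := VWRAux.exists_sq h he hk
  have e : (fun x : ℝ => (Real.log x : ℂ) ^ 1 * (x : ℂ) ^ 2 * G x) =
      fun x => ((Real.log x * WR (top^[k] φ) (2 * π * x) : ℝ) : ℂ) := funext fun x => by
    rw [Complex.ofReal_mul, hG, pow_one, mul_assoc]
  have := vcl_schwartz G 1
  rw [e] at this
  exact ⟨_, this⟩

theorem Tst.auto {U : ℝ → ℝ} (h : Tst U) : Tst (ac U) := by
  refine ⟨?_, ?_⟩
  · have h1 : HasCompactSupport fun v => U (-v) := h.cs.comp_homeomorph (Homeomorph.neg ℝ)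
    have h2 := (h1.contDiff_convolution_right (n := ⊤) (ContinuousLinearMap.mul ℝ ℝ) (μ := volume)
      h.integrable.locallyIntegrable (h.cd.comp contDiff_neg)).comp contDiff_neg
    convert h2 using 1
    funext v
    simp only [ac, Function.comp, convolution_mul, neg_sub, sub_neg_eq_add]
  · obtain ⟨R, hR, h0⟩ := h.radius
    refine HasCompactSupport.intro (isCompact_Icc (a := -(2 * R)) (b := 2 * R)) fun v hv => ?_
    rw [mem_Icc, ← abs_le, not_le] at hv
    have : ∀ x, U x * U (x + v) = 0 := fun x => by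
      by_cases hx : R < |x|
      · rw [h0 x hx, zero_mul]
      · have h1 := abs_sub (x + v) x
        rw [add_sub_cancel_left] at h1
        rw [h0 (x + v) (by linarith [not_lt.1 hx]), mul_zero]
    simp [ac, this]

theorem even_ac (U : ℝ → ℝ) : Function.Even (ac U) := fun v => by
  unfold ac
  rw [← integral_add_right_eq_self _ v]
  simp only [add_neg_cancel_right, mul_comm]

theorem WR_ac {U : ℝ → ℝ} (h : Tst U) (u : ℝ) :
    WR (ac U) u = WR U u ^ 2 + (∫ v, U v * Real.sin (u * v)) ^ 2 := by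
  have hi := h.integrable
  have h1 : Integrable (fun z : ℝ × ℝ => U z.1 * U (z.1 + z.2)) (volume.prod volume) :=
    (measurePreserving_prod_add volume volume).integrable_comp_of_integrable (hi.mul_prod hi)
  have h2 : Integrable (fun z : ℝ × ℝ => U z.1 * U (z.1 + z.2) * Real.cos (u * z.2))
      (volume.prod volume) :=
    h1.mul_bdd (c := 1) (by fun_prop) (ae_of_all _ fun z => Real.abs_cos_le_one _)
  have hc : Integrable fun v => U v * Real.cos (u * v) :=
    hi.mul_bdd (c := 1) (by fun_prop) (ae_of_all _ fun z => Real.abs_cos_le_one _)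
  have hs : Integrable fun v => U v * Real.sin (u * v) :=
    hi.mul_bdd (c := 1) (by fun_prop) (ae_of_all _ fun z => Real.abs_sin_le_one _)
  have h3 : ∀ x, ∫ v, U x * U (x + v) * Real.cos (u * v) =
      U x * Real.cos (u * x) * WR U u + U x * Real.sin (u * x) * ∫ v, U v * Real.sin (u * v) :=
    fun x => by
      have h4 := integral_add_left_eq_self (μ := volume)
        (fun y => U x * U y * Real.cos (u * (y - x))) x
      simp only [add_sub_cancel_left] at h4
      rw [h4, WR, ← integral_const_mul, ← integral_const_mul,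
        ← integral_add (hc.const_mul _) (hs.const_mul _)]
      congr 1
      funext y
      rw [mul_sub, Real.cos_sub]
      ring
  have h5 := integral_integral_swap (f := fun x v => U x * U (x + v) * Real.cos (u * v)) h2
  simp only [h3] at h5
  rw [integral_add (hc.mul_const _) (hs.mul_const _), integral_mul_const, integral_mul_const] at h5
  rw [sq, sq]
  refine Eq.trans ?_ h5.symm
  simp only [WR, ac, integral_mul_const]

theorem WR_ac_nonneg {U : ℝ → ℝ} (h : Tst U) (u : ℝ) : 0 ≤ WR (ac U) u := by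
  rw [WR_ac h]
  positivity

end Pool.Agent.P.MP_7eacff_nt.SZ
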