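import Pool.Agent.P.MP_7eacff_nt.SZ.Gonek
import Pool.Agent.P.MP_7eacff_nt.SZ.JBound
import Pool.Agent.P.MP_7eacff_nt.SZ.VWR
import Pool.Agent.P.MP_7eacff_nt.SZ.Tail

/-!
Asymptotics of the integrals that contain the gamma factor.
-/

open Complex Filter Topology MeasureTheory Set
open scoped Real ContDiff

namespace Pool.Agent.P.MP_7eacff_nt.SZ

open Pool.Agent.Lib.LargeSieve (primSet mem_primSet)

namespace GasymAux

/-- Quadratic decay in `x / T`, up to `j` logarithms. -/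
def Bw (j : ℕ) (h : ℝ → ℝ → ℂ) : Prop :=
  ∃ C : ℝ, 0 ≤ C ∧ ∀ᶠ T : ℝ in atTop, ∀ x : ℝ, 0 < x →
    ‖h T x‖ ≤ C * (1 + |Real.log x|) ^ j / (1 + x / T) ^ 2

theorem Bw.add {j : ℕ} {h g : ℝ → ℝ → ℂ} (hh : Bw j h) (hg : Bw j g) :
    Bw j fun T x => h T x + g T x := by
  obtain ⟨C, hC, h1⟩ := hh
  obtain ⟨D, hD, h2⟩ := hg
  refine ⟨C + D, add_nonneg hC hD, (h1.and h2).mono fun T hT x hx => ?_⟩
  rw [add_mul, add_div]
  exact norm_add_le_of_le (hT.1 x hx) (hT.2 x hx)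

theorem Bw.mul {j : ℕ} {h a : ℝ → ℝ → ℂ} (hh : Bw j h) {B : ℝ} (hB : 0 ≤ B)
    (ha : ∀ᶠ T : ℝ in atTop, ∀ x, ‖a T x‖ ≤ B) : Bw j fun T x => a T x * h T x := by
  obtain ⟨C, hC, h1⟩ := hh
  refine ⟨B * C, mul_nonneg hB hC, (h1.and ha).mono fun T hT x hx => ?_⟩
  rw [mul_assoc, mul_div_assoc]
  exact norm_mul_le_of_le (hT.2 x) (hT.1 x hx)

theorem Bw.sum {j : ℕ} {S : Finset ℕ} {h : ℕ → ℝ → ℝ → ℂ} (hh : ∀ i ∈ S, Bw j (h i)) :
    Bw j fun T x => ∑ i ∈ S, h i T x := by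
  induction S using Finset.induction_on with
  | empty => exact ⟨0, le_rfl, .of_forall fun T x _ => by simp⟩
  | insert i S hi ih =>
    simp only [Finset.sum_insert hi]
    exact (hh i (Finset.mem_insert_self i S)).add
      (ih fun i' hi' => hh i' (Finset.mem_insert_of_mem hi'))

theorem Bw.congr {j : ℕ} {h g : ℝ → ℝ → ℂ} (hh : Bw j h)
    (e : ∀ᶠ T : ℝ in atTop, ∀ x, g T x = h T x) : Bw j g := by
  obtain ⟨C, hC, h1⟩ := hh
  exact ⟨C, hC, (h1.and e).mono fun T hT x hx => hT.2 x ▸ hT.1 x hx⟩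

theorem Bw.log {h : ℝ → ℝ → ℂ} (hh : Bw 0 h) :
    Bw 1 h ∧ Bw 1 fun T x => (Real.log x : ℝ) * h T x := by
  obtain ⟨C, hC, h1⟩ := hh
  have key : ∀ᶠ T : ℝ in atTop, ∀ x : ℝ, 0 < x → ∀ t, t ≤ 1 + |Real.log x| →
      t * ‖h T x‖ ≤ C * (1 + |Real.log x|) ^ 1 / (1 + x / T) ^ 2 :=
    h1.mono fun T hT x hx t ht => by
      have := hT x hx
      rw [pow_zero, mul_one] at this
      rw [pow_one, mul_comm C, mul_div_assoc]
      exact mul_le_mul ht this (norm_nonneg _) (by positivity)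
  refine ⟨⟨C, hC, key.mono fun T hT x hx => ?_⟩, C, hC, key.mono fun T hT x hx => ?_⟩
  · simpa using hT x hx 1 (le_add_of_nonneg_right (abs_nonneg _))
  · rw [norm_mul, Complex.norm_real, Real.norm_eq_abs]
    exact hT x hx _ (le_add_of_nonneg_left zero_le_one)

theorem bw_Jf {φ : ℝ → ℝ} (h : Tst φ) : Bw 0 fun T x => (Jf φ T x : ℝ) := by
  obtain ⟨C, hC, h1⟩ := Jf_le h
  refine ⟨C, hC, h1.mono fun T hT x hx => ?_⟩
  rw [Complex.norm_real, pow_zero, mul_one]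
  exact hT x hx

theorem bw_V {V : ℝ → ℂ} {M : ℂ → ℂ} (hV : Vcl V M) : Bw 0 fun T x => V (x / T) := by
  obtain ⟨C, hC, h1⟩ := hV.bd
  refine ⟨C, hC, (eventually_gt_atTop 0).mono fun T hT x hx => ?_⟩
  rw [pow_zero, mul_one]
  exact (h1 _ (div_pos hx hT)).1

theorem bw_cos {V : ℝ → ℂ} {M : ℂ → ℂ} (hV : Vcl V M) :
    Bw 0 fun T x => (Real.cos (2 * π * x) : ℝ) * V (x / T) :=
  (bw_V hV).mul zero_le_one (.of_forall fun _ x => by
    rw [Complex.norm_real]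
    exact Real.abs_cos_le_one _)

theorem coef_le {T : ℝ} (hT : 1 ≤ T) (k j : ℕ) :
    ‖(((k.choose j : ℝ) * (1 / (4 * T ^ 2)) ^ (k - j) : ℝ) : ℂ)‖ ≤ k.choose j ∧ (j < k →
      ‖((T * ((k.choose j : ℝ) * (1 / (4 * T ^ 2)) ^ (k - j)) : ℝ) : ℂ)‖ ≤ k.choose j) := by
  have h0 : 0 < T := one_pos.trans_le hT
  have h1 : T * (1 / (4 * T ^ 2)) ≤ 1 := by
    rw [mul_one_div, div_le_one (by positivity)]
    nlinarith
  have h2 : 1 / (4 * T ^ 2) ≤ 1 := (le_mul_of_one_le_left (by positivity) hT).trans h1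
  constructor
  · rw [Complex.norm_real, Real.norm_of_nonneg (by positivity)]
    exact mul_le_of_le_one_right (Nat.cast_nonneg _) (pow_le_one₀ (by positivity) h2)
  · intro hj
    rw [Complex.norm_real, Real.norm_of_nonneg (by positivity), mul_left_comm]
    exact mul_le_of_le_one_right (Nat.cast_nonneg _) ((mul_le_mul_of_nonneg_left
      (pow_le_of_le_one (by positivity) h2 (Nat.sub_pos_of_lt hj).ne') h0.le).trans h1)

theorem bw_xm {φ : ℝ → ℝ} (h : Tst φ) (k : ℕ) :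
    Bw 0 fun T x => (Jf (xm ((opT T)^[k] φ)) T x : ℝ) := by
  refine (Bw.sum (S := Finset.range (k + 1)) fun j _ => (bw_Jf (h.top_iter j).xmul).mul
    (a := fun T _ => (((k.choose j : ℝ) * (1 / (4 * T ^ 2)) ^ (k - j) : ℝ) : ℂ)) (Nat.cast_nonneg _)
    ((eventually_ge_atTop 1).mono fun T hT _ => (coef_le hT k j).1)).congr
    (.of_forall fun T x => ?_)
  have e : xm ((opT T)^[k] φ) = fun v => ∑ j ∈ Finset.range (k + 1),
      (k.choose j : ℝ) * (1 / (4 * T ^ 2)) ^ (k - j) * xm (top^[j] φ) v := funext fun v => by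
    simp only [xm, opT_iter h, Finset.mul_sum, mul_left_comm v]
  rw [e, Jf_sum _ _ fun j => (h.top_iter j).xmul, Complex.ofReal_sum]
  simp only [Complex.ofReal_mul]

theorem bw_rem {φ : ℝ → ℝ} (h : Tst φ) (he : Function.Even φ) (k : ℕ) :
    Bw 0 fun T x => ((T * (Jf ((opT T)^[k] φ) T x -
      2 * Real.cos (2 * π * x) * WR (top^[k] φ) (2 * π * (x / T))) : ℝ) : ℂ) := by
  have h1 : Bw 0 fun T x => ((T * (Jf (top^[k] φ) T x -
      2 * Real.cos (2 * π * x) * WR (top^[k] φ) (2 * π * (x / T))) : ℝ) : ℂ) := by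
    obtain ⟨C, hC, h1⟩ := Jf_approx (h.top_iter k) (even_top_iter he k)
    refine ⟨C, hC, (h1.and (eventually_gt_atTop 0)).mono fun T hT x hx => ?_⟩
    rw [Complex.norm_real, Real.norm_eq_abs, abs_mul, abs_of_pos hT.2, pow_zero, mul_one,
      ← le_div_iff₀' hT.2, div_div, mul_comm _ T]
    exact hT.1 x hx
  refine ((Bw.sum (S := Finset.range k) fun j hj => (bw_Jf (h.top_iter j)).mul
    (a := fun T _ => ((T * ((k.choose j : ℝ) * (1 / (4 * T ^ 2)) ^ (k - j)) : ℝ) : ℂ))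
    (Nat.cast_nonneg _) ((eventually_ge_atTop 1).mono fun T hT _ =>
      (coef_le hT k j).2 (Finset.mem_range.1 hj))).add h1).congr (.of_forall fun T x => ?_)
  rw [funext (opT_iter h T k), Jf_sum _ _ h.top_iter, Finset.sum_range_succ, Nat.choose_self,
    Nat.sub_self, pow_zero, Nat.cast_one, one_mul, one_mul, add_sub_assoc, mul_add,
    Finset.mul_sum, Complex.ofReal_add, Complex.ofReal_sum]
  simp only [Complex.ofReal_mul, mul_assoc]

/-- The inner sums converge. -/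
def Su (h : ℝ → ℂ) (c : ℕ → ℂ) (T : ℝ) : Prop :=
  ∀ k ∈ Finset.Icc 1 ⌊T⌋₊, Summable fun m : ℕ => c m * h (m / k)

theorem Bw.summable {c : ℝ → AF} (hc : Mod c) {h : ℝ → ℝ → ℂ} (hh : Bw 1 h) :
    ∀ᶠ T : ℝ in atTop, Su (h T) (c T) T := by
  obtain ⟨C, hC, h1⟩ := hh
  filter_upwards [h1, summable_frac hc, eventually_gt_atTop 0] with T h1 h2 hT k hk
  have hk0 : (0 : ℝ) < k := Nat.cast_pos.2 (Finset.mem_Icc.1 hk).1
  refine h2 _ (C * (1 + Real.log k)) (k * T) (mul_pos hk0 hT) fun m hm => ?_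
  have hm0 : (0 : ℝ) < m := Nat.cast_pos.2 (Nat.pos_of_ne_zero hm)
  refine (h1 _ (div_pos hm0 hk0)).trans ?_
  rw [div_div, pow_one, mul_assoc, Real.log_div hm0.ne' hk0.ne']
  have a1 := Real.log_natCast_nonneg m
  have a2 := Real.log_natCast_nonneg k
  gcongr
  rcases abs_cases (Real.log m - Real.log k) with a | a <;> nlinarith

theorem Bw.crude {θ : ℝ} (hθ : θ < 1 / 2) {b c : ℝ → AF} (hb : Moll θ b) (hc : Mod c)
    {h : ℝ → ℝ → ℂ} (hh : Bw 1 h) :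
    Tendsto (fun T : ℝ => (T : ℂ)⁻¹ * GS (h T) (b T) (c T) T / T) atTop (𝓝 0) := by
  obtain ⟨C, hC, h1⟩ := hh
  refine (GS_crude hθ hb hc (h := h) (C := C) ?_).congr fun T => by ring
  filter_upwards [h1, Real.tendsto_log_atTop.eventually_ge_atTop 1] with T h1 h2 x hx
  refine (h1 x hx).trans ?_
  rw [pow_one]
  gcongr
  exact le_mul_of_one_le_right (by positivity) h2

theorem GS_mul (a : ℂ) (h : ℝ → ℂ) (b c : ℕ → ℂ) (T : ℝ) :
    GS (fun x => a * h x) b c T = a * GS h b c T := by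
  simp only [GS, Finset.mul_sum, mul_left_comm _ a, tsum_mul_left]

theorem GS_add {h g : ℝ → ℂ} (b : ℕ → ℂ) {c : ℕ → ℂ} {T : ℝ} (hh : Su h c T) (hg : Su g c T) :
    GS (fun x => h x + g x) b c T = GS h b c T + GS g b c T := by
  rw [GS, GS, GS, ← Finset.sum_add_distrib]
  refine Finset.sum_congr rfl fun k hk => ?_
  rw [← mul_add, ← (hh k hk).tsum_add (hg k hk)]
  simp only [mul_add]

theorem su_mul (a : ℂ) {h : ℝ → ℂ} {c : ℕ → ℂ} {T : ℝ} (hh : Su h c T) :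
    Su (fun x => a * h x) c T := fun k hk => by
  simpa only [mul_left_comm a] using (hh k hk).mul_left a

theorem su_add {h g : ℝ → ℂ} {c : ℕ → ℂ} {T : ℝ} (hh : Su h c T) (hg : Su g c T) :
    Su (fun x => h x + g x) c T := fun k hk => by
  simpa only [mul_add] using (hh k hk).add (hg k hk)

theorem GS_congr {h g : ℝ → ℂ} (e : ∀ x, 0 < x → h x = g x) (b : ℕ → ℂ) (c : AF) (T : ℝ) :
    GS h b c T = GS g b c T := by
  refine Finset.sum_congr rfl fun k hk => congrArg _ (tsum_congr fun m => ?_)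
  rcases Nat.eq_zero_or_pos m with rfl | hm
  · rw [ArithmeticFunction.map_zero, zero_mul, zero_mul]
  · rw [e _ (div_pos (Nat.cast_pos.2 hm) (Nat.cast_pos.2 (Finset.mem_Icc.1 hk).1))]

theorem div_log {f : ℝ → ℂ} (h : Tendsto (fun T : ℝ => f T / T) atTop (𝓝 0)) (e : ℕ) :
    Tendsto (fun T : ℝ => f T / (T * Real.log T ^ e : ℝ)) atTop (𝓝 0) := by
  refine squeeze_zero_norm' ?_ (tendsto_zero_iff_norm_tendsto_zero.1 h)
  filter_upwards [Real.tendsto_log_atTop.eventually_ge_atTop 1] with T hT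
  have h1 : 1 ≤ Real.log T ^ e := one_le_pow₀ hT
  rw [Complex.ofReal_mul, ← div_div, norm_div, Complex.norm_real,
    Real.norm_of_nonneg (zero_le_one.trans h1)]
  exact div_le_self (norm_nonneg _) h1

theorem lim_cos {b c : ℝ → AF} (hc : Mod c) (hE : ELim b c) {e : ℕ} {l : ℝ} (hM : MLim b c e l)
    {V : ℝ → ℂ} {M : ℂ → ℂ} (hV : Vcl V M) :
    Tendsto (fun T : ℝ => GS (fun x => (Real.cos (2 * π * x) : ℝ) * V (x / T)) (b T) (c T) T /
      (T * Real.log T ^ e : ℝ)) atTop (𝓝 (M 1 * l)) := by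
  have h1 := (div_log (hE V M hV) e).add (hM V M hV)
  rw [zero_add] at h1
  refine h1.congr' ?_
  obtain ⟨C, hC, h2⟩ := hV.bd
  filter_upwards [(bw_cos hV).log.1.summable hc, summable_frac hc, eventually_gt_atTop 0]
    with T h3 h4 hT
  rw [← add_div, GS, ER, MT, ← Finset.sum_add_distrib]
  refine congrArg (· / _) (Finset.sum_congr rfl fun k hk => ?_)
  have hk0 : (0 : ℝ) < k := Nat.cast_pos.2 (Finset.mem_Icc.1 hk).1
  have h5 := h4 (fun m => ram k m / k.totient * V (m / (k * T))) (k ^ 2 * C) (k * T)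
    (mul_pos hk0 hT) fun m hm => by
      refine (norm_mul_le_of_le (norm_ram_div_le k m) (h2 _ (div_pos
        (Nat.cast_pos.2 (Nat.pos_of_ne_zero hm)) (mul_pos hk0 hT))).1).trans ?_
      rw [← mul_div_assoc]
      exact div_le_div_of_nonneg_right (le_mul_of_one_le_right (by positivity)
        (le_add_of_nonneg_right (Real.log_natCast_nonneg m))) (sq_nonneg _)
  have h6 := h3 k hk
  simp only [div_div] at h6 ⊢
  simp only [mul_assoc (c T _), sub_mul, mul_sub]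
  rw [h6.tsum_sub h5]
  ring

end GasymAux

open GasymAux in
theorem G_chi {φ : ℝ → ℝ} (h : Tst φ) (he : Function.Even φ) {k : ℕ} (hk : 1 ≤ k) {θ : ℝ}
    (hθ : θ < 1 / 2) {b c : ℝ → AF} (hb : Moll θ b) (hc : Mod c) (hE : ELim b c) {e : ℕ} {l : ℝ}
    (hM : MLim b c e l) :
    Tendsto (fun T : ℝ => LI (fun s => wf ((opT T)^[k] φ) T s * chi s * LSeries (c T) s *
      dp (b T) ⌊T⌋₊ (1 - s)) / (T * Real.log T ^ e : ℝ)) atTop
      (𝓝 ((top^[k] φ 0 * l : ℝ) : ℂ)) := by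
  obtain ⟨M, hV, hM1⟩ := vcl_WR h he hk
  have h1 := ((lim_cos hc hE hM hV).const_mul 2).add
    (div_log ((bw_rem h he k).log.1.crude hθ hb hc) e)
  have e0 : 2 * (M 1 * l) + 0 = ((top^[k] φ 0 * l : ℝ) : ℂ) := by
    rw [hM1, Complex.ofReal_mul]
    ring
  rw [e0] at h1
  refine h1.congr' ?_
  filter_upwards [(bw_cos hV).log.1.summable hc, (bw_rem h he k).log.1.summable hc, hc.summable,
    eventually_gt_atTop 0] with T h2 h3 h4 hT
  have hT' : (T : ℂ) ≠ 0 := Complex.ofReal_ne_zero.2 hT.ne'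
  rw [(LI_chi_sum (h.opT_iter T k) hT _ h4).2, ← mul_div_assoc, ← add_div, ← GS_mul, ← GS_mul,
    ← GS_add _ (su_mul _ h2) (su_mul _ h3)]
  refine congrArg (· / _) (GS_congr (fun x _ => ?_) _ _ _)
  simp only [Complex.ofReal_mul, Complex.ofReal_sub, Complex.ofReal_ofNat]
  field_simp
  ring

open GasymAux in
theorem G_deriv_chi {φ : ℝ → ℝ} (h : Tst φ) (he : Function.Even φ) {k : ℕ} (hk : 1 ≤ k) {θ : ℝ}
    (hθ : θ < 1 / 2) {b c : ℝ → AF} (hb : Moll θ b) (hc : Mod c) (hE : ELim b c) {e : ℕ} {l : ℝ}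
    (hM : MLim b c e l) :
    Tendsto (fun T : ℝ => LI (fun s => wf ((opT T)^[k] φ) T s * deriv chi s * LSeries (c T) s *
      dp (b T) ⌊T⌋₊ (1 - s)) / (T * Real.log T ^ (e + 1) : ℝ)) atTop
      (𝓝 ((top^[k] φ 0 * l : ℝ) : ℂ)) := by
  obtain ⟨M, hV, hM1⟩ := vcl_WR h he hk
  obtain ⟨M', hV'⟩ := vcl_WR_log h he hk
  have hr := (bw_rem h he k).log.2.add ((bw_xm h k).log.1.mul (a := fun _ _ => -1) zero_le_one
    (.of_forall fun _ _ => by simp))
  have h0 : Tendsto (fun T : ℝ => (((Real.log T)⁻¹ : ℝ) : ℂ)) atTop (𝓝 ((0 : ℝ) : ℂ)) :=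
    (Complex.continuous_ofReal.tendsto 0).comp Real.tendsto_log_atTop.inv_tendsto_atTop
  have h1 := (((lim_cos hc hE hM hV).add ((lim_cos hc hE hM hV').mul h0)).const_mul 2).add
    (div_log (hr.crude hθ hb hc) (e + 1))
  have e0 : 2 * (M 1 * l + M' 1 * l * ((0 : ℝ) : ℂ)) + 0 = ((top^[k] φ 0 * l : ℝ) : ℂ) := by
    rw [hM1, Complex.ofReal_mul, Complex.ofReal_zero]
    ring
  rw [e0] at h1
  refine h1.congr' ?_
  filter_upwards [(bw_cos hV).log.1.summable hc, (bw_cos hV').log.1.summable hc, hr.summable hc,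
    hc.summable, eventually_gt_atTop 1] with T h2 h2' h3 h4 hT1
  have hT : 0 < T := one_pos.trans hT1
  have hT' : (T : ℂ) ≠ 0 := Complex.ofReal_ne_zero.2 hT.ne'
  have hL : ((Real.log T : ℝ) : ℂ) ≠ 0 := Complex.ofReal_ne_zero.2 (Real.log_pos hT1).ne'
  have e1 : ∀ A B : ℂ, 2 * (A / (T * Real.log T ^ e : ℝ) +
      B / (T * Real.log T ^ e : ℝ) * (((Real.log T)⁻¹ : ℝ) : ℂ)) =
      (2 * (Real.log T : ℝ) * A + 2 * B) / (T * Real.log T ^ (e + 1) : ℝ) := fun A B => by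
    simp only [Complex.ofReal_mul, Complex.ofReal_pow, Complex.ofReal_inv]
    field_simp
    ring
  rw [(LI_deriv_chi_sum (h.opT_iter T k) hT _ h4).2, e1, ← add_div, ← GS_mul, ← GS_mul, ← GS_mul,
    ← GS_add _ (su_mul _ h2) (su_mul _ h2'),
    ← GS_add _ (su_add (su_mul _ h2) (su_mul _ h2')) (su_mul _ h3)]
  refine congrArg (· / _) (GS_congr (fun x hx => ?_) _ _ _)
  simp only [Real.log_div hx.ne' hT.ne', Complex.ofReal_mul, Complex.ofReal_sub,
    Complex.ofReal_ofNat, Complex.ofReal_div]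
  field_simp
  ring

end Pool.Agent.P.MP_7eacff_nt.SZ
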