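import Pool.Agent.P.MP_7eacff_nt.SZ.Pair
import Pool.Agent.P.MP_7eacff_nt.SZ.PRepA
import Pool.Agent.P.MP_7eacff_nt.SZ.ILap
import Pool.Agent.P.MP_7eacff_nt.SZ.Tail
import Pool.Agent.P.MP_7eacff_nt.SZ.SevenB

/-!
The main term for the mollified second moment of zeta.
-/

open Complex Filter Topology MeasureTheory Set
open scoped Real ContDiff

namespace Pool.Agent.P.MP_7eacff_nt.SZ

open Pool.Agent.Lib.LargeSieve (primSet mem_primSet)

namespace Pair0Aux

theorem conv_right {α : Type*} [MeasurableSpace α] {μ : Measure α} {ρ : α → ℂ} {g : α → AF}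
    {f : AF} (hi : ∀ n, Integrable (fun w => ρ w * g w n) μ)
    (h : ∀ n, f n = ∫ w, ρ w * g w n ∂μ) (c : AF) (n : ℕ) :
    (f * c) n = ∫ w, ρ w * (g w * c) n ∂μ := by
  simp only [ArithmeticFunction.mul_apply, Finset.mul_sum, ← mul_assoc]
  rw [integral_finsetSum _ fun x _ => (hi x.1).mul_const _]
  exact Finset.sum_congr rfl fun x _ => by rw [h, integral_mul_const]

theorem siz_le (ξ : ℝ) (u v : ℂ) :
    siz (1 + ξ * I) u 0 0 v 0 ≤ (1 + |ξ|) * ((1 + ‖u‖ + ‖v‖) * 2) := by
  have h : ‖(1 + ξ * I : ℂ)‖ ≤ 1 + |ξ| := (norm_add_le _ _).trans_eq (by simp)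
  have ha := abs_nonneg ξ
  have hb : 0 ≤ ‖u‖ + ‖v‖ := by positivity
  rw [siz, norm_zero]
  nlinarith [mul_nonneg ha hb]

theorem cel_zero (u v : ℂ) : cel u 0 0 v 0 = pw u * mw v * un := by
  rw [cel, pw_zero, mw_zero, mul_comm un, mu_mul_un, mul_one]

theorem sym_zero {σ z : ℂ} (hσ : σ.re = 1 / 2) (hz : z.re = 1) (u v : ℂ) :
    sym z u 0 0 v 0 σ = rat σ z u v * (z / (σ * (z - σ))) := by
  have h1 := SevenBAux.ne_half hσ
  have h2 := SevenBAux.ne_one hz
  have h3 : rat σ z 0 0 = 1 := by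
    rw [rat, add_zero, add_zero, mul_comm]
    exact div_self (mul_ne_zero h1 h2)
  rw [sym, h3, mul_one, add_zero, add_zero]

open ILapAux in
theorem hi_res {z : ℂ} (hz : z.re = 1) :
    HI (fun σ => (σ ^ 2 * (z - σ))⁻¹) (1 / z + 1 / z ^ 2) := by
  let f : ℝ → ℝ → ℂ := fun t r =>
    cexp (-z * r) * (cexp ((1 / 2 + t * I) * (1 + r : ℝ)) / (1 / 2 + t * I) ^ (1 + 1))
  have hf : Integrable (Function.uncurry f) (volume.prod (volume.restrict (Ioi 0))) := by
    have h0 : IntegrableOn (fun r : ℝ => Real.exp (1 / 2) * Real.exp (-(1 / 2) * r)) (Ioi 0) :=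
      (exp_neg_integrableOn_Ioi 0 (by norm_num : (0 : ℝ) < 1 / 2)).const_mul _
    refine ((int_inv (a := 1) le_rfl).norm.mul_prod h0).mono'
      (Measurable.aestronglyMeasurable (by unfold Function.uncurry; fun_prop))
      (ae_of_all _ fun q => le_of_eq ?_)
    have e1 : (-z * q.2 : ℂ).re = -q.2 := by simp [hz]
    have e2 : ((1 / 2 + q.1 * I) * (1 + q.2 : ℝ) : ℂ).re = 1 / 2 * (1 + q.2) := by simp
    simp only [f, Function.uncurry, norm_mul, norm_div, norm_exp, e1, e2, norm_inv]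
    rw [← Real.exp_add, ← mul_div_assoc, ← Real.exp_add, div_eq_inv_mul]
    congr 2
    ring
  have e : ∀ t : ℝ, cexp (1 / 2 + t * I) * ((1 / 2 + t * I : ℂ) ^ 2 * (z - (1 / 2 + t * I)))⁻¹ =
      ∫ r in Ioi (0 : ℝ), f t r := fun t => by
    have h1 := ILapAux.integral_pow (s := z - (1 / 2 + t * I)) (by simp [hz]; norm_num) 0
    simp only [pow_zero, one_mul, Nat.factorial_zero, Nat.cast_one, zero_add, pow_one] at h1
    rw [mul_inv, ← mul_assoc, ← one_div (z - _), ← h1, ← integral_const_mul]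
    congr 1
    funext r
    have e1 : (1 / 2 + t * I : ℂ) * (1 + r : ℝ) =
        1 / 2 + t * I + (-(z - (1 / 2 + t * I)) * r + z * r) := by
      push_cast
      ring
    have e2 : cexp (-z * r) * cexp (z * r) = 1 := by
      rw [← Complex.exp_add]
      simp
    simp only [f]
    rw [e1, Complex.exp_add (1 / 2 + t * I), Complex.exp_add _ (z * r)]
    linear_combination (-(cexp (1 / 2 + t * I) * cexp (-(z - (1 / 2 + t * I)) * r) /
      (1 / 2 + t * I) ^ 2)) * e2
  unfold HI IL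
  simp only [e]
  refine ⟨hf.integral_prod_left, ?_⟩
  have hz' : 0 < z.re := by rw [hz]; exact one_pos
  have h0 := ILapAux.integral_pow hz' 0
  have h1 := ILapAux.integral_pow hz' 1
  simp only [Nat.factorial_zero, Nat.factorial_one, Nat.cast_one, zero_add,
    show 1 + 1 = 2 from rfl, pow_one z] at h0 h1
  rw [integral_integral_swap hf, ← integral_div, ← h0, ← h1,
    ← integral_add (int_pow hz' 0) (int_pow hz' 1)]
  refine setIntegral_congr_fun measurableSet_Ioi fun r hr => ?_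
  simp only [f]
  rw [integral_const_mul, mul_div_assoc, inv_laplace le_rfl,
    max_eq_left (by linarith [mem_Ioi.1 hr])]
  push_cast
  simp only [Nat.factorial_one, Nat.cast_one]
  ring

end Pair0Aux

open PairAux Pair0Aux in
theorem lim_pair_zero {F : ℝ → ℝ} (hF : Tst F) (hF1 : ∀ r, 1 < r → F r = 0) {f : ℝ → AF}
    {S : ℂ → ℂ → ℂ} (h : PRep f S) {V : ℝ → ℂ} {M : ℂ → ℂ} (hV : Vcl V M) :
    Tendsto (fun T : ℝ => MT V (bF F T) (f T * un : AF) T / T) atTop
      (𝓝 (M 1 * av F fun z => IL fun σ => S σ z * (z / (σ * (z - σ))))) := by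
  obtain ⟨ν, i, ρ, u, v, m, mu', mv, r, o, e, s⟩ := h
  have mf := (continuous_fd hF).measurable
  have j : Integrable ρ ν := (integrable_norm_iff m.aestronglyMeasurable).1 (by simpa using o 0)
  have hR : ∀ (ξ : ℝ) (w : ℝ × ℝ), Reg (1 + ξ * I) (u w) 0 0 (v w) 0 :=
    fun ξ w => ⟨by simp, (r _).1, by norm_num, by norm_num, (r _).2, by norm_num⟩
  have hm : ∀ A : ℕ, Integrable (fun w : ℝ × ℝ × ℝ =>
      ‖fd F w.1 * ρ w.2‖ * siz (1 + w.1 * I) (u w.2) 0 0 (v w.2) 0 ^ A) (volume.prod ν) :=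
    fun A => by
    refine ((fd_moment hF A).mul_prod ((o A).mul_const (2 ^ A))).mono'
      (Measurable.aestronglyMeasurable ?_) (Eventually.of_forall fun w => ?_)
    · unfold siz
      fun_prop
    · have e0 : 0 ≤ siz (1 + w.1 * I) (u w.2) 0 0 (v w.2) 0 := by
        unfold siz
        positivity
      rw [Real.norm_of_nonneg (by positivity)]
      refine (mul_le_mul_of_nonneg_left (pow_le_pow_left₀ e0 (Pair0Aux.siz_le _ _ _) A)
        (norm_nonneg _)).trans_eq ?_
      simp only [norm_mul, mul_pow]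
      ring
  have key := lim_of_rep (volume.prod ν) (u₂ := fun _ => 0) (u₃ := fun _ => 0) (v₂ := fun _ => 0)
    (by fun_prop) (by fun_prop) (by fun_prop) (by fun_prop) (by fun_prop) (by fun_prop)
    (by fun_prop) (fun w => hR w.1 w.2) hm hV (b := bF F) (c := fun T => f T * un)
    (fun T hT k hk => by
      rw [bF_apply, hF1 _ ((one_lt_div (Real.log_pos hT)).2
        (Real.log_lt_log (by linarith) hk)), ofReal_zero, mul_zero]) (fun T hT k n => by
      have hL := Real.log_pos hT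
      rcases eq_or_ne k 0 with rfl | hk
      · simp
      rw [conv_right
        (fun n => int_pm j mu' mv hL (fun w => (r w).1.1) (fun w => (r w).2.1) n) (e T hT),
        bF_apply, ← av_pw hF _ hk, av, mul_assoc, ← integral_prod_mul]
      refine congrArg _ (integral_congr_ae (Eventually.of_forall fun w => ?_))
      simp only [cof, zero_div, cel_zero]
      ring)
  have I1 := (IL_swap (u₂ := fun _ => 0) (u₃ := fun _ => 0) (v₂ := fun _ => 0)
    (by fun_prop) (by fun_prop) (by fun_prop) (by fun_prop) (by fun_prop)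
    (by fun_prop) (by fun_prop) (fun w : ℝ × ℝ × ℝ => hR w.1 w.2) (hm 7)).1
  rw [integral_prod _ I1] at key
  refine key.trans_eq (congrArg _ (congrArg _ (integral_congr_ae ?_)))
  filter_upwards [(hm 7).prod_right_ae] with ξ hξ
  rw [(IL_swap (u₂ := fun _ => 0) (u₃ := fun _ => 0) (v₂ := fun _ => 0)
    (by fun_prop) (by fun_prop) (by fun_prop) (by fun_prop) (by fun_prop)
    (by fun_prop) (by fun_prop) (hR ξ) hξ).2, IL, IL, ← mul_div_assoc, ← integral_const_mul]
  refine congrArg (· / _) (integral_congr_ae (Eventually.of_forall fun t => ?_))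
  have a1 : (1 / 2 + t * I : ℂ).re = 1 / 2 := by simp
  have a2 : (1 + ξ * I : ℂ).re = 1 := by simp
  beta_reduce
  simp only [sym_zero a1 a2]
  rw [s _ _ a1 a2, mul_left_comm, ← integral_mul_const, ← integral_const_mul (fd F ξ)]
  simp only [mul_assoc]

theorem IL_res {z : ℂ} (hz : z.re = 1) (c d : ℂ) :
    IL (fun σ => c / (σ ^ 2 * (z - σ)) + d / σ ^ 2) = c * (1 / z + 1 / z ^ 2) + d := by
  refine (((Pair0Aux.hi_res hz).smul c).add ((ILapAux.hi_pow (a := 1) le_rfl).smul d)).2.trans ?_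
  simp

theorem mlim_eight {θ η : ℝ} {F κ : ℝ → ℝ} (h : Adm θ η F κ) :
    ∃ l : ℝ, MLim (bF F) (fun T => bF F T * un * un) 0 l := by
  have h1 : ∀ r, 1 < r → F r = 0 := fun r hr => h.sF r (by linarith [h.hθη, h.hη, h.hθ])
  have hl : (av F fun z => IL fun σ => z / σ * (F 0 - (z - σ) * Lap F z) * (z / (σ * (z - σ)))) =
      av F fun z => ((0 : ℝ) / z + (F 0 : ℝ) + (F 0 : ℝ) * z) +
        ((0 : ℝ) / z + (0 : ℝ) + (0 : ℝ) * z + (-1 : ℝ) * z ^ 2) * Lap F z := by
    refine av_congr F fun z hz => ?_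
    have h2 := SevenBAux.ne_one hz
    rw [IL_congr (g' := fun σ => F 0 * z ^ 2 / (σ ^ 2 * (z - σ)) + -(z ^ 2 * Lap F z) / σ ^ 2)
      fun σ hσ => ?_, IL_res hz]
    · push_cast
      field_simp
      ring
    · have h3 := SevenBAux.ne_half hσ
      have h0 : z - σ ≠ 0 := fun h => by
        have := congrArg re h
        rw [sub_re, hσ, hz, zero_re] at this
        norm_num at this
      generalize z - σ = d at h0
      field_simp
      ring
  obtain ⟨l, hl'⟩ : ∃ l : ℝ, (av F fun z => IL fun σ =>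
      z / σ * (F 0 - (z - σ) * Lap F z) * (z / (σ * (z - σ)))) = l :=
    ⟨_, hl.trans (SevenBAux.av_comb h.tF _ _ _ _ _ _ _)⟩
  refine ⟨l, fun V M hV => ?_⟩
  have := lim_pair_zero h.tF h1 (prep_bun h.tF) hV
  rw [hl'] at this
  simpa only [pow_zero, mul_one] using this

end Pool.Agent.P.MP_7eacff_nt.SZ
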