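import Pool.Agent.P.MP_7eacff_nt.SZ.PhP
import Pool.Agent.P.MP_7eacff_nt.SZ.Pair0
import Pool.Agent.P.MP_7eacff_nt.SZ.Gasym
import Pool.Agent.P.MP_7eacff_nt.SZ.ErrMain
import Pool.Agent.P.MP_7eacff_nt.SZ.Bern

/-!
The mollified second moment and the second derivative.
-/

open Complex Filter Topology MeasureTheory Set
open scoped Real ContDiff

namespace Pool.Agent.P.MP_7eacff_nt.SZ

open Pool.Agent.Lib.LargeSieve (primSet mem_primSet)

variable {θ η : ℝ} {U F κ : ℝ → ℝ}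

namespace Mom0Aux

theorem zeta₁_eq {s : ℂ} (hs : s ≠ 1) : riemannZeta₁ s = (s - 1) * riemannZeta s := by
  rw [riemannZeta_eq_inv_sub_mul hs, mul_inv_cancel_left₀ (sub_ne_zero.2 hs)]

theorem zeta₁_conj {s : ℂ} (hs : s ≠ 1) :
    riemannZeta₁ ((starRingEnd ℂ) s) = (starRingEnd ℂ) (riemannZeta₁ s) := by
  rw [zeta₁_eq hs, zeta₁_eq fun h => hs ((starRingEnd ℂ).injective (h.trans (map_one _).symm)),
    riemannZeta_conj, map_mul, map_sub, map_one]

theorem WR_ac_even (hU : Tst U) (he : Function.Even U) (u : ℝ) : WR (ac U) u = WR U u ^ 2 := by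
  have h := integral_neg_eq_self (fun v => U v * Real.sin (u * v)) volume
  simp only [he _, mul_neg, Real.sin_neg, integral_neg] at h
  have h0 : ∫ v, U v * Real.sin (u * v) = 0 := by linarith
  rw [WR_ac hU, h0, zero_pow two_ne_zero, add_zero]

theorem msq_eq (hU : Tst U) (he : Function.Even U) {T : ℝ} (hT : 0 < T)
    (h1 : ∀ s : ℂ, 1 < s.re → LSeriesSummable (bF F T) s ∧
      LSeries (bF F T) s = dp (bF F T) ⌊T⌋₊ s) :
    ((msq (Ph U F T) (1 / 2) : ℝ) : ℂ) = 2 * π * LI fun s => wf ((opT T)^[1] (ac U)) T s * chi s *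
      LSeries (bF F T * un * un : AF) s * dp (bF F T) ⌊T⌋₊ (1 - s) := by
  have hφ := hU.auto
  have hT' : (T : ℂ) ≠ 0 := ofReal_ne_zero.2 hT.ne'
  have hz : PolyG riemannZeta₁ (-(1 / 2)) (3 / 2) := polyG_zeta₁.mono (by norm_num) (by norm_num)
  have hd := polyG_dp (bF F T) ⌊T⌋₊ (-(1 / 2)) (3 / 2)
  have h2 := strip_shift (a := 1 / 2) (b := 3 / 2) (f := fun s => wf (ac U) T s *
    (riemannZeta₁ s * riemannZeta₁ (1 - s) * (dp (bF F T) ⌊T⌋₊ s * dp (bF F T) ⌊T⌋₊ (1 - s)) /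
      T ^ 2)) (by norm_num)
    (fun s _ _ => by
      have d1 := differentiable_riemannZeta₁
      have d2 := differentiable_dp (bF F T) ⌊T⌋₊
      have d3 := differentiable_wf hφ T
      fun_prop)
    (Dec.mul_poly (dec_wf hφ hT _ _) ((((hz.mono (by norm_num) le_rfl).mul
      (hz.one_sub.mono (by norm_num) (by norm_num))).mul ((hd.mono (by norm_num) le_rfl).mul
      (hd.one_sub.mono (by norm_num) (by norm_num)))).div_const _) 2)
  simp only [ofReal_div, ofReal_one, ofReal_ofNat] at h2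
  rw [msq, ← integral_complex_ofReal, LI, mul_div_cancel₀ _ (by simp)]
  refine (integral_congr_ae (Eventually.of_forall fun t => ?_)).trans
    (h2.trans (integral_congr_ae (Eventually.of_forall fun t => ?_)))
  · have e1 : (1 : ℂ) - (1 / 2 + t * I) = (starRingEnd ℂ) (1 / 2 + t * I) := by
      apply Complex.ext <;> simp
      norm_num
    have e2 : (1 / 2 + t * I : ℂ) ≠ 1 := fun h => by
      have := congrArg re h
      norm_num at this
    rw [← Complex.normSq_eq_norm_sq, ← Complex.mul_conj, e1, zeta₁_conj e2, dp_conj (bF_im F T),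
      wf_crit hφ (even_ac U), WR_ac_even hU he, Ph, wf_crit hU he]
    simp only [map_div₀, map_mul, conj_ofReal, ofReal_pow]
    ring
  · have k0 : (3 / 2 + t * I : ℂ).re = 3 / 2 := by simp
    beta_reduce
    generalize (3 / 2 + t * I : ℂ) = s at k0
    have k1 : 1 < s.re := by
      rw [k0]
      norm_num
    have k2 : s ≠ 1 := fun h => by simp [h] at k1
    have k3 : 1 - s ≠ 1 := by
      rw [Ne, sub_eq_self]
      rintro rfl
      norm_num at k1
    have m1 : LSeries (bF F T * un * un : AF) s =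
        dp (bF F T) ⌊T⌋₊ s * riemannZeta s * riemannZeta s := by
      rw [← (h1 s k1).2, ← (LSeries_un k1).2,
        ← ArithmeticFunction.LSeries_mul' (h1 s k1).1 (LSeries_un k1).1]
      exact ArithmeticFunction.LSeries_mul'
        (ArithmeticFunction.LSeriesSummable_mul (h1 s k1).1 (LSeries_un k1).1) (LSeries_un k1).1
    rw [wf_opT_iter hφ hT.ne', m1, zeta₁_eq k2, zeta₁_eq k3, zeta_one_sub (one_pos.trans k1) k2]
    ring

end Mom0Aux

theorem msq_Ph_le (h : Adm θ η F κ) (hU : Tst U) (he : Function.Even U) :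
    ∃ C : ℝ, 0 ≤ C ∧ ∀ᶠ T : ℝ in atTop, msq (Ph U F T) (1 / 2) ≤ C * T := by
  have hθ : θ < 1 / 2 := by linarith [h.hθη, h.hη]
  have hb := moll_bF h.tF h.sF
  have ht : Tame (bF F) := hb.tame (by linarith)
  have l1 : Lam un := Or.inr (Or.inl rfl)
  have hE : ELim (bF F) fun T => bF F T * un * un := by
    simpa only [mul_one] using elim_main h.hθ h.hη h.hθη hb ht
      (hb.supp (by linarith [h.hθη, h.hη, h.hθ])) l1 l1 (Or.inl rfl)
  obtain ⟨l, hl⟩ := mlim_eight h
  have h1 := (G_chi hU.auto (even_ac U) le_rfl hθ hb ((ht.mod.mul l1.mod).mul l1.mod) hE hl).norm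
  refine ⟨2 * π * (‖((top^[1] (ac U) 0 * l : ℝ) : ℂ)‖ + 1), by positivity, ?_⟩
  filter_upwards [h1.eventually (Iic_mem_nhds (lt_add_one _)), Fe_right h, eventually_gt_atTop 0]
    with T h2 h3 hT
  have h4 := congrArg norm
    (Mom0Aux.msq_eq hU he hT fun s hs => ⟨(h3 s hs).2.1, (h3 s hs).2.2.2.2.1⟩)
  rw [pow_zero, mul_one, norm_div, Complex.norm_real, Real.norm_of_nonneg hT.le,
    div_le_iff₀ hT] at h2
  rw [Complex.norm_real, norm_mul, norm_mul, Complex.norm_real, Complex.norm_two,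
    Real.norm_of_nonneg Real.pi_pos.le] at h4
  refine (le_abs_self _).trans (h4.trans_le ?_)
  rw [mul_assoc (2 * π)]
  exact mul_le_mul_of_nonneg_left h2 (by positivity)

theorem msq_sec_le (h : Adm θ η F κ) (hU : Tst U) (he : Function.Even U) :
    ∃ C : ℝ, 0 ≤ C ∧ ∀ᶠ T : ℝ in atTop,
      (Integrable fun t : ℝ => ‖deriv (deriv (Ph U F T)) (1 / 2 + t * I)‖ ^ 2) ∧
      msq (deriv (deriv (Ph U F T))) (1 / 2) ≤ C * T * Real.log T ^ 4 := by
  obtain ⟨C, hC, h1⟩ := msq_Ph_le h hU he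
  obtain ⟨A, h2⟩ := msq_Ph_triv hU h.tF
  refine ⟨A ^ 4 * C + 48, by positivity, ?_⟩
  filter_upwards [h1, h2, eventually_ge_atTop 1, Real.tendsto_log_atTop.eventually_ge_atTop 1]
    with T h3 h4 h5 h6
  have hT : 0 < T := one_pos.trans_le h5
  obtain ⟨h7, h8⟩ := bernstein (differentiable_Ph hU F T) (dec_Ph hU F hT 2)
    (Λ := A * Real.log T) (by positivity)
  refine ⟨h7, h8.trans ?_⟩
  have h9 : Real.exp (-(A * Real.log T)) * T ^ A = 1 := by
    rw [Real.exp_neg, Real.exp_nat_mul, Real.exp_log hT, inv_mul_cancel₀ (pow_pos hT A).ne']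
  have h10 : 1 ≤ T * Real.log T ^ 4 := one_le_mul_of_one_le_of_one_le h5 (one_le_pow₀ h6)
  have h11 := mul_le_mul_of_nonneg_left h3 (by positivity : 0 ≤ (A * Real.log T) ^ 4)
  have h12 := mul_le_mul_of_nonneg_left (add_le_add h4.1 h4.2)
    (Real.exp_pos (-(A * Real.log T))).le
  nlinarith

end Pool.Agent.P.MP_7eacff_nt.SZ
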