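import Pool.Agent.P.MP_7eacff_nt.SZ.Wf

/-!
Fourier inversion for windows and diagonal sums.
-/

open Complex Filter Topology MeasureTheory Set
open scoped Real ContDiff

namespace Pool.Agent.P.MP_7eacff_nt.SZ

open Pool.Agent.Lib.LargeSieve (primSet mem_primSet)

namespace InvAux

theorem cpow_eq {r : ℝ} (hr : 0 < r) (z : ℂ) : (r : ℂ) ^ z = cexp (Real.log r * z) := by
  rw [Complex.cpow_def_of_ne_zero (ofReal_ne_zero.2 hr.ne'), Complex.ofReal_log hr.le]

theorem lint_wf {φ : ℝ → ℝ} (h : Tst φ) {T : ℝ} (hT : 0 < T) : LInt (wf φ T) :=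
  (dec_wf h hT _ _ 2).lint ((differentiable_wf h T).continuous.comp (by fun_prop))

theorem norm_term (c : ℕ → ℂ) (t : ℝ) (m : ℕ) :
    ‖LSeries.term c (3 / 2 + t * I) m‖ = ‖LSeries.term c (3 / 2) m‖ := by
  simp [LSeries.norm_term_eq]

theorem series {W : ℝ → ℂ} (hW : Integrable W) {c : ℕ → ℂ} (hc : LSeriesSummable c (3 / 2)) :
    Integrable (fun t : ℝ => LSeries c (3 / 2 + t * I) * W t) ∧
      HasSum (fun m => ∫ t : ℝ, LSeries.term c (3 / 2 + t * I) m * W t)
        (∫ t : ℝ, LSeries c (3 / 2 + t * I) * W t) := by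
  have hn : Summable fun m => ‖LSeries.term c (3 / 2) m‖ := summable_norm_iff.2 hc
  refine ⟨hW.bdd_mul (c := ∑' m, ‖LSeries.term c (3 / 2) m‖)
    (continuous_LSeries_line hc).aestronglyMeasurable (ae_of_all _ fun t =>
      tsum_of_norm_bounded hn.hasSum fun m => (norm_term c t m).le), ?_⟩
  have h := hasSum_integral_of_summable_integral_norm
    (F := fun m (t : ℝ) => LSeries.term c (3 / 2 + t * I) m * W t) (μ := volume) (fun m => ?_) ?_
  · simp only [tsum_mul_right] at h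
    exact h
  · refine hW.bdd_mul (c := ‖LSeries.term c (3 / 2) m‖) (Continuous.aestronglyMeasurable ?_)
      (ae_of_all _ fun t => (norm_term c t m).le)
    rcases eq_or_ne m 0 with rfl | hm
    · simpa only [LSeries.term_zero] using continuous_const
    · simp only [LSeries.term_of_ne_zero hm, div_eq_mul_inv, ← cpow_neg]
      exact continuous_const.mul (Continuous.const_cpow (by fun_prop)
        (Or.inl (Nat.cast_ne_zero.2 hm)))
  · simp only [norm_mul, norm_term, integral_const_mul]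
    exact hn.mul_right _

theorem log_gap {m n : ℕ} (hm : 1 ≤ m) (hn : 1 ≤ n) (hmn : m ≠ n) :
    1 / ((n : ℝ) + 1) ≤ |Real.log ((m : ℝ) / n)| := by
  have hm' : (1 : ℝ) ≤ m := by exact_mod_cast hm
  have hn' : (1 : ℝ) ≤ n := by exact_mod_cast hn
  rcases lt_or_gt_of_ne hmn with h | h
  · have h' : (m : ℝ) + 1 ≤ n := by exact_mod_cast h
    have h1 := Real.log_le_sub_one_of_pos (x := (m : ℝ) / n) (by positivity)
    have h2 : (m : ℝ) / n - 1 ≤ -(1 / ((n : ℝ) + 1)) := by
      rw [div_sub_one (by positivity), ← neg_div, div_le_div_iff₀ (by positivity) (by positivity)]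
      nlinarith
    exact le_abs.2 (Or.inr (by linarith))
  · have h' : (n : ℝ) + 1 ≤ m := by exact_mod_cast h
    have h1 := Real.one_sub_inv_le_log_of_pos (x := (m : ℝ) / n) (by positivity)
    have h2 : 1 / ((n : ℝ) + 1) ≤ 1 - ((m : ℝ) / n)⁻¹ := by
      rw [inv_div, one_sub_div (by positivity), div_le_div_iff₀ (by positivity) (by positivity)]
      nlinarith
    exact le_abs.2 (Or.inl (h2.trans h1))

end InvAux

theorem LI_wf_cpow {φ : ℝ → ℝ} (h : Tst φ) {T x : ℝ} (hT : 0 < T) (hx : 0 < x) :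
    LI (fun s => wf φ T s * (x : ℂ) ^ (-s)) =
      ((T * x ^ (-(1 / 2) : ℝ) * φ (T * Real.log x) : ℝ) : ℂ) := by
  obtain ⟨ψ, hψ⟩ : ∃ ψ : ℝ → ℂ, ψ = fun v => (φ v : ℂ) * cexp (v / T) := ⟨_, rfl⟩
  have ha : 0 < 2 * π * T := by positivity
  have hT' : (T : ℂ) ≠ 0 := ofReal_ne_zero.2 hT.ne'
  have hπ : (π : ℂ) ≠ 0 := ofReal_ne_zero.2 Real.pi_ne_zero
  have h1 : ∀ t : ℝ, wf φ T (3 / 2 + t * I) = iF ψ (t / (2 * π * T)) := fun t => by
    refine integral_congr_ae (ae_of_all _ fun v => ?_)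
    simp only [hψ, ee, mul_assoc (φ v : ℂ), ← Complex.exp_add]
    congr 2
    push_cast
    field_simp
    ring
  have hc : Continuous ψ := by
    have := h.continuous
    rw [hψ]
    fun_prop
  have hi : Integrable ψ := by
    refine hc.integrable_of_hasCompactSupport ?_
    rw [hψ]
    exact (h.cs.comp_left (g := fun r : ℝ => (r : ℂ)) ofReal_zero).mul_right
  have hi' : Integrable (iF ψ) := by
    refine (integrable_comp_div_iff _ ha.ne').1 ?_
    simp only [← h1]
    exact InvAux.lint_wf h hT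
  have h2 : ∀ t : ℝ, wf φ T (3 / 2 + t * I) * (x : ℂ) ^ (-(3 / 2 + t * I)) =
      cexp (-(3 / 2) * Real.log x) * (fun y => iF ψ y * ee (y * -(T * Real.log x)))
        (t / (2 * π * T)) := fun t => by
    rw [h1, InvAux.cpow_eq hx, mul_left_comm, ee, ← Complex.exp_add]
    congr 2
    push_cast
    field_simp
    ring
  have h3 := iF_iF hc hi hi' (T * Real.log x)
  rw [iF] at h3
  simp only [LI, h2]
  rw [integral_const_mul, Measure.integral_comp_div
    (fun y => iF ψ y * ee (y * -(T * Real.log x))), h3, abs_of_pos ha, hψ,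
    Real.rpow_def_of_pos hx]
  simp only [real_smul]
  push_cast
  rw [mul_div_cancel_left₀ _ hT', show (Real.log x : ℂ) * -(1 / 2) =
    -(3 / 2) * Real.log x + Real.log x by ring, Complex.exp_add]
  field_simp

/-- Interchange of a Dirichlet series, a Dirichlet polynomial and the line integral. -/
theorem LI_series {w : ℂ → ℂ} (hw : LInt w) (b : ℕ → ℂ) {c : AF}
    (hc : LSeriesSummable c (3 / 2)) (N : ℕ) :
    LInt (fun s => w s * LSeries c s * dp b N (1 - s)) ∧
    LI (fun s => w s * LSeries c s * dp b N (1 - s)) = ∑ k ∈ Finset.Icc 1 N, b k / k *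
      ∑' m : ℕ, c m * LI fun s => w s * (((m : ℝ) / k : ℝ) : ℂ) ^ (-s) := by
  have hW : ∀ k ∈ Finset.Icc 1 N, Integrable fun t : ℝ =>
      (k : ℂ) ^ (-(1 - (3 / 2 + t * I : ℂ))) * w (3 / 2 + t * I) := fun k hk => by
    have hk' : 0 < k := (Finset.mem_Icc.1 hk).1
    refine Integrable.bdd_mul (c := (k : ℝ) ^ (1 / 2 : ℝ)) hw (Continuous.aestronglyMeasurable
      (Continuous.const_cpow (by fun_prop) (Or.inl (Nat.cast_ne_zero.2 hk'.ne'))))
      (ae_of_all _ fun t => ?_)
    rw [Complex.norm_natCast_cpow_of_pos hk']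
    norm_num
  have e : ∀ t : ℝ, w (3 / 2 + t * I) * LSeries c (3 / 2 + t * I) * dp b N (1 - (3 / 2 + t * I)) =
      ∑ k ∈ Finset.Icc 1 N, b k * (LSeries c (3 / 2 + t * I) *
        ((k : ℂ) ^ (-(1 - (3 / 2 + t * I : ℂ))) * w (3 / 2 + t * I))) := fun t => by
    rw [dp, Finset.mul_sum]
    exact Finset.sum_congr rfl fun k _ => by ring
  have hi := fun k hk => ((InvAux.series (hW k hk) hc).1).const_mul (b k)
  simp only [LInt, LI, e]
  refine ⟨integrable_finsetSum _ hi, ?_⟩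
  rw [integral_finsetSum _ hi, Finset.sum_div]
  refine Finset.sum_congr rfl fun k hk => ?_
  have hk' : (0 : ℝ) < k := Nat.cast_pos.2 (Finset.mem_Icc.1 hk).1
  rw [integral_const_mul, ← (InvAux.series (hW k hk) hc).2.tsum_eq, mul_div_assoc,
    ← tsum_div_const, div_eq_mul_inv (b k), mul_assoc, ← tsum_mul_left (a := (k : ℂ)⁻¹)]
  congr 2
  funext m
  rw [← mul_div_assoc, ← mul_div_assoc, ← integral_const_mul, ← integral_const_mul]
  congr 2
  funext t
  rcases eq_or_ne m 0 with rfl | hm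
  · simp
  · have hm' : (0 : ℝ) < m := Nat.cast_pos.2 (Nat.pos_of_ne_zero hm)
    rw [LSeries.term_of_ne_zero hm, div_eq_mul_inv (c m), ← cpow_neg, ← ofReal_natCast m,
      ← cpow_neg_one, ← ofReal_natCast k, InvAux.cpow_eq hm', InvAux.cpow_eq hk',
      InvAux.cpow_eq hk', InvAux.cpow_eq (div_pos hm' hk'), Real.log_div hm'.ne' hk'.ne']
    have e1 : ∀ z₁ z₂ z₃ z₄ u v : ℂ, z₁ + z₂ = z₃ + z₄ →
        u * cexp z₁ * (cexp z₂ * v) = cexp z₃ * (u * (v * cexp z₄)) := fun z₁ z₂ z₃ z₄ u v e => by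
      linear_combination u * v * (Complex.exp_add z₃ z₄ - Complex.exp_add z₁ z₂ +
        congrArg cexp e)
    refine e1 _ _ _ _ _ _ ?_
    push_cast
    ring

theorem LI_diag {φ : ℝ → ℝ} (h : Tst φ) {R T : ℝ} (hR : ∀ v, R < |v| → φ v = 0) (hT : 0 < T)
    {a : ℕ → ℂ} (ha : ∀ n, a n ≠ 0 → R * (n + 1) < T) {c : AF} (hc : LSeriesSummable c (3 / 2))
    (N : ℕ) :
    LInt (fun s => wf φ T s * LSeries c s * dp a N (1 - s)) ∧
    LI (fun s => wf φ T s * LSeries c s * dp a N (1 - s)) =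
      T * φ 0 * ∑ n ∈ Finset.Icc 1 N, a n * c n / n := by
  obtain ⟨h1, h2⟩ := LI_series (InvAux.lint_wf h hT) a hc N
  refine ⟨h1, h2.trans ?_⟩
  rw [Finset.mul_sum]
  refine Finset.sum_congr rfl fun k hk => ?_
  have hk1 := (Finset.mem_Icc.1 hk).1
  have hk' : (0 : ℝ) < k := Nat.cast_pos.2 hk1
  by_cases h0 : a k = 0
  · simp [h0]
  rw [tsum_eq_single k, div_self hk'.ne', LI_wf_cpow h hT one_pos]
  · simp only [Real.one_rpow, Real.log_one, mul_zero, mul_one, ofReal_mul]
    ring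
  · intro m hm
    rcases Nat.eq_zero_or_pos m with rfl | hm0
    · simp
    · have h3 := InvAux.log_gap hm0 hk1 hm
      rw [LI_wf_cpow h hT (div_pos (Nat.cast_pos.2 hm0) hk'), hR]
      · simp
      · rw [abs_mul, abs_of_pos hT]
        refine lt_of_lt_of_le ?_ (mul_le_mul_of_nonneg_left h3 hT.le)
        rw [mul_one_div, lt_div_iff₀ (by positivity)]
        exact ha k h0

end Pool.Agent.P.MP_7eacff_nt.SZ
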