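import Pool.Agent.P.MP_7eacff_nt.SZ.HProp
import Pool.Agent.P.MP_7eacff_nt.SZ.Inv
import Pool.Agent.P.MP_7eacff_nt.SZ.Gasym
import Pool.Agent.P.MP_7eacff_nt.SZ.Comb
import Pool.Agent.P.MP_7eacff_nt.SZ.Diag

/-!
The mean square twisted by the logarithmic derivative.
-/

open Complex Filter Topology MeasureTheory Set
open scoped Real ContDiff

namespace Pool.Agent.P.MP_7eacff_nt.SZ

open Pool.Agent.Lib.LargeSieve (primSet mem_primSet)

variable {θ η : ℝ} {φ F κ : ℝ → ℝ}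

namespace MomZAux

theorem ls_mul {f g : AF} {s : ℂ} (hf : LSeriesSummable f s) (hg : LSeriesSummable g s) :
    LSeriesSummable (f * g : AF) s ∧ LSeries (f * g : AF) s = LSeries f s * LSeries g s :=
  ⟨ArithmeticFunction.LSeriesSummable_mul hf hg, ArithmeticFunction.LSeries_mul' hf hg⟩

theorem integrand (h : Adm θ η F κ) (hφ : Tst φ) : ∀ᶠ T : ℝ in atTop, ∀ s : ℂ, s.re = 3 / 2 →
    s * (1 - s) * H0 φ F κ T s * LSeries vm s =
      wf ((opT T)^[3] φ) T s * LSeries (fF F κ T * vm : AF) s * dp (aA κ T) ⌊T⌋₊ (1 - s) +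
      (1 / (Real.log T : ℝ) * (wf ((opT T)^[3] φ) T s * deriv chi s *
        LSeries (fF F κ T * lg : AF) s * dp (bF F T) ⌊T⌋₊ (1 - s)) +
      -1 / (Real.log T : ℝ) * (wf ((opT T)^[3] φ) T s * chi s *
        LSeries (fF F κ T * lg * vm : AF) s * dp (bF F T) ⌊T⌋₊ (1 - s))) := by
  filter_upwards [Fe_right h, eventually_gt_atTop (0 : ℝ)] with T hT hT0 s hs
  have hs1 : 1 < s.re := by rw [hs]; norm_num
  obtain ⟨-, -, hf, -, -, hFe⟩ := hT s hs1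
  have hv := (LSeries_vm hs1).1
  have hl := (LSeries_lg hs1).1
  have hu := (LSeries_un hs1).1
  have e1 : LSeries lg s = LSeries vm s * LSeries un s := by
    rw [← vm_mul_un]
    exact (ls_mul hv hu).2
  have hT1 : (T : ℂ) ≠ 0 := by exact_mod_cast hT0.ne'
  rw [(ls_mul (ls_mul hf hl).1 hv).2, (ls_mul hf hl).2, (ls_mul hf hv).2,
    wf_opT_iter hφ hT0.ne', H0, hFe, Fe_left F κ T hs1]
  have e2 : (s * (1 - s) / T ^ 2) ^ 3 = (s * (1 - s)) ^ 3 / T ^ 6 := by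
    rw [div_pow, ← pow_mul]
  rw [e2, e1]
  ring

end MomZAux

open MomZAux

theorem ev_diag (h : Adm θ η F κ) (R : ℝ) :
    ∀ᶠ T : ℝ in atTop, ∀ n, aA κ T n ≠ 0 → R * (n + 1) < T := by
  have hη1 : 0 ≤ 1 - η := by linarith [h.hθ, h.hθη, h.hη]
  filter_upwards [supp_aA hη1 h.sκ, ev_log_pow_le (2 * |R| + 1) 0 h.hη,
    eventually_ge_atTop (1 : ℝ)] with T hs hδ hT n hn
  have hT0 : 0 < T := by linarith
  have h1 : (n : ℝ) ≤ T ^ (1 - η) := not_lt.1 fun hlt => hn (hs n hlt)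
  have h2 : 1 ≤ T ^ (1 - η) := Real.one_le_rpow hT hη1
  have h3 : T = T ^ η * T ^ (1 - η) := by rw [← Real.rpow_add hT0]; simp
  rw [pow_zero, mul_one] at hδ
  have h4 : R * (n + 1) ≤ |R| * (2 * T ^ (1 - η)) :=
    mul_le_mul (le_abs_self R) (by linarith) (by positivity) (abs_nonneg R)
  have h5 : (2 * |R| + 1) * T ^ (1 - η) ≤ T ^ η * T ^ (1 - η) :=
    mul_le_mul_of_nonneg_right hδ (by linarith)
  rw [← h3] at h5
  linarith

theorem mom_Z (h : Adm θ η F κ) (hφ : Tst φ) (he : Function.Even φ) :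
    Tendsto (fun T : ℝ => LI (fun s => s * (1 - s) * H0 φ F κ T s * LSeries vm s) /
      (T * Real.log T : ℝ)) atTop (𝓝 ((-(top^[3] φ 0 * qZ F κ) : ℝ) : ℂ)) := by
  have hθ : θ < 1 / 2 := by linarith [h.hθη, h.hη]
  have hb : Moll θ (bF F) := moll_bF h.tF h.sF
  obtain ⟨R, -, hR⟩ := hφ.radius
  obtain ⟨m₃, e₃, l₃⟩ := comb_three h
  obtain ⟨m₄, e₄, l₄⟩ := comb_four h
  have t2 := G_deriv_chi hφ he (k := 3) (by norm_num) hθ hb m₃ e₃ l₃
  have t3 := G_chi hφ he (k := 3) (by norm_num) hθ hb m₄ e₄ l₄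
  have t0 : Tendsto (fun T : ℝ => (((opT T)^[3] φ 0 : ℝ) : ℂ)) atTop
      (𝓝 ((top^[3] φ 0 : ℝ) : ℂ)) :=
    (continuous_ofReal.tendsto _).comp (tendsto_opT_iter hφ 3 0)
  have t1 := t0.mul (diag_three h)
  have t := t1.add (t2.sub t3)
  have e : ((-(top^[3] φ 0 * qZ F κ) : ℝ) : ℂ) =
      (top^[3] φ 0 : ℝ) * ((-2 * a0 κ * ip fun v => v * κ v : ℝ) : ℂ) +
        (((top^[3] φ 0 * (a0 κ * F 0 - 2 * m3 F κ + m6 F) : ℝ) : ℂ) -
          ((top^[3] φ 0 * (a0 κ * m2 F - 2 * m4 F κ + m7 F) : ℝ) : ℂ)) := by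
    rw [← ofReal_mul, ← ofReal_sub, ← ofReal_add, qZ]
    congr 1
    ring
  rw [e]
  refine t.congr' ?_
  filter_upwards [integrand h hφ, ev_diag h R, Fe_right h, eventually_gt_atTop (1 : ℝ),
    m₃.summable, m₄.summable] with T hI hD hF hT s₃ s₄
  have hT0 : 0 < T := by linarith
  have hw := hφ.opT_iter T 3
  have h32 : 1 < (3 / 2 : ℂ).re := by norm_num
  have s₁ := (ls_mul (hF _ h32).2.2.1 (LSeries_vm h32).1).1
  obtain ⟨i1, v1⟩ := LI_diag hw (opT_iter_eq_zero hR T 3) hT0 hD s₁ ⌊T⌋₊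
  have i2 := (LI_deriv_chi_sum hw hT0 (bF F T) s₃).1
  have i3 := (LI_chi_sum hw hT0 (bF F T) s₄).1
  rw [LI_congr hI, LI_add i1 ((i2.const_mul _).add (i3.const_mul _)),
    LI_add (i2.const_mul _) (i3.const_mul _), LI_const_mul, LI_const_mul, v1]
  have hT1 : (T : ℂ) ≠ 0 := by exact_mod_cast hT0.ne'
  have hL : ((Real.log T : ℝ) : ℂ) ≠ 0 := by exact_mod_cast (Real.log_pos hT).ne'
  simp only [ofReal_mul, ofReal_pow]
  field_simp
  ring

end Pool.Agent.P.MP_7eacff_nt.SZ
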