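import Pool.Agent.P.MP_7eacff_nt.SZ.HProp
import Pool.Agent.P.MP_7eacff_nt.SZ.Inv
import Pool.Agent.P.MP_7eacff_nt.SZ.Gasym
import Pool.Agent.P.MP_7eacff_nt.SZ.Comb
import Pool.Agent.P.MP_7eacff_nt.SZ.Diag
import Pool.Agent.P.MP_7eacff_nt.SZ.MomZ

/-!
The mean square on the critical line.
-/

open Complex Filter Topology MeasureTheory Set
open scoped Real ContDiff

namespace Pool.Agent.P.MP_7eacff_nt.SZ

open Pool.Agent.Lib.LargeSieve (primSet mem_primSet)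

variable {θ η : ℝ} {φ F κ : ℝ → ℝ}

namespace MomMAux

theorem cross (hφ : Tst φ) (he : Function.Even φ) {T : ℝ} (hT : 0 < T) {P : ℂ → ℂ}
    (hd : Differentiable ℂ P) (hp : PolyG P (-(1 / 2)) (3 / 2)) :
    LInt (fun s => wf φ T s * P (1 - s)) ∧
      LI (fun s => wf φ T s * P (1 - s)) = LI fun s => wf φ T s * P s := by
  constructor
  · refine Dec.lint (Dec.mul_poly (dec_wf hφ hT _ _)
      (hp.one_sub.mono (by norm_num) (by norm_num)) 2) ?_
    exact ((differentiable_wf hφ T).continuous.comp (by fun_prop)).mul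
      (hd.continuous.comp (by fun_prop))
  · rw [← LI_reflect (f := fun s => wf φ T s * P s) ((differentiable_wf hφ T).mul hd)
      (Dec.mul_poly (dec_wf hφ hT _ _) hp 2)]
    simp only [wf_one_sub he]

theorem split (hφ : Tst φ) (he : Function.Even φ) (j : ℕ) {T : ℝ} (hT : 0 < T)
    (h1 : ∀ s : ℂ, 1 < s.re → LSeriesSummable (bF F T) s ∧
      LSeries (aA κ T) s = dp (aA κ T) ⌊T⌋₊ s ∧ LSeries (bF F T) s = dp (bF F T) ⌊T⌋₊ s)
    (i1 : LInt fun s => wf ((opT T)^[j + 3] φ) T s * LSeries (aA κ T) s *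
      dp (aA κ T) ⌊T⌋₊ (1 - s))
    (i2 : LInt fun s => wf ((opT T)^[j + 3] φ) T s * LSeries (bF F T * lg : AF) s *
      dp (aA κ T) ⌊T⌋₊ (1 - s))
    (i3 : LInt fun s => wf ((opT T)^[j + 3] φ) T s * deriv chi s *
      LSeries (bF F T * un * lg : AF) s * dp (bF F T) ⌊T⌋₊ (1 - s))
    (i4 : LInt fun s => wf ((opT T)^[j + 3] φ) T s * chi s *
      LSeries (bF F T * lg * lg : AF) s * dp (bF F T) ⌊T⌋₊ (1 - s)) :
    LI (fun s => (s * (1 - s)) ^ (j + 1) * H0 φ F κ T s) = (T : ℂ) ^ (2 * j) *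
      (LI (fun s => wf ((opT T)^[j + 3] φ) T s * LSeries (aA κ T) s * dp (aA κ T) ⌊T⌋₊ (1 - s)) +
        2 / (Real.log T : ℝ) * LI (fun s => wf ((opT T)^[j + 3] φ) T s *
          LSeries (bF F T * lg : AF) s * dp (aA κ T) ⌊T⌋₊ (1 - s)) +
        1 / (Real.log T : ℝ) ^ 2 * (LI (fun s => wf ((opT T)^[j + 3] φ) T s * deriv chi s *
          LSeries (bF F T * un * lg : AF) s * dp (bF F T) ⌊T⌋₊ (1 - s)) -
          LI fun s => wf ((opT T)^[j + 3] φ) T s * chi s *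
            LSeries (bF F T * lg * lg : AF) s * dp (bF F T) ⌊T⌋₊ (1 - s))) := by
  have hT' : (T : ℂ) ≠ 0 := ofReal_ne_zero.2 hT.ne'
  have hw : ∀ s : ℂ, wf ((opT T)^[j + 3] φ) T s = (s * (1 - s)) ^ (j + 1) * (s * (1 - s)) ^ 2 /
      ((T : ℂ) ^ (2 * j) * T ^ 6) * wf φ T s := fun s => by
    rw [wf_opT_iter hφ hT.ne', div_pow, ← pow_mul, ← pow_add, ← pow_add]
    rfl
  have ht : (T : ℂ) ^ (2 * j) ≠ 0 := pow_ne_zero _ hT'
  have m2 : ∀ s : ℂ, 1 < s.re →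
      LSeries (bF F T * lg : AF) s = dp (bF F T) ⌊T⌋₊ s * -deriv riemannZeta s := fun s hs => by
    rw [← (h1 s hs).2.2, ← (LSeries_lg hs).2]
    exact ArithmeticFunction.LSeries_mul' (h1 s hs).1 (LSeries_lg hs).1
  have m3 : ∀ s : ℂ, 1 < s.re → LSeries (bF F T * un * lg : AF) s =
      dp (bF F T) ⌊T⌋₊ s * riemannZeta s * -deriv riemannZeta s := fun s hs => by
    rw [← (h1 s hs).2.2, ← (LSeries_lg hs).2, ← (LSeries_un hs).2,
      ← ArithmeticFunction.LSeries_mul' (h1 s hs).1 (LSeries_un hs).1]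
    exact ArithmeticFunction.LSeries_mul'
      (ArithmeticFunction.LSeriesSummable_mul (h1 s hs).1 (LSeries_un hs).1) (LSeries_lg hs).1
  have m4 : ∀ s : ℂ, 1 < s.re → LSeries (bF F T * lg * lg : AF) s =
      dp (bF F T) ⌊T⌋₊ s * -deriv riemannZeta s * -deriv riemannZeta s := fun s hs => by
    rw [← m2 s hs, ← (LSeries_lg hs).2]
    exact ArithmeticFunction.LSeries_mul'
      (ArithmeticFunction.LSeriesSummable_mul (h1 s hs).1 (LSeries_lg hs).1) (LSeries_lg hs).1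
  have p1 : PolyG (fun s : ℂ => 1 - s) (-(1 / 2)) (3 / 2) := (polyG_const 1 _ _).sub (polyG_id _ _)
  obtain ⟨i5, e5⟩ := cross hφ he hT (P := fun s => (s * (1 - s)) ^ (j + 1) *
    (Z2 s * dp (bF F T) ⌊T⌋₊ s) * (s ^ 2 * dp (aA κ T) ⌊T⌋₊ (1 - s)))
    (by
      have d1 := differentiable_Z2
      have d2 := differentiable_dp (bF F T) ⌊T⌋₊
      have d3 := differentiable_dp (aA κ T) ⌊T⌋₊
      fun_prop)
    (((((polyG_id _ _).mul p1).pow _).mul (polyG_Z2.mul (polyG_dp _ _ _ _))).mul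
      (((polyG_id _ _).pow 2).mul
        ((polyG_dp _ _ (-(1 / 2)) (3 / 2)).one_sub.mono (by norm_num) (by norm_num))))
  have hne : ∀ s : ℂ, s.re = 3 / 2 → 1 < s.re ∧ s ≠ 1 ∧ 1 - s ≠ 1 := fun s hs => by
    refine ⟨by rw [hs]; norm_num, ?_, ?_⟩
    · rintro rfl
      norm_num at hs
    · rw [Ne, sub_eq_self]
      rintro rfl
      norm_num at hs
  have e6 : LI (fun s => wf φ T s * ((s * (1 - s)) ^ (j + 1) * (Z2 s * dp (bF F T) ⌊T⌋₊ s) *
      (s ^ 2 * dp (aA κ T) ⌊T⌋₊ (1 - s)))) = -((T : ℂ) ^ (2 * j) * T ^ 6) *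
        LI fun s => wf ((opT T)^[j + 3] φ) T s * LSeries (bF F T * lg : AF) s *
          dp (aA κ T) ⌊T⌋₊ (1 - s) := by
    rw [← LI_const_mul]
    refine LI_congr fun s hs => ?_
    rw [hw, m2 s (hne s hs).1, Z2_eq (hne s hs).2.1]
    generalize (s * (1 - s)) ^ (j + 1) = u
    generalize (T : ℂ) ^ (2 * j) = t at ht
    field_simp
    ring
  rw [e6] at e5
  generalize hc : (((Real.log T : ℝ) : ℂ))⁻¹ = c
  have j1 := i1.const_mul ((T : ℂ) ^ (2 * j))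
  have j2 := i2.const_mul ((T : ℂ) ^ (2 * j) * c)
  have j3 := i3.const_mul ((T : ℂ) ^ (2 * j) * c ^ 2)
  have j4 := i4.const_mul (-((T : ℂ) ^ (2 * j) * c ^ 2))
  have j5 := i5.const_mul (-(c / T ^ 6))
  have a := LI_add (((j1.add j2).add j3).add j4) j5
  rw [LI_add ((j1.add j2).add j3) j4, LI_add (j1.add j2) j3, LI_add j1 j2, LI_const_mul,
    LI_const_mul, LI_const_mul, LI_const_mul, LI_const_mul, e5] at a
  refine (LI_congr fun s hs => ?_).trans (a.trans ?_)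
  · obtain ⟨k1, k2, k3⟩ := hne s hs
    simp only [H0, Fe, div_eq_mul_inv _ ((Real.log T : ℝ) : ℂ), hc, sub_sub_cancel,
      mul_comm (1 - s) s]
    rw [hw, m2 s k1, m3 s k1, m4 s k1, (h1 s k1).2.1, Z2_eq k2, Z2_eq k3, deriv_zeta_one_sub k1]
    generalize (s * (1 - s)) ^ (j + 1) = u
    generalize (T : ℂ) ^ (2 * j) = t at ht
    field_simp
    ring
  · rw [div_eq_mul_inv 2, one_div, ← inv_pow, hc]
    field_simp
    ring

end MomMAux

theorem mom_M (h : Adm θ η F κ) (hφ : Tst φ) (he : Function.Even φ) (j : ℕ) :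
    Tendsto (fun T : ℝ => LI (fun s => (s * (1 - s)) ^ (j + 1) * H0 φ F κ T s) /
      (T * T ^ (2 * j) : ℝ)) atTop (𝓝 ((top^[j + 3] φ 0 * qM F κ : ℝ) : ℂ)) := by
  obtain ⟨R, -, hR⟩ := hφ.radius
  have hθ : θ < 1 / 2 := by linarith [h.hθη, h.hη]
  have hb := moll_bF h.tF h.sF
  have hk : 1 ≤ j + 3 := by omega
  have l0 : Tendsto (fun T => (((opT T)^[j + 3] φ 0 : ℝ) : ℂ)) atTop
      (𝓝 ((top^[j + 3] φ 0 : ℝ) : ℂ)) :=
    (continuous_ofReal.tendsto _).comp (tendsto_opT_iter hφ (j + 3) 0)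
  have l3 := G_deriv_chi hφ he hk hθ hb (comb_one h).1 (comb_one h).2 (mlim_five h)
  have l4 := G_chi hφ he hk hθ hb (comb_two h).1 (comb_two h).2 (mlim_six h)
  have l := (((l0.mul (diag_one h)).add ((l0.mul (diag_two h)).const_mul 2)).add l3).sub l4
  convert l.congr' ?_ using 2
  · simp only [qM]
    push_cast
    ring
  · filter_upwards [Fe_right h, ev_diag h R, eventually_gt_atTop 1] with T h1 h2 h3
    have hT : 0 < T := one_pos.trans h3
    have hs : 1 < (3 / 2 : ℂ).re := by norm_num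
    have hT' : (T : ℂ) ≠ 0 := ofReal_ne_zero.2 hT.ne'
    have hL : ((Real.log T : ℝ) : ℂ) ≠ 0 := ofReal_ne_zero.2 (Real.log_pos h3).ne'
    have hφ' := hφ.opT_iter T (j + 3)
    have hR' := opT_iter_eq_zero hR T (j + 3)
    have s2 : LSeriesSummable (bF F T * lg : AF) (3 / 2) :=
      ArithmeticFunction.LSeriesSummable_mul (h1 _ hs).2.1 (LSeries_lg hs).1
    have s3 : LSeriesSummable (bF F T * un * lg : AF) (3 / 2) :=
      ArithmeticFunction.LSeriesSummable_mul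
        (ArithmeticFunction.LSeriesSummable_mul (h1 _ hs).2.1 (LSeries_un hs).1) (LSeries_lg hs).1
    have s4 : LSeriesSummable (bF F T * lg * lg : AF) (3 / 2) :=
      ArithmeticFunction.LSeriesSummable_mul s2 (LSeries_lg hs).1
    obtain ⟨i1, e1⟩ := LI_diag hφ' hR' hT h2 (h1 _ hs).1 ⌊T⌋₊
    obtain ⟨i2, e2⟩ := LI_diag hφ' hR' hT h2 s2 ⌊T⌋₊
    rw [MomMAux.split hφ he j hT
      (fun s hs => ⟨(h1 s hs).2.1, (h1 s hs).2.2.2.1, (h1 s hs).2.2.2.2.1⟩) i1 i2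
      (LI_deriv_chi_sum hφ' hT _ s3).1 (LI_chi_sum hφ' hT _ s4).1, e1, e2]
    simp only [ofReal_mul, ofReal_pow]
    generalize ((Real.log T : ℝ) : ℂ) = L at hL
    field_simp
    ring

end Pool.Agent.P.MP_7eacff_nt.SZ
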