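import Pool.Agent.P.MP_7eacff_nt.SZ.Defs2

/-!
Derivatives at the ends of short gaps between zeros.
-/

open Complex Filter Topology MeasureTheory Set
open scoped Real ContDiff

namespace Pool.Agent.P.MP_7eacff_nt.SZ

open Pool.Agent.Lib.LargeSieve (primSet mem_primSet)

namespace RolleAux

theorem sq_int_le {f : ℝ → ℝ} (hf : Continuous f) {a b : ℝ} (hab : a < b) :
    (∫ t in a..b, f t) ^ 2 ≤ (b - a) * ∫ t in a..b, f t ^ 2 := by
  have h0 : 0 < b - a := sub_pos.2 hab
  set A := ∫ t in a..b, f t with hA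
  have h1 : 0 ≤ ∫ t in a..b, ((b - a) * f t - A) ^ 2 :=
    intervalIntegral.integral_nonneg hab.le fun t _ => sq_nonneg _
  have h2 : ∀ t, ((b - a) * f t - A) ^ 2 =
      (b - a) ^ 2 * f t ^ 2 - 2 * (b - a) * A * f t + A ^ 2 := fun t => by ring
  simp only [h2] at h1
  rw [intervalIntegral.integral_add (Continuous.intervalIntegrable (by fun_prop) _ _)
    (Continuous.intervalIntegrable (by fun_prop) _ _), intervalIntegral.integral_sub
    (Continuous.intervalIntegrable (by fun_prop) _ _)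
    (Continuous.intervalIntegrable (by fun_prop) _ _), intervalIntegral.integral_const_mul,
    intervalIntegral.integral_const_mul, intervalIntegral.integral_const, smul_eq_mul, ← hA] at h1
  refine le_of_mul_le_mul_left ?_ h0
  linarith

theorem sum_ind {E X : Finset ℕ} (h : X ⊆ E) :
    ∑ i ∈ E, (((if i ∈ X then 1 else 0 : ℕ)) : ℝ) = X.card := by
  rw [← Nat.cast_sum, Finset.sum_ite_mem, Finset.inter_eq_right.2 h]
  simp

theorem hasDerivAt_line {Φ : ℂ → ℂ} (hΦ : Differentiable ℂ Φ) (t : ℝ) :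
    HasDerivAt (fun t : ℝ => Φ (1 / 2 + t * I)) (deriv Φ (1 / 2 + t * I) * I) t := by
  have h1 : HasDerivAt (fun s : ℂ => 1 / 2 + s * I) I (t : ℂ) := by
    simpa using ((hasDerivAt_id (t : ℂ)).mul_const I).const_add (1 / 2)
  exact ((hΦ (1 / 2 + t * I)).hasDerivAt.comp (t : ℂ) h1).comp_ofReal

end RolleAux

theorem rolle_sq {g g' g'' : ℝ → ℂ} (h1 : ∀ t, HasDerivAt g (g' t) t)
    (h2 : ∀ t, HasDerivAt g' (g'' t) t) (hc : Continuous g'') {a b x : ℝ} (hab : a < b)
    (ha : g a = 0) (hb : g b = 0) (hx : x ∈ Icc a b) :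
    ‖g' x‖ ^ 2 ≤ (b - a) * ∫ t in a..b, ‖g'' t‖ ^ 2 := by
  have h3 : ∀ u v, a ≤ u → u ≤ v → v ≤ b → ‖g' v - g' u‖ ≤ ∫ t in a..b, ‖g'' t‖ := by
    intro u v hu huv hv
    rw [← intervalIntegral.integral_eq_sub_of_hasDerivAt (fun t _ => h2 t)
      (hc.intervalIntegrable u v)]
    exact (intervalIntegral.norm_integral_le_integral_norm huv).trans
      (intervalIntegral.integral_mono_interval hu huv hv
        (Eventually.of_forall fun t => norm_nonneg _) (hc.norm.intervalIntegrable a b))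
  have h4 : Continuous g' := continuous_iff_continuousAt.2 fun t => (h2 t).continuousAt
  have h5 : ∫ t in a..b, (g' x - g' t) = (b - a) • g' x := by
    rw [intervalIntegral.integral_sub intervalIntegrable_const (h4.intervalIntegrable a b),
      intervalIntegral.integral_eq_sub_of_hasDerivAt (fun t _ => h1 t)
      (h4.intervalIntegrable a b), ha, hb, intervalIntegral.integral_const, sub_self, sub_zero]
  have h6 := intervalIntegral.norm_integral_le_of_norm_le_const (a := a) (b := b)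
    (C := ∫ t in a..b, ‖g'' t‖) (f := fun t => g' x - g' t) fun t ht => by
      rw [uIoc_of_le hab.le] at ht
      rcases le_total t x with h | h
      · exact h3 t x ht.1.le h hx.2
      · rw [norm_sub_rev]
        exact h3 x t hx.1 h ht.2
  have h0 : 0 < b - a := sub_pos.2 hab
  rw [h5, norm_smul, Real.norm_eq_abs, abs_of_pos h0, mul_comm] at h6
  exact (pow_le_pow_left₀ (norm_nonneg _) (le_of_mul_le_mul_right h6 h0) 2).trans
    (RolleAux.sq_int_le hc.norm hab)

theorem sum_deriv_sq_le {Φ : ℂ → ℂ} (hΦ : Differentiable ℂ Φ)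
    (hi : Integrable fun t : ℝ => ‖deriv (deriv Φ) (1 / 2 + t * I)‖ ^ 2) {γ : ℕ → ℝ}
    (hm : Monotone γ) (hz : ∀ n, Φ (1 / 2 + γ n * I) = 0)
    (hd : ∀ n, γ (n + 1) = γ n → deriv Φ (1 / 2 + γ n * I) = 0) (S : Finset ℕ) {g : ℝ}
    (hg : 0 ≤ g) (hS : ∀ n ∈ S, γ (n + 1) - γ n ≤ g) :
    ∑ i ∈ ends S, ‖deriv Φ (1 / 2 + γ i * I)‖ ^ 2 ≤ 2 * g * msq (deriv (deriv Φ)) (1 / 2) := by
  have d1 : Differentiable ℂ (deriv Φ) := hΦ.deriv
  have d2 : Continuous (deriv (deriv Φ)) := d1.deriv.continuous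
  have h0 : ∀ n, 0 ≤ ∫ t in γ n..γ (n + 1), ‖deriv (deriv Φ) (1 / 2 + t * I)‖ ^ 2 := fun n =>
    intervalIntegral.integral_nonneg (hm n.le_succ) fun t _ => sq_nonneg _
  have h1 : ∀ n ∈ S, ∀ x ∈ Icc (γ n) (γ (n + 1)), ‖deriv Φ (1 / 2 + x * I)‖ ^ 2 ≤
      g * ∫ t in γ n..γ (n + 1), ‖deriv (deriv Φ) (1 / 2 + t * I)‖ ^ 2 := by
    intro n hn x hx
    rcases (hm n.le_succ).eq_or_lt with e | e
    · have e2 : x = γ n := le_antisymm (hx.2.trans e.ge) hx.1
      rw [e2, hd n e.symm, norm_zero, zero_pow two_ne_zero]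
      exact mul_nonneg hg (h0 n)
    · have a1 := rolle_sq (RolleAux.hasDerivAt_line hΦ)
        (fun t => (RolleAux.hasDerivAt_line d1 t).mul_const I) (by fun_prop) e (hz n)
        (hz (n + 1)) hx
      simp only [norm_mul, norm_I, mul_one] at a1
      exact a1.trans (mul_le_mul_of_nonneg_right (hS n hn) (h0 n))
  obtain ⟨N, hN⟩ := S.exists_nat_subset_range
  have h2 : ∑ n ∈ S, ∫ t in γ n..γ (n + 1), ‖deriv (deriv Φ) (1 / 2 + t * I)‖ ^ 2 ≤
      msq (deriv (deriv Φ)) (1 / 2) := by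
    refine (Finset.sum_le_sum_of_subset_of_nonneg hN fun n _ _ => h0 n).trans ?_
    rw [intervalIntegral.sum_integral_adjacent_intervals fun k _ => hi.intervalIntegrable,
      intervalIntegral.integral_of_le (hm (Nat.zero_le N))]
    exact setIntegral_le_integral hi (Eventually.of_forall fun t => sq_nonneg _)
  have h3 := Finset.sum_union_inter (s₁ := S) (s₂ := S.image fun n => n + 1)
    (f := fun i => ‖deriv Φ (1 / 2 + γ i * I)‖ ^ 2)
  rw [Finset.sum_image fun a _ b _ h => Nat.succ_injective h] at h3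
  have h4 := Finset.sum_le_sum fun n hn => h1 n hn _ (left_mem_Icc.2 (hm n.le_succ))
  have h5 := Finset.sum_le_sum fun n hn => h1 n hn _ (right_mem_Icc.2 (hm n.le_succ))
  rw [← Finset.mul_sum] at h4 h5
  have h6 : 0 ≤ ∑ i ∈ S ∩ S.image fun n => n + 1, ‖deriv Φ (1 / 2 + γ i * I)‖ ^ 2 :=
    Finset.sum_nonneg fun _ _ => sq_nonneg _
  have h7 := mul_le_mul_of_nonneg_left h2 hg
  rw [ends]
  linarith

/-- Counting neighbours along chains of short gaps. -/
theorem chain_count {γ u : ℕ → ℝ} (hm : Monotone γ) (S : Finset ℕ) {g K e : ℝ}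
    (hS : ∀ n ∈ S, γ (n + 1) - γ n ≤ g) (hK : 1 / 6 ≤ K) (he : 0 ≤ e)
    (hu : ∀ i ∈ ends S, ∀ J : Finset ℕ, J.card ≤ 5 → (∀ j ∈ J, |γ j - γ i| ≤ 2 * g) →
      1 - 2 * K + K * J.card - e ≤ u i) :
    ((ends S).card : ℝ) ≤ 2 * S.card ∧
      2 * S.card - 4 * e * S.card ≤ ∑ i ∈ ends S, (2 * u i - 1) := by
  set S1 := S.image fun n => n + 1 with hS1
  set P := S.filter fun n => n + 1 ∈ S with hP
  set P2 := P.image fun n => n + 2 with hP2
  have m1 : ∀ i, i ∈ S1 ↔ 1 ≤ i ∧ i - 1 ∈ S := fun i => by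
    rw [hS1, Finset.mem_image]
    exact ⟨fun ⟨n, h1, h2⟩ => h2 ▸ ⟨by omega, h1⟩, fun h => ⟨i - 1, h.2, by omega⟩⟩
  have m2 : ∀ i, i ∈ P ↔ i ∈ S ∧ i + 1 ∈ S := fun i => Finset.mem_filter
  have m3 : ∀ i, i ∈ P2 → ∃ n, i = n + 2 ∧ n ∈ S ∧ n + 1 ∈ S := fun i hi => by
    obtain ⟨n, h1, h2⟩ := Finset.mem_image.1 hi
    exact ⟨n, h2.symm, (m2 n).1 h1⟩
  have s1 : P2 ⊆ S1 := fun i hi => by
    obtain ⟨n, rfl, -, h2⟩ := m3 i hi
    exact (m1 _).2 ⟨by omega, h2⟩
  have s2 : P ⊆ S := Finset.filter_subset _ _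
  have s3 : S ⊆ ends S := Finset.subset_union_left
  have s4 : S1 ⊆ ends S := Finset.subset_union_right
  have c1 : S1.card = S.card := Finset.card_image_of_injective _ Nat.succ_injective
  have c2 : P2.card = P.card := Finset.card_image_of_injective _ (add_left_injective 2)
  have c3 : (S ∩ S1).card = P.card := by
    rw [← Finset.card_image_of_injective P (add_left_injective 1)]
    congr 1
    ext i
    rw [Finset.mem_inter, m1, Finset.mem_image]
    constructor
    · rintro ⟨h1, h2, h3⟩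
      exact ⟨i - 1, (m2 _).2 ⟨h3, by rwa [Nat.sub_add_cancel h2]⟩, by omega⟩
    · rintro ⟨n, h1, rfl⟩
      exact ⟨((m2 n).1 h1).2, by omega, ((m2 n).1 h1).1⟩
  have c4 : ((ends S).card : ℝ) + P.card = S.card + S.card := by
    have := Finset.card_union_add_card_inter S S1
    rw [c3, c1] at this
    exact_mod_cast this
  have p0 : (0 : ℝ) ≤ P.card := Nat.cast_nonneg _
  refine ⟨by linarith, ?_⟩
  have key : ∀ i ∈ ends S, 1 - 2 * K - 2 * e + 2 * K *
      ((((if i ∈ S then 1 else 0 : ℕ) : ℝ) + (if i ∈ P then 1 else 0 : ℕ)) +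
        (((if i ∈ S1 then 1 else 0 : ℕ) : ℝ) + (if i ∈ P2 then 1 else 0 : ℕ))) ≤ 2 * u i - 1 := by
    intro i hi
    have hg : 0 ≤ g := by
      have : ∃ n, n ∈ S := by
        rcases Finset.mem_union.1 hi with h | h
        · exact ⟨i, h⟩
        · exact ⟨i - 1, ((m1 i).1 h).2⟩
      obtain ⟨n, hn⟩ := this
      linarith [hS n hn, hm n.le_succ]
    have hR : γ (i + ((if i ∈ S then 1 else 0) + if i ∈ P then 1 else 0)) - γ i ≤ 2 * g := by
      split_ifs with h1 h2 h2
      · linarith [hS i h1, hS (i + 1) ((m2 i).1 h2).2]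
      · linarith [hS i h1]
      · exact absurd (s2 h2) h1
      · simpa using hg
    have hL : ((if i ∈ S1 then 1 else 0) + if i ∈ P2 then 1 else 0) ≤ i ∧
        γ i - γ (i - ((if i ∈ S1 then 1 else 0) + if i ∈ P2 then 1 else 0)) ≤ 2 * g := by
      split_ifs with h1 h2 h2
      · obtain ⟨n, rfl, a1, a2⟩ := m3 i h2
        exact ⟨by omega, by simpa using by linarith [hS n a1, hS (n + 1) a2]⟩
      · obtain ⟨a1, a2⟩ := (m1 i).1 h1
        have a3 := hS _ a2
        rw [Nat.sub_add_cancel a1] at a3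
        exact ⟨a1, by simpa using by linarith⟩
      · exact absurd (s1 h2) h1
      · simpa using hg
    rw [← Nat.cast_add, ← Nat.cast_add]
    have hR2 : ((if i ∈ S then 1 else 0) + if i ∈ P then 1 else 0) ≤ 2 := by split_ifs <;> omega
    have hL2 : ((if i ∈ S1 then 1 else 0) + if i ∈ P2 then 1 else 0) ≤ 2 := by split_ifs <;> omega
    generalize ((if i ∈ S then 1 else 0) + if i ∈ P then 1 else 0) = R at hR hR2 ⊢
    generalize ((if i ∈ S1 then 1 else 0) + if i ∈ P2 then 1 else 0) = L at hL hL2 ⊢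
    have c5 : (Finset.Icc (i - L) (i + R)).card = R + L + 1 := by
      rw [Nat.card_Icc]
      omega
    have a1 := hu i hi (Finset.Icc (i - L) (i + R)) (by omega) fun j hj => by
      obtain ⟨b1, b2⟩ := Finset.mem_Icc.1 hj
      rw [abs_le]
      constructor <;> linarith [hm b1, hm b2, hL.2]
    rw [c5] at a1
    push_cast at a1
    linarith
  have h1 := Finset.sum_le_sum key
  simp only [Finset.sum_add_distrib, ← Finset.mul_sum, RolleAux.sum_ind s3, RolleAux.sum_ind s4,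
    RolleAux.sum_ind (s2.trans s3), RolleAux.sum_ind (s1.trans s4), c1, c2, Finset.sum_const,
    nsmul_eq_mul] at h1
  have e1 : ((ends S).card : ℝ) = 2 * S.card - P.card := by linarith
  rw [e1] at h1
  nlinarith [mul_nonneg p0 he, mul_nonneg p0 (sub_nonneg.2 hK)]

end Pool.Agent.P.MP_7eacff_nt.SZ
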