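import Pool.Agent.P.MP_7eacff_nt.SZ.VWR

/-!
A window that majorises the indicator function of an interval.
-/

open Complex Filter Topology MeasureTheory Set
open scoped Real ContDiff

namespace Pool.Agent.P.MP_7eacff_nt.SZ

open Pool.Agent.Lib.LargeSieve (primSet mem_primSet)

namespace WinAux

theorem conv_int {f k : ℝ → ℝ} (hf : Integrable f) (hk : Integrable k) :
    Integrable (fun u => ∫ x, f x * k (u - x)) ∧
      ∫ u, ∫ x, f x * k (u - x) = (∫ x, f x) * ∫ t, k t :=
  ⟨hf.integrable_convolution (ContinuousLinearMap.mul ℝ ℝ) hk,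
    integral_convolution (ContinuousLinearMap.mul ℝ ℝ) hf hk⟩

theorem pow_six {x t : ℝ} (hx : |x| ≤ 3) : (x + t) ^ 6 ≤ x ^ 6 + 4096 * (|t| + t ^ 6) := by
  have e : ∀ y : ℝ, y ^ 6 = |y| ^ 6 := fun y => (Even.pow_abs (by decide) y).symm
  have h1 : |x + t| ^ 6 ≤ (|x| + |t|) ^ 6 := pow_le_pow_left₀ (abs_nonneg _) (abs_add_le x t) 6
  rw [e (x + t), e x, e t]
  refine h1.trans ?_
  have ha := abs_nonneg x
  have hs := abs_nonneg t
  generalize |x| = a at *
  generalize |t| = s at *
  have hj : ∀ j, 1 ≤ j → j ≤ 6 → s ^ j ≤ s + s ^ 6 := fun j h1 h2 => by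
    rcases le_total s 1 with h | h
    · have := pow_le_pow_of_le_one hs h h1
      have := pow_nonneg hs 6
      linarith
    · have := pow_le_pow_right₀ h h2
      linarith
  have hb : ∀ i j, 1 ≤ j → j ≤ 6 → a ^ i * s ^ j ≤ 3 ^ i * (s + s ^ 6) := fun i j h1 h2 =>
    mul_le_mul (pow_le_pow_left₀ ha hx i) (hj j h1 h2) (by positivity) (by positivity)
  have h5 := hb 5 1 (by norm_num) (by norm_num)
  have h4 := hb 4 2 (by norm_num) (by norm_num)
  have h3 := hb 3 3 (by norm_num) (by norm_num)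
  have h2 := hb 2 4 (by norm_num) (by norm_num)
  have h1 := hb 1 5 (by norm_num) (by norm_num)
  have h0 := pow_nonneg hs 6
  have : (a + s) ^ 6 = a ^ 6 + 6 * (a ^ 5 * s ^ 1) + 15 * (a ^ 4 * s ^ 2) + 20 * (a ^ 3 * s ^ 3) +
      15 * (a ^ 2 * s ^ 4) + 6 * (a ^ 1 * s ^ 5) + s ^ 6 := by ring
  rw [this]
  linarith

theorem WR_const_mul (c : ℝ) (φ : ℝ → ℝ) (u : ℝ) : WR (fun v => c * φ v) u = c * WR φ u := by
  simp only [WR, mul_assoc, integral_const_mul]

theorem WR_scale (φ : ℝ → ℝ) {R : ℝ} (hR : 0 < R) (u : ℝ) :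
    WR (fun v => φ (v / R)) u = R * WR φ (R * u) := by
  have := Measure.integral_comp_div (fun v => φ v * Real.cos (R * u * v)) R
  rw [abs_of_pos hR, smul_eq_mul] at this
  rw [WR, WR, ← this]
  congr 1
  funext v
  congr 2
  field_simp

theorem int_mom {φ : ℝ → ℝ} (h : Tst φ) : Integrable fun t => (|t| + t ^ 6) * WR φ t := by
  have h6 : Integrable fun t => t ^ 6 * WR φ t :=
    (integrable_WR (h.top_iter 3)).congr (ae_of_all _ fun t => WR_top_iter h 3 t)
  have h2 : Integrable fun t => t ^ 2 * WR φ t :=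
    (integrable_WR (h.top_iter 1)).congr (ae_of_all _ fun t => WR_top_iter h 1 t)
  have h1 : Integrable fun t => |t| * WR φ t := by
    refine ((integrable_WR h).add h2).mono
      ((continuous_abs.mul (continuous_WR h)).aestronglyMeasurable) (ae_of_all _ fun t => ?_)
    have : WR φ t + t ^ 2 * WR φ t = (1 + t ^ 2) * WR φ t := by ring
    rw [Pi.add_apply, this, norm_mul, norm_mul]
    refine mul_le_mul_of_nonneg_right ?_ (norm_nonneg _)
    rw [Real.norm_eq_abs, Real.norm_eq_abs, abs_abs, abs_of_pos (by positivity : 0 < 1 + t ^ 2),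
      ← sq_abs]
    nlinarith [sq_nonneg (|t| - 1)]
  exact (h1.add h6).congr (ae_of_all _ fun t => (add_mul _ _ _).symm)

theorem kernel0 : ∃ ψ : ℝ → ℝ, Tst ψ ∧ Function.Even ψ ∧ (∀ u, 0 ≤ WR ψ u) ∧ 2 * π * ψ 0 = 1 := by
  let b : ContDiffBump (0 : ℝ) := ⟨1, 2, one_pos, one_lt_two⟩
  have hb : Tst b := ⟨b.contDiff, b.hasCompactSupport⟩
  have h0 : 0 < ac b 0 := by
    simp only [ac, add_zero]
    refine (b.continuous.mul b.continuous).integral_pos_of_hasCompactSupport_nonneg_nonzero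
      (x := 0) b.hasCompactSupport.mul_right (fun x => mul_self_nonneg _) ?_
    rw [b.one_of_mem_closedBall (Metric.mem_closedBall_self b.rIn_pos.le)]
    norm_num
  have := Real.pi_pos
  refine ⟨fun v => 1 / (2 * π * ac b 0) * ac b v, hb.auto.const_mul _,
    fun v => congrArg _ (even_ac b v), fun u => ?_, by field_simp⟩
  rw [WR_const_mul]
  exact mul_nonneg (by positivity) (WR_ac_nonneg hb u)

theorem kernel {δ : ℝ} (hδ : 0 < δ) : ∃ ψ : ℝ → ℝ, Tst ψ ∧ Function.Even ψ ∧ (∀ u, 0 ≤ WR ψ u) ∧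
    ∫ u, WR ψ u = 1 ∧ ∫ t, (|t| + t ^ 6) * WR ψ t ≤ δ := by
  obtain ⟨ψ, h, he, hp, h0⟩ := kernel0
  set m := ∫ t, (|t| + t ^ 6) * WR ψ t with hm
  have hm0 : 0 ≤ m := integral_nonneg fun t => mul_nonneg (by positivity) (hp t)
  set R := 1 + m / δ with hR
  have hR1 : 1 ≤ R := le_add_of_nonneg_right (by positivity)
  have hR0 : 0 < R := by linarith
  have ht : Tst fun v => ψ (v / R) :=
    ⟨h.cd.comp (contDiff_id.div_const R),
      h.cs.comp_homeomorph (Homeomorph.mulRight₀ R⁻¹ (inv_ne_zero hR0.ne'))⟩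
  have he' : Function.Even fun v => ψ (v / R) := fun v => by
    simp only [neg_div]
    exact he _
  refine ⟨_, ht, he', fun u => ?_, ?_, ?_⟩
  · rw [WR_scale _ hR0]
    exact mul_nonneg hR0.le (hp _)
  · rw [integral_WR ht he', zero_div, h0]
  · have h1 := Measure.integral_comp_mul_left (fun t => (|t| + t ^ 6) * WR ψ t) R
    rw [abs_of_pos (inv_pos.2 hR0), smul_eq_mul, ← hm] at h1
    have h2 : R⁻¹ * m ≤ δ := by
      rw [inv_mul_le_iff₀ hR0, hR, add_mul, div_mul_cancel₀ _ hδ.ne']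
      linarith
    refine le_trans (integral_mono (int_mom ht) ((int_mom h).comp_mul_left' hR0.ne') fun t => ?_)
      (h1.trans_le h2)
    simp only [WR_scale _ hR0]
    rw [← mul_assoc]
    refine mul_le_mul_of_nonneg_right ?_ (hp _)
    rw [abs_mul, abs_of_pos hR0, mul_pow, add_mul, mul_comm |t|, mul_comm (t ^ 6)]
    have : R ≤ R ^ 6 := le_self_pow₀ hR1 (by norm_num)
    gcongr

theorem WR_mul {ψ g : ℝ → ℝ} (hψ : Tst ψ) (hg : Tst g) (he : Function.Even g) (u : ℝ) :
    WR (fun v => ψ v * WR g v) u = ∫ x, g x * WR ψ (u - x) := by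
  have hs : ∀ v, ∫ x, g x * Real.sin (v * x) = 0 := fun v => by
    have := integral_neg_eq_self (fun x => g x * Real.sin (v * x)) volume
    simp only [he _, mul_neg, Real.sin_neg, integral_neg] at this
    linarith
  have hi : Integrable (Function.uncurry fun x v => g x * (ψ v * Real.cos ((u - x) * v)))
      (volume.prod volume) := by
    have := (hg.integrable.mul_prod hψ.integrable).mul_bdd (c := 1)
      (g := fun z : ℝ × ℝ => Real.cos ((u - z.1) * z.2)) (by fun_prop)
      (ae_of_all _ fun z => Real.abs_cos_le_one _)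
    exact this.congr (ae_of_all _ fun z => mul_assoc _ _ _)
  have e1 : ∀ x, g x * WR ψ (u - x) = ∫ v, g x * (ψ v * Real.cos ((u - x) * v)) := fun x => by
    rw [WR, integral_const_mul]
  simp only [e1]
  rw [integral_integral_swap hi, WR]
  congr 1
  funext v
  have e2 : ∀ x, g x * (ψ v * Real.cos ((u - x) * v)) =
      ψ v * Real.cos (u * v) * (g x * Real.cos (v * x)) +
        ψ v * Real.sin (u * v) * (g x * Real.sin (v * x)) := fun x => by
    rw [sub_mul, Real.cos_sub, mul_comm x v]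
    ring
  simp only [e2]
  rw [integral_add, integral_const_mul, integral_const_mul, hs, WR]
  · ring
  · exact (hg.integrable.mul_bdd (c := 1) (by fun_prop)
      (ae_of_all _ fun z => Real.abs_cos_le_one _)).const_mul _
  · exact (hg.integrable.mul_bdd (c := 1) (by fun_prop)
      (ae_of_all _ fun z => Real.abs_sin_le_one _)).const_mul _

theorem contDiff_WR {g : ℝ → ℝ} (hg : Tst g) (he : Function.Even g) : ContDiff ℝ ∞ (WR g) := by
  obtain ⟨G, hG⟩ := exists_schwartz_WR hg he
  have : WR g = fun v => reCLM (G (v / (2 * π))) := by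
    funext v
    rw [hG, mul_div_cancel₀ _ (by positivity), reCLM_apply, ofReal_re]
  rw [this]
  exact reCLM.contDiff.comp ((G.smooth ⊤).comp (contDiff_id.div_const _))

theorem major {e : ℝ} (he : 0 < e) (he' : e ≤ 1 / 4) : ∃ g : ℝ → ℝ, Tst g ∧ Function.Even g ∧
    (∀ x, 0 ≤ g x) ∧ (∀ x, 3 < |x| → g x = 0) ∧ (∀ u ∈ Icc (1 : ℝ) 2, 1 + e ≤ u ^ 6 * g u) ∧
    ∫ x, x ^ 6 * g x ≤ 2 + 10 * e := by
  let b : ContDiffBump (3 / 2 : ℝ) := ⟨1 / 2, 1 / 2 + e, by norm_num, by linarith⟩
  have hz : ∀ x, x ≤ 1 / 2 ∨ 3 ≤ x → b x = 0 := fun x hx => by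
    refine b.zero_of_le_dist ?_
    change 1 / 2 + e ≤ |x - 3 / 2|
    rcases hx with hx | hx
    · exact le_abs.2 (Or.inr (by linarith))
    · exact le_abs.2 (Or.inl (by linarith))
  let f : ℝ → ℝ := fun x => b x / x ^ 6
  have hf : ContDiff ℝ ∞ f := by
    rw [contDiff_iff_contDiffAt]
    intro x
    rcases eq_or_ne x 0 with rfl | hx
    · refine (contDiffAt_const (c := (0 : ℝ))).congr_of_eventuallyEq ?_
      filter_upwards [Iio_mem_nhds (by norm_num : (0 : ℝ) < 1 / 2)] with y hy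
      simp only [f, hz y (Or.inl (le_of_lt hy)), zero_div]
    · exact b.contDiff.contDiffAt.div (contDiff_id.pow 6).contDiffAt (pow_ne_zero 6 hx)
  have hf0 : ∀ x, 0 ≤ f x := fun x => div_nonneg b.nonneg (by positivity)
  have hfb : ∀ x, x ^ 6 * f x = b x := fun x => by
    rcases eq_or_ne x 0 with rfl | hx
    · simp [hz 0 (Or.inl (by norm_num))]
    · exact mul_div_cancel₀ _ (pow_ne_zero 6 hx)
  have hfc : HasCompactSupport f := by
    have : f = fun x => b x * (x ^ 6)⁻¹ := funext fun x => div_eq_mul_inv _ _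
    rw [this]
    exact b.hasCompactSupport.mul_right
  have ht : Tst f := ⟨hf, hfc⟩
  have ht' : Tst fun x => f (-x) :=
    ⟨hf.comp contDiff_neg, hfc.comp_homeomorph (Homeomorph.neg ℝ)⟩
  have key : ∀ x, x ^ 6 * ((1 + e) * (f x + f (-x))) = (1 + e) * (b x + b (-x)) := fun x => by
    rw [← hfb x, ← hfb (-x)]
    ring
  refine ⟨fun x => (1 + e) * (f x + f (-x)), (ht.add ht').const_mul _,
    fun x => by beta_reduce; rw [neg_neg, add_comm (f x)], fun x => ?_, fun x hx => ?_, fun u hu => ?_, ?_⟩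
  · have := hf0 x
    have := hf0 (-x)
    positivity
  · rcases lt_abs.1 hx with h | h
    · simp only [f, hz x (Or.inr h.le), hz (-x) (Or.inl (by linarith))]
      simp
    · simp only [f, hz x (Or.inl (by linarith)), hz (-x) (Or.inr h.le)]
      simp
  · rw [key, hz (-u) (Or.inl (by linarith [hu.1])), b.one_of_mem_closedBall, add_zero, mul_one]
    change |u - 3 / 2| ≤ 1 / 2
    exact abs_le.2 ⟨by linarith [hu.1], by linarith [hu.2]⟩
  · simp only [key]
    have h1 : ∫ x, b x ≤ 1 + 2 * e := by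
      refine (b.integral_le_measure_closedBall volume).trans_eq ?_
      rw [Measure.real, Real.volume_closedBall, ENNReal.toReal_ofReal (by linarith [b.rOut_pos])]
      change 2 * (1 / 2 + e) = _
      ring
    rw [integral_const_mul, integral_add b.integrable b.integrable.comp_neg,
      integral_neg_eq_self]
    nlinarith

end WinAux

theorem exists_window {ε : ℝ} (hε : 0 < ε) : ∃ φ : ℝ → ℝ, Tst φ ∧ Function.Even φ ∧
    (∀ u, 0 ≤ WR φ u) ∧ (∀ u ∈ Icc (1 : ℝ) 2, 1 ≤ u ^ 6 * WR φ u) ∧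
    top^[3] φ 0 ≤ (2 + ε) / (2 * π) := by
  obtain ⟨e, he, he', heε⟩ : ∃ e : ℝ, 0 < e ∧ e ≤ 1 / 4 ∧ e ≤ ε / 20 :=
    ⟨min (1 / 4) (ε / 20), by positivity, min_le_left _ _, min_le_right _ _⟩
  obtain ⟨g, hg, hge, hg0, hg3, hg1, hgi⟩ := WinAux.major he he'
  obtain ⟨L, hL⟩ := ContDiff.lipschitzWith_of_hasCompactSupport hg.cs hg.cd (by simp)
  set G := ∫ x, g x with hG
  have hG0 : 0 ≤ G := integral_nonneg hg0
  obtain ⟨δ, hδ, hδ1, hδ2⟩ : ∃ δ : ℝ, 0 < δ ∧ δ ≤ e / (64 * L + 1) ∧ δ ≤ ε / 2 / (4096 * G + 1) :=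
    ⟨min _ _, by positivity, min_le_left _ _, min_le_right _ _⟩
  rw [le_div_iff₀ (by positivity)] at hδ1 hδ2
  obtain ⟨ψ, hψ, hψe, hψ0, hψ1, hψm⟩ := WinAux.kernel hδ
  have ht : Tst fun v => ψ v * WR g v := hψ.mul (WinAux.contDiff_WR hg hge)
  have hte : Function.Even fun v => ψ v * WR g v := fun v => by
    beta_reduce
    rw [hψe v, WR_neg]
  have hK := integrable_WR hψ
  have hM := WinAux.int_mom hψ
  have hcK := continuous_WR hψ
  have hi : ∀ {f k : ℝ → ℝ}, Tst f → Continuous k → ∀ u, Integrable fun x => f x * k (u - x) :=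
    fun hf hk u => (hf.continuous.mul (hk.comp (continuous_const.sub continuous_id))
      ).integrable_of_hasCompactSupport hf.cs.mul_right
  refine ⟨_, ht, hte, fun u => ?_, fun u hu => ?_, ?_⟩
  · rw [WinAux.WR_mul hψ hg hge]
    exact integral_nonneg fun x => mul_nonneg (hg0 x) (hψ0 _)
  · rw [WinAux.WR_mul hψ hg hge]
    have h1 : g u - L * δ ≤ ∫ x, g x * WR ψ (u - x) := by
      have h2 : ∫ x, (g u * WR ψ (u - x) - L * ((|u - x| + (u - x) ^ 6) * WR ψ (u - x))) ≤
          ∫ x, g x * WR ψ (u - x) := by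
        refine integral_mono (((hK.comp_sub_left u).const_mul _).sub
          ((hM.comp_sub_left u).const_mul _)) (hi hg hcK u) fun x => ?_
        have h3 : g u - g x ≤ L * (|u - x| + (u - x) ^ 6) :=
          ((le_abs_self _).trans (hL.dist_le_mul u x)).trans
            (mul_le_mul_of_nonneg_left (le_add_of_nonneg_right (by positivity)) L.2)
        have := mul_le_mul_of_nonneg_right h3 (hψ0 (u - x))
        simp only
        linarith
      rw [integral_sub ((hK.comp_sub_left u).const_mul _) ((hM.comp_sub_left u).const_mul _),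
        integral_const_mul, integral_const_mul, integral_sub_left_eq_self (WR ψ),
        integral_sub_left_eq_self (fun t => (|t| + t ^ 6) * WR ψ t), hψ1] at h2
      have := mul_le_mul_of_nonneg_left hψm L.2
      simp only [NNReal.val_eq_coe] at this
      linarith
    have h4 : u ^ 6 ≤ 2 ^ 6 := pow_le_pow_left₀ (by linarith [hu.1]) hu.2 6
    have h5 := mul_le_mul_of_nonneg_left h1 (by positivity : 0 ≤ u ^ 6)
    have h6 := mul_le_mul_of_nonneg_right h4 (by positivity : 0 ≤ L * δ)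
    have := hg1 u hu
    linarith
  · have hx : Tst fun x => x ^ 6 * g x := by
      simpa only [mul_comm, id] using hg.mul (contDiff_id.pow 6)
    obtain ⟨i1, e1⟩ := WinAux.conv_int hx.integrable hK
    obtain ⟨i2, e2⟩ := WinAux.conv_int hg.integrable hM
    have hcM : Continuous fun t => (|t| + t ^ 6) * WR ψ t := by fun_prop
    have h1 : ∫ u, WR (top^[3] fun v => ψ v * WR g v) u ≤
        ∫ u, ((∫ x, x ^ 6 * g x * WR ψ (u - x)) +
          4096 * ∫ x, g x * ((|u - x| + (u - x) ^ 6) * WR ψ (u - x))) := by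
      refine integral_mono (integrable_WR (ht.top_iter 3)) (i1.add (i2.const_mul _)) fun u => ?_
      simp only
      rw [WR_top_iter ht, WinAux.WR_mul hψ hg hge, ← integral_const_mul, ← integral_const_mul,
        ← integral_add (hi hx hcK u) ((hi hg hcM u).const_mul _)]
      refine integral_mono ((hi hg hcK u).const_mul _)
        ((hi hx hcK u).add ((hi hg hcM u).const_mul _)) fun x => ?_
      simp only [Nat.reduceMul]
      rcases le_or_gt |x| 3 with h | h
      · have h2 := WinAux.pow_six (t := u - x) h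
        rw [add_sub_cancel] at h2
        have := mul_le_mul_of_nonneg_right h2 (mul_nonneg (hg0 x) (hψ0 (u - x)))
        exact this.trans_eq (by ring)
      · simp [hg3 x h]
    rw [integral_WR (ht.top_iter 3) (even_top_iter hte 3), integral_add i1 (i2.const_mul _),
      integral_const_mul, e1, e2, hψ1] at h1
    have h2 := mul_le_mul_of_nonneg_left hψm hG0
    rw [le_div_iff₀ (by positivity)]
    linarith

end Pool.Agent.P.MP_7eacff_nt.SZ
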