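import Pool.Agent.P.MP_7eacff_nt.SZ.ZS
import Pool.Agent.P.MP_7eacff_nt.SZ.MomM
import Pool.Agent.P.MP_7eacff_nt.SZ.Win
import Pool.Agent.P.MP_7eacff_nt.SZ.CountFin
import Pool.Agent.P.MP_7eacff_nt.SZ.LocLow2
import Pool.Agent.P.MP_7eacff_nt.SZ.Data
import Pool.Agent.P.MP_7eacff_nt.SZ.Mom0
import Pool.Agent.P.MP_7eacff_nt.SZ.Rolle

/-!
At most 14.65 per cent of the normalised gaps are very small.
-/

open Complex Filter Topology MeasureTheory Set
open scoped Real ContDiff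

namespace Pool.Agent.P.MP_7eacff_nt.SZ

variable {θ η : ℝ} {φ U F κ : ℝ → ℝ}

/-- The weight that is summed over the zeros. -/
noncomputable def gw (φ F κ : ℝ → ℝ) (T y : ℝ) : ℝ :=
  (1 / 4 + y ^ 2) * (H0 φ F κ T (1 / 2 + y * I)).re

theorem gw_nonneg (hφ : Tst φ) (he : Function.Even φ) (hW : ∀ u, 0 ≤ WR φ u) (T y : ℝ) :
    0 ≤ gw φ F κ T y := by
  have := hW (y / T)
  rw [gw, H0_crit hφ he, ofReal_re]
  positivity

theorem gw_neg (he : Function.Even φ) (T y : ℝ) : gw φ F κ T (-y) = gw φ F κ T y := by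
  have e : (1 / 2 + ((-y : ℝ) : ℂ) * I : ℂ) = 1 - (1 / 2 + y * I) := by
    push_cast
    ring
  rw [gw, gw, e, H0_one_sub he, neg_sq]

theorem upper (hRH : RiemannHypothesis) (h : Adm θ η F κ) (hφ : Tst φ) (he : Function.Even φ)
    (hW : ∀ u, 0 ≤ WR φ u) {q : ℝ} (hq : top^[3] φ 0 * (qM F κ + 2 * qZ F κ) < q) :
    ∀ᶠ T : ℝ in atTop, (Summable fun y : Ord => (mult y : ℝ) * gw φ F κ T y) ∧
      ∑' y : Ord, (mult y : ℝ) * gw φ F κ T y ≤ q * (T * Real.log T) := by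
  obtain ⟨C, hC⟩ := zero_sum_le hRH
  have hZ := (continuous_re.tendsto _).comp (mom_Z h hφ he)
  have h0 := (continuous_re.tendsto _).comp (mom_M h hφ he 0)
  have h1 := (continuous_re.tendsto _).comp (mom_M h hφ he 1)
  have hL : Tendsto (fun T : ℝ => (Real.log T)⁻¹) atTop (𝓝 0) :=
    Real.tendsto_log_atTop.inv_tendsto_atTop
  have hlim := ((hZ.const_mul (-2)).add (((hL.const_mul C).const_add 1).mul h0)).add (h1.mul hL)
  simp only [ofReal_re, Function.comp] at hlim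
  have hev := hlim.eventually_lt_const (u := q) (by refine lt_of_eq_of_lt ?_ hq; norm_num; ring)
  filter_upwards [hev, eventually_gt_atTop 1] with T hT hT1
  have hT0 : 0 < T := by linarith
  have hl : 0 < Real.log T := Real.log_pos hT1
  obtain ⟨s1, s2⟩ := hC (H0 φ F κ T) (differentiable_H0 hφ F κ T) (H0_one_sub he F κ T)
    (dec_H0 hφ F κ hT0) (fun t => by
      have := hW (t / T)
      rw [H0_crit hφ he, ofReal_re, ofReal_im]
      exact ⟨rfl, by positivity⟩) T hT1.le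
  refine ⟨s1, s2.trans ?_⟩
  simp only [div_ofReal_re, zero_add, pow_one, mul_zero, pow_zero, mul_one] at hT
  have e2 : (1 + 1 : ℕ) = 2 := rfl
  rw [e2] at hT
  rw [← div_le_iff₀ (by positivity)]
  refine le_of_eq_of_le ?_ hT.le
  field_simp

theorem top_nonneg (hφ : Tst φ) (he : Function.Even φ) (hW : ∀ u, 0 ≤ WR φ u) :
    0 ≤ top^[3] φ 0 := by
  have h1 := integral_WR (hφ.top_iter 3) (even_top_iter he 3)
  have h2 : 0 ≤ ∫ u, WR (top^[3] φ) u := integral_nonneg fun u => by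
    rw [WR_top_iter hφ]
    exact mul_nonneg ((even_two_mul 3).pow_nonneg u) (hW u)
  rw [h1] at h2
  exact (mul_nonneg_iff_of_pos_left (by positivity)).1 h2

theorem card_le_succ {γ : ℕ → ℝ} (hm : Monotone γ) (S : Finset ℕ) {X : ℝ} (hS : ∀ n ∈ S, γ n ≤ X) :
    (S.card : ℝ) ≤ (S.filter fun n => γ (n + 1) ≤ X).card + 1 := by
  have h1 := Finset.card_filter_add_card_filter_not (s := S) fun n => γ (n + 1) ≤ X
  have h2 : (S.filter fun n => ¬γ (n + 1) ≤ X).card ≤ 1 := by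
    refine Finset.card_le_one.2 fun a ha b hb => ?_
    rw [Finset.mem_filter] at ha hb
    by_contra hne
    rcases lt_or_gt_of_ne hne with h | h
    · exact ha.2 ((hm h).trans (hS b hb.1))
    · exact hb.2 ((hm h).trans (hS a ha.1))
  exact_mod_cast (by omega : S.card ≤ (S.filter fun n => γ (n + 1) ≤ X).card + 1)

theorem gap_le {a b T ε : ℝ} (hε : 0 ≤ ε) (hT : 0 < T) (hL : 2 * Real.log (2 * π) ≤ Real.log T)
    (hL0 : 0 < Real.log T) (ha : T ≤ a) (h : (b - a) / (2 * π) * Real.log (a / (2 * π)) ≤ ε) :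
    b - a ≤ 4 * π * ε / Real.log T := by
  have hp := Real.pi_pos
  have h1 : Real.log T / 2 ≤ Real.log (a / (2 * π)) := by
    rw [Real.log_div (by linarith) (by positivity)]
    linarith [Real.log_le_log hT ha]
  rcases le_or_gt (b - a) 0 with h2 | h2
  · exact h2.trans (by positivity)
  · rw [le_div_iff₀ hL0]
    have h3 : (b - a) / (2 * π) * (Real.log T / 2) ≤ ε :=
      (mul_le_mul_of_nonneg_left h1 (by positivity)).trans h
    rw [div_mul_eq_mul_div, div_le_iff₀ (by positivity)] at h3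
    linarith

theorem few_small_gaps (hRH : RiemannHypothesis) {γ : ℕ → ℝ} (hγ : Enum zmeas γ) :
    ∃ ε : ℝ, 0 < ε ∧ ∀ᶠ N : ℕ in atTop,
      ({n | n < N ∧ (γ (n + 1) - γ n) / (2 * π) * Real.log (γ n / (2 * π)) ≤ ε}.ncard : ℝ) ≤
        293 / 2000 * N := by
  have hp := Real.pi_pos
  obtain ⟨θ, η, F, κ, h, hκ0, hK, hQ⟩ := exists_data
  set Q := max (qM F κ + 2 * qZ F κ) 0 with hQd
  have hQ0 : 0 ≤ Q := le_max_right _ _
  have hQ1 : Q < 293 / 1000 := max_lt hQ (by norm_num)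
  obtain ⟨e, hed⟩ : ∃ e : ℝ, e = (293 / 1000 - Q) / 100 := ⟨_, rfl⟩
  have he0 : 0 < e := by rw [hed]; linarith
  have he1 : e ≤ 3 / 1000 := by rw [hed]; linarith
  obtain ⟨φ, hφ, hφe, hW0, hW1, hφt⟩ := exists_window he0
  obtain ⟨U, hU, hUe, hU1⟩ := exists_U
  obtain ⟨C, hC0, hC⟩ := msq_sec_le h hU hUe
  have hcont : ∀ᶠ x : ℝ in 𝓝 0, 2 * ip κ - e / 10 < WR κ x := by
    refine (continuous_WR h.tκ).continuousAt.eventually_const_lt ?_
    have : WR κ 0 = 2 * ip κ := by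
      rw [← integral_eq_two_ip h.tκ h.eκ]
      simp [WR]
    rw [this]
    linarith
  obtain ⟨r, hr0, hr⟩ := Metric.eventually_nhds_iff.1 hcont
  set ε := min (r / (16 * π)) (e ^ 2 / (16 * π ^ 2 * (C + 1))) with hεd
  have hε0 : 0 < ε := lt_min (by positivity) (by positivity)
  have hε1 : 8 * π * ε < r := by
    have : ε ≤ r / (16 * π) := min_le_left _ _
    rw [le_div_iff₀ (by positivity)] at this
    nlinarith
  have hε2 : 16 * π ^ 2 * C * ε ≤ e ^ 2 := by
    have : ε ≤ e ^ 2 / (16 * π ^ 2 * (C + 1)) := min_le_right _ _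
    rw [le_div_iff₀ (by positivity)] at this
    nlinarith [mul_pos hε0 (by positivity : 0 < 16 * π ^ 2)]
  refine ⟨ε, hε0, count_final (zdata hRH) hγ (c := Q / 2 + 3 * e) (by positivity)
    (by rw [hed]; linarith) _ ?_⟩
  have hq : top^[3] φ 0 * (qM F κ + 2 * qZ F κ) < ((2 + e) * Q + e) / (2 * π) := by
    have h1 := top_nonneg hφ hφe hW0
    calc _ ≤ top^[3] φ 0 * Q := mul_le_mul_of_nonneg_left (le_max_left _ _) h1
      _ ≤ (2 + e) / (2 * π) * Q := mul_le_mul_of_nonneg_right hφt hQ0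
      _ < _ := by
        rw [div_mul_eq_mul_div]
        gcongr
        linarith
  filter_upwards [upper hRH h hφ hφe hW0 hq, hC,
    re_dp_aA_ge_sum hRH hγ h.tκ h.eκ h.hη h.sκ hκ0 (half_pos he0), eventually_gt_atTop 1,
    ev_le_log (2 * Real.log (2 * π)), ev_le_log (2 * π / e)] with T ⟨u1, u2⟩ ⟨c1, c2⟩ hA hT1 hL1
    hL2 S hS
  have hT0 : 0 < T := by linarith
  have hl : 0 < Real.log T := Real.log_pos hT1
  set L := Real.log T with hLd
  set X := T * L / (2 * π) with hXd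
  have hX0 : 0 < X := by positivity
  set S' := S.filter fun n => γ (n + 1) ≤ 2 * T with hS'
  have k1 : (S.card : ℝ) ≤ S'.card + 1 := card_le_succ hγ.mono S fun n hn => (hS n hn).2.2
  have k2 : ∀ n ∈ S', γ (n + 1) - γ n ≤ 4 * π * ε / L := fun n hn =>
    gap_le hε0.le hT0 hL1 hl (hS n (Finset.mem_filter.1 hn).1).2.1
      (hS n (Finset.mem_filter.1 hn).1).1
  have k3 : ∀ i ∈ ends S', T ≤ γ i ∧ γ i ≤ 2 * T := by
    intro i hi
    rcases Finset.mem_union.1 hi with hi | hi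
    · exact (hS i (Finset.mem_filter.1 hi).1).2
    · obtain ⟨n, hn, rfl⟩ := Finset.mem_image.1 hi
      exact ⟨(hS n (Finset.mem_filter.1 hn).1).2.1.trans (hγ.mono (Nat.le_succ n)),
        (Finset.mem_filter.1 hn).2⟩
  obtain ⟨k4, k5⟩ := chain_count (u := fun i => (dp (aA κ T) ⌊T⌋₊ (1 / 2 + γ i * I)).re)
    hγ.mono S' k2 hK he0.le fun i hi J hJ hJ' => by
      refine le_trans ?_ (hA (γ i) (k3 i hi).1 (k3 i hi).2 J)
      have h1 : ∑ j ∈ J, (2 * ip κ - e / 10) ≤ ∑ j ∈ J, WR κ (L * (γ j - γ i)) := by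
        refine Finset.sum_le_sum fun j hj => (hr ?_).le
        rw [dist_zero_right, Real.norm_eq_abs, abs_mul, abs_of_pos hl]
        refine lt_of_le_of_lt (mul_le_mul_of_nonneg_left (hJ' j hj) hl.le) ?_
        refine lt_of_eq_of_lt ?_ hε1
        field_simp
        norm_num
      rw [Finset.sum_const, nsmul_eq_mul] at h1
      have h2 : (J.card : ℝ) ≤ 5 := by exact_mod_cast hJ
      nlinarith
  have k6 := sum_deriv_sq_le (differentiable_Ph hU F T) c1 hγ.mono
    (fun n => Ph_zero U F T (enum_zero hγ n))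
    (fun n hn => deriv_Ph_zero hU F T (enum_mult hγ hn)) S' (by positivity) k2
  have k7 := (sum_le_tsum_half hγ (gw_nonneg hφ hφe hW0 T) (gw_neg hφe T) u1 (ends S')).trans u2
  have k8 : ∑ i ∈ ends S', (2 * (dp (aA κ T) ⌊T⌋₊ (1 / 2 + γ i * I)).re - 1 - e -
      ‖deriv (Ph U F T) (1 / 2 + γ i * I)‖ ^ 2 / (e * L ^ 2)) ≤
      ∑ i ∈ ends S', gw φ F κ T (γ i) := Finset.sum_le_sum fun i hi =>
    H0_lower_two hφ hφe hW1 hU hUe hU1 F κ hT1 (k3 i hi).1 (k3 i hi).2 (enum_zero hγ i) he0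
  rw [Finset.sum_sub_distrib, Finset.sum_sub_distrib, ← Finset.sum_div, Finset.sum_const,
    nsmul_eq_mul] at k8
  have k9 : (∑ i ∈ ends S', ‖deriv (Ph U F T) (1 / 2 + γ i * I)‖ ^ 2) / (e * L ^ 2) ≤ e * X := by
    rw [div_le_iff₀ (by positivity)]
    refine (k6.trans (mul_le_mul_of_nonneg_left c2 (by positivity))).trans ?_
    have e1 : 2 * (4 * π * ε / L) * (C * T * L ^ 4) =
        16 * π ^ 2 * C * ε * (T * L ^ 3 / (2 * π)) := by
      field_simp
      ring
    have e2 : e * X * (e * L ^ 2) = e ^ 2 * (T * L ^ 3 / (2 * π)) := by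
      rw [hXd]
      ring
    rw [e1, e2]
    gcongr
  have k10 : ((2 + e) * Q + e) / (2 * π) * (T * L) = ((2 + e) * Q + e) * X := by
    rw [hXd]
    ring
  rw [k10] at k7
  have k11 : 1 ≤ e * X := by
    rw [div_le_iff₀ he0] at hL2
    rw [hXd, ← mul_div_assoc, le_div_iff₀ (by positivity)]
    nlinarith [mul_pos hl he0]
  have k12 : (2 - 6 * e) * S'.card ≤ (Q + 2 * e) * X := by
    have h1 : ((ends S').card : ℝ) * e ≤ 2 * S'.card * e := mul_le_mul_of_nonneg_right k4 he0.le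
    have h2 : e * Q * X ≤ e * X := by
      have : e * Q ≤ e := by nlinarith
      gcongr
    have h3 := mul_pos he0 hX0
    linarith
  have k13 : (S'.card : ℝ) ≤ (Q / 2 + 2 * e) * X := by
    refine le_of_mul_le_mul_left (k12.trans ?_) (by linarith : 0 < 2 - 6 * e)
    rw [← mul_assoc]
    gcongr
    nlinarith
  linarith

end Pool.Agent.P.MP_7eacff_nt.SZ
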