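import Pool.Agent.P.MP_7eacff_nt.SZ.Basic

/-!
The gamma integral with a complex rate.
-/

open Complex Filter Topology MeasureTheory Set
open scoped Real

namespace Pool.Agent.P.MP_7eacff_nt.SZ.GamAux

theorem meas_ker (a r : ℂ) :
    AEStronglyMeasurable (fun t : ℝ => (t : ℂ) ^ a * cexp (-(r * t)))
      (volume.restrict (Ioi (0 : ℝ))) := by
  refine ContinuousOn.aestronglyMeasurable (fun t ht => ?_) measurableSet_Ioi
  refine ContinuousAt.continuousWithinAt (ContinuousAt.mul ?_ (by fun_prop))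
  exact continuousAt_ofReal_cpow_const t a (Or.inr (ne_of_gt ht))

theorem norm_ker (a r : ℂ) {t : ℝ} (ht : 0 < t) :
    ‖(t : ℂ) ^ a * cexp (-(r * t))‖ = t ^ a.re * Real.exp (-(r.re * t)) := by
  rw [norm_mul, norm_cpow_eq_rpow_re_of_pos ht, norm_exp]
  simp

theorem int_real {c b : ℝ} (hc : -1 < c) (hb : 0 < b) :
    IntegrableOn (fun t : ℝ => t ^ c * Real.exp (-(b * t))) (Ioi 0) := by
  have h := integrableOn_rpow_mul_exp_neg_mul_rpow hc zero_lt_one hb
  simpa using h

theorem int_ker {a r : ℂ} (ha : -1 < a.re) (hr : 0 < r.re) :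
    IntegrableOn (fun t : ℝ => (t : ℂ) ^ a * cexp (-(r * t))) (Ioi 0) := by
  refine Integrable.mono' (int_real ha hr) (meas_ker a r) ?_
  filter_upwards [ae_restrict_mem measurableSet_Ioi] with t ht
  exact (norm_ker a r ht).le

theorem diff_int {a r : ℂ} (ha : 0 < a.re) (hr : 0 < r.re) :
    DifferentiableAt ℂ (fun r : ℂ => ∫ t : ℝ in Ioi 0, (t : ℂ) ^ (a - 1) * cexp (-(r * t))) r := by
  have hs : {w : ℂ | r.re / 2 < w.re} ∈ 𝓝 r :=
    (isOpen_lt continuous_const continuous_re).mem_nhds (by show r.re / 2 < r.re; linarith)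
  have h := hasDerivAt_integral_of_dominated_loc_of_deriv_le
    (μ := volume.restrict (Ioi (0 : ℝ)))
    (F := fun (w : ℂ) (t : ℝ) => (t : ℂ) ^ (a - 1) * cexp (-(w * t)))
    (F' := fun (w : ℂ) (t : ℝ) => -((t : ℂ) ^ a * cexp (-(w * t))))
    (bound := fun t : ℝ => t ^ a.re * Real.exp (-(r.re / 2 * t))) hs
    (Eventually.of_forall fun w => meas_ker _ w) (int_ker (by simpa using ha) hr)
    (meas_ker a r).neg ?_ (int_real (by linarith) (by linarith)) ?_
  · exact h.2.differentiableAt
  · filter_upwards [ae_restrict_mem measurableSet_Ioi] with t ht w hw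
    have ht' : (0 : ℝ) < t := ht
    have hw' : r.re / 2 < w.re := hw
    rw [norm_neg, norm_ker a w ht']
    gcongr
  · filter_upwards [ae_restrict_mem measurableSet_Ioi] with t ht w _
    have ht' : (t : ℂ) ≠ 0 := ofReal_ne_zero.2 (ne_of_gt ht)
    have h1 : HasDerivAt (fun w : ℂ => -(w * t)) (-(1 * t)) w :=
      ((hasDerivAt_id w).mul_const (t : ℂ)).neg
    refine ((h1.cexp).const_mul ((t : ℂ) ^ (a - 1))).congr_deriv ?_
    rw [cpow_sub _ _ ht', cpow_one]
    field_simp

theorem one_div_mem {r : ℂ} (hr : 0 < r.re) : 1 / r ∈ slitPlane := by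
  left
  rw [one_div, inv_re]
  have : r ≠ 0 := fun h => by simp [h] at hr
  exact div_pos hr (normSq_pos.2 this)

/-- The gamma integral with a complex rate. -/
theorem integral_gamma {a r : ℂ} (ha : 0 < a.re) (hr : 0 < r.re) :
    ∫ t : ℝ in Ioi 0, (t : ℂ) ^ (a - 1) * cexp (-(r * t)) = (1 / r) ^ a * Gamma a := by
  set U : Set ℂ := {w | 0 < w.re} with hUdef
  have hU : IsOpen U := isOpen_lt continuous_const continuous_re
  have hc : IsPreconnected U := (convex_halfSpace_re_gt 0).isPreconnected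
  have h1 : AnalyticOnNhd ℂ
      (fun r : ℂ => ∫ t : ℝ in Ioi 0, (t : ℂ) ^ (a - 1) * cexp (-(r * t))) U :=
    DifferentiableOn.analyticOnNhd
      (fun w hw => (diff_int ha hw).differentiableWithinAt) hU
  have h2 : AnalyticOnNhd ℂ (fun r : ℂ => (1 / r) ^ a * Gamma a) U := by
    refine DifferentiableOn.analyticOnNhd (fun w hw => ?_) hU
    have hw0 : w ≠ 0 := fun h => by simp [hUdef, h] at hw
    refine DifferentiableAt.differentiableWithinAt (DifferentiableAt.mul_const ?_ _)
    exact DifferentiableAt.cpow_const ((differentiableAt_const _).div differentiableAt_id hw0)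
      (one_div_mem hw)
  refine h1.eqOn_of_preconnected_of_frequently_eq h2 hc (z₀ := 1) (by simp [hUdef]) ?_ hr
  have ht : Tendsto (fun x : ℝ => (x : ℂ)) (𝓝[>] 1) (𝓝[≠] 1) := by
    refine tendsto_nhdsWithin_iff.2 ⟨?_, ?_⟩
    · exact (continuous_ofReal.tendsto' 1 1 (by simp)).mono_left nhdsWithin_le_nhds
    · filter_upwards [self_mem_nhdsWithin] with x hx
      have : (1 : ℝ) < x := hx
      simpa using this.ne'
  refine ht.frequently (Eventually.frequently ?_)
  filter_upwards [self_mem_nhdsWithin] with x hx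
  have : (1 : ℝ) < x := hx
  exact integral_cpow_mul_exp_neg_mul_Ioi ha (by linarith)

end Pool.Agent.P.MP_7eacff_nt.SZ.GamAux
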