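import Pool.Agent.P.MP_7eacff_nt.SZ.Poly
import Pool.Agent.P.MP_7eacff_nt.SZ.GamAux
import Pool.Agent.P.MP_7eacff_nt.Digamma

/-!
Growth of the gamma factor.
-/

open Complex Filter Topology MeasureTheory Set
open scoped Real ContDiff

namespace Pool.Agent.P.MP_7eacff_nt.SZ

open Pool.Agent.Lib.LargeSieve (primSet mem_primSet)

namespace GamAux

theorem norm_Gamma_rot {s : ℂ} (hs : 0 < s.re) {α : ℝ} (h1 : -(π / 2) < α) (h2 : α < π / 2) :
    ‖Gamma s‖ * Real.exp (α * s.im) ≤ (1 / Real.cos α) ^ s.re * Real.Gamma s.re := by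
  have hc : 0 < Real.cos α := Real.cos_pos_of_mem_Ioo ⟨h1, h2⟩
  have hr : (cexp (α * I)).re = Real.cos α := exp_ofReal_mul_I_re α
  have h := integral_gamma hs (r := cexp (α * I)) (by rwa [hr])
  have e1 : (1 / cexp (α * I)) ^ s = cexp (-(α * I) * s) := by
    rw [one_div, ← Complex.exp_neg, cpow_def_of_ne_zero (exp_ne_zero _), log_exp]
    · simp; linarith [Real.pi_pos]
    · simp; linarith [Real.pi_pos]
  have e2 : ‖cexp (-(α * I) * s)‖ = Real.exp (α * s.im) := by
    rw [norm_exp]; simp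
  rw [← Real.integral_rpow_mul_exp_neg_mul_Ioi hs hc, ← e2, ← e1, mul_comm, ← norm_mul, ← h]
  refine (norm_integral_le_integral_norm _).trans_eq ?_
  refine setIntegral_congr_fun measurableSet_Ioi fun t ht => ?_
  rw [norm_ker _ _ ht, hr]
  simp

theorem norm_cos_le (z : ℂ) : ‖cos z‖ ≤ Real.exp |z.im| := by
  have h1 : ‖cexp (z * I)‖ ≤ Real.exp |z.im| := by
    rw [norm_exp]
    exact Real.exp_le_exp.2 (by simpa using neg_le_abs z.im)
  have h2 : ‖cexp (-z * I)‖ ≤ Real.exp |z.im| := by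
    rw [norm_exp]
    exact Real.exp_le_exp.2 (by simpa using le_abs_self z.im)
  have h3 := norm_add_le (cexp (z * I)) (cexp (-z * I))
  rw [Complex.cos, norm_div]
  simp only [Complex.norm_ofNat]
  linarith

theorem ne_neg_nat {s : ℂ} (hs : 0 < s.re) (m : ℕ) : s ≠ -m := by
  intro h
  rw [h] at hs
  simp only [neg_re, natCast_re] at hs
  linarith [Nat.cast_nonneg (α := ℝ) m]

theorem isOpen_half : IsOpen {w : ℂ | 0 < w.re} := isOpen_lt continuous_const continuous_re

theorem sum_sq_le (n : ℕ) :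
    ∑ j ∈ Finset.range n, 1 / ((j : ℝ) + 1) ^ 2 ≤ 2 - 2 / ((n : ℝ) + 1) := by
  induction n with
  | zero => simp
  | succ n ih =>
    rw [Finset.sum_range_succ]
    have hn : (0 : ℝ) ≤ n := Nat.cast_nonneg n
    have : 1 / ((n : ℝ) + 1) ^ 2 ≤ 2 / (n + 1) - 2 / (n + 1 + 1) := by
      rw [div_sub_div _ _ (by positivity) (by positivity), div_le_div_iff₀ (by positivity)
        (by positivity)]
      nlinarith [mul_nonneg hn hn, mul_nonneg hn (mul_nonneg hn hn)]
    push_cast
    linarith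

theorem norm_digamma_sub_le {z : ℂ} (hz : 1 / 4 ≤ z.re) :
    ‖digamma z - digamma 1‖ ≤ 8 * ‖z - 1‖ := by
  have hz0 : 0 < z.re := by linarith
  have h := ((tendsto_digamma hz0).sub (tendsto_digamma (z := 1) (by simp))).norm
  refine le_of_tendsto' h fun n => ?_
  rw [sub_sub_sub_cancel_left, ← Finset.sum_sub_distrib]
  refine (norm_sum_le _ _).trans ?_
  have h1 : ∀ j ∈ Finset.range (n + 1), ‖1 / (1 + (j : ℂ)) - 1 / (z + j)‖ ≤
      4 * ‖z - 1‖ * (1 / ((j : ℝ) + 1) ^ 2) := by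
    intro j _
    have hj : (0 : ℝ) ≤ j := Nat.cast_nonneg j
    have a1 : ((j : ℝ) + 1) / 4 ≤ ‖z + j‖ := by
      have := re_le_norm (z + j)
      simp only [add_re, natCast_re] at this
      linarith
    have a2 : ‖1 + (j : ℂ)‖ = j + 1 := by
      rw [add_comm]
      exact_mod_cast Complex.norm_natCast (j + 1)
    have a3 : z + j ≠ 0 := norm_pos_iff.1 (lt_of_lt_of_le (by positivity) a1)
    have a4 : 1 + (j : ℂ) ≠ 0 := norm_pos_iff.1 (by rw [a2]; positivity)
    have e : 1 / (1 + (j : ℂ)) - 1 / (z + j) = (z - 1) / ((1 + j) * (z + j)) := by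
      field_simp
      ring
    rw [e, norm_div, norm_mul, a2]
    calc ‖z - 1‖ / ((j + 1) * ‖z + j‖) ≤ ‖z - 1‖ / ((j + 1) * ((j + 1) / 4)) := by gcongr
      _ = _ := by field_simp
  refine (Finset.sum_le_sum h1).trans ?_
  rw [← Finset.mul_sum]
  have h2 := sum_sq_le (n + 1)
  have h3 : (0 : ℝ) ≤ 2 / (((n + 1 : ℕ) : ℝ) + 1) := by positivity
  nlinarith [norm_nonneg (z - 1)]

end GamAux

open GamAux

theorem norm_Gamma_le_exp : ∃ C : ℝ, 0 < C ∧ ∀ s : ℂ, 1 / 2 ≤ s.re → s.re ≤ 5 / 2 →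
    ‖Gamma s‖ ≤ C * (1 + |s.im|) ^ 3 * Real.exp (-(π / 2 * |s.im|)) := by
  have hcont : ContinuousOn Real.Gamma (Icc (1 / 2) (5 / 2)) := by
    intro x hx
    refine (Real.differentiableAt_Gamma fun m h => ?_).continuousAt.continuousWithinAt
    have : (0 : ℝ) ≤ m := Nat.cast_nonneg m
    linarith only [h, hx.1, this]
  obtain ⟨C, hC⟩ := isCompact_Icc.exists_bound_of_continuousOn hcont
  refine ⟨8 * (|C| + 1) * Real.exp 1, by positivity, fun s h1 h2 => ?_⟩
  have hs : 0 < s.re := by linarith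
  set y := |s.im| with hy
  have hy0 : 0 ≤ y := abs_nonneg _
  have hd0 : 0 < 1 / (1 + y) := by positivity
  have hd1 : 1 / (1 + y) ≤ 1 := by rw [div_le_one (by positivity)]; linarith
  have hpi := Real.pi_gt_three
  have hpi' := Real.pi_lt_four
  obtain ⟨α, a1, a2, a3, a4⟩ : ∃ α : ℝ, -(π / 2) < α ∧ α < π / 2 ∧
      Real.cos α = Real.sin (1 / (1 + y)) ∧ α * s.im = (π / 2 - 1 / (1 + y)) * y := by
    rcases le_total 0 s.im with h | h
    · exact ⟨π / 2 - 1 / (1 + y), by linarith, by linarith, Real.cos_pi_div_two_sub _,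
        by rw [hy, abs_of_nonneg h]⟩
    · refine ⟨-(π / 2 - 1 / (1 + y)), by linarith, by linarith,
        by rw [Real.cos_neg, Real.cos_pi_div_two_sub], ?_⟩
      have : s.im = -y := by rw [hy, abs_of_nonpos h, neg_neg]
      rw [this]; ring
  have h3 := norm_Gamma_rot hs a1 a2
  rw [a3, a4] at h3
  have h4 : 2 / π * (1 / (1 + y)) ≤ Real.sin (1 / (1 + y)) := Real.mul_le_sin hd0.le (by linarith)
  have h5 : 1 / (2 * (1 + y)) ≤ Real.sin (1 / (1 + y)) := by
    refine le_trans ?_ h4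
    rw [div_mul_div_comm, div_le_div_iff₀ (by positivity) (by positivity)]
    nlinarith
  have h6 : 1 / Real.sin (1 / (1 + y)) ≤ 2 * (1 + y) := by
    have := one_div_le_one_div_of_le (by positivity) h5
    rwa [one_div_one_div] at this
  have h7 : (1 / Real.sin (1 / (1 + y))) ^ s.re ≤ (2 * (1 + y)) ^ 3 := by
    have hpos : 0 < Real.sin (1 / (1 + y)) := lt_of_lt_of_le (by positivity) h5
    calc _ ≤ (2 * (1 + y)) ^ s.re := Real.rpow_le_rpow (by positivity) h6 hs.le
      _ ≤ (2 * (1 + y)) ^ ((3 : ℕ) : ℝ) :=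
        Real.rpow_le_rpow_of_exponent_le (by linarith) (by push_cast; linarith)
      _ = _ := Real.rpow_natCast _ _
  have h8 : Real.Gamma s.re ≤ |C| + 1 := by
    have := (le_abs_self _).trans ((hC _ ⟨h1, h2⟩).trans (le_abs_self C))
    linarith
  have h9 : ‖Gamma s‖ * Real.exp ((π / 2 - 1 / (1 + y)) * y) ≤ (2 * (1 + y)) ^ 3 * (|C| + 1) :=
    h3.trans (mul_le_mul h7 h8 (Real.Gamma_pos_of_pos hs).le (by positivity))
  have h10 : Real.exp (-((π / 2 - 1 / (1 + y)) * y)) ≤ Real.exp 1 * Real.exp (-(π / 2 * y)) := by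
    rw [← Real.exp_add]
    refine Real.exp_le_exp.2 ?_
    have : 1 / (1 + y) * y ≤ 1 := by
      rw [div_mul_eq_mul_div, div_le_one (by positivity)]; linarith
    nlinarith
  calc ‖Gamma s‖ = ‖Gamma s‖ * Real.exp ((π / 2 - 1 / (1 + y)) * y) *
        Real.exp (-((π / 2 - 1 / (1 + y)) * y)) := by
        rw [mul_assoc, ← Real.exp_add, add_neg_cancel, Real.exp_zero, mul_one]
    _ ≤ (2 * (1 + y)) ^ 3 * (|C| + 1) * (Real.exp 1 * Real.exp (-(π / 2 * y))) := by gcongr
    _ = _ := by ring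

theorem differentiableAt_chi {s : ℂ} (hs : 0 < s.re) : DifferentiableAt ℂ chi s := by
  unfold chi
  refine DifferentiableAt.mul (DifferentiableAt.mul (DifferentiableAt.const_mul ?_ _)
    (differentiableAt_Gamma s (ne_neg_nat hs))) (by fun_prop)
  refine differentiableAt_id.neg.const_cpow (Or.inl ?_)
  exact mul_ne_zero two_ne_zero (ofReal_ne_zero.2 Real.pi_ne_zero)

theorem differentiableAt_deriv_chi {s : ℂ} (hs : 0 < s.re) :
    DifferentiableAt ℂ (deriv chi) s := by
  have h : AnalyticOnNhd ℂ chi {w : ℂ | 0 < w.re} :=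
    DifferentiableOn.analyticOnNhd
      (fun w hw => (differentiableAt_chi hw).differentiableWithinAt) isOpen_half
  exact (h.deriv s hs).differentiableAt

theorem polyG_chi : PolyG chi (1 / 2) (5 / 2) := by
  obtain ⟨C, hC, h⟩ := norm_Gamma_le_exp
  refine ⟨2 * C, 3, fun s h1 h2 => ?_⟩
  have a1 : ‖(2 * π : ℂ) ^ (-s)‖ ≤ 1 := by
    have e : (2 * π : ℂ) = ((2 * π : ℝ) : ℂ) := by push_cast; rfl
    rw [e, norm_cpow_eq_rpow_re_of_pos (by positivity)]
    exact Real.rpow_le_one_of_one_le_of_nonpos (by linarith [Real.pi_gt_three])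
      (by simp; linarith)
  have a2 : ‖cos (π * s / 2)‖ ≤ Real.exp (π / 2 * |s.im|) := by
    refine (GamAux.norm_cos_le _).trans_eq ?_
    congr 1
    have : (π * s / 2).im = π / 2 * s.im := by simp; ring
    rw [this, abs_mul, abs_of_pos (by positivity : 0 < π / 2)]
  unfold chi
  simp only [norm_mul, Complex.norm_ofNat]
  calc 2 * ‖(2 * π : ℂ) ^ (-s)‖ * ‖Gamma s‖ * ‖cos (π * s / 2)‖ ≤
        2 * 1 * (C * (1 + |s.im|) ^ 3 * Real.exp (-(π / 2 * |s.im|))) *
          Real.exp (π / 2 * |s.im|) := by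
        gcongr
        exact h s h1 h2
    _ = 2 * C * (1 + |s.im|) ^ 3 * (Real.exp (-(π / 2 * |s.im|)) * Real.exp (π / 2 * |s.im|)) := by
        ring
    _ = _ := by rw [← Real.exp_add, neg_add_cancel, Real.exp_zero, mul_one]

theorem polyG_deriv_chi : PolyG (deriv chi) 1 2 :=
  PolyG.der (δ := 1 / 2) (by norm_num) (polyG_chi.mono (by norm_num) (by norm_num))
    fun s h _ => differentiableAt_chi (by linarith)

theorem differentiableAt_digamma {s : ℂ} (hs : 0 < s.re) : DifferentiableAt ℂ digamma s := by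
  have h : AnalyticOnNhd ℂ Gamma {w : ℂ | 0 < w.re} :=
    DifferentiableOn.analyticOnNhd
      (fun w hw => (differentiableAt_Gamma w (ne_neg_nat hw)).differentiableWithinAt) isOpen_half
  exact (h.deriv s hs).differentiableAt.div (h s hs).differentiableAt (Gamma_ne_zero_of_re_pos hs)

theorem polyG_digamma : PolyG (fun s => digamma (s / 2)) (1 / 2) (3 / 2) := by
  refine ⟨‖digamma 1‖ + 8, 1, fun s h1 h2 => ?_⟩
  have e1 : (s / 2).re = s.re / 2 := by simp
  have e2 : (s / 2 - 1).re = s.re / 2 - 1 := by simp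
  have e3 : (s / 2 - 1).im = s.im / 2 := by simp
  have a1 := norm_digamma_sub_le (z := s / 2) (by rw [e1]; linarith)
  have a2 := norm_le_abs_re_add_abs_im (s / 2 - 1)
  rw [e2, e3, abs_div, abs_two, abs_of_nonpos (by linarith)] at a2
  have a3 := norm_le_norm_add_norm_sub' (digamma (s / 2)) (digamma 1)
  have a4 := abs_nonneg s.im
  have a5 := norm_nonneg (digamma 1)
  simp only [pow_one]
  nlinarith

theorem zeta_one_sub {s : ℂ} (hs : 0 < s.re) (hs1 : s ≠ 1) :
    riemannZeta (1 - s) = chi s * riemannZeta s :=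
  riemannZeta_one_sub (ne_neg_nat hs) hs1

theorem deriv_zeta_one_sub {s : ℂ} (hs : 1 < s.re) :
    deriv riemannZeta (1 - s) = -(deriv chi s * riemannZeta s) - chi s * deriv riemannZeta s := by
  have hne : ∀ w : ℂ, 1 < w.re → w ≠ 1 := fun w hw h => by simp [h] at hw
  have h1 : (fun w => riemannZeta (1 - w)) =ᶠ[𝓝 s] fun w => chi w * riemannZeta w := by
    filter_upwards [(isOpen_lt continuous_const continuous_re).mem_nhds hs] with w hw
    have hw' : 1 < w.re := hw
    exact zeta_one_sub (by linarith) (hne w hw')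
  have h2 := h1.deriv_eq
  rw [deriv_comp_const_sub, deriv_fun_mul (differentiableAt_chi (by linarith))
    (differentiableAt_riemannZeta (hne s hs))] at h2
  linear_combination -h2

end Pool.Agent.P.MP_7eacff_nt.SZ
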