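import Pool.Agent.P.MP_7eacff_nt.SZ.Basic

/-!
Ramanujan sums and Gauss sums.
-/

open Complex Filter Topology MeasureTheory Set
open scoped Real ContDiff

namespace Pool.Agent.P.MP_7eacff_nt.SZ

open Pool.Agent.Lib.LargeSieve (primSet mem_primSet)

namespace GaussAux

open Finset

theorem ee_eq (x : ℝ) : ee x = Lib.LargeSieve.ee x := by
  rw [ee, Lib.LargeSieve.ee, mul_comm]

theorem ee_nat (n : ℕ) : ee n = 1 := by
  rw [ee_eq]
  exact_mod_cast Lib.LargeSieve.ee_int n

theorem geom {d : ℕ} (hd : 0 < d) (m : ℕ) :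
    ∑ l ∈ range d, ee (l * (m / d)) = if d ∣ m then (d : ℂ) else 0 := by
  have hd' : (d : ℝ) ≠ 0 := by exact_mod_cast hd.ne'
  split_ifs with h
  · obtain ⟨k, rfl⟩ := h
    have e : ∀ l : ℕ, (l : ℝ) * (((d * k : ℕ) : ℝ) / d) = ((l * k : ℕ) : ℝ) := fun l => by
      push_cast
      field_simp
    simp only [e, ee_nat, sum_const, card_range, nsmul_eq_mul, mul_one]
  · have h1 : ee (m / d) ≠ 1 := fun h1 => h <| by
      obtain ⟨n, hn⟩ := Complex.exp_eq_one_iff.1 h1
      have h2 : (2 * π * (m / d) : ℝ) = n * (2 * π) := by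
        have := congrArg Complex.im hn
        simpa using this
      have h3 : (m : ℝ) = d * n := by
        field_simp at h2
        linarith
      exact Int.natCast_dvd_natCast.1 ⟨n, by exact_mod_cast h3⟩
    have h2 : ee (m / d) ^ d = 1 := by
      rw [ee_eq, ← Lib.LargeSieve.ee_nat_mul, mul_div_cancel₀ _ hd', ← ee_eq, ee_nat]
    simp only [ee_eq, Lib.LargeSieve.ee_nat_mul] at h1 h2 ⊢
    rw [geom_sum_eq h1, h2, sub_self, zero_div]

theorem sum_range_mul (f : ℕ → ℂ) (q n : ℕ) :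
    ∑ b ∈ range (q * n), f b = ∑ l ∈ range n, ∑ b ∈ range q, f (q * l + b) := by
  induction n with
  | zero => simp
  | succ n ih => rw [mul_add_one, sum_range_add, ih, sum_range_succ]

theorem per {g : ℕ → ℂ} {q d : ℕ} (hq : 0 < q) (hd : 0 < d) (hg : ∀ l b, g (q * l + b) = g b)
    (m : ℕ) : ∑ b ∈ range (q * d), g b * ee (b * m / (q * d)) =
      if d ∣ m then d * ∑ b ∈ range q, g b * ee ((m / d : ℕ) * (b / q)) else 0 := by
  have hd' : (d : ℝ) ≠ 0 := by exact_mod_cast hd.ne'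
  have hq' : (q : ℝ) ≠ 0 := by exact_mod_cast hq.ne'
  have e : ∀ l b : ℕ, g (q * l + b) * ee ((q * l + b : ℕ) * m / (q * d)) =
      ee (l * (m / d)) * (g b * ee (b * m / (q * d))) := fun l b => by
    rw [hg, mul_left_comm, ← ee_add]
    congr 2
    push_cast
    field_simp
  rw [sum_range_mul]
  simp only [e, ← mul_sum, ← sum_mul, geom hd]
  split_ifs with h
  · obtain ⟨k, rfl⟩ := h
    rw [Nat.mul_div_cancel_left _ hd]
    congr 1
    refine sum_congr rfl fun b _ => ?_
    congr 2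
    push_cast
    field_simp
  · rw [zero_mul]

theorem main {g : ℕ → ℂ} {q r : ℕ} (hq : 0 < q) (hr : 0 < r) (hg : ∀ l b, g (q * l + b) = g b)
    (hm : ∀ a b, g (a * b) = g a * g b) (m : ℕ) :
    ∑ a ∈ (range (q * r)).filter (fun a => a.Coprime r), g a * ee (a * m / (q * r)) =
      ∑ d ∈ r.divisors, if d ∣ m then mu (r / d) * d *
        (g (r / d) * ∑ b ∈ range q, g b * ee ((m / d : ℕ) * (b / q))) else 0 := by
  have e1 : ∀ (a : ℕ) (x : ℂ), (if a.Coprime r then x else 0) =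
      ∑ e ∈ r.divisors, if e ∣ a then mu e * x else 0 := fun a x => by
    have e2 : r.divisors.filter (· ∣ a) = (a.gcd r).divisors := by
      ext e
      simp [Nat.dvd_gcd_iff, hr.ne', and_comm]
    simp only [mu_apply]
    rw [← sum_filter, ← sum_mul, e2, PVAux.sum_moebius]
    simp [Nat.Coprime]
  rw [sum_filter, sum_congr rfl fun a _ => e1 a _, sum_comm, ← Nat.sum_div_divisors]
  refine sum_congr rfl fun d hd => ?_
  obtain ⟨e, rfl⟩ := Nat.dvd_of_mem_divisors hd
  have hd0 : 0 < d := Nat.pos_of_mul_pos_right hr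
  have he0 : 0 < e := Nat.pos_of_mul_pos_left hr
  have he' : (e : ℝ) ≠ 0 := by exact_mod_cast he0.ne'
  have e3 : (range (q * (d * e))).filter (e ∣ ·) = (range (q * d)).image (e * ·) := by
    ext a
    simp only [mem_filter, Finset.mem_range, Finset.mem_image]
    constructor
    · rintro ⟨a1, k, rfl⟩
      exact ⟨k, lt_of_mul_lt_mul_left (a := e) (by linarith) (Nat.zero_le _), rfl⟩
    · rintro ⟨k, a1, rfl⟩
      exact ⟨by nlinarith, k, rfl⟩
  have e4 : ∀ b : ℕ, mu e * (g (e * b) * ee ((e * b : ℕ) * m / (q * (d * e : ℕ)))) =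
      mu e * g e * (g b * ee (b * m / (q * d))) := fun b => by
    have : ((e * b : ℕ) : ℝ) * m / (q * (d * e : ℕ)) = b * m / (q * d) := by
      push_cast
      field_simp
    rw [hm, this]
    ring
  rw [Nat.mul_div_cancel_left _ hd0, ← sum_filter, e3,
    sum_image fun a _ b _ hab => Nat.eq_of_mul_eq_mul_left he0 hab]
  simp only [e4, ← mul_sum, per hq hd0 hg]
  split_ifs
  · ring
  · rw [mul_zero]

theorem gs {q : ℕ} [NeZero q] {ψ : DirichletCharacter ℂ q} (hψ : ψ.IsPrimitive) (k : ℕ) :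
    ∑ b ∈ range q, ψ b * ee (k * (b / q)) = ψ⁻¹ k * gaussSum ψ (ZMod.stdAddChar (N := q)) := by
  rw [← gaussSum_mulShift_of_isPrimitive (ZMod.stdAddChar (N := q)) hψ (k : ZMod q), gaussSum]
  symm
  refine sum_bij' (fun a _ => a.val) (fun b _ => (b : ZMod q)) (fun a _ => ?_) (fun _ _ => ?_)
    (fun a _ => ?_) (fun b hb => ?_) fun a _ => ?_
  · exact Finset.mem_range.2 (ZMod.val_lt a)
  · exact mem_univ _
  · exact ZMod.natCast_zmod_val a
  · exact ZMod.val_cast_of_lt (Finset.mem_range.1 hb)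
  · rw [AddChar.mulShift_apply, Lib.LargeSieve.stdAddChar_eq_ee, ee_eq, ZMod.natCast_zmod_val]

end GaussAux

theorem ram_eq {r : ℕ} (hr : 0 < r) (m : ℕ) :
    ∑ a ∈ (Finset.range r).filter (fun a => a.Coprime r), ee (a * m / r) = ram r m := by
  have h := GaussAux.main (g := fun _ => 1) Nat.one_pos hr (fun _ _ => rfl)
    (fun _ _ => (one_mul _).symm) m
  simpa [ram] using h

theorem gauss_split {q r : ℕ} [NeZero q] (hr : 0 < r) (h : q.Coprime r)
    {ψ : DirichletCharacter ℂ q} (hψ : ψ.IsPrimitive) (m : ℕ) :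
    ∑ a ∈ (Finset.range (q * r)).filter (fun a => a.Coprime (q * r)), ψ a * ee (a * m / (q * r)) =
      ψ r * ψ⁻¹ m * gaussSum ψ (ZMod.stdAddChar (N := q)) * ram r m := by
  have h1 := GaussAux.main (g := fun a => ψ a) (NeZero.pos q) hr (fun l b => by simp)
    (fun a b => by simp) m
  have h2 : ∑ a ∈ (Finset.range (q * r)).filter (fun a => a.Coprime (q * r)),
      ψ a * ee (a * m / (q * r)) = ∑ a ∈ (Finset.range (q * r)).filter (fun a => a.Coprime r),
      ψ a * ee (a * m / (q * r)) := by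
    refine Finset.sum_subset (fun a ha => ?_) fun a ha ha' => ?_
    · rw [Finset.mem_filter] at ha ⊢
      exact ⟨ha.1, (Nat.coprime_mul_iff_right.1 ha.2).2⟩
    · rw [Finset.mem_filter] at ha ha'
      rw [ψ.map_nonunit fun hu => ha' ⟨ha.1, Nat.coprime_mul_iff_right.2
        ⟨(ZMod.isUnit_iff_coprime a q).1 hu, ha.2⟩⟩, zero_mul]
  rw [h2, h1, ram, Finset.mul_sum]
  refine Finset.sum_congr rfl fun d hd => ?_
  split_ifs with hm
  · obtain ⟨e, rfl⟩ := Nat.dvd_of_mem_divisors hd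
    obtain ⟨k, rfl⟩ := hm
    have hd0 : 0 < d := Nat.pos_of_mul_pos_right hr
    have hu : IsUnit (d : ZMod q) :=
      (ZMod.isUnit_iff_coprime d q).2 (Nat.coprime_mul_iff_right.1 h).1.symm
    have h3 : ψ d * ψ⁻¹ d = 1 := by
      rw [← MulChar.mul_apply, mul_inv_cancel, MulChar.one_apply hu]
    rw [Nat.mul_div_cancel_left _ hd0, Nat.mul_div_cancel_left _ hd0, GaussAux.gs hψ]
    push_cast
    rw [map_mul, map_mul]
    linear_combination -(mu e * d * ψ e * ψ⁻¹ k * gaussSum ψ (ZMod.stdAddChar (N := q))) * h3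
  · rw [mul_zero]

end Pool.Agent.P.MP_7eacff_nt.SZ
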