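import Pool.Agent.P.MP_7eacff_nt.SZ.Inv
import Pool.Agent.P.MP_7eacff_nt.SZ.Gam
import Pool.Agent.P.MP_7eacff_nt.SZ.Strip

/-!
The transform of a window times the gamma factor.
-/

open Complex Filter Topology MeasureTheory Set
open scoped Real ContDiff

namespace Pool.Agent.P.MP_7eacff_nt.SZ

open Pool.Agent.Lib.LargeSieve (primSet mem_primSet)

namespace GonekAux

open GamAux

theorem re_line (t : ℝ) : (3 / 2 + t * I : ℂ).re = 3 / 2 := by simp

theorem im_line (t : ℝ) : (3 / 2 + t * I : ℂ).im = t := by simp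

theorem cp {y : ℝ} (hy : 0 < y) (w : ℂ) : (y : ℂ) ^ w = cexp (w * Real.log y) := by
  rw [cpow_def_of_ne_zero (ofReal_ne_zero.2 hy.ne'), ofReal_log hy.le, mul_comm]

theorem cont_line {f : ℂ → ℂ} (hf : ∀ s : ℂ, 0 < s.re → DifferentiableAt ℂ f s) :
    Continuous fun t : ℝ => f (3 / 2 + t * I) :=
  continuous_iff_continuousAt.2 fun t =>
    ContinuousAt.comp (f := fun t : ℝ => (3 / 2 + t * I : ℂ))
      (hf _ (by rw [re_line]; norm_num)).continuousAt (by fun_prop)

theorem lint_wf_mul {φ : ℝ → ℝ} (h : Tst φ) {T : ℝ} (hT : 0 < T) {g : ℂ → ℂ}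
    (hg : PolyG g (3 / 2) (3 / 2)) (hd : ∀ s : ℂ, 0 < s.re → DifferentiableAt ℂ g s) :
    LInt fun s => wf φ T s * g s :=
  Dec.lint (Dec.mul_poly (dec_wf h hT _ _) hg 2)
    (cont_line fun s hs => (differentiable_wf h T s).mul (hd s hs))

theorem lint_cpow {g : ℂ → ℂ} (hg : LInt g) {x : ℝ} (hx : 0 < x) :
    LInt fun s => g s * (x : ℂ) ^ (-s) := by
  refine Integrable.mul_bdd (c := x ^ (-(3 / 2) : ℝ)) hg ?_ (Eventually.of_forall fun t => ?_)
  · simp only [cp hx]
    fun_prop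
  · rw [norm_cpow_eq_rpow_re_of_pos hx, neg_re, re_line]

/-- The kernel after the exponential substitution. -/
noncomputable def K (r : ℂ) (T x : ℝ) (s : ℂ) (v : ℝ) : ℂ :=
  cexp (-(r * (x * Real.exp (-v / T) : ℝ))) * cexp (-s * (v / T : ℝ))

theorem integral_K {r s : ℂ} {T x : ℝ} (hr : 0 < r.re) (hs : 0 < s.re) (hT : 0 < T) (hx : 0 < x) :
    ∫ v, K r T x s v = T * ((1 / r) ^ s * Gamma s * (x : ℂ) ^ (-s)) := by
  have hd : ∀ v ∈ (univ : Set ℝ), HasDerivWithinAt (fun v : ℝ => x * Real.exp (-v / T))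
      (x * (Real.exp (-v / T) * (-1 / T))) univ v := fun v _ =>
    ((((hasDerivAt_id v).neg.div_const T).exp).const_mul x).hasDerivWithinAt
  have hi : InjOn (fun v : ℝ => x * Real.exp (-v / T)) univ := by
    intro a _ b _ hab
    have h1 := Real.exp_injective (mul_left_cancel₀ hx.ne' hab)
    field_simp at h1
    linarith
  have him : (fun v : ℝ => x * Real.exp (-v / T)) '' univ = Ioi 0 := by
    ext u
    constructor
    · rintro ⟨v, _, rfl⟩
      show 0 < x * Real.exp (-v / T)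
      positivity
    · intro hu
      have hu' : 0 < u := hu
      refine ⟨-(T * Real.log (u / x)), trivial, ?_⟩
      show x * Real.exp (- -(T * Real.log (u / x)) / T) = u
      rw [neg_neg, mul_div_cancel_left₀ _ hT.ne', Real.exp_log (by positivity)]
      field_simp
  have h := integral_image_eq_integral_abs_deriv_smul MeasurableSet.univ hd hi
    fun u : ℝ => (u : ℂ) ^ (s - 1) * cexp (-(r * u))
  rw [him, integral_gamma hs hr, Measure.restrict_univ] at h
  rw [h, ← integral_mul_const, ← integral_const_mul]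
  refine integral_congr_ae (Eventually.of_forall fun v => ?_)
  have hp : 0 < x * Real.exp (-v / T) := by positivity
  have e1 : |x * (Real.exp (-v / T) * (-1 / T))| = x * Real.exp (-v / T) / T := by
    rw [abs_of_neg (by
      have : 0 < x * (Real.exp (-v / T) * (1 / T)) := by positivity
      linarith [this, show x * (Real.exp (-v / T) * (-1 / T)) =
        -(x * (Real.exp (-v / T) * (1 / T))) by ring])]
    ring
  have e2 : Real.log (x * Real.exp (-v / T)) = Real.log x - v / T := by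
    rw [Real.log_mul hx.ne' (Real.exp_pos _).ne', Real.log_exp]; ring
  have e3 : ((x * Real.exp (-v / T) : ℝ) : ℂ) = cexp ((Real.log x - v / T : ℝ) : ℂ) := by
    rw [← ofReal_exp, ← e2, Real.exp_log hp]
  have hT' : (T : ℂ) ≠ 0 := ofReal_ne_zero.2 hT.ne'
  have e4 : cexp (-s * (v / T : ℝ)) = cexp ((Real.log x - v / T : ℝ) : ℂ) *
      cexp ((s - 1) * (Real.log x - v / T : ℝ)) * cexp (-s * Real.log x) := by
    rw [← Complex.exp_add, ← Complex.exp_add]
    congr 1
    push_cast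
    ring
  simp only [K]
  rw [e1, cp hp, cp hx, e2, real_smul, e4, ofReal_div, ← e3]
  field_simp

theorem norm_K (r : ℂ) (T x t v : ℝ) : ‖K r T x (3 / 2 + t * I) v‖ = ‖K r T x (3 / 2) v‖ := by
  simp only [K, norm_mul, norm_exp]
  congr 2
  simp

theorem integrable_K {r : ℂ} {T x : ℝ} (hr : 0 < r.re) (hT : 0 < T) (hx : 0 < x) :
    Integrable (K r T x (3 / 2)) := by
  have hs : 0 < (3 / 2 : ℂ).re := by norm_num
  have hr0 : r ≠ 0 := fun h => by simp [h] at hr
  refine Integrable.of_integral_ne_zero ?_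
  rw [integral_K hr hs hT hx]
  refine mul_ne_zero (ofReal_ne_zero.2 hT.ne') (mul_ne_zero (mul_ne_zero ?_
    (Gamma_ne_zero_of_re_pos hs)) ?_)
  · simp [hr0]
  · simp [hx.ne']

/-- The integrand on the side of the test function. -/
noncomputable def E (φ : ℝ → ℝ) (r : ℂ) (T x v : ℝ) : ℂ :=
  cexp (-(r * (x * Real.exp (-v / T) : ℝ))) * (Real.exp (-v / (2 * T)) * φ v : ℝ)

theorem LI_rate {φ : ℝ → ℝ} (h : Tst φ) {r : ℂ} {T x : ℝ} (hr : 0 < r.re) (hT : 0 < T)
    (hx : 0 < x) :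
    LI (fun s => wf φ T s * ((1 / r) ^ s * Gamma s * (x : ℂ) ^ (-s))) = ∫ v, E φ r T x v := by
  have hT' : (T : ℂ) ≠ 0 := ofReal_ne_zero.2 hT.ne'
  have hc : Continuous fun t : ℝ => wf φ T (3 / 2 + t * I) :=
    cont_line fun s _ => differentiable_wf h T s
  have hw : Integrable fun t : ℝ => wf φ T (3 / 2 + t * I) := Dec.lint (dec_wf h hT _ _ 2) hc
  have hI : Integrable (Function.uncurry fun t v : ℝ =>
      wf φ T (3 / 2 + t * I) * K r T x (3 / 2 + t * I) v) (volume.prod volume) := by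
    refine Integrable.mono' (hw.norm.mul_prod (integrable_K hr hT hx).norm) ?_
      (Eventually.of_forall fun p => ?_)
    · refine Continuous.aestronglyMeasurable ((hc.comp continuous_fst).mul ?_)
      simp only [K]
      fun_prop
    · simp only [Function.uncurry, norm_mul, norm_K]
      exact le_rfl
  have h1 := integral_integral_swap hI
  have h2 : ∀ t : ℝ, ∫ v, wf φ T (3 / 2 + t * I) * K r T x (3 / 2 + t * I) v =
      T * (wf φ T (3 / 2 + t * I) * ((1 / r) ^ (3 / 2 + t * I : ℂ) * Gamma (3 / 2 + t * I) *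
        (x : ℂ) ^ (-(3 / 2 + t * I : ℂ)))) := by
    intro t
    rw [integral_const_mul, integral_K hr (by rw [re_line]; norm_num) hT hx]
    ring
  have hpi : (2 * π : ℂ) ≠ 0 := mul_ne_zero two_ne_zero (ofReal_ne_zero.2 Real.pi_ne_zero)
  have h3 : ∀ v : ℝ, ∫ t : ℝ, wf φ T (3 / 2 + t * I) * K r T x (3 / 2 + t * I) v =
      T * (2 * π) * E φ r T x v := by
    intro v
    have h4 := LI_wf_cpow h hT (Real.exp_pos (v / T))
    simp only [LI, cp (Real.exp_pos (v / T)), Real.log_exp] at h4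
    rw [div_eq_iff hpi, mul_div_cancel₀ _ hT.ne', ← Real.exp_mul,
      show v / T * -(1 / 2) = -v / (2 * T) by field_simp] at h4
    simp only [K, E, mul_left_comm (wf φ T _)]
    rw [integral_const_mul, h4]
    push_cast
    ring
  simp only [h2, h3, integral_const_mul] at h1
  unfold LI
  rw [div_eq_iff hpi]
  apply mul_left_cancel₀ hT'
  rw [h1]
  ring

theorem norm_rate_le {e a : ℝ} (he : 0 ≤ e) (ha : 1 ≤ |a|) (t : ℝ) :
    ‖(1 / (e + a * I : ℂ)) ^ (3 / 2 + t * I : ℂ)‖ ≤ Real.exp (π / 2 * |t|) := by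
  have h1 : 1 ≤ ‖(e + a * I : ℂ)‖ := ha.trans (by simpa using abs_im_le_norm (e + a * I : ℂ))
  have h0 : (e + a * I : ℂ) ≠ 0 := norm_pos_iff.1 (by linarith)
  have h2 : ‖1 / (e + a * I : ℂ)‖ ≤ 1 := by
    rw [norm_div, norm_one]
    exact div_le_one_of_le₀ h1 (norm_nonneg _)
  have h3 : |arg (1 / (e + a * I : ℂ))| ≤ π / 2 := by
    rw [abs_arg_le_pi_div_two_iff, one_div, inv_re]
    exact div_nonneg (by simpa using he) (normSq_nonneg _)
  rw [norm_cpow_of_ne_zero (one_div_ne_zero h0), re_line, im_line, div_eq_mul_inv, ← Real.exp_neg]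
  refine (mul_le_of_le_one_left (Real.exp_pos _).le
    (Real.rpow_le_one (norm_nonneg _) h2 (by norm_num))).trans (Real.exp_le_exp.2 ?_)
  refine (neg_le_abs _).trans ?_
  rw [abs_mul]
  gcongr

theorem polyG_rate {a : ℝ} (ha : 1 ≤ |a|) : ∃ C : ℝ, ∀ e : ℝ, 0 ≤ e → ∀ t : ℝ,
    ‖(1 / (e + a * I : ℂ)) ^ (3 / 2 + t * I : ℂ) * Gamma (3 / 2 + t * I)‖ ≤ C * (1 + |t|) ^ 3 := by
  obtain ⟨C, hC, h⟩ := norm_Gamma_le_exp
  refine ⟨C, fun e he t => ?_⟩
  have h1 := h (3 / 2 + t * I) (by rw [re_line]; norm_num) (by rw [re_line]; norm_num)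
  rw [im_line] at h1
  rw [norm_mul]
  calc _ ≤ Real.exp (π / 2 * |t|) * (C * (1 + |t|) ^ 3 * Real.exp (-(π / 2 * |t|))) :=
        mul_le_mul (norm_rate_le he ha t) h1 (norm_nonneg _) (Real.exp_pos _).le
    _ = C * (1 + |t|) ^ 3 * (Real.exp (-(π / 2 * |t|)) * Real.exp (π / 2 * |t|)) := by ring
    _ = _ := by rw [← Real.exp_add, neg_add_cancel, Real.exp_zero, mul_one]

theorem rate_mem {a : ℝ} (ha : 1 ≤ |a|) (e : ℝ) : 1 / (e + a * I : ℂ) ∈ slitPlane := by
  have ha0 : a ≠ 0 := fun h => by rw [h] at ha; norm_num at ha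
  have h0 : (e + a * I : ℂ) ≠ 0 := fun h => ha0 (by simpa using congrArg im h)
  right
  rw [one_div, inv_im]
  exact div_ne_zero (by simpa using ha0) (normSq_pos.2 h0).ne'

theorem norm_E_le {φ : ℝ → ℝ} {r : ℂ} (hr : 0 ≤ r.re) {T x : ℝ} (hx : 0 < x) (v : ℝ) :
    ‖E φ r T x v‖ ≤ ‖Real.exp (-v / (2 * T)) * φ v‖ := by
  rw [E, norm_mul, norm_real]
  refine mul_le_of_le_one_left (norm_nonneg _) ?_
  rw [norm_exp, neg_re, re_mul_ofReal]
  exact Real.exp_le_one_iff.2 (neg_nonpos.2 (by positivity))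

theorem int_weight {φ : ℝ → ℝ} (h : Tst φ) (T : ℝ) :
    Integrable fun v => Real.exp (-v / (2 * T)) * φ v :=
  Continuous.integrable_of_hasCompactSupport (Continuous.mul (by fun_prop) h.cd.continuous)
    h.cs.mul_left

theorem cont_E {φ : ℝ → ℝ} (h : Tst φ) (r : ℂ) (T x : ℝ) : Continuous (E φ r T x) := by
  have := h.cd.continuous
  unfold E
  fun_prop

theorem LI_lim {φ : ℝ → ℝ} (h : Tst φ) {a T x : ℝ} (ha : 1 ≤ |a|) (hT : 0 < T) (hx : 0 < x) :
    LInt (fun s => wf φ T s * ((1 / (a * I)) ^ s * Gamma s * (x : ℂ) ^ (-s))) ∧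
    LI (fun s => wf φ T s * ((1 / (a * I)) ^ s * Gamma s * (x : ℂ) ^ (-s))) =
      ∫ v, E φ (a * I) T x v := by
  obtain ⟨C, hC⟩ := polyG_rate ha
  obtain ⟨D, hD⟩ := dec_wf h hT (3 / 2) (3 / 2) 5
  have hbd : Integrable fun t : ℝ => |D| * |C| * x ^ (-(3 / 2) : ℝ) * (1 + t ^ 2)⁻¹ :=
    integrable_inv_one_add_sq.const_mul _
  have hm : ∀ e : ℝ, Continuous fun t : ℝ => wf φ T (3 / 2 + t * I) *
      ((1 / (e + a * I : ℂ)) ^ (3 / 2 + t * I : ℂ) * Gamma (3 / 2 + t * I) *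
        (x : ℂ) ^ (-(3 / 2 + t * I : ℂ))) := by
    intro e
    refine cont_line (f := fun s => wf φ T s * ((1 / (e + a * I : ℂ)) ^ s * Gamma s *
      (x : ℂ) ^ (-s))) fun s hs => (differentiable_wf h T s).mul (DifferentiableAt.mul
        (DifferentiableAt.mul ?_ (differentiableAt_Gamma s (ne_neg_nat hs))) ?_)
    · exact differentiableAt_id.const_cpow (Or.inl (slitPlane_ne_zero (rate_mem ha e)))
    · exact differentiableAt_id.neg.const_cpow (Or.inl (ofReal_ne_zero.2 hx.ne'))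
  have hle : ∀ e : ℝ, 0 ≤ e → ∀ t : ℝ, ‖wf φ T (3 / 2 + t * I) *
      ((1 / (e + a * I : ℂ)) ^ (3 / 2 + t * I : ℂ) * Gamma (3 / 2 + t * I) *
        (x : ℂ) ^ (-(3 / 2 + t * I : ℂ)))‖ ≤ |D| * |C| * x ^ (-(3 / 2) : ℝ) * (1 + t ^ 2)⁻¹ := by
    intro e he t
    have h1 := hD (3 / 2 + t * I) (re_line t).ge (re_line t).le
    rw [im_line] at h1
    have h2 := hC e he t
    have ht := abs_nonneg t
    rw [norm_mul, norm_mul, norm_cpow_eq_rpow_re_of_pos hx, neg_re, re_line]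
    calc _ ≤ |D| / (1 + |t|) ^ 5 * (|C| * (1 + |t|) ^ 3 * x ^ (-(3 / 2) : ℝ)) := by
          gcongr
          · exact h1.trans (by gcongr; exact le_abs_self D)
          · exact h2.trans (by gcongr; exact le_abs_self C)
      _ = |D| * |C| * x ^ (-(3 / 2) : ℝ) * ((1 + |t|) ^ 2)⁻¹ := by field_simp
      _ ≤ _ := by
          gcongr
          nlinarith [sq_abs t]
  refine ⟨?_, ?_⟩
  · have := Integrable.mono' hbd (hm 0).aestronglyMeasurable (Eventually.of_forall (hle 0 le_rfl))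
    simpa only [ofReal_zero, zero_add, LInt] using this
  have t1 := (tendsto_integral_filter_of_dominated_convergence (l := 𝓝[>] (0 : ℝ))
    (f := fun t : ℝ => wf φ T (3 / 2 + t * I) *
      ((1 / (a * I : ℂ)) ^ (3 / 2 + t * I : ℂ) * Gamma (3 / 2 + t * I) *
        (x : ℂ) ^ (-(3 / 2 + t * I : ℂ)))) _
    (Eventually.of_forall fun e => (hm e).aestronglyMeasurable)
    (eventually_mem_nhdsWithin.mono fun e he => Eventually.of_forall (hle e (le_of_lt he))) hbd
    (Eventually.of_forall fun t => by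
      refine Tendsto.const_mul _ (Tendsto.mul_const _ (Tendsto.mul_const _ ?_))
      have h0 : (((0 : ℝ) : ℂ) + a * I : ℂ) ≠ 0 :=
        fun h0 => slitPlane_ne_zero (rate_mem ha 0) (by rw [h0, div_zero])
      have h1 : ContinuousAt (fun e : ℝ => (1 / (e + a * I : ℂ)) ^ (3 / 2 + t * I : ℂ)) 0 :=
        ContinuousAt.cpow (continuousAt_const.div (by fun_prop) h0) continuousAt_const
          (rate_mem ha 0)
      simpa only [ofReal_zero, zero_add] using h1.tendsto.mono_left nhdsWithin_le_nhds)).div_const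
    (2 * π : ℂ)
  have t2 := tendsto_integral_filter_of_dominated_convergence (l := 𝓝[>] (0 : ℝ)) (μ := volume)
    (F := fun e : ℝ => E φ (e + a * I) T x) (f := E φ (a * I) T x) _
    (Eventually.of_forall fun e => (cont_E h _ T x).aestronglyMeasurable)
    (eventually_mem_nhdsWithin.mono fun e he => Eventually.of_forall
      (norm_E_le (by simpa using le_of_lt he) hx)) (int_weight h T).norm
    (Eventually.of_forall fun v => by
      have h1 : Continuous fun e : ℝ => E φ (e + a * I) T x v := by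
        unfold E
        fun_prop
      simpa only [ofReal_zero, zero_add] using (h1.tendsto 0).mono_left nhdsWithin_le_nhds)
  refine tendsto_nhds_unique (t1.congr' ?_) t2
  filter_upwards [self_mem_nhdsWithin] with e he
  exact LI_rate h (by simpa using he) hT hx

theorem rate_pow {y : ℝ} (hy : 0 < y) (s : ℂ) :
    (1 / (y * I : ℂ)) ^ s = (y : ℂ) ^ (-s) * cexp (-(π * s / 2) * I) ∧
    (1 / ((-y : ℝ) * I : ℂ)) ^ s = (y : ℂ) ^ (-s) * cexp (π * s / 2 * I) := by
  have hy' : (y : ℂ) ≠ 0 := ofReal_ne_zero.2 hy.ne'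
  have e1 : 1 / (y * I : ℂ) = ((y⁻¹ : ℝ) : ℂ) * -I := by
    push_cast
    field_simp
    simp
  have e2 : 1 / ((-y : ℝ) * I : ℂ) = ((y⁻¹ : ℝ) : ℂ) * I := by
    push_cast
    field_simp
    simp
  have hI : -I ≠ 0 := neg_ne_zero.2 I_ne_zero
  have hy2 : ((y⁻¹ : ℝ) : ℂ) ≠ 0 := ofReal_ne_zero.2 (inv_ne_zero hy.ne')
  constructor
  · rw [e1, cpow_def_of_ne_zero (mul_ne_zero hy2 hI), log_ofReal_mul (inv_pos.2 hy) hI, log_neg_I,
      cp hy, ← Complex.exp_add, Real.log_inv]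
    congr 1
    push_cast
    ring
  · rw [e2, cpow_def_of_ne_zero (mul_ne_zero hy2 I_ne_zero),
      log_ofReal_mul (inv_pos.2 hy) I_ne_zero, log_I, cp hy, ← Complex.exp_add, Real.log_inv]
    congr 1
    push_cast
    ring

theorem chi_eq (s : ℂ) : chi s = (1 / ((2 * π : ℝ) * I : ℂ)) ^ s * Gamma s +
    (1 / ((-(2 * π) : ℝ) * I : ℂ)) ^ s * Gamma s := by
  obtain ⟨h1, h2⟩ := rate_pow (y := 2 * π) (by positivity) s
  rw [h1, h2, chi, Complex.cos]
  push_cast
  ring

end GonekAux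

open GonekAux

theorem lint_wf_chi {φ : ℝ → ℝ} (h : Tst φ) {T : ℝ} (hT : 0 < T) :
    LInt (fun s => wf φ T s * chi s) ∧ LInt fun s => wf φ T s * deriv chi s :=
  ⟨lint_wf_mul h hT (polyG_chi.mono (by norm_num) (by norm_num)) fun _ => differentiableAt_chi,
    lint_wf_mul h hT (polyG_deriv_chi.mono (by norm_num) (by norm_num))
      fun _ => differentiableAt_deriv_chi⟩

theorem LI_chi {φ : ℝ → ℝ} (h : Tst φ) {T x : ℝ} (hT : 0 < T) (hx : 0 < x) :
    LI (fun s => wf φ T s * chi s * (x : ℂ) ^ (-s)) = Jf φ T x := by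
  have hpi := Real.pi_gt_three
  obtain ⟨a1, a2⟩ := LI_lim h (a := 2 * π) (by rw [abs_of_pos (by positivity)]; linarith) hT hx
  obtain ⟨b1, b2⟩ := LI_lim h (a := -(2 * π))
    (by rw [abs_neg, abs_of_pos (by positivity)]; linarith) hT hx
  have hi : ∀ a : ℝ, Integrable (E φ (a * I) T x) := fun a =>
    Integrable.mono (int_weight h T) (cont_E h _ T x).aestronglyMeasurable
      (Eventually.of_forall (norm_E_le (by simp) hx))
  have e := LI_add a1 b1
  rw [a2, b2, ← integral_add (hi _) (hi _)] at e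
  rw [Jf, ← integral_complex_ofReal]
  refine ((LI_congr fun s _ => ?_).trans e).trans (integral_congr_ae (Eventually.of_forall
    fun v => ?_))
  · rw [chi_eq]
    ring
  · simp only [E]
    rw [← add_mul, mul_assoc (2 * Real.cos _), ofReal_mul (2 * Real.cos _),
      ofReal_mul 2 (Real.cos _), ofReal_cos, Complex.cos]
    congr 1
    push_cast
    ring_nf

theorem LI_deriv_chi {φ : ℝ → ℝ} (h : Tst φ) {T x : ℝ} (hT : 0 < T) (hx : 0 < x) :
    LI (fun s => wf φ T s * deriv chi s * (x : ℂ) ^ (-s)) =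
      ((Real.log x * Jf φ T x - Jf (xm φ) T x / T : ℝ) : ℂ) := by
  have hx' : (x : ℂ) ≠ 0 := ofReal_ne_zero.2 hx.ne'
  have i1 := lint_cpow (lint_wf_chi h hT).1 hx
  have i2 := lint_cpow (lint_wf_chi h hT).2 hx
  have i3 := lint_cpow (lint_wf_chi h.xmul hT).1 hx
  have i4 := (i2.add (i3.const_mul (1 / T))).add (i1.const_mul (-Real.log x))
  have hd : ∀ t : ℝ, HasDerivAt (fun t : ℝ => wf φ T (3 / 2 + t * I) * chi (3 / 2 + t * I) *
      (x : ℂ) ^ (-(3 / 2 + t * I : ℂ)))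
      (I * (wf φ T (3 / 2 + t * I) * deriv chi (3 / 2 + t * I) * (x : ℂ) ^ (-(3 / 2 + t * I : ℂ)) +
        1 / T * (wf (xm φ) T (3 / 2 + t * I) * chi (3 / 2 + t * I) *
          (x : ℂ) ^ (-(3 / 2 + t * I : ℂ))) +
        -Real.log x * (wf φ T (3 / 2 + t * I) * chi (3 / 2 + t * I) *
          (x : ℂ) ^ (-(3 / 2 + t * I : ℂ))))) t := by
    intro t
    have h0 : HasDerivAt (fun z : ℂ => 3 / 2 + z * I) (1 * I) t :=
      ((hasDerivAt_id (t : ℂ)).mul_const I).const_add _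
    have h1 := (differentiable_wf h T (3 / 2 + t * I)).hasDerivAt
    have h2 := (differentiableAt_chi (s := 3 / 2 + t * I) (by rw [re_line]; norm_num)).hasDerivAt
    have h3 : HasDerivAt (fun s : ℂ => (x : ℂ) ^ (-s))
        ((x : ℂ) ^ (-(3 / 2 + t * I : ℂ)) * log x * -1) (3 / 2 + t * I) :=
      (hasDerivAt_id (3 / 2 + t * I : ℂ)).neg.const_cpow (Or.inl hx')
    refine (HasDerivAt.comp (t : ℂ) ((h1.mul h2).mul h3) h0).comp_ofReal.congr_deriv ?_
    rw [deriv_wf h, ofReal_log hx.le]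
    simp only [Pi.mul_apply]
    ring
  have h0 := integral_eq_zero_of_hasDerivAt_of_integrable hd (Integrable.const_mul i4 I) i1
  rw [integral_const_mul, mul_eq_zero, or_iff_right I_ne_zero] at h0
  have h1 := LI_add (i2.add (i3.const_mul (1 / T))) (i1.const_mul (-Real.log x))
  rw [LI_add i2 (i3.const_mul _), LI_const_mul, LI_const_mul, LI_chi h hT hx,
    LI_chi h.xmul hT hx, LI, h0, zero_div] at h1
  push_cast
  linear_combination -h1

theorem LI_chi_sum {φ : ℝ → ℝ} (h : Tst φ) {T : ℝ} (hT : 0 < T) (b : ℕ → ℂ) {c : AF}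
    (hc : LSeriesSummable c (3 / 2)) :
    LInt (fun s => wf φ T s * chi s * LSeries c s * dp b ⌊T⌋₊ (1 - s)) ∧
    LI (fun s => wf φ T s * chi s * LSeries c s * dp b ⌊T⌋₊ (1 - s)) =
      GS (fun x => Jf φ T x) b c T := by
  obtain ⟨h1, h2⟩ := LI_series (lint_wf_chi h hT).1 b hc ⌊T⌋₊
  refine ⟨h1, h2.trans (Finset.sum_congr rfl fun k hk => ?_)⟩
  congr 1
  refine tsum_congr fun m => ?_
  rcases Nat.eq_zero_or_pos m with rfl | hm
  · simp
  · have hk' : 0 < k := (Finset.mem_Icc.1 hk).1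
    rw [LI_chi h hT (by positivity)]

theorem LI_deriv_chi_sum {φ : ℝ → ℝ} (h : Tst φ) {T : ℝ} (hT : 0 < T) (b : ℕ → ℂ) {c : AF}
    (hc : LSeriesSummable c (3 / 2)) :
    LInt (fun s => wf φ T s * deriv chi s * LSeries c s * dp b ⌊T⌋₊ (1 - s)) ∧
    LI (fun s => wf φ T s * deriv chi s * LSeries c s * dp b ⌊T⌋₊ (1 - s)) =
      GS (fun x => ((Real.log x * Jf φ T x - Jf (xm φ) T x / T : ℝ) : ℂ)) b c T := by
  obtain ⟨h1, h2⟩ := LI_series (lint_wf_chi h hT).2 b hc ⌊T⌋₊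
  refine ⟨h1, h2.trans (Finset.sum_congr rfl fun k hk => ?_)⟩
  congr 1
  refine tsum_congr fun m => ?_
  rcases Nat.eq_zero_or_pos m with rfl | hm
  · simp
  · have hk' : 0 < k := (Finset.mem_Icc.1 hk).1
    rw [LI_deriv_chi h hT (by positivity)]

end Pool.Agent.P.MP_7eacff_nt.SZ
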