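import Pool.Agent.P.MP_7eacff_nt.SZ.ZGrow
import Pool.Agent.P.MP_7eacff_nt.SZ.Wf
import Pool.Agent.P.MP_7eacff_nt.SZ.Fam

/-!
Properties of the entire function that is summed over the zeros.
-/

open Complex Filter Topology MeasureTheory Set
open scoped Real ContDiff

namespace Pool.Agent.P.MP_7eacff_nt.SZ

open Pool.Agent.Lib.LargeSieve (primSet mem_primSet)

variable {θ η : ℝ} {φ F κ : ℝ → ℝ}

theorem differentiable_Fe (F κ : ℝ → ℝ) (T : ℝ) : Differentiable ℂ (Fe F κ T) :=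
  (((differentiable_id.sub_const 1).pow 2).mul (differentiable_dp _ _)).sub
    ((differentiable_Z2.mul (differentiable_dp _ _)).div_const _)

theorem polyG_Fe (F κ : ℝ → ℝ) (T : ℝ) : PolyG (Fe F κ T) (-(1 / 2)) (3 / 2) :=
  ((((polyG_id _ _).sub (polyG_const 1 _ _)).pow 2).mul (polyG_dp _ _ _ _)).sub
    ((polyG_Z2.mul (polyG_dp _ _ _ _)).div_const _)

theorem differentiable_H0 (h : Tst φ) (F κ : ℝ → ℝ) (T : ℝ) :
    Differentiable ℂ (H0 φ F κ T) :=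
  (((differentiable_wf h T).mul (differentiable_Fe F κ T)).mul
    ((differentiable_Fe F κ T).comp (differentiable_id.const_sub 1))).div_const _

theorem H0_one_sub (he : Function.Even φ) (F κ : ℝ → ℝ) (T : ℝ) (s : ℂ) :
    H0 φ F κ T (1 - s) = H0 φ F κ T s := by
  rw [H0, H0, wf_one_sub he, sub_sub_cancel, mul_right_comm]

theorem dec_H0 (h : Tst φ) (F κ : ℝ → ℝ) {T : ℝ} (hT : 0 < T) (A : ℕ) :
    Dec (H0 φ F κ T) (-(1 / 2)) (3 / 2) A :=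
  (Dec.mul_poly (dec_wf h hT _ _) (((polyG_Fe F κ T).mul ((polyG_Fe F κ T).one_sub.mono
    (by norm_num) (by norm_num))).div_const ((T : ℂ) ^ 6)) A).congr fun s _ _ => by
      rw [H0]
      ring

theorem H0_crit (h : Tst φ) (he : Function.Even φ) (F κ : ℝ → ℝ) (T t : ℝ) :
    H0 φ F κ T (1 / 2 + t * I) =
      ((WR φ (t / T) * ‖Fe F κ T (1 / 2 + t * I)‖ ^ 2 / T ^ 6 : ℝ) : ℂ) := by
  have h1 : 1 - (1 / 2 + t * I) = (starRingEnd ℂ) (1 / 2 + t * I) := by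
    simp only [map_add, map_div₀, map_one, map_ofNat, map_mul, conj_ofReal, conj_I]
    ring
  have h2 : ∀ s, Fe F κ T ((starRingEnd ℂ) s) = (starRingEnd ℂ) (Fe F κ T s) := fun s => by
    rw [Fe, Fe, dp_conj (aA_im κ T), dp_conj (bF_im F T), Z2_conj]
    simp only [map_sub, map_mul, map_pow, map_one, map_div₀, conj_ofReal]
  rw [H0, h1, h2, wf_crit h he, mul_assoc, mul_conj, normSq_eq_norm_sq]
  simp only [ofReal_mul, ofReal_div, ofReal_pow]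

theorem H0_lower (h : Tst φ) (he : Function.Even φ)
    (hW : ∀ u ∈ Icc (1 : ℝ) 2, 1 ≤ u ^ 6 * WR φ u) (F κ : ℝ → ℝ) {T y x : ℝ} (hT : 0 < T)
    (h1 : T ≤ y) (h2 : y ≤ 2 * T) (hm : 2 ≤ mult y) (hx : 0 ≤ x)
    (hA : x ≤ (dp (aA κ T) ⌊T⌋₊ (1 / 2 + y * I)).re) :
    x ^ 2 ≤ (1 / 4 + y ^ 2) * (H0 φ F κ T (1 / 2 + y * I)).re := by
  have hy : 0 < y := hT.trans_le h1
  have h3 := hW (y / T) ⟨(one_le_div hT).2 h1, (div_le_iff₀ hT).2 h2⟩
  have h4 : ‖(1 / 2 + y * I - 1 : ℂ)‖ ^ 2 = 1 / 4 + y ^ 2 := by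
    rw [Complex.sq_norm, normSq_apply]
    simp
    ring
  have h5 : x ^ 2 ≤ ‖dp (aA κ T) ⌊T⌋₊ (1 / 2 + y * I)‖ ^ 2 :=
    pow_le_pow_left₀ hx (hA.trans (re_le_norm _)) 2
  have h6 : 0 ≤ WR φ (y / T) :=
    nonneg_of_mul_nonneg_right (zero_le_one.trans h3) (by positivity)
  have h7 : y ^ 2 ≤ 1 / 4 + y ^ 2 := by linarith
  rw [H0_crit h he, ofReal_re, Fe, Z2_eq_zero hm, zero_mul, zero_div, sub_zero, norm_mul, norm_pow,
    h4]
  calc x ^ 2 ≤ (y / T) ^ 6 * WR φ (y / T) * ‖dp (aA κ T) ⌊T⌋₊ (1 / 2 + y * I)‖ ^ 2 :=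
        h5.trans (le_mul_of_one_le_left (sq_nonneg _) h3)
    _ = y ^ 2 * (WR φ (y / T) * (y ^ 2 * ‖dp (aA κ T) ⌊T⌋₊ (1 / 2 + y * I)‖) ^ 2 / T ^ 6) := by
        ring
    _ ≤ _ := by gcongr

/-- On the line of real part `3 / 2` the function is a Dirichlet series. -/
theorem Fe_right (h : Adm θ η F κ) : ∀ᶠ T : ℝ in atTop, ∀ s : ℂ, 1 < s.re →
    LSeriesSummable (aA κ T) s ∧ LSeriesSummable (bF F T) s ∧ LSeriesSummable (fF F κ T) s ∧
    LSeries (aA κ T) s = dp (aA κ T) ⌊T⌋₊ s ∧ LSeries (bF F T) s = dp (bF F T) ⌊T⌋₊ s ∧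
    Fe F κ T s = (s - 1) ^ 2 * LSeries (fF F κ T) s := by
  filter_upwards [supp_aA zero_le_one fun v hv => h.sκ v (by linarith [h.hη]),
    (moll_bF h.tF h.sF).supp (x := 1) (by linarith [h.hη, h.hθ, h.hθη])] with T h1 h2 s hs
  rw [Real.rpow_one] at h1 h2
  obtain ⟨a1, a2⟩ := LSeries_eq_dp (fun n hn => h1 n (Nat.lt_of_floor_lt hn)) s
  obtain ⟨b1, b2⟩ := LSeries_eq_dp (fun n hn => h2 n (Nat.lt_of_floor_lt hn)) s
  obtain ⟨c1, c2⟩ := LSeries_lg hs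
  have e : ⇑(fF F κ T) = ⇑(aA κ T) + (1 / (Real.log T : ℝ) : ℂ) • ⇑(bF F T * lg) := by
    funext n
    rw [fF, ArithmeticFunction.add_apply, smul_apply', Pi.add_apply, Pi.smul_apply, smul_eq_mul]
  have d1 : LSeriesSummable (⇑(bF F T * lg)) s := ArithmeticFunction.LSeriesSummable_mul b1 c1
  have d2 : LSeries (⇑(bF F T * lg)) s = LSeries (bF F T) s * LSeries lg s :=
    ArithmeticFunction.LSeries_mul' b1 c1
  have h3 : s ≠ 1 := fun h => by simp [h] at hs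
  refine ⟨a1, b1, by rw [e]; exact a1.add (d1.smul _), a2, b2, ?_⟩
  rw [e, LSeries_add a1 (d1.smul _), LSeries_smul, d2, a2, b2, c2, Fe, Z2_eq h3]
  ring

theorem Fe_left (F κ : ℝ → ℝ) (T : ℝ) {s : ℂ} (hs : 1 < s.re) :
    Fe F κ T (1 - s) = s ^ 2 * (dp (aA κ T) ⌊T⌋₊ (1 - s) +
      (deriv chi s * LSeries un s - chi s * LSeries lg s) * dp (bF F T) ⌊T⌋₊ (1 - s) /
        (Real.log T : ℝ)) := by
  have h3 : 1 - s ≠ 1 := fun h => by
    rw [sub_eq_self.1 h, zero_re] at hs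
    linarith
  rw [Fe, Z2_eq h3, deriv_zeta_one_sub hs, (LSeries_un hs).2, (LSeries_lg hs).2]
  ring

end Pool.Agent.P.MP_7eacff_nt.SZ
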