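import Pool.Agent.P.MP_7eacff_nt.SZ.Poly

/-!
The inner Dirichlet series twisted by a Ramanujan sum.
-/

open Complex Filter Topology MeasureTheory Set
open scoped Real ContDiff

namespace Pool.Agent.P.MP_7eacff_nt.SZ

open Pool.Agent.Lib.LargeSieve (primSet mem_primSet)

namespace InnerAux

theorem one_apply (d n : ℕ) :
    (1 : DirichletCharacter ℂ d) n = if n.Coprime d then 1 else 0 := by
  split_ifs with h
  · exact MulChar.one_apply ((ZMod.isUnit_iff_coprime n d).2 h)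
  · exact MulChar.map_nonunit _ fun h' => h ((ZMod.isUnit_iff_coprime n d).1 h')

theorem mul {d : ℕ} (χ : DirichletCharacter ℂ d) {f g : AF} {s a b : ℂ}
    (hf : LSeriesHasSum (fun n => χ n * f n) s a) (hg : LSeriesHasSum (fun n => χ n * g n) s b) :
    LSeriesHasSum (fun n => χ n * (f * g) n) s (a * b) := by
  have h := hf.convolution hg
  have e := DirichletCharacter.mul_convolution_distrib χ f g
  rw [ArithmeticFunction.coe_mul] at e
  exact (congrArg (fun c => LSeriesHasSum c s (a * b)) e).mp h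

theorem shift {c c' : ℕ → ℂ} {s u a : ℂ} (h : LSeriesHasSum c (s + u) a)
    (e : ∀ n, n ≠ 0 → c' n = c n * (n : ℂ) ^ (-u)) : LSeriesHasSum c' s a := by
  have e' : LSeries.term c' s = LSeries.term c (s + u) := by
    funext n
    rcases eq_or_ne n 0 with rfl | hn
    · simp
    · rw [LSeries.term_of_ne_zero hn, LSeries.term_of_ne_zero hn, e n hn,
        cpow_add _ _ (Nat.cast_ne_zero.2 hn), cpow_neg, div_mul_eq_div_div_swap, div_eq_mul_inv (c n)]
  rw [LSeriesHasSum, e']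
  exact h

theorem value {d : ℕ} (hd : d ≠ 0) {w : ℂ} (h : 1 < w.re) :
    LSeries (fun n => (1 : DirichletCharacter ℂ d) n) w =
      (∏ p ∈ d.primeFactors, (1 - (p : ℂ) ^ (-w))) * riemannZeta w := by
  have : NeZero d := ⟨hd⟩
  rw [← DirichletCharacter.LFunction_eq_LSeries _ h]
  exact DirichletCharacter.LFunctionTrivChar_eq_mul_riemannZeta fun e => by simp [e] at h

theorem has_pw {d : ℕ} (hd : d ≠ 0) {s u : ℂ} (h : 1 < (s + u).re) :
    LSeriesHasSum (fun n => (1 : DirichletCharacter ℂ d) n * pw u n) s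
      ((∏ p ∈ d.primeFactors, (1 - (p : ℂ) ^ (-(s + u)))) * riemannZeta (s + u)) :=
  shift (value hd h ▸ (DirichletCharacter.LSeriesSummable_of_one_lt_re 1 h).LSeriesHasSum)
    fun n hn => by rw [pw_apply _ hn]

theorem has_mw {d : ℕ} (hd : d ≠ 0) {s v : ℂ} (h : 1 < (s + v).re) :
    LSeriesHasSum (fun n => (1 : DirichletCharacter ℂ d) n * mw v n) s
      ((∏ p ∈ d.primeFactors, (1 - (p : ℂ) ^ (-(s + v)))) * riemannZeta (s + v))⁻¹ := by
  have h1 := (DirichletCharacter.LSeriesSummable_mul (1 : DirichletCharacter ℂ d)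
    (ArithmeticFunction.LSeriesSummable_moebius_iff.2 h)).LSeriesHasSum
  have h2 := DirichletCharacter.LSeries.mul_mu_eq_one (1 : DirichletCharacter ℂ d) h
  rw [value hd h] at h2
  rw [eq_inv_of_mul_eq_one_right h2] at h1
  exact shift h1 fun n _ => by rw [mw_apply, mu_apply, ← mul_assoc]; rfl

/-- The identity restricted to the divisors of `m`. -/
noncomputable def dv (m : ℕ) : AF := ⟨fun d => if d ∣ m then d else 0, by simp⟩

theorem dv_apply (m d : ℕ) : dv m d = if d ∣ m then (d : ℂ) else 0 := rfl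

theorem dv_mult (m : ℕ) : (dv m).IsMultiplicative := by
  refine ⟨by simp [dv_apply], fun {a b} h => ?_⟩
  simp only [dv_apply]
  by_cases ha : a ∣ m
  · by_cases hb : b ∣ m
    · rw [if_pos ha, if_pos hb, if_pos (h.mul_dvd_of_dvd_of_dvd ha hb), Nat.cast_mul]
    · rw [if_neg hb, if_neg fun h' => hb (dvd_of_mul_left_dvd h'), mul_zero]
  · rw [if_neg ha, if_neg fun h' => ha (dvd_of_mul_right_dvd h'), zero_mul]

theorem mu_ram {k : ℕ} (hk : Squarefree k) (m : ℕ) :
    mu k * ram k m = ∏ p ∈ k.primeFactors, (1 - dv m p) := by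
  rw [(dv_mult m).prodPrimeFactors_one_sub_of_squarefree _ hk, ram, Finset.mul_sum]
  refine Finset.sum_congr rfl fun d hd => ?_
  obtain ⟨e, rfl⟩ := Nat.dvd_of_mem_divisors hd
  have h0 : 0 < d := Nat.pos_of_mem_divisors hd
  have h1 : (ArithmeticFunction.moebius e : ℂ) ^ 2 = 1 := by
    exact_mod_cast ArithmeticFunction.moebius_sq_eq_one_of_squarefree hk.of_mul_right
  rw [Nat.mul_div_cancel_left _ h0, mu_apply, mu_apply, dv_apply,
    ArithmeticFunction.isMultiplicative_moebius.map_mul_of_coprime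
      (Nat.coprime_of_squarefree_mul hk), Int.cast_mul]
  split_ifs
  · linear_combination (ArithmeticFunction.moebius d : ℂ) * d * h1
  · simp

end InnerAux

theorem LSeries_cel {s u₁ u₂ u₃ v₁ v₂ : ℂ} (h₁ : 1 < (s + u₁).re) (h₂ : 1 < (s + u₂).re)
    (h₃ : 1 < (s + u₃).re) (k₁ : 1 < (s + v₁).re) (k₂ : 1 < (s + v₂).re) (d : ℕ) (hd : d ≠ 0) :
    LSeriesSummable (fun m => if m.Coprime d then cel u₁ u₂ u₃ v₁ v₂ m else 0) s ∧
    LSeries (fun m => if m.Coprime d then cel u₁ u₂ u₃ v₁ v₂ m else 0) s =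
      riemannZeta (s + u₁) * riemannZeta (s + u₂) * riemannZeta (s + u₃) /
        (riemannZeta (s + v₁) * riemannZeta (s + v₂)) *
        ∏ p ∈ d.primeFactors, Dp s u₁ u₂ u₃ v₁ v₂ p := by
  have h := InnerAux.mul _ (InnerAux.mul _ (InnerAux.mul _ (InnerAux.has_pw hd h₁)
    (InnerAux.has_mw hd k₁)) (InnerAux.mul _ (InnerAux.has_pw hd h₂) (InnerAux.has_mw hd k₂)))
    (InnerAux.has_pw hd h₃)
  simp only [InnerAux.one_apply, ite_mul, one_mul, zero_mul] at h
  refine ⟨h.LSeriesSummable, h.LSeries_eq.trans ?_⟩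
  simp only [Dp, Finset.prod_div_distrib, Finset.prod_mul_distrib]
  simp only [div_eq_mul_inv, mul_inv]
  ring

theorem mu_mul_ram {k : ℕ} (hk : Squarefree k) (m : ℕ) :
    mu k * ram k m = ∑ S ∈ k.primeFactors.powerset, (∏ p ∈ k.primeFactors \ S, (1 - (p : ℂ))) *
      (∏ p ∈ S, (p : ℂ)) * if m.Coprime (∏ p ∈ S, p) then 1 else 0 := by
  have e : ∀ p ∈ k.primeFactors, 1 - InnerAux.dv m p =
      (p : ℂ) * (if m.Coprime p then 1 else 0) + (1 - p) := fun p hp => by
    have h := (Nat.prime_of_mem_primeFactors hp).coprime_iff_not_dvd (n := m)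
    rw [InnerAux.dv_apply]
    by_cases h' : p ∣ m
    · rw [if_pos h', if_neg fun c => h.1 (Nat.Coprime.symm c) h']; ring
    · rw [if_neg h', if_pos (h.2 h').symm]; ring
  rw [InnerAux.mu_ram hk, Finset.prod_congr rfl e, Finset.prod_add]
  refine Finset.sum_congr rfl fun S _ => ?_
  rw [Finset.prod_mul_distrib, Finset.prod_boole, mul_comm, mul_assoc]
  simp only [Nat.coprime_prod_right_iff]

theorem inner_sum {s u₁ u₂ u₃ v₁ v₂ : ℂ} (h₁ : 1 < (s + u₁).re) (h₂ : 1 < (s + u₂).re)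
    (h₃ : 1 < (s + u₃).re) (k₁ : 1 < (s + v₁).re) (k₂ : 1 < (s + v₂).re) {k : ℕ}
    (hk : Squarefree k) :
    ∑' m : ℕ, cel u₁ u₂ u₃ v₁ v₂ m * (mu k * ram k m) * (m : ℂ) ^ (-s) =
      riemannZeta (s + u₁) * riemannZeta (s + u₂) * riemannZeta (s + u₃) /
        (riemannZeta (s + v₁) * riemannZeta (s + v₂)) *
        ∏ p ∈ k.primeFactors, (1 - p + p * Dp s u₁ u₂ u₃ v₁ v₂ p) := by
  have hp : ∀ S ∈ k.primeFactors.powerset, ∀ p ∈ S, p.Prime := fun S hS p hp =>
    Nat.prime_of_mem_primeFactors (Finset.mem_powerset.1 hS hp)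
  have h := hasSum_sum fun S hS =>
    (LSeries_cel h₁ h₂ h₃ k₁ k₂ (∏ p ∈ S, p)
      (Finset.prod_ne_zero_iff.2 fun p h => (hp S hS p h).ne_zero)).1.LSeriesHasSum.mul_left
      ((∏ p ∈ k.primeFactors \ S, (1 - (p : ℂ))) * ∏ p ∈ S, (p : ℂ))
  refine (tsum_congr fun m => ?_).trans (h.tsum_eq.trans ?_)
  · rw [mu_mul_ram hk, Finset.mul_sum, Finset.sum_mul]
    refine Finset.sum_congr rfl fun S _ => ?_
    rw [LSeries.term_def₀ (by simp)]
    split_ifs <;> ring
  · simp only [add_comm (1 - _ : ℂ)]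
    rw [Finset.prod_add, Finset.mul_sum]
    refine Finset.sum_congr rfl fun S hS => ?_
    rw [(LSeries_cel h₁ h₂ h₃ k₁ k₂ (∏ p ∈ S, p)
      (Finset.prod_ne_zero_iff.2 fun p h => (hp S hS p h).ne_zero)).2,
      Nat.primeFactors_prod (hp S hS), Finset.prod_mul_distrib]
    ring

end Pool.Agent.P.MP_7eacff_nt.SZ
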