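import Pool.Agent.P.MP_7eacff_nt.SZ.Basic

/-!
The arithmetic constant is bounded and tends to one.
-/

open Complex Filter Topology MeasureTheory Set
open scoped Real ContDiff

namespace Pool.Agent.P.MP_7eacff_nt.SZ

open Pool.Agent.Lib.LargeSieve (primSet mem_primSet)

namespace LocAux

/-- `x` is `1 + y` up to second order. -/
def Ap (K r : ℝ) (x y : ℂ) : Prop := 0 ≤ K ∧ ‖x - (1 + y)‖ ≤ K * r ^ 2 ∧ ‖y‖ ≤ K * r

/-- The constant of a product. -/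
def mm (K K' : ℝ) : ℝ := K + K' + 4 * K * K'

theorem Ap.mul {K K' r : ℝ} {x y x' y' : ℂ} (h : Ap K r x y) (h' : Ap K' r x' y') (h0 : 0 ≤ r)
    (h1 : r ≤ 1) : Ap (mm K K') r (x * x') (y + y') := by
  obtain ⟨hK, he, hy⟩ := h
  obtain ⟨hK', he', hy'⟩ := h'
  have hKK : 0 ≤ K * K' := mul_nonneg hK hK'
  have hr2 : r ^ 2 ≤ r := by nlinarith
  have hr0 : 0 ≤ r ^ 2 := sq_nonneg r
  refine ⟨by unfold mm; nlinarith, ?_, ?_⟩
  · set e := x - (1 + y) with he0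
    set e' := x' - (1 + y') with he0'
    have hx : x * x' - (1 + (y + y')) = e + e' + y * y' + e * y' + e' * y + e * e' := by
      rw [he0, he0']; ring
    have a1 : ‖y * y'‖ ≤ K * K' * r ^ 2 := by
      rw [norm_mul]
      calc ‖y‖ * ‖y'‖ ≤ (K * r) * (K' * r) :=
            mul_le_mul hy hy' (norm_nonneg _) (mul_nonneg hK h0)
        _ = K * K' * r ^ 2 := by ring
    have hy1 : ‖y‖ ≤ K := hy.trans (mul_le_of_le_one_right hK h1)
    have hy1' : ‖y'‖ ≤ K' := hy'.trans (mul_le_of_le_one_right hK' h1)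
    have he1' : ‖e'‖ ≤ K' := he'.trans (mul_le_of_le_one_right hK' (hr2.trans h1))
    have a2 : ‖e * y'‖ ≤ K * K' * r ^ 2 := by
      rw [norm_mul]
      calc ‖e‖ * ‖y'‖ ≤ (K * r ^ 2) * K' :=
            mul_le_mul he hy1' (norm_nonneg _) (mul_nonneg hK hr0)
        _ = K * K' * r ^ 2 := by ring
    have a3 : ‖e' * y‖ ≤ K * K' * r ^ 2 := by
      rw [norm_mul]
      calc ‖e'‖ * ‖y‖ ≤ (K' * r ^ 2) * K :=
            mul_le_mul he' hy1 (norm_nonneg _) (mul_nonneg hK' hr0)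
        _ = K * K' * r ^ 2 := by ring
    have a4 : ‖e * e'‖ ≤ K * K' * r ^ 2 := by
      rw [norm_mul]
      calc ‖e‖ * ‖e'‖ ≤ (K * r ^ 2) * K' :=
            mul_le_mul he he1' (norm_nonneg _) (mul_nonneg hK hr0)
        _ = K * K' * r ^ 2 := by ring
    rw [hx]
    have t1 := norm_add_le (e + e' + y * y' + e * y' + e' * y) (e * e')
    have t2 := norm_add_le (e + e' + y * y' + e * y') (e' * y)
    have t3 := norm_add_le (e + e' + y * y') (e * y')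
    have t4 := norm_add_le (e + e') (y * y')
    have t5 := norm_add_le e e'
    unfold mm
    nlinarith
  · have := norm_add_le y y'
    have : 0 ≤ K * K' * r := mul_nonneg hKK h0
    unfold mm
    nlinarith

theorem ap_sub {r : ℝ} {x : ℂ} (h : ‖x‖ ≤ r) : Ap 1 r (1 - x) (-x) := by
  refine ⟨zero_le_one, ?_, by simpa using h⟩
  have : (1 - x) - (1 + -x) = 0 := by ring
  rw [this, norm_zero]; positivity

theorem ap_inv {r : ℝ} {x : ℂ} (h : ‖x‖ ≤ r) (hr : r ≤ 3 / 4) : Ap 4 r (1 - x)⁻¹ x := by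
  have h0 : 0 ≤ r := (norm_nonneg _).trans h
  have h1 : 1 / 4 ≤ ‖1 - x‖ := by
    have := norm_sub_norm_le (1 : ℂ) x
    rw [norm_one] at this
    linarith
  have hne : (1 - x) ≠ 0 := by
    intro h2; rw [h2, norm_zero] at h1; norm_num at h1
  refine ⟨by norm_num, ?_, by linarith⟩
  have : (1 - x)⁻¹ - (1 + x) = x ^ 2 / (1 - x) := by field_simp; ring
  rw [this, norm_div, norm_pow, div_le_iff₀ (by linarith)]
  have h2 : ‖x‖ ^ 2 ≤ r ^ 2 := pow_le_pow_left₀ (norm_nonneg _) h 2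
  nlinarith [sq_nonneg r]

theorem ap_first {K P r : ℝ} {a D d : ℂ} (hP : 2 ≤ P) (hr : 1 / P ≤ r) (ha : ‖a‖ ≤ 1)
    (h : Ap K r D d) :
    Ap (2 + 4 * K) r (1 + a * (1 - P + P * D) / (P - 1)) (a / P + a * d) := by
  obtain ⟨hK, he, hd⟩ := h
  have hP0 : 0 < P := by linarith
  have hP1 : 0 < P - 1 := by linarith
  have hi : 0 < 1 / P := by positivity
  have h0 : 0 ≤ r := hi.le.trans hr
  have hPc : (P : ℂ) ≠ 0 := by exact_mod_cast hP0.ne'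
  have hPc1 : (P : ℂ) - 1 ≠ 0 := by exact_mod_cast hP1.ne'
  have n1 : ‖(P : ℂ)‖ = P := by rw [Complex.norm_real, Real.norm_of_nonneg hP0.le]
  have n2 : ‖(P : ℂ) - 1‖ = P - 1 := by
    rw [show (P : ℂ) - 1 = ((P - 1 : ℝ) : ℂ) by push_cast; rfl, Complex.norm_real,
      Real.norm_of_nonneg hP1.le]
  have q1 : 1 / (P - 1) ≤ 2 * r := by
    calc 1 / (P - 1) ≤ 2 * (1 / P) := by
          rw [mul_one_div, div_le_div_iff₀ hP1 hP0]; linarith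
      _ ≤ 2 * r := by linarith
  have q2 : P / (P - 1) ≤ 2 := by rw [div_le_iff₀ hP1]; linarith
  refine ⟨by linarith, ?_, ?_⟩
  · set e := D - (1 + d) with he0
    have hx : 1 + a * (1 - P + P * D) / (P - 1) - (1 + (a / P + a * d)) =
        a * (1 / (P - 1) * (1 / P) + 1 / (P - 1) * d + P / (P - 1) * e) := by
      rw [he0]; field_simp; ring
    have b1 : ‖1 / ((P : ℂ) - 1) * (1 / P)‖ ≤ 2 * r * r := by
      rw [norm_mul, norm_div, norm_div, norm_one, n1, n2]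
      exact mul_le_mul q1 hr hi.le (by linarith)
    have b2 : ‖1 / ((P : ℂ) - 1) * d‖ ≤ 2 * r * (K * r) := by
      rw [norm_mul, norm_div, norm_one, n2]
      exact mul_le_mul q1 hd (norm_nonneg _) (by linarith)
    have b3 : ‖(P : ℂ) / (P - 1) * e‖ ≤ 2 * (K * r ^ 2) := by
      rw [norm_mul, norm_div, n1, n2]
      exact mul_le_mul q2 he (norm_nonneg _) (by norm_num)
    rw [hx, norm_mul]
    refine (mul_le_of_le_one_left (norm_nonneg _) ha).trans ?_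
    have t1 := norm_add_le (1 / ((P : ℂ) - 1) * (1 / P) + 1 / (P - 1) * d) (P / (P - 1) * e)
    have t2 := norm_add_le (1 / ((P : ℂ) - 1) * (1 / P)) (1 / (P - 1) * d)
    nlinarith
  · have b1 : ‖a / P‖ ≤ r := by
      rw [norm_div, n1]
      exact (div_le_div_of_nonneg_right ha hP0.le).trans hr
    have b2 : ‖a * d‖ ≤ K * r := by
      rw [norm_mul]
      exact (mul_le_of_le_one_left (norm_nonneg _) ha).trans hd
    have := norm_add_le (a / P) (a * d)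
    have : 0 ≤ K * r := mul_nonneg hK h0
    nlinarith

end LocAux

open LocAux in
theorem norm_loc_sub_one : ∃ C : ℝ, 0 ≤ C ∧ ∀ (P r : ℝ) (a x₁ x₂ x₃ y₁ y₂ : ℂ), 2 ≤ P →
    1 / P ≤ r → r ≤ 3 / 4 → ‖a‖ ≤ 1 → ‖x₁‖ ≤ r → ‖x₂‖ ≤ r → ‖x₃‖ ≤ r → ‖y₁‖ ≤ r → ‖y₂‖ ≤ r →
    ‖loc P a x₁ x₂ x₃ y₁ y₂ - 1‖ ≤ C * r ^ 2 := by
  refine ⟨mm (2 + 4 * mm (mm (mm 1 1) 1) (mm 4 4)) (mm (mm (mm 1 1) 1) (mm (mm 4 4) 4)),
    by norm_num [mm], fun P r a x₁ x₂ x₃ y₁ y₂ hP hr hr' ha h1 h2 h3 k1 k2 => ?_⟩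
  have h0 : 0 ≤ r := (norm_nonneg _).trans h1
  have hr1 : r ≤ 1 := by linarith
  have hP0 : 0 < P := by linarith
  have am : ∀ {x : ℂ}, ‖x‖ ≤ r → ‖a * x‖ ≤ r := fun hx => by
    rw [norm_mul]; exact (mul_le_of_le_one_left (norm_nonneg _) ha).trans hx
  have aP : ‖a / P‖ ≤ r := by
    rw [norm_div, Complex.norm_real, Real.norm_of_nonneg hP0.le]
    exact (div_le_div_of_nonneg_right ha hP0.le).trans hr
  have hD := (((ap_sub h1).mul (ap_sub h2) h0 hr1).mul (ap_sub h3) h0 hr1).mul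
    ((ap_inv k1 hr').mul (ap_inv k2 hr') h0 hr1) h0 hr1
  have hB := (((ap_sub aP).mul (ap_sub (am k1)) h0 hr1).mul (ap_sub (am k2)) h0 hr1).mul
    (((ap_inv (am h1) hr').mul (ap_inv (am h2) hr') h0 hr1).mul (ap_inv (am h3) hr') h0 hr1) h0 hr1
  have hA := ((ap_first hP hr ha hD).mul hB h0 hr1).2.1
  have e : a / P + a * (-x₁ + -x₂ + -x₃ + (y₁ + y₂)) +
      (-(a / P) + -(a * y₁) + -(a * y₂) + (a * x₁ + a * x₂ + a * x₃)) = 0 := by ring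
  rw [e, add_zero] at hA
  simpa only [loc, div_eq_mul_inv, mul_inv] using hA

namespace LocAux

theorem norm_pw_le (p : Nat.Primes) {w : ℂ} (hw : 1 ≤ w.re) :
    ‖((p : ℕ) : ℂ) ^ (-w)‖ ≤ 1 / ((p : ℕ) : ℝ) := by
  have hp : (1 : ℝ) ≤ (p : ℕ) := by exact_mod_cast p.2.one_lt.le
  rw [Complex.norm_natCast_cpow_of_pos p.2.pos, one_div, ← Real.rpow_neg_one]
  exact Real.rpow_le_rpow_of_exponent_le hp (by simpa using hw)

theorem norm_locp_sub_one : ∃ C : ℝ, 0 ≤ C ∧ ∀ s z u₁ u₂ u₃ v₁ v₂ : ℂ, (s - 1 - z).re ≤ 0 →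
    1 ≤ (s + u₁).re → 1 ≤ (s + u₂).re → 1 ≤ (s + u₃).re → 1 ≤ (s + v₁).re → 1 ≤ (s + v₂).re →
    ∀ p, ‖locp s z u₁ u₂ u₃ v₁ v₂ p - 1‖ ≤ C * (1 / ((p : ℕ) : ℝ)) ^ 2 := by
  obtain ⟨C, hC, h⟩ := norm_loc_sub_one
  refine ⟨C, hC, fun s z u₁ u₂ u₃ v₁ v₂ h0 h1 h2 h3 k1 k2 p => ?_⟩
  have hp : (2 : ℝ) ≤ (p : ℕ) := by exact_mod_cast p.2.two_le
  refine h _ _ _ _ _ _ _ _ hp le_rfl ?_ ?_ (norm_pw_le p h1) (norm_pw_le p h2) (norm_pw_le p h3)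
    (norm_pw_le p k1) (norm_pw_le p k2)
  · rw [div_le_iff₀ (by linarith)]; linarith
  · rw [Complex.norm_natCast_cpow_of_pos p.2.pos]
    exact Real.rpow_le_one_of_one_le_of_nonpos (by linarith) h0

theorem summable_bd (C : ℝ) : Summable fun p : Nat.Primes => C * (1 / ((p : ℕ) : ℝ)) ^ 2 := by
  have h : Summable fun n : ℕ => 1 / (n : ℝ) ^ 2 := Real.summable_one_div_nat_pow.mpr one_lt_two
  have h' := (h.comp_injective (Nat.Primes.coe_nat_injective)).mul_left C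
  refine h'.congr fun p => ?_
  simp [Function.comp]

end LocAux

open LocAux in
theorem tprod_locp_le : ∃ C : ℝ, 0 ≤ C ∧ ∀ s z u₁ u₂ u₃ v₁ v₂ : ℂ, (s - 1 - z).re ≤ 0 →
    1 ≤ (s + u₁).re → 1 ≤ (s + u₂).re → 1 ≤ (s + u₃).re → 1 ≤ (s + v₁).re → 1 ≤ (s + v₂).re →
    ‖∏' p, locp s z u₁ u₂ u₃ v₁ v₂ p‖ ≤ C := by
  obtain ⟨C, hC, h⟩ := norm_locp_sub_one
  have hs := summable_bd C
  have hn : ∀ p : Nat.Primes, 0 ≤ C * (1 / ((p : ℕ) : ℝ)) ^ 2 := fun p => by positivity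
  refine ⟨Real.exp (∑' p : Nat.Primes, C * (1 / ((p : ℕ) : ℝ)) ^ 2), (Real.exp_pos _).le,
    fun s z u₁ u₂ u₃ v₁ v₂ h0 h1 h2 h3 k1 k2 => ?_⟩
  have hb := h s z u₁ u₂ u₃ v₁ v₂ h0 h1 h2 h3 k1 k2
  by_cases hm : Multipliable fun p => locp s z u₁ u₂ u₃ v₁ v₂ p
  · refine le_of_tendsto' (Tendsto.norm hm.hasProd) fun t => ?_
    have h4 := t.norm_prod_one_add_sub_one_le fun p => locp s z u₁ u₂ u₃ v₁ v₂ p - 1
    simp only [add_sub_cancel] at h4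
    have h5 : ∑ p ∈ t, ‖locp s z u₁ u₂ u₃ v₁ v₂ p - 1‖ ≤
        ∑' p : Nat.Primes, C * (1 / ((p : ℕ) : ℝ)) ^ 2 :=
      (Finset.sum_le_sum fun p _ => hb p).trans (hs.sum_le_tsum t fun p _ => hn p)
    have h6 := Real.exp_le_exp.mpr h5
    have h7 := norm_sub_norm_le (∏ p ∈ t, locp s z u₁ u₂ u₃ v₁ v₂ p) 1
    rw [norm_one] at h7
    linarith
  · rw [tprod_eq_one_of_not_multipliable hm, norm_one]
    exact Real.one_le_exp (tsum_nonneg hn)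

namespace LocAux

theorem tendsto_div (w : ℂ) : Tendsto (fun L : ℝ => w / L) atTop (𝓝 0) := by
  have h : Tendsto (fun L : ℝ => ((L⁻¹ : ℝ) : ℂ)) atTop (𝓝 ((0 : ℝ) : ℂ)) :=
    (Complex.continuous_ofReal.tendsto 0).comp tendsto_inv_atTop_zero
  have h' := h.const_mul w
  simpa [div_eq_mul_inv] using h'

theorem tendsto_pw (p : Nat.Primes) {f : ℝ → ℂ} {c : ℂ} (h : Tendsto f atTop (𝓝 c)) :
    Tendsto (fun L => ((p : ℕ) : ℂ) ^ f L) atTop (𝓝 (((p : ℕ) : ℂ) ^ c)) :=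
  h.const_cpow (Or.inl (by exact_mod_cast p.2.pos.ne'))

theorem tendsto_loc {P : ℝ} (hP : 2 ≤ P) {a x₁ x₂ x₃ y₁ y₂ : ℝ → ℂ} (ha : Tendsto a atTop (𝓝 1))
    (h1 : Tendsto x₁ atTop (𝓝 (P : ℂ)⁻¹)) (h2 : Tendsto x₂ atTop (𝓝 (P : ℂ)⁻¹))
    (h3 : Tendsto x₃ atTop (𝓝 (P : ℂ)⁻¹)) (k1 : Tendsto y₁ atTop (𝓝 (P : ℂ)⁻¹))
    (k2 : Tendsto y₂ atTop (𝓝 (P : ℂ)⁻¹)) :
    Tendsto (fun L => loc P (a L) (x₁ L) (x₂ L) (x₃ L) (y₁ L) (y₂ L)) atTop (𝓝 1) := by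
  have hP0 : 0 < P := by linarith
  have hP1 : 0 < P - 1 := by linarith
  have hPc : (P : ℂ) ≠ 0 := by exact_mod_cast hP0.ne'
  have hPc1 : (P : ℂ) - 1 ≠ 0 := by exact_mod_cast hP1.ne'
  have hq : 1 - (P : ℂ)⁻¹ ≠ 0 := by
    have : 1 - (P : ℂ)⁻¹ = (P - 1) / P := by field_simp
    rw [this]; exact div_ne_zero hPc1 hPc
  have hq' : 1 - 1 * (P : ℂ)⁻¹ ≠ 0 := by rwa [one_mul]
  have c1 : Tendsto (fun _ : ℝ => (1 : ℂ)) atTop (𝓝 1) := tendsto_const_nhds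
  have hD := (((c1.sub h1).mul (c1.sub h2)).mul (c1.sub h3)).div ((c1.sub k1).mul (c1.sub k2))
    (mul_ne_zero hq hq)
  have hA := c1.add ((ha.mul ((hD.const_mul (P : ℂ)).const_add (1 - (P : ℂ)))).div_const ((P : ℂ) - 1))
  have hB := (((c1.sub (ha.div_const (P : ℂ))).mul (c1.sub (ha.mul k1))).mul
    (c1.sub (ha.mul k2))).div (((c1.sub (ha.mul h1)).mul (c1.sub (ha.mul h2))).mul
      (c1.sub (ha.mul h3))) (mul_ne_zero (mul_ne_zero hq' hq') hq')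
  have h := hA.mul hB
  have e : (1 + 1 * (1 - P + P * ((1 - (P : ℂ)⁻¹) * (1 - (P : ℂ)⁻¹) * (1 - (P : ℂ)⁻¹) /
      ((1 - (P : ℂ)⁻¹) * (1 - (P : ℂ)⁻¹)))) / (P - 1)) *
      ((1 - 1 / P) * (1 - 1 * (P : ℂ)⁻¹) * (1 - 1 * (P : ℂ)⁻¹) /
        ((1 - 1 * (P : ℂ)⁻¹) * (1 - 1 * (P : ℂ)⁻¹) * (1 - 1 * (P : ℂ)⁻¹))) = 1 := by
    simp only [one_mul, one_div]
    rw [div_self (mul_ne_zero (mul_ne_zero hq hq) hq), mul_one,
      mul_div_cancel_left₀ _ (mul_ne_zero hq hq), mul_sub, mul_inv_cancel₀ hPc]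
    simp
  rw [e] at h
  exact h

end LocAux

open LocAux in
theorem tendsto_tprod_locp {σ z u₁ u₂ u₃ v₁ v₂ : ℂ} (hσ : σ.re = 1 / 2)
    (h : Reg z u₁ u₂ u₃ v₁ v₂) :
    Tendsto (fun L : ℝ => ∏' p, locp (1 + σ / L) (z / L) (u₁ / L) (u₂ / L) (u₃ / L) (v₁ / L)
      (v₂ / L) p) atTop (𝓝 1) := by
  obtain ⟨C, hC, hb⟩ := norm_locp_sub_one
  have key := tendsto_tprod_one_add_of_dominated_convergence (𝓕 := atTop) (g := 0)
    (f := fun (L : ℝ) (p : Nat.Primes) => locp (1 + σ / L) (z / L) (u₁ / L) (u₂ / L) (u₃ / L)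
      (v₁ / L) (v₂ / L) p - 1) (summable_bd C) ?_ ?_
  · simpa using key
  · intro p
    have hp : (2 : ℝ) ≤ (p : ℕ) := by exact_mod_cast p.2.two_le
    have hx : ∀ u : ℂ, Tendsto (fun L : ℝ => ((p : ℕ) : ℂ) ^ (-(1 + σ / L + u / L))) atTop
        (𝓝 ((((p : ℕ) : ℝ) : ℂ))⁻¹) := fun u => by
      have := tendsto_pw p (((tendsto_div σ).const_add 1).add (tendsto_div u)).neg
      simpa [Complex.cpow_neg] using this
    have ha : Tendsto (fun L : ℝ => ((p : ℕ) : ℂ) ^ (1 + σ / L - 1 - z / L)) atTop (𝓝 1) := by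
      have := tendsto_pw p ((((tendsto_div σ).const_add 1).sub_const 1).sub (tendsto_div z))
      simpa using this
    have := (tendsto_loc hp ha (hx u₁) (hx u₂) (hx u₃) (hx v₁) (hx v₂)).sub_const 1
    simpa [locp] using this
  · filter_upwards [eventually_gt_atTop (0 : ℝ)] with L hL p
    have hu : ∀ u : ℂ, -(1 / 4) ≤ u.re → 1 ≤ (1 + σ / L + u / L).re := fun u hu => by
      simp only [add_re, one_re, div_ofReal_re, hσ]
      have : 0 ≤ 1 / 2 / L + u.re / L := by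
        rw [← add_div]; exact div_nonneg (by linarith) hL.le
      linarith
    refine hb _ _ _ _ _ _ _ ?_ (hu _ h.h₁.1) (hu _ h.h₂.1) (hu _ h.h₃.1)
      (hu _ (by linarith [h.k₁.1])) (hu _ (by linarith [h.k₂.1])) p
    simp only [sub_re, add_re, one_re, div_ofReal_re, hσ, h.hz]
    have : 1 / 2 / L ≤ 1 / L := div_le_div_of_nonneg_right (by norm_num) hL.le
    linarith

end Pool.Agent.P.MP_7eacff_nt.SZ
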