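import Pool.Agent.P.MP_7eacff_nt.SZ.Upper

/-!
Lower bounds to the right of the line of real part one.
-/

open Complex Filter Topology MeasureTheory Set
open scoped Real ContDiff

namespace Pool.Agent.P.MP_7eacff_nt.SZ

open Pool.Agent.Lib.LargeSieve (primSet mem_primSet)

open DirichletCharacter

namespace TFOAux

lemma third {ε : ℝ} (hε : 0 < ε) : ∃ K : ℝ, 1 ≤ K ∧ ∀ (q : ℕ) [NeZero q]
    (χ : DirichletCharacter ℂ q) (x t t₀ : ℝ), 0 < x → x ≤ 1 → 0 < t₀ → t₀ ≤ 1 →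
      (χ ≠ 1 ∨ t₀ ≤ |t| ∨ t₀ ≤ x) →
      ‖LFunction χ (1 + x + 2 * I * t)‖ ≤ K * ((q * (2 + |t|)) ^ ε) ^ 4 / t₀ := by
  obtain ⟨δ₁, C₁, hδ₁, hC₁, h₁⟩ := L_upper hε
  obtain ⟨δ₂, C₂, hδ₂, hC₂, h₂⟩ := zeta₀_upper hε
  have hε' : 0 < 1 / ε := by positivity
  refine ⟨C₁ + (1 + 1 / ε) * (1 + C₂), by nlinarith, ?_⟩
  intro q _ χ x t t₀ hx hx1 ht ht1 hc
  have hq : (1 : ℝ) ≤ q := by exact_mod_cast Nat.one_le_iff_ne_zero.2 (NeZero.ne q)
  have ha := abs_nonneg t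
  set R : ℝ := q * (2 + |t|) with hR
  have hR2 : 2 ≤ R := by nlinarith
  set P := R ^ ε with hP
  have hP1 : 1 ≤ P := Real.one_le_rpow (by linarith) hε.le
  have hre : (1 + x + 2 * I * t : ℂ).re = 1 + x := by simp
  have him : |(1 + x + 2 * I * t : ℂ).im| = 2 * |t| := by simp [abs_mul]
  have hsq : ∀ z : ℝ, 0 ≤ z → z ≤ 2 * R → z ^ ε ≤ P ^ 2 := by
    intro z hz hz2
    have : z ^ ε ≤ (R * R) ^ ε := Real.rpow_le_rpow hz (by nlinarith) hε.le
    rwa [Real.mul_rpow (by linarith) (by linarith), ← sq] at this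
  have hP24 : P ^ 2 ≤ P ^ 4 := pow_le_pow_right₀ hP1 (by norm_num)
  have hP34 : P ^ 3 ≤ P ^ 4 := pow_le_pow_right₀ hP1 (by norm_num)
  have hP4 : 0 ≤ P ^ 4 := by positivity
  rw [le_div_iff₀ ht]
  by_cases hχ : χ = 1
  · subst hχ
    have hc' : t₀ ≤ |t| ∨ t₀ ≤ x := hc.resolve_left (fun h => h rfl)
    have hs1 : 1 < (1 + x + 2 * I * t : ℂ).re := by rw [hre]; linarith
    have hne : (1 + x + 2 * I * t : ℂ) ≠ 1 := fun h => by rw [h] at hs1; simp at hs1
    have b1 := L_triv_le (q := q) hs1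
    have b2 := (h₂ (1 + x + 2 * I * t) (by rw [hre]; linarith) (by rw [hre]; linarith)).1
    rw [him] at b2
    have b3 : (2 + 2 * |t|) ^ ε ≤ P ^ 2 := hsq _ (by positivity) (by nlinarith)
    have b4 : t₀ ≤ ‖(1 + x + 2 * I * t : ℂ) - 1‖ := by
      rcases hc' with h | h
      · have := abs_im_le_norm ((1 + x + 2 * I * t : ℂ) - 1)
        rw [sub_im, one_im, sub_zero, him] at this
        linarith
      · have := re_le_norm ((1 + x + 2 * I * t : ℂ) - 1)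
        rw [sub_re, one_re, hre] at this
        linarith
    have b5 : ‖riemannZeta (1 + x + 2 * I * t)‖ * t₀ ≤ (1 + C₂) * P ^ 2 := by
      rw [riemannZeta_eq_inv_sub_add hne]
      have c1 := norm_add_le ((1 + x + 2 * I * t : ℂ) - 1)⁻¹ (riemannZeta₀ (1 + x + 2 * I * t))
      rw [norm_inv] at c1
      have c2 : ‖(1 + x + 2 * I * t : ℂ) - 1‖⁻¹ * t₀ ≤ 1 := by
        rw [inv_mul_le_iff₀ (by linarith)]; linarith
      have c3 : ‖riemannZeta₀ (1 + x + 2 * I * t)‖ * t₀ ≤ C₂ * P ^ 2 := by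
        have := mul_le_mul_of_nonneg_left b3 hC₂.le
        have h0 := norm_nonneg (riemannZeta₀ (1 + x + 2 * I * t))
        nlinarith
      have c4 : 1 ≤ P ^ 2 := one_le_pow₀ hP1
      have c5 := mul_le_mul_of_nonneg_right c1 ht.le
      nlinarith
    have b6 : 1 + Real.log q ≤ (1 + 1 / ε) * P := by
      have c1 := Real.log_le_rpow_div (show (0 : ℝ) ≤ q by linarith) hε
      have c2 : (q : ℝ) ^ ε ≤ P := Real.rpow_le_rpow (by linarith) (by nlinarith) hε.le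
      have c3 : (q : ℝ) ^ ε / ε ≤ 1 / ε * P := by
        rw [div_eq_mul_one_div, mul_comm]
        exact mul_le_mul_of_nonneg_left c2 hε'.le
      linarith
    have b7 : 0 ≤ 1 + Real.log q := by have := Real.log_nonneg hq; linarith
    calc ‖LFunction (1 : DirichletCharacter ℂ q) (1 + x + 2 * I * t)‖ * t₀
        ≤ (1 + Real.log q) * ‖riemannZeta (1 + x + 2 * I * t)‖ * t₀ :=
          mul_le_mul_of_nonneg_right b1 ht.le
      _ = (1 + Real.log q) * (‖riemannZeta (1 + x + 2 * I * t)‖ * t₀) := by ring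
      _ ≤ (1 + 1 / ε) * P * ((1 + C₂) * P ^ 2) :=
          mul_le_mul b6 b5 (by positivity) (by positivity)
      _ = (1 + 1 / ε) * (1 + C₂) * P ^ 3 := by ring
      _ ≤ (1 + 1 / ε) * (1 + C₂) * P ^ 4 := mul_le_mul_of_nonneg_left hP34 (by positivity)
      _ ≤ _ := by nlinarith [mul_nonneg hC₁.le hP4]
  · have b2 := (h₁ q χ hχ (1 + x + 2 * I * t) (by rw [hre]; linarith) (by rw [hre]; linarith)).1
    rw [him] at b2
    have b3 : ((q : ℝ) * (2 + 2 * |t|)) ^ ε ≤ P ^ 2 := hsq _ (by positivity) (by nlinarith)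
    have b4 := mul_le_mul_of_nonneg_left (b3.trans hP24) hC₁.le
    have h0 := norm_nonneg (LFunction χ (1 + x + 2 * I * t))
    have b5 : 0 ≤ (1 + 1 / ε) * (1 + C₂) * P ^ 4 := by positivity
    nlinarith

lemma ne_zero {w : ℂ} (hw : 0 ≤ w.re) : riemannZeta₁ (1 + w) ≠ 0 := by
  by_cases h : (1 + w : ℂ) = 1
  · rw [h]; simp
  · intro h0
    have := riemannZeta_eq_inv_sub_mul h
    rw [h0, mul_zero] at this
    exact riemannZeta_ne_zero_of_one_le_re (by simpa using hw) this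

end TFOAux

theorem L_lower_right {ε : ℝ} (hε : 0 < ε) : ∃ c : ℝ, 0 < c ∧ ∀ (q : ℕ) [NeZero q]
    (χ : DirichletCharacter ℂ q) (x t t₀ : ℝ), 0 < x → x ≤ 1 → 0 < t₀ → t₀ ≤ 1 →
      (χ ^ 2 ≠ 1 ∨ t₀ ≤ |t| ∨ t₀ ≤ x) →
      c * x ^ (3 / 4 : ℝ) * t₀ ^ (1 / 4 : ℝ) * (q * (2 + |t|)) ^ (-ε) ≤
        ‖LFunction χ (1 + x + t * I)‖ := by
  obtain ⟨K, hK, h⟩ := TFOAux.third hε
  refine ⟨1 / (8 * K), by positivity, ?_⟩
  intro q _ χ x t t₀ hx hx1 ht ht1 hc
  have hq : (1 : ℝ) ≤ q := by exact_mod_cast Nat.one_le_iff_ne_zero.2 (NeZero.ne q)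
  have ha := abs_nonneg t
  have h3 := h q (χ ^ 2) x t t₀ hx hx1 ht ht1 hc
  have h1 := L_triv_le_real (q := q) hx hx1
  have h0 := χ.norm_LFunction_product_ge_one hx t
  rw [norm_mul, norm_mul, norm_pow, norm_pow, mul_comm I (t : ℂ)] at h0
  have hR : (0 : ℝ) < q * (2 + |t|) := by positivity
  rw [Real.rpow_neg hR.le]
  set P := ((q : ℝ) * (2 + |t|)) ^ ε with hP
  have hP0 : 0 < P := Real.rpow_pos_of_pos hR _
  set N := ‖LFunction χ (1 + x + t * I)‖ with hN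
  have hN0 : 0 ≤ N := norm_nonneg _
  have h4 : 1 ≤ (2 / x) ^ 3 * N ^ 4 * (K * P ^ 4 / t₀) := by
    refine le_trans h0 ?_
    gcongr
  refine (pow_le_pow_iff_left₀ (by positivity) hN0 (by norm_num : (4 : ℕ) ≠ 0)).1 ?_
  have e1 : (x ^ (3 / 4 : ℝ)) ^ 4 = x ^ 3 := by
    rw [← Real.rpow_natCast, ← Real.rpow_mul hx.le, ← Real.rpow_natCast]; norm_num
  have e2 : (t₀ ^ (1 / 4 : ℝ)) ^ 4 = t₀ := by
    rw [← Real.rpow_natCast, ← Real.rpow_mul ht.le]; norm_num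
  rw [mul_pow, mul_pow, mul_pow, e1, e2]
  have e3 : (1 / (8 * K)) ^ 4 ≤ 1 / (8 * K) :=
    pow_le_of_le_one (by positivity) (by rw [div_le_one (by positivity)]; linarith) (by norm_num)
  have h5 : 1 / (8 * K) * x ^ 3 * t₀ * P⁻¹ ^ 4 ≤ N ^ 4 := by
    have := mul_le_mul_of_nonneg_left h4
      (show 0 ≤ 1 / (8 * K) * x ^ 3 * t₀ * P⁻¹ ^ 4 by positivity)
    rw [mul_one] at this
    refine this.trans (le_of_eq ?_)
    field_simp
    ring
  refine le_trans ?_ h5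
  gcongr

namespace TFOAux

lemma far : ∃ c : ℝ, 0 < c ∧ ∀ x t : ℝ, 0 ≤ x → x ≤ 1 → 1 ≤ |t| →
    c / (2 + |t|) ^ 7 ≤ ‖riemannZeta (1 + x + t * I)‖ := by
  obtain ⟨c, hc, h⟩ := L_lower_right one_pos
  obtain ⟨δ, C, hδ, hC, h₂⟩ := zeta₀_upper one_pos
  set η := min 1 (c / (2 * (1 + C))) with hη
  have hη0 : 0 < η := lt_min one_pos (by positivity)
  have hη1 : η ≤ 1 := min_le_left _ _
  have hη2 : (1 + C) * η ≤ c / 2 := by
    have := min_le_right 1 (c / (2 * (1 + C)))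
    rw [← hη, le_div_iff₀ (by positivity)] at this
    linarith
  refine ⟨c / 2 * η ^ 3, by positivity, ?_⟩
  intro x t hx hx1 ht
  set R := 2 + |t| with hR
  have hR3 : 3 ≤ R := by linarith
  have hR0 : 0 < R := by linarith
  set v := η / R ^ 2 with hv
  have hv0 : 0 < v := by positivity
  have hv1 : v ≤ 1 := by rw [hv, div_le_one (by positivity)]; nlinarith
  have low : ∀ y : ℝ, v ^ 4 ≤ y → y ≤ 1 → c * v ^ 3 / R ≤ ‖riemannZeta (1 + y + t * I)‖ := by
    intro y hy hy1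
    have hy0 : 0 < y := lt_of_lt_of_le (by positivity) hy
    have := h 1 1 y t 1 hy0 hy1 one_pos le_rfl (Or.inr (Or.inl ht))
    rw [LFunction_modOne_eq, Real.one_rpow, Nat.cast_one, one_mul, mul_one, Real.rpow_neg_one,
      ← hR, ← div_eq_mul_inv] at this
    refine le_trans ?_ this
    have e : v ^ 3 = (v ^ 4) ^ (3 / 4 : ℝ) := by
      rw [← Real.rpow_natCast v 4, ← Real.rpow_mul hv0.le, ← Real.rpow_natCast]; norm_num
    rw [e]
    gcongr
  have e7 : c / 2 * η ^ 3 / R ^ 7 = c / 2 * v ^ 3 / R := by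
    rw [hv]; field_simp
  rw [e7]
  have hpos : 0 ≤ c * v ^ 3 / R := by positivity
  have e8 : c / 2 * v ^ 3 / R = c * v ^ 3 / R / 2 := by ring
  rcases le_total (v ^ 4) x with hxv | hxv
  · have := low x hxv hx1
    linarith
  · have hv4 : v ^ 4 ≤ 1 := pow_le_one₀ hv0.le hv1
    have h1 := low (v ^ 4) le_rfl hv4
    have hconv : Convex ℝ (({z : ℂ | 1 ≤ z.re} ∩ {z : ℂ | z.re ≤ 2}) ∩
        ({z : ℂ | z.im ≤ t} ∩ {z : ℂ | t ≤ z.im})) :=
      ((convex_halfSpace_re_ge 1).inter (convex_halfSpace_re_le 2)).inter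
        ((convex_halfSpace_im_le t).inter (convex_halfSpace_im_ge t))
    have hne : ∀ z : ℂ, z.im = t → z ≠ 1 := by
      intro z hz h1
      rw [h1] at hz
      rw [← hz] at ht
      norm_num at ht
    have hmv := hconv.norm_image_sub_le_of_norm_deriv_le (𝕜 := ℂ) (f := riemannZeta)
      (C := (1 + C) * R) (x := 1 + x + t * I) (y := 1 + ((v ^ 4 : ℝ) : ℂ) + t * I)
      (fun z hz => differentiableAt_riemannZeta (hne z (le_antisymm hz.2.1 hz.2.2)))
      (fun z hz => by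
        have hzi : z.im = t := le_antisymm hz.2.1 hz.2.2
        have hz1 : 1 ≤ z.re := hz.1.1
        have hz2 : z.re ≤ 2 := hz.1.2
        rw [deriv_riemannZeta_eq_neg_inv_sub_sq_add (hne z hzi)]
        refine (norm_add_le _ _).trans ?_
        have a1 := (h₂ z (by linarith) (by linarith)).2
        rw [hzi, Real.rpow_one, ← hR] at a1
        have a2 : 1 ≤ ‖z - 1‖ := by
          have := abs_im_le_norm (z - 1)
          rw [sub_im, one_im, sub_zero, hzi] at this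
          linarith
        have a3 : ‖-((z - 1)⁻¹) ^ 2‖ ≤ 1 := by
          rw [norm_neg, norm_pow, norm_inv]
          exact pow_le_one₀ (by positivity) (inv_le_one_of_one_le₀ a2)
        nlinarith)
      (by
        refine ⟨⟨?_, ?_⟩, ?_, ?_⟩ <;> simp only [mem_setOf_eq, add_re, add_im, one_re, one_im,
          ofReal_re, ofReal_im, mul_re, mul_im, I_re, I_im] <;> linarith)
      (by
        refine ⟨⟨?_, ?_⟩, ?_, ?_⟩ <;> simp only [mem_setOf_eq, add_re, add_im, one_re, one_im,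
          ofReal_re, ofReal_im, mul_re, mul_im, I_re, I_im] <;> linarith)
    have e9 : ‖(1 + ((v ^ 4 : ℝ) : ℂ) + t * I) - (1 + x + t * I)‖ ≤ v ^ 4 := by
      have : (1 + ((v ^ 4 : ℝ) : ℂ) + t * I) - (1 + x + t * I) = ((v ^ 4 - x : ℝ) : ℂ) := by
        rw [ofReal_sub]; ring
      rw [this, norm_real, Real.norm_eq_abs, abs_of_nonneg (by linarith)]
      linarith
    have h3 : (1 + C) * R * v ^ 4 ≤ c * v ^ 3 / R / 2 := by
      have : (1 + C) * R * v ^ 4 = (1 + C) * η * (v ^ 3 / R) := by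
        have : v ^ 4 = v ^ 3 * (η / R ^ 2) := by rw [← hv]; ring
        rw [this]; field_simp
      rw [this]
      have h5 := mul_le_mul_of_nonneg_right hη2 (show 0 ≤ v ^ 3 / R by positivity)
      refine h5.trans (le_of_eq (by ring))
    have h4 := mul_le_mul_of_nonneg_left e9 (show 0 ≤ (1 + C) * R by positivity)
    have h5 := norm_sub_norm_le (riemannZeta (1 + ((v ^ 4 : ℝ) : ℂ) + t * I))
      (riemannZeta (1 + x + t * I))
    linarith

lemma near : ∃ C : ℝ, ∀ w : ℂ, 0 ≤ w.re → w.re ≤ 1 → |w.im| ≤ 1 →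
    ‖(riemannZeta₁ (1 + w))⁻¹‖ ≤ C := by
  have hK : IsCompact (Metric.closedBall (0 : ℂ) 2 ∩ {z : ℂ | 0 ≤ z.re}) :=
    (isCompact_closedBall _ _).inter_right (isClosed_le continuous_const continuous_re)
  have hc : ContinuousOn (fun w : ℂ => (riemannZeta₁ (1 + w))⁻¹)
      (Metric.closedBall (0 : ℂ) 2 ∩ {z : ℂ | 0 ≤ z.re}) :=
    ((differentiable_riemannZeta₁.continuous.comp (by fun_prop)).continuousOn).inv₀
      fun w hw => ne_zero hw.2
  obtain ⟨C, hC⟩ := hK.exists_bound_of_continuousOn hc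
  refine ⟨C, fun w h0 h1 h2 => hC w ⟨?_, h0⟩⟩
  rw [mem_closedBall_zero_iff]
  have := norm_le_abs_re_add_abs_im w
  rw [abs_of_nonneg h0] at this
  linarith

end TFOAux

theorem eta_bound : ∃ (C : ℝ) (A : ℕ), ∀ w : ℂ, 0 ≤ w.re → w.re ≤ 1 →
    riemannZeta₁ (1 + w) ≠ 0 ∧ ‖riemannZeta₁ (1 + w)‖ ≤ C * (1 + ‖w‖) ^ A ∧
      ‖(riemannZeta₁ (1 + w))⁻¹‖ ≤ C * (1 + ‖w‖) ^ A := by
  obtain ⟨c, hc, hfar⟩ := TFOAux.far
  obtain ⟨C₀, hnear⟩ := TFOAux.near
  obtain ⟨δ, C, hδ, hC, h₂⟩ := zeta₀_upper one_pos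
  refine ⟨(1 + 2 * C) + |C₀| + 2 ^ 7 / c, 7, fun w h0 h1 => ⟨TFOAux.ne_zero h0, ?_, ?_⟩⟩
  · have a1 := (h₂ (1 + w) (by simp; linarith) (by simp; linarith)).1
    rw [Real.rpow_one, add_im, one_im, zero_add] at a1
    have a2 := abs_im_le_norm w
    have hw := norm_nonneg w
    have a3 : ‖riemannZeta₁ (1 + w)‖ ≤ 1 + ‖w‖ * (C * (2 + ‖w‖)) := by
      unfold riemannZeta₁
      refine (norm_add_le _ _).trans ?_
      rw [norm_one, norm_mul, add_sub_cancel_left]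
      gcongr
      exact a1.trans (by gcongr)
    have a4 : (1 + ‖w‖) ^ 2 ≤ (1 + ‖w‖) ^ 7 := pow_le_pow_right₀ (by linarith) (by norm_num)
    have a5 : 1 + ‖w‖ * (C * (2 + ‖w‖)) ≤ (1 + 2 * C) * (1 + ‖w‖) ^ 2 := by
      have : 0 ≤ C * ‖w‖ := by positivity
      have : 0 ≤ C * ‖w‖ ^ 2 := by positivity
      nlinarith
    have a6 := mul_le_mul_of_nonneg_left a4 (show 0 ≤ 1 + 2 * C by positivity)
    have a7 : 0 ≤ (|C₀| + 2 ^ 7 / c) * (1 + ‖w‖) ^ 7 := by positivity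
    linarith
  · have hw := norm_nonneg w
    have a4 : 1 ≤ (1 + ‖w‖) ^ 7 := one_le_pow₀ (by linarith)
    rcases le_total |w.im| 1 with h | h
    · have a1 := (hnear w h0 h1 h).trans (le_abs_self _)
      have a2 := mul_le_mul_of_nonneg_left a4 (abs_nonneg C₀)
      have a7 : 0 ≤ (1 + 2 * C + 2 ^ 7 / c) * (1 + ‖w‖) ^ 7 := by positivity
      linarith
    · have a1 := hfar w.re w.im h0 h1 h
      rw [add_assoc, re_add_im] at a1
      have a2 := abs_im_le_norm w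
      have hne : (1 + w : ℂ) ≠ 1 := by
        intro h1
        have : w = 0 := by simpa using h1
        rw [this] at h
        norm_num at h
      have a3 : ‖riemannZeta (1 + w)‖ ≤ ‖riemannZeta₁ (1 + w)‖ := by
        rw [riemannZeta_eq_inv_sub_mul hne, norm_mul, norm_inv, add_sub_cancel_left]
        exact mul_le_of_le_one_left (norm_nonneg _) (inv_le_one_of_one_le₀ (by linarith))
      have a5 : ‖(riemannZeta₁ (1 + w))⁻¹‖ ≤ (2 + |w.im|) ^ 7 / c := by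
        rw [norm_inv, ← inv_div]
        exact inv_anti₀ (by positivity) (a1.trans a3)
      have a6 : (2 + |w.im|) ^ 7 / c ≤ 2 ^ 7 / c * (1 + ‖w‖) ^ 7 := by
        rw [div_mul_eq_mul_div, ← mul_pow]
        gcongr
        linarith
      have a7 : 0 ≤ (1 + 2 * C + |C₀|) * (1 + ‖w‖) ^ 7 := by positivity
      linarith

end Pool.Agent.P.MP_7eacff_nt.SZ
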