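import Pool.Agent.P.MP_7eacff_nt.SZ.Outer
import Pool.Agent.P.MP_7eacff_nt.SZ.Loc
import Pool.Agent.P.MP_7eacff_nt.SZ.TFO

/-!
The scaled double series.
-/

open Complex Filter Topology MeasureTheory Set
open scoped Real ContDiff

namespace Pool.Agent.P.MP_7eacff_nt.SZ

open Pool.Agent.Lib.LargeSieve (primSet mem_primSet)

namespace ItgAux

theorem alg {L : ℂ} (hL : L ≠ 0) (a₁ a₂ a₃ b₁ b₂ c d₁ d₂ f₁ f₂ f₃ A₁ A₂ A₃ B₁ B₂ C D₁ D₂ F₁ F₂ F₃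
    t : ℂ) : L / a₁ * A₁ * (L / a₂ * A₂) * (L / a₃ * A₃) / (L / b₁ * B₁ * (L / b₂ * B₂)) *
      (L / c * C * (L / d₁ * D₁) * (L / d₂ * D₂) /
        (L / f₁ * F₁ * (L / f₂ * F₂) * (L / f₃ * F₃))) * t / L =
      f₁ * b₁ / (a₁ * d₁) * (f₂ * b₂ / (a₂ * d₂)) * (f₃ / (a₃ * c)) *
        (A₁ * A₂ * A₃ * B₁⁻¹ * B₂⁻¹ * C * D₁ * D₂ * F₁⁻¹ * F₂⁻¹ * F₃⁻¹) * t := by
  have h := mul_inv_cancel₀ hL
  simp only [div_eq_mul_inv, mul_inv, inv_inv]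
  generalize L⁻¹ = M at h
  symm
  rw [← one_mul (_ * t), ← one_pow 6, ← h]
  ring

/-- The regular part of zeta near one, rescaled. -/
noncomputable def eta (L : ℝ) (w : ℂ) : ℂ := riemannZeta₁ (1 + w / L)

theorem zeta_eq {L : ℝ} (hL : 0 < L) {s : ℂ} (w : ℂ) (hw : 0 < w.re) (e : s = 1 + w / L) :
    riemannZeta s = L / w * eta L w := by
  have h : w / L ≠ 0 := div_ne_zero (ne_zero_of_re_pos hw) (ofReal_ne_zero.2 hL.ne')
  rw [e, riemannZeta_eq_inv_sub_mul (by simpa using h), add_sub_cancel_left, inv_div, eta]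

theorem Zf_div {L : ℝ} (hL : 0 < L) {σ z u₁ u₂ u₃ v₁ v₂ : ℂ} (hσ : σ.re = 1 / 2)
    (h : Reg z u₁ u₂ u₃ v₁ v₂) :
    Zf (1 + σ / L) (z / L) (u₁ / L) (u₂ / L) (u₃ / L) (v₁ / L) (v₂ / L) / L =
      sym z u₁ u₂ u₃ v₁ v₂ σ * (eta L (σ + u₁) * eta L (σ + u₂) * eta L (σ + u₃) *
        (eta L (σ + v₁))⁻¹ * (eta L (σ + v₂))⁻¹ * eta L (z - σ) * eta L (z + v₁) * eta L (z + v₂) *
        (eta L (z + u₁))⁻¹ * (eta L (z + u₂))⁻¹ * (eta L (z + u₃))⁻¹) *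
      ∏' p, locp (1 + σ / L) (z / L) (u₁ / L) (u₂ / L) (u₃ / L) (v₁ / L) (v₂ / L) p := by
  obtain ⟨hz, h₁, h₂, h₃, k₁, k₂⟩ := h
  have hu : ∀ u : ℂ, -(1 / 4) ≤ u.re → -(L⁻¹ / 4) ≤ (u / L).re := fun u hu => by
    rw [div_ofReal_re, le_div_iff₀ hL, neg_mul, div_mul_eq_mul_div, inv_mul_cancel₀ hL.ne']
    exact hu
  have hv : ∀ v : ℂ, 0 ≤ v.re → 0 ≤ (v / L).re := fun v hv => by
    rw [div_ofReal_re]; positivity
  rw [Zf_eq (inv_pos.2 hL) (by rw [add_re, div_ofReal_re, hσ, one_re]; ring)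
    (by rw [div_ofReal_re, hz, one_div]) (hu _ h₁.1) (hu _ h₂.1) (hu _ h₃.1) (hv _ k₁.1) (hv _ k₂.1),
    zeta_eq (s := 1 + σ / L + u₁ / L) hL (σ + u₁) (by rw [add_re]; linarith) (by ring),
    zeta_eq (s := 1 + σ / L + u₂ / L) hL (σ + u₂) (by rw [add_re]; linarith) (by ring),
    zeta_eq (s := 1 + σ / L + u₃ / L) hL (σ + u₃) (by rw [add_re]; linarith) (by ring),
    zeta_eq (s := 1 + σ / L + v₁ / L) hL (σ + v₁) (by rw [add_re]; linarith) (by ring),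
    zeta_eq (s := 1 + σ / L + v₂ / L) hL (σ + v₂) (by rw [add_re]; linarith) (by ring),
    zeta_eq (s := 2 - (1 + σ / L) + z / L) hL (z - σ) (by rw [sub_re]; linarith) (by ring),
    zeta_eq (s := 1 + z / L + v₁ / L) hL (z + v₁) (by rw [add_re]; linarith) (by ring),
    zeta_eq (s := 1 + z / L + v₂ / L) hL (z + v₂) (by rw [add_re]; linarith) (by ring),
    zeta_eq (s := 1 + z / L + u₁ / L) hL (z + u₁) (by rw [add_re]; linarith) (by ring),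
    zeta_eq (s := 1 + z / L + u₂ / L) hL (z + u₂) (by rw [add_re]; linarith) (by ring),
    zeta_eq (s := 1 + z / L + u₃ / L) hL (z + u₃) (by rw [add_re]; linarith) (by ring)]
  exact alg (ofReal_ne_zero.2 hL.ne') ..

theorem eta_tendsto (w : ℂ) : Tendsto (fun L => eta L w) atTop (𝓝 1) := by
  have h : Tendsto (fun L : ℝ => 1 + w / L) atTop (𝓝 1) := by
    simpa [div_eq_mul_inv] using (((continuous_ofReal.tendsto 0).comp
      tendsto_inv_atTop_zero).const_mul w).const_add 1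
  exact riemannZeta₁_one ▸ (differentiable_riemannZeta₁.continuous.tendsto 1).comp h

theorem eta_inv (w : ℂ) : Tendsto (fun L => (eta L w)⁻¹) atTop (𝓝 1) := by
  simpa using (eta_tendsto w).inv₀ one_ne_zero

theorem eta_le : ∃ (C : ℝ) (A : ℕ), 0 ≤ C ∧ ∀ L S t : ℝ, 4 ≤ L → 1 ≤ S → 0 ≤ t → ∀ w : ℂ,
    0 ≤ w.re → w.re ≤ 4 → ‖w‖ ≤ S + t →
    ‖eta L w‖ ≤ C * (S * (1 + t / L)) ^ A ∧ ‖(eta L w)⁻¹‖ ≤ C * (S * (1 + t / L)) ^ A := by
  obtain ⟨C, A, h⟩ := eta_bound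
  have hC : 0 ≤ C := by simpa using (norm_nonneg _).trans (h 0 (by simp) (by simp)).2.1
  refine ⟨C * 2 ^ A, A, by positivity, fun L S t hL hS ht w h0 h4 hw => ?_⟩
  have hL' : 0 < L := by linarith
  have := (h (w / L) (by rw [div_ofReal_re]; positivity)
    (by rw [div_ofReal_re, div_le_one hL']; linarith)).2
  have e : C * (1 + ‖w / L‖) ^ A ≤ C * 2 ^ A * (S * (1 + t / L)) ^ A := by
    rw [mul_assoc, ← mul_pow, norm_div, norm_real, Real.norm_of_nonneg hL'.le]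
    gcongr
    have h1 : ‖w‖ / L ≤ S / L + t / L := by rw [← add_div]; gcongr
    have h2 : S / L ≤ S := div_le_self (by linarith) (by linarith)
    have h3 : 0 ≤ t / L := by positivity
    nlinarith
  exact ⟨this.1.trans e, this.2.trans e⟩

theorem rat_le {σ z u v : ℂ} {S : ℝ} (hS : 1 ≤ S) (h1 : 1 / 4 ≤ (σ + u).re) (h2 : 1 ≤ (z + v).re)
    (h3 : ‖z‖ + ‖u‖ ≤ S) (h4 : ‖v‖ + ‖u‖ ≤ S) : ‖rat σ z u v‖ ≤ 5 * S ^ 2 := by
  have a1 := h1.trans (re_le_norm _)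
  have a2 := h2.trans (re_le_norm _)
  have a3 := (norm_add_le z u).trans h3
  have a4 : ‖σ + v‖ ≤ 5 * S * ‖σ + u‖ := by
    have := norm_add_le (σ + u) (v - u)
    rw [add_add_sub_cancel] at this
    nlinarith [norm_sub_le v u]
  rw [rat, norm_div, norm_mul, norm_mul, div_le_iff₀ (by positivity)]
  calc _ ≤ S * (5 * S * ‖σ + u‖) := by gcongr
    _ = 5 * S ^ 2 * (‖σ + u‖ * 1) := by ring
    _ ≤ _ := by gcongr

theorem inv_le {w : ℂ} {S t : ℝ} (hS : 1 ≤ S) (ht : 0 ≤ t) (h1 : 1 / 4 ≤ w.re) (h2 : t ≤ ‖w‖ + S) :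
    ‖w‖⁻¹ ≤ 9 * S / (1 + t) := by
  have a1 := h1.trans (re_le_norm _)
  rw [le_div_iff₀ (by positivity), inv_mul_le_iff₀ (by positivity)]
  nlinarith

end ItgAux

open ItgAux

theorem norm_sym_le : ∃ C : ℝ, 0 ≤ C ∧ ∀ σ z u₁ u₂ u₃ v₁ v₂ : ℂ, σ.re = 1 / 2 →
    Reg z u₁ u₂ u₃ v₁ v₂ →
    ‖sym z u₁ u₂ u₃ v₁ v₂ σ‖ ≤ C * siz z u₁ u₂ u₃ v₁ v₂ ^ 7 / (1 + |σ.im|) ^ 2 := by
  refine ⟨2025, by norm_num, fun σ z u₁ u₂ u₃ v₁ v₂ hσ ⟨hz, h₁, h₂, h₃, k₁, k₂⟩ => ?_⟩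
  have := norm_nonneg z
  have := norm_nonneg u₁
  have := norm_nonneg u₂
  have := norm_nonneg u₃
  have := norm_nonneg v₁
  have := norm_nonneg v₂
  have e : siz z u₁ u₂ u₃ v₁ v₂ = 1 + ‖z‖ + ‖u₁‖ + ‖u₂‖ + ‖u₃‖ + ‖v₁‖ + ‖v₂‖ := rfl
  generalize siz z u₁ u₂ u₃ v₁ v₂ = S at e
  have hS : 1 ≤ S := by linarith
  have ht := abs_im_le_norm σ
  have a1 := rat_le (σ := σ) (z := z) (u := u₁) (v := v₁) hS (by rw [add_re]; linarith)
    (by rw [add_re]; linarith) (by linarith) (by linarith)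
  have a2 := rat_le (σ := σ) (z := z) (u := u₂) (v := v₂) hS (by rw [add_re]; linarith)
    (by rw [add_re]; linarith) (by linarith) (by linarith)
  have a3 : ‖z + u₃‖ ≤ S := by linarith [norm_add_le z u₃]
  have a4 := inv_le (w := σ + u₃) hS (abs_nonneg σ.im) (by rw [add_re]; linarith)
    (by linarith [norm_le_add_norm_add σ u₃])
  have a5 := inv_le (w := z - σ) hS (abs_nonneg σ.im) (by rw [sub_re]; linarith)
    (by linarith [norm_sub_norm_le σ z, norm_sub_rev σ z])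
  rw [sym, norm_mul, norm_mul, norm_div, norm_mul, div_eq_mul_inv, mul_inv]
  calc _ ≤ 5 * S ^ 2 * (5 * S ^ 2) * (S * (9 * S / (1 + |σ.im|) * (9 * S / (1 + |σ.im|)))) := by
        gcongr
    _ = _ := by field_simp; ring

theorem Zf_tendsto {σ z u₁ u₂ u₃ v₁ v₂ : ℂ} (hσ : σ.re = 1 / 2) (h : Reg z u₁ u₂ u₃ v₁ v₂) :
    Tendsto (fun L : ℝ => Zf (1 + σ / L) (z / L) (u₁ / L) (u₂ / L) (u₃ / L) (v₁ / L) (v₂ / L) / L)
      atTop (𝓝 (sym z u₁ u₂ u₃ v₁ v₂ σ)) := by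
  have := ((((((((((((eta_tendsto (σ + u₁)).mul (eta_tendsto (σ + u₂))).mul
    (eta_tendsto (σ + u₃))).mul (eta_inv (σ + v₁))).mul (eta_inv (σ + v₂))).mul
    (eta_tendsto (z - σ))).mul (eta_tendsto (z + v₁))).mul (eta_tendsto (z + v₂))).mul
    (eta_inv (z + u₁))).mul (eta_inv (z + u₂))).mul (eta_inv (z + u₃))).const_mul
    (sym z u₁ u₂ u₃ v₁ v₂ σ)).mul (tendsto_tprod_locp hσ h)
  simp only [mul_one] at this
  exact this.congr' ((eventually_gt_atTop 0).mono fun L hL => (Zf_div hL hσ h).symm)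

theorem Zf_bound : ∃ (C : ℝ) (A : ℕ), 0 ≤ C ∧ ∀ L : ℝ, 4 ≤ L → ∀ σ z u₁ u₂ u₃ v₁ v₂ : ℂ,
    σ.re = 1 / 2 → Reg z u₁ u₂ u₃ v₁ v₂ →
    ‖Zf (1 + σ / L) (z / L) (u₁ / L) (u₂ / L) (u₃ / L) (v₁ / L) (v₂ / L) / L‖ ≤
      C * siz z u₁ u₂ u₃ v₁ v₂ ^ A * (1 + |σ.im| / L) ^ A / (1 + |σ.im|) ^ 2 := by
  obtain ⟨C₁, hC₁, b₁⟩ := norm_sym_le
  obtain ⟨C₂, A, hC₂, b₂⟩ := eta_le
  obtain ⟨C₃, hC₃, b₃⟩ := tprod_locp_le
  refine ⟨C₁ * C₂ ^ 11 * C₃, 7 + A * 11, by positivity, fun L hL σ z u₁ u₂ u₃ v₁ v₂ hσ h => ?_⟩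
  have hL' : 0 < L := by linarith
  rw [Zf_div hL' hσ h]
  have a1 := b₁ σ z u₁ u₂ u₃ v₁ v₂ hσ h
  obtain ⟨hz, h₁, h₂, h₃, k₁, k₂⟩ := h
  have hu : ∀ u : ℂ, -(1 / 4) ≤ u.re → 1 ≤ (1 + σ / L + u / L).re := fun u hu => by
    rw [add_assoc, ← add_div, add_re, div_ofReal_re, add_re, one_re, le_add_iff_nonneg_right]
    exact div_nonneg (by linarith) hL'.le
  have a3 := b₃ (1 + σ / L) (z / L) (u₁ / L) (u₂ / L) (u₃ / L) (v₁ / L) (v₂ / L) (by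
    rw [add_sub_cancel_left, ← sub_div, div_ofReal_re, sub_re]
    exact div_nonpos_of_nonpos_of_nonneg (by linarith) hL'.le) (hu _ h₁.1) (hu _ h₂.1) (hu _ h₃.1)
    (hu _ (by linarith)) (hu _ (by linarith))
  have := norm_nonneg z
  have := norm_nonneg u₁
  have := norm_nonneg u₂
  have := norm_nonneg u₃
  have := norm_nonneg v₁
  have := norm_nonneg v₂
  have e : siz z u₁ u₂ u₃ v₁ v₂ = 1 + ‖z‖ + ‖u₁‖ + ‖u₂‖ + ‖u₃‖ + ‖v₁‖ + ‖v₂‖ := rfl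
  generalize siz z u₁ u₂ u₃ v₁ v₂ = S at e a1
  have hS : 1 ≤ S := by linarith
  have ht := abs_nonneg σ.im
  have hn : ‖σ‖ ≤ 1 / 2 + |σ.im| := by
    simpa [hσ] using norm_le_abs_re_add_abs_im σ
  have b := b₂ L S _ hL hS ht
  have c : ∀ x y : ℂ, 0 ≤ x.re + y.re → x.re + y.re ≤ 4 → ‖x‖ + ‖y‖ ≤ S + |σ.im| → _ :=
    fun x y p q r => b (x + y) p q ((norm_add_le _ _).trans r)
  have c1 := (c σ u₁ (by linarith) (by linarith) (by linarith)).1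
  have c2 := (c σ u₂ (by linarith) (by linarith) (by linarith)).1
  have c3 := (c σ u₃ (by linarith) (by linarith) (by linarith)).1
  have c4 := (c σ v₁ (by linarith) (by linarith) (by linarith)).2
  have c5 := (c σ v₂ (by linarith) (by linarith) (by linarith)).2
  have c6 := (b (z - σ) (by rw [sub_re]; linarith) (by rw [sub_re]; linarith)
    (by linarith [norm_sub_le z σ])).1
  have c7 := (c z v₁ (by linarith) (by linarith) (by linarith)).1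
  have c8 := (c z v₂ (by linarith) (by linarith) (by linarith)).1
  have c9 := (c z u₁ (by linarith) (by linarith) (by linarith)).2
  have c10 := (c z u₂ (by linarith) (by linarith) (by linarith)).2
  have c11 := (c z u₃ (by linarith) (by linarith) (by linarith)).2
  have hX : 1 ≤ 1 + |σ.im| / L := le_add_of_nonneg_right (by positivity)
  generalize 1 + |σ.im| / L = X at *
  obtain ⟨M, hM⟩ : ∃ M, M = C₂ * (S * X) ^ A := ⟨_, rfl⟩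
  have hM0 : 0 ≤ M := by rw [hM]; positivity
  rw [← hM] at c1 c2 c3 c4 c5 c6 c7 c8 c9 c10 c11
  simp only [norm_mul]
  calc _ ≤ C₁ * S ^ 7 / (1 + |σ.im|) ^ 2 * (M * M * M * M * M * M * M * M * M * M * M) * C₃ := by
        gcongr
    _ = C₁ * C₂ ^ 11 * C₃ * S ^ (7 + A * 11) * X ^ (A * 11) / (1 + |σ.im|) ^ 2 := by
        rw [hM]; ring
    _ ≤ _ := by gcongr; omega

end Pool.Agent.P.MP_7eacff_nt.SZ
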