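import Pool.Agent.P.MP_7eacff_nt.SZ.Basic

/-!
The product of four L functions has nonnegative coefficients.
-/

open Complex Filter Topology MeasureTheory Set
open scoped Real ContDiff

namespace Pool.Agent.P.MP_7eacff_nt.SZ

open Pool.Agent.Lib.LargeSieve (primSet mem_primSet)

open DirichletCharacter
open scoped ComplexOrder

namespace LProdAux

/-- The constant function one. -/
noncomputable def zt : ArithmeticFunction ℂ := ArithmeticFunction.zeta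

/-- A character as an arithmetic function. -/
noncomputable def ch {q : ℕ} (χ : DirichletCharacter ℂ q) : ArithmeticFunction ℂ :=
  toArithmeticFunction (χ ·)

theorem zt_summable {s : ℂ} (hs : 1 < s.re) : LSeriesSummable (fun n => zt n) s :=
  ArithmeticFunction.LSeriesSummable_zeta_iff.2 hs

theorem zt_eq {s : ℂ} (hs : 1 < s.re) : LSeries (fun n => zt n) s = riemannZeta s :=
  ArithmeticFunction.LSeries_zeta_eq_riemannZeta hs

theorem ch_summable {q : ℕ} (χ : DirichletCharacter ℂ q) {s : ℂ} (hs : 1 < s.re) :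
    LSeriesSummable (fun n => ch χ n) s :=
  (LSeriesSummable_congr _ fun h => (χ.apply_eq_toArithmeticFunction_apply h).symm).2
    (DirichletCharacter.LSeriesSummable_of_one_lt_re χ hs)

theorem ch_eq {q : ℕ} [NeZero q] (χ : DirichletCharacter ℂ q) {s : ℂ} (hs : 1 < s.re) :
    LSeries (fun n => ch χ n) s = LFunction χ s := by
  rw [χ.LFunction_eq_LSeries hs]
  exact (LSeries_congr χ.apply_eq_toArithmeticFunction_apply s).symm

theorem zt_pow {p : ℕ} (hp : p.Prime) (k : ℕ) : zt (p ^ k) = 1 ^ k := by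
  simp [zt, ArithmeticFunction.natCoe_apply, hp.ne_zero]

theorem ch_pow {q : ℕ} (χ : DirichletCharacter ℂ q) {p : ℕ} (hp : p.Prime) (k : ℕ) :
    ch χ (p ^ k) = χ p ^ k := by
  rw [ch, ← χ.apply_eq_toArithmeticFunction_apply (pow_ne_zero k hp.ne_zero), Nat.cast_pow,
    map_pow]

theorem mul_pow_apply (f g : ArithmeticFunction ℂ) {p : ℕ} (hp : p.Prime) (k : ℕ) :
    (f * g) (p ^ k) = ∑ i ∈ Finset.range (k + 1), f (p ^ i) * g (p ^ (k - i)) := by
  rw [ArithmeticFunction.mul_apply, Nat.sum_divisorsAntidiagonal fun a b => f a * g b,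
    Nat.sum_divisors_prime_pow hp]
  refine Finset.sum_congr rfl fun i hi => ?_
  rw [Nat.pow_div (Nat.lt_succ_iff.1 (Finset.mem_range.1 hi)) hp.pos]

theorem mul_nn {f g : ArithmeticFunction ℂ} {p : ℕ} (hp : p.Prime) (hf : ∀ k, 0 ≤ f (p ^ k))
    (hg : ∀ k, 0 ≤ g (p ^ k)) (k : ℕ) : 0 ≤ (f * g) (p ^ k) := by
  rw [mul_pow_apply f g hp]
  exact Finset.sum_nonneg fun i _ => mul_nonneg (hf _) (hg _)

theorem neg_nn {f g : ArithmeticFunction ℂ} {p : ℕ} (hp : p.Prime) {x : ℂ} (hx : 0 ≤ x ^ 2)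
    (hf : ∀ k, f (p ^ k) = x ^ k) (hg : ∀ k, g (p ^ k) = (-x) ^ k) (k : ℕ) :
    0 ≤ (f * g) (p ^ k) := by
  have e : (f * g) (p ^ k) = (∑ i ∈ Finset.range (k + 1), (-1 : ℂ) ^ i) * x ^ k := by
    rw [mul_comm, mul_pow_apply g f hp, Finset.sum_mul]
    refine Finset.sum_congr rfl fun i hi => ?_
    rw [hf, hg, neg_pow, mul_assoc, ← pow_add,
      Nat.add_sub_cancel' (Nat.lt_succ_iff.1 (Finset.mem_range.1 hi))]
  rw [e, neg_one_geom_sum]
  split_ifs with h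
  · rw [zero_mul]
  · obtain ⟨m, rfl⟩ := Nat.even_add_one.not_left.1 h
    rw [one_mul, ← two_mul, pow_mul]
    exact pow_nonneg hx m

theorem four {f₀ f₁ f₂ f₃ : ArithmeticFunction ℂ} {p : ℕ} (hp : p.Prime) {a b : ℂ}
    (ha : a = 0 ∨ a = 1 ∨ a = -1) (hb : b = 0 ∨ b = 1 ∨ b = -1) (h₀ : ∀ k, f₀ (p ^ k) = 1 ^ k)
    (h₁ : ∀ k, f₁ (p ^ k) = a ^ k) (h₂ : ∀ k, f₂ (p ^ k) = b ^ k)
    (h₃ : ∀ k, f₃ (p ^ k) = (a * b) ^ k) (k : ℕ) : 0 ≤ (f₀ * (f₁ * f₂ * f₃)) (p ^ k) := by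
  have sq : ∀ {x : ℂ}, x = 0 ∨ x = 1 ∨ x = -1 → 0 ≤ x ^ 2 := by
    rintro x (rfl | rfl | rfl) <;> simp
  have nn : ∀ {x : ℂ}, x = 0 ∨ x = 1 ∨ x = -1 → x ≠ -1 → 0 ≤ x := by
    rintro x (rfl | rfl | rfl) h
    exacts [le_rfl, zero_le_one, (h rfl).elim]
  have s1 : (0 : ℂ) ≤ 1 ^ 2 := sq (Or.inr (Or.inl rfl))
  by_cases h1 : a = -1
  · subst h1
    rw [show f₀ * (f₁ * f₂ * f₃) = f₀ * f₁ * (f₂ * f₃) by ring]
    exact mul_nn hp (neg_nn hp s1 h₀ h₁) (neg_nn hp (sq hb) h₂ fun k => by rw [h₃, neg_one_mul]) k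
  by_cases h2 : b = -1
  · subst h2
    rw [show f₀ * (f₁ * f₂ * f₃) = f₀ * f₂ * (f₁ * f₃) by ring]
    exact mul_nn hp (neg_nn hp s1 h₀ h₂) (neg_nn hp (sq ha) h₁ fun k => by rw [h₃, mul_neg_one]) k
  refine mul_nn hp (fun k => ?_) (mul_nn hp (mul_nn hp (fun k => ?_) fun k => ?_) fun k => ?_) k
  · rw [h₀]
    exact pow_nonneg zero_le_one k
  · rw [h₁]
    exact pow_nonneg (nn ha h1) k
  · rw [h₂]
    exact pow_nonneg (nn hb h2) k
  · rw [h₃]
    exact pow_nonneg (mul_nonneg (nn ha h1) (nn hb h2)) k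

end LProdAux

theorem pc_apply {q₁ q₂ : ℕ} [NeZero q₁] [NeZero q₂] (χ₁ : DirichletCharacter ℂ q₁)
    (χ₂ : DirichletCharacter ℂ q₂) (n : ℕ) : pc χ₁ χ₂ n = χ₁ n * χ₂ n := by
  rw [pc, MulChar.mul_apply]
  by_cases h : n.Coprime (q₁ * q₂)
  · have h' : IsCoprime (n : ℤ) ((q₁ * q₂ : ℕ) : ℤ) := Nat.isCoprime_iff_coprime.2 h
    have e1 := changeLevel_eq_cast_of_dvd' χ₁ (dvd_mul_right q₁ q₂) h'
    have e2 := changeLevel_eq_cast_of_dvd' χ₂ (dvd_mul_left q₂ q₁) h'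
    rw [Int.cast_natCast, Int.cast_natCast] at e1 e2
    rw [e1, e2]
  · rw [MulChar.map_nonunit _ (mt (ZMod.isUnit_iff_coprime _ _).1 h), zero_mul]
    rw [Nat.coprime_mul_iff_right, not_and_or] at h
    rcases h with h | h
    · rw [MulChar.map_nonunit χ₁ (mt (ZMod.isUnit_iff_coprime _ _).1 h), zero_mul]
    · rw [MulChar.map_nonunit χ₂ (mt (ZMod.isUnit_iff_coprime _ _).1 h), mul_zero]

theorem pc_ne_one {q₁ q₂ : ℕ} [NeZero q₁] [NeZero q₂] {χ₁ : DirichletCharacter ℂ q₁}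
    {χ₂ : DirichletCharacter ℂ q₂} (h₁ : χ₁.IsPrimitive) (h₂ : χ₂.IsPrimitive) (hs : χ₂ ^ 2 = 1)
    (hq : q₁ ≠ q₂) : pc χ₁ χ₂ ≠ 1 := by
  intro h
  have h2 : changeLevel (dvd_mul_left q₂ q₁) χ₂ * changeLevel (dvd_mul_left q₂ q₁) χ₂ = 1 := by
    rw [← map_mul, ← sq, hs, map_one]
  have h3 : changeLevel (dvd_mul_right q₁ q₂) χ₁ = changeLevel (dvd_mul_left q₂ q₁) χ₂ :=
    mul_right_cancel (h.trans h2.symm)
  have h4 := congrArg conductor h3
  rw [conductor_changeLevel, conductor_changeLevel, h₁, h₂] at h4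
  exact hq h4

theorem exists_coef_two {q : ℕ} [NeZero q] {χ : DirichletCharacter ℂ q} (h : χ ^ 2 = 1) :
    ∃ r : ℕ → ℂ, (∀ n, 0 ≤ r n) ∧ r 1 = 1 ∧ ∀ s : ℂ, 1 < s.re →
      LSeriesSummable r s ∧ LSeries r s = riemannZeta s * LFunction χ s := by
  refine ⟨zetaMul χ, zetaMul_nonneg h, (isMultiplicative_zetaMul χ).map_one, fun s hs =>
    ⟨LSeriesSummable_zetaMul χ hs, ?_⟩⟩
  have e := ArithmeticFunction.LSeries_mul' (LProdAux.zt_summable hs) (LProdAux.ch_summable χ hs)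
  rw [LProdAux.zt_eq hs, LProdAux.ch_eq χ hs] at e
  exact e

theorem exists_coef_four {q₁ q₂ : ℕ} [NeZero q₁] [NeZero q₂] {χ₁ : DirichletCharacter ℂ q₁}
    {χ₂ : DirichletCharacter ℂ q₂} (h₁ : χ₁ ^ 2 = 1) (h₂ : χ₂ ^ 2 = 1) :
    ∃ r : ℕ → ℂ, (∀ n, 0 ≤ r n) ∧ r 1 = 1 ∧ ∀ s : ℂ, 1 < s.re → LSeriesSummable r s ∧
      LSeries r s =
        riemannZeta s * (LFunction χ₁ s * LFunction χ₂ s * LFunction (pc χ₁ χ₂) s) := by
  have hm : (LProdAux.zt * (LProdAux.ch χ₁ * LProdAux.ch χ₂ *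
      LProdAux.ch (pc χ₁ χ₂))).IsMultiplicative :=
    ArithmeticFunction.isMultiplicative_zeta.natCast.mul
      (((isMultiplicative_toArithmeticFunction _).mul (isMultiplicative_toArithmeticFunction _)).mul
        (isMultiplicative_toArithmeticFunction _))
  refine ⟨_, fun n => ?_, hm.map_one, fun s hs => ?_⟩
  · rcases eq_or_ne n 0 with rfl | hn
    · rw [ArithmeticFunction.map_zero]
    rw [hm.multiplicative_factorization _ hn]
    refine Finset.prod_nonneg fun p hp => ?_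
    have hp' := Nat.prime_of_mem_primeFactors hp
    have e3 := LProdAux.ch_pow (pc χ₁ χ₂) hp'
    rw [pc_apply] at e3
    exact LProdAux.four hp' (MulChar.isQuadratic_iff_sq_eq_one.2 h₁ p)
      (MulChar.isQuadratic_iff_sq_eq_one.2 h₂ p) (LProdAux.zt_pow hp') (LProdAux.ch_pow χ₁ hp')
      (LProdAux.ch_pow χ₂ hp') e3 _
  · have s0 := LProdAux.zt_summable hs
    have s1 := LProdAux.ch_summable χ₁ hs
    have s2 := LProdAux.ch_summable χ₂ hs
    have s3 := LProdAux.ch_summable (pc χ₁ χ₂) hs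
    have s12 := ArithmeticFunction.LSeriesSummable_mul s1 s2
    have s123 := ArithmeticFunction.LSeriesSummable_mul s12 s3
    refine ⟨ArithmeticFunction.LSeriesSummable_mul s0 s123, ?_⟩
    have e := ArithmeticFunction.LSeries_mul' s0 s123
    rw [ArithmeticFunction.LSeries_mul' s12 s3, ArithmeticFunction.LSeries_mul' s1 s2,
      LProdAux.zt_eq hs, LProdAux.ch_eq χ₁ hs, LProdAux.ch_eq χ₂ hs, LProdAux.ch_eq _ hs] at e
    exact e

end Pool.Agent.P.MP_7eacff_nt.SZ
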