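import Pool.Agent.P.MP_7eacff_nt.SZ.Itg

/-!
The main term for fixed shifts.
-/

open Complex Filter Topology MeasureTheory Set
open scoped Real ContDiff

namespace Pool.Agent.P.MP_7eacff_nt.SZ

open Pool.Agent.Lib.LargeSieve (primSet mem_primSet)

namespace Lev1Aux

/-- The coefficient of the double series. -/
noncomputable def co (L : ℝ) (z u₁ u₂ u₃ v₁ v₂ : ℂ) (x : ℕ × ℕ) : ℂ :=
  pw (z / L) x.1 * cel (u₁ / L) (u₂ / L) (u₃ / L) (v₁ / L) (v₂ / L) x.2 *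
    (mu x.1 / x.1 * (ram x.1 x.2 / x.1.totient))

/-- The majorant. -/
noncomputable def maj (L : ℝ) (x : ℕ × ℕ) : ℝ := ‖mu x.1 / x.1 * (ram x.1 x.2 / x.1.totient)‖ *
  ((x.1 : ℝ) ^ (1 - 1 / (2 * L)) * (tau x.2 ^ 4 * (x.2 : ℝ) ^ (-1 - 1 / (4 * L))))

theorem summable_maj {L : ℝ} (hL : 0 < L) : Summable (maj L) :=
  summable_major (by positivity) (by positivity)

theorem co_zero {L : ℝ} {z u₁ u₂ u₃ v₁ v₂ : ℂ} {x : ℕ × ℕ} (hx : x.1 = 0 ∨ x.2 = 0) :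
    co L z u₁ u₂ u₃ v₁ v₂ x = 0 := by
  rcases hx with hx | hx <;> simp [co, hx]

theorem term_le {L : ℝ} (hL : 0 < L) {z u₁ u₂ u₃ v₁ v₂ : ℂ} (h : Reg z u₁ u₂ u₃ v₁ v₂) {s : ℂ}
    (hs : s.re = 1 + 1 / (2 * L)) (x : ℕ × ℕ) :
    ‖co L z u₁ u₂ u₃ v₁ v₂ x * ((x.1 : ℂ) ^ s * (x.2 : ℂ) ^ (-s))‖ ≤ maj L x := by
  have ht := tau_nonneg x.2
  by_cases hx : x.1 = 0 ∨ x.2 = 0
  · rw [co_zero hx, zero_mul, norm_zero, maj]
    positivity
  rw [not_or] at hx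
  have h1 : (0 : ℝ) < x.1 := by exact_mod_cast Nat.pos_of_ne_zero hx.1
  have h2 : (0 : ℝ) < x.2 := by exact_mod_cast Nat.pos_of_ne_zero hx.2
  have hu : ∀ u : ℂ, -(1 / 4) ≤ u.re → -(1 / (4 * L)) ≤ (u / L).re := fun u hu => by
    rw [div_ofReal_re, le_div_iff₀ hL]
    calc -(1 / (4 * L)) * L = -(1 / 4) := by field_simp
      _ ≤ _ := hu
  have hv : ∀ v : ℂ, 0 ≤ v.re → 0 ≤ (v / L).re := fun v hv => by
    rw [div_ofReal_re]
    positivity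
  have hc := norm_cel_le (b := 1 / (4 * L)) (by positivity) (hu _ h.h₁.1) (hu _ h.h₂.1)
    (hu _ h.h₃.1) (hv _ h.k₁.1) (hv _ h.k₂.1) x.2
  have e1 : (x.1 : ℝ) ^ (1 - 1 / (2 * L)) = (x.1 : ℝ) ^ (-(1 / L)) * (x.1 : ℝ) ^ s.re := by
    rw [← Real.rpow_add h1, hs]
    congr 1
    field_simp
    ring
  have e2 : (x.2 : ℝ) ^ (-1 - 1 / (4 * L)) = (x.2 : ℝ) ^ (1 / (4 * L)) * (x.2 : ℝ) ^ (-s.re) := by
    rw [← Real.rpow_add h2, hs]
    congr 1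
    field_simp
    ring
  rw [co, maj, norm_mul, norm_mul, norm_mul, norm_mul (_ ^ s), pw_apply _ hx.1,
    norm_natCast_cpow_of_pos (Nat.pos_of_ne_zero hx.1),
    norm_natCast_cpow_of_pos (Nat.pos_of_ne_zero hx.1),
    norm_natCast_cpow_of_pos (Nat.pos_of_ne_zero hx.2), neg_re, neg_re, div_ofReal_re, h.hz, e1, e2]
  calc _ ≤ (x.1 : ℝ) ^ (-(1 / L)) * (tau x.2 ^ 4 * (x.2 : ℝ) ^ (1 / (4 * L))) *
        ‖mu x.1 / x.1 * (ram x.1 x.2 / x.1.totient)‖ * ((x.1 : ℝ) ^ s.re * (x.2 : ℝ) ^ (-s.re)) := by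
        gcongr
    _ = _ := by ring

theorem cont_term {c : ℝ} (hc : 0 < c) (a : ℂ) (x : ℕ × ℕ) : Continuous fun t : ℝ =>
    a * ((x.1 : ℂ) ^ (c + t * I : ℂ) * (x.2 : ℂ) ^ (-(c + t * I : ℂ))) := by
  have h0 : ∀ t : ℝ, (c + t * I : ℂ) ≠ 0 := fun t e => hc.ne' (by simpa using congrArg re e)
  exact continuous_const.mul ((Continuous.const_cpow (by fun_prop) (Or.inr h0)).mul
    (Continuous.const_cpow (by fun_prop) (Or.inr fun t => neg_ne_zero.2 (h0 t))))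

theorem cont_Zf {L : ℝ} (hL : 0 < L) {z u₁ u₂ u₃ v₁ v₂ : ℂ} (h : Reg z u₁ u₂ u₃ v₁ v₂) :
    Continuous fun t : ℝ => Zf ((1 + 1 / (2 * L) : ℝ) + t * I)
      (z / L) (u₁ / L) (u₂ / L) (u₃ / L) (v₁ / L) (v₂ / L) :=
  continuous_tsum (fun x => cont_term (by positivity) (co L z u₁ u₂ u₃ v₁ v₂ x) x)
    (summable_maj hL) fun x t => term_le hL h (by simp) x

theorem cont_M {V : ℝ → ℂ} {M : ℂ → ℂ} (hV : Vcl V M) {c : ℝ} (h0 : 0 ≤ c) (h2 : c ≤ 2) :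
    Continuous fun t : ℝ => M (c + t * I) :=
  hV.cont.comp_continuous (by fun_prop) fun t => by simpa using ⟨h0, h2⟩

theorem inv_sq_le (t : ℝ) : 1 / (1 + |t|) ^ 2 ≤ (1 + t ^ 2)⁻¹ := by
  rw [one_div]
  refine inv_anti₀ (by positivity) ?_
  nlinarith [abs_nonneg t, sq_abs t]

theorem int_M {V : ℝ → ℂ} {M : ℂ → ℂ} (hV : Vcl V M) {c : ℝ} (h0 : 0 ≤ c) (h2 : c ≤ 2) :
    Integrable fun t : ℝ => M (c + t * I) := by
  obtain ⟨C, hC⟩ := hV.dec 2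
  refine (integrable_inv_one_add_sq.const_mul |C|).mono' (cont_M hV h0 h2).aestronglyMeasurable
    (Eventually.of_forall fun t => (hC _ (by simpa using h0) (by simpa using h2)).trans ?_)
  have e : (c + t * I : ℂ).im = t := by simp
  rw [e, div_eq_mul_one_div]
  exact mul_le_mul (le_abs_self C) (inv_sq_le t) (by positivity) (abs_nonneg C)

theorem line_eq {L : ℝ} (hL : 0 < L) (t : ℝ) :
    1 + (1 / 2 + t * I) / (L : ℂ) = (1 + 1 / (2 * L) : ℝ) + (t / L : ℝ) * I := by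
  have : (L : ℂ) ≠ 0 := ofReal_ne_zero.2 hL.ne'
  push_cast
  field_simp
  ring

theorem c_le {L : ℝ} (hL : 4 ≤ L) : 1 + 1 / (2 * L) ≤ 2 := by
  have : 1 / (2 * L) ≤ 1 := by rw [div_le_one (by linarith)]; linarith
  linarith

theorem cpow_eq {T : ℝ} (hT : 0 < T) {k m : ℕ} (s : ℂ) :
    (((m : ℝ) / (k * T) : ℝ) : ℂ) ^ (-s) = (T : ℂ) ^ s * ((k : ℂ) ^ s * (m : ℂ) ^ (-s)) := by
  rw [ofReal_div, div_cpow_ofReal_nonneg m.cast_nonneg (by positivity), ofReal_mul,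
    mul_cpow_ofReal_nonneg k.cast_nonneg hT.le, cpow_neg (k : ℝ), cpow_neg T, ofReal_natCast,
    ofReal_natCast, div_eq_mul_inv, mul_inv, inv_inv, inv_inv]
  ring

/-- The integrand. -/
noncomputable def H (M : ℂ → ℂ) (z u₁ u₂ u₃ v₁ v₂ : ℂ) (L t : ℝ) : ℂ :=
  cexp (1 / 2 + t * I) * (M (1 + (1 / 2 + t * I) / L) *
    (Zf (1 + (1 / 2 + t * I) / L) (z / L) (u₁ / L) (u₂ / L) (u₃ / L) (v₁ / L) (v₂ / L) / L))

theorem cont_H {V : ℝ → ℂ} {M : ℂ → ℂ} (hV : Vcl V M) {L : ℝ} (hL : 4 ≤ L)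
    {z u₁ u₂ u₃ v₁ v₂ : ℂ} (h : Reg z u₁ u₂ u₃ v₁ v₂) : Continuous (H M z u₁ u₂ u₃ v₁ v₂ L) := by
  have h0 : 0 < L := by linarith
  have hd : Continuous fun t : ℝ => t / L := by fun_prop
  unfold H
  simp only [line_eq h0]
  exact (by fun_prop : Continuous fun t : ℝ => cexp (1 / 2 + t * I)).mul
    (((cont_M hV (by positivity) (c_le hL)).comp hd).mul (((cont_Zf h0 h).comp hd).div_const _))

theorem H_le {V : ℝ → ℂ} {M : ℂ → ℂ} (hV : Vcl V M) : ∃ (K : ℝ) (A : ℕ), ∀ L : ℝ, 4 ≤ L →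
    ∀ z u₁ u₂ u₃ v₁ v₂ : ℂ, Reg z u₁ u₂ u₃ v₁ v₂ → ∀ t,
      ‖H M z u₁ u₂ u₃ v₁ v₂ L t‖ ≤ K * siz z u₁ u₂ u₃ v₁ v₂ ^ A * (1 + t ^ 2)⁻¹ := by
  obtain ⟨C, A, hC0, hC⟩ := Zf_bound
  obtain ⟨D, hD⟩ := hV.dec A
  refine ⟨Real.exp (1 / 2) * |D| * C, A, fun L hL z u₁ u₂ u₃ v₁ v₂ h t => ?_⟩
  have h0 : 0 < L := by linarith
  have h1 := hC L hL (1 / 2 + t * I) z u₁ u₂ u₃ v₁ v₂ (by simp) h
  have h2 := hD (1 + (1 / 2 + t * I) / L) (by rw [line_eq h0]; simp; positivity)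
    (by rw [line_eq h0]; simpa using c_le hL)
  have e1 : (1 / 2 + t * I : ℂ).im = t := by simp
  have e2 : |(1 + (1 / 2 + t * I) / L : ℂ).im| = |t| / L := by
    rw [line_eq h0]
    simp [abs_div, abs_of_pos h0]
  have e3 : ‖cexp (1 / 2 + t * I)‖ = Real.exp (1 / 2) := by
    rw [norm_exp]
    simp
  have hs : 0 ≤ siz z u₁ u₂ u₃ v₁ v₂ := by unfold siz; positivity
  rw [e1] at h1
  rw [e2] at h2
  rw [H, norm_mul, norm_mul, e3]
  calc _ ≤ Real.exp (1 / 2) * (|D| / (1 + |t| / L) ^ A *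
        (C * siz z u₁ u₂ u₃ v₁ v₂ ^ A * (1 + |t| / L) ^ A / (1 + |t|) ^ 2)) := by
        gcongr
        exact h2.trans (by gcongr; exact le_abs_self D)
    _ = Real.exp (1 / 2) * |D| * C * siz z u₁ u₂ u₃ v₁ v₂ ^ A * (1 / (1 + |t|) ^ 2) := by
        field_simp
    _ ≤ _ := by
        gcongr
        exact inv_sq_le t

end Lev1Aux

open Lev1Aux

theorem Eel_eq {V : ℝ → ℂ} {M : ℂ → ℂ} (hV : Vcl V M) {T : ℝ} (hT : 1 < T) (hL : 4 ≤ Real.log T)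
    {z u₁ u₂ u₃ v₁ v₂ : ℂ} (h : Reg z u₁ u₂ u₃ v₁ v₂) :
    Eel V T z u₁ u₂ u₃ v₁ v₂ = IL fun σ => M (1 + σ / Real.log T) *
      (Zf (1 + σ / Real.log T) (z / Real.log T) (u₁ / Real.log T) (u₂ / Real.log T)
        (u₃ / Real.log T) (v₁ / Real.log T) (v₂ / Real.log T) / Real.log T) := by
  set L := Real.log T with hLe
  have h0 : 0 < L := by linarith
  have hT0 : 0 < T := by linarith
  have hTc : (T : ℂ) ≠ 0 := ofReal_ne_zero.2 hT0.ne'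
  have hLc : (L : ℂ) ≠ 0 := ofReal_ne_zero.2 h0.ne'
  obtain ⟨c, hc⟩ : ∃ c : ℝ, c = 1 + 1 / (2 * L) := ⟨_, rfl⟩
  have hc0 : 0 < c := by rw [hc]; positivity
  have hc2 : c ≤ 2 := hc ▸ c_le hL
  have hM := int_M hV hc0.le hc2
  let F : ℕ × ℕ → ℝ → ℂ := fun x t => M (c + t * I) * ((T : ℂ) ^ (c + t * I : ℂ) *
    (co L z u₁ u₂ u₃ v₁ v₂ x * ((x.1 : ℂ) ^ (c + t * I : ℂ) * (x.2 : ℂ) ^ (-(c + t * I : ℂ)))))
  have hb : ∀ (x : ℕ × ℕ) (t : ℝ), ‖(T : ℂ) ^ (c + t * I : ℂ) * (co L z u₁ u₂ u₃ v₁ v₂ x *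
      ((x.1 : ℂ) ^ (c + t * I : ℂ) * (x.2 : ℂ) ^ (-(c + t * I : ℂ))))‖ ≤ T ^ c * maj L x := by
    intro x t
    rw [norm_mul, norm_cpow_eq_rpow_re_of_pos hT0, show (c + t * I : ℂ).re = c by simp]
    exact mul_le_mul_of_nonneg_left (term_le h0 h (by simp [hc]) x) (by positivity)
  have hF : ∀ x, Integrable (F x) := fun x => hM.mul_bdd
    ((Continuous.const_cpow (by fun_prop) (Or.inl hTc)).mul
      (cont_term hc0 _ x)).aestronglyMeasurable (Eventually.of_forall (hb x))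
  have hS : Summable fun x => ∫ t, ‖F x t‖ := by
    refine Summable.of_nonneg_of_le (fun x => integral_nonneg fun t => norm_nonneg _)
      (fun x => ?_) (((summable_maj h0).mul_left (T ^ c)).mul_left (∫ t : ℝ, ‖M (c + t * I)‖))
    rw [← integral_mul_const]
    refine integral_mono (hF x).norm (hM.norm.mul_const _) fun t => ?_
    simp only [F]
    rw [norm_mul]
    exact mul_le_mul_of_nonneg_left (hb x t) (norm_nonneg _)
  have h1 : ∀ x : ℕ × ℕ, cof L z u₁ u₂ u₃ v₁ v₂ x * ker V T x = (∫ t, F x t) / (2 * π) := by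
    intro x
    have e : cof L z u₁ u₂ u₃ v₁ v₂ x * ker V T x =
        co L z u₁ u₂ u₃ v₁ v₂ x * V (x.2 / (x.1 * T)) := by
      rw [cof, ker, co]
      ring
    rw [e]
    by_cases hx : x.1 = 0 ∨ x.2 = 0
    · simp [F, co_zero hx]
    rw [not_or] at hx
    have a1 : (0 : ℝ) < x.1 := by exact_mod_cast Nat.pos_of_ne_zero hx.1
    have a2 : (0 : ℝ) < x.2 := by exact_mod_cast Nat.pos_of_ne_zero hx.2
    rw [hV.inv c hc0.le hc2 _ (by positivity), ← mul_div_assoc, ← integral_const_mul]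
    congr 2
    funext t
    rw [cpow_eq hT0]
    ring
  let G : ℝ → ℂ := fun t => M (c + t * I) * ((T : ℂ) ^ (c + t * I : ℂ) *
    Zf (c + t * I) (z / L) (u₁ / L) (u₂ / L) (u₃ / L) (v₁ / L) (v₂ / L))
  have h2 : ∀ t, ∑' x, F x t = G t := fun t => by
    simp only [F]
    rw [tsum_mul_left, tsum_mul_left]
    rfl
  have h3 : ∀ t : ℝ, H M z u₁ u₂ u₃ v₁ v₂ L t = G (t / L) / (T * L) := fun t => by
    have e : (T : ℂ) ^ (1 + (1 / 2 + t * I) / L : ℂ) = T * cexp (1 / 2 + t * I) := by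
      rw [cpow_add _ _ hTc, cpow_one, cpow_def_of_ne_zero hTc, ← ofReal_log hT0.le, ← hLe,
        mul_div_cancel₀ _ hLc]
    simp only [G, hc, ← line_eq h0, e, H]
    field_simp
  rw [Eel, tsum_congr h1, tsum_div_const, integral_tsum_of_summable_integral_norm hF hS]
  change _ = (∫ t, H M z u₁ u₂ u₃ v₁ v₂ L t) / (2 * π)
  simp only [h2, h3]
  rw [integral_div, Measure.integral_comp_div, abs_of_pos h0, real_smul]
  field_simp

theorem Eel_tendsto {V : ℝ → ℂ} {M : ℂ → ℂ} (hV : Vcl V M) {z u₁ u₂ u₃ v₁ v₂ : ℂ}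
    (h : Reg z u₁ u₂ u₃ v₁ v₂) : Tendsto (fun T => Eel V T z u₁ u₂ u₃ v₁ v₂) atTop
      (𝓝 (M 1 * IL (sym z u₁ u₂ u₃ v₁ v₂))) := by
  obtain ⟨K, A, hK⟩ := H_le hV
  have h1 : Tendsto (fun L : ℝ => ∫ t, H M z u₁ u₂ u₃ v₁ v₂ L t) atTop
      (𝓝 (∫ t : ℝ, cexp (1 / 2 + t * I) * (M 1 * sym z u₁ u₂ u₃ v₁ v₂ (1 / 2 + t * I)))) := by
    refine tendsto_integral_filter_of_dominated_convergence
      (fun t => K * siz z u₁ u₂ u₃ v₁ v₂ ^ A * (1 + t ^ 2)⁻¹) ?_ ?_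
      (integrable_inv_one_add_sq.const_mul _) (Eventually.of_forall fun t => ?_)
    · filter_upwards [eventually_ge_atTop 4] with L hL
      exact (cont_H hV hL h).aestronglyMeasurable
    · filter_upwards [eventually_ge_atTop 4] with L hL
      exact Eventually.of_forall (hK L hL z u₁ u₂ u₃ v₁ v₂ h)
    · refine Tendsto.const_mul _ (Tendsto.mul ?_ (Zf_tendsto (by simp) h))
      refine (hV.cont 1 (by simp)).tendsto.comp (tendsto_nhdsWithin_iff.2 ⟨?_, ?_⟩)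
      · have a1 : Tendsto (fun L : ℝ => ((L⁻¹ : ℝ) : ℂ)) atTop (𝓝 ((0 : ℝ) : ℂ)) :=
          (continuous_ofReal.tendsto 0).comp tendsto_inv_atTop_zero
        have a2 := (a1.const_mul (1 / 2 + t * I : ℂ)).const_add 1
        simpa [div_eq_mul_inv] using a2
      · filter_upwards [eventually_ge_atTop 4] with L hL
        have h0 : 0 < L := by linarith
        rw [line_eq h0]
        refine ⟨?_, by simpa using c_le hL⟩
        simp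
        positivity
  have h2 := (h1.comp Real.tendsto_log_atTop).div_const (2 * π : ℂ)
  have e : M 1 * IL (sym z u₁ u₂ u₃ v₁ v₂) =
      (∫ t : ℝ, cexp (1 / 2 + t * I) * (M 1 * sym z u₁ u₂ u₃ v₁ v₂ (1 / 2 + t * I))) / (2 * π) := by
    rw [IL, ← mul_div_assoc, ← integral_const_mul]
    simp only [mul_left_comm]
  rw [e]
  refine h2.congr' ?_
  filter_upwards [eventually_gt_atTop 1, Real.tendsto_log_atTop.eventually_ge_atTop 4]
    with T hT hL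
  exact (Eel_eq hV hT hL h).symm

theorem Eel_bound {V : ℝ → ℂ} {M : ℂ → ℂ} (hV : Vcl V M) : ∃ (C : ℝ) (A : ℕ),
    ∀ᶠ T : ℝ in atTop, ∀ z u₁ u₂ u₃ v₁ v₂ : ℂ, Reg z u₁ u₂ u₃ v₁ v₂ →
      ‖Eel V T z u₁ u₂ u₃ v₁ v₂‖ ≤ C * siz z u₁ u₂ u₃ v₁ v₂ ^ A := by
  obtain ⟨K, A, hK⟩ := H_le hV
  refine ⟨K / 2, A, ?_⟩
  filter_upwards [eventually_gt_atTop 1, Real.tendsto_log_atTop.eventually_ge_atTop 4]
    with T hT hL z u₁ u₂ u₃ v₁ v₂ h
  have h1 := norm_integral_le_of_norm_le (integrable_inv_one_add_sq.const_mul _)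
    (Eventually.of_forall (hK _ hL z u₁ u₂ u₃ v₁ v₂ h))
  rw [integral_const_mul, integral_univ_inv_one_add_sq] at h1
  rw [Eel_eq hV hT hL h]
  change ‖(∫ t, H M z u₁ u₂ u₃ v₁ v₂ (Real.log T) t) / (2 * π)‖ ≤ _
  have e : ‖(2 * π : ℂ)‖ = 2 * π := by simp [Real.pi_pos.le]
  rw [norm_div, e, div_le_iff₀ (by positivity)]
  linarith

end Pool.Agent.P.MP_7eacff_nt.SZ
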