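import Pool.Agent.P.MP_7eacff_nt.SZ.Siegel
import Pool.Agent.P.MP_7eacff_nt.SZ.TFO

/-!
The zero free region with a lower bound.
-/

open Complex Filter Topology MeasureTheory Set
open scoped Real ContDiff

namespace Pool.Agent.P.MP_7eacff_nt.SZ

open Pool.Agent.Lib.LargeSieve (primSet mem_primSet)

open DirichletCharacter

namespace LowerAux

theorem rpow_eq {y t : ℝ} (hy : 0 ≤ y) (ht : 0 < t) :
    (y ^ 4 * t) ^ (3 / 4 : ℝ) * t ^ (1 / 4 : ℝ) = y ^ 3 * t := by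
  rw [Real.mul_rpow (by positivity) ht.le, mul_assoc, ← Real.rpow_add ht, ← Real.rpow_natCast,
    ← Real.rpow_mul hy, ← Real.rpow_natCast]
  norm_num

theorem mean {f : ℂ → ℂ} (hf : Differentiable ℂ f) {δ M T : ℝ}
    (h : ∀ s : ℂ, 1 - δ ≤ s.re → s.re ≤ 3 → |s.im| ≤ T → ‖deriv f s‖ ≤ M) {s w : ℂ}
    (hs : 1 - δ ≤ s.re ∧ s.re ≤ 3 ∧ |s.im| ≤ T) (hw : 1 - δ ≤ w.re ∧ w.re ≤ 3 ∧ |w.im| ≤ T) :
    ‖f w‖ - M * ‖w - s‖ ≤ ‖f s‖ := by
  have hc : Convex ℝ (Complex.re ⁻¹' Icc (1 - δ) 3 ∩ Complex.im ⁻¹' Icc (-T) T) :=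
    ((convex_Icc _ _).linear_preimage Complex.reLm).inter
      ((convex_Icc _ _).linear_preimage Complex.imLm)
  have h1 := hc.norm_image_sub_le_of_norm_deriv_le (fun z _ => hf z)
    (fun z hz => h z hz.1.1 hz.1.2 (abs_le.2 hz.2)) (x := s) (y := w)
    ⟨⟨hs.1, hs.2.1⟩, abs_le.1 hs.2.2⟩ ⟨⟨hw.1, hw.2.1⟩, abs_le.1 hw.2.2⟩
  linarith [norm_sub_norm_le (f w) (f s)]

end LowerAux

theorem L_lower {ε : ℝ} (hε : 0 < ε) : ∃ c : ℝ, 0 < c ∧ c ≤ 1 / 2 ∧ ∀ (q : ℕ) [NeZero q]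
    (χ : DirichletCharacter ℂ q), χ.IsPrimitive → χ ≠ 1 → ∀ s : ℂ,
      1 - c * (q * (2 + |s.im|)) ^ (-ε) ≤ s.re → s.re ≤ 2 →
      c * (q * (2 + |s.im|)) ^ (-ε) ≤ ‖LFunction χ s‖ := by
  have he : 0 < ε / 10 := by positivity
  obtain ⟨δ, C, hδ, hC, hU⟩ := L_upper he
  obtain ⟨cS, hcS, hS⟩ := siegel he
  obtain ⟨cR, hcR, hR⟩ := L_lower_right he
  obtain ⟨a, ha, ha1, ha2⟩ : ∃ a : ℝ, 0 < a ∧ a ≤ 1 ∧ 4 * C * a ≤ cS :=
    ⟨min 1 (cS / (4 * C)), by positivity, min_le_left _ _,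
      (le_div_iff₀' (by positivity)).1 (min_le_right _ _)⟩
  obtain ⟨β, hβ, hβ1, hβ2⟩ : ∃ β : ℝ, 0 < β ∧ β ≤ 1 ∧ 4 * C * β ≤ cR :=
    ⟨min 1 (cR / (4 * C)), by positivity, min_le_left _ _,
      (le_div_iff₀' (by positivity)).1 (min_le_right _ _)⟩
  obtain ⟨c, hc, c1, c2, c3, c4, c5⟩ : ∃ c : ℝ, 0 < c ∧ c ≤ 1 / 2 ∧ c ≤ δ ∧ c ≤ β ^ 4 * a ∧
      c ≤ cR * β ^ 3 * a / 2 ∧ c ≤ cS / 2 :=
    ⟨min (1 / 2) (min δ (min (β ^ 4 * a) (min (cR * β ^ 3 * a / 2) (cS / 2)))), by positivity,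
      by simp only [← le_min_iff, le_refl]⟩
  refine ⟨c, hc, c1, fun q _ χ hχ h1 s hs1 hs2 => ?_⟩
  have hq : (1 : ℝ) ≤ q := by exact_mod_cast NeZero.one_le
  have hN : (q : ℝ) ≤ q * (2 + |s.im|) :=
    le_mul_of_one_le_right (by positivity) (by linarith [abs_nonneg s.im])
  obtain ⟨u, hu⟩ : ∃ u : ℝ, u = (q * (2 + |s.im|)) ^ (-(ε / 10)) := ⟨_, rfl⟩
  have u0 : 0 < u := hu ▸ Real.rpow_pos_of_pos (by positivity) _
  have u1 : u ≤ 1 := hu ▸ Real.rpow_le_one_of_one_le_of_nonpos (hq.trans hN) (by linarith)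
  have u10 : ((q : ℝ) * (2 + |s.im|)) ^ (-ε) = u ^ 10 := by
    rw [hu, ← Real.rpow_natCast, ← Real.rpow_mul (by positivity)]
    congr 1
    push_cast
    ring
  rw [u10] at hs1 ⊢
  have hm : ∀ w : ℂ, 1 - δ ≤ w.re ∧ w.re ≤ 3 ∧ |w.im| ≤ |s.im| →
      ‖LFunction χ w‖ - C * u⁻¹ * ‖w - s‖ ≤ ‖LFunction χ s‖ := fun w hw => by
    refine LowerAux.mean (differentiable_LFunction h1) (fun z z1 z2 z3 => ?_)
      ⟨?_, by linarith, le_rfl⟩ hw
    · refine (hU q χ h1 z z1 z2).2.trans (mul_le_mul_of_nonneg_left ?_ hC.le)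
      rw [hu, Real.rpow_neg (by positivity), inv_inv]
      gcongr
    · nlinarith [pow_le_one₀ u0.le u1 (n := 10)]
  have hy : β * u ^ 2 ≤ 1 := mul_le_one₀ hβ1 (by positivity) (pow_le_one₀ u0.le u1)
  have ht1 : a * u ^ 2 ≤ 1 := mul_le_one₀ ha1 (by positivity) (pow_le_one₀ u0.le u1)
  have hx0 : (β * u ^ 2) ^ 4 * (a * u ^ 2) ≤ a * u ^ 2 :=
    mul_le_of_le_one_left (by positivity) (pow_le_one₀ (by positivity) hy)
  have hlo : -((β * u ^ 2) ^ 4 * (a * u ^ 2)) ≤ s.re - 1 := by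
    have := mul_le_mul_of_nonneg_right c3 (pow_pos u0 10).le
    linarith
  by_cases hA : χ ^ 2 ≠ 1 ∨ a * u ^ 2 ≤ |s.im| ∨ a * u ^ 2 ≤ s.re - 1
  · obtain ⟨x, hx⟩ : ∃ x, x = max (s.re - 1) ((β * u ^ 2) ^ 4 * (a * u ^ 2)) := ⟨_, rfl⟩
    have x1 : s.re - 1 ≤ x := hx ▸ le_max_left _ _
    have x2 : (β * u ^ 2) ^ 4 * (a * u ^ 2) ≤ x := hx ▸ le_max_right _ _
    have x0 : 0 < (β * u ^ 2) ^ 4 * (a * u ^ 2) := by positivity
    have x3 : x ≤ 1 := hx ▸ max_le (by linarith) (hx0.trans ht1)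
    have x4 : x - (s.re - 1) ≤ 2 * ((β * u ^ 2) ^ 4 * (a * u ^ 2)) := by
      rw [hx, sub_le_iff_le_add]
      exact max_le (by linarith) (by linarith)
    have r1 := hR q χ x s.im (a * u ^ 2) (x0.trans_le x2) x3 (by positivity) ht1
      (hA.imp_right (Or.imp_right fun h => h.trans x1))
    have r2 := hm (1 + x + s.im * I) (by
      simp only [add_re, one_re, ofReal_re, mul_re, I_re, mul_zero, ofReal_im, I_im, mul_one,
        sub_self, add_zero, add_im, one_im, mul_im, zero_add]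
      exact ⟨by linarith, by linarith, le_rfl⟩)
    have r3 : (1 : ℂ) + x + s.im * I - s = ((x - (s.re - 1) : ℝ) : ℂ) := by
      apply Complex.ext <;> simp
      ring
    rw [r3, Complex.norm_real, Real.norm_of_nonneg (by linarith)] at r2
    rw [← hu] at r1
    have r4 : (β * u ^ 2) ^ 3 * (a * u ^ 2) ≤ x ^ (3 / 4 : ℝ) * (a * u ^ 2) ^ (1 / 4 : ℝ) := by
      rw [← LowerAux.rpow_eq (by positivity) (by positivity)]
      gcongr
    have r5 := mul_le_mul_of_nonneg_left r4 (mul_pos hcR u0).le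
    have r6 := mul_le_mul_of_nonneg_left x4 (mul_pos hC (inv_pos.2 u0)).le
    have r7 : C * u⁻¹ * (2 * ((β * u ^ 2) ^ 4 * (a * u ^ 2))) =
        4 * C * β * (β ^ 3 * a * u ^ 9 / 2) := by
      field_simp
      norm_num
    have r8 := mul_le_mul_of_nonneg_right hβ2 (show 0 ≤ β ^ 3 * a * u ^ 9 / 2 by positivity)
    have r9 : c * u ^ 10 ≤ cR * β ^ 3 * a / 2 * u ^ 9 :=
      mul_le_mul c4 (pow_le_pow_of_le_one u0.le u1 (by norm_num)) (by positivity) (by positivity)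
    linarith
  · push Not at hA
    obtain ⟨h2, a1, a2⟩ := hA
    have r1 := hS q χ hχ h1 h2
    have r2 := hm 1 (by
      simp only [one_re, one_im, abs_zero]
      exact ⟨by linarith, by norm_num, abs_nonneg _⟩)
    have r3 : ‖1 - s‖ ≤ 2 * (a * u ^ 2) := by
      refine (Complex.norm_le_abs_re_add_abs_im _).trans ?_
      have : |(1 - s).re| ≤ a * u ^ 2 := by
        rw [sub_re, one_re, abs_le]
        constructor <;> linarith
      rw [sub_im, one_im, zero_sub, abs_neg]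
      linarith
    have r4 : u ≤ (q : ℝ) ^ (-(ε / 10)) :=
      hu ▸ Real.rpow_le_rpow_of_nonpos (by positivity) hN (by linarith)
    have r5 := mul_le_mul_of_nonneg_left r4 hcS.le
    have r6 := mul_le_mul_of_nonneg_left r3 (mul_pos hC (inv_pos.2 u0)).le
    have r7 : C * u⁻¹ * (2 * (a * u ^ 2)) = 4 * C * a * (u / 2) := by
      field_simp
      norm_num
    have r8 := mul_le_mul_of_nonneg_right ha2 (half_pos u0).le
    have r9 : c * u ^ 10 ≤ cS / 2 * u :=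
      mul_le_mul c5 (pow_le_of_le_one u0.le u1 (by norm_num)) (by positivity) (by positivity)
    linarith

end Pool.Agent.P.MP_7eacff_nt.SZ
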