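import Pool.Agent.P.MP_7eacff_nt.SZ.Div

/-!
A summable majorant for the double series.
-/

open Complex Filter Topology MeasureTheory Set
open scoped Real ContDiff

namespace Pool.Agent.P.MP_7eacff_nt.SZ

open Pool.Agent.Lib.LargeSieve (primSet mem_primSet)

namespace MajorAux

theorem mul_bd {f g : AF} {b : ℝ} {i j : ℕ} (hf : ∀ n, ‖f n‖ ≤ tau n ^ i * (n : ℝ) ^ b)
    (hg : ∀ n, ‖g n‖ ≤ tau n ^ j * (n : ℝ) ^ b) (n : ℕ) :
    ‖(f * g) n‖ ≤ tau n ^ (i + j + 1) * (n : ℝ) ^ b := by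
  rw [ArithmeticFunction.mul_apply]
  refine (norm_sum_le _ _).trans ((Finset.sum_le_card_nsmul _ _
    (tau n ^ (i + j) * (n : ℝ) ^ b) fun x hx => ?_).trans_eq ?_)
  · obtain ⟨h1, h2⟩ := Nat.mem_divisorsAntidiagonal.1 hx
    have t1 := tau_nonneg x.1
    have t2 := tau_nonneg x.2
    have t3 := tau_nonneg n
    have e : (n : ℝ) ^ b = (x.1 : ℝ) ^ b * (x.2 : ℝ) ^ b := by
      rw [← h1, Nat.cast_mul, Real.mul_rpow (by positivity) (by positivity)]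
    rw [norm_mul, e, pow_add, mul_mul_mul_comm]
    refine mul_le_mul ((hf _).trans ?_) ((hg _).trans ?_) (norm_nonneg _) (by positivity)
    · gcongr
      exact tau_le_of_dvd ⟨_, h1.symm⟩ h2
    · gcongr
      exact tau_le_of_dvd ⟨x.1, by rw [← h1, mul_comm]⟩ h2
  · rw [nsmul_eq_mul, card_antidiag]
    ring

theorem norm_pw (u : ℂ) {n : ℕ} (hn : n ≠ 0) : ‖pw u n‖ = (n : ℝ) ^ (-u.re) := by
  rw [pw_apply u hn, norm_natCast_cpow_of_pos (Nat.pos_of_ne_zero hn), neg_re]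

theorem pw_bd {b : ℝ} {u : ℂ} (h : -b ≤ u.re) (n : ℕ) : ‖pw u n‖ ≤ tau n ^ 0 * (n : ℝ) ^ b := by
  rcases eq_or_ne n 0 with rfl | hn
  · rw [ArithmeticFunction.map_zero, norm_zero]
    positivity
  · rw [norm_pw u hn, pow_zero, one_mul]
    exact Real.rpow_le_rpow_of_exponent_le (Nat.one_le_cast.2 (Nat.pos_of_ne_zero hn)) (by linarith)

theorem mw_bd {b : ℝ} {v : ℂ} (h : -b ≤ v.re) (n : ℕ) : ‖mw v n‖ ≤ tau n ^ 0 * (n : ℝ) ^ b := by
  rcases eq_or_ne n 0 with rfl | hn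
  · rw [ArithmeticFunction.map_zero, norm_zero]
    positivity
  · rw [mw_apply, ← pw_apply v hn, norm_mul]
    exact (mul_le_of_le_one_left (norm_nonneg _) (norm_mu_le n)).trans (pw_bd h n)

theorem inner {b : ℝ} (hb : 0 < b) {d : ℕ} (hd : d ≠ 0) :
    Summable (fun m : ℕ => (if d ∣ m then (d : ℝ) else 0) * (tau m ^ 4 * (m : ℝ) ^ (-1 - b))) ∧
      ∑' m : ℕ, (if d ∣ m then (d : ℝ) else 0) * (tau m ^ 4 * (m : ℝ) ^ (-1 - b)) ≤
        tau d ^ 4 * ∑' m : ℕ, tau m ^ 4 * (m : ℝ) ^ (-1 - b) := by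
  have hs := summable_tau_pow 4 hb
  have hi : Function.Injective fun m => d * m := mul_right_injective₀ hd
  have h0 : ∀ m ∉ range fun m => d * m,
      (if d ∣ m then (d : ℝ) else 0) * (tau m ^ 4 * (m : ℝ) ^ (-1 - b)) = 0 := fun m hm => by
    rw [if_neg fun ⟨c, hc⟩ => hm ⟨c, hc.symm⟩, zero_mul]
  have h1 : ∀ m : ℕ, (if d ∣ d * m then (d : ℝ) else 0) *
      (tau (d * m) ^ 4 * ((d * m : ℕ) : ℝ) ^ (-1 - b)) ≤
        tau d ^ 4 * (tau m ^ 4 * (m : ℝ) ^ (-1 - b)) := fun m => by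
    have hd' : (1 : ℝ) ≤ d := Nat.one_le_cast.2 (Nat.pos_of_ne_zero hd)
    have e : (d : ℝ) * (d : ℝ) ^ (-1 - b) ≤ 1 := by
      rw [mul_comm, ← Real.rpow_add_one (by positivity)]
      exact Real.rpow_le_one_of_one_le_of_nonpos hd' (by linarith)
    have t1 := tau_nonneg (d * m)
    have t2 : tau (d * m) ^ 4 ≤ tau d ^ 4 * tau m ^ 4 := by
      rw [← mul_pow]
      exact pow_le_pow_left₀ t1 (tau_mul_le d m) 4
    rw [if_pos (dvd_mul_right d m), Nat.cast_mul, Real.mul_rpow (by positivity) (by positivity)]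
    calc _ = (d * (d : ℝ) ^ (-1 - b)) * (tau (d * m) ^ 4 * (m : ℝ) ^ (-1 - b)) := by ring
      _ ≤ 1 * (tau d ^ 4 * tau m ^ 4 * (m : ℝ) ^ (-1 - b)) := by gcongr
      _ = _ := by ring
  have h2 := (hs.mul_left (tau d ^ 4)).of_nonneg_of_le (fun m => by positivity) h1
  refine ⟨(hi.summable_iff h0).1 h2, ?_⟩
  rw [← hi.tsum_eq fun m hm => by_contra fun k => hm (h0 m k), ← tsum_mul_left]
  exact h2.tsum_le_tsum h1 (hs.mul_left _)

theorem ms_mul {Ω : Type*} [MeasurableSpace Ω] {f g : Ω → AF} (hf : ∀ n, Measurable fun w => f w n)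
    (hg : ∀ n, Measurable fun w => g w n) (n : ℕ) : Measurable fun w => (f w * g w) n := by
  simp only [ArithmeticFunction.mul_apply]
  exact Finset.measurable_sum _ fun x _ => (hf _).mul (hg _)

theorem ms_pw {Ω : Type*} [MeasurableSpace Ω] {u : Ω → ℂ} (hu : Measurable u) (n : ℕ) :
    Measurable fun w => pw (u w) n := by
  rcases eq_or_ne n 0 with rfl | hn
  · simp
  · simp only [pw_apply _ hn]
    exact measurable_const.pow hu.neg

theorem ms_mw {Ω : Type*} [MeasurableSpace Ω] {u : Ω → ℂ} (hu : Measurable u) (n : ℕ) :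
    Measurable fun w => mw (u w) n := by
  simp only [mw_apply]
  exact measurable_const.mul (measurable_const.pow hu.neg)

end MajorAux

open MajorAux

theorem norm_cel_le {b : ℝ} (hb : 0 ≤ b) {u₁ u₂ u₃ v₁ v₂ : ℂ} (h₁ : -b ≤ u₁.re) (h₂ : -b ≤ u₂.re)
    (h₃ : -b ≤ u₃.re) (k₁ : 0 ≤ v₁.re) (k₂ : 0 ≤ v₂.re) (m : ℕ) :
    ‖cel u₁ u₂ u₃ v₁ v₂ m‖ ≤ tau m ^ 4 * (m : ℝ) ^ b :=
  mul_bd (mul_bd (mul_bd (pw_bd h₁) (mw_bd (by linarith))) (mul_bd (pw_bd h₂) (mw_bd (by linarith))))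
    (pw_bd h₃) m

theorem summable_major {a b : ℝ} (ha : 0 < a) (hb : 0 < b) :
    Summable fun x : ℕ × ℕ => ‖mu x.1 / x.1 * (ram x.1 x.2 / x.1.totient)‖ *
      ((x.1 : ℝ) ^ (1 - a) * (tau x.2 ^ 4 * (x.2 : ℝ) ^ (-1 - b))) := by
  have t := tau_nonneg
  have hk : ∀ k : ℕ, Summable fun m : ℕ => ∑ d ∈ k.divisors,
      (if d ∣ m then (d : ℝ) else 0) * (tau m ^ 4 * (m : ℝ) ^ (-1 - b)) := fun k =>
    summable_sum fun d hd => (inner hb (Nat.pos_of_mem_divisors hd).ne').1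
  have h1 : Summable fun x : ℕ × ℕ => tau x.1 * (x.1 : ℝ) ^ (-1 - a) * ∑ d ∈ x.1.divisors,
      (if d ∣ x.2 then (d : ℝ) else 0) * (tau x.2 ^ 4 * (x.2 : ℝ) ^ (-1 - b)) := by
    rw [summable_prod_of_nonneg fun x => by have := t x.1; positivity]
    refine ⟨fun k => ?_, ((summable_tau_pow 6 ha).mul_right
        (∑' m : ℕ, tau m ^ 4 * (m : ℝ) ^ (-1 - b))).of_nonneg_of_le
        (fun k => tsum_nonneg fun m => by have := t k; positivity) fun k => ?_⟩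
    · exact (hk k).mul_left (tau k * (k : ℝ) ^ (-1 - a))
    have := t k
    have hS : 0 ≤ ∑' m : ℕ, tau m ^ 4 * (m : ℝ) ^ (-1 - b) := tsum_nonneg fun m => by positivity
    simp only
    rw [tsum_mul_left, Summable.tsum_finsetSum fun d hd =>
      (inner hb (Nat.pos_of_mem_divisors hd).ne').1]
    refine (mul_le_mul_of_nonneg_left (Finset.sum_le_card_nsmul _ _
      (tau k ^ 4 * ∑' m : ℕ, tau m ^ 4 * (m : ℝ) ^ (-1 - b)) fun d hd =>
        (inner hb (Nat.pos_of_mem_divisors hd).ne').2.trans ?_) (by positivity)).trans_eq ?_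
    · have := t d
      gcongr
      exact tau_le_of_dvd (Nat.dvd_of_mem_divisors hd) (Nat.mem_divisors.1 hd).2
    · rw [nsmul_eq_mul, ← tau]
      ring
  refine h1.of_nonneg_of_le (fun x => by positivity) fun ⟨k, m⟩ => ?_
  rcases eq_or_ne k 0 with rfl | hk
  · simp
  have hk' : (0 : ℝ) < k := Nat.cast_pos.2 (Nat.pos_of_ne_zero hk)
  have hφ : (0 : ℝ) < k.totient := Nat.cast_pos.2 (Nat.totient_pos.2 (Nat.pos_of_ne_zero hk))
  have e1 : (k : ℝ) ^ (1 - a) = (k : ℝ) ^ (-1 - a) * k ^ 2 := by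
    rw [← Real.rpow_natCast, ← Real.rpow_add hk']
    congr 1
    push_cast
    ring
  have e2 : 1 / (k.totient : ℝ) ≤ tau k / k := by
    rw [div_le_div_iff₀ hφ hk', one_mul, mul_comm]
    exact le_totient_mul_tau k
  have := t k
  simp only [norm_mul, norm_div, norm_natCast, ← Finset.sum_mul, e1]
  calc _ = ‖mu k‖ * ‖ram k m‖ * (1 / (k.totient : ℝ)) *
        ((k : ℝ) ^ (-1 - a) * k * (tau m ^ 4 * (m : ℝ) ^ (-1 - b))) := by field_simp
    _ ≤ 1 * (∑ d ∈ k.divisors, if d ∣ m then (d : ℝ) else 0) * (tau k / k) *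
        ((k : ℝ) ^ (-1 - a) * k * (tau m ^ 4 * (m : ℝ) ^ (-1 - b))) := by
      gcongr
      · exact norm_mu_le k
      · exact norm_ram_le k m
    _ = _ := by field_simp

theorem exists_major {V : ℝ → ℂ} {M : ℂ → ℂ} (hV : Vcl V M) {T : ℝ} (hT : 1 < T)
    (hL : 1 ≤ Real.log T) : ∃ g : ℕ × ℕ → ℝ, Summable g ∧ ∀ z u₁ u₂ u₃ v₁ v₂ : ℂ,
      Reg z u₁ u₂ u₃ v₁ v₂ → ∀ x, ‖cof (Real.log T) z u₁ u₂ u₃ v₁ v₂ x * ker V T x‖ ≤ g x := by
  obtain ⟨C, hC, hb⟩ := hV.bd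
  set L := Real.log T
  have hL0 : 0 < L := by linarith
  have hi : L⁻¹ ≤ 1 := inv_le_one_of_one_le₀ hL
  have hi0 : 0 < L⁻¹ := by positivity
  refine ⟨_, (summable_major (a := L⁻¹ / 2) (b := L⁻¹ / 4) (by positivity)
    (by positivity)).mul_left (C * T ^ (1 + L⁻¹ / 2)), fun z u₁ u₂ u₃ v₁ v₂ h ⟨k, m⟩ => ?_⟩
  have hT0 : 0 < T := by linarith
  rcases eq_or_ne k 0 with rfl | hk
  · simp [cof]
  rcases eq_or_ne m 0 with rfl | hm
  · simp only [cof, ArithmeticFunction.map_zero, mul_zero, zero_mul, norm_zero]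
    positivity
  have hk' : (0 : ℝ) < k := Nat.cast_pos.2 (Nat.pos_of_ne_zero hk)
  have hm' : (0 : ℝ) < m := Nat.cast_pos.2 (Nat.pos_of_ne_zero hm)
  have hu : ∀ u : ℂ, -(1 / 4) ≤ u.re → -(L⁻¹ / 4) ≤ (u / L).re := fun u hu => by
    rw [div_ofReal_re, div_eq_mul_inv u.re]
    nlinarith
  have hv : ∀ v : ℂ, 0 ≤ v.re → 0 ≤ (v / L).re := fun v hv => by
    rw [div_ofReal_re]
    positivity
  have h1 := norm_cel_le (by positivity) (hu _ h.h₁.1) (hu _ h.h₂.1) (hu _ h.h₃.1) (hv _ h.k₁.1)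
    (hv _ h.k₂.1) m
  have hx : (0 : ℝ) < m / (k * T) := by positivity
  have h2 : ‖V (m / (k * T))‖ ≤ C / (m / (k * T)) ^ (1 + L⁻¹ / 2) := by
    refine (hb _ hx).1.trans (div_le_div_of_nonneg_left hC (by positivity) ?_)
    rw [← Real.rpow_natCast]
    exact (Real.rpow_le_rpow hx.le (by linarith) (by positivity)).trans
      (Real.rpow_le_rpow_of_exponent_le (by linarith) (by push_cast; linarith))
  have e1 : (k : ℝ) ^ (1 - L⁻¹ / 2) = (k : ℝ) ^ (-L⁻¹) * (k : ℝ) ^ (1 + L⁻¹ / 2) := by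
    rw [← Real.rpow_add hk']
    congr 1
    ring
  have e2 : (m : ℝ) ^ (-1 - L⁻¹ / 4) = (m : ℝ) ^ (L⁻¹ / 4) / (m : ℝ) ^ (1 + L⁻¹ / 2) := by
    rw [← Real.rpow_sub hm']
    congr 1
    ring
  simp only [cof, ker]
  rw [norm_mul, norm_mul, norm_mul _ (V _), norm_pw _ hk, div_ofReal_re, h.hz, one_div, e1, e2]
  refine (mul_le_mul (mul_le_mul_of_nonneg_left h1 (by positivity))
    (mul_le_mul_of_nonneg_left h2 (norm_nonneg _)) (by positivity) (by positivity)).trans_eq ?_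
  rw [Real.div_rpow hm'.le (by positivity), Real.mul_rpow hk'.le hT0.le]
  field_simp

theorem isMultiplicative_pw (u : ℂ) : (pw u).IsMultiplicative := by
  refine ⟨by simp [pw_apply], fun {m n} _ => ?_⟩
  rcases eq_or_ne m 0 with rfl | hm
  · simp
  rcases eq_or_ne n 0 with rfl | hn
  · simp
  rw [pw_apply u (mul_ne_zero hm hn), pw_apply u hm, pw_apply u hn, Nat.cast_mul,
    natCast_mul_natCast_cpow]

theorem measurable_cof {Ω : Type*} [MeasurableSpace Ω] {z u₁ u₂ u₃ v₁ v₂ : Ω → ℂ}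
    (hz : Measurable z) (h₁ : Measurable u₁) (h₂ : Measurable u₂) (h₃ : Measurable u₃)
    (k₁ : Measurable v₁) (k₂ : Measurable v₂) (L : ℝ) (x : ℕ × ℕ) :
    Measurable fun w => cof L (z w) (u₁ w) (u₂ w) (u₃ w) (v₁ w) (v₂ w) x :=
  (ms_pw (hz.div_const _) _).mul (ms_mul (ms_mul
    (ms_mul (ms_pw (h₁.div_const _)) (ms_mw (k₁.div_const _)))
    (ms_mul (ms_pw (h₂.div_const _)) (ms_mw (k₂.div_const _)))) (ms_pw (h₃.div_const _)) _)

end Pool.Agent.P.MP_7eacff_nt.SZ
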