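import Pool.Agent.P.MP_7eacff_nt.SZ.Inner
import Pool.Agent.P.MP_7eacff_nt.SZ.Major

/-!
The Euler product of the double series.
-/

open Complex Filter Topology MeasureTheory Set
open scoped Real ContDiff

namespace Pool.Agent.P.MP_7eacff_nt.SZ

open Pool.Agent.Lib.LargeSieve (primSet mem_primSet)

namespace OuterAux

/-- The multiplicative function left after the inner summation. -/
noncomputable def gg (w : ℂ) (D : ℕ → ℂ) (k : ℕ) : ℂ := by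
  classical
  exact if Squarefree k then (k : ℂ) ^ w / k.totient * ∏ p ∈ k.primeFactors, D p else 0

theorem gg_of {w : ℂ} {D : ℕ → ℂ} {k : ℕ} (hk : Squarefree k) :
    gg w D k = (k : ℂ) ^ w / k.totient * ∏ p ∈ k.primeFactors, D p := by
  unfold gg
  exact if_pos hk

theorem gg_of_not {w : ℂ} {D : ℕ → ℂ} {k : ℕ} (hk : ¬Squarefree k) : gg w D k = 0 := by
  unfold gg
  exact if_neg hk

theorem gg_one (w : ℂ) (D : ℕ → ℂ) : gg w D 1 = 1 := by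
  rw [gg_of squarefree_one]
  simp

theorem gg_zero (w : ℂ) (D : ℕ → ℂ) : gg w D 0 = 0 := gg_of_not not_squarefree_zero

theorem gg_mul (w : ℂ) (D : ℕ → ℂ) {m n : ℕ} (h : m.Coprime n) :
    gg w D (m * n) = gg w D m * gg w D n := by
  by_cases hm : Squarefree m
  · by_cases hn : Squarefree n
    · rw [gg_of ((Nat.squarefree_mul h).2 ⟨hm, hn⟩), gg_of hm, gg_of hn, h.primeFactors_mul,
        Finset.prod_union h.disjoint_primeFactors, Nat.totient_mul h, Nat.cast_mul, Nat.cast_mul,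
        natCast_mul_natCast_cpow]
      ring
    · rw [gg_of_not hn, gg_of_not fun h' => hn ((Nat.squarefree_mul h).1 h').2, mul_zero]
  · rw [gg_of_not hm, gg_of_not fun h' => hm ((Nat.squarefree_mul h).1 h').1, zero_mul]

theorem gg_prime (w : ℂ) (D : ℕ → ℂ) {p : ℕ} (hp : p.Prime) :
    gg w D p = (p : ℂ) ^ w * D p / (p - 1) := by
  rw [gg_of hp.squarefree, hp.primeFactors, Finset.prod_singleton, Nat.totient_prime hp,
    Nat.cast_sub hp.one_le, Nat.cast_one]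
  ring

theorem tsum_gg_pow (w : ℂ) (D : ℕ → ℂ) {p : ℕ} (hp : p.Prime) :
    ∑' e : ℕ, gg w D (p ^ e) = 1 + (p : ℂ) ^ w * D p / (p - 1) := by
  rw [tsum_eq_sum (s := Finset.range 2)]
  · rw [Finset.sum_range_succ, Finset.sum_range_one, pow_zero, pow_one, gg_one, gg_prime w D hp]
  · intro e he
    have he2 : 2 ≤ e := not_lt.1 fun h => he (Finset.mem_range.2 h)
    refine gg_of_not fun h => ?_
    rw [Nat.squarefree_pow_iff hp.ne_one (by omega)] at h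
    omega

theorem hasProd_gg (w : ℂ) (D : ℕ → ℂ) (hs : Summable (gg w D)) :
    HasProd (fun p : Nat.Primes => 1 + ((p : ℕ) : ℂ) ^ w * D p / (((p : ℕ) : ℂ) - 1))
      (∑' k, gg w D k) := by
  have h := EulerProduct.eulerProduct_hasProd (gg_one w D) (gg_mul w D)
    (summable_norm_iff.2 hs) (gg_zero w D)
  have e : (fun p : Nat.Primes => ∑' e : ℕ, gg w D ((p : ℕ) ^ e)) =
      fun p : Nat.Primes => 1 + ((p : ℕ) : ℂ) ^ w * D p / (((p : ℕ) : ℂ) - 1) :=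
    funext fun p => tsum_gg_pow w D p.2
  rwa [e] at h

theorem hasProd_inv {w : ℂ} (hw : 1 < w.re) :
    HasProd (fun p : Nat.Primes => 1 - ((p : ℕ) : ℂ) ^ (-w)) (riemannZeta w)⁻¹ := by
  have h := (riemannZeta_eulerProduct_hasProd hw).inv₀ (riemannZeta_ne_zero_of_one_lt_re hw)
  simpa only [inv_inv] using h

theorem summable_term {l : ℝ} (hl : 0 < l) {s z u₁ u₂ u₃ v₁ v₂ : ℂ} (hs : s.re = 1 + l / 2)
    (hz : z.re = l) (h₁ : -(l / 4) ≤ u₁.re) (h₂ : -(l / 4) ≤ u₂.re) (h₃ : -(l / 4) ≤ u₃.re)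
    (k₁ : 0 ≤ v₁.re) (k₂ : 0 ≤ v₂.re) :
    Summable fun x : ℕ × ℕ => pw z x.1 * cel u₁ u₂ u₃ v₁ v₂ x.2 *
      (mu x.1 / x.1 * (ram x.1 x.2 / x.1.totient)) * ((x.1 : ℂ) ^ s * (x.2 : ℂ) ^ (-s)) := by
  refine Summable.of_norm_bounded (summable_major (a := l / 2) (b := l / 4) (by linarith)
    (by linarith)) ?_
  rintro ⟨k, m⟩
  have hnn : 0 ≤ ‖mu k / k * (ram k m / k.totient)‖ *
      ((k : ℝ) ^ (1 - l / 2) * (tau m ^ 4 * (m : ℝ) ^ (-1 - l / 4))) :=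
    mul_nonneg (norm_nonneg _) (mul_nonneg (Real.rpow_nonneg k.cast_nonneg _)
      (mul_nonneg (pow_nonneg (tau_nonneg m) 4) (Real.rpow_nonneg m.cast_nonneg _)))
  dsimp only
  rcases Nat.eq_zero_or_pos k with rfl | hk
  · simp
  rcases Nat.eq_zero_or_pos m with rfl | hm
  · simpa using hnn
  have hk' : (0 : ℝ) < k := by exact_mod_cast hk
  have hm' : (0 : ℝ) < m := by exact_mod_cast hm
  have hc := norm_cel_le (b := l / 4) (by linarith) h₁ h₂ h₃ k₁ k₂ m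
  have e1 : (k : ℝ) ^ (1 - l / 2) = (k : ℝ) ^ (-l) * (k : ℝ) ^ (1 + l / 2) := by
    rw [← Real.rpow_add hk']
    congr 1
    ring
  have e2 : (m : ℝ) ^ (-1 - l / 4) = (m : ℝ) ^ (l / 4) * (m : ℝ) ^ (-(1 + l / 2)) := by
    rw [← Real.rpow_add hm']
    congr 1
    ring
  rw [norm_mul, norm_mul, norm_mul, norm_mul (((k : ℂ)) ^ s), pw_apply z hk.ne',
    norm_natCast_cpow_of_pos hk, norm_natCast_cpow_of_pos hk, norm_natCast_cpow_of_pos hm,
    neg_re, neg_re, hs, hz, e1, e2]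
  have hp : 0 ≤ (k : ℝ) ^ (-l) * ‖mu k / k * (ram k m / k.totient)‖ *
      ((k : ℝ) ^ (1 + l / 2) * (m : ℝ) ^ (-(1 + l / 2))) := by positivity
  have := mul_le_mul_of_nonneg_left hc hp
  linarith

theorem inner_eq {s z u₁ u₂ u₃ v₁ v₂ : ℂ} (h₁ : 1 < (s + u₁).re) (h₂ : 1 < (s + u₂).re)
    (h₃ : 1 < (s + u₃).re) (k₁ : 1 < (s + v₁).re) (k₂ : 1 < (s + v₂).re) (k : ℕ) :
    ∑' m : ℕ, pw z k * cel u₁ u₂ u₃ v₁ v₂ m * (mu k / k * (ram k m / k.totient)) *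
        ((k : ℂ) ^ s * (m : ℂ) ^ (-s)) =
      riemannZeta (s + u₁) * riemannZeta (s + u₂) * riemannZeta (s + u₃) /
        (riemannZeta (s + v₁) * riemannZeta (s + v₂)) *
        gg (s - 1 - z) (fun p => 1 - p + p * Dp s u₁ u₂ u₃ v₁ v₂ p) k := by
  by_cases hk : Squarefree k
  · have hk0 : (k : ℂ) ≠ 0 := Nat.cast_ne_zero.2 hk.ne_zero
    have e : ∀ m : ℕ, pw z k * cel u₁ u₂ u₃ v₁ v₂ m * (mu k / k * (ram k m / k.totient)) *
        ((k : ℂ) ^ s * (m : ℂ) ^ (-s)) = (k : ℂ) ^ (s - 1 - z) / k.totient *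
          (cel u₁ u₂ u₃ v₁ v₂ m * (mu k * ram k m) * (m : ℂ) ^ (-s)) := by
      intro m
      rw [pw_apply z hk.ne_zero, cpow_sub _ _ hk0, cpow_sub _ _ hk0, cpow_one, cpow_neg (k : ℂ) z]
      ring
    rw [tsum_congr e, tsum_mul_left, inner_sum h₁ h₂ h₃ k₁ k₂ hk, gg_of hk]
    ring
  · have h0 : mu k = 0 := by
      by_contra h
      exact hk (squarefree_of_mu h)
    rw [gg_of_not hk, h0]
    simp

theorem locp_eq (s z u₁ u₂ u₃ v₁ v₂ : ℂ) (p : Nat.Primes) :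
    locp s z u₁ u₂ u₃ v₁ v₂ p =
      (1 + ((p : ℕ) : ℂ) ^ (s - 1 - z) * (1 - (p : ℕ) + (p : ℕ) * Dp s u₁ u₂ u₃ v₁ v₂ p) /
        (((p : ℕ) : ℂ) - 1)) *
      ((1 - ((p : ℕ) : ℂ) ^ (-(2 - s + z))) * (1 - ((p : ℕ) : ℂ) ^ (-(1 + z + v₁))) *
        (1 - ((p : ℕ) : ℂ) ^ (-(1 + z + v₂))) *
        ((1 - ((p : ℕ) : ℂ) ^ (-(1 + z + u₁)))⁻¹ * (1 - ((p : ℕ) : ℂ) ^ (-(1 + z + u₂)))⁻¹ *
          (1 - ((p : ℕ) : ℂ) ^ (-(1 + z + u₃)))⁻¹)) := by
  have hp : ((p : ℕ) : ℂ) ≠ 0 := Nat.cast_ne_zero.2 p.2.ne_zero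
  have e1 : ∀ v : ℂ, ((p : ℕ) : ℂ) ^ (s - 1 - z) * ((p : ℕ) : ℂ) ^ (-(s + v)) =
      ((p : ℕ) : ℂ) ^ (-(1 + z + v)) := by
    intro v
    rw [← cpow_add _ _ hp]
    congr 1
    ring
  have e2 : ((p : ℕ) : ℂ) ^ (s - 1 - z) / ((p : ℕ) : ℂ) = ((p : ℕ) : ℂ) ^ (-(2 - s + z)) := by
    have : -(2 - s + z) = s - 1 - z - 1 := by ring
    rw [this, cpow_sub (s - 1 - z) 1 hp, cpow_one]
  unfold locp loc Dp
  rw [ofReal_natCast, e1, e1, e1, e1, e1, e2, div_eq_mul_inv (_ * _ * _) (_ * _ * _), mul_inv,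
    mul_inv]

theorem fin (C G : ℂ) {a b c d e f : ℂ} (ha : a ≠ 0) (hb : b ≠ 0) (hc : c ≠ 0) (hd : d ≠ 0)
    (he : e ≠ 0) (hf : f ≠ 0) :
    C * G = C * (a * b * c / (d * e * f)) * (G * (a⁻¹ * b⁻¹ * c⁻¹ * (d * e * f))) := by
  field_simp

end OuterAux

theorem Zf_eq {l : ℝ} (hl : 0 < l) {s z u₁ u₂ u₃ v₁ v₂ : ℂ} (hs : s.re = 1 + l / 2)
    (hz : z.re = l) (h₁ : -(l / 4) ≤ u₁.re) (h₂ : -(l / 4) ≤ u₂.re) (h₃ : -(l / 4) ≤ u₃.re)
    (k₁ : 0 ≤ v₁.re) (k₂ : 0 ≤ v₂.re) :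
    Zf s z u₁ u₂ u₃ v₁ v₂ =
      riemannZeta (s + u₁) * riemannZeta (s + u₂) * riemannZeta (s + u₃) /
        (riemannZeta (s + v₁) * riemannZeta (s + v₂)) *
      (riemannZeta (2 - s + z) * riemannZeta (1 + z + v₁) * riemannZeta (1 + z + v₂) /
        (riemannZeta (1 + z + u₁) * riemannZeta (1 + z + u₂) * riemannZeta (1 + z + u₃))) *
      ∏' p, locp s z u₁ u₂ u₃ v₁ v₂ p := by
  have a₁ : 1 < (s + u₁).re := by rw [add_re]; linarith
  have a₂ : 1 < (s + u₂).re := by rw [add_re]; linarith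
  have a₃ : 1 < (s + u₃).re := by rw [add_re]; linarith
  have b₁ : 1 < (s + v₁).re := by rw [add_re]; linarith
  have b₂ : 1 < (s + v₂).re := by rw [add_re]; linarith
  have c₀ : 1 < (2 - s + z).re := by rw [add_re, sub_re, re_ofNat]; linarith
  have c₁ : 1 < (1 + z + v₁).re := by rw [add_re, add_re, one_re]; linarith
  have c₂ : 1 < (1 + z + v₂).re := by rw [add_re, add_re, one_re]; linarith
  have d₁ : 1 < (1 + z + u₁).re := by rw [add_re, add_re, one_re]; linarith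
  have d₂ : 1 < (1 + z + u₂).re := by rw [add_re, add_re, one_re]; linarith
  have d₃ : 1 < (1 + z + u₃).re := by rw [add_re, add_re, one_re]; linarith
  have nz := @riemannZeta_ne_zero_of_one_lt_re
  have hsum := OuterAux.summable_term hl hs hz h₁ h₂ h₃ k₁ k₂
  have hin := OuterAux.inner_eq (z := z) a₁ a₂ a₃ b₁ b₂
  have hC : riemannZeta (s + u₁) * riemannZeta (s + u₂) * riemannZeta (s + u₃) /
      (riemannZeta (s + v₁) * riemannZeta (s + v₂)) ≠ 0 :=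
    div_ne_zero (mul_ne_zero (mul_ne_zero (nz a₁) (nz a₂)) (nz a₃)) (mul_ne_zero (nz b₁) (nz b₂))
  have hg : Summable (OuterAux.gg (s - 1 - z) fun p => 1 - p + p * Dp s u₁ u₂ u₃ v₁ v₂ p) :=
    (summable_mul_left_iff hC).1 (hsum.prod.congr hin)
  have hP := (OuterAux.hasProd_gg _ _ hg).mul
    ((((OuterAux.hasProd_inv c₀).mul (OuterAux.hasProd_inv c₁)).mul (OuterAux.hasProd_inv c₂)).mul
      (((riemannZeta_eulerProduct_hasProd d₁).mul (riemannZeta_eulerProduct_hasProd d₂)).mul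
        (riemannZeta_eulerProduct_hasProd d₃)))
  rw [tprod_congr (OuterAux.locp_eq s z u₁ u₂ u₃ v₁ v₂), hP.tprod_eq, Zf, hsum.tsum_prod,
    tsum_congr hin, tsum_mul_left]
  exact OuterAux.fin _ _ (nz c₀) (nz c₁) (nz c₂) (nz d₁) (nz d₂) (nz d₃)

end Pool.Agent.P.MP_7eacff_nt.SZ
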