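import Pool.Agent.P.MP_7eacff_nt.SZ.Rep
import Pool.Agent.P.MP_7eacff_nt.SZ.Fd
import Pool.Agent.P.MP_7eacff_nt.SZ.Itg

/-!
The main term for a product of two represented families and a logarithm.
-/

open Complex Filter Topology MeasureTheory Set
open scoped Real ContDiff

namespace Pool.Agent.P.MP_7eacff_nt.SZ

open Pool.Agent.Lib.LargeSieve (primSet mem_primSet)

namespace PairAux

theorem MT_smul (V : ℝ → ℂ) (b : ℕ → ℂ) (a : ℂ) (c : AF) (T : ℝ) :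
    MT V b (a • c : AF) T = a * MT V b c T := by
  unfold MT
  rw [Finset.mul_sum]
  refine Finset.sum_congr rfl fun k _ => ?_
  simp only [smul_apply', mul_assoc, tsum_mul_left]
  ring

variable {α β : Type*} [MeasurableSpace α] [MeasurableSpace β] {μ : Measure α} {ν : Measure β}

theorem conv_int [SFinite μ] [SFinite ν] {ρ : α → ℂ} {ρ' : β → ℂ} {g : α → AF} {g' : β → AF}
    {f f' : AF} (hi : ∀ n, Integrable (fun w => ρ w * g w n) μ)
    (hi' : ∀ n, Integrable (fun w => ρ' w * g' w n) ν) (h : ∀ n, f n = ∫ w, ρ w * g w n ∂μ)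
    (h' : ∀ n, f' n = ∫ w, ρ' w * g' w n ∂ν) (n : ℕ) :
    Integrable (fun w : α × β => ρ w.1 * ρ' w.2 * (g w.1 * g' w.2) n) (μ.prod ν) ∧
      (f * f') n = ∫ w, ρ w.1 * ρ' w.2 * (g w.1 * g' w.2) n ∂(μ.prod ν) := by
  have e : ∀ w : α × β, ρ w.1 * ρ' w.2 * (g w.1 * g' w.2) n =
      ∑ x ∈ n.divisorsAntidiagonal, ρ w.1 * g w.1 x.1 * (ρ' w.2 * g' w.2 x.2) := fun w => by
    rw [ArithmeticFunction.mul_apply, Finset.mul_sum]
    exact Finset.sum_congr rfl fun x _ => by ring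
  simp only [e]
  have k := fun x : ℕ × ℕ => (hi x.1).mul_prod (hi' x.2)
  refine ⟨integrable_finsetSum _ fun x _ => k x, ?_⟩
  rw [integral_finsetSum _ fun x _ => k x, ArithmeticFunction.mul_apply]
  refine Finset.sum_congr rfl fun x _ => ?_
  rw [h, h']
  exact (integral_prod_mul (fun w => ρ w * g w x.1) fun w => ρ' w * g' w x.2).symm

theorem int_pw {ρ u : α → ℂ} (hρ : Integrable ρ μ) (hu : Measurable u) {c L : ℝ} (hL : 0 < L)
    (h : ∀ w, c ≤ (u w).re) (n : ℕ) : Integrable (fun w => ρ w * pw (u w / L) n) μ := by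
  rcases eq_or_ne n 0 with rfl | hn
  · simp
  · simp only [pw_apply _ hn]
    refine hρ.mul_bdd (c := (n : ℝ) ^ (-(c / L)))
      (measurable_const.pow (hu.div_const _).neg).aestronglyMeasurable
      (Eventually.of_forall fun w => ?_)
    rw [Complex.norm_natCast_cpow_of_pos (Nat.pos_of_ne_zero hn), neg_re, div_ofReal_re]
    exact Real.rpow_le_rpow_of_exponent_le (by exact_mod_cast Nat.pos_of_ne_zero hn)
      (neg_le_neg (div_le_div_of_nonneg_right (h w) hL.le))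

theorem mw_eq (v : ℂ) (n : ℕ) : mw v n = mu n * pw v n := by
  rcases eq_or_ne n 0 with rfl | hn
  · simp
  · rw [mw_apply, pw_apply _ hn]

theorem int_pm {ρ u v : α → ℂ} (hρ : Integrable ρ μ) (hu : Measurable u) (hv : Measurable v)
    {c c' L : ℝ} (hL : 0 < L) (h : ∀ w, c ≤ (u w).re) (h' : ∀ w, c' ≤ (v w).re) (n : ℕ) :
    Integrable (fun w => ρ w * (pw (u w / L) * mw (v w / L)) n) μ := by
  simp only [ArithmeticFunction.mul_apply, Finset.mul_sum, mw_eq]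
  refine integrable_finsetSum _ fun x _ => ?_
  refine ((int_pw (int_pw hρ hu hL h x.1) hv hL h' x.2).const_mul (mu x.2)).congr
    (Eventually.of_forall fun w => ?_)
  beta_reduce
  ring

theorem IL_swap [SFinite μ] {ρ z u₁ u₂ u₃ v₁ v₂ : α → ℂ}
    (hρ : Measurable ρ) (hz : Measurable z) (h₁ : Measurable u₁) (h₂ : Measurable u₂)
    (h₃ : Measurable u₃) (k₁ : Measurable v₁) (k₂ : Measurable v₂)
    (hR : ∀ w, Reg (z w) (u₁ w) (u₂ w) (u₃ w) (v₁ w) (v₂ w))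
    (hm : Integrable (fun w => ‖ρ w‖ * siz (z w) (u₁ w) (u₂ w) (u₃ w) (v₁ w) (v₂ w) ^ 7) μ) :
    Integrable (fun w => ρ w * IL (sym (z w) (u₁ w) (u₂ w) (u₃ w) (v₁ w) (v₂ w))) μ ∧
      ∫ w, ρ w * IL (sym (z w) (u₁ w) (u₂ w) (u₃ w) (v₁ w) (v₂ w)) ∂μ =
        IL fun σ => ∫ w, ρ w * sym (z w) (u₁ w) (u₂ w) (u₃ w) (v₁ w) (v₂ w) σ ∂μ := by
  obtain ⟨C, hC, hs⟩ := norm_sym_le
  have hΦ : Integrable (Function.uncurry fun (w : α) (t : ℝ) => ρ w * (cexp (1 / 2 + t * I) *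
      sym (z w) (u₁ w) (u₂ w) (u₃ w) (v₁ w) (v₂ w) (1 / 2 + t * I))) (μ.prod volume) := by
    refine (hm.mul_prod (integrable_inv_one_add_sq.const_mul (Real.exp (1 / 2) * C))).mono'
      (Measurable.aestronglyMeasurable ?_) (Eventually.of_forall fun q => ?_)
    · unfold Function.uncurry sym rat
      fun_prop
    · have e := hs (1 / 2 + q.2 * I) _ _ _ _ _ _ (by simp) (hR q.1)
      have e1 : ((1 / 2 + q.2 * I : ℂ)).im = q.2 := by simp
      have e2 : ((1 / 2 + q.2 * I : ℂ)).re = 1 / 2 := by simp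
      have e3 : 0 ≤ siz (z q.1) (u₁ q.1) (u₂ q.1) (u₃ q.1) (v₁ q.1) (v₂ q.1) := by
        unfold siz
        positivity
      have e4 : 1 + q.2 ^ 2 ≤ (1 + |q.2|) ^ 2 := by
        nlinarith [abs_nonneg q.2, sq_abs q.2]
      rw [e1] at e
      have e5 := e.trans (div_le_div_of_nonneg_left (by positivity) (by positivity) e4)
      rw [Function.uncurry, norm_mul, norm_mul, norm_exp, e2]
      refine (mul_le_mul_of_nonneg_left (mul_le_mul_of_nonneg_left e5 (Real.exp_pos _).le)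
        (norm_nonneg _)).trans_eq ?_
      ring
  have e : ∀ w, ρ w * IL (sym (z w) (u₁ w) (u₂ w) (u₃ w) (v₁ w) (v₂ w)) =
      (∫ t : ℝ, ρ w * (cexp (1 / 2 + t * I) *
        sym (z w) (u₁ w) (u₂ w) (u₃ w) (v₁ w) (v₂ w) (1 / 2 + t * I))) / (2 * π) := fun w => by
    rw [IL, integral_const_mul, mul_div_assoc]
  simp only [e]
  refine ⟨hΦ.integral_prod_left.div_const _, ?_⟩
  rw [integral_div, integral_integral_swap hΦ, IL]
  simp only [mul_left_comm (ρ _), integral_const_mul]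

theorem norm_cz (x : ℝ) : ‖cz x‖ = 1 / 4 := by
  rw [cz, norm_div, norm_exp_ofReal_mul_I]
  simp

theorem cz_re (x : ℝ) : -(1 / 4) ≤ (cz x).re ∧ (cz x).re ≤ 5 / 4 := by
  have := abs_le.1 ((abs_re_le_norm (cz x)).trans_eq (norm_cz x))
  exact ⟨this.1, by linarith [this.2]⟩

theorem cont_cz : Continuous cz := by
  unfold cz
  fun_prop

theorem cont_cr : Continuous cr := by
  unfold cr
  fun_prop

theorem siz_le (ξ x : ℝ) (u₁ u₂ v₁ v₂ : ℂ) : siz (1 + ξ * I) u₁ u₂ (cz x) v₁ v₂ ≤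
    (1 + |ξ|) * ((1 + ‖u₁‖ + ‖v₁‖) * (1 + ‖u₂‖ + ‖v₂‖) * 3) := by
  have h : ‖(1 + ξ * I : ℂ)‖ ≤ 1 + |ξ| := (norm_add_le _ _).trans_eq (by simp)
  have ha := abs_nonneg ξ
  have hb : 0 ≤ ‖u₁‖ + ‖v₁‖ := by positivity
  have hc : 0 ≤ ‖u₂‖ + ‖v₂‖ := by positivity
  rw [siz, norm_cz]
  nlinarith [mul_nonneg ha hb, mul_nonneg ha hc, mul_nonneg hb hc, mul_nonneg ha (mul_nonneg hb hc)]

theorem eval [SFinite μ] [SFinite ν] (ρ u v : α → ℂ) (ρ' u' v' : β → ℂ) (a : ℂ) {σ z : ℂ}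
    (hσ : σ.re = 1 / 2) (hz : z.re = 1) :
    ∫ w : (α × β) × ℝ, a * (ρ w.1.1 * ρ' w.1.2 * cr w.2) *
      sym z (u w.1.1) (u' w.1.2) (cz w.2) (v w.1.1) (v' w.1.2) σ
        ∂((μ.prod ν).prod (volume.restrict (Ioc 0 (2 * π)))) =
      a * ((∫ w, ρ w * rat σ z (u w) (v w) ∂μ) * (∫ w, ρ' w * rat σ z (u' w) (v' w) ∂ν) /
        σ ^ 2) := by
  have h0 : z - σ ≠ 0 := fun h => by
    have := congrArg re h
    rw [sub_re, hσ, hz, zero_re] at this
    norm_num at this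
  have h1 : 1 / 4 < ‖σ‖ := by
    have := re_le_norm σ
    linarith
  have e : ∀ w : (α × β) × ℝ, a * (ρ w.1.1 * ρ' w.1.2 * cr w.2) *
      sym z (u w.1.1) (u' w.1.2) (cz w.2) (v w.1.1) (v' w.1.2) σ =
      a / (z - σ) * (ρ w.1.1 * rat σ z (u w.1.1) (v w.1.1) *
        (ρ' w.1.2 * rat σ z (u' w.1.2) (v' w.1.2)) *
          (cr w.2 * ((z + cz w.2) / (σ + cz w.2)))) := fun w => by
    rw [sym, ← div_div]
    generalize (z + cz w.2) / (σ + cz w.2) = q
    generalize z - σ = d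
    ring
  simp only [e]
  rw [integral_const_mul, integral_prod_mul (fun p : α × β => ρ p.1 * rat σ z (u p.1) (v p.1) *
    (ρ' p.2 * rat σ z (u' p.2) (v' p.2))) fun x : ℝ => cr x * ((z + cz x) / (σ + cz x)),
    integral_prod_mul (fun p => ρ p * rat σ z (u p) (v p)) fun p => ρ' p * rat σ z (u' p) (v' p),
    circ_rat h1]
  generalize z - σ = d at h0
  field_simp

end PairAux

open PairAux in
theorem lim_pair {F : ℝ → ℝ} (hF : Tst F) (hF1 : ∀ r, 1 < r → F r = 0) {f₁ f₂ : ℝ → AF}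
    {S₁ S₂ : ℂ → ℂ → ℂ} (h₁ : PRep f₁ S₁) (h₂ : PRep f₂ S₂) {V : ℝ → ℂ} {M : ℂ → ℂ}
    (hV : Vcl V M) :
    Tendsto (fun T : ℝ => MT V (bF F T) (f₁ T * f₂ T * lg : AF) T / (T * Real.log T : ℝ)) atTop
      (𝓝 (M 1 * av F fun z => IL fun σ => S₁ σ z * S₂ σ z / σ ^ 2)) := by
  obtain ⟨ν₁, i₁, ρ₁, u₁, v₁, m₁, mu₁, mv₁, r₁, o₁, e₁, s₁⟩ := h₁
  obtain ⟨ν₂, i₂, ρ₂, u₂, v₂, m₂, mu₂, mv₂, r₂, o₂, e₂, s₂⟩ := h₂
  have mf := (continuous_fd hF).measurable
  have mz := cont_cz.measurable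
  have mr := cont_cr.measurable
  have ir : Integrable cr (volume.restrict (Ioc 0 (2 * π))) := cont_cr.integrableOn_Ioc
  have j₁ : Integrable ρ₁ ν₁ :=
    (integrable_norm_iff m₁.aestronglyMeasurable).1 (by simpa using o₁ 0)
  have j₂ : Integrable ρ₂ ν₂ :=
    (integrable_norm_iff m₂.aestronglyMeasurable).1 (by simpa using o₂ 0)
  have hR : ∀ (ξ : ℝ) (w : ((ℝ × ℝ) × ℝ × ℝ) × ℝ),
      Reg (1 + ξ * I) (u₁ w.1.1) (u₂ w.1.2) (cz w.2) (v₁ w.1.1) (v₂ w.1.2) :=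
    fun ξ w => ⟨by simp, (r₁ _).1, (r₂ _).1, cz_re _, (r₁ _).2, (r₂ _).2⟩
  have hm : ∀ A : ℕ, Integrable (fun w : ℝ × ((ℝ × ℝ) × ℝ × ℝ) × ℝ =>
      ‖fd F w.1 * (ρ₁ w.2.1.1 * ρ₂ w.2.1.2 * cr w.2.2)‖ *
        siz (1 + w.1 * I) (u₁ w.2.1.1) (u₂ w.2.1.2) (cz w.2.2) (v₁ w.2.1.1) (v₂ w.2.1.2) ^ A)
      (volume.prod ((ν₁.prod ν₂).prod (volume.restrict (Ioc 0 (2 * π))))) := fun A => by
    refine ((fd_moment hF A).mul_prod (((o₁ A).mul_prod (o₂ A)).mul_prod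
      (ir.norm.mul_const (3 ^ A)))).mono' (Measurable.aestronglyMeasurable ?_)
      (Eventually.of_forall fun w => ?_)
    · unfold siz
      fun_prop
    · have e0 : 0 ≤ siz (1 + w.1 * I) (u₁ w.2.1.1) (u₂ w.2.1.2) (cz w.2.2) (v₁ w.2.1.1)
          (v₂ w.2.1.2) := by
        unfold siz
        positivity
      rw [Real.norm_of_nonneg (by positivity)]
      refine (mul_le_mul_of_nonneg_left (pow_le_pow_left₀ e0 (siz_le _ _ _ _ _ _) A)
        (norm_nonneg _)).trans_eq ?_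
      simp only [norm_mul, mul_pow]
      ring
  have key := lim_of_rep (volume.prod ((ν₁.prod ν₂).prod (volume.restrict (Ioc 0 (2 * π)))))
    (by fun_prop) (by fun_prop) (by fun_prop) (by fun_prop) (by fun_prop) (by fun_prop)
    (by fun_prop) (fun w => hR w.1 w.2) hm hV (b := bF F)
    (c := fun T => (1 / (Real.log T : ℝ) : ℂ) • (f₁ T * f₂ T * lg)) (fun T hT k hk => by
      rw [bF_apply, hF1 _ ((one_lt_div (Real.log_pos hT)).2
        (Real.log_lt_log (by linarith) hk)), ofReal_zero, mul_zero]) (fun T hT k m => by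
      have hL := Real.log_pos hT
      rcases eq_or_ne k 0 with rfl | hk
      · simp
      have c1 := conv_int
        (fun n => int_pm j₁ mu₁ mv₁ hL (fun w => (r₁ w).1.1) (fun w => (r₁ w).2.1) n)
        (fun n => int_pm j₂ mu₂ mv₂ hL (fun w => (r₂ w).1.1) (fun w => (r₂ w).2.1) n)
        (e₁ T hT) (e₂ T hT)
      have c2 := (conv_int (ρ := fun w : (ℝ × ℝ) × ℝ × ℝ => ρ₁ w.1 * ρ₂ w.2) (fun n => (c1 n).1)
        (fun n => int_pw ir mz hL (fun w => (cz_re w).1) n) (fun n => (c1 n).2)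
        (f' := (1 / (Real.log T : ℝ) : ℂ) • lg)
        (fun n => by rw [circ_pw, smul_apply', mul_comm, mul_one_div]) m).2
      rw [← mul_smul_comm, c2, bF_apply, ← av_pw hF _ hk, av, mul_assoc, ← integral_prod_mul]
      refine congrArg _ (integral_congr_ae (Eventually.of_forall fun w => ?_))
      simp only [cof, cel]
      ring)
  have I1 := (IL_swap (by fun_prop) (by fun_prop) (by fun_prop) (by fun_prop) (by fun_prop)
    (by fun_prop) (by fun_prop) (fun w : ℝ × ((ℝ × ℝ) × ℝ × ℝ) × ℝ => hR w.1 w.2) (hm 7)).1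
  rw [integral_prod _ I1] at key
  refine (key.congr fun T => ?_).trans_eq (congrArg _ (congrArg _ (integral_congr_ae ?_)))
  · rw [MT_smul, ofReal_mul]
    ring
  · filter_upwards [(hm 7).prod_right_ae] with ξ hξ
    rw [(IL_swap (by fun_prop) (by fun_prop) (by fun_prop) (by fun_prop) (by fun_prop)
      (by fun_prop) (by fun_prop) (hR ξ) hξ).2, IL, IL, ← mul_div_assoc, ← integral_const_mul]
    refine congrArg (· / _) (integral_congr_ae (Eventually.of_forall fun t => ?_))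
    have a1 : (1 / 2 + t * I : ℂ).re = 1 / 2 := by simp
    have a2 : (1 + ξ * I : ℂ).re = 1 := by simp
    beta_reduce
    rw [eval ρ₁ u₁ v₁ ρ₂ u₂ v₂ _ a1 a2, s₁ _ _ a1 a2, s₂ _ _ a1 a2, mul_left_comm]

end Pool.Agent.P.MP_7eacff_nt.SZ
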