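import Pool.Agent.P.MP_7eacff_nt.SZ.Basic

/-!
The Riesz mean as a line integral.
-/

open Complex Filter Topology MeasureTheory Set
open scoped Real ContDiff

namespace Pool.Agent.P.MP_7eacff_nt.SZ

open Pool.Agent.Lib.LargeSieve (primSet mem_primSet)

namespace PerronAux

theorem ne {c : ℝ} (hc : 0 < c) (t : ℝ) : (c + t * I : ℂ) ≠ 0 ∧ (c + t * I + 1 : ℂ) ≠ 0 :=
  ⟨fun h => by simpa [hc.ne'] using congrArg re h,
    fun h => by simpa [(by linarith : c + 1 ≠ 0)] using congrArg re h⟩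

theorem integrable {c : ℝ} (hc : 0 < c) {g : ℝ → ℂ} (hg : Continuous g) {C : ℝ}
    (h : ∀ t, ‖g t‖ ≤ C) : Integrable fun t : ℝ => g t / ((c + t * I) * (c + t * I + 1)) := by
  have hm : 0 < min (c ^ 2) 1 := lt_min (by positivity) one_pos
  refine (integrable_inv_one_add_sq.const_mul (C / min (c ^ 2) 1)).mono'
    (hg.div (by fun_prop) fun t => mul_ne_zero (ne hc t).1 (ne hc t).2).aestronglyMeasurable
    (Eventually.of_forall fun t => ?_)
  have h1 : ‖(c + t * I : ℂ)‖ ^ 2 = c ^ 2 + t ^ 2 := by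
    rw [Complex.sq_norm, normSq_add_mul_I]
  have h2 : ‖(c + t * I : ℂ)‖ ≤ ‖(c + t * I + 1 : ℂ)‖ := by
    refine abs_le_of_sq_le_sq' ?_ (norm_nonneg _) |>.2
    rw [h1, show (c + t * I + 1 : ℂ) = (c + 1 : ℝ) + t * I by push_cast; ring, Complex.sq_norm,
      normSq_add_mul_I]
    nlinarith
  rw [norm_div, norm_mul, ← div_eq_mul_inv, div_div]
  refine div_le_div₀ ((norm_nonneg _).trans (h t)) (h t) (by positivity) ?_
  nlinarith [mul_le_mul_of_nonneg_left h2 (norm_nonneg (c + t * I : ℂ)), min_le_left (c ^ 2) 1,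
    mul_le_mul_of_nonneg_right (min_le_right (c ^ 2) 1) (sq_nonneg t)]

end PerronAux

theorem perron_kernel {c y : ℝ} (hc : 0 < c) (hy : 0 < y) :
    (∫ t : ℝ, (y : ℂ) ^ (-(c + t * I : ℂ)) / ((c + t * I) * (c + t * I + 1))) / (2 * π) =
      ((max (1 - y) 0 : ℝ) : ℂ) := by
  have hm : ∀ s : ℂ, 0 < s.re → HasMellin _ s _ := fun s hs => hasMellin_sub
    (hasMellin_one_Ioc hs).1 (hasMellin_cpow_Ioc 1 (s := s) (by rw [one_re]; linarith)).1
  set g := fun t : ℝ => (Ioc (0 : ℝ) 1).indicator (fun _ => (1 : ℂ)) t -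
    (Ioc (0 : ℝ) 1).indicator (fun t : ℝ => (t : ℂ) ^ (1 : ℂ)) t
  have e1 : ∀ t : ℝ, mellin g (c + t * I) = 1 / ((c + t * I) * (c + t * I + 1)) := fun t => by
    have hs : 0 < (c + t * I : ℂ).re := by simpa using hc
    rw [(hm _ hs).2, (hasMellin_one_Ioc hs).2,
      (hasMellin_cpow_Ioc 1 (by rw [one_re]; linarith)).2,
      div_sub_div _ _ (PerronAux.ne hc t).1 (PerronAux.ne hc t).2]
    congr 1
    ring
  have e2 : ∀ t : ℝ, 0 < t → g t = ((max (1 - t) 0 : ℝ) : ℂ) := fun t ht => by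
    rcases le_or_gt t 1 with h | h
    · simp [g, ht, h]
    · simp [g, h.le, h.not_ge]
  have hi : VerticalIntegrable (mellin g) c := by
    simp only [VerticalIntegrable, e1]
    exact PerronAux.integrable hc continuous_const fun _ => le_rfl
  have hcont : ContinuousAt g y := ContinuousAt.congr (f := fun t => ((max (1 - t) 0 : ℝ) : ℂ))
    (by fun_prop) ((lt_mem_nhds hy).mono fun t ht => (e2 t ht).symm)
  rw [← e2 y hy, ← mellinInv_mellin_eq c g hy (hm c hc).1 hi hcont, mellinInv]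
  simp only [e1, smul_eq_mul, mul_one_div, real_smul]
  push_cast
  ring

theorem perron_riesz {f : ℕ → ℂ} {c x : ℝ} (hc : 0 < c) (hx : 0 < x)
    (hf : LSeriesSummable f c) :
    (Integrable fun t : ℝ => LSeries f (c + t * I) * (x : ℂ) ^ (c + t * I + 1 : ℂ) /
      ((c + t * I) * (c + t * I + 1))) ∧
    ∑ n ∈ Finset.Icc 1 ⌊x⌋₊, f n * (x - n) =
      (∫ t : ℝ, LSeries f (c + t * I) * (x : ℂ) ^ (c + t * I + 1 : ℂ) /
        ((c + t * I) * (c + t * I + 1))) / (2 * π) := by
  have hx' : (x : ℂ) ≠ 0 := ofReal_ne_zero.2 hx.ne'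
  have n1 : ∀ (n : ℕ) (t : ℝ), ‖LSeries.term f (c + t * I) n‖ = ‖LSeries.term f c n‖ :=
    fun n t => by simp [LSeries.norm_term_eq]
  have n2 : ∀ t : ℝ, ‖(x : ℂ) ^ (c + t * I + 1 : ℂ)‖ = x ^ (c + 1) := fun t => by
    rw [norm_cpow_eq_rpow_re_of_pos hx]; simp
  have c1 : ∀ n : ℕ, Continuous fun t : ℝ => LSeries.term f (c + t * I) n := fun n => by
    rcases eq_or_ne n 0 with rfl | hn
    · exact continuous_const
    · simp only [LSeries.term_of_ne_zero hn]
      exact continuous_const.div (Continuous.const_cpow (by fun_prop) (Or.inl (by simpa)))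
        fun t => cpow_ne_zero_iff.2 (Or.inl (by simpa))
  have c2 : Continuous fun t : ℝ => (x : ℂ) ^ (c + t * I + 1 : ℂ) :=
    Continuous.const_cpow (by fun_prop) (Or.inl hx')
  have hs : Summable fun n => ‖LSeries.term f c n‖ := summable_norm_iff.2 hf
  refine ⟨PerronAux.integrable hc ((continuous_tsum c1 hs fun n t => (n1 n t).le).mul c2)
    (C := (∑' n, ‖LSeries.term f c n‖) * x ^ (c + 1)) fun t => ?_, ?_⟩
  · rw [norm_mul, n2]
    exact mul_le_mul_of_nonneg_right (tsum_of_norm_bounded hs.hasSum fun n => (n1 n t).le)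
      (by positivity)
  have h1 := hasSum_integral_of_summable_integral_norm (μ := volume)
    (F := fun (n : ℕ) (t : ℝ) => LSeries.term f (c + t * I) n * (x : ℂ) ^ (c + t * I + 1 : ℂ) /
      ((c + t * I) * (c + t * I + 1)))
    (fun n => PerronAux.integrable hc ((c1 n).mul c2) (C := ‖LSeries.term f c n‖ * x ^ (c + 1))
      fun t => by rw [norm_mul, n1, n2])
    (by simp only [mul_div_assoc, norm_mul, n1, integral_const_mul]; exact hs.mul_right _)
  simp only [tsum_div_const, tsum_mul_right] at h1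
  have h2 : ∀ n : ℕ, n ≠ 0 → (∫ t : ℝ, LSeries.term f (c + t * I) n *
      (x : ℂ) ^ (c + t * I + 1 : ℂ) / ((c + t * I) * (c + t * I + 1))) / (2 * π) =
      f n * (max (x - n) 0 : ℝ) := fun n hn => by
    have hy : 0 < n / x := div_pos (Nat.cast_pos.2 (Nat.pos_of_ne_zero hn)) hx
    rw [show max (x - n) 0 = x * max (1 - n / x) 0 by
      rw [mul_max_of_nonneg _ _ hx.le, mul_zero, mul_sub, mul_one, mul_div_cancel₀ _ hx.ne'],
      ofReal_mul, ← perron_kernel hc hy, ← mul_assoc, ← mul_div_assoc, ← integral_const_mul]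
    refine congrArg (· / _) (integral_congr_ae (Eventually.of_forall fun t => ?_))
    have e : (n : ℂ) = ((n / x : ℝ) : ℂ) * x := by push_cast; rw [div_mul_cancel₀ _ hx']
    have h0 : (x : ℂ) ^ (c + t * I : ℂ) ≠ 0 := cpow_ne_zero_iff.2 (Or.inl hx')
    simp only [LSeries.term_of_ne_zero hn]
    rw [e, mul_cpow_ofReal_nonneg hy.le hx.le, cpow_add _ 1 hx', cpow_one, cpow_neg]
    field_simp
  refine HasSum.unique ?_ (h1.div_const _)
  rw [Finset.sum_congr rfl fun n hn => ((h2 n (by have := (Finset.mem_Icc.1 hn).1; omega)).trans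
    (by rw [max_eq_left (sub_nonneg.2 ((Nat.le_floor_iff hx.le).1 (Finset.mem_Icc.1 hn).2)),
      ofReal_sub, ofReal_natCast])).symm]
  refine hasSum_sum_of_ne_finset_zero fun n hn => ?_
  rcases eq_or_ne n 0 with rfl | h0
  · simp
  · have : x < n := Nat.lt_of_floor_lt (by rw [Finset.mem_Icc] at hn; omega)
    rw [h2 n h0, max_eq_right (by linarith), ofReal_zero, mul_zero]

end Pool.Agent.P.MP_7eacff_nt.SZ
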