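import Pool.Agent.P.MP_7eacff_nt.SZ.Defs2
import Pool.Agent.P.MP_7eacff_nt.SZ.HProp

/-!
Properties of the mollified zeta function.
-/

open Complex Filter Topology MeasureTheory Set
open scoped Real ContDiff

namespace Pool.Agent.P.MP_7eacff_nt.SZ

open Pool.Agent.Lib.LargeSieve (primSet mem_primSet)

variable {U F : ℝ → ℝ}

namespace PhPAux

lemma wf_bd {ψ : ℝ → ℝ} (h : Tst ψ) : ∃ C : ℝ, 0 ≤ C ∧ ∀ T : ℝ, 1 ≤ T → ∀ s : ℂ,
    |s.re - 1 / 2| ≤ 1 → ‖wf ψ T s‖ ≤ C := by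
  have hc : Continuous fun v : ℝ => |ψ v| * Real.exp |v| := by
    have := h.continuous
    fun_prop
  have hi : Integrable fun v : ℝ => |ψ v| * Real.exp |v| :=
    hc.integrable_of_hasCompactSupport (h.2.abs.mul_right)
  refine ⟨∫ v, |ψ v| * Real.exp |v|, integral_nonneg fun v => by positivity, fun T hT s hs => ?_⟩
  refine norm_integral_le_of_norm_le hi (ae_of_all _ fun v => ?_)
  rw [norm_mul, norm_real, Real.norm_eq_abs, norm_exp]
  refine mul_le_mul_of_nonneg_left (Real.exp_le_exp.2 ?_) (abs_nonneg _)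
  have e : ((s - 1 / 2) * v / T).re = (s.re - 1 / 2) * v / T := by
    rw [div_ofReal_re, re_mul_ofReal]; simp
  rw [e]
  refine (le_abs_self _).trans ?_
  rw [abs_div, abs_mul, abs_of_pos (show 0 < T by linarith)]
  refine (div_le_self (by positivity) hT).trans ?_
  exact mul_le_of_le_one_left (abs_nonneg _) hs

lemma norm_wf_iter {ψ : ℝ → ℝ} (h : Tst ψ) (T : ℝ) (s : ℂ) (k : ℕ) :
    ‖wf (top^[k] ψ) T s‖ = ‖(s - 1 / 2) / T‖ ^ (2 * k) * ‖wf ψ T s‖ := by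
  induction k with
  | zero => simp
  | succ k ih =>
    rw [Function.iterate_succ_apply', wf_top (h.top_iter k), norm_mul, norm_neg, norm_pow, ih]
    ring

lemma wf_dec {ψ : ℝ → ℝ} (h : Tst ψ) (k : ℕ) : ∃ C : ℝ, 0 ≤ C ∧ ∀ T : ℝ, 1 ≤ T → ∀ s : ℂ,
    |s.re - 1 / 2| ≤ 1 → (1 + |s.im|) ^ (2 * k) * ‖wf ψ T s‖ ≤ C * T ^ (2 * k) := by
  obtain ⟨C₀, hC₀, h0⟩ := wf_bd h
  obtain ⟨C₁, hC₁, h1⟩ := wf_bd (h.top_iter k)
  refine ⟨2 ^ (2 * k - 1) * (C₀ + C₁), by positivity, fun T hT s hs => ?_⟩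
  have hT0 : 0 < T := by linarith
  have a0 := h0 T hT s hs
  have a1 := h1 T hT s hs
  rw [norm_wf_iter h] at a1
  have a2 : |s.im| / T ≤ ‖(s - 1 / 2) / T‖ := by
    rw [norm_div, norm_real, Real.norm_of_nonneg hT0.le]
    refine div_le_div_of_nonneg_right ?_ hT0.le
    simpa using abs_im_le_norm (s - 1 / 2)
  have a3 : (|s.im| / T) ^ (2 * k) * ‖wf ψ T s‖ ≤ C₁ := le_trans (by gcongr) a1
  rw [div_pow, div_mul_eq_mul_div, div_le_iff₀ (by positivity)] at a3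
  have a4 := add_pow_le zero_le_one (abs_nonneg s.im) (2 * k)
  rw [one_pow] at a4
  have a5 : 1 ≤ T ^ (2 * k) := one_le_pow₀ hT
  have a6 : C₀ * 1 ≤ C₀ * T ^ (2 * k) := mul_le_mul_of_nonneg_left a5 hC₀
  calc _ ≤ 2 ^ (2 * k - 1) * (1 + |s.im| ^ (2 * k)) * ‖wf ψ T s‖ := by gcongr
    _ = 2 ^ (2 * k - 1) * (‖wf ψ T s‖ + |s.im| ^ (2 * k) * ‖wf ψ T s‖) := by ring
    _ ≤ 2 ^ (2 * k - 1) * ((C₀ + C₁) * T ^ (2 * k)) :=
        mul_le_mul_of_nonneg_left (by linarith) (by positivity)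
    _ = _ := by ring

lemma dp_bd {F : ℝ → ℝ} {B : ℝ} (hB0 : 0 ≤ B) (hB : ∀ v, |F v| ≤ B) {T : ℝ} (hT : 1 ≤ T) {s : ℂ}
    (hs : -1 ≤ s.re) : ‖dp (bF F T) ⌊T⌋₊ s‖ ≤ B * T ^ 2 := by
  have hfl : (⌊T⌋₊ : ℝ) ≤ T := Nat.floor_le (by linarith)
  unfold dp
  refine (norm_sum_le _ _).trans ((Finset.sum_le_card_nsmul _ _ (B * T) fun n hn => ?_).trans ?_)
  · rw [Finset.mem_Icc] at hn
    have h1 : (1 : ℝ) ≤ n := by exact_mod_cast hn.1
    have h2 : (n : ℝ) ≤ T := le_trans (by exact_mod_cast hn.2) hfl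
    rw [norm_mul, bF_apply, norm_mul, norm_real, Real.norm_eq_abs,
      norm_natCast_cpow_of_pos (by omega)]
    refine mul_le_mul ((mul_le_of_le_one_left (abs_nonneg _) (norm_mu_le n)).trans (hB _)) ?_
      (by positivity) hB0
    refine le_trans ?_ h2
    conv_rhs => rw [← Real.rpow_one n]
    exact Real.rpow_le_rpow_of_exponent_le h1 (by rw [neg_re]; linarith)
  · rw [Nat.card_Icc, nsmul_eq_mul, Nat.add_sub_cancel]
    have := mul_le_mul_of_nonneg_right hfl (show 0 ≤ B * T by positivity)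
    nlinarith

lemma zeta₁_zero {y : ℝ} (h : riemannZeta (1 / 2 + y * I) = 0) :
    riemannZeta₁ (1 / 2 + y * I) = 0 ∧ (1 / 2 + y * I - 1 : ℂ) ≠ 0 := by
  have hne : (1 / 2 + y * I : ℂ) ≠ 1 := fun h => by have := congrArg re h; norm_num at this
  have h2 := sub_ne_zero.2 hne
  rw [riemannZeta_eq_inv_sub_mul hne] at h
  exact ⟨(mul_eq_zero.1 h).resolve_left (inv_ne_zero h2), h2⟩

end PhPAux

theorem differentiable_Ph (hU : Tst U) (F : ℝ → ℝ) (T : ℝ) : Differentiable ℂ (Ph U F T) :=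
  (((differentiable_wf hU T).mul differentiable_riemannZeta₁).mul
    (differentiable_dp _ _)).div_const _

theorem dec_Ph (hU : Tst U) (F : ℝ → ℝ) {T : ℝ} (hT : 0 < T) (A : ℕ) :
    Dec (Ph U F T) (-1) 2 A :=
  (Dec.mul_poly (fun A => dec_wf hU hT (-1) 2 A)
    ((polyG_zeta₁.mul (polyG_dp (bF F T) ⌊T⌋₊ (-1) 2)).div_const T) A).congr
    fun s _ _ => by unfold Ph; ring

theorem msq_Ph_triv (hU : Tst U) (hF : Tst F) : ∃ A : ℕ, ∀ᶠ T : ℝ in atTop,
    msq (Ph U F T) (3 / 2) ≤ T ^ A ∧ msq (Ph U F T) (-(1 / 2)) ≤ T ^ A := by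
  obtain ⟨C, A, hz⟩ := polyG_zeta₁
  obtain ⟨K, hK, hw⟩ := PhPAux.wf_dec hU (A + 1)
  obtain ⟨B, hB0, hB⟩ := hF.bdd
  refine ⟨2 * (2 * (A + 1) + 2) + 1, ?_⟩
  filter_upwards [eventually_ge_atTop 1, eventually_ge_atTop ((K * |C| * B) ^ 2 * π)] with T hT hT2
  have key : ∀ σ : ℂ, σ.im = 0 → |σ.re - 1 / 2| ≤ 1 →
      msq (Ph U F T) σ ≤ T ^ (2 * (2 * (A + 1) + 2) + 1) := by
    intro σ hσ hr
    have hb : ∀ t : ℝ, ‖Ph U F T (σ + t * I)‖ ^ 2 ≤
        (K * |C| * B * T ^ (2 * (A + 1) + 2)) ^ 2 * (1 + t ^ 2)⁻¹ := by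
      intro t
      have e1 : (σ + t * I).re = σ.re := by simp
      have e2 : (σ + t * I).im = t := by simp [hσ]
      have r := abs_le.1 hr
      have a1 := hw T hT (σ + t * I) (by rwa [e1])
      have a2 := hz (σ + t * I) (by rw [e1]; linarith) (by rw [e1]; linarith)
      have a3 := PhPAux.dp_bd hB0 hB hT (s := σ + t * I) (by rw [e1]; linarith)
      rw [e2] at a1 a2
      have a2' : ‖riemannZeta₁ (σ + t * I)‖ ≤ |C| * (1 + |t|) ^ A :=
        a2.trans (mul_le_mul_of_nonneg_right (le_abs_self C) (by positivity))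
      have t1 : 1 ≤ 1 + |t| := by linarith [abs_nonneg t]
      have a4 : (1 + |t|) ^ (A + 1) ≤ (1 + |t|) ^ (2 * (A + 1)) := pow_le_pow_right₀ t1 (by omega)
      have a5 : (1 + |t|) * ‖Ph U F T (σ + t * I)‖ ≤ K * |C| * B * T ^ (2 * (A + 1) + 2) := by
        unfold Ph
        rw [norm_div, norm_mul, norm_mul, norm_real, Real.norm_of_nonneg (by linarith)]
        calc _ ≤ (1 + |t|) * (‖wf U T (σ + t * I)‖ * (|C| * (1 + |t|) ^ A) * (B * T ^ 2)) := by
              refine mul_le_mul_of_nonneg_left ((div_le_self (by positivity) hT).trans ?_)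
                (by positivity)
              gcongr
          _ = (1 + |t|) ^ (A + 1) * ‖wf U T (σ + t * I)‖ * (|C| * B * T ^ 2) := by ring
          _ ≤ K * T ^ (2 * (A + 1)) * (|C| * B * T ^ 2) :=
              mul_le_mul_of_nonneg_right (le_trans (by gcongr) a1) (by positivity)
          _ = _ := by ring
      have a6 := pow_le_pow_left₀ (by positivity) a5 2
      rw [← div_eq_mul_inv, le_div_iff₀ (by positivity)]
      refine le_trans ?_ a6
      rw [mul_pow, mul_comm]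
      refine mul_le_mul_of_nonneg_right ?_ (sq_nonneg _)
      nlinarith [abs_nonneg t, sq_abs t]
    refine (integral_mono_of_nonneg (ae_of_all _ fun t => sq_nonneg _)
      (integrable_inv_one_add_sq.const_mul _) (ae_of_all _ hb)).trans ?_
    rw [integral_const_mul, integral_univ_inv_one_add_sq]
    calc _ = T ^ (2 * (2 * (A + 1) + 2)) * ((K * |C| * B) ^ 2 * π) := by ring
      _ ≤ T ^ (2 * (2 * (A + 1) + 2)) * T := mul_le_mul_of_nonneg_left hT2 (by positivity)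
      _ = _ := by ring
  exact ⟨key _ (by norm_num) (by norm_num), key _ (by norm_num) (by norm_num)⟩

theorem Ph_zero (U F : ℝ → ℝ) (T : ℝ) {y : ℝ} (h : riemannZeta (1 / 2 + y * I) = 0) :
    Ph U F T (1 / 2 + y * I) = 0 := by
  simp only [Ph, (PhPAux.zeta₁_zero h).1, mul_zero, zero_mul, zero_div]

theorem deriv_Ph (hU : Tst U) (F : ℝ → ℝ) (T : ℝ) {y : ℝ} (h : riemannZeta (1 / 2 + y * I) = 0) :
    deriv (Ph U F T) (1 / 2 + y * I) * (1 / 2 + y * I - 1) =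
      wf U T (1 / 2 + y * I) * Z2 (1 / 2 + y * I) * dp (bF F T) ⌊T⌋₊ (1 / 2 + y * I) / T := by
  have h0 := (PhPAux.zeta₁_zero h).1
  have hd := ((((differentiable_wf hU T _).hasDerivAt.mul
    (differentiable_riemannZeta₁ (1 / 2 + y * I)).hasDerivAt).mul
    (differentiable_dp (bF F T) ⌊T⌋₊ _).hasDerivAt).div_const (T : ℂ)).deriv
  have e : deriv (Ph U F T) (1 / 2 + y * I) = _ := hd
  rw [e, Z2, Pi.mul_apply, h0]
  ring

theorem deriv_Ph_zero (hU : Tst U) (F : ℝ → ℝ) (T : ℝ) {y : ℝ} (h : 2 ≤ mult y) :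
    deriv (Ph U F T) (1 / 2 + y * I) = 0 := by
  have hz : riemannZeta (1 / 2 + y * I) = 0 := by
    by_contra hne
    rw [mult, analyticOrderNatAt, analyticOrderAt_eq_zero.2 (Or.inr hne)] at h
    simp at h
  have := deriv_Ph hU F T hz
  rw [Z2_eq_zero h, mul_zero, zero_mul, zero_div] at this
  exact (mul_eq_zero.1 this).resolve_right (PhPAux.zeta₁_zero hz).2

theorem exists_U : ∃ U : ℝ → ℝ, Tst U ∧ Function.Even U ∧ ∀ u, |u| ≤ 2 → 1 ≤ WR U u := by
  let b : ContDiffBump (0 : ℝ) := ⟨1 / 4, 1 / 2, by norm_num, by norm_num⟩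
  have hb : Tst (b.normed volume) := ⟨b.contDiff_normed, b.hasCompactSupport_normed⟩
  refine ⟨fun v => 2 * b.normed volume v, hb.const_mul 2, fun v => by
    simp only [b.normed_neg], fun u hu => ?_⟩
  rw [← b.integral_normed (μ := volume), WR]
  refine integral_mono hb.integrable
    ((hb.const_mul 2).integrable.mul_bdd (c := 1) (by fun_prop)
      (ae_of_all _ fun v => Real.abs_cos_le_one _)) fun v => ?_
  by_cases hv : b.normed volume v = 0
  · simp [hv]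
  · have h1 : v ∈ Function.support (b.normed volume) := hv
    rw [b.support_normed_eq, mem_ball_zero_iff, Real.norm_eq_abs] at h1
    have h2 : |v| ≤ 1 / 2 := h1.le
    have h3 : |u * v| ≤ 1 := by
      rw [abs_mul]
      nlinarith [abs_nonneg u, abs_nonneg v]
    have h4 : (u * v) ^ 2 ≤ 1 := by rwa [sq_le_one_iff_abs_le_one]
    have h5 := Real.one_sub_sq_div_two_le_cos (x := u * v)
    have h6 := b.nonneg_normed (μ := volume) v
    nlinarith

theorem H0_lower_two {φ : ℝ → ℝ} (h : Tst φ) (he : Function.Even φ)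
    (hW : ∀ u ∈ Icc (1 : ℝ) 2, 1 ≤ u ^ 6 * WR φ u) (hU : Tst U) (hUe : Function.Even U)
    (hU1 : ∀ u, |u| ≤ 2 → 1 ≤ WR U u) (F κ : ℝ → ℝ) {T y l : ℝ} (hT : 1 < T) (h1 : T ≤ y)
    (h2 : y ≤ 2 * T) (hz : riemannZeta (1 / 2 + y * I) = 0) (hl : 0 < l) :
    2 * (dp (aA κ T) ⌊T⌋₊ (1 / 2 + y * I)).re - 1 - l -
        ‖deriv (Ph U F T) (1 / 2 + y * I)‖ ^ 2 / (l * Real.log T ^ 2) ≤
      (1 / 4 + y ^ 2) * (H0 φ F κ T (1 / 2 + y * I)).re := by
  have hT0 : 0 < T := by linarith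
  have hL : 0 < Real.log T := Real.log_pos hT
  have hq := (PhPAux.zeta₁_zero hz).2
  have hP := congrArg norm (deriv_Ph hU F T hz)
  have u1 : 1 ≤ y / T := by rwa [le_div_iff₀ hT0, one_mul]
  have u2 : y / T ≤ 2 := by rwa [div_le_iff₀ hT0]
  have w1 := hU1 (y / T) (by rwa [abs_of_nonneg (by linarith)])
  have w2 := hW (y / T) ⟨u1, u2⟩
  rw [H0_crit h he, ofReal_re, Fe]
  rw [wf_crit hU hUe, mul_assoc, norm_mul, norm_div, norm_mul, norm_real, norm_real,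
    Real.norm_of_nonneg hT0.le, Real.norm_of_nonneg (by linarith)] at hP
  set q : ℂ := 1 / 2 + y * I - 1 with hqd
  set A := dp (aA κ T) ⌊T⌋₊ (1 / 2 + y * I)
  set Z := Z2 (1 / 2 + y * I) * dp (bF F T) ⌊T⌋₊ (1 / 2 + y * I)
  set p := ‖deriv (Ph U F T) (1 / 2 + y * I)‖
  have hp : 0 ≤ p := norm_nonneg _
  have hq2 : ‖q‖ ^ 2 = 1 / 4 + y ^ 2 := by
    rw [Complex.sq_norm, normSq_apply, hqd]; simp; ring
  have hq0 : 0 < ‖q‖ := norm_pos_iff.2 hq
  have hqT : T ≤ ‖q‖ := by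
    refine h1.trans ((le_abs_self y).trans ?_)
    simpa [hqd] using abs_im_le_norm q
  set D := Z / (Real.log T : ℝ) / q ^ 2 with hD
  have e1 : q ^ 2 * A - Z / (Real.log T : ℝ) = q ^ 2 * (A - D) := by
    rw [hD]; field_simp
  have hZ : ‖Z‖ ≤ p * ‖q‖ ^ 2 := by
    rw [eq_div_iff hT0.ne'] at hP
    have a1 := mul_le_mul_of_nonneg_right w1 (norm_nonneg Z)
    have a2 := mul_le_mul_of_nonneg_left hqT (show 0 ≤ p * ‖q‖ by positivity)
    nlinarith
  have hDn : ‖D‖ ≤ p / Real.log T := by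
    rw [hD, norm_div, norm_div, norm_pow, norm_real, Real.norm_of_nonneg hL.le,
      div_le_iff₀ (by positivity), div_mul_eq_mul_div]
    exact div_le_div_of_nonneg_right hZ hL.le
  have b1 : 2 * (A - D).re - 1 ≤ ‖A - D‖ ^ 2 := by
    nlinarith [re_le_norm (A - D), sq_nonneg (‖A - D‖ - 1)]
  have b2 : 2 * D.re ≤ l + p ^ 2 / (l * Real.log T ^ 2) := by
    have e : p ^ 2 / (l * Real.log T ^ 2) = (p / Real.log T) ^ 2 / l := by field_simp
    have a1 : 2 * (p / Real.log T) - l ≤ (p / Real.log T) ^ 2 / l := by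
      rw [le_div_iff₀ hl]
      nlinarith [sq_nonneg (p / Real.log T - l)]
    have := re_le_norm D
    linarith
  have b3 : 1 ≤ (1 / 4 + y ^ 2) ^ 3 * WR φ (y / T) / T ^ 6 := by
    have hW0 : 0 ≤ WR φ (y / T) := by
      by_contra hn
      have : (y / T) ^ 6 * WR φ (y / T) ≤ 0 :=
        mul_nonpos_of_nonneg_of_nonpos (by positivity) (not_le.1 hn).le
      linarith
    refine w2.trans ?_
    rw [div_pow, div_mul_eq_mul_div]
    have : y ^ 6 ≤ (1 / 4 + y ^ 2) ^ 3 := by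
      rw [show y ^ 6 = (y ^ 2) ^ 3 by ring]
      exact pow_le_pow_left₀ (sq_nonneg _) (by linarith) 3
    gcongr
  have b4 := mul_le_mul_of_nonneg_right b3 (sq_nonneg ‖A - D‖)
  rw [e1, norm_mul, norm_pow, hq2]
  rw [sub_re] at b1
  refine le_trans ?_ (b4.trans (le_of_eq (by ring)))
  linarith

end Pool.Agent.P.MP_7eacff_nt.SZ
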