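import Pool.Agent.P.MP_7eacff_nt.SZ.Basic

/-!
Algebra of decay and polynomial growth in strips.
-/

open Complex Filter Topology MeasureTheory Set
open scoped Real ContDiff

namespace Pool.Agent.P.MP_7eacff_nt.SZ

open Pool.Agent.Lib.LargeSieve (primSet mem_primSet)

namespace PolyAux

theorem one_le (s : ℂ) : 1 ≤ 1 + |s.im| := le_add_of_nonneg_right (abs_nonneg _)

theorem pos (s : ℂ) : 0 < 1 + |s.im| := lt_of_lt_of_le one_pos (one_le s)

theorem dec_nonneg {H : ℂ → ℂ} {a b : ℝ} {A : ℕ} (h : Dec H a b A) :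
    ∃ C : ℝ, 0 ≤ C ∧ ∀ s : ℂ, a ≤ s.re → s.re ≤ b → ‖H s‖ ≤ C / (1 + |s.im|) ^ A := by
  obtain ⟨C, hC⟩ := h
  exact ⟨|C|, abs_nonneg _, fun s h1 h2 => (hC s h1 h2).trans
    (div_le_div_of_nonneg_right (le_abs_self C) (pow_pos (pos s) A).le)⟩

theorem poly_nonneg {H : ℂ → ℂ} {a b : ℝ} (h : PolyG H a b) :
    ∃ (C : ℝ) (A : ℕ), 0 ≤ C ∧ ∀ s : ℂ, a ≤ s.re → s.re ≤ b → ‖H s‖ ≤ C * (1 + |s.im|) ^ A := by
  obtain ⟨C, A, hC⟩ := h
  exact ⟨|C|, A, abs_nonneg _, fun s h1 h2 => (hC s h1 h2).trans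
    (mul_le_mul_of_nonneg_right (le_abs_self C) (pow_pos (pos s) A).le)⟩

theorem line_re (σ t : ℝ) : ((σ : ℂ) + t * I).re = σ := by simp

theorem line_im (σ t : ℝ) : ((σ : ℂ) + t * I).im = t := by simp

theorem line_re' (t : ℝ) : ((3 / 2 : ℂ) + t * I).re = 3 / 2 := by simp

theorem cast32 : ((3 / 2 : ℝ) : ℂ) = 3 / 2 := by push_cast; rfl

end PolyAux

open PolyAux

theorem Dec.mono {H : ℂ → ℂ} {a b a' b' : ℝ} {A A' : ℕ} (h : Dec H a b A) (ha : a ≤ a')
    (hb : b' ≤ b) (hA : A' ≤ A) : Dec H a' b' A' := by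
  obtain ⟨C, h0, hC⟩ := dec_nonneg h
  exact ⟨C, fun s h1 h2 => (hC s (ha.trans h1) (h2.trans hb)).trans
    (div_le_div_of_nonneg_left h0 (pow_pos (pos s) _) (pow_le_pow_right₀ (one_le s) hA))⟩

theorem Dec.congr {H H' : ℂ → ℂ} {a b : ℝ} {A : ℕ} (h : Dec H a b A)
    (e : ∀ s : ℂ, a ≤ s.re → s.re ≤ b → H' s = H s) : Dec H' a b A := by
  obtain ⟨C, hC⟩ := h
  exact ⟨C, fun s h1 h2 => by rw [e s h1 h2]; exact hC s h1 h2⟩

theorem Dec.add {f g : ℂ → ℂ} {a b : ℝ} {A : ℕ} (hf : Dec f a b A) (hg : Dec g a b A) :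
    Dec (fun s => f s + g s) a b A := by
  obtain ⟨C, hC⟩ := hf
  obtain ⟨D, hD⟩ := hg
  exact ⟨C + D, fun s h1 h2 => by
    rw [add_div]; exact (norm_add_le _ _).trans (add_le_add (hC s h1 h2) (hD s h1 h2))⟩

theorem Dec.mul_poly {f g : ℂ → ℂ} {a b : ℝ} (hf : ∀ A, Dec f a b A) (hg : PolyG g a b) (A : ℕ) :
    Dec (fun s => f s * g s) a b A := by
  obtain ⟨D, B, h0, hD⟩ := poly_nonneg hg
  obtain ⟨C, h1, hC⟩ := dec_nonneg (hf (A + B))
  refine ⟨C * D, fun s a1 a2 => ?_⟩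
  have hp := pos s
  rw [norm_mul]
  refine (mul_le_mul (hC s a1 a2) (hD s a1 a2) (norm_nonneg _) (by positivity)).trans_eq ?_
  rw [pow_add]
  field_simp

theorem PolyG.mono {H : ℂ → ℂ} {a b a' b' : ℝ} (h : PolyG H a b) (ha : a ≤ a') (hb : b' ≤ b) :
    PolyG H a' b' := by
  obtain ⟨C, A, hC⟩ := h
  exact ⟨C, A, fun s h1 h2 => hC s (ha.trans h1) (h2.trans hb)⟩

theorem PolyG.congr {H H' : ℂ → ℂ} {a b : ℝ} (h : PolyG H a b)
    (e : ∀ s : ℂ, a ≤ s.re → s.re ≤ b → H' s = H s) : PolyG H' a b := by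
  obtain ⟨C, A, hC⟩ := h
  exact ⟨C, A, fun s h1 h2 => by rw [e s h1 h2]; exact hC s h1 h2⟩

theorem polyG_const (c : ℂ) (a b : ℝ) : PolyG (fun _ => c) a b :=
  ⟨‖c‖, 0, fun s _ _ => by simp⟩

theorem polyG_id (a b : ℝ) : PolyG (fun s => s) a b := by
  refine ⟨|a| + |b| + 1, 1, fun s h1 h2 => ?_⟩
  have h3 : |s.re| ≤ |a| + |b| := by
    rw [abs_le]
    constructor
    · linarith [neg_abs_le a, abs_nonneg b]
    · linarith [le_abs_self b, abs_nonneg a]
  have h4 := Complex.norm_le_abs_re_add_abs_im s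
  have h5 := abs_nonneg s.im
  have h6 := abs_nonneg a
  have h7 := abs_nonneg b
  rw [pow_one]
  nlinarith

theorem PolyG.add {f g : ℂ → ℂ} {a b : ℝ} (hf : PolyG f a b) (hg : PolyG g a b) :
    PolyG (fun s => f s + g s) a b := by
  obtain ⟨C, A, h0, hC⟩ := poly_nonneg hf
  obtain ⟨D, B, h1, hD⟩ := poly_nonneg hg
  refine ⟨C + D, A + B, fun s a1 a2 => (norm_add_le _ _).trans ?_⟩
  rw [add_mul]
  exact add_le_add
    ((hC s a1 a2).trans (mul_le_mul_of_nonneg_left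
      (pow_le_pow_right₀ (one_le s) (Nat.le_add_right A B)) h0))
    ((hD s a1 a2).trans (mul_le_mul_of_nonneg_left
      (pow_le_pow_right₀ (one_le s) (Nat.le_add_left B A)) h1))

theorem PolyG.sub {f g : ℂ → ℂ} {a b : ℝ} (hf : PolyG f a b) (hg : PolyG g a b) :
    PolyG (fun s => f s - g s) a b := by
  obtain ⟨D, B, hD⟩ := hg
  have : PolyG (fun s => - g s) a b := ⟨D, B, fun s a1 a2 => by rw [norm_neg]; exact hD s a1 a2⟩
  exact (hf.add this).congr fun s _ _ => sub_eq_add_neg _ _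

theorem PolyG.mul {f g : ℂ → ℂ} {a b : ℝ} (hf : PolyG f a b) (hg : PolyG g a b) :
    PolyG (fun s => f s * g s) a b := by
  obtain ⟨C, A, h0, hC⟩ := poly_nonneg hf
  obtain ⟨D, B, h1, hD⟩ := poly_nonneg hg
  refine ⟨C * D, A + B, fun s a1 a2 => ?_⟩
  have hp := pos s
  rw [norm_mul]
  refine (mul_le_mul (hC s a1 a2) (hD s a1 a2) (norm_nonneg _) (by positivity)).trans_eq ?_
  ring

theorem PolyG.pow {f : ℂ → ℂ} {a b : ℝ} (hf : PolyG f a b) (k : ℕ) :
    PolyG (fun s => f s ^ k) a b := by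
  induction k with
  | zero => exact (polyG_const 1 a b).congr fun s _ _ => pow_zero _
  | succ k ih => exact (ih.mul hf).congr fun s _ _ => pow_succ _ _

theorem PolyG.div_const {f : ℂ → ℂ} {a b : ℝ} (hf : PolyG f a b) (c : ℂ) :
    PolyG (fun s => f s / c) a b :=
  (hf.mul (polyG_const c⁻¹ a b)).congr fun _ _ _ => div_eq_mul_inv _ _

theorem PolyG.one_sub {f : ℂ → ℂ} {a b : ℝ} (hf : PolyG f a b) :
    PolyG (fun s => f (1 - s)) (1 - b) (1 - a) := by
  obtain ⟨C, A, hC⟩ := hf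
  refine ⟨C, A, fun s h1 h2 => ?_⟩
  have := hC (1 - s) (by simp; linarith) (by simp; linarith)
  simpa using this

/-- Cauchy estimate. -/
theorem PolyG.der {f : ℂ → ℂ} {a b δ : ℝ} (hδ : 0 < δ) (hf : PolyG f (a - δ) (b + δ))
    (hd : ∀ s : ℂ, a - δ ≤ s.re → s.re ≤ b + δ → DifferentiableAt ℂ f s) :
    PolyG (deriv f) a b := by
  obtain ⟨C, A, h0, hC⟩ := poly_nonneg hf
  set r := min δ 1 with hr
  have r0 : 0 < r := lt_min hδ one_pos
  have r1 : r ≤ δ := min_le_left _ _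
  have r2 : r ≤ 1 := min_le_right _ _
  refine ⟨C * 2 ^ A / r, A, fun s h1 h2 => ?_⟩
  have hin : ∀ z ∈ Metric.closedBall s r, a - δ ≤ z.re ∧ z.re ≤ b + δ ∧ |z.im| ≤ |s.im| + 1 := by
    intro z hz
    rw [Metric.mem_closedBall, dist_eq_norm] at hz
    have e1 := (Complex.abs_re_le_norm (z - s)).trans hz
    have e2 := (Complex.abs_im_le_norm (z - s)).trans hz
    rw [sub_re, abs_le] at e1
    rw [sub_im] at e2
    refine ⟨by linarith [e1.1], by linarith [e1.2], ?_⟩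
    have := abs_sub_abs_le_abs_sub z.im s.im
    linarith
  have hdc : DiffContOnCl ℂ f (Metric.ball s r) := by
    refine DifferentiableOn.diffContOnCl ?_
    rw [closure_ball s r0.ne']
    exact fun z hz => (hd z (hin z hz).1 (hin z hz).2.1).differentiableWithinAt
  have := Complex.norm_deriv_le_of_forall_mem_sphere_norm_le (C := C * 2 ^ A * (1 + |s.im|) ^ A)
    r0 hdc fun z hz => by
      obtain ⟨e1, e2, e3⟩ := hin z (Metric.sphere_subset_closedBall hz)
      refine (hC z e1 e2).trans ?_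
      rw [mul_assoc, ← mul_pow]
      refine mul_le_mul_of_nonneg_left (pow_le_pow_left₀ (pos z).le ?_ A) h0
      linarith [abs_nonneg s.im]
  refine this.trans_eq ?_
  ring

theorem differentiable_dp (c : ℕ → ℂ) (N : ℕ) : Differentiable ℂ (dp c N) := by
  unfold dp
  refine Differentiable.fun_sum fun n hn => ?_
  have h : (n : ℂ) ≠ 0 := Nat.cast_ne_zero.2 (by have := (Finset.mem_Icc.1 hn).1; omega)
  exact (differentiable_const _).mul (differentiable_id.neg.const_cpow (Or.inl h))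

theorem polyG_dp (c : ℕ → ℂ) (N : ℕ) (a b : ℝ) : PolyG (dp c N) a b := by
  refine ⟨∑ n ∈ Finset.Icc 1 N, ‖c n‖ * (n : ℝ) ^ (-a), 0, fun s h1 _ => ?_⟩
  rw [pow_zero, mul_one]
  refine (norm_sum_le _ _).trans (Finset.sum_le_sum fun n hn => ?_)
  have h : 1 ≤ n := (Finset.mem_Icc.1 hn).1
  rw [norm_mul, Complex.norm_natCast_cpow_of_pos h, neg_re]
  exact mul_le_mul_of_nonneg_left
    (Real.rpow_le_rpow_of_exponent_le (Nat.one_le_cast.2 h) (neg_le_neg h1)) (norm_nonneg _)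

theorem dp_conj {c : ℕ → ℂ} (hc : ∀ n, (c n).im = 0) (N : ℕ) (s : ℂ) :
    dp c N ((starRingEnd ℂ) s) = (starRingEnd ℂ) (dp c N s) := by
  unfold dp
  rw [map_sum]
  refine Finset.sum_congr rfl fun n _ => ?_
  have h : ((n : ℂ)).arg ≠ π := by rw [Complex.natCast_arg]; exact Real.pi_pos.ne
  rw [map_mul, Complex.conj_eq_iff_im.2 (hc n), ← map_neg, Complex.cpow_conj _ _ h, map_natCast]

theorem LSeries_eq_dp {c : ℕ → ℂ} {N : ℕ} (hc : ∀ n, N < n → c n = 0) (s : ℂ) :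
    LSeriesSummable c s ∧ LSeries c s = dp c N s := by
  have h : ∀ n ∉ Finset.Icc 1 N, LSeries.term c s n = 0 := by
    intro n hn
    rcases eq_or_ne n 0 with rfl | h0
    · simp
    · rw [LSeries.term_of_ne_zero h0, hc n (by rw [Finset.mem_Icc] at hn; omega), zero_div]
  refine ⟨summable_of_ne_finset_zero h, ?_⟩
  rw [LSeries, tsum_eq_sum h, dp]
  refine Finset.sum_congr rfl fun n hn => ?_
  rw [LSeries.term_of_ne_zero (by have := (Finset.mem_Icc.1 hn).1; omega), cpow_neg,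
    div_eq_mul_inv]

theorem polyG_LSeries {c : ℕ → ℂ} (hc : LSeriesSummable c (3 / 2)) :
    PolyG (LSeries c) (3 / 2) (3 / 2) := by
  refine ⟨∑' n, ‖LSeries.term c (3 / 2) n‖, 0, fun s h1 h2 => ?_⟩
  have e : ∀ n, ‖LSeries.term c s n‖ = ‖LSeries.term c (3 / 2) n‖ := fun n => by
    rw [LSeries.norm_term_eq, LSeries.norm_term_eq, le_antisymm h2 h1]
    norm_num
  rw [pow_zero, mul_one, ← tsum_congr e]
  exact norm_tsum_le_tsum_norm ((summable_congr e).2 hc.norm)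

theorem continuous_LSeries_line {c : ℕ → ℂ} (hc : LSeriesSummable c (3 / 2)) :
    Continuous fun t : ℝ => LSeries c (3 / 2 + t * I) := by
  refine continuous_tsum (u := fun n => ‖LSeries.term c (3 / 2) n‖) (fun n => ?_) hc.norm
    fun n t => le_of_eq ?_
  · rcases eq_or_ne n 0 with rfl | h0
    · simpa using continuous_const
    · simp only [LSeries.term_of_ne_zero h0]
      have h : (n : ℂ) ≠ 0 := Nat.cast_ne_zero.2 h0
      exact continuous_const.div (Continuous.const_cpow (by fun_prop) (Or.inl h))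
        fun t => (cpow_ne_zero_iff.2 (Or.inl h))
  · rw [LSeries.norm_term_eq, LSeries.norm_term_eq, line_re']
    norm_num

theorem Dec.integrable {f : ℂ → ℂ} {a b σ : ℝ} (hd : Dec f a b 2) (h1 : a ≤ σ) (h2 : σ ≤ b)
    (hf : Continuous fun t : ℝ => f (σ + t * I)) : Integrable fun t : ℝ => f (σ + t * I) := by
  obtain ⟨C, h0, hC⟩ := dec_nonneg hd
  refine Integrable.mono' (integrable_inv_one_add_sq.const_mul C) hf.aestronglyMeasurable
    (Eventually.of_forall fun t => ?_)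
  refine (hC _ (by rw [line_re]; exact h1) (by rw [line_re]; exact h2)).trans ?_
  rw [line_im, ← div_eq_mul_inv]
  refine div_le_div_of_nonneg_left h0 (by positivity) ?_
  nlinarith [abs_nonneg t, sq_abs t]

theorem Dec.lint {f : ℂ → ℂ} (hd : Dec f (3 / 2) (3 / 2) 2)
    (hf : Continuous fun t : ℝ => f (3 / 2 + t * I)) : LInt f := by
  have := hd.integrable (σ := 3 / 2) le_rfl le_rfl (by rw [cast32]; exact hf)
  rwa [cast32] at this

theorem LI_congr {f g : ℂ → ℂ} (h : ∀ s : ℂ, s.re = 3 / 2 → f s = g s) : LI f = LI g := by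
  unfold LI
  simp only [fun t : ℝ => h _ (line_re' t)]

theorem LInt.congr {f g : ℂ → ℂ} (hf : LInt f) (h : ∀ s : ℂ, s.re = 3 / 2 → g s = f s) :
    LInt g := by
  unfold LInt at *
  simpa only [fun t : ℝ => h _ (line_re' t)] using hf

theorem LInt.add {f g : ℂ → ℂ} (hf : LInt f) (hg : LInt g) : LInt fun s => f s + g s :=
  Integrable.add hf hg

theorem LInt.const_mul {f : ℂ → ℂ} (hf : LInt f) (c : ℂ) : LInt fun s => c * f s :=
  Integrable.const_mul hf c

theorem LI_add {f g : ℂ → ℂ} (hf : LInt f) (hg : LInt g) :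
    LI (fun s => f s + g s) = LI f + LI g := by
  unfold LI
  rw [integral_add hf hg, add_div]

theorem LI_const_mul (c : ℂ) (f : ℂ → ℂ) : LI (fun s => c * f s) = c * LI f := by
  unfold LI
  rw [integral_const_mul, mul_div_assoc]

theorem LSeries_un {s : ℂ} (hs : 1 < s.re) :
    LSeriesSummable un s ∧ LSeries un s = riemannZeta s := by
  have e : ∀ {n : ℕ}, n ≠ 0 → un n = (1 : ℕ → ℂ) n := fun hn => un_apply hn
  exact ⟨(LSeriesSummable_congr s e).2 (LSeriesSummable_one_iff.2 hs),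
    (LSeries_congr e s).trans (LSeries_one_eq_riemannZeta hs)⟩

theorem LSeries_lg {s : ℂ} (hs : 1 < s.re) :
    LSeriesSummable lg s ∧ LSeries lg s = -deriv riemannZeta s := by
  have e : ∀ {n : ℕ}, n ≠ 0 → lg n = LSeries.logMul (1 : ℕ → ℂ) n := fun {n} _ => by
    rw [lg_apply, LSeries.logMul, Pi.one_apply, mul_one, Complex.natCast_log]
  have ha : LSeries.abscissaOfAbsConv (1 : ℕ → ℂ) < s.re := by
    rw [LSeries.abscissaOfAbsConv_one]; exact_mod_cast hs
  refine ⟨(LSeriesSummable_congr s e).2 (LSeriesSummable_logMul_of_lt_re ha), ?_⟩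
  have h1 : deriv (LSeries (1 : ℕ → ℂ)) s = deriv riemannZeta s := by
    refine Filter.EventuallyEq.deriv_eq ?_
    filter_upwards [(isOpen_lt continuous_const continuous_re).mem_nhds hs] with z hz
    exact LSeries_one_eq_riemannZeta hz
  rw [LSeries_congr e s, ← h1, LSeries_deriv ha, neg_neg]

theorem LSeries_vm {s : ℂ} (hs : 1 < s.re) :
    LSeriesSummable vm s ∧ LSeries vm s = -deriv riemannZeta s / riemannZeta s := by
  have e : ∀ {n : ℕ}, n ≠ 0 → vm n = (fun n => ((ArithmeticFunction.vonMangoldt n : ℝ) : ℂ)) n :=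
    fun {n} _ => vm_apply n
  exact ⟨(LSeriesSummable_congr s e).2 (ArithmeticFunction.LSeriesSummable_vonMangoldt hs),
    (LSeries_congr e s).trans (ArithmeticFunction.LSeries_vonMangoldt_eq_deriv_riemannZeta_div hs)⟩

end Pool.Agent.P.MP_7eacff_nt.SZ
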