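import Pool.Agent.P.MP_7eacff_nt.SZ.CharExp
import Pool.Agent.P.MP_7eacff_nt.SZ.Div

/-!
Reduction of the error term to averages over primitive characters.
-/

open Complex Filter Topology MeasureTheory Set
open scoped Real ContDiff

namespace Pool.Agent.P.MP_7eacff_nt.SZ

open Pool.Agent.Lib.LargeSieve (primSet mem_primSet)

namespace ReduceAux

theorem tsum_dvd (V : ℝ → ℂ) (c : AF) {q : ℕ} (ψ : DirichletCharacter ℂ q) {d : ℕ} (hd : 0 < d)
    (X : ℝ) (a : ℂ) :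
    ∑' m : ℕ, c m * V (m / X) * ψ m * (if d ∣ m then a else 0) =
      a * ψ d * SS V c d (fun m => ψ m) (X / d) := by
  have hinj : Function.Injective fun m : ℕ => d * m := fun a b h => Nat.eq_of_mul_eq_mul_left hd h
  rw [← hinj.tsum_eq (f := fun m : ℕ => c m * V (m / X) * ψ m * (if d ∣ m then a else 0))]
  · rw [SS, ← tsum_mul_left]
    refine tsum_congr fun m => ?_
    have hd' : (d : ℝ) ≠ 0 := by positivity
    have e : ((d * m : ℕ) : ℝ) / X = m / (X / d) := by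
      push_cast
      rw [div_div_eq_mul_div, mul_comm]
    simp only [dvd_mul_right, if_true, e]
    rw [Nat.cast_mul, map_mul ψ]
    ring
  · intro m hm
    by_contra h
    apply hm
    have : ¬ d ∣ m := fun ⟨k, hk⟩ => h ⟨k, hk.symm⟩
    simp [this]

theorem ram_le (V : ℝ → ℂ) {c : AF} {N : ℕ} (hN : ∀ m, N < m → c m = 0) {q : ℕ}
    (ψ : DirichletCharacter ℂ q) (r : ℕ) (X : ℝ) :
    ‖∑' m : ℕ, c m * V (m / X) * ψ m * ram r m‖ ≤
      ∑ d ∈ r.divisors, (d : ℝ) * ‖SS V c d (fun m => ψ m) (X / d)‖ := by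
  simp only [ram, Finset.mul_sum]
  rw [Summable.tsum_finsetSum]
  · refine (norm_sum_le _ _).trans (Finset.sum_le_sum fun d hd => ?_)
    rw [tsum_dvd V c ψ (Nat.pos_of_mem_divisors hd), norm_mul, norm_mul, norm_mul,
      Complex.norm_natCast]
    have h1 := norm_mu_le (r / d)
    have h2 := ψ.norm_le_one d
    gcongr
    calc ‖mu (r / d)‖ * d * ‖ψ d‖ ≤ 1 * d * 1 := by gcongr
      _ = d := by ring
  · intro d _
    refine summable_of_ne_finset_zero (s := Finset.range (N + 1)) fun m hm => ?_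
    rw [hN m (by simpa using hm)]
    simp

/-- The weight attached to the pair `(r, q)`. -/
noncomputable def Gw (V : ℝ → ℂ) (c : AF) (T : ℝ) (r q : ℕ) : ℝ :=
  ∑ d ∈ r.divisors, (d : ℝ) / (r : ℝ) ^ 2 * ((q : ℝ) ^ (-(3 / 2) : ℝ) *
    ∑ ψ ∈ primSet q, ‖SS V c d (fun m => ψ m) (q * (r / d * T))‖)

theorem Gw_nonneg (V : ℝ → ℂ) (c : AF) (T : ℝ) (r q : ℕ) : 0 ≤ Gw V c T r q :=
  Finset.sum_nonneg fun _ _ => by positivity

theorem term_le (V : ℝ → ℂ) {c : AF} {T : ℝ} {N : ℕ} (hN : ∀ m, N < m → c m = 0)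
    (hT : 1 ≤ Real.log T) {k : ℕ} (hk : Squarefree k) (hkT : (k : ℝ) ≤ T) :
    ‖∑' m : ℕ, c m * ((Real.cos (2 * π * (m / k)) : ℝ) - ram k m / k.totient) *
      V (m / (k * T))‖ / k ≤
      9 * Real.log T ^ 2 * ∑ q ∈ k.divisors.filter (fun q => 1 < q), Gw V c T (k / q) q := by
  have hk0 : k ≠ 0 := hk.ne_zero
  have hkp : (0 : ℝ) < k := by positivity
  have hφ : (0 : ℝ) < k.totient := by
    exact_mod_cast Nat.totient_pos.2 (Nat.pos_of_ne_zero hk0)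
  have h1 := char_expand hk (h := fun m => c m * V (m / (k * T))) (N := N)
    fun m hm => by simp [hN m hm]
  have e : ∀ m : ℕ, c m * ((Real.cos (2 * π * (m / k)) : ℝ) - ram k m / k.totient) *
      V (m / (k * T)) = c m * V (m / (k * T)) *
        ((Real.cos (2 * π * (m / k)) : ℝ) - ram k m / k.totient) := fun m => by ring
  simp only [e]
  have hlog : (k : ℝ) ≤ k.totient * (9 * Real.log T ^ 2) := by
    refine (le_totient_mul_log hk0).trans ?_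
    gcongr
    have := Real.log_le_log hkp hkT
    nlinarith
  refine (div_le_div_of_nonneg_right h1 hkp.le).trans ?_
  rw [Finset.sum_div, Finset.sum_div, Finset.mul_sum]
  refine Finset.sum_le_sum fun q hq => ?_
  obtain ⟨hq1, hq2⟩ := Finset.mem_filter.1 hq
  obtain ⟨r, rfl⟩ := Nat.dvd_of_mem_divisors hq1
  have hq0 : 0 < q := by omega
  have hqp : (0 : ℝ) < q := by positivity
  have hr0 : r ≠ 0 := right_ne_zero_of_mul hk0
  have hrp : (0 : ℝ) < r := by positivity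
  rw [Nat.mul_div_cancel_left _ hq0]
  have hs : √(q : ℝ) = q ^ 2 * (q : ℝ) ^ (-(3 / 2) : ℝ) := by
    rw [Real.sqrt_eq_rpow, ← Real.rpow_natCast, ← Real.rpow_add hqp]
    norm_num
  have hG : Gw V c T r q = (q : ℝ) ^ (-(3 / 2) : ℝ) / r ^ 2 * ∑ ψ ∈ primSet q,
      ∑ d ∈ r.divisors, (d : ℝ) * ‖SS V c d (fun m => ψ m) ((q * r : ℕ) * T / d)‖ := by
    rw [Gw, Finset.sum_comm, Finset.mul_sum]
    refine Finset.sum_congr rfl fun d _ => ?_
    have : ((q * r : ℕ) : ℝ) * T / d = q * (r / d * T) := by push_cast; ring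
    rw [this, ← Finset.mul_sum]
    ring
  rw [hG, hs]
  have hS := Finset.sum_le_sum fun ψ (_ : ψ ∈ primSet q) => ram_le V hN ψ r ((q * r : ℕ) * T)
  set S := ∑ ψ ∈ primSet q,
      ∑ d ∈ r.divisors, (d : ℝ) * ‖SS V c d (fun m => ψ m) ((q * r : ℕ) * T / d)‖
  have hS0 : 0 ≤ S := le_trans (Finset.sum_nonneg fun _ _ => norm_nonneg _) hS
  set w := (q : ℝ) ^ (-(3 / 2) : ℝ)
  have hw : 0 ≤ w := by positivity
  have hinv : 1 / ((q * r).totient : ℝ) ≤ 9 * Real.log T ^ 2 / (q * r : ℕ) := by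
    rw [div_le_div_iff₀ hφ hkp]
    linarith
  calc _ ≤ q ^ 2 * w * S / (q * r).totient / (q * r : ℕ) := by gcongr
    _ = q ^ 2 * w * S / (q * r : ℕ) * (1 / ((q * r).totient : ℝ)) := by ring
    _ ≤ q ^ 2 * w * S / (q * r : ℕ) * (9 * Real.log T ^ 2 / (q * r : ℕ)) := by gcongr
    _ = _ := by push_cast; field_simp

theorem reindex {g : ℕ → ℕ → ℝ} (hg : ∀ r q, 0 ≤ g r q) (K : Finset ℕ) {y : ℝ}
    (hK : ∀ k ∈ K, Squarefree k ∧ (k : ℝ) ≤ y) :
    ∑ k ∈ K, ∑ q ∈ k.divisors.filter (fun q => 1 < q), g (k / q) q ≤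
      ∑ r ∈ (Finset.Icc 1 ⌊y / 2⌋₊).filter Squarefree,
        ∑ q ∈ (Finset.Icc 1 ⌊y / r⌋₊).filter fun q : ℕ => (1 : ℝ) < (q : ℝ), g r q := by
  rw [Finset.sum_sigma', Finset.sum_sigma']
  have hinj : Set.InjOn (fun x : (_ : ℕ) × ℕ => (⟨x.1 / x.2, x.2⟩ : (_ : ℕ) × ℕ))
      (K.sigma fun k => k.divisors.filter (fun q => 1 < q)) := by
    rintro ⟨k, q⟩ hx ⟨k', q'⟩ hx' h
    simp only [Finset.coe_sigma, Set.mem_sigma_iff, Finset.mem_coe, Finset.mem_filter,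
      Nat.mem_divisors] at hx hx'
    simp only [Sigma.mk.injEq, heq_eq_eq] at h ⊢
    obtain ⟨h1, rfl⟩ := h
    refine ⟨?_, rfl⟩
    rw [← Nat.div_mul_cancel hx.2.1.1, h1, Nat.div_mul_cancel hx'.2.1.1]
  rw [← Finset.sum_image (f := fun x : (_ : ℕ) × ℕ => g x.1 x.2) hinj]
  refine Finset.sum_le_sum_of_subset_of_nonneg ?_ fun _ _ _ => hg _ _
  intro x hx
  obtain ⟨⟨k, q⟩, hx', rfl⟩ := Finset.mem_image.1 hx
  simp only [Finset.mem_sigma, Finset.mem_filter, Nat.mem_divisors] at hx'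
  obtain ⟨hk, ⟨⟨r, rfl⟩, h0⟩, hq⟩ := hx'
  obtain ⟨hs, hy⟩ := hK _ hk
  have hq0 : 0 < q := by omega
  have hr0 : 0 < r := Nat.pos_of_ne_zero (right_ne_zero_of_mul h0)
  have hq2 : (2 : ℝ) ≤ q := by exact_mod_cast hq
  have hrp : (0 : ℝ) < r := by positivity
  push_cast at hy
  simp only [Finset.mem_sigma, Finset.mem_filter, Finset.mem_Icc, Nat.mul_div_cancel_left _ hq0]
  refine ⟨⟨⟨hr0, Nat.le_floor ?_⟩, hs.of_mul_right⟩, ⟨hq0, Nat.le_floor ?_⟩, by linarith⟩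
  · rw [le_div_iff₀ two_pos]; nlinarith
  · rwa [le_div_iff₀ hrp]

end ReduceAux

open ReduceAux in
theorem ER_le (V : ℝ → ℂ) {b : ℕ → ℂ} {c : AF} {B T y : ℝ} {N : ℕ} (hN : ∀ m, N < m → c m = 0)
    (hT : 1 ≤ Real.log T) (hT0 : 0 < T) (hy : y ≤ T)
    (hb : ∀ k, ‖b k‖ ≤ B ∧ (b k ≠ 0 → Squarefree k ∧ (k : ℝ) ≤ y)) :
    ‖ER V b c T‖ ≤ 9 * B * Real.log T ^ 2 *
      ∑ r ∈ (Finset.Icc 1 ⌊y / 2⌋₊).filter Squarefree, ∑ d ∈ r.divisors,
        (d : ℝ) / (r : ℝ) ^ 2 * NB V c 1 (y / r) d (r / d * T) := by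
  classical
  have _ := hT0
  have hB : 0 ≤ B := (norm_nonneg _).trans (hb 0).1
  have h1 := reindex (Gw_nonneg V c T) ((Finset.Icc 1 ⌊T⌋₊).filter fun k => b k ≠ 0)
    fun k hk => (hb k).2 (Finset.mem_filter.1 hk).2
  have h2 : ∀ r : ℕ, ∑ d ∈ r.divisors, (d : ℝ) / (r : ℝ) ^ 2 * NB V c 1 (y / r) d (r / d * T) =
      ∑ q ∈ (Finset.Icc 1 ⌊y / r⌋₊).filter fun q : ℕ => (1 : ℝ) < (q : ℝ), Gw V c T r q := by
    intro r
    simp only [Gw, NB]
    rw [Finset.sum_comm]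
    exact Finset.sum_congr rfl fun d _ => Finset.mul_sum _ _ _
  simp only [h2]
  refine le_trans ?_ (mul_le_mul_of_nonneg_left h1 (by positivity))
  rw [ER, ← Finset.sum_filter_of_ne (p := fun k => b k ≠ 0) fun k _ h hk => h (by simp [hk]),
    Finset.mul_sum]
  refine (norm_sum_le _ _).trans (Finset.sum_le_sum fun k hk => ?_)
  obtain ⟨hs, hky⟩ := (hb k).2 (Finset.mem_filter.1 hk).2
  have h3 := term_le V hN hT hs (hky.trans hy)
  rw [norm_mul, norm_div, Complex.norm_natCast, div_mul_eq_mul_div, mul_div_assoc]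
  calc _ ≤ B * (9 * Real.log T ^ 2 *
        ∑ q ∈ k.divisors.filter (fun q => 1 < q), Gw V c T (k / q) q) :=
        mul_le_mul (hb k).1 h3 (by positivity) hB
    _ = _ := by ring

theorem NB_split (V : ℝ → ℂ) (f : ℕ → ℂ) {Q₀ Q Q₁ : ℝ} (h : Q₀ ≤ Q) (d : ℕ) (Y : ℝ) :
    NB V f Q₀ Q₁ d Y ≤ NB V f Q₀ Q d Y + NB V f Q Q₁ d Y := by
  have _ := h
  simp only [NB]
  rw [← Finset.sum_union]
  · refine Finset.sum_le_sum_of_subset_of_nonneg ?_ fun _ _ _ => by positivity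
    intro q hq
    simp only [Finset.mem_union, Finset.mem_filter, Finset.mem_Icc] at hq ⊢
    rcases le_or_gt (q : ℝ) Q with h1 | h1
    · exact Or.inl ⟨⟨hq.1.1, Nat.le_floor h1⟩, hq.2⟩
    · exact Or.inr ⟨hq.1, h1⟩
  · rw [Finset.disjoint_left]
    intro q h1 h2
    simp only [Finset.mem_filter, Finset.mem_Icc] at h1 h2
    have h0 : 0 ≤ Q := by
      by_contra hQ
      have := Nat.floor_eq_zero.2 (show Q < 1 by linarith)
      omega
    have := (Nat.le_floor_iff h0).1 h1.1.2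
    linarith [h2.2]

end Pool.Agent.P.MP_7eacff_nt.SZ
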