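import Pool.Agent.P.MP_7eacff_nt.SZ.Lev1

/-!
Averaging over the shifts.
-/

open Complex Filter Topology MeasureTheory Set
open scoped Real ContDiff

namespace Pool.Agent.P.MP_7eacff_nt.SZ

open Pool.Agent.Lib.LargeSieve (primSet mem_primSet)

namespace RepAux

theorem hasSum_avg {Ω : Type*} [MeasurableSpace Ω] {ν : Measure Ω} {ρ : Ω → ℂ}
    (hρ : Integrable ρ ν) {a : Ω → ℕ × ℕ → ℂ} (ha : ∀ x, Measurable fun w => a w x)
    {g : ℕ × ℕ → ℝ} (hg : Summable g) (hle : ∀ w x, ‖a w x‖ ≤ g x) :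
    HasSum (fun x => ∫ w, ρ w * a w x ∂ν) (∫ w, ρ w * ∑' x, a w x ∂ν) := by
  have h1 : ∀ x w, ‖ρ w * a w x‖ ≤ g x * ‖ρ w‖ := fun x w => by
    rw [norm_mul, mul_comm]
    exact mul_le_mul_of_nonneg_right (hle w x) (norm_nonneg _)
  have h2 : ∀ x, Integrable (fun w => ρ w * a w x) ν := fun x =>
    (hρ.norm.const_mul (g x)).mono' (hρ.1.mul (ha x).aestronglyMeasurable)
      (Eventually.of_forall (h1 x))
  have h3 := hasSum_integral_of_summable_integral_norm h2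
    (Summable.of_nonneg_of_le (fun x => integral_nonneg fun w => norm_nonneg _) (fun x => by
      rw [← integral_const_mul]
      exact integral_mono (h2 x).norm (hρ.norm.const_mul (g x)) (h1 x))
      (hg.mul_right (∫ w, ‖ρ w‖ ∂ν)))
  simpa only [tsum_mul_left] using h3

theorem MT_eq {V : ℝ → ℂ} {b c : ℕ → ℂ} {T : ℝ} (hb : ∀ k : ℕ, T < k → b k = 0) {S : ℂ}
    (h : HasSum (fun x : ℕ × ℕ =>
      b x.1 / x.1 * (c x.2 * (ram x.1 x.2 / x.1.totient) * V (x.2 / (x.1 * T)))) S) :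
    MT V b c T = S := by
  rw [← h.tsum_eq, h.summable.tsum_prod, MT, tsum_eq_sum (s := Finset.Icc 1 ⌊T⌋₊)]
  · simp only [tsum_mul_left]
  · intro k hk
    rw [Finset.mem_Icc, not_and_or, not_le, not_le, Nat.lt_one_iff] at hk
    rcases hk with rfl | hk
    · simp
    · simp [hb k (Nat.lt_of_floor_lt hk)]

end RepAux

theorem lim_of_rep {Ω : Type*} [MeasurableSpace Ω] (ν : Measure Ω) {ρ z u₁ u₂ u₃ v₁ v₂ : Ω → ℂ}
    (hρ : Measurable ρ) (hz : Measurable z) (h₁ : Measurable u₁) (h₂ : Measurable u₂)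
    (h₃ : Measurable u₃) (k₁ : Measurable v₁) (k₂ : Measurable v₂)
    (hR : ∀ w, Reg (z w) (u₁ w) (u₂ w) (u₃ w) (v₁ w) (v₂ w))
    (hm : ∀ A : ℕ, Integrable
      (fun w => ‖ρ w‖ * siz (z w) (u₁ w) (u₂ w) (u₃ w) (v₁ w) (v₂ w) ^ A) ν)
    {V : ℝ → ℂ} {M : ℂ → ℂ} (hV : Vcl V M) {b c : ℝ → AF}
    (hb : ∀ T : ℝ, 1 < T → ∀ k : ℕ, T < k → b T k = 0)
    (hg : ∀ T : ℝ, 1 < T → ∀ k m : ℕ, b T k * c T m = mu k *
      ∫ w, ρ w * cof (Real.log T) (z w) (u₁ w) (u₂ w) (u₃ w) (v₁ w) (v₂ w) (k, m) ∂ν) :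
    Tendsto (fun T : ℝ => MT V (b T) (c T) T / T) atTop
      (𝓝 (M 1 * ∫ w, ρ w * IL (sym (z w) (u₁ w) (u₂ w) (u₃ w) (v₁ w) (v₂ w)) ∂ν)) := by
  obtain ⟨C, A, hC⟩ := Eel_bound hV
  have hρi : Integrable ρ ν := (hm 0).mono' hρ.aestronglyMeasurable
    (Eventually.of_forall fun w => by rw [pow_zero, mul_one])
  have hc := fun (T : ℝ) (x : ℕ × ℕ) =>
    (measurable_cof hz h₁ h₂ h₃ k₁ k₂ (Real.log T) x).mul_const (ker V T x)
  have e1 : ∀ᶠ T : ℝ in atTop, ∫ w, ρ w * Eel V T (z w) (u₁ w) (u₂ w) (u₃ w) (v₁ w) (v₂ w) ∂ν =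
      MT V (b T) (c T) T / T := by
    filter_upwards [eventually_gt_atTop 1, Real.tendsto_log_atTop.eventually_ge_atTop 1]
      with T hT hL
    obtain ⟨g, g1, g2⟩ := exists_major hV hT hL
    have a1 := RepAux.hasSum_avg hρi (hc T) g1 fun w x => g2 _ _ _ _ _ _ (hR w) x
    have a2 : ∀ x : ℕ × ℕ, ∫ w, ρ w * (cof (Real.log T) (z w) (u₁ w) (u₂ w) (u₃ w) (v₁ w)
        (v₂ w) x * ker V T x) ∂ν = b T x.1 / x.1 *
        (c T x.2 * (ram x.1 x.2 / x.1.totient) * V (x.2 / (x.1 * T))) := fun x => by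
      simp only [← mul_assoc]
      rw [integral_mul_const, ker]
      linear_combination (-(ram x.1 x.2 / x.1.totient) * V (x.2 / (x.1 * T)) / x.1) *
        hg T hT x.1 x.2
    simp only [a2] at a1
    rw [RepAux.MT_eq (hb T hT) a1, ← integral_div]
    simp only [Eel, mul_div_assoc]
  have e2 : M 1 * ∫ w, ρ w * IL (sym (z w) (u₁ w) (u₂ w) (u₃ w) (v₁ w) (v₂ w)) ∂ν =
      ∫ w, ρ w * (M 1 * IL (sym (z w) (u₁ w) (u₂ w) (u₃ w) (v₁ w) (v₂ w))) ∂ν := by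
    rw [← integral_const_mul]
    simp only [mul_left_comm]
  rw [e2]
  refine Tendsto.congr' e1 (tendsto_integral_filter_of_dominated_convergence _
    (Eventually.of_forall fun T => ?_) ?_ ((hm A).const_mul C) (Eventually.of_forall fun w => ?_))
  · exact (hρ.mul ((Measurable.tsum (hc T)).div_const _)).aestronglyMeasurable
  · filter_upwards [hC] with T hT
    refine Eventually.of_forall fun w => ?_
    rw [norm_mul, mul_left_comm]
    exact mul_le_mul_of_nonneg_left (hT _ _ _ _ _ _ (hR w)) (norm_nonneg _)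
  · exact (Eel_tendsto hV (hR w)).const_mul _

end Pool.Agent.P.MP_7eacff_nt.SZ
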