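import Pool.Agent.P.MP_7eacff_nt.SZ.Lower
import Pool.Agent.P.MP_7eacff_nt.SZ.Perron

/-!
The Riesz mean of the twisted von Mangoldt function.
-/

open Complex Filter Topology MeasureTheory Set
open scoped Real ContDiff

namespace Pool.Agent.P.MP_7eacff_nt.SZ

open Pool.Agent.Lib.LargeSieve (primSet mem_primSet)

namespace RieszAux

theorem norm_le {F : ℂ → ℂ} {x M D b : ℝ} (hx : 1 ≤ x) {s : ℂ} (hM : ‖F s‖ ≤ M) (hD : 0 < D)
    (h1 : D ≤ ‖s‖) (h2 : D ≤ ‖s + 1‖) (hb : s.re ≤ b) :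
    ‖F s * (x : ℂ) ^ (s + 1) / (s * (s + 1))‖ ≤ M * x ^ (b + 1) / D ^ 2 := by
  have x0 : 0 < x := one_pos.trans_le hx
  have M0 : 0 ≤ M := (norm_nonneg _).trans hM
  rw [norm_div, norm_mul, norm_mul, norm_cpow_eq_rpow_re_of_pos x0, sq]
  have : x ^ (s + 1).re ≤ x ^ (b + 1) := Real.rpow_le_rpow_of_exponent_le hx (by simpa using hb)
  gcongr

theorem tail {g : ℝ → ℂ} (hg : Integrable g) {B H : ℝ} (hB : 0 ≤ B) (hH : 0 < H)
    (h : ∀ t, H ≤ |t| → ‖g t‖ ≤ B / |t| ^ 2) :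
    ‖(∫ t, g t) - ∫ t in (-H)..H, g t‖ ≤ 2 * π * B / H := by
  have i1 : Integrable fun t : ℝ => 2 * B / H ^ 2 * (1 + (t / H) ^ 2)⁻¹ :=
    (integrable_inv_one_add_sq.comp_div hH.ne').const_mul _
  have i2 : ∫ t : ℝ, 2 * B / H ^ 2 * (1 + (t / H) ^ 2)⁻¹ = 2 * π * B / H := by
    rw [integral_const_mul, Measure.integral_comp_div fun t : ℝ => (1 + t ^ 2)⁻¹,
      integral_univ_inv_one_add_sq, abs_of_pos hH, smul_eq_mul]
    field_simp
  rw [intervalIntegral.integral_of_le (by linarith),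
    ← setIntegral_compl₀ measurableSet_Ioc.nullMeasurableSet hg, ← i2]
  refine (norm_integral_le_of_norm_le i1.integrableOn ?_).trans
    (setIntegral_le_integral i1 (ae_of_all _ fun t => by positivity))
  refine (ae_restrict_mem measurableSet_Ioc.compl).mono fun t ht => ?_
  have h1 : H ≤ |t| := by
    by_contra h2
    exact ht ⟨(abs_lt.1 (not_le.1 h2)).1, (abs_lt.1 (not_le.1 h2)).2.le⟩
  have h2 : H ^ 2 ≤ t ^ 2 := by rw [← sq_abs t]; gcongr
  have h3 : 0 < t ^ 2 := (pow_pos hH 2).trans_le h2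
  refine (h t h1).trans ?_
  have e : 2 * B / H ^ 2 * (1 + (t / H) ^ 2)⁻¹ = 2 * B / (H ^ 2 + t ^ 2) := by field_simp
  rw [e, sq_abs, div_le_div_iff₀ h3 (by positivity)]
  nlinarith

theorem contour {F : ℂ → ℂ} {x a c H M K : ℝ} (hx : 1 ≤ x) (ha : 1 / 2 ≤ a) (hac : a ≤ c)
    (hc : c ≤ 2) (hH : 0 < H) (hM : 0 ≤ M) (hK : 0 ≤ K)
    (hF : ∀ s : ℂ, a ≤ s.re → s.re ≤ c → |s.im| ≤ H → DifferentiableAt ℂ F s ∧ ‖F s‖ ≤ M)
    (hK' : ∀ t : ℝ, ‖F (c + t * I)‖ ≤ K)
    (hi : Integrable fun t : ℝ => F (c + t * I) * (x : ℂ) ^ (c + t * I + 1 : ℂ) /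
      ((c + t * I) * (c + t * I + 1))) :
    ‖∫ t : ℝ, F (c + t * I) * (x : ℂ) ^ (c + t * I + 1 : ℂ) / ((c + t * I) * (c + t * I + 1))‖ ≤
      8 * H * M * x ^ (a + 1) + 4 * M * x ^ (c + 1) / H ^ 2 + 2 * π * (K * x ^ (c + 1)) / H := by
  have x0 : 0 < x := one_pos.trans_le hx
  obtain ⟨g, hg⟩ : ∃ g : ℂ → ℂ, g = fun s => F s * (x : ℂ) ^ (s + 1) / (s * (s + 1)) := ⟨_, rfl⟩
  have im1 : ∀ s : ℂ, |s.im| ≤ ‖s + 1‖ := fun s => by simpa using abs_im_le_norm (s + 1)
  have t1 := tail hi (B := K * x ^ (c + 1)) (by positivity) hH fun t ht => by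
    refine norm_le hx (hK' t) (hH.trans_le ht) ?_ ?_ (by simp)
    · simpa using abs_im_le_norm (c + t * I)
    · simpa using im1 (c + t * I)
  have r := integral_boundary_rect_eq_zero_of_differentiableOn g ⟨a, -H⟩ ⟨c, H⟩ (by
    intro s hs
    rw [mem_reProdIm, uIcc_of_le hac, uIcc_of_le (by linarith : -H ≤ H)] at hs
    have s0 : s ≠ 0 := fun h => by
      have := hs.1.1
      rw [h, zero_re] at this
      linarith
    have s1 : s + 1 ≠ 0 := fun h => by
      have h1 := hs.1.1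
      have h2 := congrArg re h
      simp only [add_re, one_re, zero_re] at h2
      linarith
    rw [hg]
    exact (((hF s hs.1.1 hs.1.2 (abs_le.2 hs.2)).1.mul ((differentiableAt_id.add_const 1).const_cpow
      (.inl (ofReal_ne_zero.2 x0.ne')))).div (d := fun s => s * (s + 1)) (by fun_prop)
        (mul_ne_zero s0 s1)).differentiableWithinAt)
  have hor : ∀ y : ℝ, |y| = H → ‖∫ σ : ℝ in a..c, g (σ + y * I)‖ ≤
      2 * M * x ^ (c + 1) / H ^ 2 := fun y hy => by
    refine (intervalIntegral.norm_integral_le_of_norm_le_const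
      (C := M * x ^ (c + 1) / H ^ 2) fun σ hσ => ?_).trans ?_
    · rw [uIoc_of_le hac] at hσ
      rw [hg]
      refine norm_le hx (hF _ (by simpa using hσ.1.le) (by simpa using hσ.2) (by simp [hy])).2 hH
        ?_ ?_ (by simpa using hσ.2)
      · simpa [hy] using abs_im_le_norm (σ + y * I)
      · simpa [hy] using im1 (σ + y * I)
    · rw [abs_of_nonneg (sub_nonneg.2 hac), mul_assoc, mul_div_assoc 2, mul_comm]
      exact mul_le_mul_of_nonneg_right (by linarith) (by positivity)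
  have ver : ‖∫ t : ℝ in (-H)..H, g (a + t * I)‖ ≤ 8 * H * M * x ^ (a + 1) := by
    refine (intervalIntegral.norm_integral_le_of_norm_le_const
      (C := M * x ^ (a + 1) / (1 / 2) ^ 2) fun t ht => ?_).trans (le_of_eq ?_)
    · rw [uIoc_of_le (by linarith)] at ht
      rw [hg]
      refine norm_le hx (hF _ (by simp) (by simpa using hac)
        (by simpa using abs_le.2 ⟨ht.1.le, ht.2⟩)).2 one_half_pos ?_ ?_ (by simp)
      · exact ha.trans (by simpa using re_le_norm (a + t * I))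
      · exact (by simp only [add_re, ofReal_re, one_re, mul_re, I_re, I_im, ofReal_im]; linarith :
          1 / 2 ≤ (a + t * I + 1 : ℂ).re).trans (re_le_norm _)
    · rw [abs_of_nonneg (by linarith)]
      ring
  have h1 := hor (-H) (by rw [abs_neg, abs_of_pos hH])
  have h2 := hor H (abs_of_pos hH)
  have mid : ‖∫ t : ℝ in (-H)..H, g (c + t * I)‖ ≤
      8 * H * M * x ^ (a + 1) + 4 * M * x ^ (c + 1) / H ^ 2 := by
    have e : I • ∫ t : ℝ in (-H)..H, g (c + t * I) = I • (∫ t : ℝ in (-H)..H, g (a + t * I)) +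
        ((∫ σ : ℝ in a..c, g (σ + H * I)) - ∫ σ : ℝ in a..c, g (σ + (-H : ℝ) * I)) := by
      linear_combination r
    have e2 := congrArg norm e
    rw [norm_smul, norm_I, one_mul] at e2
    rw [e2]
    refine (norm_add_le _ _).trans (add_le_add (by rwa [norm_smul, norm_I, one_mul])
      ((norm_sub_le _ _).trans ((add_le_add h2 h1).trans (le_of_eq (by ring)))))
  rw [hg] at mid
  exact (norm_le_insert' _ _).trans (add_le_add mid t1)

theorem series_le {f : ℕ → ℂ} (hf : ∀ n, ‖f n‖ ≤ Real.log n) {L : ℝ} (hL : 1 ≤ L) {s : ℂ}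
    (hs : s.re = 1 + 1 / L) : ‖LSeries f s‖ ≤ 6 * L ^ 2 := by
  have L0 : 0 < L := one_pos.trans_le hL
  have d0 : 0 < 1 / (2 * L) := by positivity
  have d1 : 1 < 1 + 1 / (2 * L) := by linarith
  have sm : Summable fun n : ℕ => 1 / (n : ℝ) ^ (1 + 1 / (2 * L)) :=
    Real.summable_one_div_nat_rpow.2 d1
  have z : ∑' n : ℕ, 1 / (n : ℝ) ^ (1 + 1 / (2 * L)) ≤ 3 * L := by
    have h1 := ZetaAsymptotics.zeta_limit_aux1 d1
    have h2 : 0 ≤ (1 + 1 / (2 * L)) * ZetaAsymptotics.termTSum (1 + 1 / (2 * L)) :=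
      mul_nonneg (by positivity) (tsum_nonneg fun n => ZetaAsymptotics.term_nonneg _ _)
    rw [add_sub_cancel_left, one_div_one_div] at h1
    rw [sm.tsum_eq_zero_add, Nat.cast_zero, Real.zero_rpow (by positivity), div_zero, zero_add]
    push_cast
    linarith
  refine (tsum_of_norm_bounded (sm.mul_left (2 * L)).hasSum fun n => ?_).trans ?_
  · rw [LSeries.norm_term_eq]
    split_ifs with hn
    · positivity
    have n0 : (0 : ℝ) < n := Nat.cast_pos.2 (Nat.pos_of_ne_zero hn)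
    have e : s.re = 1 / (2 * L) + (1 + 1 / (2 * L)) := by rw [hs]; field_simp; ring
    have h1 := (hf n).trans (Real.log_le_rpow_div n0.le d0)
    rw [e, Real.rpow_add n0, ← div_div, mul_one_div]
    refine div_le_div_of_nonneg_right ?_ (by positivity)
    rw [div_le_iff₀ (by positivity)]
    rwa [div_div_eq_mul_div, div_one, mul_comm] at h1
  · rw [tsum_mul_left]
    nlinarith

theorem small (n : ℕ) {c B : ℝ} (hc : 0 < c) :
    ∀ᶠ u : ℝ in atTop, B * (u ^ n * Real.exp (-c * u)) ≤ 1 := by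
  have h := (tendsto_rpow_mul_exp_neg_mul_atTop_nhds_zero n c hc).const_mul B
  rw [mul_zero] at h
  simpa only [Real.rpow_natCast] using h.eventually_le_const one_pos

theorem numeric {A : ℕ} {x u c B : ℝ} (hx : 1 ≤ x) (hu : 1 ≤ u) (hL : Real.log x = u ^ 4)
    (hc : 0 < c) (hB : 0 ≤ B) (h1 : 8 * B * (u ^ (8 * A + 14) * Real.exp (-c * u)) ≤ 1)
    (h2 : 12 * B + 36 * π ≤ u) :
    8 * (u ^ 4) ^ (A + 3) * (B * u ^ 2) * x ^ (1 - c / u + 1) +
      4 * (B * u ^ 2) * x ^ (1 + 1 / u ^ 4 + 1) / ((u ^ 4) ^ (A + 3)) ^ 2 +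
      2 * π * (6 * (u ^ 4) ^ 2 * x ^ (1 + 1 / u ^ 4 + 1)) / (u ^ 4) ^ (A + 3) ≤
        2 * (x ^ 2 / (u ^ 4) ^ A) := by
  have x0 : 0 < x := one_pos.trans_le hx
  have u0 : 0 < u := one_pos.trans_le hu
  have e1 : x ^ (1 - c / u + 1) ≤ x ^ 2 * Real.exp (-c * u) := by
    rw [show 1 - c / u + 1 = (2 : ℕ) + -(c / u) by push_cast; ring, Real.rpow_add x0,
      Real.rpow_natCast, Real.rpow_def_of_pos x0, hL]
    refine mul_le_mul_of_nonneg_left (Real.exp_le_exp.2 ?_) (by positivity)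
    have : u ^ 4 * -(c / u) = -c * u ^ 3 := by field_simp
    rw [this, neg_mul, neg_mul, neg_le_neg_iff]
    exact mul_le_mul_of_nonneg_left (le_self_pow₀ hu (by norm_num)) hc.le
  have e2 : x ^ (1 + 1 / u ^ 4 + 1) ≤ x ^ 2 * 3 := by
    rw [show 1 + 1 / u ^ 4 + 1 = (2 : ℕ) + 1 / u ^ 4 by push_cast; ring, Real.rpow_add x0,
      Real.rpow_natCast, Real.rpow_def_of_pos x0, hL, mul_one_div_cancel (by positivity)]
    exact mul_le_mul_of_nonneg_left (Real.exp_one_lt_d9.le.trans (by norm_num)) (by positivity)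
  obtain ⟨P, hP⟩ : ∃ P, P = (u ^ 4) ^ A := ⟨_, rfl⟩
  have P1 : 1 ≤ P := hP ▸ one_le_pow₀ (one_le_pow₀ hu)
  have P0 : 0 < P := one_pos.trans_le P1
  have e3 : u ^ (8 * A + 14) = P ^ 2 * u ^ 14 := by rw [hP]; ring
  rw [e3] at h1
  rw [pow_add, ← hP]
  have a1 : 8 * (P * (u ^ 4) ^ 3) * (B * u ^ 2) * x ^ (1 - c / u + 1) ≤ x ^ 2 / P := by
    refine (mul_le_mul_of_nonneg_left e1 (by positivity)).trans ?_
    rw [le_div_iff₀ P0]
    refine le_of_eq_of_le ?_ (mul_le_of_le_one_right (sq_nonneg x) h1)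
    ring
  have a2 : 4 * (B * u ^ 2) * x ^ (1 + 1 / u ^ 4 + 1) / (P * (u ^ 4) ^ 3) ^ 2 ≤
      x ^ 2 / P * (12 * B / u) := by
    refine (div_le_div_of_nonneg_right (mul_le_mul_of_nonneg_left e2 (by positivity))
      (by positivity)).trans ?_
    have : 4 * (B * u ^ 2) * (x ^ 2 * 3) / (P * (u ^ 4) ^ 3) ^ 2 =
        x ^ 2 / P * (12 * B / u) / (P * u ^ 21) := by field_simp; ring
    rw [this]
    exact div_le_self (by positivity) (one_le_mul_of_one_le_of_one_le P1 (one_le_pow₀ hu))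
  have a3 : 2 * π * (6 * (u ^ 4) ^ 2 * x ^ (1 + 1 / u ^ 4 + 1)) / (P * (u ^ 4) ^ 3) ≤
      x ^ 2 / P * (36 * π / u) := by
    refine (div_le_div_of_nonneg_right (mul_le_mul_of_nonneg_left
      (mul_le_mul_of_nonneg_left e2 (by positivity)) (by positivity)) (by positivity)).trans ?_
    have : 2 * π * (6 * (u ^ 4) ^ 2 * (x ^ 2 * 3)) / (P * (u ^ 4) ^ 3) =
        x ^ 2 / P * (36 * π / u) / u ^ 3 := by field_simp; ring
    rw [this]
    exact div_le_self (by positivity) (one_le_pow₀ hu)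
  have a4 : x ^ 2 / P * (12 * B / u + 36 * π / u) ≤ x ^ 2 / P :=
    mul_le_of_le_one_right (by positivity) (by rw [← add_div]; exact (div_le_one u0).2 h2)
  linarith

end RieszAux

open RieszAux DirichletCharacter in
theorem riesz_bound (C A : ℕ) : ∀ᶠ x : ℝ in atTop, ∀ q : ℕ, 1 < q → (q : ℝ) ≤ Real.log x ^ C →
    ∀ ψ ∈ primSet q,
      ‖∑ n ∈ Finset.Icc 1 ⌊x⌋₊, vm n * ψ n * (x - n)‖ ≤ x ^ 2 / Real.log x ^ A := by
  have he : (0 : ℝ) < 1 / (4 * (C + A + 4 : ℕ)) := by positivity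
  obtain ⟨δ, C₁, hδ, hC₁, up⟩ := L_upper he
  obtain ⟨c₀, hc₀, hc₀', low⟩ := L_lower he
  have hc : 0 < min δ c₀ := lt_min hδ hc₀
  have hu : Tendsto (fun x : ℝ => Real.log x ^ (1 / 4 : ℝ)) atTop atTop :=
    (tendsto_rpow_atTop (by norm_num)).comp Real.tendsto_log_atTop
  filter_upwards [eventually_ge_atTop 1, hu.eventually (eventually_ge_atTop 2),
    hu.eventually (small (8 * A + 14) (B := 8 * (C₁ / c₀)) hc),
    hu.eventually (eventually_ge_atTop (12 * (C₁ / c₀) + 36 * π))] with x hx h2 h3 h4 q hq hqL ψ hψ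
  have hL : Real.log x = (Real.log x ^ (1 / 4 : ℝ)) ^ 4 := by
    rw [one_div, ← Nat.cast_ofNat, Real.rpow_inv_natCast_pow (Real.log_nonneg hx) (by norm_num)]
  generalize Real.log x ^ (1 / 4 : ℝ) = u at h2 h3 h4 hL
  have hu1 : 1 ≤ u := by linarith
  have u0 : 0 < u := by linarith
  have L3 : 3 ≤ u ^ 4 := le_trans (by norm_num) (pow_le_pow_left₀ zero_le_two h2 4)
  have L1 : 1 ≤ u ^ 4 := by linarith
  have x0 : 0 < x := one_pos.trans_le hx
  have : NeZero q := ⟨by omega⟩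
  have q0 : (0 : ℝ) < q := Nat.cast_pos.2 (by omega)
  have h1 := ne_one_of_prim hq hψ
  have i0 : 0 < 1 / u ^ 4 := by positivity
  have i1 : 1 / u ^ 4 ≤ 1 := (div_le_one (by positivity)).2 L1
  have i2 : min δ c₀ / u ≤ min δ c₀ := div_le_self hc.le hu1
  have i3 : 0 < min δ c₀ / u := by positivity
  have ef : (fun n : ℕ => vm n * ψ n) = (fun n : ℕ => ψ n) *
      fun n : ℕ => ((ArithmeticFunction.vonMangoldt n : ℝ) : ℂ) := by
    funext n
    rw [vm_apply, mul_comm]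
    rfl
  have eF : ∀ t : ℝ, LSeries (fun n : ℕ => vm n * ψ n) ((1 + 1 / u ^ 4 : ℝ) + t * I) =
      -deriv (LFunction ψ) ((1 + 1 / u ^ 4 : ℝ) + t * I) /
        LFunction ψ ((1 + 1 / u ^ 4 : ℝ) + t * I) := fun t => by
    have : 1 < (((1 + 1 / u ^ 4 : ℝ) : ℂ) + t * I).re := by
      simp only [add_re, ofReal_re, mul_re, I_re, I_im, ofReal_im]
      linarith
    rw [ef, LSeries_twist_vonMangoldt_eq ψ this, LFunction_eq_LSeries ψ this,
      deriv_LFunction_eq_deriv_LSeries ψ this]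
  obtain ⟨p1, p2⟩ := perron_riesz (f := fun n : ℕ => vm n * ψ n) (c := 1 + 1 / u ^ 4) (x := x)
    (by positivity) x0 (ef ▸ LSeriesSummable_twist_vonMangoldt ψ (by rw [ofReal_re]; linarith))
  rw [hL] at hqL
  have key := contour (F := fun s => -deriv (LFunction ψ) s / LFunction ψ s)
    (a := 1 - min δ c₀ / u) (c := 1 + 1 / u ^ 4) (H := (u ^ 4) ^ (A + 3)) (M := C₁ / c₀ * u ^ 2)
    (K := 6 * (u ^ 4) ^ 2) hx (by linarith [min_le_right δ c₀]) (by linarith) (by linarith)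
    (by positivity) (by positivity) (by positivity)
    (fun s s1 s2 s3 => by
      have N0 : 0 < q * (2 + |s.im|) := by positivity
      have H1 : 1 ≤ (u ^ 4) ^ (A + 3) := one_le_pow₀ L1
      have N1 : q * (2 + |s.im|) ≤ u ^ (4 * (C + A + 4)) := by
        calc q * (2 + |s.im|) ≤ (u ^ 4) ^ C * (u ^ 4 * (u ^ 4) ^ (A + 3)) := by
              refine mul_le_mul hqL ?_ (by positivity) (by positivity)
              nlinarith
          _ = _ := by ring
      have N2 : (q * (2 + |s.im|)) ^ (1 / (4 * (C + A + 4 : ℕ)) : ℝ) ≤ u := by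
        refine (Real.rpow_le_rpow N0.le N1 he.le).trans (le_of_eq ?_)
        have := Real.pow_rpow_inv_natCast u0.le (show 4 * (C + A + 4) ≠ 0 by omega)
        rwa [Nat.cast_mul, Nat.cast_ofNat, ← one_div] at this
      have N3 : c₀ / u ≤ c₀ * (q * (2 + |s.im|)) ^ (-(1 / (4 * (C + A + 4 : ℕ)) : ℝ)) := by
        rw [Real.rpow_neg N0.le, ← div_eq_mul_inv]
        exact div_le_div_of_nonneg_left hc₀.le (by positivity) N2
      have N4 : min δ c₀ / u ≤ c₀ / u := div_le_div_of_nonneg_right (min_le_right _ _) u0.le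
      have l1 := N3.trans (low q ψ (mem_primSet.1 hψ) h1 s (by linarith) (by linarith))
      have l2 := (up q ψ h1 s (by linarith [min_le_left δ c₀]) (by linarith)).2.trans
        (mul_le_mul_of_nonneg_left N2 hC₁.le)
      have l0 : 0 < c₀ / u := by positivity
      refine ⟨((differentiable_LFunction h1).deriv s).neg.div (differentiable_LFunction h1 s)
        (norm_pos_iff.1 (l0.trans_le l1)), ?_⟩
      rw [norm_div, norm_neg]
      refine (div_le_div₀ (by positivity) l2 l0 l1).trans (le_of_eq ?_)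
      field_simp)
    (fun t => by
      rw [← eF]
      refine series_le (fun n => ?_) L1 (by simp only [add_re, ofReal_re, mul_re, I_re, I_im,
        ofReal_im, mul_zero, sub_zero, zero_mul, add_zero])
      rw [norm_mul]
      exact (mul_le_of_le_one_right (norm_nonneg _) (ψ.norm_le_one _)).trans (norm_vm_le n))
    (by simpa only [eF] using p1)
  rw [p2, hL, norm_div]
  simp only [eF]
  have e : ‖(2 * π : ℂ)‖ = 2 * π := by
    rw [norm_mul, norm_real, Real.norm_of_nonneg Real.pi_pos.le, norm_ofNat]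
  rw [e, div_le_iff₀ (by positivity), mul_comm _ (2 * π)]
  refine (key.trans (numeric hx hu1 hL hc (by positivity) h3 h4)).trans ?_
  exact mul_le_mul_of_nonneg_right (by linarith [Real.pi_gt_three]) (by positivity)

end Pool.Agent.P.MP_7eacff_nt.SZ
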