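import Pool.Agent.P.MP_7eacff_nt.SZ.Basic

/-!
The lower bound in the Riemann von Mangoldt formula and the final count.
-/

open Complex Filter Topology MeasureTheory Set
open scoped Real ContDiff

namespace Pool.Agent.P.MP_7eacff_nt.SZ

open Pool.Agent.Lib.LargeSieve (primSet mem_primSet)

namespace RvMAux

theorem G_ge {μ : Measure ℝ} (hμ : ZData μ) :
    ∃ C : ℝ, ∀ x, 0 < x → Real.log x / 2 - C ≤ G μ x := by
  obtain ⟨c, C, h⟩ := hμ.est
  refine ⟨|C| - c + ∑' n : ℕ, ArithmeticFunction.vonMangoldt n * (n : ℝ) ^ (-(3 / 2) : ℝ),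
    fun x hx => ?_⟩
  have h1 := (abs_le.1 (h x)).1
  have h2 := (abs_le.1 (abs_Dser_le x)).2
  have h3 : Real.log (x ^ 2) ≤ Real.log (9 / 4 + x ^ 2) :=
    Real.log_le_log (by positivity) (by linarith only [])
  have h4 : C / (1 + |x|) ≤ |C| := by
    refine (div_le_div_of_nonneg_right (le_abs_self C) (by positivity)).trans ?_
    exact div_le_self (abs_nonneg C) (by linarith only [abs_nonneg x])
  rw [Real.log_pow] at h3
  push_cast at h3
  unfold G
  linarith only [h1, h2, h3, h4]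

theorem split {μ : Measure ℝ} (hμ : ZData μ) {e X x : ℝ} (he : 0 < e) (he1 : e ≤ 1) (h0 : 0 ≤ x)
    (hx : x ≤ (1 - e) * X) :
    G μ x ≤ ∫ y in Ioo 0 X, 1 / (1 + (x - y) ^ 2) ∂μ + G μ 0 / e ^ 2 := by
  have hi := (hμ.int 0).div_const (e ^ 2)
  rw [G, ← integral_add_compl (measurableSet_Ioo (a := 0) (b := X)) (hμ.int x), G, ← integral_div]
  refine add_le_add le_rfl (le_trans ?_ (setIntegral_le_integral (s := (Ioo 0 X)ᶜ) hi
    (ae_of_all _ fun y => by positivity)))
  refine setIntegral_mono_on (hμ.int x).integrableOn hi.integrableOn measurableSet_Ioo.compl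
    fun y hy => ?_
  rw [div_div]
  refine one_div_le_one_div_of_le (by positivity) ?_
  have e1 : e ^ 2 ≤ 1 := pow_le_one₀ he.le he1
  have e2 : (e * y) ^ 2 ≤ (x - y) ^ 2 := by
    by_cases h : y ≤ 0
    · have : (e * y) ^ 2 ≤ y ^ 2 := by nlinarith only [e1, sq_nonneg y]
      nlinarith only [this, h, h0, mul_nonneg h0 (neg_nonneg.2 h)]
    · have h1 : X ≤ y := by
        by_contra h2
        exact hy ⟨not_le.1 h, not_le.1 h2⟩
      have h2 : e * y ≤ y - x := by nlinarith only [h1, hx, he1]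
      rw [← neg_sub y x, neg_sq]
      exact pow_le_pow_left₀ (mul_nonneg he.le (not_le.1 h).le) h2 2
  nlinarith only [e1, e2]

theorem fub (ν : Measure ℝ) [IsFiniteMeasure ν] {a b c : ℝ} (hab : a ≤ b)
    (h : ∀ x ∈ Icc a b, c ≤ ∫ y, 1 / (1 + (x - y) ^ 2) ∂ν) : (b - a) * c ≤ π * ν.real univ := by
  have hc : Continuous (Function.uncurry fun x y : ℝ => 1 / (1 + (x - y) ^ 2)) :=
    Continuous.div continuous_const (by fun_prop) fun p => by positivity
  have hi : Integrable (Function.uncurry fun x y : ℝ => 1 / (1 + (x - y) ^ 2))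
      ((volume.restrict (Icc a b)).prod ν) := by
    refine (integrable_const (1 : ℝ)).mono' hc.aestronglyMeasurable (ae_of_all _ fun p => ?_)
    change ‖1 / (1 + (p.1 - p.2) ^ 2)‖ ≤ 1
    rw [Real.norm_of_nonneg (by positivity)]
    exact div_le_one_of_le₀ (by linarith only [sq_nonneg (p.1 - p.2)]) (by positivity)
  calc (b - a) * c = ∫ _ in Icc a b, c := by simp [hab]
    _ ≤ ∫ x in Icc a b, ∫ y, 1 / (1 + (x - y) ^ 2) ∂ν :=
      setIntegral_mono_on (by simp) hi.integral_prod_left measurableSet_Icc h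
    _ = ∫ y, (∫ x in Icc a b, 1 / (1 + (x - y) ^ 2)) ∂ν := integral_integral_swap hi
    _ ≤ ∫ _, π ∂ν := by
      refine integral_mono hi.integral_prod_right (integrable_const _) fun y => ?_
      have h1 := integrable_inv_one_add_sq.comp_sub_right y
      have h2 := integral_sub_right_eq_self (μ := volume) (fun x : ℝ => (1 + x ^ 2)⁻¹) y
      rw [integral_univ_inv_one_add_sq] at h2
      simp only [one_div]
      exact (setIntegral_le_integral h1 (ae_of_all _ fun x => by positivity)).trans h2.le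
    _ = _ := by simp [mul_comm]

theorem meas_le {μ : Measure ℝ} {γ : ℕ → ℝ} (hγ : Enum μ γ) (N : ℕ) :
    μ (Ioo 0 (γ N)) ≤ N := by
  rw [hγ.meas _ Ioo_subset_Ioi_self measurableSet_Ioo]
  have h3 : γ ⁻¹' Ioo 0 (γ N) ⊆ ((Finset.range N : Finset ℕ) : Set ℕ) := fun n hn => by
    simpa using hγ.mono.reflect_lt hn.2
  have h4 := encard_le_encard h3
  rw [encard_coe_eq_coe_finsetCard, Finset.card_range] at h4
  simpa using ENat.toENNReal_le.2 h4

end RvMAux

open RvMAux in
theorem rvm_lower {μ : Measure ℝ} [SFinite μ] (hμ : ZData μ) {γ : ℕ → ℝ} (hγ : Enum μ γ) {ε : ℝ}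
    (hε : 0 < ε) :
    ∀ᶠ N : ℕ in atTop, (1 - ε) * (γ N * Real.log (γ N) / (2 * π)) ≤ N := by
  obtain ⟨C, hC⟩ := G_ge hμ
  obtain ⟨e, he, he1, he2⟩ : ∃ e : ℝ, 0 < e ∧ e ≤ 1 / 4 ∧ e ≤ ε / 4 :=
    ⟨min (1 / 4) (ε / 4), by positivity, min_le_left _ _, min_le_right _ _⟩
  set D := C + G μ 0 / e ^ 2 - Real.log e / 2 with hD
  filter_upwards [(Real.tendsto_log_atTop.comp (hγ.tendsto hμ)).eventually_ge_atTop
    (4 * |D| / ε)] with N hN
  have hX := hγ.pos N
  have hm := meas_le hγ N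
  have : IsFiniteMeasure (μ.restrict (Ioo 0 (γ N))) :=
    isFiniteMeasure_restrict.2 (hm.trans_lt (ENNReal.natCast_lt_top N)).ne
  have h1 := fub (μ.restrict (Ioo 0 (γ N))) (a := e * γ N) (b := (1 - e) * γ N)
    (c := Real.log (γ N) / 2 - D) (by nlinarith only [hX, he1]) fun x hx => by
      have a0 : 0 < e * γ N := by positivity
      have a1 := split hμ he (by linarith only [he1]) (a0.le.trans hx.1) hx.2
      have a2 := hC x (a0.trans_le hx.1)
      have a3 := Real.log_le_log a0 hx.1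
      rw [Real.log_mul he.ne' hX.ne'] at a3
      linarith only [a1, a2, a3, hD]
  have h2 : (μ.restrict (Ioo 0 (γ N))).real univ ≤ N := by
    rw [measureReal_restrict_apply_univ]
    exact ENNReal.toReal_le_of_le_ofReal (Nat.cast_nonneg N) (by simpa using hm)
  rw [Function.comp_apply, div_le_iff₀ hε] at hN
  have hL : 0 ≤ Real.log (γ N) := by
    by_contra h
    nlinarith only [hN, abs_nonneg D, hε, not_le.1 h]
  have h3 : (1 - ε) * Real.log (γ N) / 2 ≤ (1 - 2 * e) * (Real.log (γ N) / 2 - D) := by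
    have a1 : (1 - 2 * e) * D ≤ |D| := by
      nlinarith only [le_abs_self D, abs_nonneg D, he, he1]
    nlinarith only [a1, hN, hL, he2, mul_le_mul_of_nonneg_right he2 hL]
  rw [← mul_div_assoc, div_le_iff₀ (by positivity)]
  nlinarith only [h1, mul_le_mul_of_nonneg_left h2 Real.pi_pos.le,
    mul_le_mul_of_nonneg_left h3 hX.le]

end Pool.Agent.P.MP_7eacff_nt.SZ
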