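import Pool.Agent.P.MP_7eacff_nt.SZ.Upper
import Pool.Agent.P.MP_7eacff_nt.SZ.Ester
import Pool.Agent.P.MP_7eacff_nt.SZ.LProd

/-!
The theorem of Siegel.
-/

open Complex Filter Topology MeasureTheory Set
open scoped Real ContDiff

namespace Pool.Agent.P.MP_7eacff_nt.SZ

open Pool.Agent.Lib.LargeSieve (primSet mem_primSet)

open DirichletCharacter

namespace SiegelAux

theorem fin {K x q ε : ℝ} (hK : 0 < K) (hq : 0 < q) (h : 1 / 2 ≤ K * x * q ^ ε) :
    1 / (2 * K) * q ^ (-ε) ≤ x := by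
  rw [Real.rpow_neg hq.le, ← div_eq_mul_inv, div_le_iff₀ (Real.rpow_pos_of_pos hq _),
    div_le_iff₀ (by positivity)]
  linarith

open scoped ComplexOrder in
theorem three_pos {q : ℕ} [NeZero q] {χ : DirichletCharacter ℂ q} (h2 : χ ^ 2 = 1) :
    0 < (LFunction χ (3 : ℝ)).re := by
  obtain ⟨r, r0, r1, hr⟩ := exists_coef_two h2
  have a := (hr 2 (by simp)).1.abscissaOfAbsConv_le
  have b := LSeries.positive (a := r) r0 (by rw [r1]; exact one_pos) (x := 3)
    (a.trans_lt (by rw [re_ofNat]; exact_mod_cast (by norm_num : (2 : ℝ) < 3)))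
  rw [(hr (3 : ℝ) (by simp)).2] at b
  have c := (Complex.pos_iff.1 b).1
  rw [mul_re, riemannZeta_im_eq_zero_of_one_lt (by norm_num), zero_mul, sub_zero] at c
  exact (pos_iff_pos_of_mul_pos c).1 (riemannZeta_re_pos_of_one_lt (by norm_num))

theorem nonneg {q : ℕ} [NeZero q] {χ : DirichletCharacter ℂ q} (h1 : χ ≠ 1) (h2 : χ ^ 2 = 1)
    {σ : ℝ} (h0 : 0 < σ) (h3 : σ < 1) (h : ∀ β : ℝ, σ ≤ β → β < 1 → LFunction χ β ≠ 0) :
    0 ≤ (LFunction χ σ).re := by
  by_contra hn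
  have hc : Continuous fun x : ℝ => (LFunction χ x).re :=
    continuous_re.comp ((differentiable_LFunction h1).continuous.comp continuous_ofReal)
  obtain ⟨β, hβ, e⟩ := intermediate_value_Icc (by linarith : σ ≤ 3) hc.continuousOn
    (⟨(not_le.1 hn).le, (three_pos h2).le⟩ : (0 : ℝ) ∈ Icc _ _)
  have z : LFunction χ β = 0 := Complex.ext e (L_im_eq_zero h1 h2 (h0.trans_le hβ.1))
  rcases lt_or_ge β 1 with k | k
  · exact h β hβ.1 k z
  · exact LFunction_ne_zero_of_one_le_re χ (Or.inl h1) (by simpa using k) z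

end SiegelAux

open SiegelAux in
theorem siegel {ε : ℝ} (hε : 0 < ε) : ∃ c : ℝ, 0 < c ∧ ∀ (q : ℕ) [NeZero q]
    (χ : DirichletCharacter ℂ q), χ.IsPrimitive → χ ≠ 1 → χ ^ 2 = 1 →
      c * (q : ℝ) ^ (-ε) ≤ ‖LFunction χ 1‖ := by
  obtain ⟨A, C, hA, hC, hE⟩ := estermann
  obtain ⟨e, he0, he1, he2⟩ : ∃ e : ℝ, 0 < e ∧ e ≤ 1 / 8 ∧ A * e ≤ ε / 8 :=
    ⟨min (1 / 8) (ε / 8 / A), by positivity, min_le_left _ _,
      (le_div_iff₀' hA).1 (min_le_right _ _)⟩
  have hq : ∀ (q : ℕ) [NeZero q], (1 : ℝ) ≤ q := fun q _ => by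
    exact_mod_cast Nat.one_le_iff_ne_zero.2 (NeZero.ne q)
  by_cases h : ∃ (q₁ : ℕ) (_ : NeZero q₁) (χ₁ : DirichletCharacter ℂ q₁) (β : ℝ),
      χ₁.IsPrimitive ∧ χ₁ ≠ 1 ∧ χ₁ ^ 2 = 1 ∧ 1 - e ≤ β ∧ β < 1 ∧ LFunction χ₁ β = 0
  · obtain ⟨q₁, _, χ₁, β, p₁, n₁, s₁, b₁, b₂, hz⟩ := h
    obtain ⟨δ, C', hδ, hC', hU⟩ := L_upper (half_pos hε)
    have : Nonempty {χ : DirichletCharacter ℂ q₁ // χ ≠ 1} := ⟨⟨χ₁, n₁⟩⟩
    obtain ⟨χ₀, h₀⟩ := Finite.exists_min
      fun χ : {χ : DirichletCharacter ℂ q₁ // χ ≠ 1} => ‖LFunction χ.1 1‖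
    have l₀ := norm_pos_iff.2 (LFunction_apply_one_ne_zero χ₀.2)
    have l₁ := norm_pos_iff.2 (LFunction_apply_one_ne_zero n₁)
    have k₁ := hq q₁
    have b₃ : 0 < 1 - β := by linarith
    have hK : 0 < C * ‖LFunction χ₁ 1‖ * C' * (2 * q₁) ^ (ε / 2) *
      (729 * q₁ ^ 2) ^ (A * (1 - β)) / (1 - β) := by positivity
    refine ⟨min (1 / (2 * _)) ‖LFunction χ₀.1 1‖, lt_min (one_div_pos.2 (mul_pos two_pos hK)) l₀,
      fun q _ χ p n s => ?_⟩
    have k := hq q
    by_cases hqq : q₁ = q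
    · subst hqq
      refine (mul_le_of_le_one_right (le_min (by positivity) l₀.le)
        (Real.rpow_le_one_of_one_le_of_nonpos k (by linarith))).trans ?_
      exact (min_le_right _ _).trans (h₀ ⟨χ, n⟩)
    refine (mul_le_mul_of_nonneg_right (min_le_left _ _) (by positivity)).trans
      (fin hK (by positivity) ?_)
    have n' := pc_ne_one p₁ p s hqq
    obtain ⟨r, r0, r1, hr⟩ := exists_coef_four s₁ s
    have E := hE (fun s => LFunction χ₁ s * LFunction χ s * LFunction (pc χ₁ χ) s)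
      (729 * q₁ ^ 2 * q ^ 2) r (((differentiable_LFunction n₁).mul
        (differentiable_LFunction n)).mul (differentiable_LFunction n'))
      (one_le_mul_of_one_le_of_one_le (by nlinarith) (by nlinarith)) (fun s hs => by
        rw [norm_mul, norm_mul]
        refine (mul_le_mul (mul_le_mul (L_disc n₁ hs) (L_disc n hs) (norm_nonneg _)
          (by positivity)) (L_disc n' hs) (norm_nonneg _) (by positivity)).trans_eq ?_
        push_cast
        ring) r0 r1 hr β (by linarith) b₂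
    have U := (hU _ _ n' 1 (by simp [hδ.le]) (by simp)).1
    rw [one_im, abs_zero, add_zero, Nat.cast_mul, show (q₁ : ℝ) * q * 2 = 2 * q₁ * q by ring,
      Real.mul_rpow (by positivity) (by positivity)] at U
    have P : ((q : ℝ) ^ 2) ^ (A * (1 - β)) ≤ q ^ (ε / 2) := by
      rw [← Real.rpow_natCast, ← Real.rpow_mul (by positivity)]
      refine Real.rpow_le_rpow_of_exponent_le k ?_
      have := mul_le_mul_of_nonneg_left (by linarith : 1 - β ≤ e) hA.le
      push_cast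
      linarith
    have Q : (q : ℝ) ^ ε = q ^ (ε / 2) * q ^ (ε / 2) := by
      rw [← Real.rpow_add (by positivity), add_halves]
    rw [hz, zero_mul, zero_mul, mul_zero, zero_re, sub_nonpos, norm_mul, norm_mul,
      Real.mul_rpow (by positivity) (by positivity)] at E
    refine E.trans ?_
    rw [Q]
    calc _ ≤ C * (‖LFunction χ₁ 1‖ * ‖LFunction χ 1‖ * (C' * ((2 * q₁) ^ (ε / 2) * q ^ (ε / 2)))) *
          ((729 * q₁ ^ 2) ^ (A * (1 - β)) * q ^ (ε / 2)) / (1 - β) := by gcongr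
      _ = _ := by ring
  · have hK : 0 < C * 9 ^ (A * e) / e := by positivity
    refine ⟨1 / (2 * _), one_div_pos.2 (mul_pos two_pos hK), fun q _ χ p n s => ?_⟩
    have k := hq q
    refine fin hK (by positivity) ?_
    obtain ⟨r, r0, r1, hr⟩ := exists_coef_two s
    have E := hE (LFunction χ) (9 * q) r (differentiable_LFunction n) (by linarith)
      (fun s hs => L_disc n hs) r0 r1 hr (1 - e) (by linarith) (by linarith)
    have Z := zeta_re_neg (σ := 1 - e) (by linarith) (by linarith)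
    have N := nonneg n s (σ := 1 - e) (by linarith) (by linarith)
      fun β b₁ b₂ z => h ⟨q, inferInstance, χ, β, p, n, s, b₁, b₂, z⟩
    rw [mul_re, Z.2, zero_mul, sub_zero, sub_sub_cancel,
      Real.mul_rpow (by positivity) (by positivity)] at E
    have P : (q : ℝ) ^ (A * e) ≤ q ^ ε := Real.rpow_le_rpow_of_exponent_le k (by linarith)
    calc _ ≤ C * ‖LFunction χ 1‖ * (9 ^ (A * e) * q ^ (A * e)) / e := by
          linarith [mul_nonpos_of_nonpos_of_nonneg Z.1.le N]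
      _ ≤ C * ‖LFunction χ 1‖ * (9 ^ (A * e) * q ^ ε) / e := by gcongr
      _ = _ := by ring

end Pool.Agent.P.MP_7eacff_nt.SZ
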