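import Pool.Agent.P.MP_7eacff_nt.SZ.Bilin
import Pool.Agent.P.MP_7eacff_nt.SZ.Fam
import Pool.Agent.P.MP_7eacff_nt.SZ.Dil

/-!
Sums of type two.
-/

open Complex Filter Topology MeasureTheory Set
open scoped Real ContDiff

namespace Pool.Agent.P.MP_7eacff_nt.SZ

open Pool.Agent.Lib.LargeSieve (primSet mem_primSet)

namespace TypeIIAux

theorem sq_sum {f g : ℕ → ℂ} {L : ℝ} {i d e N : ℕ} (hL : 0 ≤ L) (hd : d ≠ 0) (he : e ∣ d)
    (hf : ∀ n, ‖f n‖ ≤ L ^ i * tau n ^ i) (hg : ∀ w, ‖g w‖ ≤ ‖f (e * w)‖)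
    (hN : 1 + Real.log N ≤ L ^ 2) :
    ∑ w ∈ Finset.Icc 1 N, ‖g w‖ ^ 2 / w ≤ (L ^ i * tau d ^ i * L ^ 2 ^ (2 * i)) ^ 2 := by
  have h0 : 0 ≤ 1 + Real.log N := by have := Real.log_natCast_nonneg N; linarith
  have h1 : ∀ w : ℕ, ‖g w‖ ^ 2 / w ≤ (L ^ i * tau d ^ i) ^ 2 * (tau w ^ (2 * i) / w) := by
    intro w
    have a1 : tau (e * w) ≤ tau d * tau w :=
      (tau_mul_le e w).trans (mul_le_mul_of_nonneg_right (tau_le_of_dvd he hd) (tau_nonneg w))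
    have a2 : ‖g w‖ ≤ L ^ i * (tau d * tau w) ^ i := (hg w).trans ((hf _).trans
      (mul_le_mul_of_nonneg_left (pow_le_pow_left₀ (tau_nonneg _) a1 i) (pow_nonneg hL i)))
    rw [← mul_div_assoc]
    refine div_le_div_of_nonneg_right ((pow_le_pow_left₀ (norm_nonneg _) a2 2).trans_eq ?_)
      (Nat.cast_nonneg w)
    ring
  refine (Finset.sum_le_sum fun w _ => h1 w).trans ?_
  rw [← Finset.mul_sum, mul_pow (L ^ i * tau d ^ i)]
  refine mul_le_mul_of_nonneg_left ((sum_tau_div _ N).trans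
    ((pow_le_pow_left₀ h0 hN _).trans_eq ?_)) (sq_nonneg _)
  rw [← pow_mul, ← pow_mul, mul_comm]

theorem log_two_le {N : ℕ} (hN : N ≠ 0) : (Nat.log 2 N : ℝ) ≤ 2 * Real.log N := by
  have h1 : ((2 : ℝ)) ^ Nat.log 2 N ≤ N := by exact_mod_cast Nat.pow_log_le_self 2 hN
  have h2 := Real.log_le_log (by positivity) h1
  rw [Real.log_pow] at h2
  have h3 := Real.log_two_gt_d9
  have h4 : (0 : ℝ) ≤ Nat.log 2 N := Nat.cast_nonneg _
  nlinarith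

theorem sqrt_Z {T θ η Q : ℝ} {e d : ℕ} (hT : 0 < T) (hQ : 0 ≤ Q) (he : e ≤ d)
    (h : Q * d ≤ T ^ θ) : √(Q / (T ^ (θ + η) / e)) ≤ T ^ (-(η / 2)) := by
  refine Real.sqrt_le_iff.2 ⟨by positivity, ?_⟩
  have h1 : (e : ℝ) ≤ d := Nat.cast_le.2 he
  rw [div_div_eq_mul_div, div_le_iff₀ (by positivity), ← Real.rpow_natCast, ← Real.rpow_mul hT.le,
    ← Real.rpow_add hT]
  refine ((mul_le_mul_of_nonneg_left h1 hQ).trans h).trans_eq ?_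
  congr 1
  push_cast
  ring

theorem sqrt_M {T η Y : ℝ} (hT : 0 < T) (hY : T ≤ Y) : √(T ^ (1 - η) / Y) ≤ T ^ (-(η / 2)) := by
  refine Real.sqrt_le_iff.2 ⟨by positivity, ?_⟩
  refine (div_le_div_of_nonneg_left (by positivity) hT hY).trans_eq ?_
  rw [← Real.rpow_sub_one hT.ne', ← Real.rpow_natCast, ← Real.rpow_mul hT.le]
  congr 1
  push_cast
  ring

theorem div_sqrt {T θ η Q Y : ℝ} (hT : 1 ≤ T) (hY : T ≤ Y) (h : 2 * θ + η ≤ 1) (hQ : Q ≤ T ^ θ) :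
    Q / √Y ≤ T ^ (-(η / 2)) := by
  have h0 : 0 < T := by linarith
  rw [div_le_iff₀ (Real.sqrt_pos.2 (by linarith))]
  refine hQ.trans (le_trans ?_ (mul_le_mul_of_nonneg_left (Real.sqrt_le_sqrt hY) (by positivity)))
  rw [Real.sqrt_eq_rpow, ← Real.rpow_add h0]
  exact Real.rpow_le_rpow_of_exponent_le hT (by linarith)

theorem NB_mul_le (V : ℝ → ℂ) {f g : AF} {N₁ N₂ : ℕ} (hf : ∀ n, N₁ < n → f n = 0)
    (hg : ∀ n, N₂ < n → g n = 0) {d : ℕ} (hd : 0 < d) (Q₀ Q₁ Y : ℝ) :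
    NB V (f * g : AF) Q₀ Q₁ d Y ≤ ∑ p ∈ d.divisorsAntidiagonal,
      ∑ q ∈ (Finset.Icc 1 ⌊Q₁⌋₊).filter (fun q : ℕ => Q₀ < (q : ℝ)),
        (q : ℝ) ^ (-(3 / 2) : ℝ) * ∑ ψ ∈ primSet q,
          ‖∑ w ∈ Finset.Icc 1 N₁, ∑ n ∈ Finset.Icc 1 N₂,
            (if w.Coprime p.2 then f (p.1 * w) else 0) * ψ w * (g (p.2 * n) * ψ n) *
              V (w * n / (q * Y))‖ := by
  rw [Finset.sum_comm]
  refine Finset.sum_le_sum fun q _ => ?_
  rw [← Finset.mul_sum, Finset.sum_comm]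
  refine mul_le_mul_of_nonneg_left (Finset.sum_le_sum fun ψ _ => ?_) (by positivity)
  rw [SS_mul V hf hg hd (fun a b => by rw [Nat.cast_mul, map_mul])]
  exact norm_sum_le _ _

end TypeIIAux

theorem small_typeII {V : ℝ → ℂ} {M : ℂ → ℂ} (hV : Vcl V M) {θ η : ℝ} (hθ : 0 < θ) (hη : 0 < η)
    (h : 2 * θ + 3 * η ≤ 1) {α β : ℝ → AF} (hα : Tame α) (hβ : Tame β)
    (hs : ∀ᶠ T : ℝ in atTop, ∀ m n, α T m ≠ 0 → β T n ≠ 0 →
      T ^ (θ + η) < (m : ℝ) ∧ ((m : ℝ) ≤ T ^ (1 - η) ∨ T ^ (θ + η) < (n : ℝ))) :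
    SmallB θ η V fun T => α T * β T := by
  obtain ⟨C, hC, hb⟩ := bilin hV
  obtain ⟨i, hi⟩ := hα
  obtain ⟨j, hj⟩ := hβ
  refine ⟨13 + i + j + 2 ^ (2 * i) + 2 ^ (2 * j), ?_⟩
  filter_upwards [hi, hj, hs, ev_log_range (i + j + 1), ev_le_log 2, ev_le_log (4 * C),
    eventually_ge_atTop (1 : ℝ)] with T hi hj hs hr hL hLC hT Q₀ Q₁ Y d hQ₀ hd hQ₁ hQd hY _
  have hd0 : d ≠ 0 := hd.ne_zero
  have hT0 : 0 < T := by linarith
  have hd1 : (1 : ℝ) ≤ d := Nat.one_le_cast.2 (Nat.pos_of_ne_zero hd0)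
  have hQ : Q₁ ≤ T ^ θ := le_trans (le_mul_of_one_le_right (by linarith) hd1) hQd
  set L := Real.log T with hLdef
  set N := ⌊T ^ (i + j + 1)⌋₊ with hN
  have hTN : 1 ≤ T ^ (i + j + 1) := one_le_pow₀ hT
  have hN0 : N ≠ 0 := (Nat.floor_pos.2 hTN).ne'
  have hlog : 1 + Real.log N ≤ L ^ 2 := hr N (Nat.cast_nonneg _) (Nat.floor_le (by linarith))
  have hK : N < 2 ^ (Nat.log 2 N + 1) := Nat.lt_pow_succ_log_self (by norm_num) N
  have hQK : Q₁ < 2 ^ (Nat.log 2 N + 1) := by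
    have a1 : T ^ θ ≤ T ^ (i + j + 1) := by
      rw [← Real.rpow_natCast]
      refine Real.rpow_le_rpow_of_exponent_le hT ?_
      have : (0 : ℝ) ≤ i := Nat.cast_nonneg _
      have : (0 : ℝ) ≤ j := Nat.cast_nonneg _
      push_cast
      linarith
    have a2 : ((N + 1 : ℕ) : ℝ) ≤ ((2 ^ (Nat.log 2 N + 1) : ℕ) : ℝ) := Nat.cast_le.2 hK
    have a3 := Nat.lt_floor_add_one (T ^ (i + j + 1))
    push_cast at a2
    linarith
  have hKL : ((Nat.log 2 N + 1 : ℕ) : ℝ) + 1 ≤ L ^ 3 := by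
    have a1 := TypeIIAux.log_two_le hN0
    have a2 : 2 * L ^ 2 ≤ L * L ^ 2 := mul_le_mul_of_nonneg_right hL (sq_nonneg L)
    push_cast
    nlinarith
  have hz : ∀ (k n : ℕ), k ≤ i + j + 1 → N < n → T ^ k < (n : ℝ) := fun k n hk hn =>
    (pow_le_pow_right₀ hT hk).trans_lt ((Nat.floor_lt (by linarith)).1 hn)
  have hL0 : 0 ≤ L := by linarith
  have ht := one_le_tau hd0
  have hε : 0 ≤ T ^ (-(η / 2)) := by positivity
  have hq : 0 ≤ Q₀ ^ (-(1 / 2) : ℝ) := by positivity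
  have hY0 : 0 < Y := by linarith
  refine (TypeIIAux.NB_mul_le V (fun n hn => (hi n).2 (hz i n (by omega) hn))
    (fun n hn => (hj n).2 (hz j n (by omega) hn)) (Nat.pos_of_ne_zero hd0) Q₀ Q₁ Y).trans ?_
  refine (Finset.sum_le_card_nsmul _ _ (L * (L ^ 3) ^ 4 * (L ^ i * tau d ^ i * L ^ 2 ^ (2 * i)) *
    (L ^ j * tau d ^ j * L ^ 2 ^ (2 * j)) * Y * (Q₀ ^ (-(1 / 2) : ℝ) + T ^ (-(η / 2))))
    fun p hp => ?_).trans ?_
  · have hp1 : p.1 ∣ d := Nat.dvd_of_mem_divisors (Nat.fst_mem_divisors_of_mem_antidiagonal hp)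
    have hp2 : p.2 ∣ d := Nat.dvd_of_mem_divisors (Nat.snd_mem_divisors_of_mem_antidiagonal hp)
    have hp1' : (1 : ℝ) ≤ p.1 := Nat.one_le_cast.2 (Nat.pos_of_dvd_of_pos hp1 (by omega))
    have hp2' : (1 : ℝ) ≤ p.2 := Nat.one_le_cast.2 (Nat.pos_of_dvd_of_pos hp2 (by omega))
    refine (hb (fun w => if w.Coprime p.2 then α T (p.1 * w) else 0) (fun n => β T (p.2 * n))
      (Nat.log 2 N + 1) N N (L ^ i * tau d ^ i * L ^ 2 ^ (2 * i))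
      (L ^ j * tau d ^ j * L ^ 2 ^ (2 * j)) Q₀ Q₁ Y (T ^ (θ + η) / p.1) (T ^ (θ + η) / p.2)
      (T ^ (1 - η)) hK hK hQK (by positivity) (by positivity) hQ₀ hQ₁ hY0 (by positivity)
      (by positivity) (by positivity)
      (TypeIIAux.sq_sum hL0 hd0 hp1 (fun n => (hi n).1) (fun w => ?_) hlog)
      (TypeIIAux.sq_sum hL0 hd0 hp2 (fun n => (hj n).1) (fun w => le_rfl) hlog)
      fun m n hm hn => ?_).trans ?_
    · split_ifs
      · exact le_rfl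
      · rw [norm_zero]
        exact norm_nonneg _
    · have hm' : α T (p.1 * m) ≠ 0 := fun h0 => hm (by simp only [h0, ite_self])
      obtain ⟨a1, a2⟩ := hs _ _ hm' hn
      push_cast at a1 a2
      refine ⟨by rwa [div_lt_iff₀' (by linarith)], a2.imp (fun a => le_trans ?_ a) fun a => ?_⟩
      · exact le_mul_of_one_le_left (Nat.cast_nonneg m) hp1'
      · rwa [div_lt_iff₀' (by linarith)]
    · have b1 := TypeIIAux.sqrt_Z (η := η) hT0 (by linarith) (Nat.le_of_dvd (by omega) hp1) hQd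
      have b2 := TypeIIAux.sqrt_Z (η := η) hT0 (by linarith) (Nat.le_of_dvd (by omega) hp2) hQd
      have b3 := TypeIIAux.sqrt_M (η := η) hT0 hY
      have b4 := TypeIIAux.div_sqrt (η := η) hT hY (by linarith) hQ
      have b5 : Q₀ ^ (-(1 / 2) : ℝ) + √(Q₁ / (T ^ (θ + η) / p.1)) + √(Q₁ / (T ^ (θ + η) / p.2)) +
          √(T ^ (1 - η) / Y) + Q₁ / √Y ≤ 4 * (Q₀ ^ (-(1 / 2) : ℝ) + T ^ (-(η / 2))) := by linarith
      calc _ ≤ C * (L ^ 3) ^ 4 * (L ^ i * tau d ^ i * L ^ 2 ^ (2 * i)) *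
            (L ^ j * tau d ^ j * L ^ 2 ^ (2 * j)) * Y *
            (4 * (Q₀ ^ (-(1 / 2) : ℝ) + T ^ (-(η / 2)))) := by gcongr
        _ = 4 * C * (L ^ 3) ^ 4 * (L ^ i * tau d ^ i * L ^ 2 ^ (2 * i)) *
            (L ^ j * tau d ^ j * L ^ 2 ^ (2 * j)) * Y *
            (Q₀ ^ (-(1 / 2) : ℝ) + T ^ (-(η / 2))) := by ring
        _ ≤ _ := by gcongr
  · rw [nsmul_eq_mul, card_antidiag]
    have c1 : tau d ^ (i + j + 1) ≤ tau d ^ (13 + i + j + 2 ^ (2 * i) + 2 ^ (2 * j)) :=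
      pow_le_pow_right₀ ht (le_add_right (le_add_right (by omega)))
    calc _ = tau d ^ (i + j + 1) * Y * L ^ (13 + i + j + 2 ^ (2 * i) + 2 ^ (2 * j)) *
          (Q₀ ^ (-(1 / 2) : ℝ) + T ^ (-(η / 2))) := by ring
      _ ≤ _ := by gcongr

end Pool.Agent.P.MP_7eacff_nt.SZ
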