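import Pool.Agent.P.MP_7eacff_nt.SZ.Approx
import Pool.Agent.P.MP_7eacff_nt.SZ.Poly

/-!
Upper bounds for L functions near the line of real part one.
-/

open Complex Filter Topology MeasureTheory Set
open scoped Real ContDiff

namespace Pool.Agent.P.MP_7eacff_nt.SZ

open Pool.Agent.Lib.LargeSieve (primSet mem_primSet)

open DirichletCharacter

namespace UpperAux

theorem sum_rpow_le {e : ℝ} (h0 : 0 < e) (h1 : e ≤ 1) (N : ℕ) :
    ∑ n ∈ Finset.Icc 1 N, (n : ℝ) ^ (e - 1) ≤ (N : ℝ) ^ e / e := by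
  induction N with
  | zero => simp [h0.ne']
  | succ N ih =>
    have hN : (0 : ℝ) < N + 1 := by positivity
    have h := rpow_one_add_le_one_add_mul_self (s := -1 / (N + 1))
      (by rw [le_div_iff₀ hN]; linarith [Nat.cast_nonneg (α := ℝ) N]) h0.le h1
    rw [show 1 + -1 / ((N : ℝ) + 1) = N / (N + 1) by field_simp; ring,
      Real.div_rpow N.cast_nonneg hN.le, div_le_iff₀ (by positivity)] at h
    rw [Finset.sum_Icc_succ_top (by omega), Nat.cast_succ, Real.rpow_sub_one hN.ne']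
    refine (add_le_add_left ih _).trans ?_
    rw [← le_sub_iff_add_le, ← sub_nonneg, show ((N : ℝ) + 1) ^ e / e - (N + 1) ^ e / (N + 1) -
      N ^ e / e = ((1 + e * (-1 / (N + 1))) * (N + 1) ^ e - N ^ e) / e by field_simp; ring]
    exact div_nonneg (sub_nonneg.2 h) h0.le

theorem dp_le {e : ℝ} (h0 : 0 < e) (h1 : e ≤ 1) {c : ℕ → ℂ} (hc : ∀ n, ‖c n‖ ≤ 1) (N : ℕ) {s : ℂ}
    (hs : 1 - e ≤ s.re) : ‖dp c N s‖ ≤ (N : ℝ) ^ e / e := by
  refine (norm_sum_le _ _).trans ((Finset.sum_le_sum fun n hn => ?_).trans (sum_rpow_le h0 h1 N))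
  have hn := (Finset.mem_Icc.1 hn).1
  rw [norm_mul, norm_natCast_cpow_of_pos hn, neg_re]
  exact (mul_le_of_le_one_left (by positivity) (hc n)).trans
    (Real.rpow_le_rpow_of_exponent_le (by exact_mod_cast hn) (by linarith))

theorem two_rpow {e X Y : ℝ} (h0 : 0 < e) (h1 : e ≤ 1) (hX : 0 ≤ X) (h : X ≤ 2 * Y) :
    X ^ e ≤ 2 * Y ^ e := by
  have hY : 0 ≤ Y := by linarith
  refine (Real.rpow_le_rpow hX h h0.le).trans ?_
  rw [Real.mul_rpow zero_le_two hY]
  refine mul_le_mul_of_nonneg_right ?_ (by positivity)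
  simpa using Real.rpow_le_rpow_of_exponent_le one_le_two h1

theorem exists_N {e Q : ℝ} (h0 : 0 < e) (h1 : e ≤ 1 / 2) (hQ : 1 ≤ Q) {s : ℂ}
    (hs : 1 - e ≤ s.re) : ∃ N : ℕ, 1 ≤ N ∧ (N : ℝ) ^ e ≤ 2 * (Q * (2 + |s.im|)) ^ e ∧
      Q * (1 + ‖s‖ / s.re) * (N : ℝ) ^ (-s.re) ≤ 2 * (N : ℝ) ^ e := by
  have t0 := abs_nonneg s.im
  have hX : 1 ≤ Q * (2 + |s.im|) := one_le_mul_of_one_le_of_one_le hQ (by linarith)
  have hN := Nat.le_ceil (Q * (2 + |s.im|))
  have hN' := Nat.ceil_lt_add_one (zero_le_one.trans hX)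
  generalize ⌈Q * (2 + |s.im|)⌉₊ = N at hN hN'
  have hN1 : (1 : ℝ) ≤ N := hX.trans hN
  refine ⟨N, by exact_mod_cast hN1, two_rpow h0 (by linarith) N.cast_nonneg (by linarith), ?_⟩
  have hσ : 0 < s.re := by linarith
  have k1 : ‖s‖ / s.re ≤ 1 + 2 * |s.im| := by
    have := norm_le_abs_re_add_abs_im s
    rw [abs_of_pos hσ] at this
    rw [div_le_iff₀ hσ]
    nlinarith
  have k2 : (N : ℝ) ^ (-s.re) ≤ (N : ℝ) ^ e / N := by
    rw [← Real.rpow_sub_one (by linarith)]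
    exact Real.rpow_le_rpow_of_exponent_le hN1 (by linarith)
  have k3 : Q * (1 + ‖s‖ / s.re) ≤ 2 * N := by nlinarith
  refine (mul_le_mul k3 k2 (by positivity) (by positivity)).trans_eq ?_
  field_simp

theorem der {e ε K Q : ℝ} (h0 : 0 < e) (h1 : e ≤ 1 / 2) (he : e ≤ ε) (hK : 0 ≤ K) (hQ : 1 ≤ Q)
    {F : ℂ → ℂ} (hF : Differentiable ℂ F)
    (h : ∀ s : ℂ, 1 - e ≤ s.re → s.re ≤ 4 → ‖F s‖ ≤ K * (Q * (2 + |s.im|)) ^ e) {s : ℂ}
    (hs : 1 - e / 2 ≤ s.re) (hs' : s.re ≤ 3) :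
    ‖F s‖ ≤ (K + 2 * K / (e / 2) + 1) * (Q * (2 + |s.im|)) ^ ε ∧
      ‖deriv F s‖ ≤ (K + 2 * K / (e / 2) + 1) * (Q * (2 + |s.im|)) ^ ε := by
  have t0 := abs_nonneg s.im
  have hX : 1 ≤ Q * (2 + |s.im|) := one_le_mul_of_one_le_of_one_le hQ (by linarith)
  have k1 := Real.rpow_le_rpow_of_exponent_le hX he
  have k2 : 0 ≤ 2 * K / (e / 2) := by positivity
  refine ⟨(h s (by linarith) (by linarith)).trans
    (mul_le_mul (by linarith) k1 (by positivity) (by positivity)), ?_⟩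
  refine (norm_deriv_le_of_forall_mem_sphere_norm_le (C := 2 * K * (Q * (2 + |s.im|)) ^ e)
    (half_pos h0) hF.diffContOnCl fun z hz => ?_).trans ?_
  · rw [mem_sphere_iff_norm] at hz
    have a1 := abs_le.1 ((abs_re_le_norm (z - s)).trans hz.le)
    have a2 := (abs_im_le_norm (z - s)).trans hz.le
    rw [sub_re] at a1
    rw [sub_im] at a2
    have a3 := abs_sub_abs_le_abs_sub z.im s.im
    refine (h z (by linarith) (by linarith)).trans ?_
    rw [mul_comm 2 K, mul_assoc]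
    exact mul_le_mul_of_nonneg_left (two_rpow h0 (by linarith) (by positivity) (by nlinarith)) hK
  · rw [mul_div_right_comm]
    exact mul_le_mul (by linarith) k1 (by positivity) (by positivity)

theorem L_le {e : ℝ} (h0 : 0 < e) (h1 : e ≤ 1 / 2) {q : ℕ} [NeZero q]
    {χ : DirichletCharacter ℂ q} (hχ : χ ≠ 1) {s : ℂ} (hs : 1 - e ≤ s.re) :
    ‖LFunction χ s‖ ≤ (2 + 1 / e) * 2 * (q * (2 + |s.im|)) ^ e := by
  obtain ⟨N, hN, k1, k2⟩ := exists_N h0 h1 (Nat.one_le_cast.2 (NeZero.pos q)) hs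
  have k3 := (L_approx hχ (by linarith) hN).trans k2
  have k4 := dp_le h0 (by linarith) (fun n : ℕ => χ.norm_le_one n) N hs
  have k5 := norm_le_norm_sub_add (LFunction χ s) (dp (fun n => χ n) N s)
  rw [mul_assoc]
  refine le_trans ?_ (mul_le_mul_of_nonneg_left k1 (by positivity))
  rw [add_mul, one_div_mul_eq_div]
  linarith

theorem zeta_le {e : ℝ} (h0 : 0 < e) (h1 : e ≤ 1 / 2) : ∃ K : ℝ, 0 ≤ K ∧ ∀ s : ℂ, 1 - e ≤ s.re →
    s.re ≤ 4 → ‖riemannZeta₀ s‖ ≤ K * (1 * (2 + |s.im|)) ^ e := by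
  obtain ⟨K, hK⟩ := (isCompact_closedBall (0 : ℂ) 5).exists_bound_of_continuousOn
    differentiable_riemannZeta₀.continuous.continuousOn
  refine ⟨|K| + (4 + 1 / e) * 2, by positivity, fun s hs hs' => ?_⟩
  have t0 := abs_nonneg s.im
  have p1 : 1 ≤ (1 * (2 + |s.im|)) ^ e := Real.one_le_rpow (by linarith) h0.le
  rw [add_mul]
  rcases le_total |s.im| 1 with ht | ht
  · have := norm_le_abs_re_add_abs_im s
    rw [abs_of_pos (by linarith : 0 < s.re)] at this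
    exact ((hK s (mem_closedBall_zero_iff.2 (by linarith))).trans ((le_abs_self K).trans
      (le_mul_of_one_le_right (abs_nonneg K) p1))).trans (le_add_of_nonneg_right (by positivity))
  · have n1 : 1 ≤ ‖s - 1‖ := ht.trans (by simpa using abs_im_le_norm (s - 1))
    have s1 : s ≠ 1 := fun h => by rw [h, sub_self, norm_zero] at n1; linarith
    obtain ⟨N, hN, k1, k2⟩ := exists_N h0 h1 le_rfl hs
    have hN1 : (1 : ℝ) ≤ N := by exact_mod_cast hN
    rw [one_mul] at k2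
    have k3 := (zeta_approx (by linarith) s1 hN).trans k2
    have k4 := dp_le h0 (by linarith) (c := fun _ => 1) (fun _ => norm_one.le) N hs
    have k5 : ‖(N : ℂ) ^ (1 - s) / (s - 1)‖ ≤ (N : ℝ) ^ e := by
      rw [norm_div, norm_natCast_cpow_of_pos hN, sub_re, one_re]
      exact (div_le_self (by positivity) n1).trans
        (Real.rpow_le_rpow_of_exponent_le hN1 (by linarith))
    have k6 : ‖(s - 1)⁻¹‖ ≤ (N : ℝ) ^ e := by
      rw [norm_inv]
      exact (inv_le_one_of_one_le₀ n1).trans (Real.one_le_rpow hN1 h0.le)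
    have e1 : riemannZeta₀ s = riemannZeta s - dp (fun _ => 1) N s - (N : ℂ) ^ (1 - s) / (s - 1) +
        dp (fun _ => 1) N s + (N : ℂ) ^ (1 - s) / (s - 1) - (s - 1)⁻¹ := by
      rw [riemannZeta_eq_inv_sub_add s1]; ring
    refine le_trans ?_ (le_add_of_nonneg_left (by positivity))
    rw [mul_assoc, e1]
    refine le_trans ?_ (mul_le_mul_of_nonneg_left k1 (by positivity))
    refine (norm_sub_le_of_le (norm_add_le_of_le (norm_add_le_of_le k3 k4) k5) k6).trans_eq ?_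
    ring

theorem prod_le {q : ℕ} (hq : q ≠ 0) :
    ∏ p ∈ q.primeFactors, (1 + (p : ℝ)⁻¹) ≤ 1 + Real.log q := by
  have h := harmonic_le_one_add_log q
  rw [harmonic_eq_sum_Icc] at h
  push_cast at h
  refine le_trans ?_ h
  have hp : ∀ t ∈ q.primeFactors.powerset, ∀ p ∈ t, p.Prime := fun t ht p hp =>
    Nat.prime_of_mem_primeFactors (Finset.mem_powerset.1 ht hp)
  rw [Finset.prod_one_add]
  rw [Finset.sum_congr rfl fun (t : Finset ℕ) _ => (show ∏ p ∈ t, (p : ℝ)⁻¹ =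
    ((∏ p ∈ t, p : ℕ) : ℝ)⁻¹ by simp), ← Finset.sum_image (f := fun n : ℕ => (n : ℝ)⁻¹)
    (g := fun t : Finset ℕ => ∏ p ∈ t, p)
    fun t ht u hu e => by rw [← Nat.primeFactors_prod (hp t ht), ← Nat.primeFactors_prod (hp u hu)]
                          exact congrArg _ e]
  refine Finset.sum_le_sum_of_subset_of_nonneg (fun n hn => ?_) fun _ _ _ => by positivity
  obtain ⟨t, ht, rfl⟩ := Finset.mem_image.1 hn
  have hd := (Finset.prod_dvd_prod_of_subset _ _ (fun p : ℕ => p) (Finset.mem_powerset.1 ht)).trans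
    (Nat.prod_primeFactors_dvd q)
  exact Finset.mem_Icc.2 ⟨Nat.pos_of_dvd_of_pos hd (Nat.pos_of_ne_zero hq),
    Nat.le_of_dvd (Nat.pos_of_ne_zero hq) hd⟩

end UpperAux

theorem L_upper {ε : ℝ} (hε : 0 < ε) : ∃ δ C : ℝ, 0 < δ ∧ 0 < C ∧ ∀ (q : ℕ) [NeZero q]
    (χ : DirichletCharacter ℂ q), χ ≠ 1 → ∀ s : ℂ, 1 - δ ≤ s.re → s.re ≤ 3 →
      ‖LFunction χ s‖ ≤ C * (q * (2 + |s.im|)) ^ ε ∧
      ‖deriv (LFunction χ) s‖ ≤ C * (q * (2 + |s.im|)) ^ ε := by
  have h0 : 0 < min ε (1 / 2) := lt_min hε one_half_pos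
  exact ⟨_, _, half_pos h0, by positivity, fun q _ χ hχ s hs hs' =>
    UpperAux.der h0 (min_le_right _ _) (min_le_left _ _) (by positivity)
      (Nat.one_le_cast.2 (NeZero.pos q)) (differentiable_LFunction hχ)
      (fun s hs _ => UpperAux.L_le h0 (min_le_right _ _) hχ hs) hs hs'⟩

theorem zeta₀_upper {ε : ℝ} (hε : 0 < ε) : ∃ δ C : ℝ, 0 < δ ∧ 0 < C ∧ ∀ s : ℂ, 1 - δ ≤ s.re →
    s.re ≤ 3 → ‖riemannZeta₀ s‖ ≤ C * (2 + |s.im|) ^ ε ∧
      ‖deriv riemannZeta₀ s‖ ≤ C * (2 + |s.im|) ^ ε := by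
  have h0 : 0 < min ε (1 / 2) := lt_min hε one_half_pos
  obtain ⟨K, hK, h⟩ := UpperAux.zeta_le h0 (min_le_right _ _)
  refine ⟨_, K + 2 * K / (min ε (1 / 2) / 2) + 1, half_pos h0, by positivity, fun s hs hs' => ?_⟩
  simpa only [one_mul] using UpperAux.der h0 (min_le_right _ _) (min_le_left _ _) hK le_rfl
    differentiable_riemannZeta₀ h hs hs'

theorem L_disc {q : ℕ} [NeZero q] {χ : DirichletCharacter ℂ q} (hχ : χ ≠ 1) {s : ℂ}
    (hs : ‖s - 2‖ ≤ 3 / 2) : ‖LFunction χ s‖ ≤ 9 * q := by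
  have a1 := abs_le.1 ((abs_re_le_norm (s - 2)).trans hs)
  rw [sub_re, re_ofNat] at a1
  have a2 := norm_le_norm_sub_add s 2
  rw [Complex.norm_ofNat] at a2
  have hσ : 0 < s.re := by linarith
  have k1 := L_approx hχ hσ le_rfl
  have k2 : ‖s‖ / s.re ≤ 7 := by rw [div_le_iff₀ hσ]; linarith
  have k3 := norm_le_norm_sub_add (LFunction χ s) 1
  have hq : (1 : ℝ) ≤ q := Nat.one_le_cast.2 (NeZero.pos q)
  simp only [dp, Finset.Icc_self, Finset.sum_singleton, Nat.cast_one, map_one, one_cpow, mul_one,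
    Real.one_rpow] at k1
  rw [norm_one] at k3
  nlinarith

theorem zeta_re_neg {σ : ℝ} (h1 : 7 / 8 ≤ σ) (h2 : σ < 1) :
    (riemannZeta σ).re < 0 ∧ (riemannZeta σ).im = 0 := by
  refine ⟨?_, conj_eq_iff_im.1 (by rw [← riemannZeta_conj, conj_ofReal])⟩
  have hσ : 0 < σ := by linarith
  have k1 := (re_le_norm _).trans (zeta_approx (s := σ) hσ (by exact_mod_cast h2.ne) le_rfl)
  simp only [dp, Finset.Icc_self, Finset.sum_singleton, Nat.cast_one, one_cpow, mul_one,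
    Real.one_rpow, norm_real, ofReal_re, Real.norm_of_nonneg hσ.le, div_self hσ.ne', sub_re,
    one_re] at k1
  rw [show (1 / ((σ : ℂ) - 1)) = ((1 / (σ - 1) : ℝ) : ℂ) by push_cast; rfl, ofReal_re] at k1
  have k2 : 1 / (σ - 1) ≤ -8 := by rw [div_le_iff_of_neg (by linarith)]; linarith
  linarith

theorem L_im_eq_zero {q : ℕ} [NeZero q] {χ : DirichletCharacter ℂ q} (hχ : χ ≠ 1)
    (h2 : χ ^ 2 = 1) {σ : ℝ} (hσ : 0 < σ) : (LFunction χ σ).im = 0 := by
  have hc : ∀ n : ℕ, (χ n).im = 0 := fun n => by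
    rcases MulChar.isQuadratic_iff_sq_eq_one.2 h2 n with e | e | e <;> simp [e]
  have lim : Tendsto (fun N : ℕ => q * (1 + ‖(σ : ℂ)‖ / (σ : ℂ).re) * (N : ℝ) ^ (-(σ : ℂ).re))
      atTop (𝓝 0) := by
    simpa using ((tendsto_rpow_neg_atTop hσ).comp tendsto_natCast_atTop_atTop).const_mul
      (q * (1 + ‖(σ : ℂ)‖ / (σ : ℂ).re))
  refine abs_nonpos_iff.1 (ge_of_tendsto lim ((eventually_ge_atTop 1).mono fun N hN => ?_))
  refine le_trans ?_ ((abs_im_le_norm _).trans (L_approx hχ (s := σ) hσ hN))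
  rw [sub_im, conj_eq_iff_im.1 (show _ = dp _ N σ by rw [← dp_conj hc, conj_ofReal]), sub_zero]

theorem L_triv_le {q : ℕ} [NeZero q] {s : ℂ} (hs : 1 < s.re) :
    ‖LFunctionTrivChar q s‖ ≤ (1 + Real.log q) * ‖riemannZeta s‖ := by
  rw [LFunctionTrivChar_eq_mul_riemannZeta (fun h => by simp [h] at hs), norm_mul, norm_prod]
  refine mul_le_mul_of_nonneg_right ((Finset.prod_le_prod (fun _ _ => norm_nonneg _)
    fun p hp => ?_).trans (UpperAux.prod_le (NeZero.ne q))) (norm_nonneg _)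
  have hp := (Nat.prime_of_mem_primeFactors hp).pos
  refine norm_sub_le_of_le norm_one.le ?_
  rw [norm_natCast_cpow_of_pos hp, neg_re, ← Real.rpow_neg_one]
  exact Real.rpow_le_rpow_of_exponent_le (by exact_mod_cast hp) (by linarith)

theorem L_triv_le_real {q : ℕ} [NeZero q] {x : ℝ} (hx : 0 < x) (hx1 : x ≤ 1) :
    ‖LFunctionTrivChar q (1 + x)‖ ≤ 2 / x := by
  have hs : 1 < 1 + x := by linarith
  have k1 := ZetaAsymptotics.zeta_limit_aux1 hs
  have k2 : 0 ≤ (1 + x) * ZetaAsymptotics.termTSum (1 + x) :=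
    mul_nonneg (by linarith) (tsum_nonneg fun _ => ZetaAsymptotics.term_nonneg _ _)
  have k3 : riemannZeta (1 + x : ℝ) = (∑' n : ℕ, 1 / (n + 1 : ℝ) ^ (1 + x) : ℝ) := by
    rw [zeta_eq_tsum_one_div_nat_add_one_cpow (by simpa using hx), ofReal_tsum]
    refine tsum_congr fun n => ?_
    rw [ofReal_div, ofReal_cpow (by positivity)]
    simp
  have k4 : 1 ≤ 1 / x := one_le_one_div hx hx1
  rw [add_sub_cancel_left] at k1
  rw [show (1 + x : ℂ) = (1 + x : ℝ) by simp,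
    LFunctionTrivChar_eq_mul_riemannZeta (by exact_mod_cast hs.ne'), norm_mul, norm_prod, k3,
    norm_real, Real.norm_of_nonneg (tsum_nonneg fun _ => by positivity)]
  refine (mul_le_of_le_one_left (tsum_nonneg fun _ => by positivity) (Finset.prod_le_one
    (fun _ _ => norm_nonneg _) fun p hp => ?_)).trans (by rw [show 2 / x = 1 / x + 1 / x by ring]
                                                          linarith)
  have hp : (1 : ℝ) ≤ p := by exact_mod_cast (Nat.prime_of_mem_primeFactors hp).pos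
  have a1 := Real.rpow_le_one_of_one_le_of_nonpos hp (by linarith : -(1 + x) ≤ 0)
  have a2 := Real.rpow_nonneg p.cast_nonneg (-(1 + x))
  rw [← ofReal_neg, ← ofReal_natCast, ← ofReal_cpow p.cast_nonneg, ← ofReal_one, ← ofReal_sub,
    norm_real, Real.norm_of_nonneg (by linarith)]
  linarith

end Pool.Agent.P.MP_7eacff_nt.SZ
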