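import Pool.Agent.P.MP_7eacff_nt.SZ.Basic

/-!
Weights built from Schwartz functions.
-/

open Complex Filter Topology MeasureTheory Set
open scoped Real ContDiff

namespace Pool.Agent.P.MP_7eacff_nt.SZ

open Pool.Agent.Lib.LargeSieve (primSet mem_primSet)

namespace VSchAux

open Asymptotics

/-- The weight. -/
noncomputable def Vf (a : ℕ) (G : SchwartzMap ℝ ℂ) (x : ℝ) : ℂ :=
  (Real.log x : ℂ) ^ a * (x : ℂ) ^ 2 * G x

/-- The function `2 G + x G'`. -/
noncomputable def nx (G : SchwartzMap ℝ ℂ) : SchwartzMap ℝ ℂ :=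
  (2 : ℂ) • G + SchwartzMap.smulLeftCLM ℂ (fun x : ℝ => x) (SchwartzMap.derivCLM ℝ ℂ G)

theorem nx_apply (G : SchwartzMap ℝ ℂ) (x : ℝ) : nx G x = 2 * G x + x * deriv G x := by
  rw [nx, SchwartzMap.add_apply, SchwartzMap.smul_apply,
    SchwartzMap.smulLeftCLM_apply_apply Function.HasTemperateGrowth.id',
    SchwartzMap.derivCLM_apply, smul_eq_mul, real_smul]

theorem log_pow_le (a : ℕ) {x : ℝ} (hx : 0 < x) :
    |Real.log x| ^ a * x ≤ a.factorial * (1 + x) ^ 2 := by
  have h := Real.pow_div_factorial_le_exp _ (abs_nonneg (Real.log x)) a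
  have hf : (0 : ℝ) < a.factorial := by positivity
  have h2 : Real.exp |Real.log x| * x ≤ (1 + x) ^ 2 := by
    rcases abs_choice (Real.log x) with e | e <;> rw [e]
    · rw [Real.exp_log hx]; nlinarith
    · rw [Real.exp_neg, Real.exp_log hx, inv_mul_cancel₀ hx.ne']; nlinarith
  rw [div_le_iff₀ hf] at h
  nlinarith [mul_le_mul_of_nonneg_right h hx.le, mul_le_mul_of_nonneg_left h2 hf.le]

theorem bound (a : ℕ) (G : SchwartzMap ℝ ℂ) :
    ∃ C : ℝ, 0 ≤ C ∧ ∀ x, 0 < x → ‖Vf a G x‖ ≤ C * (x / (1 + x) ^ 5) := by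
  obtain ⟨C, hC⟩ : ∃ C : ℝ, ∀ x : ℝ, (1 + ‖x‖) ^ 7 * ‖iteratedFDeriv ℝ 0 G x‖ ≤ C :=
    ⟨_, SchwartzMap.one_add_le_sup_seminorm_apply (𝕜 := ℝ) (m := (7, 0)) le_rfl le_rfl G⟩
  refine ⟨a.factorial * |C|, by positivity, fun x hx => ?_⟩
  have h1 := (hC x).trans (le_abs_self C)
  rw [norm_iteratedFDeriv_zero, Real.norm_of_nonneg hx.le] at h1
  have h2 := mul_le_mul (log_pow_le a hx) h1 (by positivity) (by positivity)
  rw [Vf, norm_mul, norm_mul, norm_pow, norm_pow, norm_real, norm_real, Real.norm_of_nonneg hx.le,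
    Real.norm_eq_abs, ← mul_div_assoc, le_div_iff₀ (by positivity)]
  refine le_of_mul_le_mul_right ?_ (by positivity : 0 < (1 + x) ^ 2)
  nlinarith [mul_le_mul_of_nonneg_right h2 hx.le]

theorem hasDerivAt (a : ℕ) (G : SchwartzMap ℝ ℂ) {x : ℝ} (hx : 0 < x) :
    HasDerivAt (Vf a G) ((a * Vf (a - 1) G x + Vf a (nx G) x) / x) x := by
  have h := ((((Real.hasDerivAt_log hx.ne').ofReal_comp.pow a).mul
    ((hasDerivAt_id x).ofReal_comp.pow 2)).mul (G.hasDerivAt x))
  have hx' : (x : ℂ) ≠ 0 := ofReal_ne_zero.2 hx.ne'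
  refine h.congr_deriv ?_
  simp only [Vf, nx_apply, Pi.mul_apply, Pi.pow_apply, id, ofReal_inv, ofReal_one]
  field_simp
  ring

theorem loc (a : ℕ) (G : SchwartzMap ℝ ℂ) : LocallyIntegrableOn (Vf a G) (Ioi 0) :=
  ContinuousOn.locallyIntegrableOn
    (fun _ hx => (hasDerivAt a G hx).continuousAt.continuousWithinAt) measurableSet_Ioi

theorem top (a : ℕ) (G : SchwartzMap ℝ ℂ) : Vf a G =O[atTop] (· ^ (-(4 : ℝ))) := by
  obtain ⟨C, hC, h⟩ := bound a G
  refine IsBigO.of_bound C ((eventually_gt_atTop 0).mono fun x hx => (h x hx).trans ?_)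
  rw [Real.norm_of_nonneg (by positivity), Real.rpow_neg hx.le, Real.rpow_ofNat]
  refine mul_le_mul_of_nonneg_left ?_ hC
  rw [inv_eq_one_div, div_le_div_iff₀ (by positivity) (by positivity), one_mul, ← pow_succ']
  exact pow_le_pow_left₀ hx.le (by linarith) _

theorem bot (a : ℕ) (G : SchwartzMap ℝ ℂ) : Vf a G =O[𝓝[>] 0] (· ^ (-(-1 : ℝ))) := by
  obtain ⟨C, hC, h⟩ := bound a G
  refine IsBigO.of_bound C (eventually_nhdsWithin_of_forall fun x hx => (h x hx).trans ?_)
  have hx : 0 < x := hx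
  rw [neg_neg, Real.rpow_one, Real.norm_of_nonneg hx.le]
  exact mul_le_mul_of_nonneg_left (div_le_self hx.le (one_le_pow₀ (by linarith))) hC

theorem conv (a : ℕ) (G : SchwartzMap ℝ ℂ) {s : ℂ} (h0 : 0 ≤ s.re) (h2 : s.re ≤ 2) :
    MellinConvergent (Vf a G) s :=
  mellinConvergent_of_isBigO_rpow (loc a G) (top a G) (by linarith) (bot a G) (by linarith)

theorem cont (a : ℕ) (G : SchwartzMap ℝ ℂ) {s : ℂ} (h0 : 0 ≤ s.re) (h2 : s.re ≤ 2) :
    ContinuousAt (mellin (Vf a G)) s :=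
  (mellin_differentiableAt_of_isBigO_rpow (loc a G) (top a G) (by linarith) (bot a G)
    (by linarith)).continuousAt

theorem cpow_bound (a : ℕ) (G : SchwartzMap ℝ ℂ) : ∃ C : ℝ, 0 ≤ C ∧ ∀ s : ℂ, 0 ≤ s.re →
    s.re ≤ 2 → ∀ x : ℝ, 0 < x → ‖(x : ℂ) ^ s * Vf a G x‖ ≤ C * (x / (1 + x) ^ 3) := by
  obtain ⟨C, hC, h⟩ := bound a G
  refine ⟨C, hC, fun s h0 h2 x hx => ?_⟩
  have h1 : x ^ s.re ≤ (1 + x) ^ 2 := by
    rw [← Real.rpow_two]
    exact (Real.rpow_le_rpow hx.le (by linarith) h0).trans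
      (Real.rpow_le_rpow_of_exponent_le (by linarith) h2)
  rw [norm_mul, norm_cpow_eq_rpow_re_of_pos hx]
  refine (mul_le_mul h1 (h x hx) (norm_nonneg _) (by positivity)).trans_eq ?_
  field_simp

theorem dec_zero (a : ℕ) (G : SchwartzMap ℝ ℂ) :
    ∃ C : ℝ, ∀ s : ℂ, 0 ≤ s.re → s.re ≤ 2 → ‖mellin (Vf a G) s‖ ≤ C := by
  obtain ⟨C, hC, h⟩ := cpow_bound a G
  refine ⟨∫ x in Ioi (0 : ℝ), C * (1 + x ^ 2)⁻¹, fun s h0 h2 => norm_integral_le_of_norm_le
    (integrable_inv_one_add_sq.const_mul C).integrableOn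
    (ae_restrict_of_forall_mem measurableSet_Ioi fun x hx => ?_)⟩
  have hx : 0 < x := hx
  have h1 := h s h0 h2 x hx
  rw [smul_eq_mul, cpow_sub _ _ (ofReal_ne_zero.2 hx.ne'), cpow_one, div_mul_eq_mul_div, norm_div,
    norm_real, Real.norm_of_nonneg hx.le, div_le_iff₀ hx, mul_assoc]
  refine h1.trans (mul_le_mul_of_nonneg_left ?_ hC)
  rw [inv_mul_eq_div]
  exact div_le_div_of_nonneg_left hx.le (by positivity) (by nlinarith [pow_pos hx 3])

theorem parts (a : ℕ) (G : SchwartzMap ℝ ℂ) {s : ℂ} (h0 : 0 ≤ s.re) (h2 : s.re ≤ 2) :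
    s * mellin (Vf a G) s = -(a * mellin (Vf (a - 1) G) s + mellin (Vf a (nx G)) s) := by
  obtain ⟨C, hC, h⟩ := cpow_bound a G
  have i1 := Integrable.const_mul (conv a G h0 h2) s
  have i2 := Integrable.const_mul (conv (a - 1) G h0 h2) (a : ℂ)
  have i3 : Integrable _ _ := conv a (nx G) h0 h2
  have key := integral_Ioi_of_hasDerivAt_of_tendsto (f := fun x : ℝ => (x : ℂ) ^ s * Vf a G x)
    (a := 0) (m := 0) ?_ (fun x hx => ?_) (i1.add (i2.add i3)) ?_
  · rw [integral_add' i1 (i2.add i3), integral_add' i2 i3, integral_const_mul, integral_const_mul,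
      show ((0 : ℝ) : ℂ) ^ s * Vf a G 0 = 0 by simp [Vf]] at key
    rw [eq_neg_iff_add_eq_zero]
    simpa [mellin] using key
  · rw [← continuousWithinAt_Ioi_iff_Ici, ContinuousWithinAt,
      show ((0 : ℝ) : ℂ) ^ s * Vf a G 0 = 0 by simp [Vf]]
    refine squeeze_zero_norm' (eventually_nhdsWithin_of_forall fun x hx => h s h0 h2 x hx)
      (tendsto_nhdsWithin_of_tendsto_nhds ?_)
    have hc : ContinuousAt (fun x : ℝ => C * (x / (1 + x) ^ 3)) 0 := by fun_prop (disch := simp)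
    simpa using hc.tendsto
  · have hx : 0 < x := hx
    have hx' : (x : ℂ) ≠ 0 := ofReal_ne_zero.2 hx.ne'
    refine (((hasStrictDerivAt_cpow_const (ofReal_mem_slitPlane.2 hx)).hasDerivAt.comp_ofReal).mul
      (hasDerivAt a G hx)).congr_deriv ?_
    simp only [Pi.add_apply, smul_eq_mul, cpow_sub _ _ hx', cpow_one]
    field_simp
  · refine squeeze_zero_norm' ((eventually_gt_atTop 0).mono fun x hx => (h s h0 h2 x hx).trans
      (mul_le_mul_of_nonneg_left (?_ : _ ≤ x⁻¹) hC)) ?_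
    · rw [inv_eq_one_div, div_le_div_iff₀ (by positivity) hx]
      nlinarith [pow_pos hx 3]
    · simpa using tendsto_inv_atTop_zero.const_mul C

theorem dec (A : ℕ) : ∀ (a : ℕ) (G : SchwartzMap ℝ ℂ), Dec (mellin (Vf a G)) 0 2 A := by
  induction A with
  | zero => exact fun a G => (dec_zero a G).imp fun C h s h0 h2 => by simpa using h s h0 h2
  | succ A ih =>
    intro a G
    obtain ⟨C1, h1⟩ := ih a G
    obtain ⟨C2, h2⟩ := ih (a - 1) G
    obtain ⟨C3, h3⟩ := ih a (nx G)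
    refine ⟨C1 + (a * C2 + C3), fun s p0 p2 => ?_⟩
    have e := congrArg norm (parts a G p0 p2)
    rw [norm_mul, norm_neg] at e
    have k1 := norm_add_le (a * mellin (Vf (a - 1) G) s) (mellin (Vf a (nx G)) s)
    rw [norm_mul, Complex.norm_natCast] at k1
    have k2 := mul_le_mul_of_nonneg_right (abs_im_le_norm s) (norm_nonneg (mellin (Vf a G) s))
    have k3 := mul_le_mul_of_nonneg_left (h2 s p0 p2) (Nat.cast_nonneg a)
    rw [pow_succ, ← div_div, le_div_iff₀ (by positivity), add_div, add_div, mul_div_assoc]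
    linarith [h1 s p0 p2, h3 s p0 p2]

end VSchAux

open VSchAux in
theorem vcl_schwartz (G : SchwartzMap ℝ ℂ) (a : ℕ) :
    Vcl (fun x => (Real.log x : ℂ) ^ a * (x : ℂ) ^ 2 * G x)
      (mellin fun x => (Real.log x : ℂ) ^ a * (x : ℂ) ^ 2 * G x) := by
  change Vcl (Vf a G) (mellin (Vf a G))
  refine ⟨fun x hx => (hasDerivAt a G hx).differentiableAt, ?_,
    fun s hs => (cont a G hs.1 hs.2).continuousWithinAt, fun A => dec A a G, fun σ h0 h2 x hx => ?_⟩
  · obtain ⟨C1, p1, h1⟩ := bound a G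
    obtain ⟨C2, p2, h2⟩ := bound (a - 1) G
    obtain ⟨C3, p3, h3⟩ := bound a (nx G)
    refine ⟨C1 + (a * C2 + C3), by positivity, fun x hx => ⟨(h1 x hx).trans ?_, ?_⟩⟩
    · rw [div_eq_mul_one_div (C1 + _)]
      refine mul_le_mul (le_add_of_nonneg_right (by positivity)) ?_ (by positivity) (by positivity)
      rw [div_le_div_iff₀ (by positivity) (by positivity), one_mul]
      exact (mul_le_mul_of_nonneg_right (by linarith : x ≤ 1 + x) (by positivity)).trans
        ((pow_succ' _ _).symm.trans_le (pow_le_pow_right₀ (by linarith) (by norm_num)))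
    · have k1 := norm_add_le (a * Vf (a - 1) G x) (Vf a (nx G) x)
      rw [norm_mul, Complex.norm_natCast] at k1
      have k2 := mul_le_mul_of_nonneg_left (h2 x hx) (Nat.cast_nonneg a)
      have k3 : x / (1 + x) ^ 5 ≤ x / (1 + x) ^ 3 := div_le_div_of_nonneg_left hx.le
        (by positivity) (pow_le_pow_right₀ (by linarith) (by norm_num))
      have k4 := mul_le_mul (le_add_of_nonneg_left p1 : a * C2 + C3 ≤ _) k3 (by positivity)
        (by positivity)
      rw [(hasDerivAt a G hx).deriv, norm_div, norm_real, Real.norm_of_nonneg hx.le,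
        div_le_iff₀ hx, div_mul_eq_mul_div, mul_div_assoc]
      linarith [h3 x hx]
  · obtain ⟨C, hC⟩ := dec 2 a G
    have hc : Continuous fun t : ℝ => mellin (Vf a G) (σ + t * I) :=
      continuous_iff_continuousAt.2 fun t => ContinuousAt.comp (f := fun t : ℝ => (σ + t * I : ℂ))
        (cont a G (by simpa using h0) (by simpa using h2)) (by fun_prop)
    have hi : VerticalIntegrable (mellin (Vf a G)) σ :=
      (integrable_inv_one_add_sq.const_mul |C|).mono' hc.aestronglyMeasurable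
        (Eventually.of_forall fun t => by
          refine (hC _ (by simpa using h0) (by simpa using h2)).trans ?_
          rw [show (σ + t * I : ℂ).im = t by simp, ← div_eq_mul_inv]
          exact div_le_div₀ (abs_nonneg C) (le_abs_self C) (by positivity)
            (by nlinarith [sq_abs t, abs_nonneg t]))
    rw [← mellinInv_mellin_eq σ _ hx (conv a G (by simpa using h0) (by simpa using h2)) hi
      (hasDerivAt a G hx).continuousAt, mellinInv]
    simp only [smul_eq_mul, mul_comm, real_smul]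
    push_cast
    ring

end Pool.Agent.P.MP_7eacff_nt.SZ
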