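import Pool.Agent.P.MP_7eacff_nt.SZ.Gam
import Pool.Agent.P.MP_7eacff_nt.SZ.Approx

/-!
Polynomial growth of zeta and its derivative.
-/

open Complex Filter Topology MeasureTheory Set
open scoped Real ContDiff

namespace Pool.Agent.P.MP_7eacff_nt.SZ

open Pool.Agent.Lib.LargeSieve (primSet mem_primSet)

namespace ZGrowAux

theorem zeta1_eq {s : ℂ} (hs : s ≠ 1) : riemannZeta₁ s = (s - 1) * riemannZeta s := by
  have h := sub_ne_zero_of_ne hs
  rw [riemannZeta_eq_inv_sub_mul hs]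
  field_simp

theorem zeta1_conj (s : ℂ) :
    riemannZeta₁ ((starRingEnd ℂ) s) = (starRingEnd ℂ) (riemannZeta₁ s) := by
  by_cases hs : s = 1
  · simp [hs]
  · have hs' : (starRingEnd ℂ) s ≠ 1 := fun h => hs (by simpa using congrArg (starRingEnd ℂ) h)
    rw [zeta1_eq hs, zeta1_eq hs', riemannZeta_conj]
    simp

theorem differentiable_deriv_zeta1 : Differentiable ℂ (deriv riemannZeta₁) := fun s =>
  (differentiable_riemannZeta₁.analyticAt s).deriv.differentiableAt

theorem norm_le_abs (s : ℂ) {c : ℝ} (h : |s.re| ≤ c) : ‖s‖ ≤ c + |s.im| :=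
  (norm_le_abs_re_add_abs_im s).trans (by linarith)

theorem right_bound {s : ℂ} (h1 : 1 / 2 ≤ s.re) (h2 : s.re ≤ 2) :
    ‖riemannZeta₁ s‖ ≤ 7 * (1 + |s.im|) ^ 2 := by
  have ht : 0 ≤ |s.im| := abs_nonneg _
  by_cases hs : s = 1
  · subst hs
    simp
  have h0 : 0 < s.re := by linarith
  have ha := zeta_approx h0 hs (N := 1) le_rfl
  have e1 : dp (fun _ => 1) 1 s = 1 := by simp [dp]
  rw [e1] at ha
  simp only [Nat.cast_one, one_cpow, Real.one_rpow, mul_one] at ha
  have hn : ‖s‖ ≤ 2 + |s.im| := norm_le_abs s (abs_le.2 ⟨by linarith, h2⟩)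
  have hn1 : ‖s - 1‖ ≤ 1 + |s.im| := by
    have := norm_le_abs (s - 1) (c := 1) (by
      simp only [sub_re, one_re]
      exact abs_le.2 ⟨by linarith, by linarith⟩)
    simpa using this
  have hq : ‖s‖ / s.re ≤ 2 * (2 + |s.im|) := by
    rw [div_le_iff₀ h0]
    nlinarith [norm_nonneg s]
  have hne := sub_ne_zero_of_ne hs
  have e2 : riemannZeta₁ s = (s - 1) * ((riemannZeta s - 1 - 1 / (s - 1)) + 1) + 1 := by
    rw [zeta1_eq hs]
    field_simp
    ring
  have hE : ‖(riemannZeta s - 1 - 1 / (s - 1)) + 1‖ ≤ 6 * (1 + |s.im|) := by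
    refine (norm_add_le _ _).trans ?_
    rw [norm_one]
    linarith
  rw [e2]
  refine (norm_add_le _ _).trans ?_
  rw [norm_mul, norm_one]
  have := mul_le_mul hn1 hE (norm_nonneg _) (by linarith)
  nlinarith

theorem compact_bound : ∃ M : ℝ, 0 ≤ M ∧ ∀ s : ℂ, ‖s‖ ≤ 3 → ‖riemannZeta₁ s‖ ≤ M := by
  obtain ⟨M, hM⟩ := (isCompact_closedBall (0 : ℂ) 3).exists_bound_of_continuousOn
    differentiable_riemannZeta₁.continuous.continuousOn
  refine ⟨max M 0, le_max_right _ _, fun s hs => (hM s ?_).trans (le_max_left _ _)⟩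
  simpa using hs

end ZGrowAux

open ZGrowAux

theorem differentiable_Z2 : Differentiable ℂ Z2 := by
  unfold Z2
  exact ((differentiable_id.sub_const 1).mul differentiable_deriv_zeta1).sub
    differentiable_riemannZeta₁

theorem Z2_eq {s : ℂ} (hs : s ≠ 1) : Z2 s = (s - 1) ^ 2 * deriv riemannZeta s := by
  have h := sub_ne_zero_of_ne hs
  rw [deriv_riemannZeta_eq_neg_inv_sub_sq_mul_add hs, Z2]
  field_simp
  ring

theorem Z2_conj (s : ℂ) : Z2 ((starRingEnd ℂ) s) = (starRingEnd ℂ) (Z2 s) := by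
  have e : (starRingEnd ℂ) ∘ riemannZeta₁ ∘ (starRingEnd ℂ) = riemannZeta₁ := by
    funext z
    simp [zeta1_conj]
  have h := congrFun (deriv_conj_conj (f := riemannZeta₁)) ((starRingEnd ℂ) s)
  rw [e] at h
  simp only [Function.comp_apply, RingHomCompTriple.comp_apply, RingHom.id_apply] at h
  simp only [Z2, h, zeta1_conj, map_sub, map_mul, map_one]

theorem polyG_zeta₁ : PolyG riemannZeta₁ (-1) 2 := by
  obtain ⟨C, A, hC⟩ := polyG_chi
  obtain ⟨M, hM0, hM⟩ := compact_bound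
  refine ⟨M + 7 + 14 * |C|, A + 3, fun s h1 h2 => ?_⟩
  have ht : 0 ≤ |s.im| := abs_nonneg _
  have hb : (1 : ℝ) ≤ 1 + |s.im| := by linarith
  have hp : (1 : ℝ) ≤ (1 + |s.im|) ^ (A + 3) := one_le_pow₀ hb
  have hC0 : 0 ≤ |C| := abs_nonneg _
  by_cases hsmall : |s.im| ≤ 1
  · have := hM s ((norm_le_abs s (c := 2) (abs_le.2 ⟨by linarith, h2⟩)).trans (by linarith))
    nlinarith
  push Not at hsmall
  by_cases hr : 1 / 2 ≤ s.re
  · have h := right_bound hr h2
    have hp2 : (1 + |s.im|) ^ 2 ≤ (1 + |s.im|) ^ (A + 3) := pow_le_pow_right₀ hb (by omega)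
    nlinarith
  push Not at hr
  have him : s.im ≠ 0 := fun h => by rw [h] at hsmall; norm_num at hsmall
  have hs1 : s ≠ 1 := fun h => him (by simp [h])
  have hs0 : s ≠ 0 := fun h => him (by simp [h])
  have hw1 : 1 - s ≠ 1 := fun h => hs0 (by simpa using h)
  have hre : (1 - s).re = 1 - s.re := by simp
  have hie : |(1 - s).im| = |s.im| := by simp
  have hz := zeta_one_sub (s := 1 - s) (by rw [hre]; linarith) hw1
  rw [sub_sub_cancel] at hz
  have hchi := hC (1 - s) (by rw [hre]; linarith) (by rw [hre]; linarith)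
  have hrb := right_bound (s := 1 - s) (by rw [hre]; linarith) (by rw [hre]; linarith)
  rw [hie] at hchi hrb
  have hchi' : ‖chi (1 - s)‖ ≤ |C| * (1 + |s.im|) ^ A :=
    hchi.trans (mul_le_mul_of_nonneg_right (le_abs_self C) (by positivity))
  have hzz : ‖riemannZeta (1 - s)‖ ≤ 7 * (1 + |s.im|) ^ 2 := by
    refine le_trans ?_ hrb
    rw [zeta1_eq hw1, norm_mul]
    have h1' : 1 ≤ ‖1 - s - 1‖ := by
      have := abs_im_le_norm (1 - s - 1)
      have e : |(1 - s - 1).im| = |s.im| := by simp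
      linarith
    nlinarith [norm_nonneg (riemannZeta (1 - s))]
  have hn1 : ‖s - 1‖ ≤ 2 * (1 + |s.im|) := by
    have := norm_le_abs (s - 1) (c := 2) (by
      simp only [sub_re, one_re]
      exact abs_le.2 ⟨by linarith, by linarith⟩)
    have e : |(s - 1).im| = |s.im| := by simp
    linarith
  rw [zeta1_eq hs1, hz, norm_mul, norm_mul]
  have k1 := mul_le_mul hchi' hzz (norm_nonneg _) (by positivity)
  have k2 := mul_le_mul hn1 k1 (by positivity) (by positivity)
  have e3 : 2 * (1 + |s.im|) * (|C| * (1 + |s.im|) ^ A * (7 * (1 + |s.im|) ^ 2)) =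
      14 * |C| * (1 + |s.im|) ^ (A + 3) := by ring
  rw [e3] at k2
  nlinarith

theorem polyG_Z2 : PolyG Z2 (-(1 / 2)) (3 / 2) := by
  have hd : PolyG (deriv riemannZeta₁) (-(1 / 2)) (3 / 2) :=
    PolyG.der (δ := 1 / 2) (by norm_num) (polyG_zeta₁.mono (by norm_num) (by norm_num))
      fun s _ _ => differentiable_riemannZeta₁ s
  exact (((polyG_id _ _).sub (polyG_const 1 _ _)).mul hd).sub
    (polyG_zeta₁.mono (by norm_num) (by norm_num))

theorem Z2_eq_zero {y : ℝ} (h : 2 ≤ mult y) : Z2 (1 / 2 + y * I) = 0 := by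
  have hs : (1 / 2 + y * I : ℂ) ≠ 1 := fun h => by
    have := congrArg re h
    norm_num at this
  have ha : AnalyticAt ℂ riemannZeta (1 / 2 + y * I) :=
    differentiableOn_riemannZeta.analyticAt (isOpen_compl_singleton.mem_nhds hs)
  have h2 : ((2 : ℕ) : ℕ∞) ≤ analyticOrderAt riemannZeta (1 / 2 + y * I) := by
    rw [← Nat.cast_analyticOrderNatAt (order_ne_top y)]
    exact_mod_cast h
  have h3 := (natCast_le_analyticOrderAt_iff_iteratedDeriv_eq_zero ha).1 h2 1 (by norm_num)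
  rw [iteratedDeriv_one] at h3
  rw [Z2_eq hs, h3, mul_zero]

end Pool.Agent.P.MP_7eacff_nt.SZ
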