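import Pool.Agent.P.MP_7eacff_nt.SZ.ZeroSum
import Pool.Agent.P.MP_7eacff_nt.SZ.Gam

/-!
The inequality for sums over the zeros.
-/

open Complex Filter Topology MeasureTheory Set
open scoped Real ContDiff

namespace Pool.Agent.P.MP_7eacff_nt.SZ

open Pool.Agent.Lib.LargeSieve (primSet mem_primSet)

namespace ZSAux

theorem digamma_le (t : ℝ) {T : ℝ} (hT : 1 ≤ T) :
    (digamma ((1 / 2 + t * I) / 2)).re ≤ Real.log T + 64 + (1 / 4 + t ^ 2) / T ^ 2 := by
  have h := abs_re_digamma_sub_le (a := 1 / 4) (y := t / 2) (by norm_num) (by norm_num)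
  rw [show ((1 / 4 : ℝ) : ℂ) + ((t / 2 : ℝ) : ℂ) * I = (1 / 2 + t * I) / 2 by push_cast; ring] at h
  have h1 : 4 / ((1 / 4 : ℝ) ^ 2 * (1 + |t / 2|)) ≤ 64 := by
    rw [div_le_iff₀ (by positivity)]
    linarith [abs_nonneg (t / 2)]
  have h2 : 0 < (1 / 4 + t ^ 2) / T ^ 2 := by positivity
  have h3 := Real.log_le_sub_one_of_pos h2
  rw [Real.log_div (by positivity) (by positivity), Real.log_pow] at h3
  have h4 : Real.log ((1 / 4) ^ 2 + (t / 2) ^ 2) ≤ Real.log (1 / 4 + t ^ 2) :=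
    Real.log_le_log (by positivity) (by linarith [sq_nonneg t])
  push_cast at h3
  linarith [(abs_le.1 h).2]

theorem crit (t : ℝ) : (1 / 2 + t * I : ℂ) * (1 - (1 / 2 + t * I)) = ((1 / 4 + t ^ 2 : ℝ) : ℂ) := by
  push_cast
  linear_combination -(t : ℂ) ^ 2 * I_mul_I

theorem poly (a b : ℝ) : PolyG (fun s => s * (1 - s)) a b :=
  (polyG_id a b).mul ((polyG_const 1 a b).sub (polyG_id a b))

variable {H : ℂ → ℂ} (hH : Differentiable ℂ H) (hd : ∀ A, Dec H (-(1 / 2)) (3 / 2) A)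

include hH hd

theorem lint {p : ℂ → ℂ} (hp : PolyG p (3 / 2) (3 / 2))
    (hc : Continuous fun t : ℝ => p (3 / 2 + t * I)) : LInt fun s => H s * p s :=
  (Dec.mul_poly (fun A => (hd A).mono (by norm_num) le_rfl le_rfl) hp 2).lint
    ((hH.continuous.comp (by fun_prop)).mul hc)

theorem nonneg {p : ℂ → ℂ} (hp : PolyG p (1 / 2) (3 / 2))
    (hc : ∀ s : ℂ, 1 / 2 ≤ s.re → DifferentiableAt ℂ p s)
    (h : ∀ t : ℝ, 0 ≤ (H (1 / 2 + t * I) * p (1 / 2 + t * I)).re) :
    0 ≤ (LI fun s => H s * p s).re := by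
  have e := strip_shift (f := fun s => H s * p s) (a := 1 / 2) (b := 3 / 2) (by norm_num)
    (fun s h1 _ => (hH s).mul (hc s h1))
    (Dec.mul_poly (fun A => (hd A).mono (by norm_num) le_rfl le_rfl) hp 2)
  push_cast at e
  rw [LI, ← e, show (2 * π : ℂ) = ((2 * π : ℝ) : ℂ) by push_cast; rfl, div_ofReal_re]
  refine div_nonneg ?_ (by positivity)
  by_cases hi : Integrable fun t : ℝ => H (1 / 2 + t * I) * p (1 / 2 + t * I)
  · exact (integral_nonneg h).trans_eq (reCLM.integral_comp_comm hi)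
  · rw [integral_undef hi, zero_re]

theorem odd (hs : ∀ s, H (1 - s) = H s) : (LI fun s => H s * (1 - 2 * s)) = 0 := by
  have e := LI_reflect (f := fun s => H s * (1 - 2 * s)) (by fun_prop)
    (Dec.mul_poly hd ((polyG_const 1 _ _).sub ((polyG_const 2 _ _).mul (polyG_id _ _))) 2)
  rw [LI_congr (g := fun s => -1 * (H s * (1 - 2 * s))) fun s _ => by rw [hs]; ring,
    LI_const_mul] at e
  linear_combination -(1 / 2) * e

end ZSAux

theorem zero_sum_le (hRH : RiemannHypothesis) : ∃ C : ℝ, ∀ H : ℂ → ℂ, Differentiable ℂ H →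
    (∀ s, H (1 - s) = H s) → (∀ A, Dec H (-(1 / 2)) (3 / 2) A) →
    (∀ t : ℝ, (H (1 / 2 + t * I)).im = 0 ∧ 0 ≤ (H (1 / 2 + t * I)).re) → ∀ T : ℝ, 1 ≤ T →
    (Summable fun y : Ord => (mult y : ℝ) * ((1 / 4 + (y : ℝ) ^ 2) * (H (1 / 2 + (y : ℝ) * I)).re)) ∧
    ∑' y : Ord, (mult y : ℝ) * ((1 / 4 + (y : ℝ) ^ 2) * (H (1 / 2 + (y : ℝ) * I)).re) ≤
      -2 * (LI fun s => s * (1 - s) * H s * LSeries vm s).re +
        (Real.log T + C) * (LI fun s => s * (1 - s) * H s).re +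
        (LI fun s => (s * (1 - s)) ^ 2 * H s).re / T ^ 2 := by
  refine ⟨64, fun H hH hs hd hp T hT => ?_⟩
  have h1 := hasSum_zeros hRH (H := fun s => H s * (s * (1 - s))) (by fun_prop)
    (fun s => by rw [hs]; ring) (Dec.mul_poly hd (ZSAux.poly _ _) 4)
  have h2 := hasSum_re h1
  simp only [ZSAux.crit, mul_comm (H _), ← ofReal_natCast, re_ofReal_mul] at h2
  refine ⟨h2.summable, h2.tsum_eq.trans_le ?_⟩
  obtain ⟨c, hc⟩ : ∃ c : ℝ, c = Real.log T + 64 := ⟨_, rfl⟩
  obtain ⟨d, hd'⟩ : ∃ d : ℝ, d = 1 / T ^ 2 := ⟨_, rfl⟩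
  obtain ⟨p, e⟩ : ∃ p : ℂ → ℂ, p = fun s => s * (1 - s) *
    (c + Real.log π + d * (s * (1 - s)) - digamma (s / 2)) := ⟨_, rfl⟩
  have p1 : PolyG p (1 / 2) (3 / 2) := e ▸ (ZSAux.poly _ _).mul (((polyG_const _ _ _).add
    ((polyG_const _ _ _).mul (ZSAux.poly _ _))).sub polyG_digamma)
  have p2 : ∀ s : ℂ, 1 / 2 ≤ s.re → DifferentiableAt ℂ p s := fun s h => by
    have := (differentiableAt_digamma (s := s / 2) (by simp; linarith)).comp s
      (f := fun s : ℂ => s / 2) (by fun_prop)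
    rw [e]
    exact DifferentiableAt.mul (by fun_prop) (DifferentiableAt.sub (by fun_prop) this)
  have p3 := ZSAux.nonneg hH hd p1 p2 fun t => by
    have k1 := ZSAux.digamma_le t hT
    have k2 : 0 ≤ Real.log π := Real.log_nonneg (by linarith [Real.pi_gt_three])
    rw [e]
    simp only [ZSAux.crit]
    rw [mul_re, (hp t).1, zero_mul, sub_zero, re_ofReal_mul, sub_re, add_re, add_re, ← ofReal_mul,
      ofReal_re, ofReal_re, ofReal_re, hc, hd', one_div_mul_eq_div]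
    exact mul_nonneg (hp t).2 (mul_nonneg (by positivity) (by linarith))
  have hv := (LSeries_vm (s := 3 / 2) (by norm_num)).1
  have i1 := (ZSAux.lint hH hd (p := fun s => 1 - 2 * s)
    ((polyG_const 1 _ _).sub ((polyG_const 2 _ _).mul (polyG_id _ _))) (by fun_prop)).const_mul 2
  have i2 := (ZSAux.lint hH hd (p1.mono (by norm_num) le_rfl)
    (continuous_iff_continuousAt.2 fun t => (p2 _ (by simp; norm_num)).continuousAt.comp
      (f := fun t : ℝ => (3 / 2 + t * I : ℂ)) (by fun_prop))).const_mul (-1)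
  have i3 := ((ZSAux.lint hH hd (ZSAux.poly _ _) (by fun_prop)).congr
    (g := fun s => s * (1 - s) * H s) fun s _ => mul_comm _ _).const_mul c
  have i4 := ((ZSAux.lint hH hd ((ZSAux.poly _ _).pow 2) (by fun_prop)).congr
    (g := fun s => (s * (1 - s)) ^ 2 * H s) fun s _ => mul_comm _ _).const_mul d
  have i5 := ((ZSAux.lint hH hd ((ZSAux.poly _ _).mul (polyG_LSeries hv))
    (Continuous.mul (by fun_prop) (continuous_LSeries_line hv))).congr
    (g := fun s => s * (1 - s) * H s * LSeries vm s) fun s _ => by ring).const_mul ((-2 : ℝ) : ℂ)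
  rw [← LI_const_mul, LI_congr (g := fun s => 2 * (H s * (1 - 2 * s)) + (-1 * (H s * p s) +
      (c * (s * (1 - s) * H s) + (d * ((s * (1 - s)) ^ 2 * H s) +
        ((-2 : ℝ) : ℂ) * (s * (1 - s) * H s * LSeries vm s))))) fun s h => by
      have s0 : s ≠ 0 := by rintro rfl; norm_num at h
      have s1 : s - 1 ≠ 0 := sub_ne_zero.2 (by rintro rfl; norm_num at h)
      rw [logDeriv_xi (by linarith), ← funext vm_apply, e]
      push_cast
      field_simp
      ring,
    LI_add i1 (i2.add (i3.add (i4.add i5))), LI_add i2 (i3.add (i4.add i5)),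
    LI_add i3 (i4.add i5), LI_add i4 i5, LI_const_mul, LI_const_mul, LI_const_mul, LI_const_mul,
    LI_const_mul, ZSAux.odd hH hd hs, mul_zero, zero_add, add_re, add_re, add_re, neg_one_mul,
    neg_re, re_ofReal_mul, re_ofReal_mul, re_ofReal_mul, hc, hd', one_div_mul_eq_div]
  linarith

end Pool.Agent.P.MP_7eacff_nt.SZ
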