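import Pool.Agent.P.MP_7eacff_nt.SZ.Strip
import Pool.Agent.P.MP_7eacff_nt.SZ.Frac

/-!
Sums over the zeros as line integrals.
-/

open Complex Filter Topology MeasureTheory Set
open scoped Real ContDiff

namespace Pool.Agent.P.MP_7eacff_nt.SZ

open Pool.Agent.Lib.LargeSieve (primSet mem_primSet)

namespace ZeroSumAux

theorem bd0 {a b : ℂ} (ha : a ≠ 0) (hb : b ≠ 0) :
    ‖1 / a + 1 / b‖ ≤ ‖a + b‖ / 2 * (1 / ‖a‖ ^ 2 + 1 / ‖b‖ ^ 2) := by
  have e : 1 / a + 1 / b = (a + b) * (1 / a) * (1 / b) := by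
    field_simp
    ring
  rw [e, norm_mul, norm_mul, norm_div, norm_div, norm_one, ← one_div_pow, ← one_div_pow]
  nlinarith [mul_nonneg (norm_nonneg (a + b)) (sq_nonneg (1 / ‖a‖ - 1 / ‖b‖))]

theorem bd (t y : ℝ) : ‖1 / (3 / 2 + t * I - (1 / 2 + y * I)) +
    1 / (3 / 2 + t * I - 1 + (1 / 2 + y * I))‖ ≤
      (1 + |t|) * (1 / (1 + (t - y) ^ 2) + 1 / (1 + (-t - y) ^ 2)) := by
  have e1 : ‖(3 / 2 + t * I - (1 / 2 + y * I) : ℂ)‖ ^ 2 = 1 + (t - y) ^ 2 := by
    rw [Complex.sq_norm, normSq_apply]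
    simp
    ring
  have e2 : ‖(3 / 2 + t * I - 1 + (1 / 2 + y * I) : ℂ)‖ ^ 2 = 1 + (-t - y) ^ 2 := by
    rw [Complex.sq_norm, normSq_apply]
    simp
    ring
  have n : ∀ {a : ℂ} {x : ℝ}, ‖a‖ ^ 2 = 1 + x ^ 2 → a ≠ 0 := fun {a x} h e => by
    rw [e, norm_zero] at h
    nlinarith [sq_nonneg x]
  refine (bd0 (n e1) (n e2)).trans ?_
  rw [e1, e2, show (3 / 2 + t * I - (1 / 2 + y * I) + (3 / 2 + t * I - 1 + (1 / 2 + y * I)) : ℂ) =
    2 * (1 + t * I) by ring, norm_mul, Complex.norm_two, mul_div_cancel_left₀ _ two_ne_zero]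
  exact mul_le_mul_of_nonneg_right ((norm_add_le _ _).trans_eq (by simp)) (by positivity)

end ZeroSumAux

theorem hasSum_zeros (hRH : RiemannHypothesis) {H : ℂ → ℂ} (hH : Differentiable ℂ H)
    (hs : ∀ s, H (1 - s) = H s) (hd : Dec H (-(1 / 2)) (3 / 2) 4) :
    HasSum (fun y : Ord => (mult y : ℂ) * H (1 / 2 + (y : ℝ) * I))
      (2 * LI fun s => H s * logDeriv xi s) := by
  have := countable_ord
  have hd' := hd.mono le_rfl le_rfl (by norm_num : 2 ≤ 4)
  obtain ⟨C, hC⟩ := hd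
  obtain ⟨C₁, hC₁, hG⟩ := (zdata hRH).G_le
  have hC0 : 0 ≤ C := by
    simpa using (norm_nonneg _).trans (hC 0 (by norm_num) (by norm_num))
  have hm := hH.continuous.measurable
  let F : Ord → ℝ → ℂ := fun y t => H (3 / 2 + t * I) * ((mult y : ℂ) *
    (1 / (3 / 2 + t * I - (1 / 2 + (y : ℝ) * I)) + 1 / (3 / 2 + t * I - 1 + (1 / 2 + (y : ℝ) * I))))
  have hG' : ∀ x, G zmeas x ≤ C₁ * (1 + |x|) := fun x => (hG x).trans
    (mul_le_mul_of_nonneg_left ((Real.log_le_sub_one_of_pos (by positivity)).trans_eq (by ring))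
      hC₁.le)
  have key : ∀ (s : Finset Ord) (t : ℝ), ∑ y ∈ s, ‖F y t‖ ≤ 2 * C * C₁ * (1 + t ^ 2)⁻¹ := by
    intro s t
    have h1 := hC (3 / 2 + t * I) (by simp; norm_num) (by simp)
    rw [show (3 / 2 + t * I : ℂ).im = t by simp] at h1
    have h2 := sum_le_hasSum s (fun y _ => by positivity)
      (((hasSum_G hRH t).add (hasSum_G hRH (-t))).mul_left (C / (1 + |t|) ^ 4 * (1 + |t|)))
    have h3 := hG' t
    have h4 := hG' (-t)
    rw [abs_neg] at h4
    have h5 : 1 + t ^ 2 ≤ (1 + |t|) ^ 2 := by nlinarith [abs_nonneg t, sq_abs t]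
    calc _ ≤ _ := Finset.sum_le_sum fun y _ => by
          rw [norm_mul, norm_mul, Complex.norm_natCast]
          refine (mul_le_mul h1 (mul_le_mul_of_nonneg_left (ZeroSumAux.bd t y) (Nat.cast_nonneg _))
            (by positivity) (by positivity)).trans_eq ?_
          ring
      _ ≤ _ := h2
      _ ≤ C / (1 + |t|) ^ 4 * (1 + |t|) * (C₁ * (1 + |t|) + C₁ * (1 + |t|)) := by gcongr
      _ = 2 * C * C₁ * ((1 + |t|) ^ 2)⁻¹ := by
          field_simp
          ring
      _ ≤ _ := by gcongr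
  have hD := integrable_inv_one_add_sq.const_mul (2 * C * C₁)
  have hi : ∀ y, Integrable (F y) := fun y => hD.mono'
    (Measurable.aestronglyMeasurable (by simp only [F]; fun_prop))
    (Eventually.of_forall fun t => by simpa only [Finset.sum_singleton] using key {y} t)
  have hS : Summable fun y => ∫ t, ‖F y t‖ :=
    summable_of_sum_le (fun y => integral_nonneg fun t => norm_nonneg _) fun s => by
      rw [← integral_finsetSum _ fun y _ => (hi y).norm]
      exact integral_mono (integrable_finsetSum _ fun y _ => (hi y).norm) hD (key s)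
  have H1 := (hasSum_integral_of_summable_integral_norm hi hS).div_const (2 * π)
  have e1 : ∀ y : Ord, (∫ t, F y t) / (2 * π) = (mult y : ℂ) * H (1 / 2 + (y : ℝ) * I) := fun y => by
    rw [cauchy_strip hH hs hd' y, LI, ← mul_div_assoc, ← integral_const_mul]
    simp only [F, mul_left_comm]
  have e2 : ∀ t : ℝ, ∑' y, F y t = 2 * (H (3 / 2 + t * I) * logDeriv xi (3 / 2 + t * I)) :=
    fun t => ((hasSum_frac hRH t).mul_left _).tsum_eq.trans (mul_left_comm _ _ _)
  simp only [e1, e2] at H1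
  rwa [integral_const_mul, mul_div_assoc] at H1

end Pool.Agent.P.MP_7eacff_nt.SZ
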